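import Pool.Agent.H97.FB.ANG

/-! # [H97 FB ANV] The values at the rational point

`evC_eq_evz`: `evC h a = evl h (reS a) + I evl h (imS a)` (this is `h3` in the proof of `evC_near`,
`Pool/Agent/H97/GA/TCB.lean`), `evl h b = ∑' b_k h^k` by definition; take real and imaginary parts of the sum
(`Complex.re_tsum`/`HasSum.mapL`, `evz_hasSum`; `(h : ℂ)^k` is real).
Let `h = 1 / XB pd a`, `q1 = q e²`, `(q1 h)^e = 1/a` (`XB = q1 a^(1/e)`, `Real.rpow_natCast`, `Real.rpow_mul`), `h > 0`, and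
`hyp` says `4 δ q1 R h ≤ 1`, so `x2P_nrm` applies with `r = h`.
`value1`: `evC h (x1P pd i) = evC (e² h) (pd.x i)` (`rescale`), `e² h = 1 / (q a^(1/e)) = 1 / XA pd a`; multiply by `a^m`: `thA`.
`value2`: `evz` is multiplicative on `Gr h` (`evz_mul`, `evH`): `evz h tau = (q1 h)^e = 1/a`;
`evz h WC =: ω` satisfies `ω^e (1 + δ/a) = 1` (apply `evz h` to `S.pow` mapped to `ℂ`), and `ω` is real and positive: it is
real because the coefficients are integers; positive because `|ω - 1| ≤ ∑_(k ≥ 1) (δ q1 h)^k ≤ 1/7 * .. < 1` (the constant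
coefficient is `1`, `‖W_k‖ ≤ (δ q1)^k`, `δ q1 h ≤ 1/8` since `R ≥ 2`), so `ω = (1 + δ/a)^(-1/e)`
(`pow_left_injective` on positive reals) and `e² h ω = 1 / (q a^(1/e) (1 + δ/a)^(1/e)) = 1 / (q (a + δ)^(1/e)) = 1 / XA pd (a + δ)`
(`Real.mul_rpow`). `cps_ev` (CPS): `evz h (sbH _ (x j)) = evz (evz h uzP) (x j)`, `evz h uzP = e² h ω`. So
`a^m evC h (x2P ..) = a^m (1 + δ/a)^m evC (1/XA pd (a+δ)) (x j) = (a+δ)^m .. = thA pd m (a + δ) j`. -/

namespace Pool.Agent.H97.FB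

open Finset Polynomial Pool.Agent.H72.ES Pool.Agent.H87.SA2 Pool.Agent.H52.AC Pool.Agent.H97.GA

variable {n m δ : ℕ} {g : ℤ[X][X]}

theorem evC_eq_evz {h : ℝ} (hh : 0 ≤ h) {x : PowerSeries ℂ} (hx : Gr h x) :
    evC h x = evz (h : ℂ) x := by
  have h3 : evC h x = (Pool.Agent.H87.SA.evl h (reS x) : ℂ) +
      Complex.I * (Pool.Agent.H87.SA.evl h (imS x) : ℂ) := by
    unfold evC tayC
    rw [← PowerSeries.coeff_zero_eq_constantCoeff_apply, map_add, PowerSeries.coeff_C_mul,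
      PowerSeries.coeff_map, PowerSeries.coeff_map, Pool.Agent.H87.SA.tay_coeff_zero,
      Pool.Agent.H87.SA.tay_coeff_zero]
    rfl
  have hT : ‖(h : ℂ)‖ ≤ h := by
    rw [Complex.norm_real, Real.norm_eq_abs, abs_of_nonneg hh]
  have h1 := evz_hasSum hT hx
  rw [Complex.hasSum_iff] at h1
  obtain ⟨h4, h5⟩ := h1
  have e1 : Pool.Agent.H87.SA.evl h (reS x) = (evz (h : ℂ) x).re := by
    unfold Pool.Agent.H87.SA.evl
    rw [← h4.tsum_eq]
    refine tsum_congr fun k => ?_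
    unfold reS
    rw [PowerSeries.coeff_mk, ← Complex.ofReal_pow, Complex.re_mul_ofReal]
  have e2 : Pool.Agent.H87.SA.evl h (imS x) = (evz (h : ℂ) x).im := by
    unfold Pool.Agent.H87.SA.evl
    rw [← h5.tsum_eq]
    refine tsum_congr fun k => ?_
    unfold imS
    rw [PowerSeries.coeff_mk, ← Complex.ofReal_pow, Complex.im_mul_ofReal]
  rw [h3, e1, e2, mul_comm]
  exact Complex.re_add_im _

theorem anv_rescale (c T : ℂ) (x : PowerSeries ℂ) :
    evz T (PowerSeries.rescale c x) = evz (c * T) x := by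
  unfold Pool.Agent.H52.AC.evz
  refine tsum_congr fun k => ?_
  rw [PowerSeries.coeff_rescale, mul_pow]
  ring

theorem anv_gr (pd : PData g n) {r : ℝ} (hr : 0 ≤ r) (hR : pd.R * r < 1) (i : Fin n) :
    Gr r (pd.x i) := by
  have h2 := pd.R_ge
  refine gr_of_le (R := pd.R) (C := pd.R) (by linarith) hr hR fun k => ?_
  refine (pd.growth i k).trans_eq ?_
  rw [pow_succ, mul_comm]

theorem anv_q (pd : PData g n) : (1 : ℝ) ≤ pd.q := by exact_mod_cast pd.q_pos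

theorem anv_e (pd : PData g n) : (1 : ℝ) ≤ pd.e := by exact_mod_cast pd.e_pos

theorem anv_XA_pos (pd : PData g n) {a : ℕ} (ha : 1 ≤ a) : 0 < XA pd a := by
  unfold XA
  have h1 : (0 : ℝ) < a := by exact_mod_cast ha
  exact mul_pos (by linarith [anv_q pd]) (Real.rpow_pos_of_pos h1 _)

theorem anv_XB (pd : PData g n) (a : ℕ) : XB pd a = (pd.e : ℝ) ^ 2 * XA pd a := by
  unfold XB XA
  push_cast
  ring

theorem anv_XA_pow (pd : PData g n) (a : ℕ) : XA pd a ^ pd.e = (pd.q : ℝ) ^ pd.e * a := by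
  unfold XA
  rw [mul_pow, ← Real.rpow_natCast ((a : ℝ) ^ ((1 : ℝ) / pd.e)), ← Real.rpow_mul (Nat.cast_nonneg a),
    one_div, inv_mul_cancel₀, Real.rpow_one]
  have := anv_e pd
  linarith

theorem anv_XA_mono (pd : PData g n) {a b : ℕ} (hab : a ≤ b) : XA pd a ≤ XA pd b := by
  unfold XA
  refine mul_le_mul_of_nonneg_left ?_ (Nat.cast_nonneg _)
  refine Real.rpow_le_rpow (Nat.cast_nonneg _) (by exact_mod_cast hab) ?_
  positivity

theorem anv_XA_ge (pd : PData g n) {a : ℕ}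
    (hyp : 4 * (pd.q * pd.e ^ 2 : ℕ) * pd.R ≤ XB pd a) : 4 * pd.R ≤ XA pd a := by
  rw [anv_XB] at hyp
  push_cast at hyp
  have h1 := anv_q pd
  have h2 := anv_e pd
  have h3 := pd.R_ge
  have he : (0 : ℝ) < (pd.e : ℝ) ^ 2 := by positivity
  have h4 : 4 * pd.q * pd.R ≤ XA pd a := by
    refine le_of_mul_le_mul_left ?_ he
    refine le_trans (le_of_eq ?_) hyp
    ring
  refine le_trans ?_ h4
  nlinarith

theorem anv_grA (pd : PData g n) {a : ℕ} (ha : 1 ≤ a) (h : 4 * pd.R ≤ XA pd a) (i : Fin n) :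
    Gr (1 / XA pd a) (pd.x i) := by
  have h1 := anv_XA_pos pd ha
  refine anv_gr pd (one_div_pos.2 h1).le ?_ i
  rw [mul_one_div, div_lt_one h1]
  linarith [pd.R_ge]

theorem value1 (pd : PData g n) {a : ℕ} (ha : 1 ≤ a) (i : Fin n)
    (hyp : 4 * (pd.q * pd.e ^ 2 : ℕ) * pd.R ≤ XB pd a) :
    (a : ℂ) ^ m * evC (1 / XB pd a) (x1P pd i) = thA pd m a i := by
  have h1 := anv_XA_pos pd ha
  have h2 := anv_XA_ge pd hyp
  have h3 := anv_q pd
  have h4 := anv_e pd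
  have h5 := pd.R_ge
  have he : (0 : ℝ) < (pd.e : ℝ) ^ 2 := by positivity
  have hB : 0 < XB pd a := by
    rw [anv_XB]
    exact mul_pos he h1
  have hg : Gr (1 / XB pd a) (x1P pd i) := by
    refine gr_of_le (R := (pd.e : ℝ) ^ 2 * pd.R) (C := pd.R) (by positivity)
      (one_div_pos.2 hB).le ?_ fun k => ?_
    · rw [mul_one_div, div_lt_one hB, anv_XB]
      exact mul_lt_mul_of_pos_left (by linarith) he
    · unfold x1P
      rw [PowerSeries.coeff_rescale, norm_mul, norm_pow, norm_pow, Complex.norm_natCast, mul_pow]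
      calc ((pd.e : ℝ) ^ 2) ^ k * ‖PowerSeries.coeff k (pd.x i)‖
          ≤ ((pd.e : ℝ) ^ 2) ^ k * pd.R ^ (k + 1) :=
            mul_le_mul_of_nonneg_left (pd.growth i k) (by positivity)
        _ = pd.R * (((pd.e : ℝ) ^ 2) ^ k * pd.R ^ k) := by rw [pow_succ]; ring
  unfold thA
  rw [evC_eq_evz (one_div_pos.2 hB).le hg, evC_eq_evz (one_div_pos.2 h1).le (anv_grA pd ha h2 i)]
  congr 1
  unfold x1P
  rw [anv_rescale]
  congr 1
  rw [anv_XB]
  push_cast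
  have h6 : (XA pd a : ℂ) ≠ 0 := by exact_mod_cast h1.ne'
  have h7 : (pd.e : ℂ) ≠ 0 := by
    have : (pd.e : ℝ) ≠ 0 := by linarith
    exact_mod_cast this
  field_simp

/-- the coefficients of `W` -/
theorem anv_W_le {e q : ℕ} (S : WdP e q δ) (he : 1 ≤ e) (hδ : 1 ≤ δ) (k : ℕ) :
    ‖PowerSeries.coeff k S.WC‖ ≤ ((δ * (q * e ^ 2) : ℕ) : ℝ) ^ k := by
  have h0 : PowerSeries.coeff k S.WC = ((PowerSeries.coeff k S.W : ℤ) : ℂ) := by
    unfold WdP.WC
    rw [PowerSeries.coeff_map]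
    rfl
  rw [h0, Complex.norm_intCast]
  by_cases hk : e ∣ k
  · obtain ⟨l, rfl⟩ := hk
    have h1 := S.le l
    have h2 : ((δ * (q * e ^ 2) ^ e) ^ l : ℕ) ≤ (δ * (q * e ^ 2)) ^ (e * l) := by
      rw [pow_mul, mul_pow δ _ e]
      refine Nat.pow_le_pow_left (Nat.mul_le_mul_right _ ?_) l
      calc δ = δ ^ 1 := (pow_one δ).symm
        _ ≤ δ ^ e := Nat.pow_le_pow_right hδ he
    have h3 : |PowerSeries.coeff (e * l) S.W| ≤ (((δ * (q * e ^ 2)) ^ (e * l) : ℕ) : ℤ) :=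
      h1.trans (by exact_mod_cast h2)
    have h4 : ((|PowerSeries.coeff (e * l) S.W| : ℤ) : ℝ) ≤
        ((((δ * (q * e ^ 2)) ^ (e * l) : ℕ) : ℤ) : ℝ) := by exact_mod_cast h3
    rw [Int.cast_abs] at h4
    refine h4.trans (le_of_eq ?_)
    push_cast
    ring
  · rw [S.supp k hk, Int.cast_zero, abs_zero]
    positivity

theorem anv_map_pow {e q : ℕ} (S : WdP e q δ) :
    S.WC ^ e * (1 + PowerSeries.C (δ : ℂ) * tau e q) = 1 := by
  have h := congrArg (PowerSeries.map (Int.castRingHom ℂ)) S.pow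
  rw [map_mul, map_pow, map_add, map_one, map_mul, map_pow, map_mul, PowerSeries.map_C,
    PowerSeries.map_C, PowerSeries.map_X] at h
  have h1 : (Int.castRingHom ℂ) (δ : ℤ) = (δ : ℂ) := by simp
  have h2 : (Int.castRingHom ℂ) ((q * e ^ 2 : ℕ) : ℤ) = (((q * e ^ 2 : ℕ) : ℕ) : ℂ) := by simp
  rw [h1, h2] at h
  exact h

theorem value2 (pd : PData g n) (S : WdP pd.e pd.q δ) (hδ : 1 ≤ δ) {a : ℕ} (ha : 1 ≤ a)
    (j : Fin n) (hyp : 4 * δ * (pd.q * pd.e ^ 2 : ℕ) * pd.R ≤ XB pd a) :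
    (a : ℂ) ^ m * evC (1 / XB pd a) (x2P pd m S j) = thA pd m (a + δ) j := by
  have h1 := anv_XA_pos pd ha
  have h3 := anv_q pd
  have h4 := anv_e pd
  have h5 := pd.R_ge
  have hδ' : (1 : ℝ) ≤ δ := by exact_mod_cast hδ
  have he : (0 : ℝ) < (pd.e : ℝ) ^ 2 := by positivity
  have hB : 0 < XB pd a := by
    rw [anv_XB]
    exact mul_pos he h1
  obtain ⟨h, hh⟩ : ∃ h : ℝ, h = 1 / XB pd a := ⟨_, rfl⟩
  have hh0 : 0 < h := by rw [hh]; exact one_div_pos.2 hB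
  have hXh : XB pd a * h = 1 := by rw [hh]; exact mul_one_div_cancel hB.ne'
  have hq1 : (0 : ℝ) < ((pd.q * pd.e ^ 2 : ℕ) : ℝ) := by
    push_cast
    positivity
  have hyp' : 4 * δ * (pd.q * pd.e ^ 2 : ℕ) * pd.R * h ≤ 1 := by
    rw [← hXh]
    exact mul_le_mul_of_nonneg_right hyp hh0.le
  have hyp1 : 4 * (pd.q * pd.e ^ 2 : ℕ) * pd.R ≤ XB pd a := by
    refine le_trans ?_ hyp
    refine mul_le_mul_of_nonneg_right ?_ (by linarith)
    refine mul_le_mul_of_nonneg_right ?_ hq1.le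
    linarith
  have h2 := anv_XA_ge pd hyp1
  obtain ⟨g1, g2, g3, g4, g5, -, g7, -⟩ := x2P_nrm (m := m) pd S hδ hh0.le hyp' j
  have hT : ‖(h : ℂ)‖ ≤ h := by
    rw [Complex.norm_real, Real.norm_eq_abs, abs_of_nonneg hh0.le]
  -- the value of `tau`
  let X' : cvz h hh0.le := ⟨PowerSeries.X, gr_X h⟩
  let q' : cvz h hh0.le := ⟨PowerSeries.C (((pd.q * pd.e ^ 2 : ℕ) : ℕ) : ℂ), gr_C h _⟩
  let δ' : cvz h hh0.le := ⟨PowerSeries.C (δ : ℂ), gr_C h _⟩
  let W' : cvz h hh0.le := ⟨S.WC, g1⟩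
  let ev := evH h hh0.le (h : ℂ) hT
  have eX : ev X' = (h : ℂ) := by
    show evz (h : ℂ) PowerSeries.X = _
    exact evz_X _
  have eq' : ev q' = (((pd.q * pd.e ^ 2 : ℕ) : ℕ) : ℂ) := by
    show evz (h : ℂ) (PowerSeries.C _) = _
    exact evz_C _ _
  have eδ : ev δ' = (δ : ℂ) := by
    show evz (h : ℂ) (PowerSeries.C _) = _
    exact evz_C _ _
  have etau : ev ((q' * X') ^ pd.e) = 1 / (a : ℂ) := by
    rw [map_pow, map_mul, eX, eq']
    have h6 : (((pd.q * pd.e ^ 2 : ℕ) : ℝ) * h) ^ pd.e = 1 / (a : ℝ) := by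
      have h7 : (((pd.q * pd.e ^ 2 : ℕ) : ℝ) * h) * XA pd a = pd.q := by
        have h8 : XB pd a * h = 1 := hXh
        rw [anv_XB] at h8
        push_cast
        calc (pd.q : ℝ) * (pd.e : ℝ) ^ 2 * h * XA pd a
            = (pd.q : ℝ) * ((pd.e : ℝ) ^ 2 * XA pd a * h) := by ring
          _ = (pd.q : ℝ) := by rw [h8, mul_one]
      have h8 : (((pd.q * pd.e ^ 2 : ℕ) : ℝ) * h) ^ pd.e * ((pd.q : ℝ) ^ pd.e * a) =
          (pd.q : ℝ) ^ pd.e := by
        rw [← anv_XA_pow, ← mul_pow, h7]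
      have ha' : (0 : ℝ) < a := by exact_mod_cast ha
      have hqp : (0 : ℝ) < (pd.q : ℝ) ^ pd.e := by positivity
      rw [eq_div_iff ha'.ne']
      refine mul_left_cancel₀ hqp.ne' ?_
      rw [mul_one]
      calc _ = (((pd.q * pd.e ^ 2 : ℕ) : ℝ) * h) ^ pd.e * ((pd.q : ℝ) ^ pd.e * a) := by ring
        _ = _ := h8
    have h9 := congrArg (fun z : ℝ => (z : ℂ)) h6
    simp only [Complex.ofReal_pow, Complex.ofReal_mul, Complex.ofReal_natCast, Complex.ofReal_div,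
      Complex.ofReal_one] at h9
    exact h9
  -- the value of `W`
  obtain ⟨ω, hω⟩ : ∃ ω : ℂ, ω = ev W' := ⟨_, rfl⟩
  have hω' : evz (h : ℂ) S.WC = ω := hω.symm
  have hWp : W' ^ pd.e * (1 + δ' * (q' * X') ^ pd.e) = 1 := Subtype.ext (anv_map_pow S)
  have hωp : ω ^ pd.e * (1 + δ * (1 / (a : ℂ))) = 1 := by
    have h6 := congrArg ev hWp
    rw [map_mul, map_pow, map_add, map_one, map_mul, etau, eδ, ← hω] at h6
    exact h6
  -- `ω` is real
  have him : ω.im = 0 := by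
    have h6 := evz_hasSum hT g1
    rw [Complex.hasSum_iff] at h6
    rw [← hω', ← h6.2.tsum_eq]
    rw [← tsum_zero (α := ℝ) (β := ℕ)]
    refine tsum_congr fun k => ?_
    unfold WdP.WC
    rw [PowerSeries.coeff_map, ← Complex.ofReal_pow, Complex.im_mul_ofReal]
    simp
  -- `ω` is close to `1`
  have hre : 0 < ω.re := by
    obtain ⟨V, hV⟩ : ∃ V : PowerSeries ℂ, V = PowerSeries.mk fun k =>
      PowerSeries.coeff (k + 1) S.WC := ⟨_, rfl⟩
    have hc0 : PowerSeries.coeff 0 S.WC = 1 := by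
      unfold WdP.WC
      rw [PowerSeries.coeff_map, PowerSeries.coeff_zero_eq_constantCoeff_apply, S.c0, map_one]
    have hWV : S.WC = 1 + PowerSeries.X * V := by
      ext k
      rcases k with _ | k
      · rw [map_add, PowerSeries.coeff_zero_X_mul, add_zero, PowerSeries.coeff_zero_one, hc0]
      · rw [map_add, PowerSeries.coeff_succ_X_mul, PowerSeries.coeff_one,
          if_neg (Nat.succ_ne_zero k), zero_add, hV, PowerSeries.coeff_mk]
    have hD0 : (0 : ℝ) ≤ ((δ * (pd.q * pd.e ^ 2) : ℕ) : ℝ) := Nat.cast_nonneg _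
    have hDh : ((δ * (pd.q * pd.e ^ 2) : ℕ) : ℝ) * h ≤ 1 / 8 := by
      have h6 : ((δ * (pd.q * pd.e ^ 2) : ℕ) : ℝ) * h * 8 ≤ 4 * δ * (pd.q * pd.e ^ 2 : ℕ) * pd.R * h := by
        have h7 : (0 : ℝ) ≤ δ * (pd.q * pd.e ^ 2 : ℕ) * h := by positivity
        have h8 : ((δ * (pd.q * pd.e ^ 2) : ℕ) : ℝ) * h * 8 = δ * (pd.q * pd.e ^ 2 : ℕ) * h * (4 * 2) := by
          rw [Nat.cast_mul]; ring
        rw [h8]
        calc (δ : ℝ) * (pd.q * pd.e ^ 2 : ℕ) * h * (4 * 2)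
            ≤ δ * (pd.q * pd.e ^ 2 : ℕ) * h * (4 * pd.R) := mul_le_mul_of_nonneg_left (by linarith) h7
          _ = _ := by ring
      linarith
    have hVc : ∀ k, ‖PowerSeries.coeff k V‖ ≤ ((δ * (pd.q * pd.e ^ 2) : ℕ) : ℝ) *
        ((δ * (pd.q * pd.e ^ 2) : ℕ) : ℝ) ^ k := by
      intro k
      rw [hV, PowerSeries.coeff_mk]
      refine (anv_W_le S pd.e_pos hδ (k + 1)).trans_eq ?_
      rw [pow_succ, mul_comm]
    have hVg : Gr h V := gr_of_le hD0 hh0.le (by linarith) hVc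
    have hVe : ‖evz (h : ℂ) V‖ ≤ 2 * ((δ * (pd.q * pd.e ^ 2) : ℕ) : ℝ) := by
      refine evz_le hD0 hD0 ?_ hVc
      rw [Complex.norm_real, Real.norm_eq_abs, abs_of_nonneg hh0.le]
      linarith
    have hω2 : ω = 1 + (h : ℂ) * evz (h : ℂ) V := by
      have h6 : W' = 1 + X' * (⟨V, hVg⟩ : cvz h hh0.le) := Subtype.ext hWV
      rw [hω, h6, map_add, map_one, map_mul, eX]
      rfl
    have h7 : ‖(h : ℂ) * evz (h : ℂ) V‖ ≤ 1 / 4 := by
      rw [norm_mul, Complex.norm_real, Real.norm_eq_abs, abs_of_nonneg hh0.le]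
      have := mul_le_mul_of_nonneg_left hVe hh0.le
      linarith
    have h8 := (Complex.abs_re_le_norm ((h : ℂ) * evz (h : ℂ) V)).trans h7
    rw [hω2, Complex.add_re, Complex.one_re]
    have := neg_abs_le ((h : ℂ) * evz (h : ℂ) V).re
    linarith
  obtain ⟨ρ, hρ⟩ : ∃ ρ : ℝ, ρ = ω.re := ⟨_, rfl⟩
  have hωρ : ω = (ρ : ℂ) := by
    rw [hρ]
    refine Complex.ext ?_ ?_
    · rw [Complex.ofReal_re]
    · rw [Complex.ofReal_im, him]
  have hρ0 : 0 < ρ := by rw [hρ]; exact hre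
  have ha' : (0 : ℝ) < a := by exact_mod_cast ha
  have hρp : ρ ^ pd.e * (1 + δ * (1 / (a : ℝ))) = 1 := by
    rw [hωρ] at hωp
    refine Complex.ofReal_injective ?_
    rw [Complex.ofReal_one, ← hωp]
    push_cast
    rfl
  have hρX : ρ * XA pd (a + δ) = XA pd a := by
    have h6 : 0 ≤ XA pd (a + δ) := (anv_XA_pos pd (by omega)).le
    have hne : pd.e ≠ 0 := by have := pd.e_pos; omega
    refine (pow_left_inj₀ (mul_nonneg hρ0.le h6) h1.le hne).1 ?_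
    rw [mul_pow, anv_XA_pow, anv_XA_pow]
    push_cast
    have h7 : ρ ^ pd.e * (a + δ) = a := by
      have h8 : ρ ^ pd.e * (1 + δ * (1 / (a : ℝ))) * a = ρ ^ pd.e * (a + δ) := by
        field_simp
      rw [← h8, hρp, one_mul]
    calc ρ ^ pd.e * ((pd.q : ℝ) ^ pd.e * (a + δ)) = (pd.q : ℝ) ^ pd.e * (ρ ^ pd.e * (a + δ)) := by ring
      _ = _ := by rw [h7]
  -- the value of `uzP`
  have hA2 := anv_XA_pos pd (show 1 ≤ a + δ by omega)
  have huz : evz (h : ℂ) (uzP S) = ((1 / XA pd (a + δ) : ℝ) : ℂ) := by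
    let e' : cvz h hh0.le := ⟨PowerSeries.C ((pd.e : ℂ) ^ 2), gr_C h _⟩
    have h6 : evz (h : ℂ) (uzP S) = ev (e' * (X' * W')) := rfl
    have h7 : ev e' = (pd.e : ℂ) ^ 2 := evz_C _ _
    rw [h6, map_mul, map_mul, eX, h7, ← hω, hωρ]
    have h8 : (pd.e : ℝ) ^ 2 * (h * ρ) = 1 / XA pd (a + δ) := by
      rw [eq_div_iff hA2.ne']
      calc (pd.e : ℝ) ^ 2 * (h * ρ) * XA pd (a + δ) = (pd.e : ℝ) ^ 2 * (ρ * XA pd (a + δ)) * h := by ring
        _ = 1 := by rw [hρX, ← anv_XB, hXh]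
    rw [← h8]
    push_cast
    rfl
  have hcps := cps_ev hh0.le (uzP_zero S) g4 g2 g3 hT
  -- the product
  rw [← hh, evC_eq_evz hh0.le g7]
  have hprod : evz (h : ℂ) (x2P pd m S j) =
      (1 + δ * (1 / (a : ℂ))) ^ m * evz (h : ℂ) (sbH (uzP_zero S) (pd.x j)) := by
    let s' : cvz h hh0.le := ⟨sbH (uzP_zero S) (pd.x j), g5⟩
    have h6 : evz (h : ℂ) (x2P pd m S j) = ev ((1 + δ' * (q' * X') ^ pd.e) ^ m * s') := rfl
    rw [h6, map_mul, map_pow, map_add, map_one, map_mul, etau, eδ]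
    rfl
  unfold thA
  rw [hprod, hcps, huz, evC_eq_evz (one_div_pos.2 hA2).le
    (anv_grA pd (by omega) (h2.trans (anv_XA_mono pd (Nat.le_add_right a δ))) j), ← mul_assoc,
    ← mul_pow]
  congr 2
  have ha2 : (a : ℂ) ≠ 0 := by exact_mod_cast ha'.ne'
  push_cast
  field_simp

end Pool.Agent.H97.FB
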