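import Pool.Agent.H97.FB.Defs2
import Pool.Agent.H97.XC.Near

/-! # [H97 FB THA] The roots of the fibres of a family in normal form

`F = rv n m f`, `d = n`; the coefficient of `Y^i` in `F` is `reflect (m (n - i)) (f.coeff i)`, so for `a ≠ 0` (`eval_reflect`-like lemmas: `Polynomial.eval₂_reflect_mul_pow`, `reflect` and `reverse` in Mathlib) `a^(m (n-i)) F_i(1/a) = f_i(a)`; hence `a^(m n) F(1/a, Y / a^m) = f(a, Y)` as polynomials in `Y` over `ℂ`.
`pd.split` : `F.map (tq e q) = ∏ (X - C (x i))`. Let `h = 1 / XA pd a`, so `(q h)^e = 1/a` (`XA = q a^(1/e)`, `Real.rpow_natCast`, `(a^(1/e))^e = a`). For `B^C ≤ a`, `C ≥ 4 n!`: `XA ≥ a^(1/e) ≥ B^4 ≥ 4 R`, so `R h ≤ 1/4 < 1` and `evC h` is multiplicative on the series in question: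
see how `Pool/Agent/H87/SA2` proves that the roots of `gN` are `yR` (grep `yR` and `split` in `Pool/Agent/H87/SA2/*.lean`, e.g. RDefs/RootR/TWR; `evC`, `tayC` and their ring homomorphism lemmas in `Pool/Agent/H97/GA`). Applying `evC h` to the coefficients: `∏ (Y - evC h (x i)) = F(1/a, Y)`. Multiply by `a^(m n)` and substitute `Y/a^m`:
`f(a, Y) = ∏ (Y - thA i)`. This is the first half of `Rts`. Alternatively use `RHyp`/`gN` (with `m' = m n`, `N = a`): `yR pd (m n) a (XA pd a) i = a^(m n - m) thA i`, and the theorem that `gN.map = ∏ (X - C (yR i))`.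
Injectivity: `bez`: `u F + v F' = c(t)`, `c ≠ 0`, `|c_i| ≤ B`, `natDegree c ≤ 2 n m n`: for `a ≥ B^C`: `c(1/a) ≠ 0` (lowest coefficient `≥ 1` in absolute value, the others contribute `≤ B (1/a) / (1 - 1/a) < 1`; `near_zero_bd` in `Pool/Agent/H97/XC/Near.lean` does exactly this). If `x_i`, `x_j` (`i ≠ j`) take the same value `y` at `h`, then `y` is a
double root of `F(1/a, Y)`, both terms on the left vanish at `(1/a, y)`: contradiction. -/

namespace Pool.Agent.H97.FB

open Finset Polynomial Pool.Agent.H72.ES Pool.Agent.H87.SA Pool.Agent.H87.SA2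

private theorem tha_coeff {n m : ℕ} (f : ℤ[X][X]) (i : ℕ) (hi : i ≤ n) :
    (rv n m f).coeff i = reflect (m * (n - i)) (f.coeff i) := by
  unfold rv
  rw [finsetSum_coeff]
  rw [Finset.sum_eq_single i]
  · rw [coeff_C_mul_X_pow, if_pos rfl]
  · intro j _ hj
    rw [coeff_C_mul_X_pow, if_neg (fun h => hj h.symm)]
  · intro h
    exact absurd (Finset.mem_range.2 (by omega)) h

private theorem tha_deg_le {n m : ℕ} (f : ℤ[X][X]) : (rv n m f).natDegree ≤ n := by
  unfold rv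
  refine natDegree_sum_le_of_forall_le _ _ fun i hi => ?_
  rw [Finset.mem_range] at hi
  exact (natDegree_C_mul_X_pow_le _ _).trans (by omega)

private theorem tha_monic {n m : ℕ} {f : ℤ[X][X]} (hf : f.Monic) (hd : f.natDegree = n) :
    (rv n m f).Monic ∧ (rv n m f).natDegree = n := by
  have h1 : (rv n m f).coeff n = 1 := by
    rw [tha_coeff f n le_rfl, Nat.sub_self, mul_zero]
    have h2 : f.coeff n = 1 := by
      rw [← hd]
      exact hf
    rw [h2, reflect_one, pow_zero]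
  have h3 : (rv n m f).Monic := monic_of_natDegree_le_of_coeff_eq_one n (tha_deg_le f) h1
  refine ⟨h3, le_antisymm (tha_deg_le f) (le_natDegree_of_ne_zero ?_)⟩
  rw [h1]
  exact one_ne_zero

private theorem tha_mdeg {n m : ℕ} {f : ℤ[X][X]} (hc : ∀ i, (f.coeff i).natDegree ≤ m * (n - i)) (j : ℕ) :
    ((rv n m f).coeff j).natDegree ≤ m * n := by
  by_cases hj : j ≤ n
  · rw [tha_coeff f j hj]
    refine natDegree_reflect_le.trans (max_le ?_ ((hc j).trans ?_)) <;>
      exact Nat.mul_le_mul_left _ (Nat.sub_le _ _)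
  · rw [coeff_eq_zero_of_natDegree_lt (lt_of_le_of_lt (tha_deg_le f) (by omega)), natDegree_zero]
    exact Nat.zero_le _

/-- the fibre of the reversed family -/
private theorem tha_fibre {n m : ℕ} {f : ℤ[X][X]} (hd : f.natDegree = n)
    (hc : ∀ i, (f.coeff i).natDegree ≤ m * (n - i)) {a : ℕ} (ha : (a : ℂ) ≠ 0) (z : ℂ) :
    ((fa f a).map (Int.castRingHom ℂ)).eval ((a : ℂ) ^ m * z) =
      (a : ℂ) ^ (m * n) * ((rv n m f).map (eval₂RingHom (Int.castRingHom ℂ) (1 / (a : ℂ)))).eval z := by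
  have h1 : (fa f a).map (Int.castRingHom ℂ) = f.map (eval₂RingHom (Int.castRingHom ℂ) (a : ℂ)) := by
    unfold fa
    rw [Polynomial.map_map]
    congr 1
    refine Polynomial.ringHom_ext' ?_ ?_
    · exact RingHom.ext_int _ _
    · rw [RingHom.comp_apply, coe_evalRingHom, coe_eval₂RingHom, eval₂_X, eval_X]
      simp
  rw [h1]
  have e1 : ∀ (g : ℤ[X][X]) (φ : ℤ[X] →+* ℂ) (w : ℂ), g.natDegree ≤ n →
      (g.map φ).eval w = ∑ i ∈ range (n + 1), φ (g.coeff i) * w ^ i := by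
    intro g φ w hg
    rw [eval_map, eval₂_eq_sum_range' φ (Nat.lt_succ_of_le hg)]
  rw [e1 f _ _ hd.le, e1 _ _ _ (tha_deg_le f), Finset.mul_sum]
  refine Finset.sum_congr rfl fun i hi => ?_
  rw [Finset.mem_range] at hi
  rw [tha_coeff f i (by omega)]
  letI : Invertible (a : ℂ) := invertibleOfNonzero ha
  have h2 := eval₂_reflect_mul_pow (Int.castRingHom ℂ) (a : ℂ) (m * (n - i)) (f.coeff i) (hc i)
  rw [invOf_eq_inv] at h2
  rw [coe_eval₂RingHom, coe_eval₂RingHom, one_div, ← h2, mul_pow, ← pow_mul]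
  have h3 : m * n = m * (n - i) + m * i := by
    rw [← Nat.mul_add]
    congr 1
    omega
  rw [h3, pow_add]
  ring

theorem thA_rts (n m : ℕ) : ∃ C : ℕ, ∀ (B : ℕ) (f : ℤ[X][X]) (Fm : FamB n m B f) (a : ℕ),
    B ^ C ≤ a → Rts (fa f a) (thA Fm.pd m a) := by
  refine ⟨3 * n.factorial, fun B f Fm a ha => ?_⟩
  have hB2 := Fm.B2
  have hn2 := Fm.n2
  have hfac : 1 ≤ n.factorial := Nat.factorial_pos n
  have hBr : (2 : ℝ) ≤ B := by exact_mod_cast hB2
  have hB3 : B ^ 3 ≤ a := (Nat.pow_le_pow_right (by omega) (by omega)).trans ha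
  have hB4 : B + 2 ≤ B ^ 3 := by
    have h1 : 2 ^ 2 ≤ B ^ 2 := Nat.pow_le_pow_left hB2 2
    have h2 : 2 ^ 2 * B ≤ B ^ 2 * B := Nat.mul_le_mul_right B h1
    have h3 : B ^ 2 * B = B ^ 3 := by ring
    omega
  have ha1 : 1 ≤ a := by omega
  have haC : (a : ℂ) ≠ 0 := by exact_mod_cast (by omega : a ≠ 0)
  have har : (0 : ℝ) ≤ a := Nat.cast_nonneg a
  have he1 := Fm.pd.e_pos
  have he0 : Fm.pd.e ≠ 0 := by omega
  have hq1 : (1 : ℝ) ≤ Fm.pd.q := by exact_mod_cast Fm.pd.q_pos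
  -- the size of `X0`
  have hroot : (B : ℝ) ^ 3 ≤ (a : ℝ) ^ ((1 : ℝ) / Fm.pd.e) := by
    have h1 : ((B : ℝ) ^ 3) ^ Fm.pd.e ≤ a := by
      have h2 : (B ^ 3) ^ Fm.pd.e ≤ a := by
        rw [← pow_mul]
        exact (Nat.pow_le_pow_right (by omega) (Nat.mul_le_mul_left 3 Fm.e_le)).trans ha
      exact_mod_cast h2
    have h3 := Real.rpow_le_rpow (by positivity) h1 (by positivity : (0 : ℝ) ≤ (1 : ℝ) / Fm.pd.e)
    rw [one_div, Real.pow_rpow_inv_natCast (by positivity) he0] at h3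
    rw [one_div]
    exact h3
  have hX0 : (B : ℝ) ^ 3 ≤ XA Fm.pd a := by
    unfold XA
    have h1 : 0 ≤ (a : ℝ) ^ ((1 : ℝ) / Fm.pd.e) := Real.rpow_nonneg har _
    nlinarith
  have hBB : 4 * (B : ℝ) ≤ (B : ℝ) ^ 3 := by nlinarith [mul_self_nonneg ((B : ℝ) - 2)]
  obtain ⟨hmon, hdeg⟩ := tha_monic (m := m) Fm.monic Fm.deg
  have H : RHyp (rv n m f) n (m * n) Fm.pd a (XA Fm.pd a) :=
    { monic := hmon
      deg := hdeg
      d1 := by omega
      mdeg := tha_mdeg Fm.cdeg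
      N1 := ha1
      X1 := by linarith
      pow := by
        unfold XA
        rw [mul_pow, one_div, Real.rpow_inv_natCast_pow har he0]
        push_cast
        ring
      big := by
        have := Fm.R_le
        linarith
      sep := by
        obtain ⟨u, v, c, hc0, hbez, _, hcle⟩ := Fm.bez
        refine sep_at hmon hdeg (tha_mdeg Fm.cdeg) u v c hbez (by omega) ?_
        have h1 := Pool.Agent.H97.XC.near_zero_bd hc0 B hcle 1 a le_rfl (by omega)
        rw [Nat.cast_one, one_mul] at h1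
        exact h1 }
  have ham : (a : ℂ) ^ m ≠ 0 := pow_ne_zero _ haC
  refine ⟨?_, ?_⟩
  · refine Polynomial.funext fun z => ?_
    obtain ⟨w, rfl⟩ : ∃ w : ℂ, (a : ℂ) ^ m * w = z :=
      ⟨((a : ℂ) ^ m)⁻¹ * z, by rw [mul_inv_cancel_left₀ ham]⟩
    rw [tha_fibre Fm.deg Fm.cdeg haC, cst_split H, eval_prod, eval_prod, pow_mul]
    have h3 : ((a : ℂ) ^ m) ^ n = ∏ _i : Fin n, (a : ℂ) ^ m := by
      rw [Finset.prod_const, Finset.card_univ, Fintype.card_fin]
    rw [h3, ← Finset.prod_mul_distrib]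
    refine Finset.prod_congr rfl fun i _ => ?_
    rw [eval_sub, eval_X, eval_C, eval_sub, eval_X, eval_C]
    unfold thA
    ring
  · intro i j hij
    apply y_injR H
    unfold thA at hij
    have h1 := mul_left_cancel₀ ham hij
    unfold yR
    rw [h1]

end Pool.Agent.H97.FB
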