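import Pool.Agent.H97.FB.ANQ
import Pool.Agent.H97.FB.ANV
import Pool.Agent.H97.FB.THA
import Pool.Agent.H87.SA2.SEPN

/-! # [H97 FB AN1] The values of the composite series, the hypotheses `RHyp`

`m1 = n * n * (m * n)`, `h = 1 / XB pd a`.
`evC_yP`: `evC` is additive: through `evC_eq_evz`, `evz_add`, `evz_mul`, `evz_C` (`(lam : PowerSeries ℂ) = C lam`), the
convergence `Gr h` of `x1P`, `x2P` is in `x2P_nrm` (`r = h`); then `value1`, `value2`.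
`sepP`: let `φ = eval₂RingHom (Int.castRingHom ℂ) (1/a)`. `rv_fiber` (ANR): `θ i / a^m` are roots of `(rv n m f)` under `φ`, and
`θ' j / a^m` are roots of `rv n m (shF δ f)` under `φ` (`shF_fa`: `fa (shF δ f) a = fa f (a + δ)`, whose roots are `θ'`).
`cpP_split` with `S = ℂ`: `(FP ..).map φ = ∏ (X - C (θ p.1 / a^m + lam θ' p.2 / a^m))`; injective by `hinj`
(divide by `a^m`). As in the proof of `y_prodR` (`Pool/Agent/H87/SA2/YR.lean`, with `weqe_gen`, `fv_af`; or `exists_sep` in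
`SEPN.lean`): `gN d m1 (af F) a` mapped to `ℂ` is `a^(m1 d) F(1/a, X/a^m1) = ∏ (X - C (a^m1 (..)))`; `separable_prod_X_sub_C_iff`.
`rhypP`: collects: `cpP_monic`, `cpP_natDegree`, `cpP_cdeg` (`D = m n`, `rv_cdeg`), `pow`: `XB^e = (q e²)^e a`
(`Real.rpow_natCast`, `Real.rpow_mul`). -/

namespace Pool.Agent.H97.FB

open Finset Polynomial Pool.Agent.H72.ES Pool.Agent.H87.SA Pool.Agent.H87.SA2 Pool.Agent.H52.AC
  Pool.Agent.H97.GA

variable {n m δ : ℕ} {f : ℤ[X][X]}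

private theorem an1x_q1 {g : ℤ[X][X]} (pd : PData g n) : 1 ≤ pd.q * pd.e ^ 2 := by
  have h1 := pd.e_pos
  have h2 := pd.q_pos
  exact Nat.one_le_iff_ne_zero.2 (by positivity)

theorem XB_pow {g : ℤ[X][X]} (pd : PData g n) (a : ℕ) :
    XB pd a ^ pd.e = (((pd.q * pd.e ^ 2) ^ pd.e * a : ℕ) : ℝ) := by
  have he : (pd.e : ℝ) ≠ 0 := by
    have := pd.e_pos
    exact_mod_cast (by omega : pd.e ≠ 0)
  unfold XB
  rw [mul_pow, ← Real.rpow_natCast ((a : ℝ) ^ ((1 : ℝ) / pd.e)) pd.e,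
    ← Real.rpow_mul (Nat.cast_nonneg a), one_div, inv_mul_cancel₀ he, Real.rpow_one]
  push_cast
  ring

private theorem an1_XB {g : ℤ[X][X]} (pd : PData g n) {a : ℕ} (ha : 1 ≤ a) : 1 ≤ XB pd a := by
  unfold XB
  have h1 : (1 : ℝ) ≤ ((pd.q * pd.e ^ 2 : ℕ) : ℝ) := by exact_mod_cast an1x_q1 pd
  have h2 : (1 : ℝ) ≤ (a : ℝ) ^ ((1 : ℝ) / pd.e) := by
    refine Real.one_le_rpow (by exact_mod_cast ha) ?_
    positivity
  nlinarith

theorem evC_yP (pd : PData (rv n m f) n) (S : WdP pd.e pd.q δ) (lam : ℕ) (hδ : 1 ≤ δ) {a : ℕ}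
    (ha : 1 ≤ a) (hyp : 4 * δ * (pd.q * pd.e ^ 2 : ℕ) * pd.R ≤ XB pd a) (p : Fin n × Fin n) :
    (a : ℂ) ^ m * evC (1 / XB pd a) (yP pd S lam p) =
      thA pd m a p.1 + (lam : ℂ) * thA pd m (a + δ) p.2 := by
  have hX : (0 : ℝ) < XB pd a := lt_of_lt_of_le zero_lt_one (an1_XB pd ha)
  have hh : (0 : ℝ) ≤ 1 / XB pd a := by positivity
  have hr' : 4 * δ * (pd.q * pd.e ^ 2 : ℕ) * pd.R * (1 / XB pd a) ≤ 1 := by
    rw [mul_one_div]
    exact (div_le_one hX).2 hyp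
  obtain ⟨-, -, -, -, -, g1, -, -⟩ := x2P_nrm (m := m) pd S hδ hh hr' p.1
  obtain ⟨-, -, -, -, -, -, g2, -⟩ := x2P_nrm (m := m) pd S hδ hh hr' p.2
  have hT : ‖(((1 / XB pd a : ℝ)) : ℂ)‖ ≤ 1 / XB pd a := by
    rw [Complex.norm_real, Real.norm_of_nonneg hh]
  have hlam : (lam : PowerSeries ℂ) = PowerSeries.C (lam : ℂ) := by simp
  have g3 : Gr (1 / XB pd a) ((lam : PowerSeries ℂ) * x2P pd m S p.2) := by
    rw [hlam]
    exact gr_mul hh (gr_C _ _) g2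
  have hR1 := pd.R_ge
  have hyp1 : 4 * (pd.q * pd.e ^ 2 : ℕ) * pd.R ≤ XB pd a := by
    refine le_trans ?_ hyp
    have h1 : (1 : ℝ) ≤ δ := by exact_mod_cast hδ
    have h2 : (0 : ℝ) ≤ ((pd.q * pd.e ^ 2 : ℕ) : ℝ) * pd.R := by positivity
    nlinarith
  unfold yP
  rw [evC_eq_evz hh (gr_add hh g1 g3), evz_add hT g1 g3, hlam, evz_mul hT (gr_C _ _) g2, evz_C,
    ← evC_eq_evz hh g1, ← evC_eq_evz hh g2, ← value1 (m := m) pd ha p.1 hyp1,
    ← value2 (m := m) pd S hδ ha p.2 hyp]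
  ring

private theorem an1_prod (hn : 1 ≤ n) (hf : f.Monic) (hd : f.natDegree = n)
    (hc : ∀ i, (f.coeff i).natDegree ≤ m * (n - i)) (lam : ℕ) {a : ℕ} (ha : 1 ≤ a)
    {θ θ' : Fin n → ℂ} (h : Rts (fa f a) θ) (h' : Rts (fa f (a + δ)) θ')
    (hinj : Function.Injective fun p : Fin n × Fin n => θ p.1 + (lam : ℂ) * θ' p.2) :
    (gN (n * n) (n * n * (m * n)) (af (FP n m f δ lam)) a).map (Int.castRingHom ℂ) =
      ∏ p : Fin n × Fin n, (X - C ((a : ℂ) ^ (n * n * (m * n)) *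
        (θ p.1 / (a : ℂ) ^ m + (lam : ℂ) * (θ' p.2 / (a : ℂ) ^ m)))) := by
  have haC : (a : ℂ) ≠ 0 := by exact_mod_cast (by omega : a ≠ 0)
  have ham : (a : ℂ) ^ m ≠ 0 := pow_ne_zero _ haC
  obtain ⟨φ, hφ⟩ : ∃ φ : ℤ[X] →+* ℂ, φ = eval₂RingHom (Int.castRingHom ℂ) (1 / (a : ℂ)) :=
    ⟨_, rfl⟩
  have r1 : ∀ i, (rv n m f).eval₂ φ (θ i / (a : ℂ) ^ m) = 0 := by
    intro i
    rw [hφ]
    refine rv_fiber hd hc ha ?_
    rw [h.1, eval_prod]
    exact prod_eq_zero (mem_univ i) (by simp)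
  have r2 : ∀ i, (rv n m (shF δ f)).eval₂ φ (θ' i / (a : ℂ) ^ m) = 0 := by
    intro i
    rw [hφ]
    refine rv_fiber (shF_natDegree δ hf hd) (shF_cdeg δ hc) ha ?_
    rw [shF_fa, h'.1, eval_prod]
    exact prod_eq_zero (mem_univ i) (by simp)
  have hinj' : Function.Injective fun p : Fin n × Fin n =>
      θ p.1 / (a : ℂ) ^ m + (lam : ℂ) * (θ' p.2 / (a : ℂ) ^ m) := by
    intro p p' hp
    apply hinj
    have e1 : (θ p.1 + (lam : ℂ) * θ' p.2) / (a : ℂ) ^ m =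
        (θ p'.1 + (lam : ℂ) * θ' p'.2) / (a : ℂ) ^ m := by
      have e2 : ∀ p : Fin n × Fin n, (θ p.1 + (lam : ℂ) * θ' p.2) / (a : ℂ) ^ m =
          θ p.1 / (a : ℂ) ^ m + (lam : ℂ) * (θ' p.2 / (a : ℂ) ^ m) := fun p => by ring
      rw [e2, e2]
      exact hp
    exact (div_left_inj' ham).1 e1
  have hs := cpP_split (lam := lam) φ hn (rv_monic hf hd) (rv_natDegree hf hd)
    (rv_monic (shF_monic δ hf) (shF_natDegree δ hf hd))
    (rv_natDegree (shF_monic δ hf) (shF_natDegree δ hf hd)) _ _ r1 r2 hinj'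
  have hFm : (FP n m f δ lam).Monic := cpP_monic
  have hFd : (FP n m f δ lam).natDegree = n * n := cpP_natDegree
  have hFc : ∀ j, ((FP n m f δ lam).coeff j).natDegree ≤ n * n * (m * n) :=
    cpP_cdeg (rv_cdeg hc) (rv_cdeg (shF_cdeg δ hc))
  refine Polynomial.funext fun z => ?_
  obtain ⟨M, hM⟩ : ∃ M, M = n * n * (m * n) := ⟨_, rfl⟩
  rw [← hM] at hFc ⊢
  obtain ⟨w, hw⟩ : ∃ w : ℂ, z = (a : ℂ) ^ M * w :=
    ⟨((a : ℂ) ^ M)⁻¹ * z, by rw [mul_inv_cancel_left₀ (pow_ne_zero _ haC)]⟩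
  have h1 := weqe_gen (n * n) M 1 (af (FP n m f δ lam)) a (1 / (a : ℂ)) 0 w
    (by rw [mul_one_div, div_self haC])
  rw [sum_eq_zero (fun l _ => by rw [zero_pow (Nat.succ_ne_zero l), zero_mul]), add_zero, add_zero,
    one_pow, mul_one, fv_af hFm hFd hFc, ← hφ, ← eval_map] at h1
  unfold FP at h1
  rw [hs, eval_prod] at h1
  have h2 : ((gN (n * n) M (af (FP n m f δ lam)) a).map (Int.castRingHom ℂ)).eval z =
      ei (gN (n * n) M (af (FP n m f δ lam)) a) ((a : ℂ) ^ M * w) := by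
    rw [hw]
    unfold ei
    rw [eval_map]
  rw [h2]
  unfold FP
  rw [h1, eval_prod, hw, pow_mul]
  have h3 : ((a : ℂ) ^ M) ^ (n * n) = ∏ _i : Fin n × Fin n, (a : ℂ) ^ M := by
    rw [prod_const, card_univ, Fintype.card_prod, Fintype.card_fin]
  rw [h3, ← prod_mul_distrib]
  refine prod_congr rfl fun i _ => ?_
  rw [eval_sub, eval_X, eval_C, eval_sub, eval_X, eval_C]
  ring

theorem sepP (hn : 1 ≤ n) (hf : f.Monic) (hd : f.natDegree = n)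
    (hc : ∀ i, (f.coeff i).natDegree ≤ m * (n - i)) (lam : ℕ) {a : ℕ} (ha : 1 ≤ a)
    {θ θ' : Fin n → ℂ} (h : Rts (fa f a) θ) (h' : Rts (fa f (a + δ)) θ')
    (hinj : Function.Injective fun p : Fin n × Fin n => θ p.1 + (lam : ℂ) * θ' p.2) :
    ((gN (n * n) (n * n * (m * n)) (af (FP n m f δ lam)) a).map (Int.castRingHom ℂ)).Separable := by
  have haC : (a : ℂ) ≠ 0 := by exact_mod_cast (by omega : a ≠ 0)
  rw [an1_prod hn hf hd hc lam ha h h' hinj, Polynomial.separable_prod_X_sub_C_iff]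
  intro p p' hp
  apply hinj
  have ham : (a : ℂ) ^ m ≠ 0 := pow_ne_zero _ haC
  have h1 := mul_left_cancel₀ (pow_ne_zero _ haC) hp
  have e2 : ∀ p : Fin n × Fin n, θ p.1 / (a : ℂ) ^ m + (lam : ℂ) * (θ' p.2 / (a : ℂ) ^ m) =
      (θ p.1 + (lam : ℂ) * θ' p.2) / (a : ℂ) ^ m := fun p => by ring
  rw [e2, e2] at h1
  exact (div_left_inj' ham).1 h1

theorem rhypP (pd : PData (rv n m f) n) (S : WdP pd.e pd.q δ) (lam : ℕ) (R1 : ℝ)
    (hn : 1 ≤ n) (hf : f.Monic) (hd : f.natDegree = n)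
    (hc : ∀ i, (f.coeff i).natDegree ≤ m * (n - i)) (hδ : 1 ≤ δ)
    (hR : (1 + (lam : ℝ)) * RB pd m δ ≤ R1) (hinj : Function.Injective (yP pd S lam))
    {a : ℕ} (ha : 1 ≤ a) (hbig : 4 * R1 ≤ XB pd a)
    (hsep : ((gN (n * n) (n * n * (m * n)) (af (FP n m f δ lam)) a).map
      (Int.castRingHom ℂ)).Separable) :
    RHyp (FP n m f δ lam) (n * n) (n * n * (m * n)) (pdP pd S lam R1 hn hf hd hc hδ hR hinj) a
      (XB pd a) where
  monic := cpP_monic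
  deg := cpP_natDegree
  d1 := Nat.mul_pos hn hn
  mdeg := cpP_cdeg (rv_cdeg hc) (rv_cdeg (shF_cdeg δ hc))
  N1 := ha
  X1 := an1_XB pd ha
  pow := XB_pow pd a
  big := hbig
  sep := hsep

end Pool.Agent.H97.FB
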