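import Pool.Agent.H97.FB.AND

/-! # [H97 FB ANC] The composite polynomial

`cpP n lam g g'` is the characteristic polynomial of `kmP n lam g g'` (`n² × n²`, see `AND.lean`).
`cpP_monic`, `cpP_natDegree`: `Matrix.charpoly_monic`, `Matrix.charpoly_natDegree_eq_dim`, `Fintype.card_prod`.
`cpP_cdeg`: `charpoly_deg` of `Pool/Agent/H98/FF/CHP.lean` with `dg p k := p.natDegree ≤ k` (`Fil`: `natDegree_add_le`,
`natDegree_mul_le`, ...), the entries of `kmP` have degree `≤ D` (`C (lam)` and `0`, `1` have degree `0`).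
`cpP_le`: `charpoly_size` of the same file with `ν = L1` (`subMul_L1`, `Pool/Agent/H72/ES/BivNorm.lean`): the entries have
`L1 ≤ (1 + lam) A`; a coefficient is at most `L1` (`Pool/Agent/H72/ES`: grep `le_L1` or `coeff_le_L1`).
`cpP_split`: eigenvector for `(i,j)`: `u p = x_i^(p.1) x'_j^(p.2)`, `u (0,0) = 1 ≠ 0` (`1 ≤ n`), eigenvalue `x_i + lam x'_j`:
`∑_(p') φ (kmP p p') u p'`: the companion matrix satisfies `∑_j φ (cmP n g i j) z^j = z z^i` for a root `z` (this is
`cmq_eig` in `Pool/Agent/H98/FF/TT.lean`, copy the proof), sum over `Fin n × Fin n` with `Fintype.sum_prod_type` and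
`Finset.sum_ite_eq`. `charpoly_root` (CHP) : every `x_i + lam x'_j` is a root of the charpoly. These are `n²` different
roots of a monic polynomial of degree `n²` over a domain, so it is their product
(`Polynomial.prod_multiset_X_sub_C_of_monic_of_roots_card_eq`, or `pd_splits_fin` in `Pool/Agent/H87/SA2/PDE.lean`, or
`Multiset.prod_X_sub_C_dvd`/`Finset.prod_dvd_of_coprime`; a neat way: `P - ∏` has degree `< n²` and `n²` roots:
`Polynomial.eq_of_degree_sub_lt_of_eval_finset_eq`, `Polynomial.eq_of_monic_of_...`). -/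

namespace Pool.Agent.H97.FB

open Finset Polynomial Pool.Agent.H72.ES

variable {n lam : ℕ} {g g' : ℤ[X][X]}

theorem cpP_monic : (cpP n lam g g').Monic := Matrix.charpoly_monic _

theorem cpP_natDegree : (cpP n lam g g').natDegree = n * n := by
  unfold cpP
  rw [Matrix.charpoly_natDegree_eq_dim, Fintype.card_prod, Fintype.card_fin]

private theorem anc_fil : Pool.Agent.H98.FF.Fil (fun (p : ℤ[X]) k => p.natDegree ≤ k) := by
  refine ⟨fun a k l h hkl => h.trans hkl, by simp, by simp, fun a k h => ?_, fun a b k ha hb => ?_,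
    fun a b k l ha hb => ?_⟩
  · rwa [natDegree_neg]
  · exact (natDegree_add_le _ _).trans (max_le ha hb)
  · exact natDegree_mul_le.trans (Nat.add_le_add ha hb)

private theorem cmP_deg {D : ℕ} (hg : ∀ i, (g.coeff i).natDegree ≤ D) (i j : Fin n) :
    (cmP n g i j).natDegree ≤ D := by
  unfold cmP
  split_ifs
  · simp
  · simp
  · rw [natDegree_neg]
    exact hg _

private theorem cmP_L1 {A : ℝ} (hA : 1 ≤ A) (hg : ∀ i, L1 (g.coeff i) ≤ A) (i j : Fin n) :
    L1 (cmP n g i j) ≤ A := by
  unfold cmP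
  split_ifs
  · rw [L1_one]
    exact hA
  · rw [L1_zero]
    linarith
  · rw [L1_neg]
    exact hg _

theorem cpP_cdeg {D : ℕ} (hg : ∀ i, (g.coeff i).natDegree ≤ D) (hg' : ∀ i, (g'.coeff i).natDegree ≤ D)
    (k : ℕ) : ((cpP n lam g g').coeff k).natDegree ≤ n * n * D := by
  have h := Pool.Agent.H98.FF.charpoly_deg anc_fil (kmP n lam g g') (D := D) (fun p p' => ?_) k
  · simp only [Fintype.card_prod, Fintype.card_fin] at h
    exact h
  · unfold kmP
    refine (natDegree_add_le _ _).trans (max_le ?_ ?_)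
    · split_ifs
      · rw [mul_one]
        exact cmP_deg hg _ _
      · rw [mul_zero, natDegree_zero]
        exact Nat.zero_le _
    · refine (natDegree_C_mul_le _ _).trans ?_
      split_ifs
      · rw [one_mul]
        exact cmP_deg hg' _ _
      · rw [zero_mul, natDegree_zero]
        exact Nat.zero_le _

private theorem anc_L1_C (a : ℤ) : L1 (C a) = |(a : ℝ)| := by
  have h : (C a : ℤ[X]) = C a * X ^ 0 := by rw [pow_zero, mul_one]
  rw [h, L1_monomial]

theorem cpP_le {A : ℝ} (hA : 1 ≤ A) (hg : ∀ i, L1 (g.coeff i) ≤ A) (hg' : ∀ i, L1 (g'.coeff i) ≤ A)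
    (k l : ℕ) : |((((cpP n lam g g').coeff k).coeff l : ℤ) : ℝ)| ≤
      ((n * n).factorial : ℝ) * (1 + (1 + (lam : ℝ)) * A) ^ (n * n) := by
  have hA0 : 0 ≤ A := by linarith
  have h := Pool.Agent.H98.FF.charpoly_size subMul_L1 (kmP n lam g g') (B := (1 + (lam : ℝ)) * A)
    (by positivity) (fun p p' => ?_) k
  · simp only [Fintype.card_prod, Fintype.card_fin] at h
    refine le_trans ?_ h
    unfold L1
    by_cases hl : l ∈ ((cpP n lam g g').coeff k).support
    · exact Finset.single_le_sum (f := fun i => |(((((cpP n lam g g').coeff k)).coeff i : ℤ) : ℝ)|)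
        (fun i _ => abs_nonneg _) hl
    · rw [Polynomial.notMem_support_iff.1 hl, Int.cast_zero, abs_zero]
      exact Finset.sum_nonneg fun i _ => abs_nonneg _
  · unfold kmP
    refine (L1_add_le _ _).trans ?_
    have e1 : L1 (cmP n g p.1 p'.1 * (if p.2 = p'.2 then 1 else 0)) ≤ A := by
      split_ifs
      · rw [mul_one]
        exact cmP_L1 hA hg _ _
      · rw [mul_zero, L1_zero]
        exact hA0
    have e2 : L1 (C (lam : ℤ) * ((if p.1 = p'.1 then 1 else 0) * cmP n g' p.2 p'.2)) ≤ lam * A := by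
      refine (L1_mul_le _ _).trans ?_
      rw [anc_L1_C]
      push_cast
      rw [abs_of_nonneg (Nat.cast_nonneg _)]
      refine mul_le_mul_of_nonneg_left ?_ (Nat.cast_nonneg _)
      split_ifs
      · rw [one_mul]
        exact cmP_L1 hA hg' _ _
      · rw [zero_mul, L1_zero]
        exact hA0
    calc _ ≤ A + lam * A := add_le_add e1 e2
      _ = (1 + (lam : ℝ)) * A := by ring

private theorem cmP_eig (hg : g.Monic) (hgd : g.natDegree = n) {S : Type} [CommRing S]
    (φ : ℤ[X] →+* S) (z : S) (hz : g.eval₂ φ z = 0) (i : Fin n) :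
    ∑ j, φ (cmP n g i j) * z ^ (j : ℕ) = z * z ^ (i : ℕ) := by
  by_cases hi : (i : ℕ) + 1 < n
  · rw [Finset.sum_eq_single (⟨(i : ℕ) + 1, hi⟩ : Fin n)]
    · unfold cmP
      rw [if_pos hi, if_pos rfl, map_one, one_mul, ← pow_succ']
    · intro j _ hne
      unfold cmP
      rw [if_pos hi, if_neg (fun hc => hne (Fin.ext hc)), map_zero, zero_mul]
    · intro hc
      exact absurd (mem_univ _) hc
  · have hid : (i : ℕ) + 1 = n := by
      have := i.2
      omega
    have h1 : ∀ j : Fin n, φ (cmP n g i j) * z ^ (j : ℕ) = -(φ (g.coeff j) * z ^ (j : ℕ)) := by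
      intro j
      unfold cmP
      rw [if_neg hi, map_neg, neg_mul]
    rw [Finset.sum_congr rfl fun j _ => h1 j, Finset.sum_neg_distrib,
      Fin.sum_univ_eq_sum_range (fun j => φ (g.coeff j) * z ^ j) n]
    rw [eval₂_eq_sum_range, hgd, Finset.sum_range_succ] at hz
    have h2 : g.coeff n = 1 := by rw [← hgd]; exact hg.coeff_natDegree
    rw [h2, map_one, one_mul] at hz
    rw [← pow_succ', hid]
    exact (eq_neg_of_add_eq_zero_right hz).symm

theorem cpP_split {S : Type} [CommRing S] [IsDomain S] (φ : ℤ[X] →+* S) (hn : 1 ≤ n)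
    (hg : g.Monic) (hgd : g.natDegree = n) (hg' : g'.Monic) (hgd' : g'.natDegree = n)
    (x x' : Fin n → S) (h : ∀ i, g.eval₂ φ (x i) = 0) (h' : ∀ i, g'.eval₂ φ (x' i) = 0)
    (hinj : Function.Injective fun p : Fin n × Fin n => x p.1 + (lam : S) * x' p.2) :
    (cpP n lam g g').map φ = ∏ p : Fin n × Fin n, (X - C (x p.1 + (lam : S) * x' p.2)) := by
  classical
  have hroot : ∀ i j : Fin n, (cpP n lam g g').eval₂ φ (x i + (lam : S) * x' j) = 0 := by
    intro i j
    refine Pool.Agent.H98.FF.charpoly_root (kmP n lam g g') φ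
      (fun p : Fin n × Fin n => x i ^ (p.1 : ℕ) * x' j ^ (p.2 : ℕ)) (i0 := (⟨0, hn⟩, ⟨0, hn⟩))
      (by simp) _ fun p => ?_
    have e1 : ∀ p' : Fin n × Fin n, φ (kmP n lam g g' p p') * (x i ^ (p'.1 : ℕ) * x' j ^ (p'.2 : ℕ)) =
        (if p.2 = p'.2 then (φ (cmP n g p.1 p'.1) * x i ^ (p'.1 : ℕ)) * x' j ^ (p'.2 : ℕ) else 0) +
        (if p.1 = p'.1 then (lam : S) * x i ^ (p'.1 : ℕ) * (φ (cmP n g' p.2 p'.2) * x' j ^ (p'.2 : ℕ)) else 0) := by
      intro p'
      unfold kmP
      have hl : φ (C (lam : ℤ)) = (lam : S) := by simp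
      rw [map_add, map_mul, map_mul, map_mul, hl]
      split_ifs <;> simp <;> ring
    simp only [e1]
    rw [sum_add_distrib, Fintype.sum_prod_type, Fintype.sum_prod_type]
    have e2 : ∀ a : Fin n, ∑ b : Fin n, (if p.2 = b then
        (φ (cmP n g p.1 a) * x i ^ (a : ℕ)) * x' j ^ (b : ℕ) else 0) =
        (φ (cmP n g p.1 a) * x i ^ (a : ℕ)) * x' j ^ (p.2 : ℕ) := by
      intro a
      rw [Finset.sum_ite_eq univ p.2, if_pos (mem_univ _)]
    have e3 : ∀ a : Fin n, ∑ b : Fin n, (if p.1 = a then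
        (lam : S) * x i ^ (a : ℕ) * (φ (cmP n g' p.2 b) * x' j ^ (b : ℕ)) else 0) =
        if p.1 = a then (lam : S) * x i ^ (a : ℕ) * (x' j * x' j ^ (p.2 : ℕ)) else 0 := by
      intro a
      split_ifs
      · rw [← Finset.mul_sum, cmP_eig hg' hgd' φ (x' j) (h' j) p.2]
      · simp
    simp only [e2, e3]
    rw [← Finset.sum_mul, cmP_eig hg hgd φ (x i) (h i) p.1, Finset.sum_ite_eq univ p.1,
      if_pos (mem_univ _)]
    ring
  -- the product of the linear factors divides
  set P := (cpP n lam g g').map φ with hP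
  set Q : S[X] := ∏ p : Fin n × Fin n, (X - C (x p.1 + (lam : S) * x' p.2)) with hQ
  have hPm : P.Monic := cpP_monic.map φ
  have hQm : Q.Monic := monic_prod_of_monic _ _ fun p _ => monic_X_sub_C _
  have hPd : P.natDegree = n * n := by
    rw [hP, cpP_monic.natDegree_map, cpP_natDegree]
  have hQd : Q.natDegree = n * n := by
    rw [hQ, natDegree_prod_of_monic _ _ fun p _ => monic_X_sub_C _,
      Finset.sum_congr rfl fun p _ => natDegree_X_sub_C _, Finset.sum_const, Finset.card_univ,
      Fintype.card_prod, Fintype.card_fin, smul_eq_mul, mul_one]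
  have hcard : (univ.image fun p : Fin n × Fin n => x p.1 + (lam : S) * x' p.2).card = n * n := by
    rw [card_image_of_injective _ hinj, card_univ, Fintype.card_prod, Fintype.card_fin]
  have hdeg : (P - Q).degree < ((n * n : ℕ) : WithBot ℕ) := by
    have h1 : P.degree = ((n * n : ℕ) : WithBot ℕ) := by rw [degree_eq_natDegree hPm.ne_zero, hPd]
    have h2 : Q.degree = ((n * n : ℕ) : WithBot ℕ) := by rw [degree_eq_natDegree hQm.ne_zero, hQd]
    rw [← h1]
    exact degree_sub_lt_left (h1.trans h2.symm) hPm.ne_zero (by rw [hPm.leadingCoeff, hQm.leadingCoeff])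
  have hzero : P - Q = 0 := by
    refine eq_zero_of_degree_lt_of_eval_finset_eq_zero
      (univ.image fun p : Fin n × Fin n => x p.1 + (lam : S) * x' p.2) (by rw [hcard]; exact hdeg) ?_
    intro y hy
    obtain ⟨p, _, rfl⟩ := mem_image.1 hy
    rw [eval_sub, hP, eval_map, hroot, hQ, eval_prod, zero_sub, neg_eq_zero]
    exact Finset.prod_eq_zero (mem_univ p) (by simp)
  exact sub_eq_zero.1 hzero

end Pool.Agent.H97.FB
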