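import Pool.Agent.H97.FB.AND

/-! # [H97 FB ANG] Integrality, growth and convergence of the two families of series

Let `R = pd.R`, `q1 = q e²`, `r0 = 1 / (4 δ q1 R)`, `0 ≤ r ≤ r0`. `tools`: `Gr`, `gr_mul`, `gr_add`, `gr_C`, `gr_X`,
`gr_of_le` (`Pool/Agent/H52/AC/EVH.lean`), `nrm`, `nrm_mul`, `nrm_pow`, `coeff_le_nrm`, `cps_gr` (`CPS.lean`).
`WC_nrm`: `‖coeff (e k) W‖ ≤ (δ q1^e)^k`, the other coefficients vanish (`supp`), so
`∑ ‖W_k‖ r^k ≤ ∑_k (δ (q1 r)^e)^k ≤ 2` because `q1 r ≤ 1/(4 δ R) ≤ 1/8`, so `δ (q1 r)^e ≤ δ q1 r ≤ 1/8` (`e ≥ 1`).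
(The sum over the multiples of `e`: `tsum`/`Summable` along the injection `k ↦ e k`, `Function.Injective.summable_iff`,
`Function.Injective.tsum_eq`; or compare with: `‖W_k‖ ≤ (δ q1^e)^(k/e) ≤ (δ q1)^k`, so `∑ ‖W_k‖ r^k ≤ ∑ (δ q1 r)^k ≤ 1/(1 - 1/8)`.
The second way is simpler.)
`uzP_nrm`: `nrm r (uzP S) ≤ e² r * 2 ≤ 2 e² r ≤ 1 / (2 R)`.
`x_nrm`: at `ρ = 1/(2R)`: `Gr ρ (pd.x j)` and `∑ ‖x_k‖ ρ^k ≤ ∑ R^(k+1) (2R)^(-k) = 2 R` (`pd.growth`).
`x2P_nrm`: `cps_gr` with `ρ = 1/(2R)`: `Gr r (sbH _ (x j))`, `nrm ≤ 2 R`; the factor `(1 + C δ tau)^m` has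
`nrm ≤ (1 + δ (q1 r)^e)^m ≤ 2^m`. So `Gr r (x2P ..)` and `nrm r (x2P ..) ≤ 2^(m+1) R`.
`x2P_growth`: `coeff_le_nrm` at `r = r0`: `‖coeff k‖ ≤ 2^(m+1) R (4 δ q1 R)^k ≤ RB^(k+1)` (`RB = 2^(m+3) δ q1 R`).
`x1P_growth`: `‖e^(2k) x_k‖ ≤ e^(2k) R^(k+1) ≤ (e² R)^(k+1) ≤ RB^(k+1)`, `e² ≤ q1`.
`x1P_gr`: `Gr r (x1P ..)`: `e² R r ≤ 1/4`.
Integrality: `x1P_int`: `coeff_rescale`, integers are integral. `x2P_int`: the coefficients of `WC`, `uzP`, `tau`, `C`, `X` are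
integers, so integral; series with integral coefficients form a subring (use the subring
`integralClosure ℤ ℂ`: `PowerSeries.map (algebraMap (integralClosure ℤ ℂ) ℂ)`, or prove closure under `+`, `*`, `^`
with `coeff_mul`, `IsIntegral.sum`), and `sbH_coeff`: `∑ a_n coeff k (z^n)`. -/

namespace Pool.Agent.H97.FB

open Finset Polynomial Pool.Agent.H72.ES Pool.Agent.H87.SA2 Pool.Agent.H52.AC

variable {n m δ : ℕ} {g : ℤ[X][X]}

/-- all coefficients are integral -/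
private def PI (w : PowerSeries ℂ) : Prop := ∀ k, IsIntegral ℤ (PowerSeries.coeff k w)

private theorem pi_nat (a : ℕ) : IsIntegral ℤ (a : ℂ) := by
  have h := isIntegral_algebraMap (R := ℤ) (A := ℂ) (x := (a : ℤ))
  simpa using h

private theorem pi_C {z : ℂ} (hz : IsIntegral ℤ z) : PI (PowerSeries.C z) := by
  intro k
  rw [PowerSeries.coeff_C]
  split_ifs
  · exact hz
  · exact isIntegral_zero

private theorem pi_X : PI (PowerSeries.X : PowerSeries ℂ) := by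
  intro k
  rw [PowerSeries.coeff_X]
  split_ifs
  · exact isIntegral_one
  · exact isIntegral_zero

private theorem pi_one : PI (1 : PowerSeries ℂ) := by
  have h := pi_C (z := 1) isIntegral_one
  rwa [map_one] at h

private theorem pi_add {v w : PowerSeries ℂ} (hv : PI v) (hw : PI w) : PI (v + w) := by
  intro k
  rw [map_add]
  exact (hv k).add (hw k)

private theorem pi_mul {v w : PowerSeries ℂ} (hv : PI v) (hw : PI w) : PI (v * w) := by
  intro k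
  rw [PowerSeries.coeff_mul]
  exact IsIntegral.sum _ fun p _ => (hv p.1).mul (hw p.2)

private theorem pi_pow {v : PowerSeries ℂ} (hv : PI v) (k : ℕ) : PI (v ^ k) := by
  induction k with
  | zero => rw [pow_zero]; exact pi_one
  | succ k ih => rw [pow_succ]; exact pi_mul ih hv

private theorem pi_WC {e q : ℕ} (S : WdP e q δ) : PI S.WC := by
  intro k
  unfold WdP.WC
  rw [PowerSeries.coeff_map]
  exact isIntegral_algebraMap (R := ℤ) (A := ℂ) (x := PowerSeries.coeff k S.W)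

private theorem pi_uzP {e q : ℕ} (S : WdP e q δ) : PI (uzP S) := by
  unfold uzP
  exact pi_mul (pi_C ((pi_nat e).pow 2)) (pi_mul pi_X (pi_WC S))

private theorem pi_tau (e q : ℕ) : PI (tau e q) := by
  unfold tau
  exact pi_pow (pi_mul (pi_C (pi_nat _)) pi_X) e

theorem x1P_int (pd : PData g n) (i : Fin n) (k : ℕ) :
    IsIntegral ℤ (PowerSeries.coeff k (x1P pd i)) := by
  unfold x1P
  rw [PowerSeries.coeff_rescale]
  exact (((pi_nat pd.e).pow 2).pow k).mul (pd.integral i k)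

theorem x2P_int (pd : PData g n) (S : WdP pd.e pd.q δ) (j : Fin n) (k : ℕ) :
    IsIntegral ℤ (PowerSeries.coeff k (x2P pd m S j)) := by
  have h1 : PI (sbH (uzP_zero S) (pd.x j)) := by
    intro k
    rw [sbH_coeff]
    exact IsIntegral.sum _ fun i _ => (pd.integral j i).mul (pi_pow (pi_uzP S) i k)
  unfold x2P
  exact pi_mul (pi_pow (pi_add pi_one (pi_mul (pi_C (pi_nat δ)) (pi_tau _ _))) m) h1 k

theorem x1P_growth (pd : PData g n) (hδ : 1 ≤ δ) (i : Fin n) (k : ℕ) :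
    ‖PowerSeries.coeff k (x1P pd i)‖ ≤ RB pd m δ ^ (k + 1) := by
  have he : (1 : ℝ) ≤ pd.e := by exact_mod_cast pd.e_pos
  have hq : (1 : ℝ) ≤ pd.q := by exact_mod_cast pd.q_pos
  have hd : (1 : ℝ) ≤ δ := by exact_mod_cast hδ
  have hR := pd.R_ge
  have he2 : (1 : ℝ) ≤ (pd.e : ℝ) ^ 2 := one_le_pow₀ he
  unfold x1P
  rw [PowerSeries.coeff_rescale, norm_mul, norm_pow, norm_pow, Complex.norm_natCast]
  have h2 : (1 : ℝ) ≤ 2 ^ (m + 3) := one_le_pow₀ (by norm_num)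
  have hRB : (pd.e : ℝ) ^ 2 * pd.R ≤ RB pd m δ := by
    unfold RB
    push_cast
    have h3 : (1 : ℝ) ≤ 2 ^ (m + 3) * δ * pd.q := by
      have := mul_le_mul h2 hd (by norm_num) (by positivity)
      have := mul_le_mul this hq (by norm_num) (by positivity)
      linarith
    have h4 : 0 ≤ (pd.e : ℝ) ^ 2 * pd.R := by positivity
    calc (pd.e : ℝ) ^ 2 * pd.R = 1 * ((pd.e : ℝ) ^ 2 * pd.R) := by ring
      _ ≤ (2 ^ (m + 3) * δ * pd.q) * ((pd.e : ℝ) ^ 2 * pd.R) := mul_le_mul_of_nonneg_right h3 h4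
      _ = _ := by ring
  calc ((pd.e : ℝ) ^ 2) ^ k * ‖PowerSeries.coeff k (pd.x i)‖
      ≤ ((pd.e : ℝ) ^ 2) ^ (k + 1) * pd.R ^ (k + 1) :=
        mul_le_mul (pow_le_pow_right₀ he2 (Nat.le_succ k)) (pd.growth i k) (norm_nonneg _)
          (by positivity)
    _ = ((pd.e : ℝ) ^ 2 * pd.R) ^ (k + 1) := by rw [mul_pow]
    _ ≤ _ := pow_le_pow_left₀ (by positivity) hRB _

private theorem nrm_of_le {R r C : ℝ} (hR : 0 ≤ R) (hr : 0 ≤ r) (hC : 0 ≤ C) (h : R * r ≤ 1 / 2)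
    {w : PowerSeries ℂ} (hw : ∀ k, ‖PowerSeries.coeff k w‖ ≤ C * R ^ k) : nrm r w ≤ 2 * C := by
  have h0 : 0 ≤ R * r := mul_nonneg hR hr
  have h1 : Summable fun k : ℕ => C * (R * r) ^ k :=
    (summable_geometric_of_lt_one h0 (by linarith)).mul_left C
  have h2 := Summable.tsum_le_tsum (f := fun k => ‖PowerSeries.coeff k w‖ * r ^ k)
    (g := fun k => C * (R * r) ^ k) (fun k => by
      rw [mul_pow, ← mul_assoc]
      exact mul_le_mul_of_nonneg_right (hw k) (pow_nonneg hr k))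
    (gr_of_le hR hr (by linarith) hw) h1
  rw [tsum_mul_left, tsum_geometric_of_lt_one h0 (by linarith)] at h2
  refine h2.trans ?_
  have h3 : (1 - R * r)⁻¹ ≤ 2 := by
    rw [inv_le_comm₀ (by linarith) (by norm_num)]
    linarith
  calc C * (1 - R * r)⁻¹ ≤ C * 2 := mul_le_mul_of_nonneg_left h3 hC
    _ = 2 * C := by ring

private theorem nrm_C (r : ℝ) (z : ℂ) : nrm r (PowerSeries.C z) = ‖z‖ := by
  unfold nrm
  rw [tsum_eq_single 0]
  · simp
  · intro k hk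
    rw [PowerSeries.coeff_C, if_neg hk, norm_zero, zero_mul]

private theorem nrm_X (r : ℝ) : nrm r PowerSeries.X = r := by
  unfold nrm
  rw [tsum_eq_single 1]
  · simp
  · intro k hk
    rw [PowerSeries.coeff_X, if_neg hk, norm_zero, zero_mul]

private theorem nrm_add {r : ℝ} (hr : 0 ≤ r) {v w : PowerSeries ℂ} (hv : Gr r v) (hw : Gr r w) :
    nrm r (v + w) ≤ nrm r v + nrm r w := by
  unfold nrm
  rw [← Summable.tsum_add hv hw]
  refine Summable.tsum_le_tsum (fun k => ?_) (gr_add hr hv hw) (hv.add hw)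
  rw [map_add, ← add_mul]
  exact mul_le_mul_of_nonneg_right (norm_add_le _ _) (pow_nonneg hr k)

private theorem WC_le {e q : ℕ} (S : WdP e q δ) (he : 1 ≤ e) (hδ : 1 ≤ δ) (k : ℕ) :
    ‖PowerSeries.coeff k S.WC‖ ≤ 1 * ((δ : ℝ) * (q * e ^ 2 : ℕ)) ^ k := by
  unfold WdP.WC
  rw [PowerSeries.coeff_map, one_mul]
  by_cases h : e ∣ k
  · obtain ⟨j, rfl⟩ := h
    have h1 := S.le j
    have h2 : (δ * (q * e ^ 2) ^ e) ^ j ≤ (δ * (q * e ^ 2)) ^ (e * j) := by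
      rw [pow_mul (δ * (q * e ^ 2)) e j]
      apply Nat.pow_le_pow_left
      rw [mul_pow δ (q * e ^ 2) e]
      exact Nat.mul_le_mul_right _ (Nat.le_self_pow (n := e) (Nat.one_le_iff_ne_zero.1 he) δ)
    have h3 : |PowerSeries.coeff (e * j) S.W| ≤ (((δ * (q * e ^ 2)) ^ (e * j) : ℕ) : ℤ) :=
      h1.trans (by exact_mod_cast h2)
    have h4 : ‖((PowerSeries.coeff (e * j) S.W : ℤ) : ℂ)‖ =
        ((|PowerSeries.coeff (e * j) S.W| : ℤ) : ℝ) := by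
      rw [Complex.norm_intCast]
      push_cast
      rfl
    change ‖((PowerSeries.coeff (e * j) S.W : ℤ) : ℂ)‖ ≤ _
    rw [h4]
    exact_mod_cast h3
  · rw [S.supp k h, map_zero, norm_zero]
    positivity

/-- convergence of the series `uzP`, `WC` and of the substituted series -/
theorem x2P_nrm (pd : PData g n) (S : WdP pd.e pd.q δ) (hδ : 1 ≤ δ) {r : ℝ} (hr : 0 ≤ r)
    (hr' : 4 * δ * (pd.q * pd.e ^ 2 : ℕ) * pd.R * r ≤ 1) (j : Fin n) :
    Gr r S.WC ∧ Gr r (uzP S) ∧ nrm r (uzP S) ≤ 1 / (2 * pd.R) ∧ Gr (1 / (2 * pd.R)) (pd.x j) ∧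
    Gr r (sbH (uzP_zero S) (pd.x j)) ∧ Gr r (x1P pd j) ∧
    Gr r (x2P pd m S j) ∧ nrm r (x2P pd m S j) ≤ 2 ^ (m + 1) * pd.R := by
  have he : (1 : ℝ) ≤ pd.e := by exact_mod_cast pd.e_pos
  have hq : (1 : ℝ) ≤ pd.q := by exact_mod_cast pd.q_pos
  have hd : (1 : ℝ) ≤ δ := by exact_mod_cast hδ
  have hR := pd.R_ge
  have he2 : (1 : ℝ) ≤ (pd.e : ℝ) ^ 2 := one_le_pow₀ he
  obtain ⟨Q, hQ⟩ : ∃ Q : ℝ, Q = ((pd.q * pd.e ^ 2 : ℕ) : ℝ) := ⟨_, rfl⟩
  have hQe : (pd.e : ℝ) ^ 2 ≤ Q := by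
    rw [hQ]
    push_cast
    nlinarith
  have hQ1 : 1 ≤ Q := he2.trans hQe
  rw [← hQ] at hr'
  have hdQ : 1 ≤ δ * Q := by nlinarith
  have hb1 : (δ * Q) * (pd.R * r) ≤ 1 / 4 := by nlinarith
  have hRr : 0 ≤ pd.R * r := by positivity
  have hb2 : (δ * Q) * r ≤ 1 / 8 := by
    have : 2 * r ≤ pd.R * r := mul_le_mul_of_nonneg_right hR hr
    nlinarith
  have hb3 : Q * (pd.R * r) ≤ 1 / 4 := by
    have : Q * (pd.R * r) ≤ (δ * Q) * (pd.R * r) :=
      mul_le_mul_of_nonneg_right (by nlinarith) hRr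
    linarith
  have hb4 : (pd.e : ℝ) ^ 2 * (pd.R * r) ≤ 1 / 4 :=
    (mul_le_mul_of_nonneg_right hQe hRr).trans hb3
  have hQr : Q * r ≤ 1 / 8 := by
    have : Q * r ≤ (δ * Q) * r := mul_le_mul_of_nonneg_right (by nlinarith) hr
    linarith
  have hWle : ∀ k, ‖PowerSeries.coeff k S.WC‖ ≤ 1 * ((δ : ℝ) * Q) ^ k := by
    intro k
    rw [hQ]
    exact WC_le S pd.e_pos hδ k
  have hWG : Gr r S.WC := gr_of_le (by positivity) hr (by linarith) hWle
  have hWn : nrm r S.WC ≤ 2 * 1 := nrm_of_le (by positivity) hr (by norm_num) (by linarith) hWle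
  have hXW : Gr r (PowerSeries.X * S.WC) := gr_mul hr (gr_X r) hWG
  have huG : Gr r (uzP S) := gr_mul hr (gr_C r _) hXW
  have hun : nrm r (uzP S) ≤ 1 / (2 * pd.R) := by
    have h1 : nrm r (uzP S) ≤ (pd.e : ℝ) ^ 2 * (r * 2) := by
      unfold uzP
      refine (nrm_mul hr (gr_C r _) hXW).trans ?_
      rw [nrm_C, norm_pow, Complex.norm_natCast]
      refine mul_le_mul_of_nonneg_left ?_ (by positivity)
      refine (nrm_mul hr (gr_X r) hWG).trans ?_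
      rw [nrm_X]
      exact mul_le_mul_of_nonneg_left (by linarith) hr
    refine h1.trans ?_
    rw [le_div_iff₀ (by linarith)]
    nlinarith
  have hxle : ∀ k, ‖PowerSeries.coeff k (pd.x j)‖ ≤ pd.R * pd.R ^ k := by
    intro k
    have := pd.growth j k
    rwa [pow_succ, mul_comm] at this
  have hρ : pd.R * (1 / (2 * pd.R)) = 1 / 2 := by
    have : pd.R ≠ 0 := by linarith
    field_simp
  have hρ0 : 0 ≤ 1 / (2 * pd.R) := by positivity
  have hxG : Gr (1 / (2 * pd.R)) (pd.x j) :=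
    gr_of_le (by linarith) hρ0 (by rw [hρ]; norm_num) hxle
  have hxn : nrm (1 / (2 * pd.R)) (pd.x j) ≤ 2 * pd.R :=
    nrm_of_le (by linarith) hρ0 (by linarith) hρ.le hxle
  obtain ⟨hsG, hsn⟩ := cps_gr hr (uzP_zero S) hxG huG hun
  have hu0 := nrm_nonneg hr (uzP S)
  have hsn2 : nrm r (sbH (uzP_zero S) (pd.x j)) ≤ 2 * pd.R := by
    refine hsn.trans (le_trans ?_ hxn)
    have hle : ∀ k, ‖PowerSeries.coeff k (pd.x j)‖ * nrm r (uzP S) ^ k ≤
        ‖PowerSeries.coeff k (pd.x j)‖ * (1 / (2 * pd.R)) ^ k := fun k =>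
      mul_le_mul_of_nonneg_left (pow_le_pow_left₀ hu0 hun k) (norm_nonneg _)
    exact Summable.tsum_le_tsum hle (Summable.of_nonneg_of_le
      (fun k => mul_nonneg (norm_nonneg _) (pow_nonneg hu0 k)) hle hxG) hxG
  have hx1 : Gr r (x1P pd j) := by
    refine gr_of_le (R := (pd.e : ℝ) ^ 2 * pd.R) (C := pd.R) (by positivity) hr (by nlinarith) ?_
    intro k
    unfold x1P
    rw [PowerSeries.coeff_rescale, norm_mul, norm_pow, norm_pow, Complex.norm_natCast, mul_pow]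
    calc ((pd.e : ℝ) ^ 2) ^ k * ‖PowerSeries.coeff k (pd.x j)‖
        ≤ ((pd.e : ℝ) ^ 2) ^ k * (pd.R * pd.R ^ k) :=
          mul_le_mul_of_nonneg_left (hxle k) (by positivity)
      _ = _ := by ring
  have hcX : Gr r (PowerSeries.C (((pd.q * pd.e ^ 2 : ℕ) : ℕ) : ℂ) * PowerSeries.X) :=
    gr_mul hr (gr_C r _) (gr_X r)
  have htG : Gr r (tau pd.e pd.q) := gr_pow hr hcX _
  have htn : nrm r (tau pd.e pd.q) ≤ Q * r := by
    have h1 : nrm r (PowerSeries.C (((pd.q * pd.e ^ 2 : ℕ) : ℕ) : ℂ) * PowerSeries.X) ≤ Q * r := by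
      refine (nrm_mul hr (gr_C r _) (gr_X r)).trans ?_
      rw [nrm_C, nrm_X, Complex.norm_natCast, hQ]
    unfold tau
    refine (nrm_pow hr hcX _).trans ?_
    refine (pow_le_pow_left₀ (nrm_nonneg hr _) h1 _).trans ?_
    have h2 : (Q * r) ^ pd.e ≤ (Q * r) ^ 1 :=
      pow_le_pow_of_le_one (by positivity) (by linarith) pd.e_pos
    rwa [pow_one] at h2
  have hctG : Gr r (PowerSeries.C (δ : ℂ) * tau pd.e pd.q) := gr_mul hr (gr_C r _) htG
  have hctn : nrm r (PowerSeries.C (δ : ℂ) * tau pd.e pd.q) ≤ 1 := by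
    refine (nrm_mul hr (gr_C r _) htG).trans ?_
    rw [nrm_C, Complex.norm_natCast]
    have := mul_le_mul_of_nonneg_left htn (by positivity : (0 : ℝ) ≤ δ)
    nlinarith
  have h1G : Gr r (1 : PowerSeries ℂ) := by
    have := gr_C r (1 : ℂ)
    rwa [map_one] at this
  have hfG : Gr r (1 + PowerSeries.C (δ : ℂ) * tau pd.e pd.q) := gr_add hr h1G hctG
  have hfn : nrm r (1 + PowerSeries.C (δ : ℂ) * tau pd.e pd.q) ≤ 2 := by
    refine (nrm_add hr h1G hctG).trans ?_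
    rw [nrm_one]
    linarith
  have hfmG := gr_pow hr hfG m
  have hx2G : Gr r (x2P pd m S j) := gr_mul hr hfmG hsG
  refine ⟨hWG, huG, hun, hxG, hsG, hx1, hx2G, ?_⟩
  unfold x2P
  refine (nrm_mul hr hfmG hsG).trans ?_
  calc nrm r ((1 + PowerSeries.C (δ : ℂ) * tau pd.e pd.q) ^ m) * nrm r (sbH (uzP_zero S) (pd.x j))
      ≤ 2 ^ m * (2 * pd.R) := mul_le_mul
        ((nrm_pow hr hfG m).trans (pow_le_pow_left₀ (nrm_nonneg hr _) hfn m)) hsn2
        (nrm_nonneg hr _) (by positivity)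
    _ = 2 ^ (m + 1) * pd.R := by rw [pow_succ]; ring

theorem x2P_growth (pd : PData g n) (S : WdP pd.e pd.q δ) (hδ : 1 ≤ δ) (j : Fin n) (k : ℕ) :
    ‖PowerSeries.coeff k (x2P pd m S j)‖ ≤ RB pd m δ ^ (k + 1) := by
  have he : (1 : ℝ) ≤ pd.e := by exact_mod_cast pd.e_pos
  have hq : (1 : ℝ) ≤ pd.q := by exact_mod_cast pd.q_pos
  have hd : (1 : ℝ) ≤ δ := by exact_mod_cast hδ
  have hR := pd.R_ge
  have he2 : (1 : ℝ) ≤ (pd.e : ℝ) ^ 2 := one_le_pow₀ he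
  obtain ⟨Q, hQ⟩ : ∃ Q : ℝ, Q = ((pd.q * pd.e ^ 2 : ℕ) : ℝ) := ⟨_, rfl⟩
  have hQ1 : 1 ≤ Q := by
    rw [hQ]
    push_cast
    nlinarith
  have hdQ : 1 ≤ δ * Q := by nlinarith
  have hD : 0 < 4 * δ * Q * pd.R := by positivity
  have h1 := (x2P_nrm (m := m) pd S hδ (r := 1 / (4 * δ * Q * pd.R)) (by positivity)
    (by rw [← hQ, mul_one_div_cancel hD.ne']) j).2.2.2.2.2.2
  have h2 := (coeff_le_nrm (by positivity) h1.1 k).trans h1.2
  have h3 : ‖PowerSeries.coeff k (x2P pd m S j)‖ ≤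
      2 ^ (m + 1) * pd.R * (4 * δ * Q * pd.R) ^ k := by
    rw [one_div, inv_pow, ← div_eq_mul_inv, div_le_iff₀ (by positivity)] at h2
    exact h2
  refine h3.trans ?_
  have hRB : RB pd m δ = 2 ^ (m + 3) * δ * Q * pd.R := by rw [hQ]; rfl
  have h4 : (1 : ℝ) ≤ 2 ^ m := one_le_pow₀ (by norm_num)
  have h5 : 2 ^ (m + 1) * pd.R ≤ RB pd m δ := by
    rw [hRB]
    have : (2 : ℝ) ^ (m + 1) * pd.R * 1 ≤ 2 ^ (m + 1) * pd.R * (4 * (δ * Q)) :=
      mul_le_mul_of_nonneg_left (by linarith) (by positivity)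
    calc (2 : ℝ) ^ (m + 1) * pd.R = 2 ^ (m + 1) * pd.R * 1 := by ring
      _ ≤ _ := this
      _ = _ := by ring
  have h6 : 4 * δ * Q * pd.R ≤ RB pd m δ := by
    rw [hRB]
    have h7 : (4 : ℝ) ≤ 2 ^ (m + 3) := by
      calc (4 : ℝ) ≤ 1 * 8 := by norm_num
        _ ≤ 2 ^ m * 8 := mul_le_mul_of_nonneg_right h4 (by norm_num)
        _ = 2 ^ (m + 3) := by ring
    gcongr
  calc 2 ^ (m + 1) * pd.R * (4 * δ * Q * pd.R) ^ k ≤ RB pd m δ * RB pd m δ ^ k :=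
        mul_le_mul h5 (pow_le_pow_left₀ hD.le h6 k) (by positivity)
          ((by positivity : (0 : ℝ) ≤ 2 ^ (m + 1) * pd.R).trans h5)
    _ = _ := by ring

end Pool.Agent.H97.FB
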