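import Pool.Agent.H97.FB.ANR

/-! # [H97 FB ANT] The roots of the two reversed families in the variable `T`

`reflect_shift`: let `τ = φ X`, `t' = φ' X`, `τ = t' (1 + δ τ)`. For `p = X^j`, `j ≤ D`: `φ' (reflect D p) = t'^(D-j)`
(`reflect_monomial`, `revAt_le`), `reflect D ((X + C δ)^j) = ∑_k (j choose k) δ^(j-k) X^(D-k)`, so
`φ (reflect D ((X + C δ)^j)) = τ^(D-j) ∑_k (j choose k) (δ τ)^(j-k) = τ^(D-j) (1 + δ τ)^j = t'^(D-j) (1 + δ τ)^D`
(`add_pow`). `reflect D` is additive and commutes with `C c *` (`reflect_add`, `reflect_C_mul`, or write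
`reflect D p = ∑_(j ≤ D) C (p.coeff j) * X^(D-j)`), so sum over the coefficients of `p`.
`shift_root`: `(rv n m (shF δ f)).eval₂ φ (u^m x)`, `u = 1 + δ τ`: with `rv_coeff`, `shF_coeff` and `reflect_shift`
(`D = m (n - i)`) the `i`-th term is `u^(m (n-i)) φ' (reflect (m (n-i)) (f.coeff i)) u^(m i) x^i`, the sum is
`u^(m n) (rv n m f).eval₂ φ' x = 0` (`eval₂_eq_sum_range`, `rv_natDegree`).
`tq_shift`: `tau = (C q * uzP)^e (1 + δ tau)`: `(C q * uzP)^e = (C (q e²) X)^e WC^e` and `S.pow` mapped to `ℂ`.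
`x1P_root`: `tq e (q e²) = (rescale (e²)).comp (tq e q)` (`Polynomial.ringHom_ext`, `PowerSeries.rescale_X`, or
`tq_map_rescale` in `Pool/Agent/H87/SA2/PDE.lean`), and `pd.split` gives `(g.map (tq e q)).eval (pd.x i) = 0`.
`x2P_root`: `shift_root` with `φ = tq e (q e²)`, `φ' = (sbH _).comp (tq e q)`. -/

namespace Pool.Agent.H97.FB

open Finset Polynomial Pool.Agent.H72.ES Pool.Agent.H87.SA2

variable {n m δ : ℕ} {f : ℤ[X][X]}

theorem reflect_shift {S : Type} [CommRing S] (φ φ' : ℤ[X] →+* S)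
    (h : φ X = φ' X * (1 + (δ : S) * φ X)) (D : ℕ) (p : ℤ[X]) (hp : p.natDegree ≤ D) :
    φ (reflect D (p.comp (X + C (δ : ℤ)))) = (1 + (δ : S) * φ X) ^ D * φ' (reflect D p) := by
  have hC : ∀ (ψ : ℤ[X] →+* S) (r : ℤ), ψ (C r) = (r : S) := fun ψ r => eq_intCast (ψ.comp C) r
  refine induction_with_natDegree_le
    (fun p => φ (reflect D (p.comp (X + C (δ : ℤ)))) = (1 + (δ : S) * φ X) ^ D * φ' (reflect D p))
    D ?_ ?_ ?_ p hp
  · rw [zero_comp, reflect_zero, map_zero, map_zero, mul_zero]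
  · intro j r _ hj
    have e1 : (C r * X ^ j : ℤ[X]).comp (X + C (δ : ℤ)) = C r * (X + C (δ : ℤ)) ^ j := by
      rw [mul_comp, C_comp, pow_comp, X_comp]
    have e2 : reflect D ((X + C (δ : ℤ)) ^ j) =
        ∑ k ∈ range (j + 1), C ((δ : ℤ) ^ (j - k) * (j.choose k : ℤ)) * X ^ (D - k) := by
      obtain ⟨rf, hrf⟩ : ∃ rf : ℤ[X] →+ ℤ[X], ∀ q, rf q = reflect D q :=
        ⟨⟨⟨reflect D, reflect_zero⟩, fun a b => reflect_add a b D⟩, fun q => rfl⟩
      rw [← hrf, add_pow, map_sum]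
      refine sum_congr rfl fun k hk => ?_
      rw [mem_range] at hk
      have e3 : (X ^ k * C (δ : ℤ) ^ (j - k) * ((j.choose k : ℕ) : ℤ[X]) : ℤ[X]) =
          C ((δ : ℤ) ^ (j - k) * (j.choose k : ℤ)) * X ^ k := by
        rw [map_mul, map_pow]
        simp only [map_natCast]
        ring
      rw [e3, hrf, reflect_C_mul_X_pow, revAt_le (by omega)]
    rw [e1, reflect_C_mul, map_mul, hC, e2, map_sum, reflect_C_mul_X_pow, revAt_le hj, map_mul, hC, map_pow]
    have e4 : ∑ k ∈ range (j + 1), φ (C ((δ : ℤ) ^ (j - k) * (j.choose k : ℤ)) * X ^ (D - k)) =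
        φ X ^ (D - j) * (1 + (δ : S) * φ X) ^ j := by
      rw [add_pow, mul_sum]
      refine sum_congr rfl fun k hk => ?_
      rw [mem_range] at hk
      rw [map_mul, hC, map_pow, one_pow, mul_pow]
      have e5 : D - k = (D - j) + (j - k) := by omega
      rw [e5, pow_add]
      push_cast
      ring
    rw [e4]
    have e6 : (1 + (δ : S) * φ X) ^ D = (1 + (δ : S) * φ X) ^ (D - j) * (1 + (δ : S) * φ X) ^ j := by
      rw [← pow_add]
      congr 1
      omega
    have e7 : φ X ^ (D - j) = φ' X ^ (D - j) * (1 + (δ : S) * φ X) ^ (D - j) := by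
      rw [← mul_pow, ← h]
    rw [e6, e7]
    ring
  · intro a b _ _ ha hb
    rw [add_comp, reflect_add, reflect_add, map_add, map_add, ha, hb, mul_add]

theorem shift_root {S : Type} [CommRing S] (φ φ' : ℤ[X] →+* S)
    (h : φ X = φ' X * (1 + (δ : S) * φ X)) (hf : f.Monic) (hd : f.natDegree = n)
    (hc : ∀ i, (f.coeff i).natDegree ≤ m * (n - i)) (x : S) (hx : (rv n m f).eval₂ φ' x = 0) :
    (rv n m (shF δ f)).eval₂ φ ((1 + (δ : S) * φ X) ^ m * x) = 0 := by
  have hk : ∀ (ψ : ℤ[X] →+* S) (g : ℤ[X][X]) (y : S), (rv n m g).eval₂ ψ y =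
      ∑ i ∈ range (n + 1), ψ (reflect (m * (n - i)) (g.coeff i)) * y ^ i := by
    intro ψ g y
    unfold rv
    rw [eval₂_finsetSum]
    refine sum_congr rfl fun i _ => ?_
    rw [eval₂_mul, eval₂_C, eval₂_X_pow]
  rw [hk] at hx ⊢
  have h1 : ∑ i ∈ range (n + 1), φ (reflect (m * (n - i)) ((shF δ f).coeff i)) *
      ((1 + (δ : S) * φ X) ^ m * x) ^ i = (1 + (δ : S) * φ X) ^ (m * n) *
      ∑ i ∈ range (n + 1), φ' (reflect (m * (n - i)) (f.coeff i)) * x ^ i := by
    rw [mul_sum]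
    refine sum_congr rfl fun i hi => ?_
    rw [mem_range] at hi
    rw [shF_coeff, reflect_shift φ φ' h _ _ (hc i), mul_pow, ← pow_mul]
    have e1 : m * n = m * (n - i) + m * i := by
      rw [← mul_add]
      congr 1
      omega
    rw [e1, pow_add]
    ring
  rw [h1, hx, mul_zero]

theorem tq_X (e q : ℕ) : tq e (q * e ^ 2) X = tau e q := by
  simp [tq, tau]

theorem tq_shift {e q : ℕ} (S : WdP e q δ) : tau e q =
    (PowerSeries.C (q : ℂ) * uzP S) ^ e * (1 + (δ : PowerSeries ℂ) * tau e q) := by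
  have h1 := congrArg (PowerSeries.map (Int.castRingHom ℂ)) S.pow
  rw [map_mul, map_add, map_mul, map_pow, map_pow, map_mul, map_one, PowerSeries.map_C, PowerSeries.map_C,
    PowerSeries.map_X] at h1
  have h2 : (PowerSeries.C (Int.castRingHom ℂ (δ : ℤ)) : PowerSeries ℂ) = (δ : PowerSeries ℂ) := by
    simp
  have h3 : (PowerSeries.C (Int.castRingHom ℂ ((q * e ^ 2 : ℕ) : ℤ)) * PowerSeries.X : PowerSeries ℂ) ^ e = tau e q := by
    unfold tau
    simp
  rw [h2, h3] at h1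
  have h4 : (PowerSeries.C (q : ℂ) * uzP S) ^ e = tau e q * (PowerSeries.map (Int.castRingHom ℂ) S.W) ^ e := by
    unfold tau uzP WdP.WC
    rw [← mul_pow]
    congr 1
    push_cast
    rw [map_mul]
    ring
  rw [h4, mul_assoc, h1, mul_one]

theorem ant_eval {g : ℤ[X][X]} (pd : PData g n) (i : Fin n) : g.eval₂ (tq pd.e pd.q) (pd.x i) = 0 := by
  rw [eval₂_eq_eval_map, pd.split, eval_prod]
  refine prod_eq_zero (mem_univ i) ?_
  rw [eval_sub, eval_X, eval_C, sub_self]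

theorem x1P_root {g : ℤ[X][X]} (pd : PData g n) (i : Fin n) :
    g.eval₂ (tq pd.e (pd.q * pd.e ^ 2)) (x1P pd i) = 0 := by
  have h1 : tq pd.e (pd.q * pd.e ^ 2) = (PowerSeries.rescale ((pd.e : ℂ) ^ 2)).comp (tq pd.e pd.q) := by
    apply Polynomial.ringHom_ext
    · intro a
      simp [tq]
    · simp only [tq, RingHom.comp_apply, coe_eval₂RingHom, eval₂_X, map_pow, map_mul, PowerSeries.rescale_X]
      congr 1
      have : PowerSeries.rescale ((pd.e : ℂ) ^ 2) (PowerSeries.C (pd.q : ℂ)) = PowerSeries.C (pd.q : ℂ) := by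
        simp
      rw [this]
      push_cast
      rw [map_mul, map_pow]
      ring
  unfold x1P
  rw [h1, ← hom_eval₂, ant_eval, map_zero]

theorem x2P_root (pd : PData (rv n m f) n) (S : WdP pd.e pd.q δ) (hf : f.Monic)
    (hd : f.natDegree = n) (hc : ∀ i, (f.coeff i).natDegree ≤ m * (n - i)) (j : Fin n) :
    (rv n m (shF δ f)).eval₂ (tq pd.e (pd.q * pd.e ^ 2)) (x2P pd m S j) = 0 := by
  have h0 : ((sbH (uzP_zero S)).comp (tq pd.e pd.q)) X = (PowerSeries.C (pd.q : ℂ) * uzP S) ^ pd.e := by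
    simp only [tq, RingHom.comp_apply, coe_eval₂RingHom, eval₂_X, map_pow, map_mul, sbH_X, sbH_C]
  have h1 := shift_root (δ := δ) (tq pd.e (pd.q * pd.e ^ 2)) ((sbH (uzP_zero S)).comp (tq pd.e pd.q))
    (by rw [h0, tq_X]; exact tq_shift S) hf hd hc (sbH (uzP_zero S) (pd.x j))
    (by rw [← hom_eval₂, ant_eval, map_zero])
  rw [tq_X] at h1
  unfold x2P
  have h2 : (PowerSeries.C (δ : ℂ) : PowerSeries ℂ) = (δ : PowerSeries ℂ) := by simp
  rw [h2]
  exact h1

end Pool.Agent.H97.FB
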