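import Pool.Agent.H97.FB.ANC
import Pool.Agent.H97.FB.ANT
import Pool.Agent.H97.FB.ANG

/-! # [H97 FB ANQ] The Puiseux data of the composite polynomial (helper21)

`FP n m f δ lam`: the composite polynomial. `yP`: the series `x_i + lam x'_j`. `pdP`: the Puiseux data. -/

namespace Pool.Agent.H97.FB

open Finset Polynomial Pool.Agent.H72.ES Pool.Agent.H87.SA2

variable {n m δ : ℕ} {f : ℤ[X][X]}

/-- the composite polynomial of the fibres over `x` and `x + δ` -/
noncomputable def FP (n m : ℕ) (f : ℤ[X][X]) (δ lam : ℕ) : ℤ[X][X] :=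
  cpP n lam (rv n m f) (rv n m (shF δ f))

/-- the series `x_i + lam x'_j` -/
noncomputable def yP (pd : PData (rv n m f) n) (S : WdP pd.e pd.q δ) (lam : ℕ)
    (p : Fin n × Fin n) : PowerSeries ℂ := x1P pd p.1 + (lam : PowerSeries ℂ) * x2P pd m S p.2

/-- the Puiseux data of the composite polynomial -/
noncomputable def pdP (pd : PData (rv n m f) n) (S : WdP pd.e pd.q δ) (lam : ℕ) (R1 : ℝ)
    (hn : 1 ≤ n) (hf : f.Monic) (hd : f.natDegree = n)
    (hc : ∀ i, (f.coeff i).natDegree ≤ m * (n - i)) (hδ : 1 ≤ δ)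
    (hR : (1 + (lam : ℝ)) * RB pd m δ ≤ R1) (hinj : Function.Injective (yP pd S lam)) :
    PData (FP n m f δ lam) (n * n) where
  e := pd.e
  q := pd.q * pd.e ^ 2
  e_pos := pd.e_pos
  q_pos := by
    have h1 := pd.e_pos
    have h2 := pd.q_pos
    exact Nat.one_le_iff_ne_zero.2 (by positivity)
  x := fun s => yP pd S lam (finProdFinEquiv.symm s)
  x_inj := hinj.comp finProdFinEquiv.symm.injective
  split := by
    unfold FP
    rw [cpP_split (lam := lam) (tq pd.e (pd.q * pd.e ^ 2)) hn (rv_monic hf hd) (rv_natDegree hf hd)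
      (rv_monic (shF_monic δ hf) (shF_natDegree δ hf hd))
      (rv_natDegree (shF_monic δ hf) (shF_natDegree δ hf hd)) (x1P pd) (x2P pd m S)
      (fun i => x1P_root pd i) (fun j => x2P_root pd S hf hd hc j) hinj]
    exact (Equiv.prod_comp finProdFinEquiv.symm
      (fun p : Fin n × Fin n => (X - C (yP pd S lam p) : (PowerSeries ℂ)[X]))).symm
  integral := fun s k => by
    unfold yP
    rw [map_add]
    refine (x1P_int pd _ k).add ?_
    have h1 : PowerSeries.coeff k ((lam : PowerSeries ℂ) * x2P pd m S (finProdFinEquiv.symm s).2) =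
        (lam : ℂ) * PowerSeries.coeff k (x2P pd m S (finProdFinEquiv.symm s).2) := by
      have h2 : (lam : PowerSeries ℂ) = PowerSeries.C (lam : ℂ) := by simp
      rw [h2, PowerSeries.coeff_C_mul]
    rw [h1]
    have hlam : IsIntegral ℤ (lam : ℂ) := by
      have := isIntegral_algebraMap (R := ℤ) (A := ℂ) (x := (lam : ℤ))
      simpa using this
    exact hlam.mul (x2P_int pd S _ k)
  R := R1
  R_ge := by
    have h1 : (2 : ℝ) ≤ RB pd m δ := by
      unfold RB
      have hR2 := pd.R_ge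
      have e1 : (1 : ℝ) ≤ 2 ^ (m + 3) := one_le_pow₀ (by norm_num)
      have e2 : (1 : ℝ) ≤ δ := by exact_mod_cast hδ
      have e3 : (1 : ℝ) ≤ ((pd.q * pd.e ^ 2 : ℕ) : ℝ) := by
        have h1 := pd.e_pos
        have h2 := pd.q_pos
        exact_mod_cast Nat.one_le_iff_ne_zero.2 (by positivity)
      calc (2 : ℝ) = 1 * 1 * 1 * 2 := by norm_num
        _ ≤ 2 ^ (m + 3) * δ * ((pd.q * pd.e ^ 2 : ℕ) : ℝ) * pd.R := by gcongr
    have h2 : (0 : ℝ) ≤ lam := Nat.cast_nonneg lam
    nlinarith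
  growth := fun s k => by
    have hlam : (0 : ℝ) ≤ lam := Nat.cast_nonneg lam
    have hRB : (0 : ℝ) ≤ RB pd m δ := by
      unfold RB
      have := pd.R_ge
      positivity
    have h2 : (lam : PowerSeries ℂ) = PowerSeries.C (lam : ℂ) := by simp
    unfold yP
    rw [map_add, h2, PowerSeries.coeff_C_mul]
    refine (norm_add_le _ _).trans ?_
    rw [norm_mul, Complex.norm_natCast]
    calc _ ≤ RB pd m δ ^ (k + 1) + (lam : ℝ) * RB pd m δ ^ (k + 1) :=
          add_le_add (x1P_growth pd hδ _ k) (mul_le_mul_of_nonneg_left (x2P_growth pd S hδ _ k) hlam)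
      _ = (1 + (lam : ℝ)) * RB pd m δ ^ (k + 1) := by ring
      _ ≤ (1 + (lam : ℝ)) ^ (k + 1) * RB pd m δ ^ (k + 1) := by
          refine mul_le_mul_of_nonneg_right ?_ (by positivity)
          exact le_self_pow₀ (by linarith) (by omega)
      _ = ((1 + (lam : ℝ)) * RB pd m δ) ^ (k + 1) := (mul_pow _ _ _).symm
      _ ≤ R1 ^ (k + 1) := pow_le_pow_left₀ (by positivity) hR _

end Pool.Agent.H97.FB
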