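import Pool.Agent.H97.FB.AND

/-! # [H97 FB ANS] Conjugation of the series

`x_conj`: `perm_gal pd σ` (`Pool/Agent/H52/AC/PRM.lean`): `σ` sends the coefficients of `x_i` to those of `x_(π i)`; rotations:
`rescale ζ⁻¹ (x_(π i))` is a root of `g.map (tq e q)` (`tq e q X = (C q * X)^e` is fixed by `rescale ζ⁻¹` since `ζ^e = 1`;
`Polynomial.map_map`, `pd.split`), so it is some `x_(μ i)` (`Finset.prod_eq_zero_iff`; existing: grep `rot` or
`rescale` in `Pool/Agent/H52/AC/PRM.lean`, `Pool/Agent/H8/AW`), i.e. `x_(π i) = rescale ζ (x_(μ i))`.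
`SG` from the coefficientwise statement: `sg_of_cj` (CPS), the coefficients are algebraic (`coeff_mem` in PRM).
`x1P_conj`: `rescale` by the integer `e²`: if `v : PowerSeries AA` witnesses `SG σ x x'` then `rescale (e²) v` witnesses
`SG σ (rescale (e²) x) (rescale (e²) x')`; `rescale (e²)` and `rescale ζ` commute (`PowerSeries.rescale_rescale`, `mul_comm`).
`x2P_conj`: `SG σ` is compatible with `*`, `+`, `^`, `sbH` (`SG.mul`, `SG.add`, `SG.pow`, `SG.sb`) and the series `1`,
`C δ`, `tau`, `uzP S` have integer coefficients, so `SG σ y y` (witness: the series over `AA` with the same integers,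
`PowerSeries.map (Int.castRingHom AA)`; show `tau`, `uzP` are images of integer series). So
`SG σ (x2P pd m S i) ((1 + C δ tau)^m * sbH _ (rescale ζ (x_(μ i))))`, and `rescale ζ` of `x2P pd m S (μ i)` equals this:
`rescale ζ tau = tau`, `rescale ζ (sbH uzP a) = sbH uzP (rescale ζ a)`: with `sbH_coeff`:
`coeff k (sbH z (rescale ζ a)) = ∑_(n ≤ k) ζ^n a_n coeff k (z^n)` and `coeff k (z^n) = 0` unless `e ∣ k - n`
(`z = e² X W`, `W` has only exponents divisible by `e`: `S.supp`; equivalently `rescale ζ z = C ζ * z`, so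
`rescale ζ (z^n) = C (ζ^n) z^n`, i.e. `ζ^k coeff k (z^n) = ζ^n coeff k (z^n)`). -/

/-! # [H97 FB ANS] Conjugation of the series

`x_conj`: `perm_gal pd σ` (`Pool/Agent/H52/AC/PRM.lean`): `σ` sends the coefficients of `x_i` to those of `x_(π i)`; rotations:
`rescale ζ⁻¹ (x_(π i))` is a root of `g.map (tq e q)` (`tq e q X = (C q * X)^e` is fixed by `rescale ζ⁻¹` since `ζ^e = 1`;
`Polynomial.map_map`, `pd.split`), so it is some `x_(μ i)` (`Finset.prod_eq_zero_iff`; existing: grep `rot` or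
`rescale` in `Pool/Agent/H52/AC/PRM.lean`, `Pool/Agent/H8/AW`), i.e. `x_(π i) = rescale ζ (x_(μ i))`.
`SG` from the coefficientwise statement: `sg_of_cj` (CPS), the coefficients are algebraic (`coeff_mem` in PRM).
`x1P_conj`: `rescale` by the integer `e²`: if `v : PowerSeries AA` witnesses `SG σ x x'` then `rescale (e²) v` witnesses
`SG σ (rescale (e²) x) (rescale (e²) x')`; `rescale (e²)` and `rescale ζ` commute (`PowerSeries.rescale_rescale`, `mul_comm`).
`x2P_conj`: `SG σ` is compatible with `*`, `+`, `^`, `sbH` (`SG.mul`, `SG.add`, `SG.pow`, `SG.sb`) and the series `1`,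
`C δ`, `tau`, `uzP S` have integer coefficients, so `SG σ y y` (witness: the series over `AA` with the same integers,
`PowerSeries.map (Int.castRingHom AA)`; show `tau`, `uzP` are images of integer series). So
`SG σ (x2P pd m S i) ((1 + C δ tau)^m * sbH _ (rescale ζ (x_(μ i))))`, and `rescale ζ` of `x2P pd m S (μ i)` equals this:
`rescale ζ tau = tau`, `rescale ζ (sbH uzP a) = sbH uzP (rescale ζ a)`: with `sbH_coeff`:
`coeff k (sbH z (rescale ζ a)) = ∑_(n ≤ k) ζ^n a_n coeff k (z^n)` and `coeff k (z^n) = 0` unless `e ∣ k - n`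
(`z = e² X W`, `W` has only exponents divisible by `e`: `S.supp`; equivalently `rescale ζ z = C ζ * z`, so
`rescale ζ (z^n) = C (ζ^n) z^n`, i.e. `ζ^k coeff k (z^n) = ζ^n coeff k (z^n)`). -/

namespace Pool.Agent.H97.FB

open Finset Polynomial Pool.Agent.H72.ES Pool.Agent.H87.SA2 Pool.Agent.H52.AC

variable {n m δ : ℕ} {g : ℤ[X][X]}

theorem x_conj (pd : PData g n) (σ : AA →+* ℂ) {ζ : ℂ} (hζ : ζ ^ pd.e = 1) :
    ∃ μ : Fin n → Fin n, ∀ i, SG σ (pd.x i) (PowerSeries.rescale ζ (pd.x (μ i))) := by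
  obtain ⟨π, hπ⟩ := perm_gal pd σ
  obtain ⟨ρ, hρ⟩ := perm_rot pd hζ
  refine ⟨fun i => ρ.symm (π i), fun i => ?_⟩
  rw [hρ, Equiv.apply_symm_apply]
  exact sg_of_cj (coeff_mem pd i) (fun k a ha => hπ i k a ha)

private theorem map_resc {A B : Type} [CommRing A] [CommRing B] (φ : A →+* B) (c : A) (v : PowerSeries A) :
    PowerSeries.map φ (PowerSeries.rescale c v) = PowerSeries.rescale (φ c) (PowerSeries.map φ v) := by
  ext k
  rw [PowerSeries.coeff_map, PowerSeries.coeff_rescale, PowerSeries.coeff_rescale, PowerSeries.coeff_map, map_mul, map_pow]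

private theorem resc_comm (a b : ℂ) (v : PowerSeries ℂ) :
    PowerSeries.rescale a (PowerSeries.rescale b v) = PowerSeries.rescale b (PowerSeries.rescale a v) := by
  ext k
  rw [PowerSeries.coeff_rescale, PowerSeries.coeff_rescale, PowerSeries.coeff_rescale, PowerSeries.coeff_rescale]
  ring

theorem x1P_conj (pd : PData g n) {σ : AA →+* ℂ} {ζ : ℂ} {i i' : Fin n}
    (h : SG σ (pd.x i) (PowerSeries.rescale ζ (pd.x i'))) :
    SG σ (x1P pd i) (PowerSeries.rescale ζ (x1P pd i')) := by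
  obtain ⟨v, h1, h2⟩ := h
  refine ⟨PowerSeries.rescale ((pd.e : AA) ^ 2) v, ?_, ?_⟩
  · rw [map_resc, h1, map_pow, map_natCast]
    rfl
  · rw [map_resc, h2, map_pow, map_natCast, resc_comm]
    rfl

private theorem sg_nat (σ : AA →+* ℂ) (c : ℕ) : SG σ (PowerSeries.C (c : ℂ)) (PowerSeries.C (c : ℂ)) :=
  ⟨PowerSeries.C (c : AA), by rw [PowerSeries.map_C, map_natCast], by rw [PowerSeries.map_C, map_natCast]⟩

private theorem sg_tau (σ : AA →+* ℂ) (e q : ℕ) : SG σ (tau e q) (tau e q) :=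
  ((sg_nat σ _).mul (SG.X σ)).pow e

private theorem sg_one (σ : AA →+* ℂ) : SG σ 1 1 := ⟨1, map_one _, map_one _⟩

private theorem sg_uzP (σ : AA →+* ℂ) {e q : ℕ} (S : WdP e q δ) : SG σ (uzP S) (uzP S) := by
  have h1 : SG σ (PowerSeries.C ((e : ℂ) ^ 2)) (PowerSeries.C ((e : ℂ) ^ 2)) := by
    have := sg_nat σ (e ^ 2)
    rwa [Nat.cast_pow] at this
  have h2 : SG σ S.WC S.WC := by
    refine ⟨PowerSeries.map (Int.castRingHom AA) S.W, ?_, ?_⟩
    · ext k
      rw [PowerSeries.coeff_map, PowerSeries.coeff_map, WdP.WC, PowerSeries.coeff_map]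
      simp
    · ext k
      rw [PowerSeries.coeff_map, PowerSeries.coeff_map, WdP.WC, PowerSeries.coeff_map]
      simp
  exact h1.mul ((SG.X σ).mul h2)

private theorem resc_C (ζ c : ℂ) : PowerSeries.rescale ζ (PowerSeries.C c) = PowerSeries.C c := by
  ext k
  rw [PowerSeries.coeff_rescale, PowerSeries.coeff_C]
  by_cases hk : k = 0
  · subst hk
    simp
  · rw [if_neg hk, mul_zero]

private theorem resc_tau {e q : ℕ} {ζ : ℂ} (hζ : ζ ^ e = 1) : PowerSeries.rescale ζ (tau e q) = tau e q := by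
  unfold tau
  rw [map_pow, map_mul, resc_C, PowerSeries.rescale_X, ← mul_assoc, mul_comm (PowerSeries.C _) (PowerSeries.C ζ), mul_assoc, mul_pow,
    ← map_pow, hζ, map_one, one_mul]

private theorem resc_uzP {e q : ℕ} {ζ : ℂ} (hζ : ζ ^ e = 1) (S : WdP e q δ) :
    PowerSeries.rescale ζ (uzP S) = PowerSeries.C ζ * uzP S := by
  have h1 : PowerSeries.rescale ζ S.WC = S.WC := by
    ext k
    rw [PowerSeries.coeff_rescale, WdP.WC, PowerSeries.coeff_map]
    by_cases hk : e ∣ k
    · obtain ⟨j, rfl⟩ := hk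
      rw [pow_mul, hζ, one_pow, one_mul]
    · rw [S.supp k hk, map_zero, mul_zero]
  unfold uzP
  rw [map_mul, map_mul, resc_C, PowerSeries.rescale_X, h1]
  ring

private theorem resc_sb {e q : ℕ} {ζ : ℂ} (hζ : ζ ^ e = 1) (S : WdP e q δ) (a : PowerSeries ℂ) :
    PowerSeries.rescale ζ (sbH (uzP_zero S) a) = sbH (uzP_zero S) (PowerSeries.rescale ζ a) := by
  have h1 : ∀ n k : ℕ, ζ ^ k * PowerSeries.coeff k (uzP S ^ n) = ζ ^ n * PowerSeries.coeff k (uzP S ^ n) := by
    intro n k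
    have h2 : PowerSeries.rescale ζ (uzP S ^ n) = PowerSeries.C (ζ ^ n) * uzP S ^ n := by
      rw [map_pow, resc_uzP hζ, mul_pow, map_pow]
    have h3 := congrArg (PowerSeries.coeff k) h2
    rwa [PowerSeries.coeff_rescale, PowerSeries.coeff_C_mul] at h3
  ext k
  rw [PowerSeries.coeff_rescale, sbH_coeff, sbH_coeff, Finset.mul_sum]
  apply Finset.sum_congr rfl
  intro n _
  rw [PowerSeries.coeff_rescale]
  linear_combination (PowerSeries.coeff n a) * h1 n k

theorem x2P_conj (pd : PData g n) (S : WdP pd.e pd.q δ) {σ : AA →+* ℂ} {ζ : ℂ}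
    (hζ : ζ ^ pd.e = 1) {i i' : Fin n} (h : SG σ (pd.x i) (PowerSeries.rescale ζ (pd.x i'))) :
    SG σ (x2P pd m S i) (PowerSeries.rescale ζ (x2P pd m S i')) := by
  have h1 : PowerSeries.rescale ζ (x2P pd m S i') =
      (1 + PowerSeries.C (δ : ℂ) * tau pd.e pd.q) ^ m * sbH (uzP_zero S) (PowerSeries.rescale ζ (pd.x i')) := by
    unfold x2P
    rw [map_mul, map_pow, map_add, map_one, map_mul, resc_C, resc_tau hζ, resc_sb hζ]
  rw [h1]
  exact (((sg_one σ).add ((sg_nat σ δ).mul (sg_tau σ _ _))).pow m).mul (SG.sb (uzP_zero S) (uzP_zero S) (sg_uzP σ S) h)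

end Pool.Agent.H97.FB
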