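import Pool.Agent.H97.FB.AND

/-! # [H97 FB ANR] The reversed family and the shifted family: degrees, sizes, values

`rv n m f = ∑_(i ≤ n) C (reflect (m (n - i)) (f.coeff i)) * X^i`.
`rv_coeff`: `Polynomial.finsetSum_coeff`, `coeff_C_mul_X_pow`. `rv_monic`, `rv_natDegree`: coefficient of `X^n` is
`reflect 0 1 = 1`, the others are below. `rv_cdeg`: `reflect N p` with `natDegree p ≤ N` has `natDegree ≤ N`
(`Polynomial.reflect`, `coeff_reflect`, `revAt`; coefficients above `N` are the coefficients of `p` there, so `0`).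
`rv_L1`: `L1 p = ∑ |coeff|` over the support (`Pool/Agent/H72/ES/Biv.lean`; `L1_eq_range`-type lemma in BivNorm), at most
`m n + 1` nonzero coefficients, each at most `A`.
`shF`: `(shF δ f).coeff i = (f.coeff i).comp (X + C δ)` (`coeff_map`), degree: `natDegree_comp_le`/`natDegree_comp`
(`natDegree (X + C δ) = 1`). `shF_monic`: `Monic.map`. `shF_le`: `p.comp (X + C δ) = ∑_j p_j (X + C δ)^j`, the coefficients of
`(X + C δ)^j` are `δ^(j-k) (j choose k) ≤ (1 + δ)^j` in absolute value (`coeff_X_add_C_pow`; `add_pow` gives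
`∑_k δ^(j-k) choose = (1+δ)^j`), `j ≤ m n`.
`rv_fiber`: for `a ≠ 0` in `ℂ`-values: `(rv n m f)(1/a, Y/a^m) a^(m n) = f(a, Y)`: for `p` with `natDegree p ≤ D`:
`(reflect D p)(1/a) a^D = p(a)` (`Polynomial.eval₂_reflect_mul_pow`). Here: if `f(a, z) = 0` then
`(rv n m f)(1/a, z/a^m) = 0`. -/

namespace Pool.Agent.H97.FB

open Finset Polynomial Pool.Agent.H72.ES

variable {n m : ℕ} {f : ℤ[X][X]}

theorem rv_coeff {i : ℕ} (hi : i ≤ n) : (rv n m f).coeff i = reflect (m * (n - i)) (f.coeff i) := by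
  unfold rv
  rw [finsetSum_coeff]
  simp only [coeff_C_mul_X_pow]
  rw [Finset.sum_ite_eq (range (n + 1)) i, if_pos (mem_range.2 (by omega))]

theorem rv_coeff' {i : ℕ} (hi : n < i) : (rv n m f).coeff i = 0 := by
  unfold rv
  rw [finsetSum_coeff]
  simp only [coeff_C_mul_X_pow]
  rw [Finset.sum_ite_eq (range (n + 1)) i, if_neg (fun h => by have := mem_range.1 h; omega)]

private theorem rv_top (hf : f.Monic) (hd : f.natDegree = n) : (rv n m f).coeff n = 1 := by
  rw [rv_coeff le_rfl, Nat.sub_self, mul_zero, ← hd, hf.coeff_natDegree, reflect_one, pow_zero]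

private theorem rv_nd_le : (rv n m f).natDegree ≤ n := by
  rw [natDegree_le_iff_coeff_eq_zero]
  intro i hi
  exact rv_coeff' hi

theorem rv_monic (hf : f.Monic) (hd : f.natDegree = n) : (rv n m f).Monic :=
  monic_of_natDegree_le_of_coeff_eq_one n rv_nd_le (rv_top hf hd)

theorem rv_natDegree (hf : f.Monic) (hd : f.natDegree = n) : (rv n m f).natDegree = n := by
  refine le_antisymm rv_nd_le (le_natDegree_of_ne_zero ?_)
  rw [rv_top hf hd]
  exact one_ne_zero

private theorem refl_deg {N : ℕ} {p : ℤ[X]} (hp : p.natDegree ≤ N) : (reflect N p).natDegree ≤ N := by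
  rw [natDegree_le_iff_coeff_eq_zero]
  intro i hi
  rw [coeff_reflect, revAt_eq_self_of_lt hi]
  exact coeff_eq_zero_of_natDegree_lt (by omega)

theorem rv_cdeg (hc : ∀ i, (f.coeff i).natDegree ≤ m * (n - i)) (i : ℕ) :
    ((rv n m f).coeff i).natDegree ≤ m * n := by
  by_cases hi : i ≤ n
  · rw [rv_coeff hi]
    exact (refl_deg (hc i)).trans (Nat.mul_le_mul_left _ (Nat.sub_le _ _))
  · rw [rv_coeff' (by omega), natDegree_zero]
    exact Nat.zero_le _

theorem rv_L1 {A : ℕ} (hc : ∀ i, (f.coeff i).natDegree ≤ m * (n - i))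
    (hA : ∀ i j, |(f.coeff i).coeff j| ≤ (A : ℤ)) (i : ℕ) :
    L1 ((rv n m f).coeff i) ≤ (((m * n + 1) * A : ℕ) : ℝ) := by
  have h1 : ∀ j, |((((rv n m f).coeff i).coeff j : ℤ) : ℝ)| ≤ (A : ℝ) := by
    intro j
    by_cases hi : i ≤ n
    · rw [rv_coeff hi, coeff_reflect]
      exact_mod_cast hA i _
    · rw [rv_coeff' (by omega), coeff_zero, Int.cast_zero, abs_zero]
      exact Nat.cast_nonneg _
  have h2 : ((rv n m f).coeff i).support ⊆ range (m * n + 1) := by
    intro j hj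
    rw [mem_range]
    have := le_natDegree_of_mem_supp j hj
    have := rv_cdeg hc i
    omega
  unfold L1
  calc ∑ j ∈ ((rv n m f).coeff i).support, |((((rv n m f).coeff i).coeff j : ℤ) : ℝ)|
      ≤ ∑ _j ∈ ((rv n m f).coeff i).support, (A : ℝ) := sum_le_sum fun j _ => h1 j
    _ = ((rv n m f).coeff i).support.card * (A : ℝ) := by rw [sum_const, nsmul_eq_mul]
    _ ≤ (((m * n + 1) * A : ℕ) : ℝ) := by
        push_cast
        refine mul_le_mul_of_nonneg_right ?_ (Nat.cast_nonneg _)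
        have h3 := card_le_card h2
        rw [card_range] at h3
        exact_mod_cast h3

variable (δ : ℕ)

theorem shF_coeff (i : ℕ) : (shF δ f).coeff i = (f.coeff i).comp (X + C (δ : ℤ)) := by
  unfold shF
  rw [coeff_map, coe_compRingHom_apply]

theorem shF_monic (hf : f.Monic) : (shF δ f).Monic := hf.map _

theorem shF_natDegree (hf : f.Monic) (hd : f.natDegree = n) : (shF δ f).natDegree = n := by
  unfold shF
  rw [hf.natDegree_map, hd]

theorem shF_cdeg (hc : ∀ i, (f.coeff i).natDegree ≤ m * (n - i)) (i : ℕ) :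
    ((shF δ f).coeff i).natDegree ≤ m * (n - i) := by
  rw [shF_coeff]
  refine natDegree_comp_le.trans ?_
  rw [natDegree_X_add_C, mul_one]
  exact hc i

theorem shF_le {A : ℕ} (hc : ∀ i, (f.coeff i).natDegree ≤ m * (n - i))
    (hA : ∀ i j, |(f.coeff i).coeff j| ≤ (A : ℤ)) (i j : ℕ) :
    |((shF δ f).coeff i).coeff j| ≤ (((m * n + 1) * A * (1 + δ) ^ (m * n) : ℕ) : ℤ) := by
  have hd : (f.coeff i).natDegree < m * n + 1 := by
    have h1 := hc i
    have h2 : m * (n - i) ≤ m * n := Nat.mul_le_mul_left _ (Nat.sub_le _ _)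
    omega
  rw [shF_coeff, Polynomial.comp, eval₂_eq_sum_range' C hd, finsetSum_coeff]
  have h1 : ∀ l ∈ range (m * n + 1), |(C ((f.coeff i).coeff l) * (X + C (δ : ℤ)) ^ l).coeff j| ≤
      ((A * (1 + δ) ^ (m * n) : ℕ) : ℤ) := by
    intro l hl
    have hl' := mem_range.1 hl
    rw [coeff_C_mul, coeff_X_add_C_pow, abs_mul]
    have h2 : |((δ : ℤ) ^ (l - j) * (l.choose j : ℤ))| ≤ (((1 + δ) ^ (m * n) : ℕ) : ℤ) := by
      rw [abs_of_nonneg (by positivity)]
      by_cases hjl : j ≤ l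
      · have h3 : δ ^ (l - j) * l.choose j ≤ (1 + δ) ^ l := by
          rw [add_pow]
          have h4 := Finset.single_le_sum (f := fun k => 1 ^ k * δ ^ (l - k) * l.choose k)
            (s := range (l + 1)) (fun k _ => Nat.zero_le _) (mem_range.2 (by omega : j < l + 1))
          simpa using h4
        have h5 : (1 + δ) ^ l ≤ (1 + δ) ^ (m * n) := Nat.pow_le_pow_right (by omega) (by omega)
        exact_mod_cast h3.trans h5
      · rw [Nat.choose_eq_zero_of_lt (by omega)]
        simp only [Nat.cast_zero, mul_zero]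
        exact Int.natCast_nonneg _
    push_cast at h2 ⊢
    exact mul_le_mul (hA i l) h2 (abs_nonneg _) (Nat.cast_nonneg _)
  refine (Finset.abs_sum_le_sum_abs _ _).trans ((sum_le_sum h1).trans ?_)
  rw [sum_const, card_range, nsmul_eq_mul]
  push_cast
  rw [mul_assoc]

theorem shF_fa (a : ℕ) : fa (shF δ f) a = fa f (a + δ) := by
  unfold fa shF
  rw [Polynomial.map_map]
  congr 1
  refine Polynomial.ringHom_ext (fun z => ?_) ?_
  · simp
  · simp

theorem rv_fiber (hd : f.natDegree = n) (hc : ∀ i, (f.coeff i).natDegree ≤ m * (n - i)) {a : ℕ}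
    (ha : 1 ≤ a) {z : ℂ} (hz : ((fa f a).map (Int.castRingHom ℂ)).eval z = 0) :
    (rv n m f).eval₂ (eval₂RingHom (Int.castRingHom ℂ) (1 / (a : ℂ))) (z / (a : ℂ) ^ m) = 0 := by
  have ha0 : (a : ℂ) ≠ 0 := by exact_mod_cast (by omega : a ≠ 0)
  have h1 : (f.eval₂ (eval₂RingHom (Int.castRingHom ℂ) (a : ℂ)) z) = 0 := by
    rw [← hz]
    unfold fa
    rw [Polynomial.map_map, eval_map]
    congr 1
    refine Polynomial.ringHom_ext (fun z => ?_) ?_
    · simp
    · simp
  have hlt : (rv n m f).natDegree < n + 1 := lt_of_le_of_lt rv_nd_le (Nat.lt_succ_self n)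
  have hlt' : f.natDegree < n + 1 := by omega
  rw [eval₂_eq_sum_range' _ hlt'] at h1
  rw [eval₂_eq_sum_range' _ hlt]
  have h2 : (∑ i ∈ range (n + 1), eval₂RingHom (Int.castRingHom ℂ) (1 / (a : ℂ)) ((rv n m f).coeff i) *
      (z / (a : ℂ) ^ m) ^ i) * (a : ℂ) ^ (m * n) = 0 := by
    rw [← h1, Finset.sum_mul]
    refine sum_congr rfl fun i hi => ?_
    have hi' : i ≤ n := by
      have := mem_range.1 hi
      omega
    rw [rv_coeff hi', coe_eval₂RingHom, coe_eval₂RingHom]
    let _ : Invertible (a : ℂ) := invertibleOfNonzero ha0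
    have h3 := eval₂_reflect_mul_pow (Int.castRingHom ℂ) (a : ℂ) (m * (n - i)) (f.coeff i) (hc i)
    have h4 : (a : ℂ) ^ (m * n) = (a : ℂ) ^ (m * (n - i)) * ((a : ℂ) ^ m) ^ i := by
      rw [← pow_mul, ← pow_add, ← mul_add, Nat.sub_add_cancel hi']
    rw [h4, div_pow, ← h3]
    have h5 : ((a : ℂ) ^ m) ^ i ≠ 0 := pow_ne_zero _ (pow_ne_zero _ ha0)
    have h6 : (1 / (a : ℂ)) = ⅟(a : ℂ) := by
      rw [invOf_eq_inv, one_div]
    rw [h6]
    field_simp
  exact (mul_eq_zero.1 h2).resolve_right (pow_ne_zero _ ha0)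

end Pool.Agent.H97.FB
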