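import Pool.Agent.H97.FB.Defs2
import Pool.Agent.H97.XC.Disc
import Pool.Agent.H97.XC.Pdx

/-! # [H97 FB FMB] Existence of the constants of a family

`F = rv n m f`: coefficient of `Y^i` is `reflect (m (n-i)) (f_i)` (`i ≤ n`), so `F` is monic of degree `n` (`reflect 0 1 = 1`), `Bd F (m n) B` (`reflect` permutes the coefficients, `natDegree_reflect_le`).
SQUAREFREE: `f` is squarefree in `ℤ[x][Z]` (monic and irreducible over `ℂ[x]`: if `g * g ∣ f`, then over `ℂ[x]`, `g' * g' ∣ f'`, so `g'` is a unit of `ℂ[x][Z]`, `g` has degree `0` and is a unit since its leading coefficient divides `1`), `sqf_bez` (`Pool/Agent/H97/XC/Disc.lean`): `a f + b f' = C c(x)`, `c ≠ 0`. For every integer (or complex) `x0 ≠ 0` with `c(x0) ≠ 0`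
the polynomial `f(x0, Z)` has no multiple complex root, so `F(1/x0, Y) = x0^(-m n) f(x0, x0^m Y)` has none either. If `h * h ∣ F` in `ℤ[t][Y]` with `h` not a unit: `F` monic implies that the leading coefficient of `h` is `± 1` and `natDegree h ≥ 1`; for a positive integer `x0` with `c(x0) ≠ 0` (exists, finitely many roots) `h(1/x0, Y)` has a complex root, which is
a multiple root of `F(1/x0, Y)`: contradiction. So `Squarefree F`.
`disc_bd` (`m := m n`): Bezout `u F + v F' = C c`, `natDegree c ≤ 2 n (m n)`, `|c_i| ≤ (2n)! ((m n + 1) (n B))^(2n) =: Hc`. `exists_pdata_bd` with `s = n! * (2 n (m n) + m n)`: `pd`, `pd.q, pd.R ≤ CC n (m n) B s`. `B' = max B (max Hc (CC ..))`.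
`B' ≤ B^c` for `B ≥ 2`: a constant `K` satisfies `K ≤ 2^K ≤ B^K`, `B + 1 ≤ B^2`; `LL = K1 (B+1) ≤ B^(K1+2)` with `K1 = 4 d (d+1) (e m + 1) (s+1)`, `CC = LL^E1`, so `c = (K1 + 2) E1 + (the same for Hc) + 1`. -/

namespace Pool.Agent.H97.FB

open Finset Polynomial Pool.Agent.H72.ES Pool.Agent.H87.SA2 Pool.Agent.H97.XC

private theorem fmb_coeff (n m : ℕ) (f : ℤ[X][X]) (i : ℕ) :
    (rv n m f).coeff i = if i ≤ n then reflect (m * (n - i)) (f.coeff i) else 0 := by
  unfold rv
  rw [finsetSum_coeff]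
  simp only [coeff_C_mul_X_pow]
  split_ifs with h
  · rw [Finset.sum_eq_single i]
    · simp
    · intro b _ hb
      rw [if_neg (Ne.symm hb)]
    · intro hi
      exact absurd (Finset.mem_range.2 (Nat.lt_succ_of_le h)) hi
  · refine Finset.sum_eq_zero fun b hb => ?_
    rw [if_neg]
    rintro rfl
    exact h (Nat.lt_succ_iff.1 (Finset.mem_range.1 hb))

private theorem fmb_natDegree {n m : ℕ} {f : ℤ[X][X]} : (rv n m f).natDegree ≤ n := by
  refine natDegree_le_iff_coeff_eq_zero.2 fun N hN => ?_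
  rw [fmb_coeff, if_neg (not_le.2 hN)]

private theorem fmb_top {n m : ℕ} {f : ℤ[X][X]} (hf : f.Monic) (hd : f.natDegree = n) :
    (rv n m f).coeff n = 1 := by
  rw [fmb_coeff, if_pos le_rfl, Nat.sub_self, Nat.mul_zero]
  have h : f.coeff n = 1 := by rw [← hd]; exact hf.coeff_natDegree
  rw [h, reflect_one, pow_zero]

private theorem fmb_deg {n m : ℕ} {f : ℤ[X][X]} (hf : f.Monic) (hd : f.natDegree = n) :
    (rv n m f).natDegree = n := by
  refine le_antisymm fmb_natDegree (le_natDegree_of_ne_zero ?_)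
  rw [fmb_top hf hd]
  exact one_ne_zero

private theorem fmb_monic {n m : ℕ} {f : ℤ[X][X]} (hf : f.Monic) (hd : f.natDegree = n) :
    (rv n m f).Monic := by
  rw [Monic, leadingCoeff, fmb_deg hf hd]
  exact fmb_top hf hd

private theorem fmb_reflect {N B : ℕ} {p : ℤ[X]} (hp : ∀ j, |p.coeff j| ≤ (B : ℤ)) (j : ℕ) :
    |(reflect N p).coeff j| ≤ (B : ℤ) := by
  rw [coeff_reflect]
  exact hp _

private theorem fmb_id {n m : ℕ} {f : ℤ[X][X]} (hd : f.natDegree = n)
    (hc : ∀ i, (f.coeff i).natDegree ≤ m * (n - i)) (z0 : ℂ) [Invertible z0] :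
    C (z0 ^ (m * n)) * (rv n m f).map (eval₂RingHom (Int.castRingHom ℂ) (⅟z0)) =
      (f.map (eval₂RingHom (Int.castRingHom ℂ) z0)).comp (C (z0 ^ m) * X) := by
  ext i
  rw [coeff_C_mul, coeff_map, comp_C_mul_X_coeff, coeff_map, fmb_coeff]
  split_ifs with h
  · have h1 := eval₂_reflect_mul_pow (Int.castRingHom ℂ) z0 (m * (n - i)) (f.coeff i) (hc i)
    rw [coe_eval₂RingHom, coe_eval₂RingHom, ← h1, ← pow_mul, mul_comm, mul_assoc, ← pow_add,
      ← Nat.mul_add, Nat.sub_add_cancel h]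
  · rw [map_zero, mul_zero, coeff_eq_zero_of_natDegree_lt (by omega), map_zero, zero_mul]

private theorem fmb_sqf {f : ℤ[X][X]} (hf : f.Monic)
    (hirr : Irreducible (f.map (mapRingHom (Int.castRingHom ℂ)))) : Squarefree f := by
  intro g hg
  have h1 : g.map (mapRingHom (Int.castRingHom ℂ)) * g.map (mapRingHom (Int.castRingHom ℂ)) ∣
      f.map (mapRingHom (Int.castRingHom ℂ)) := by
    rw [← Polynomial.map_mul]
    exact Polynomial.map_dvd _ hg
  have h2 := natDegree_eq_zero_of_isUnit (hirr.squarefree _ h1)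
  have hinj : Function.Injective (mapRingHom (Int.castRingHom ℂ)) := by
    rw [coe_mapRingHom]
    exact map_injective _ (RingHom.injective_int _)
  rw [natDegree_map_eq_of_injective hinj] at h2
  have h3 : g.leadingCoeff * g.leadingCoeff ∣ 1 := by
    have := leadingCoeff_dvd_leadingCoeff hg
    rwa [leadingCoeff_mul, hf.leadingCoeff] at this
  have h4 : IsUnit g.leadingCoeff := isUnit_of_dvd_one (dvd_trans (dvd_mul_right _ _) h3)
  rw [eq_C_of_natDegree_eq_zero h2]
  rw [leadingCoeff, h2] at h4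
  exact h4.map C

private theorem fmb_sqf_rv {n m : ℕ} {f : ℤ[X][X]} (hf : f.Monic) (hd : f.natDegree = n)
    (hcd : ∀ i, (f.coeff i).natDegree ≤ m * (n - i))
    (hbez : ∃ (a b : ℤ[X][X]) (c : ℤ[X]), c ≠ 0 ∧ a * f + b * derivative f = C c) :
    Squarefree (rv n m f) := by
  obtain ⟨a, b, c, hc0, hbez⟩ := hbez
  intro h hh
  have h3 : h.leadingCoeff * h.leadingCoeff ∣ 1 := by
    have := leadingCoeff_dvd_leadingCoeff hh
    rwa [leadingCoeff_mul, (fmb_monic hf hd).leadingCoeff] at this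
  have h4 : IsUnit h.leadingCoeff := isUnit_of_dvd_one (dvd_trans (dvd_mul_right _ _) h3)
  by_cases h2 : h.natDegree = 0
  · rw [eq_C_of_natDegree_eq_zero h2]
    rw [leadingCoeff, h2] at h4
    exact h4.map C
  · exfalso
    obtain ⟨x0, hx0⟩ := exists_eval_ne_zero_of_natDegree_lt_card (X * c)
      (mul_ne_zero X_ne_zero hc0) (by simp)
    rw [eval_mul, eval_X] at hx0
    have hx1 : (x0 : ℂ) ≠ 0 := by
      intro h0
      apply hx0
      have : x0 = 0 := by exact_mod_cast h0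
      rw [this, zero_mul]
    have hx2 : eval₂ (Int.castRingHom ℂ) (x0 : ℂ) c ≠ 0 := by
      intro h0
      apply hx0
      have h5 : eval₂ (Int.castRingHom ℂ) ((Int.castRingHom ℂ) x0) c = 0 := h0
      rw [eval₂_at_apply] at h5
      have h6 : eval x0 c = 0 := by
        have : ((eval x0 c : ℤ) : ℂ) = 0 := h5
        exact_mod_cast this
      rw [h6, mul_zero]
    let _ : Invertible (x0 : ℂ) := invertibleOfNonzero hx1
    have hid := fmb_id hd hcd (x0 : ℂ)
    obtain ⟨φ, hφ⟩ : ∃ φ : ℤ[X] →+* ℂ, φ = eval₂RingHom (Int.castRingHom ℂ) (⅟(x0 : ℂ)) := ⟨_, rfl⟩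
    obtain ⟨ψ, hψ⟩ : ∃ ψ : ℤ[X] →+* ℂ, ψ = eval₂RingHom (Int.castRingHom ℂ) (x0 : ℂ) := ⟨_, rfl⟩
    rw [← hφ, ← hψ] at hid
    have h5 : (h.map φ).natDegree = h.natDegree :=
      natDegree_map_of_leadingCoeff_ne_zero φ (h4.map φ).ne_zero
    obtain ⟨y, hy⟩ := IsAlgClosed.exists_root (h.map φ) (by
      intro h0
      apply h2
      rw [← h5]
      exact natDegree_eq_of_degree_eq_some h0)
    have h6 : (X - C y) * (X - C y) ∣ (rv n m f).map φ := by
      refine dvd_trans (mul_dvd_mul (dvd_iff_isRoot.2 hy) (dvd_iff_isRoot.2 hy)) ?_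
      rw [← Polynomial.map_mul]
      exact Polynomial.map_dvd _ hh
    obtain ⟨k, hk⟩ := h6
    rw [hk] at hid
    have h7 : (f.map ψ).eval ((x0 : ℂ) ^ m * y) = 0 := by
      have := congrArg (eval y) hid
      rw [eval_comp] at this
      simpa using this.symm
    have h8 : (derivative (f.map ψ)).eval ((x0 : ℂ) ^ m * y) = 0 := by
      have := congrArg (fun p => eval y (derivative p)) hid
      simp only [derivative_comp, eval_comp, eval_mul, derivative_mul, derivative_C, eval_add,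
        eval_sub, eval_X, eval_C, sub_self, zero_mul, mul_zero, derivative_sub, derivative_X,
        zero_add, add_zero, mul_one] at this
      have h9 := this.symm
      rw [mul_eq_zero] at h9
      rcases h9 with h9 | h9
      · exact absurd h9 (by simpa using pow_ne_zero m hx1)
      · exact h9
    have h9 := congrArg (fun p => eval ((x0 : ℂ) ^ m * y) (p.map ψ)) hbez
    simp only [Polynomial.map_add, Polynomial.map_mul, eval_add, eval_mul, map_C, eval_C] at h9
    rw [← derivative_map, h7, h8, mul_zero, mul_zero, add_zero] at h9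
    apply hx2
    rw [← coe_eval₂RingHom, ← hψ, ← h9]

private theorem fmb_const (K : ℕ) {B : ℕ} (hB : 2 ≤ B) : K ≤ B ^ K :=
  (Nat.lt_two_pow_self (n := K)).le.trans (Nat.pow_le_pow_left hB K)

private theorem fmb_cH (n m : ℕ) : ∃ c : ℕ, ∀ B : ℕ, 2 ≤ B →
    (2 * n).factorial * ((m * n + 1) * (n * B)) ^ (2 * n) ≤ B ^ c := by
  refine ⟨(2 * n).factorial + ((m * n + 1) * n + 1) * (2 * n), fun B hB => ?_⟩
  rw [pow_add, pow_mul B ((m * n + 1) * n + 1)]
  refine Nat.mul_le_mul (fmb_const _ hB) (Nat.pow_le_pow_left ?_ _)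
  rw [← mul_assoc, pow_succ]
  exact Nat.mul_le_mul_right _ (fmb_const _ hB)

private theorem fmb_cC (n m s : ℕ) : ∃ c : ℕ, ∀ B : ℕ, 2 ≤ B → CC n m B s ≤ B ^ c := by
  unfold Pool.Agent.H97.XC.CC
  obtain ⟨E, hE⟩ : ∃ E, E = 600 * n ^ 3 * (s + 1) ^ 2 * (14 * n ^ 2) ^ (s + 1) := ⟨_, rfl⟩
  rw [← hE]
  obtain ⟨K, hK⟩ : ∃ K, K = 4 * n * (n + 1) * (n.factorial * m + 1) * (s + 1) := ⟨_, rfl⟩
  refine ⟨(K + 2) * E, fun B hB => ?_⟩
  rw [pow_mul]
  refine Nat.pow_le_pow_left ?_ _
  have h1 : LL n m B n.factorial s = K * (B + 1) := by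
    rw [hK]
    unfold LL
    ring
  rw [h1, pow_add]
  refine Nat.mul_le_mul (fmb_const _ hB) ?_
  nlinarith

theorem exists_famB (n m : ℕ) (hn : 2 ≤ n) (hm : 1 ≤ m) : ∃ c : ℕ, ∀ (f : ℤ[X][X]) (B : ℕ),
    2 ≤ B → f.Monic → f.natDegree = n → (∀ i, (f.coeff i).natDegree ≤ m * (n - i)) →
    (∀ i j, |(f.coeff i).coeff j| ≤ (B : ℤ)) →
    Irreducible (f.map (mapRingHom (Int.castRingHom ℂ))) →
    ∃ B' : ℕ, B' ≤ B ^ c ∧ Nonempty (FamB n m B' f) := by
  obtain ⟨s, hs⟩ : ∃ s, s = n.factorial * (2 * n * (m * n) + m * n) := ⟨_, rfl⟩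
  obtain ⟨cH, hcH⟩ := fmb_cH n m
  obtain ⟨cC, hcC⟩ := fmb_cC n (m * n) s
  refine ⟨1 + cH + cC, fun f B hB hf hd hcd hle hirr => ?_⟩
  have hsqF := fmb_sqf_rv hf hd hcd (sqf_bez hf (fmb_sqf hf hirr))
  have hBd : Bd (rv n m f) (m * n) B := by
    constructor
    · intro j
      rw [fmb_coeff]
      split_ifs with h
      · refine natDegree_reflect_le.trans (max_le ?_ ?_)
        · exact Nat.mul_le_mul_left _ (Nat.sub_le _ _)
        · exact (hcd j).trans (Nat.mul_le_mul_left _ (Nat.sub_le _ _))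
      · simp
    · intro j i
      rw [fmb_coeff]
      split_ifs with h
      · exact fmb_reflect (hle j) i
      · rw [coeff_zero, abs_zero]
        exact Int.natCast_nonneg _
  have hFm := fmb_monic (m := m) hf hd
  have hFd := fmb_deg (m := m) hf hd
  obtain ⟨a, b, c, hc0, hbez, hcdeg, hcle⟩ := disc_bd hFm hFd (by omega) hBd (by omega) hsqF
  obtain ⟨pd, hpe, hpq, hpR, -⟩ := exists_pdata_bd (rv n m f) hFm hFd (by omega) hBd (by omega)
    a b c hc0 hbez (s := s) (by
      rw [hs]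
      exact Nat.mul_le_mul_left _ (Nat.add_le_add_right hcdeg _))
  obtain ⟨H, hH⟩ : ∃ H, H = (2 * n).factorial * ((m * n + 1) * (n * B)) ^ (2 * n) := ⟨_, rfl⟩
  obtain ⟨Q, hQ⟩ : ∃ Q, Q = CC n (m * n) B s := ⟨_, rfl⟩
  rw [← hH] at hcle
  rw [← hQ] at hpq hpR
  have hH' : H ≤ B ^ cH := hH ▸ hcH B hB
  have hQ' : Q ≤ B ^ cC := hQ ▸ hcC B hB
  refine ⟨max B (max H Q), ?_, ⟨?_⟩⟩
  · have hB1 : 1 ≤ B := by omega
    refine max_le ?_ (max_le ?_ ?_)
    · calc B = B ^ 1 := (pow_one B).symm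
        _ ≤ B ^ (1 + cH + cC) := Nat.pow_le_pow_right hB1 (by omega)
    · exact hH'.trans (Nat.pow_le_pow_right hB1 (by omega))
    · exact hQ'.trans (Nat.pow_le_pow_right hB1 (by omega))
  · have h1 : B ≤ max B (max H Q) := le_max_left _ _
    have h2 : H ≤ max B (max H Q) := (le_max_left _ _).trans (le_max_right _ _)
    have h3 : Q ≤ max B (max H Q) := (le_max_right _ _).trans (le_max_right _ _)
    exact {
      n2 := hn
      m1 := hm
      B2 := hB.trans h1
      monic := hf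
      deg := hd
      cdeg := hcd
      le := fun i j => (hle i j).trans (by exact_mod_cast h1)
      irr := hirr
      pd := pd
      e_le := hpe
      q_le := by
        have : pd.q ≤ Q := by exact_mod_cast hpq
        exact this.trans h3
      R_le := hpR.trans (by exact_mod_cast h3)
      bez := ⟨a, b, c, hc0, hbez, hcdeg, fun i => (hcle i).trans (by exact_mod_cast h2)⟩ }

end Pool.Agent.H97.FB
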