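import Pool.Agent.H97.FB.Defs

/-! # [H97 FB TWN] The numbers of the two-sided estimate

Everything in logarithms. `L = log X0`; from `(2R)^c ≤ X0`, `2R ≥ 4`: `c ≤ L` (`log 4 ≥ 1`), `ρ := log (16 R) ≤ 3 log (2R) ≤ 3 L / c` (`16 R ≤ (2R)^3`), `L ≤ Y / c`, `1 ≤ Y / c`.
`U := log (r0! (2 (r0! (4R)^r0 A))^r0) ≤ r0^2 + r0 (1 + r0^2 + r0 ρ + log A)` (`log r0! ≤ r0^2`, `log 2 ≤ 1`), `log A = log (J+1) + log Dn + κ Dl L + Dl log 2 + δ Y ≤ δ Y + C3 Y / c` with `C3 = C3(Q0)` (`log (J+1) ≤ J ≤ Y / L ≤ Y / c`; `Dn ≤ Q0`, `log Dn ≤ Q0 ≤ Q0 Y / c`; if `Dn = 0` then `A = 0`, `hA1` excludes it); so `U ≤ r1 δ Y + C4 Y / c`, `C4 = C4(Q0, r1)`.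
First hypothesis: (I) `K' L ≤ K' ρ + (Dl + 1) (U + k0 ρ)`. Second: (II) `k0 L ≤ 1 + r0 ((J + κ Dn) L) + (r0^2 + K') κ L + K' ρ + U + k0 ρ`, where `J L ≤ Y`. For `c ≥ 6`: `ρ ≤ L / 2`, so (II) gives `k0 L ≤ 2 (β + K' (κ L + ρ))` with `β = 1 + r0 (Y + κ Dn L) + r0^2 κ L + U ≤ C5 Y` (`δ ≤ 1`). Insert in (I) with `ρ ≤ 3 L / c`:
`K' L / 2 ≤ (Dl + 1) (U + (3/c) k0 L) ≤ (Q0 + 1) (U + (6/c) (β + K' (Q0 + 1) L))`. For `c ≥ 24 (Q0+1)^2` the last term is `≤ K' L / 4`, so `K' L ≤ 4 (Q0 + 1) (U + (6/c) C5 Y) ≤ 4 (Q0 + 1) (r1 δ + C4 / c + 6 C5 / c) Y`. On the other hand `K' L ≥ K L - r0 L ≥ τ Y - r1 Y / c`.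
With `δ = min 1 (τ / (16 (Q0 + 1) (r1 + 1)))` and `c` large (`C6(Q0, r1) / c < τ / 4`) and `Y > 0` this is a contradiction. -/

namespace Pool.Agent.H97.FB

theorem log_fact_le (n : ℕ) : Real.log (n.factorial : ℝ) ≤ (n : ℝ) ^ 2 := by
  rcases Nat.eq_zero_or_pos n with h | h
  · subst h; simp
  · have h1 : (n.factorial : ℝ) ≤ (n : ℝ) ^ n := by
      exact_mod_cast Nat.factorial_le_pow n
    have h2 : (0 : ℝ) < (n.factorial : ℝ) := by exact_mod_cast n.factorial_pos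
    have h3 : (0 : ℝ) < (n : ℝ) := by exact_mod_cast h
    have h4 : Real.log (n.factorial : ℝ) ≤ Real.log ((n : ℝ) ^ n) := Real.log_le_log h2 h1
    rw [Real.log_pow] at h4
    have h5 : Real.log (n : ℝ) ≤ (n : ℝ) - 1 := Real.log_le_sub_one_of_pos h3
    nlinarith

theorem log_natp_le (n : ℕ) : Real.log ((n : ℝ) + 1) ≤ (n : ℝ) := by
  have h := Real.log_le_sub_one_of_pos (x := (n : ℝ) + 1) (by positivity)
  linarith

theorem log_nat_le (n : ℕ) : Real.log (n : ℝ) ≤ (n : ℝ) := by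
  rcases Nat.eq_zero_or_pos n with h | h
  · subst h; simp
  · have h3 : (0 : ℝ) < (n : ℝ) := by exact_mod_cast h
    have h5 : Real.log (n : ℝ) ≤ (n : ℝ) - 1 := Real.log_le_sub_one_of_pos h3
    linarith

theorem u_bound (r r0 ρ y δ Y C3 a : ℝ) (h0 : 0 ≤ r0) (h1 : r0 ≤ r) (hρ0 : 0 ≤ ρ)
    (hρ : ρ ≤ 3 * y) (ha0 : 0 ≤ a) (ha : a ≤ δ * Y + C3 * y) (hy : 1 ≤ y) :
    r0 ^ 2 + r0 * (1 + r0 ^ 2 + r0 * ρ + a) ≤
      r * δ * Y + (r ^ 2 + r + r ^ 3 + 3 * r ^ 2 + r * C3) * y := by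
  have hr : 0 ≤ r := le_trans h0 h1
  have a1 : r0 ^ 2 ≤ r ^ 2 := pow_le_pow_left₀ h0 h1 2
  have a2 : 1 + r0 ^ 2 + r0 * ρ + a ≤ 1 + r ^ 2 + r * (3 * y) + (δ * Y + C3 * y) := by
    have : r0 * ρ ≤ r * (3 * y) := mul_le_mul h1 hρ hρ0 hr
    linarith
  have a3 : r0 * (1 + r0 ^ 2 + r0 * ρ + a) ≤
      r * (1 + r ^ 2 + r * (3 * y) + (δ * Y + C3 * y)) :=
    mul_le_mul h1 a2 (by positivity) hr
  have a4 : r ^ 2 * 1 ≤ r ^ 2 * y := mul_le_mul_of_nonneg_left hy (sq_nonneg r)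
  have a5 : (r * (1 + r ^ 2)) * 1 ≤ (r * (1 + r ^ 2)) * y :=
    mul_le_mul_of_nonneg_left hy (by positivity)
  calc r0 ^ 2 + r0 * (1 + r0 ^ 2 + r0 * ρ + a)
      ≤ r ^ 2 * y + (r * (1 + r ^ 2) * y + (r * (r * (3 * y)) + r * (δ * Y + C3 * y))) := by
        have e : r * (1 + r ^ 2 + r * (3 * y) + (δ * Y + C3 * y)) =
          (r * (1 + r ^ 2)) * 1 + (r * (r * (3 * y)) + r * (δ * Y + C3 * y)) := by ring
        linarith
    _ = r * δ * Y + (r ^ 2 + r + r ^ 3 + 3 * r ^ 2 + r * C3) * y := by ring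

theorem beta_bound (q r r0 κ Dn J L U Y C4 : ℝ) (hq : 0 ≤ q) (h0 : 0 ≤ r0) (h1 : r0 ≤ r)
    (hκ0 : 0 ≤ κ) (hκ : κ ≤ q) (hD0 : 0 ≤ Dn) (hD : Dn ≤ q) (hJ : J * L ≤ Y) (hJ0 : 0 ≤ J)
    (hL : 0 < L)
    (hLY : L ≤ Y) (hU : U ≤ (r + C4) * Y) (hY : 1 ≤ Y) :
    1 + r0 * ((J + κ * Dn) * L) + r0 ^ 2 * (κ * L) + U ≤
      (1 + r + r * q ^ 2 + r ^ 2 * q + r + C4) * Y := by
  have hr : 0 ≤ r := le_trans h0 h1
  have b2 : κ * Dn ≤ q * q := mul_le_mul hκ hD hD0 hq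
  have b3 : κ * Dn * L ≤ q * q * Y := mul_le_mul b2 hLY hL.le (by positivity)
  have b1 : (J + κ * Dn) * L ≤ (1 + q ^ 2) * Y := by
    calc (J + κ * Dn) * L = J * L + κ * Dn * L := by ring
      _ ≤ Y + q * q * Y := add_le_add hJ b3
      _ = (1 + q ^ 2) * Y := by ring
  have b4 : r0 * ((J + κ * Dn) * L) ≤ r * ((1 + q ^ 2) * Y) :=
    mul_le_mul h1 b1 (by positivity) hr
  have b5 : κ * L ≤ q * Y := mul_le_mul hκ hLY hL.le hq
  have b6 : r0 ^ 2 * (κ * L) ≤ r ^ 2 * (q * Y) :=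
    mul_le_mul (pow_le_pow_left₀ h0 h1 2) b5 (by positivity) (by positivity)
  calc 1 + r0 * ((J + κ * Dn) * L) + r0 ^ 2 * (κ * L) + U
      ≤ Y + r * ((1 + q ^ 2) * Y) + r ^ 2 * (q * Y) + (r + C4) * Y := by linarith
    _ = (1 + r + r * q ^ 2 + r ^ 2 * q + r + C4) * Y := by ring

theorem kl_bound (q r0 κ Dn J L U Y C5 ρ k K : ℝ) (hL : 0 < L) (hk : 0 ≤ k) (hK : 0 ≤ K)
    (hκ : κ ≤ q) (hρL : ρ ≤ L / 2)
    (h2 : k * L ≤ 1 + r0 * ((J + κ * Dn) * L) + (r0 ^ 2 + K) * (κ * L) + (K * ρ + (U + k * ρ)))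
    (hβ : 1 + r0 * ((J + κ * Dn) * L) + r0 ^ 2 * (κ * L) + U ≤ C5 * Y) :
    k * L ≤ 2 * (C5 * Y + K * ((q + 1) * L)) := by
  have c1' : k * ρ ≤ k * (L / 2) := mul_le_mul_of_nonneg_left hρL hk
  have c2 : K * ρ ≤ K * L := mul_le_mul_of_nonneg_left (by linarith) hK
  have c3 : K * (κ * L) ≤ K * (q * L) :=
    mul_le_mul_of_nonneg_left (mul_le_mul_of_nonneg_right hκ hL.le) hK
  have e1 : (r0 ^ 2 + K) * (κ * L) = r0 ^ 2 * (κ * L) + K * (κ * L) := by ring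
  have e2 : K * ((q + 1) * L) = K * (q * L) + K * L := by ring
  have e3 : k * (L / 2) = k * L / 2 := by ring
  rw [e1] at h2
  rw [e2]
  rw [e3] at c1'
  linarith

theorem final_comb (q r τ C4 C5 δ c L y Y ρ U k Dl K : ℝ) (hq : 0 ≤ q) (hr : 0 ≤ r)
    (hδ2 : 4 * (q + 1) * (r * δ) ≤ τ / 4) (hc24 : 24 * (q + 1) ^ 2 ≤ c) (hc : 0 < c)
    (hcC : 4 * (r + 4 * (q + 1) * (C4 + 6 * C5)) < 3 * (c * τ)) (hL : 0 < L) (hY : c * L ≤ Y)
    (hYp : 0 < Y)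
    (hy : Y = c * y) (hρ3 : c * ρ ≤ 3 * L) (hρ0 : 0 ≤ ρ) (hρL : ρ ≤ L / 2)
    (hU0 : 0 ≤ U) (hUb : U ≤ r * δ * Y + C4 * y) (hk : 0 ≤ k) (hK : 0 ≤ K) (hDl : Dl ≤ q)
    (h1 : K * L ≤ K * ρ + (Dl + 1) * (U + k * ρ))
    (hkL : k * L ≤ 2 * (C5 * Y + K * ((q + 1) * L)))
    (hKL : τ * Y ≤ K * L + r * L) : False := by
  have hkρ : c * (k * ρ) ≤ 6 * (C5 * Y + K * ((q + 1) * L)) := by
    have g := mul_le_mul_of_nonneg_left hρ3 hk
    have e1 : k * (c * ρ) = c * (k * ρ) := by ring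
    have e2 : k * (3 * L) = 3 * (k * L) := by ring
    rw [e1, e2] at g
    linarith
  have hKρ : K * ρ ≤ K * L / 2 := by
    have g := mul_le_mul_of_nonneg_left hρL hK
    have e : K * (L / 2) = K * L / 2 := by ring
    rw [e] at g
    exact g
  have hUk : (Dl + 1) * (U + k * ρ) ≤ (q + 1) * (U + k * ρ) :=
    mul_le_mul_of_nonneg_right (by linarith) (by positivity)
  have hm1 : K * L / 2 ≤ (q + 1) * (U + k * ρ) := by linarith
  have hm2 : c * (K * L) / 2 ≤ (q + 1) * (c * U + 6 * (C5 * Y + K * ((q + 1) * L))) := by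
    have d1 : c * (K * L / 2) ≤ c * ((q + 1) * (U + k * ρ)) :=
      mul_le_mul_of_nonneg_left hm1 hc.le
    have d3 : (q + 1) * (c * U + c * (k * ρ)) ≤
        (q + 1) * (c * U + 6 * (C5 * Y + K * ((q + 1) * L))) :=
      mul_le_mul_of_nonneg_left (by linarith) (by linarith)
    have e1 : c * (K * L / 2) = c * (K * L) / 2 := by ring
    have e2 : c * ((q + 1) * (U + k * ρ)) = (q + 1) * (c * U + c * (k * ρ)) := by ring
    rw [e1, e2] at d1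
    linarith
  have hm3 : c * (K * L) / 4 ≤ (q + 1) * (c * U + 6 * (C5 * Y)) := by
    have d1 : 24 * (q + 1) ^ 2 * (K * L) ≤ c * (K * L) :=
      mul_le_mul_of_nonneg_right hc24 (by positivity)
    have e1 : (q + 1) * (c * U + 6 * (C5 * Y + K * ((q + 1) * L))) =
      (q + 1) * (c * U + 6 * (C5 * Y)) + (24 * (q + 1) ^ 2 * (K * L)) / 4 := by ring
    rw [e1] at hm2
    linarith
  have hm4 : (q + 1) * (c * U + 6 * (C5 * Y)) ≤
      (q + 1) * (c * (r * δ * Y + C4 * y) + 6 * (C5 * Y)) := by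
    have d1 : c * U ≤ c * (r * δ * Y + C4 * y) := mul_le_mul_of_nonneg_left hUb hc.le
    exact mul_le_mul_of_nonneg_left (by linarith) (by linarith)
  have hm5 : (q + 1) * (c * (r * δ * Y + C4 * y) + 6 * (C5 * Y)) =
      (4 * (q + 1) * (r * δ)) * (c * Y) / 4 + (q + 1) * (C4 + 6 * C5) * Y := by
    rw [hy]; ring
  have hcY : 0 ≤ c * Y := by positivity
  have hm6 : (4 * (q + 1) * (r * δ)) * (c * Y) ≤ (τ / 4) * (c * Y) :=
    mul_le_mul_of_nonneg_right hδ2 hcY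
  have hm7 : c * (τ * Y) ≤ c * (K * L) + r * Y := by
    have g1 := mul_le_mul_of_nonneg_left hKL hc.le
    have g2 := mul_le_mul_of_nonneg_left hY hr
    have e1 : c * (K * L + r * L) = c * (K * L) + r * (c * L) := by ring
    rw [e1] at g1
    linarith
  have hm8 : c * (τ * Y) ≤ (τ / 4) * (c * Y) + 4 * ((q + 1) * (C4 + 6 * C5) * Y) + r * Y := by
    linarith
  have hm9 : 4 * (r + 4 * (q + 1) * (C4 + 6 * C5)) * Y < 3 * (c * τ) * Y :=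
    mul_lt_mul_of_pos_right hcC hYp
  have e1 : 4 * (r + 4 * (q + 1) * (C4 + 6 * C5)) * Y =
      4 * (4 * ((q + 1) * (C4 + 6 * C5) * Y) + r * Y) := by ring
  have e2 : 3 * (c * τ) * Y = 3 * (c * (τ * Y)) := by ring
  have e3 : (τ / 4) * (c * Y) = c * (τ * Y) / 4 := by ring
  rw [e1, e2] at hm9
  rw [e3] at hm8
  linarith

theorem two_sided (Q0 r1 : ℕ) (τ : ℝ) (hτ : 0 < τ) : ∃ (δ : ℝ) (c : ℕ), 0 < δ ∧
    ∀ (Dn Dl κ J r0 K k0 K' : ℕ) (X0 R Y A c1 Δ : ℝ), 2 ≤ R → (2 * R) ^ c ≤ X0 →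
      c * Real.log X0 ≤ Y → J * Real.log X0 ≤ Y → Dn ≤ Q0 → Dl ≤ Q0 → κ ≤ Q0 → r0 ≤ r1 →
      τ * Y ≤ K * Real.log X0 → K ≤ K' + r0 → 1 ≤ A →
      A ≤ ((J : ℝ) + 1) * Dn * ((X0 ^ κ) ^ Dl * 2 ^ Dl) * Real.exp (δ * Y) →
      1 ≤ c1 → c1 ≤ X0 ^ (J + κ * Dn) → 1 ≤ Δ → Δ ≤ X0 ^ κ →
      X0 ^ K' ≤ (8 * (2 * R)) ^ K' * ((r0.factorial * (2 * (r0.factorial *
        (2 * (2 * R)) ^ r0 * A)) ^ r0) * (4 * (2 * R)) ^ k0) ^ (Dl + 1) →
      X0 ^ k0 ≤ 2 * (c1 ^ r0 * Δ ^ (r0 ^ 2 + K')) * ((8 * (2 * R)) ^ K' *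
        ((r0.factorial * (2 * (r0.factorial * (2 * (2 * R)) ^ r0 * A)) ^ r0) *
          (4 * (2 * R)) ^ k0)) →
      False := by
  have hq0 : (0 : ℝ) ≤ (Q0 : ℝ) := Nat.cast_nonneg _
  have hr0' : (0 : ℝ) ≤ (r1 : ℝ) := Nat.cast_nonneg _
  obtain ⟨q, hq⟩ : ∃ q : ℝ, q = (Q0 : ℝ) := ⟨_, rfl⟩
  obtain ⟨r, hr⟩ : ∃ r : ℝ, r = (r1 : ℝ) := ⟨_, rfl⟩
  rw [← hq] at hq0
  rw [← hr] at hr0'
  obtain ⟨C3, hC3⟩ : ∃ x : ℝ, x = 1 + 2 * q + q ^ 2 := ⟨_, rfl⟩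
  obtain ⟨C4, hC4⟩ : ∃ x : ℝ, x = r ^ 2 + r + r ^ 3 + 3 * r ^ 2 + r * C3 := ⟨_, rfl⟩
  obtain ⟨C5, hC5⟩ : ∃ x : ℝ, x = 1 + r + r * q ^ 2 + r ^ 2 * q + r + C4 := ⟨_, rfl⟩
  obtain ⟨C6, hC6⟩ : ∃ x : ℝ, x = r + 4 * (q + 1) * (C4 + 6 * C5) := ⟨_, rfl⟩
  have hC3p : 0 ≤ C3 := by rw [hC3]; positivity
  have hC4p : 0 ≤ C4 := by rw [hC4]; positivity
  have hC5p : 0 ≤ C5 := by rw [hC5]; positivity
  have hC6p : 0 ≤ C6 := by rw [hC6]; positivity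
  obtain ⟨δ, hδ⟩ : ∃ x : ℝ, x = min 1 (τ / (16 * (q + 1) * (r + 1))) := ⟨_, rfl⟩
  have hδp : 0 < δ := by
    rw [hδ]
    exact lt_min one_pos (by positivity)
  have hδ1 : δ ≤ 1 := by rw [hδ]; exact min_le_left _ _
  have hδ2 : 4 * (q + 1) * (r * δ) ≤ τ / 4 := by
    have h1 : δ ≤ τ / (16 * (q + 1) * (r + 1)) := by rw [hδ]; exact min_le_right _ _
    rw [le_div_iff₀ (by positivity)] at h1
    have h2 : 0 ≤ (q + 1) * δ := by positivity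
    have h3 : 4 * (q + 1) * (r * δ) = (δ * (16 * (q + 1) * (r + 1)) - 16 * ((q + 1) * δ)) / 4 := by
      ring
    rw [h3]
    linarith
  obtain ⟨N, hN⟩ : ∃ N : ℕ, N = ⌈4 * C6 / τ⌉₊ := ⟨_, rfl⟩
  refine ⟨δ, 24 * (Q0 + 1) ^ 2 + N + 1, hδp, ?_⟩
  intro Dn Dl κ J r0 K k0 K' X0 R Y A c1 Δ hR hX hY hJ hDn hDl hκ hr0 hK hKK hA1 hA2 hc1 hc1' hΔ hΔ'
    hI hII
  obtain ⟨c, hcast⟩ : ∃ c : ℝ, c = 24 * (q + 1) ^ 2 + (N : ℝ) + 1 := ⟨_, rfl⟩
  have hN0 : (0 : ℝ) ≤ (N : ℝ) := Nat.cast_nonneg _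
  have hc24 : 24 * (q + 1) ^ 2 ≤ c := by rw [hcast]; linarith
  have hq2 : 1 ≤ (q + 1) ^ 2 := by nlinarith
  have hc6 : 24 ≤ c := by linarith
  have hcp : 0 < c := by linarith
  have hcC : 4 * C6 < 3 * (c * τ) := by
    have h1 : 4 * C6 / τ ≤ (N : ℝ) := by rw [hN]; exact Nat.le_ceil _
    rw [div_le_iff₀ hτ] at h1
    have h2 : (N : ℝ) < c := by rw [hcast]; linarith
    have h3 : (N : ℝ) * τ < c * τ := mul_lt_mul_of_pos_right h2 hτ
    have h4 : 0 < c * τ := by positivity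
    linarith
  have hcn : ((24 * (Q0 + 1) ^ 2 + N + 1 : ℕ) : ℝ) = c := by
    rw [hcast, hq]; push_cast; ring
  -- logarithms
  have hR4 : (4 : ℝ) ≤ 2 * R := by linarith
  have h2Rp : (0 : ℝ) < 2 * R := by linarith
  have hX1 : 1 ≤ X0 := le_trans (one_le_pow₀ (by linarith)) hX
  have hXp : 0 < X0 := by linarith
  have hl4 : 1 ≤ Real.log (2 * R) := by
    rw [Real.le_log_iff_exp_le h2Rp]
    linarith [Real.exp_one_lt_d9]
  obtain ⟨L, hL⟩ : ∃ L : ℝ, L = Real.log X0 := ⟨_, rfl⟩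
  have hcL0 : c * Real.log (2 * R) ≤ L := by
    have h := Real.log_le_log (by positivity) hX
    rw [Real.log_pow, hcn, ← hL] at h
    exact h
  have hcL : c ≤ L := by
    have : c * 1 ≤ c * Real.log (2 * R) := mul_le_mul_of_nonneg_left hl4 hcp.le
    linarith
  have hLp : 0 < L := by linarith
  rw [hcn, ← hL] at hY
  rw [← hL] at hJ hK
  have hYp : 0 < Y := lt_of_lt_of_le (by positivity) hY
  obtain ⟨y, hy⟩ : ∃ y : ℝ, Y = c * y := ⟨Y / c, by field_simp⟩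
  have hyL : L ≤ y := by
    rw [hy] at hY
    exact le_of_mul_le_mul_left hY hcp
  have hyc : c ≤ y := le_trans hcL hyL
  have hy1 : 1 ≤ y := by linarith
  have hyY : y ≤ Y := by
    rw [hy]
    have : 1 * y ≤ c * y := mul_le_mul_of_nonneg_right (by linarith) (by linarith)
    linarith
  obtain ⟨ρ, hρ⟩ : ∃ ρ : ℝ, ρ = Real.log (8 * (2 * R)) := ⟨_, rfl⟩
  have hρ0 : 0 ≤ ρ := by rw [hρ]; exact Real.log_nonneg (by linarith)
  have hρ3 : c * ρ ≤ 3 * L := by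
    have h1 : 8 * (2 * R) ≤ (2 * R) ^ 3 := by
      have g1 : 8 ≤ (2 * R) ^ 2 := by nlinarith
      calc 8 * (2 * R) ≤ (2 * R) ^ 2 * (2 * R) := mul_le_mul_of_nonneg_right g1 h2Rp.le
        _ = (2 * R) ^ 3 := by ring
    have h2 := Real.log_le_log (by positivity) h1
    rw [Real.log_pow, ← hρ] at h2
    push_cast at h2
    have h3 : c * ρ ≤ c * (3 * Real.log (2 * R)) := mul_le_mul_of_nonneg_left h2 hcp.le
    have h4 : c * (3 * Real.log (2 * R)) = 3 * (c * Real.log (2 * R)) := by ring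
    linarith
  have hρL : ρ ≤ L / 2 := by
    have : 24 * ρ ≤ c * ρ := mul_le_mul_of_nonneg_right hc6 hρ0
    linarith
  have hl4R : Real.log (2 * (2 * R)) ≤ ρ := by
    rw [hρ]; exact Real.log_le_log (by positivity) (by linarith)
  have hl8R : Real.log (4 * (2 * R)) ≤ ρ := by
    rw [hρ]; exact Real.log_le_log (by positivity) (by linarith)
  have hl2 : Real.log 2 ≤ 1 := by linarith [Real.log_two_lt_d9]
  have hl2' : 0 ≤ Real.log 2 := Real.log_nonneg (by norm_num)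
  have hAp : 0 < A := by linarith
  have hlA0 : 0 ≤ Real.log A := Real.log_nonneg hA1
  -- casts
  have hr0r : (r0 : ℝ) ≤ r := by rw [hr]; exact_mod_cast hr0
  have hDnq : (Dn : ℝ) ≤ q := by rw [hq]; exact_mod_cast hDn
  have hDlq : (Dl : ℝ) ≤ q := by rw [hq]; exact_mod_cast hDl
  have hκq : (κ : ℝ) ≤ q := by rw [hq]; exact_mod_cast hκ
  have hr00 : (0 : ℝ) ≤ (r0 : ℝ) := Nat.cast_nonneg _
  have hDn0 : (0 : ℝ) ≤ (Dn : ℝ) := Nat.cast_nonneg _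
  have hDl0 : (0 : ℝ) ≤ (Dl : ℝ) := Nat.cast_nonneg _
  have hκ0 : (0 : ℝ) ≤ (κ : ℝ) := Nat.cast_nonneg _
  have hJ0 : (0 : ℝ) ≤ (J : ℝ) := Nat.cast_nonneg _
  have hK0 : (0 : ℝ) ≤ (K' : ℝ) := Nat.cast_nonneg _
  have hk0 : (0 : ℝ) ≤ (k0 : ℝ) := Nat.cast_nonneg _
  have hJy : (J : ℝ) ≤ y := by
    have h1 : (J : ℝ) * c ≤ (J : ℝ) * L := mul_le_mul_of_nonneg_left hcL hJ0
    have h2 : c * (J : ℝ) ≤ c * y := by rw [← hy]; linarith
    exact le_of_mul_le_mul_left h2 hcp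
  have hlA : Real.log A ≤ δ * Y + C3 * y := by
    have hDn1 : 0 < (Dn : ℝ) := by
      rcases Nat.eq_zero_or_pos Dn with h | h
      · exfalso
        rw [h] at hA2
        simp at hA2
        linarith
      · exact_mod_cast h
    have h1 := Real.log_le_log hAp hA2
    have e1 : (0 : ℝ) < (J : ℝ) + 1 := by positivity
    have e3 : (0 : ℝ) < X0 ^ κ := by positivity
    rw [Real.log_mul (by positivity) (Real.exp_ne_zero _), Real.log_exp,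
      Real.log_mul (by positivity) (by positivity), Real.log_mul (by positivity) (by positivity),
      Real.log_mul (by positivity) (by positivity), Real.log_pow, Real.log_pow, Real.log_pow,
      ← hL] at h1
    have h2 := log_natp_le J
    have h3 := log_nat_le Dn
    have h4 : (Dl : ℝ) * ((κ : ℝ) * L) ≤ q ^ 2 * y := by
      have h5 : (Dl : ℝ) * (κ : ℝ) ≤ q * q := mul_le_mul hDlq hκq hκ0 hq0
      calc (Dl : ℝ) * ((κ : ℝ) * L) = ((Dl : ℝ) * κ) * L := by ring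
        _ ≤ (q * q) * y := mul_le_mul h5 hyL hLp.le (by positivity)
        _ = q ^ 2 * y := by ring
    have h6 : (Dl : ℝ) * Real.log 2 ≤ q * y := by
      calc (Dl : ℝ) * Real.log 2 ≤ q * 1 := mul_le_mul hDlq hl2 hl2' hq0
        _ ≤ q * y := mul_le_mul_of_nonneg_left hy1 hq0
    have h7 : (Dn : ℝ) ≤ q * y := by
      have : q * 1 ≤ q * y := mul_le_mul_of_nonneg_left hy1 hq0
      linarith
    have h8 : C3 * y = y + 2 * (q * y) + q ^ 2 * y := by rw [hC3]; ring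
    rw [h8]
    linarith
  obtain ⟨F, hF⟩ : ∃ F : ℝ, F = (r0.factorial : ℝ) *
    (2 * ((r0.factorial : ℝ) * (2 * (2 * R)) ^ r0 * A)) ^ r0 := ⟨_, rfl⟩
  have hfp : (0 : ℝ) < (r0.factorial : ℝ) := by exact_mod_cast r0.factorial_pos
  have hFp : 0 < F := by rw [hF]; positivity
  obtain ⟨U, hUd⟩ : ∃ U : ℝ, U = (r0 : ℝ) ^ 2 + r0 * (1 + (r0 : ℝ) ^ 2 + r0 * ρ + Real.log A) :=
    ⟨_, rfl⟩
  have hU : Real.log F ≤ U := by
    rw [hUd, hF, Real.log_mul (by positivity) (by positivity), Real.log_pow,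
      Real.log_mul (by positivity) (by positivity), Real.log_mul (by positivity) (by positivity),
      Real.log_mul (by positivity) (by positivity), Real.log_pow]
    have h1 := log_fact_le r0
    have h2 : (r0 : ℝ) * Real.log (2 * (2 * R)) ≤ r0 * ρ := mul_le_mul_of_nonneg_left hl4R hr00
    have h3 : (r0 : ℝ) * (Real.log 2 + (Real.log (r0.factorial : ℝ)
        + (r0 : ℝ) * Real.log (2 * (2 * R)) + Real.log A)) ≤
        r0 * (1 + (r0 : ℝ) ^ 2 + r0 * ρ + Real.log A) := by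
      apply mul_le_mul_of_nonneg_left _ hr00
      linarith
    linarith
  have hU0 : 0 ≤ U := by rw [hUd]; positivity
  have hρy : ρ ≤ 3 * y := by linarith
  have hUb : U ≤ r * δ * Y + C4 * y := by
    rw [hUd, hC4]
    exact u_bound r r0 ρ y δ Y C3 (Real.log A) hr00 hr0r hρ0 hρy hlA0 hlA hy1
  have hUY : U ≤ (r + C4) * Y := by
    have b1 : r * δ * Y ≤ r * Y := by
      have g : r * δ ≤ r * 1 := mul_le_mul_of_nonneg_left hδ1 hr0'
      have g2 : r * δ * Y ≤ r * 1 * Y := mul_le_mul_of_nonneg_right g hYp.le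
      linarith
    have b2 : C4 * y ≤ C4 * Y := mul_le_mul_of_nonneg_left hyY hC4p
    have b3 : (r + C4) * Y = r * Y + C4 * Y := by ring
    rw [b3]
    linarith
  -- first hypothesis
  have h1 : (K' : ℝ) * L ≤ K' * ρ + ((Dl : ℝ) + 1) * (U + k0 * ρ) := by
    have h := Real.log_le_log (by positivity) hI
    obtain ⟨a8, ha8⟩ : ∃ a : ℝ, a = 8 * (2 * R) := ⟨_, rfl⟩
    obtain ⟨a4, ha4⟩ : ∃ a : ℝ, a = 4 * (2 * R) := ⟨_, rfl⟩
    have ha8p : 0 < a8 := by rw [ha8]; positivity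
    have ha4p : 0 < a4 := by rw [ha4]; positivity
    rw [← ha8] at hρ
    rw [← ha4] at hl8R
    rw [← hF, ← ha8, ← ha4, Real.log_pow, Real.log_mul (by positivity) (by positivity),
      Real.log_pow, Real.log_pow, Real.log_mul (by positivity) (by positivity), Real.log_pow,
      ← hL, ← hρ] at h
    push_cast at h
    have h2 : (k0 : ℝ) * Real.log a4 ≤ k0 * ρ := mul_le_mul_of_nonneg_left hl8R hk0
    have h3 : ((Dl : ℝ) + 1) * (Real.log F + k0 * Real.log a4) ≤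
        ((Dl : ℝ) + 1) * (U + k0 * ρ) := by
      apply mul_le_mul_of_nonneg_left _ (by positivity)
      linarith
    linarith
  -- second hypothesis
  have h2 : (k0 : ℝ) * L ≤ 1 + r0 * (((J : ℝ) + κ * Dn) * L) + ((r0 : ℝ) ^ 2 + K') * (κ * L)
      + (K' * ρ + (U + k0 * ρ)) := by
    have h := Real.log_le_log (by positivity) hII
    have hc1p : 0 < c1 := by linarith
    have hΔp : 0 < Δ := by linarith
    obtain ⟨a8, ha8⟩ : ∃ a : ℝ, a = 8 * (2 * R) := ⟨_, rfl⟩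
    obtain ⟨a4, ha4⟩ : ∃ a : ℝ, a = 4 * (2 * R) := ⟨_, rfl⟩
    have ha8p : 0 < a8 := by rw [ha8]; positivity
    have ha4p : 0 < a4 := by rw [ha4]; positivity
    rw [← ha8] at hρ
    rw [← ha4] at hl8R
    rw [← hF, ← ha8, ← ha4] at h
    rw [Real.log_pow, Real.log_mul (x := 2 * (c1 ^ r0 * Δ ^ (r0 ^ 2 + K'))) (by positivity)
        (by positivity),
      Real.log_mul (x := 2) (by positivity) (by positivity),
      Real.log_mul (x := c1 ^ r0) (by positivity) (by positivity),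
      Real.log_mul (x := a8 ^ K') (by positivity) (by positivity),
      Real.log_mul (x := F) (by positivity) (by positivity),
      Real.log_pow, Real.log_pow, Real.log_pow, Real.log_pow, ← hL, ← hρ] at h
    push_cast at h
    have g1 : Real.log c1 ≤ ((J : ℝ) + κ * Dn) * L := by
      have := Real.log_le_log hc1p hc1'
      rw [Real.log_pow, ← hL] at this
      push_cast at this
      exact this
    have g2 : Real.log Δ ≤ κ * L := by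
      have := Real.log_le_log hΔp hΔ'
      rw [Real.log_pow, ← hL] at this
      exact this
    have g3 : (k0 : ℝ) * Real.log a4 ≤ k0 * ρ := mul_le_mul_of_nonneg_left hl8R hk0
    have g4 : (r0 : ℝ) * Real.log c1 ≤ r0 * (((J : ℝ) + κ * Dn) * L) :=
      mul_le_mul_of_nonneg_left g1 hr00
    have g5 : ((r0 : ℝ) ^ 2 + K') * Real.log Δ ≤ ((r0 : ℝ) ^ 2 + K') * (κ * L) :=
      mul_le_mul_of_nonneg_left g2 (by positivity)
    linarith
  have hKL : τ * Y ≤ K' * L + r * L := by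
    have e1 : (K : ℝ) ≤ K' + r0 := by exact_mod_cast hKK
    have e2 : (K : ℝ) * L ≤ (K' + r) * L := mul_le_mul_of_nonneg_right (by linarith) hLp.le
    have e3 : ((K' : ℝ) + r) * L = K' * L + r * L := by ring
    linarith
  have hβ := beta_bound q r r0 κ Dn J L U Y C4 hq0 hr00 hr0r hκ0 hκq hDn0 hDnq hJ hJ0 hLp
    (by linarith) hUY (by linarith)
  rw [← hC5] at hβ
  have hkL := kl_bound q r0 κ Dn J L U Y C5 ρ k0 K' hLp hk0 hK0 hκq hρL h2 hβ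
  rw [hC6] at hcC
  exact final_comb q r τ C4 C5 δ c L y Y ρ U k0 Dl K' hq0 hr0' hδ2 hc24 hcp hcC hLp hY hYp hy hρ3
    hρ0 hρL hU0 hUb hk0 hK0 hDlq h1 hkL hKL

end Pool.Agent.H97.FB
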