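import Pool.Agent.H97.FB.Defs2

/-! # [H97 FB TRA] Transitivity of the Galois group

`gdG_one`: injective by `Rts`; `θ l` is a root of the monic integer polynomial `g` (`g.map` vanishes at `θ l` by the product formula), so integral over `ℤ`. `gdG_two`: the same for both coordinates (`u = 0`, `u ≠ 0`).
`trG_one`: `k = AdjoinRoot (g.map ..)`, two ring homomorphisms `φ, ψ : k →+* ℂ` with `root ↦ θ l`, `root ↦ θ l'` (`AdjoinRoot.lift`); `ppf_lift` (private in `Pool/Agent/H97/NW/PPF.lean`, copy it: any two embeddings of a number field differ by some `σ : AA →+* ℂ`) gives `σ`. `Cj σ (θ l) (θ l')`: if `(a : ℂ) = θ l` then `a = φ0 root` (injectivity of the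
coercion), so `σ a = ψ root = θ l'`.
`trG_two`: `k` as before (degree `n`); `K2 = AdjoinRoot (g'.map (algebraMap ℤ k))` is a field (irreducible over `k`), a number field (finite over `k`, use `AdjoinRoot.powerBasis` and `FiniteDimensional.trans`). For `(l, l')`: `φ : K2 →+* ℂ`, `AdjoinRoot.lift (φ_l : k →+* ℂ) (θ' l') _`, where `φ_l : k →+* ℂ` sends `root` to `θ l`;
`eval₂ φ_l (θ' l') (g'.map (algebraMap ℤ k)) = g'(θ' l') = 0` (`eval₂_map`, all ring homomorphisms from `ℤ` are equal). So for every pair `(l, l')` there is an embedding of the number field `K2` sending `(of root, root)` to `(θ l, θ' l')`, and any two of them differ by some `σ`. -/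

namespace Pool.Agent.H97.FB

open Finset Polynomial Pool.Agent.H72.ES Pool.Agent.H87.SA2

private theorem tra_root {n : ℕ} {g : ℤ[X]} {θ : Fin n → ℂ} (h : Rts g θ) (l : Fin n) :
    eval₂ (Int.castRingHom ℂ) (θ l) g = 0 := by
  rw [← eval_map, h.1, eval_prod]
  apply Finset.prod_eq_zero (Finset.mem_univ l)
  rw [eval_sub, eval_X, eval_C, sub_self]

private theorem tra_int {n : ℕ} {g : ℤ[X]} {θ : Fin n → ℂ} (hm : g.Monic) (h : Rts g θ) (l : Fin n) :
    IsIntegral ℤ (θ l) :=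
  ⟨g, hm, tra_root h l⟩

theorem gdG_one {n : ℕ} {g : ℤ[X]} {θ : Fin n → ℂ} (hm : g.Monic) (h : Rts g θ) :
    GdG (v1 θ) where
  inj := fun _ _ e => h.2 (congrFun e 0)
  int := fun l _ => tra_int hm h l

theorem gdG_two {n : ℕ} {g g' : ℤ[X]} {θ θ' : Fin n → ℂ} (hm : g.Monic) (hm' : g'.Monic)
    (h : Rts g θ) (h' : Rts g' θ') : GdG (v2 θ θ') where
  inj := fun p p' e => by
    have h0 := congrFun e 0
    have h1 := congrFun e 1
    unfold v2 at h0 h1
    rw [if_pos rfl, if_pos rfl] at h0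
    rw [if_neg (by decide), if_neg (by decide)] at h1
    exact Prod.ext (h.2 h0) (h'.2 h1)
  int := fun p u => by
    unfold v2
    split_ifs
    · exact tra_int hm h p.1
    · exact tra_int hm' h' p.2

private lemma tra_lift {k : Type} [Field k] [NumberField k] (φ ψ : k →+* ℂ) :
    ∃ (φ0 : k →+* AA) (σ : AA →+* ℂ), (∀ z, ((φ0 z : AA) : ℂ) = φ z) ∧ ∀ z, σ (φ0 z) = ψ z := by
  let φ0 : k →+* AA := φ.codRestrict AA.toSubring (fun z => by
    have : Algebra.IsAlgebraic ℚ k := Algebra.IsAlgebraic.of_finite ℚ k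
    have h1 : IsAlgebraic ℚ z := Algebra.IsAlgebraic.isAlgebraic z
    show φ z ∈ algebraicClosure ℚ ℂ
    rw [mem_algebraicClosure_iff]
    exact h1.algHom φ.toRatAlgHom)
  let _i : Algebra k AA := φ0.toAlgebra
  let _i : Algebra k ℂ := ψ.toAlgebra
  have : IsScalarTower ℚ k AA := IsScalarTower.of_algebraMap_eq' (Subsingleton.elim _ _)
  have : Algebra.IsAlgebraic ℚ AA := algebraicClosure.isAlgebraic ℚ ℂ
  have : Algebra.IsAlgebraic k AA := Algebra.IsAlgebraic.tower_top (K := ℚ) k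
  let σ : AA →ₐ[k] ℂ := IsAlgClosed.lift
  refine ⟨φ0, σ.toRingHom, fun z => rfl, fun z => ?_⟩
  exact σ.commutes z

/-- values of the elements of a number field under two embeddings -/
private lemma tra_cj {k : Type} [Field k] [NumberField k] (φ ψ : k →+* ℂ) :
    ∃ σ : AA →+* ℂ, ∀ z, Cj σ (φ z) (ψ z) := by
  obtain ⟨φ0, σ, h0, h1⟩ := tra_lift φ ψ
  refine ⟨σ, fun z a ha => ?_⟩
  have h2 : a = φ0 z := Subtype.ext (ha.trans (h0 z).symm)
  rw [h2, h1]

private theorem tra_evQ {n : ℕ} {g : ℤ[X]} {θ : Fin n → ℂ} (h : Rts g θ) (l : Fin n) :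
    eval₂ (algebraMap ℚ ℂ) (θ l) (g.map (Int.castRingHom ℚ)) = 0 := by
  rw [eval₂_map]
  have e1 : (algebraMap ℚ ℂ).comp (Int.castRingHom ℚ) = Int.castRingHom ℂ := Subsingleton.elim _ _
  rw [e1]
  exact tra_root h l

private theorem tra_nf {g : ℤ[X]} [Fact (Irreducible (g.map (Int.castRingHom ℚ)))] :
    NumberField (AdjoinRoot (g.map (Int.castRingHom ℚ))) := by
  have hirr : Irreducible (g.map (Int.castRingHom ℚ)) := Fact.out
  have : Module.Finite ℚ (AdjoinRoot (g.map (Int.castRingHom ℚ))) :=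
    (AdjoinRoot.powerBasis hirr.ne_zero).finite
  have : CharZero (AdjoinRoot (g.map (Int.castRingHom ℚ))) :=
    charZero_of_injective_algebraMap (algebraMap ℚ (AdjoinRoot (g.map (Int.castRingHom ℚ)))).injective
  exact NumberField.mk

theorem trG_one {n : ℕ} {g : ℤ[X]} {θ : Fin n → ℂ} (hm : g.Monic)
    (hirr : Irreducible (g.map (Int.castRingHom ℚ))) (h : Rts g θ) : TrG (v1 θ) := by
  have : Fact (Irreducible (g.map (Int.castRingHom ℚ))) := ⟨hirr⟩
  have := tra_nf (g := g)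
  intro l l'
  obtain ⟨σ, hσ⟩ := tra_cj (AdjoinRoot.lift (algebraMap ℚ ℂ) (θ l) (tra_evQ h l))
    (AdjoinRoot.lift (algebraMap ℚ ℂ) (θ l') (tra_evQ h l'))
  refine ⟨σ, fun u => ?_⟩
  have h1 := hσ (AdjoinRoot.root _)
  rw [AdjoinRoot.lift_root, AdjoinRoot.lift_root] at h1
  exact h1

theorem trG_two {n : ℕ} {g g' : ℤ[X]} {θ θ' : Fin n → ℂ} (hm : g.Monic) (hm' : g'.Monic)
    [Fact (Irreducible (g.map (Int.castRingHom ℚ)))]
    (hirr : Irreducible (g'.map (algebraMap ℤ (AdjoinRoot (g.map (Int.castRingHom ℚ))))))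
    (h : Rts g θ) (h' : Rts g' θ') : TrG (v2 θ θ') := by
  have hnf := tra_nf (g := g)
  have : Fact (Irreducible (g'.map (algebraMap ℤ (AdjoinRoot (g.map (Int.castRingHom ℚ)))))) := ⟨hirr⟩
  obtain ⟨p, hp⟩ : ∃ p : (AdjoinRoot (g.map (Int.castRingHom ℚ)))[X],
    p = g'.map (algebraMap ℤ (AdjoinRoot (g.map (Int.castRingHom ℚ)))) := ⟨_, rfl⟩
  rw [← hp] at hirr this
  have hf1 : Module.Finite (AdjoinRoot (g.map (Int.castRingHom ℚ))) (AdjoinRoot p) :=
    (AdjoinRoot.powerBasis hirr.ne_zero).finite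
  have hf2 : Module.Finite ℚ (AdjoinRoot p) :=
    Module.Finite.trans (AdjoinRoot (g.map (Int.castRingHom ℚ))) (AdjoinRoot p)
  have hc : CharZero (AdjoinRoot p) :=
    charZero_of_injective_algebraMap (algebraMap ℚ (AdjoinRoot p)).injective
  have hnf2 : NumberField (AdjoinRoot p) := NumberField.mk
  have hev : ∀ l l' : Fin n, eval₂ (AdjoinRoot.lift (algebraMap ℚ ℂ) (θ l) (tra_evQ h l)) (θ' l') p = 0 := by
    intro l l'
    rw [hp, eval₂_map]
    have e1 : (AdjoinRoot.lift (algebraMap ℚ ℂ) (θ l) (tra_evQ h l)).comp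
        (algebraMap ℤ (AdjoinRoot (g.map (Int.castRingHom ℚ)))) = Int.castRingHom ℂ := Subsingleton.elim _ _
    rw [e1]
    exact tra_root h' l'
  intro a b
  obtain ⟨σ, hσ⟩ := tra_cj (AdjoinRoot.lift (AdjoinRoot.lift (algebraMap ℚ ℂ) (θ a.1) (tra_evQ h a.1))
      (θ' a.2) (hev a.1 a.2))
    (AdjoinRoot.lift (AdjoinRoot.lift (algebraMap ℚ ℂ) (θ b.1) (tra_evQ h b.1))
      (θ' b.2) (hev b.1 b.2))
  refine ⟨σ, fun u => ?_⟩
  unfold v2
  split_ifs
  · have h1 := hσ (AdjoinRoot.of p (AdjoinRoot.root _))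
    rw [AdjoinRoot.lift_of, AdjoinRoot.lift_of, AdjoinRoot.lift_root, AdjoinRoot.lift_root] at h1
    exact h1
  · have h1 := hσ (AdjoinRoot.root p)
    rw [AdjoinRoot.lift_root, AdjoinRoot.lift_root] at h1
    exact h1

end Pool.Agent.H97.FB
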