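import Pool.Agent.H97.FB.Defs

/-! # [H97 FB TRX] The Taylor coefficients at `1/X0` of a series with small first coefficients

Write `L = log X0`, `h = 1/X0 = exp (-L)`, `X0^l = exp (l L)`. From `(2R)^c ≤ X0`: `c log (2R) ≤ L`, `2 R ≥ 4`, so `4 R ≤ (2R)^2`, `(4R)^k ≤ exp (2 k L / c)` and `2 ≤ 2 log (2R) ≤ 2 L / c` (`log 4 ≥ 1`). With `k = l + i`: `binom(k, l) ≤ 2^k` (`Nat.choose_le_two_pow`), `h^i = exp (l L - k L)`, so
`‖binom(k,l) c_k h^i‖ ≤ 2^k U (2R)^k exp (- max (TT - k L) 0) exp (l L - k L) = U exp (l L) (4R)^k exp (- max TT (k L)) ≤ U exp (l L) exp (2 k L / c) exp (- (1 - 4/c) TT - (4/c) k L)` (`max a b ≥ (1 - 4/c) a + (4/c) b`, `4 ≤ c`)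
`= U exp (l L - (1 - 4/c) TT) exp (- 2 k L / c) ≤ U exp (l L - (1 - 4/c) TT) (1/2)^k ≤ .. (1/2)^i` (`exp (-2) ≤ 1/2`). Geometric series: summable, sum `≤ 2 U exp (l L - (1 - 4/c) TT)` (`tsum_of_norm_bounded`, `hasSum_geometric_two`). -/

namespace Pool.Agent.H97.FB

theorem tay_small {c : ℕ} (hc : 4 ≤ c) {X0 R : ℝ} (hR : 2 ≤ R) (hX : (2 * R) ^ c ≤ X0)
    {U TT : ℝ} (hU : 0 ≤ U) (hTT : 0 ≤ TT) (a : ℕ → ℂ)
    (ha : ∀ k : ℕ, ‖a k‖ ≤ U * (2 * R) ^ k * Real.exp (-(max (TT - k * Real.log X0) 0)))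
    (l : ℕ) :
    Summable (fun i : ℕ => (((l + i).choose l : ℕ) : ℂ) * a (l + i) * (((1 / X0 : ℝ)) : ℂ) ^ i) ∧
      ‖∑' i : ℕ, (((l + i).choose l : ℕ) : ℂ) * a (l + i) * (((1 / X0 : ℝ)) : ℂ) ^ i‖ ≤
        2 * U * Real.exp (l * Real.log X0 - (1 - 4 / c) * TT) := by
  have hR4 : 4 ≤ 2 * R := by linarith
  have hX0 : 0 < X0 := lt_of_lt_of_le (by positivity) hX
  obtain ⟨L, hL⟩ : ∃ L : ℝ, L = Real.log X0 := ⟨_, rfl⟩
  have hc0 : (4 : ℝ) ≤ c := by exact_mod_cast hc
  have hlog4 : 1 ≤ Real.log (2 * R) := by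
    have h1 : Real.log 4 ≤ Real.log (2 * R) := Real.log_le_log (by norm_num) hR4
    have h2 : Real.log 4 = 2 * Real.log 2 := by
      rw [show (4 : ℝ) = 2 ^ 2 by norm_num, Real.log_pow]
      norm_num
    have h3 := Real.log_two_gt_d9
    linarith
  have hcL : c * Real.log (2 * R) ≤ L := by
    rw [hL, ← Real.log_pow]
    exact Real.log_le_log (by positivity) hX
  have hLc : Real.log (2 * R) ≤ L / c := by
    rw [le_div_iff₀ (by linarith)]
    linarith
  have hL0 : 0 ≤ L := by nlinarith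
  obtain ⟨K, hK⟩ : ∃ K : ℝ, K = U * Real.exp (l * L - (1 - 4 / c) * TT) := ⟨_, rfl⟩
  have hK0 : 0 ≤ K := by rw [hK]; positivity
  have key : ∀ i : ℕ, ‖(((l + i).choose l : ℕ) : ℂ) * a (l + i) * (((1 / X0 : ℝ)) : ℂ) ^ i‖ ≤
      K * (1 / 2) ^ i := by
    intro i
    have h1 : (((l + i).choose l : ℕ) : ℝ) ≤ 2 ^ (l + i) := by
      exact_mod_cast Nat.choose_le_two_pow (l + i) l
    have h2 : (1 / X0) ^ i = Real.exp (-(i * L)) := by
      rw [Real.exp_neg, mul_comm, Real.exp_mul, hL, Real.exp_log hX0, Real.rpow_natCast,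
        one_div, inv_pow]
    have h3 : (2 : ℝ) ^ (l + i) * (2 * R) ^ (l + i) ≤ Real.exp (2 * (l + i : ℕ) * (L / c)) := by
      have e1 : Real.exp (2 * (l + i : ℕ) * (L / c)) =
          (Real.exp (L / c) ^ 2) ^ (l + i) := by
        rw [← Real.exp_nat_mul, ← Real.exp_nat_mul]
        congr 1
        push_cast
        ring
      have e2 : 2 * R ≤ Real.exp (L / c) := by
        rw [← Real.exp_log (show 0 < 2 * R by linarith)]
        exact Real.exp_le_exp.mpr hLc
      rw [e1, ← mul_pow]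
      refine pow_le_pow_left₀ (by positivity) ?_ _
      nlinarith
    have h4 : -(max (TT - (l + i : ℕ) * L) 0) - i * L ≤
        l * L - (1 - 4 / c) * TT - 4 / c * ((l + i : ℕ) * L) := by
      have e1 : TT - (l + i : ℕ) * L ≤ max (TT - (l + i : ℕ) * L) 0 := le_max_left _ _
      have e2 : 0 ≤ max (TT - (l + i : ℕ) * L) 0 := le_max_right _ _
      have e3 : (4 : ℝ) / c ≤ 1 := by
        rw [div_le_one (by linarith)]
        exact hc0
      have e4 : (0 : ℝ) ≤ 4 / c := by positivity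
      have e5 := mul_nonneg (sub_nonneg.mpr e3) (sub_nonneg.mpr e1)
      have e6 := mul_nonneg e4 e2
      push_cast at *
      nlinarith
    have h5 : Real.exp (-(2 * (l + i : ℕ) * (L / c))) ≤ (1 / 2) ^ i := by
      have e1 : Real.exp (-(2 * (l + i : ℕ) * (L / c))) =
          (Real.exp (-(2 * (L / c)))) ^ (l + i) := by
        rw [← Real.exp_nat_mul]
        congr 1
        push_cast
        ring
      have e2 : Real.exp (-(2 * (L / c))) ≤ 1 / 2 := by
        have e3 : Real.exp (-(2 * (L / c))) ≤ Real.exp (-Real.log 2) := by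
          refine Real.exp_le_exp.mpr ?_
          have := Real.log_two_lt_d9
          linarith
        have e4 : Real.exp (-Real.log 2) = 1 / 2 := by
          rw [Real.exp_neg, Real.exp_log (by norm_num)]
          norm_num
        linarith
      rw [e1]
      calc _ ≤ (1 / 2 : ℝ) ^ (l + i) := pow_le_pow_left₀ (Real.exp_nonneg _) e2 _
        _ ≤ _ := pow_le_pow_of_le_one (by norm_num) (by norm_num) (by omega)
    have h6 := ha (l + i)
    rw [← hL] at h6
    rw [norm_mul, norm_mul, norm_pow, Complex.norm_real, Complex.norm_natCast,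
      Real.norm_of_nonneg (by positivity), h2]
    calc (((l + i).choose l : ℕ) : ℝ) * ‖a (l + i)‖ * Real.exp (-(i * L))
        ≤ 2 ^ (l + i) * (U * (2 * R) ^ (l + i) *
          Real.exp (-(max (TT - (l + i : ℕ) * L) 0))) * Real.exp (-(i * L)) := by
          gcongr
      _ = U * (2 ^ (l + i) * (2 * R) ^ (l + i)) *
          Real.exp (-(max (TT - (l + i : ℕ) * L) 0) - i * L) := by
          rw [sub_eq_add_neg (-(max (TT - (l + i : ℕ) * L) 0)) (i * L), Real.exp_add]
          ring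
      _ ≤ U * Real.exp (2 * (l + i : ℕ) * (L / c)) *
          Real.exp (l * L - (1 - 4 / c) * TT - 4 / c * ((l + i : ℕ) * L)) := by
          gcongr
      _ = K * Real.exp (-(2 * (l + i : ℕ) * (L / c))) := by
          rw [hK, mul_assoc U, mul_assoc U, ← Real.exp_add, ← Real.exp_add]
          congr 2
          ring
      _ ≤ _ := by gcongr
  have hs : HasSum (fun i : ℕ => K * (1 / 2 : ℝ) ^ i) (K * 2) := hasSum_geometric_two.mul_left K
  refine ⟨Summable.of_norm_bounded hs.summable key, ?_⟩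
  have := tsum_of_norm_bounded hs key
  rw [hK] at this
  rw [← hL]
  linarith

end Pool.Agent.H97.FB
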