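import Pool.Agent.H97.FB.Defs2
import Pool.Agent.H97.NW.RDX

/-! # [H97 FB RDG] From an arbitrary curve to a labelled pointed curve

Follow `Pool/Agent/H97/NW/RDX.lean` (`redX`) and `THS.lean` line by line, with `k = AdjoinRoot (g.map (Int.castRingHom ℚ))` instead of `AdjoinRoot (X^r - C β)` (number field of degree `natDegree g = n ≥ 2`; `n = natDegree` from `Rts g θ`).
1. For a number field `K`: `K` contains a root of `g` iff `Nonempty (k →+* K)` (`AdjoinRoot.lift` with `algebraMap ℚ K`; `aeval θ g = 0` is `eval₂ (algebraMap ℚ K) θ (g.map _) = 0`), so `INg g F ↔ INFR k F` (as `infn_iff`).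
2. `exists_y k`, `redB`: `d', b, F', a`; the size statements word by word as in `redX`; `CrvB.pt`: `i, T`; `P : Ptd (d (d+1))`.
3. Labels: `inf_inf1K`, `exists_kapR k hinf pd` (`Pool/Agent/H34/AC/KapR.lean`): `S, kap`; real branches are in `S`; `th i` := the index `l : Fin n` with `θ l = kap i (AdjoinRoot.root _)` (a root of `g` in `ℂ`, so a `θ l` by `Rts`: the product vanishes). `gal`: `kap j (root) = σ (kap i root)` gives `Cj σ (θ (th i)) (θ (th j))` (`kap i root` is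
algebraic). `rot`: `kap j = kap i`. The near branch is in `S`: the first half of the proof of `th_real` (`THS.lean`): complex conjugation followed by the rotation `ζ = conj T / T` fixes the branch `i` (`CrvA.sep`), so `i ∈ S` by the first property of `S`. `l0 := th P.i`. (No reality statement about the label is needed.) -/

namespace Pool.Agent.H97.FB

open Finset Polynomial Pool.Agent.H72.ES Pool.Agent.H87.SA2 Pool.Agent.H8.AW Pool.Agent.H52.AC
  Pool.Agent.H97.NW Pool.Agent.H34.AC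

private theorem RDG_root (g : ℤ[X]) {R : Type*} [CommRing R]
    (φ : AdjoinRoot (g.map (Int.castRingHom ℚ)) →+* R) :
    eval₂ (Int.castRingHom R) (φ (AdjoinRoot.root (g.map (Int.castRingHom ℚ)))) g = 0 := by
  have h := congrArg φ (AdjoinRoot.eval₂_root (g.map (Int.castRingHom ℚ)))
  rw [map_zero, hom_eval₂, eval₂_map] at h
  have h1 : (φ.comp (AdjoinRoot.of (g.map (Int.castRingHom ℚ)))).comp (Int.castRingHom ℚ) =
      Int.castRingHom R := Subsingleton.elim _ _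
  rwa [h1] at h

private theorem RDG_key (g : ℤ[X]) (K : Type) [Field K] [CharZero K] :
    (∃ θ : K, aeval θ g = 0) ↔
      Nonempty (AdjoinRoot (g.map (Int.castRingHom ℚ)) →+* K) := by
  constructor
  · rintro ⟨θ, hθ⟩
    refine ⟨AdjoinRoot.lift (algebraMap ℚ K) θ ?_⟩
    rw [eval₂_map]
    have h1 : (algebraMap ℚ K).comp (Int.castRingHom ℚ) = algebraMap ℤ K := Subsingleton.elim _ _
    rw [h1]
    exact hθ
  · rintro ⟨φ⟩
    refine ⟨φ (AdjoinRoot.root (g.map (Int.castRingHom ℚ))), ?_⟩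
    have h := RDG_root g φ
    rw [aeval_def]
    exact h

private theorem RDG_infn (g : ℤ[X]) (F : MvPolynomial (Fin 2) ℤ)
    [Fact (Irreducible (g.map (Int.castRingHom ℚ)))] (h : INg g F) :
    INFR (AdjoinRoot (g.map (Int.castRingHom ℚ))) F := by
  intro K _ _ hK X Y hXY
  rcases h K hK X Y hXY with h1 | h1
  · exact Or.inl h1
  · exact Or.inr ((RDG_key g K).1 h1)

/-- conversion to a curve with `ℚ` at infinity -/
private noncomputable def RDG_toQ {n d b : ℕ} {F : ℕ → ℕ → ℤ} (C : CrvB n d b F) (h4 : 4 ≤ d) :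
    CrvA ℚ n d b F where
  d4 := h4
  dn := C.dn
  b2 := C.b2
  lead := C.lead
  le := C.le
  irr := C.irr
  pd := C.pd
  e_le := C.e_le
  q_le := C.q_le
  R_le := C.R_le
  kp := Pool.Agent.H8.AS.kapQ C.pd
  bez := C.bez

private theorem RDG_near {n d b : ℕ} {F : ℕ → ℕ → ℤ} (C : CrvB n d b F)
    (h4 : 4 ≤ d) {x y : ℤ} (hx : (b : ℝ) + 1 ≤ |(x : ℝ)|) {T : ℂ}
    (hT : C.pd.R * ‖T‖ < 1) (hTx : ((C.pd.q : ℂ) * T) ^ C.pd.e * (x : ℂ) = 1) {i : Fin d}
    (hi : evz T (C.pd.x i) = (y : ℂ) / (x : ℂ)) :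
    ∃ ζ : ℂ, ζ ^ C.pd.e = 1 ∧
      PowerSeries.rescale ζ ((C.pd.x i).map (starRingEnd ℂ)) = C.pd.x i := by
  have hi' : evT T (C.pd.x i) = (y : ℂ) / (x : ℂ) := hi
  have hxC : (x : ℂ) ≠ 0 := by
    rintro h
    rw [h, mul_zero] at hTx
    exact zero_ne_one hTx
  have ht : ((C.pd.q : ℂ) * T) ^ C.pd.e = 1 / (x : ℂ) := by
    rw [eq_div_iff hxC]
    exact hTx
  have he : C.pd.e ≠ 0 := by have := C.pd.e_pos; omega
  have hT0 : T ≠ 0 := by
    rintro rfl
    rw [mul_zero, zero_pow he] at ht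
    exact one_div_ne_zero hxC ht.symm
  have hq0 : (C.pd.q : ℂ) ≠ 0 := by
    have := C.pd.q_pos
    exact_mod_cast (by omega : C.pd.q ≠ 0)
  obtain ⟨j, hj⟩ := perm_of C.pd (PowerSeries.map (starRingEnd ℂ)) (tq_conj' _ _) i
  set ζ : ℂ := starRingEnd ℂ T / T with hζ
  have hζT : ζ * T = starRingEnd ℂ T := by rw [hζ]; field_simp
  have hζe : ζ ^ C.pd.e = 1 := by
    have h1 : starRingEnd ℂ (((C.pd.q : ℂ) * T) ^ C.pd.e) = ((C.pd.q : ℂ) * T) ^ C.pd.e := by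
      rw [ht]
      simp
    rw [map_pow, map_mul, Complex.conj_natCast, mul_pow, mul_pow] at h1
    have h2 := mul_left_cancel₀ (pow_ne_zero _ hq0) h1
    rw [hζ, div_pow, h2]
    exact div_self (pow_ne_zero _ hT0)
  obtain ⟨l, hl⟩ := perm_of C.pd (PowerSeries.rescale ζ) (tq_rescale hζe) j
  have hev : evT T (C.pd.x l) = (y : ℂ) / (x : ℂ) := by
    rw [← hl, evT_rescale, hζT, ← hj, evT_conj, hi']
    simp
  have hli : l = i := (RDG_toQ C h4).sep hx hT hTx (hev.trans hi'.symm)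
  refine ⟨ζ, hζe, ?_⟩
  have h1 : PowerSeries.map (starRingEnd ℂ) (C.pd.x i) = C.pd.x j := hj
  rw [h1, hl, hli]

theorem redG (n d : ℕ) (hn : 2 ≤ n) (hd : 3 ≤ d) (c : ℕ) (hc : cA (d * (d + 1)) ≤ c) (g : ℤ[X])
    (θ : Fin n → ℂ) (hg : g.Monic) (hirr : Irreducible (g.map (Int.castRingHom ℚ)))
    (hθ : Rts g θ) (F : MvPolynomial (Fin 2) ℤ)
    (hF : Irreducible (MvPolynomial.map (Int.castRingHom ℚ) F)) (hdeg : F.totalDegree ≤ d)
    (hinf : INg g F) (H : ℕ) (hH2 : 2 ≤ H) (hH : ∀ m, |F.coeff m| ≤ (H : ℤ)) (x y : ℤ)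
    (h0 : vl F x y = 0) (hbig : H ^ (cR d * c * (2 * d + 3)) < max x.natAbs y.natAbs) :
    ∃ (P : Ptd (d * (d + 1))) (l0 : Fin n), P.Thr c ∧
      ((max x.natAbs y.natAbs : ℕ) : ℝ) ≤ |(P.x : ℝ)| ^ (2 * d + 3) ∧
      Nonempty (LbG P (v1 θ) l0) := by
  have hfact : Fact (Irreducible (g.map (Int.castRingHom ℚ))) := ⟨hirr⟩
  have hg0 : g.map (Int.castRingHom ℚ) ≠ 0 := hirr.ne_zero
  have hNF : NumberField (AdjoinRoot (g.map (Int.castRingHom ℚ))) :=
    { to_charZero := charZero_of_injective_algebraMap (algebraMap ℚ _).injective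
      to_finiteDimensional := (AdjoinRoot.powerBasis hg0).finite }
  have hgn : g.natDegree = n := by
    rw [← hg.natDegree_map (Int.castRingHom ℂ), hθ.1, natDegree_finsetProd_X_sub_C_eq_card,
      card_univ, Fintype.card_fin]
  have hfin : 2 ≤ Module.finrank ℚ (AdjoinRoot (g.map (Int.castRingHom ℚ))) := by
    rw [(AdjoinRoot.powerBasis hg0).finrank, AdjoinRoot.powerBasis_dim hg0,
      hg.natDegree_map (Int.castRingHom ℚ), hgn]
    exact hn
  have hINFR := RDG_infn g F hinf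
  obtain ⟨m0, hm0, hm1⟩ := exists_y (AdjoinRoot (g.map (Int.castRingHom ℚ))) hfin hINFR h0
  obtain ⟨D, b, F', a, ⟨Cc⟩, h4, hb, ha0, -, hev⟩ :=
    redB d hd F hF hdeg ⟨m0, hm0, hm1⟩ H hH2 hH
  obtain ⟨m, hm⟩ : ∃ m, m = max x.natAbs y.natAbs := ⟨_, rfl⟩
  rw [← hm] at hbig ⊢
  have hN1 : 1 ≤ d * (d + 1) := Nat.mul_pos (by omega) (by omega)
  obtain ⟨hcA1, hcA2⟩ := H8.AF.cA_ge hN1
  have hb2 : 2 ≤ b := Cc.b2
  have hevZ : ev D F' (y + x ^ (d + 1)) (a * x) = 0 := by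
    have h := hev ℤ x y
    have hc' : cst ℤ F' = F' := by
      funext i j
      simp [cst]
    rw [hc', h0, mul_zero] at h
    simpa using h
  have hHm : b ^ (c * (2 * d + 3)) < m := by
    calc b ^ (c * (2 * d + 3)) ≤ (H ^ cR d) ^ (c * (2 * d + 3)) :=
          Nat.pow_le_pow_left hb _
      _ = H ^ (cR d * c * (2 * d + 3)) := by rw [← pow_mul, mul_assoc]
      _ < m := hbig
  have hkey : ∀ V : ℤ, (b : ℤ) ^ (2 * (d * (d + 1)) + 1) ≤ V → |y + x ^ (d + 1)| ≤ V →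
      (m : ℤ) ≤ V ^ (2 * d + 3) := by
    intro V hV hu
    obtain ⟨h1, h2⟩ := H8.AF.size_up (by omega) Cc.dn hb2 Cc.lead Cc.le ha0 hV hu hevZ
    rw [hm]
    rw [Int.abs_eq_natAbs] at h1 h2
    push_cast
    rw [Int.abs_eq_natAbs, Int.abs_eq_natAbs]
    exact max_le h1 h2
  have hbc : (b : ℤ) ^ (2 * (d * (d + 1)) + 1) ≤ (b : ℤ) ^ c :=
    pow_le_pow_right₀ (by exact_mod_cast (by omega : 1 ≤ b)) (hcA1.trans hc)
  have hu : (b : ℤ) ^ c ≤ |y + x ^ (d + 1)| := by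
    by_contra hcon
    push Not at hcon
    have h1 := hkey _ hbc hcon.le
    rw [← pow_mul] at h1
    have h2 : m ≤ b ^ (c * (2 * d + 3)) := by exact_mod_cast h1
    omega
  have hup : (m : ℤ) ≤ |y + x ^ (d + 1)| ^ (2 * d + 3) := hkey _ (hbc.trans hu) le_rfl
  have huR : (b : ℝ) ^ c ≤ |((y + x ^ (d + 1) : ℤ) : ℝ)| := by
    have : ((b : ℤ) ^ c : ℤ) ≤ |y + x ^ (d + 1)| := hu
    exact_mod_cast this
  obtain ⟨i, T, hT, hTx, hi⟩ := Cc.pt h4 (hcA2.trans hc) hevZ huR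
  -- the roots attached to the branches
  have hinf1 : INF1R (AdjoinRoot (g.map (Int.castRingHom ℚ))) (H8.AW.fI D F') := by
    intro K _ _ hK r' e x' hr' he hx'
    exact inf_inf1K (AdjoinRoot (g.map (Int.castRingHom ℚ))) K
      (fun X Y hXY => hINFR K hK X Y hXY) (d + 1) D F' a ha0 hev r' e x' hr' he hx'
  obtain ⟨S, kap, k1, k2, k3⟩ := exists_kapR (AdjoinRoot (g.map (Int.castRingHom ℚ))) hinf1 Cc.pd
  have hb1 : (b : ℝ) + 1 ≤ |((y + x ^ (d + 1) : ℤ) : ℝ)| := by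
    have hb2R : (2 : ℝ) ≤ b := by exact_mod_cast hb2
    have hN2 : 2 ≤ c := by omega
    calc (b : ℝ) + 1 ≤ (b : ℝ) ^ 2 := by nlinarith
      _ ≤ (b : ℝ) ^ c := pow_le_pow_right₀ (by linarith) hN2
      _ ≤ _ := huR
  obtain ⟨ζ, hζ1, hζ2⟩ := RDG_near Cc h4 hb1 hT hTx hi
  have hmem : i ∈ S := k1 i ζ hζ1 hζ2
  have hth : ∀ i : Fin D, ∃ l : Fin n,
      kap i (AdjoinRoot.root (g.map (Int.castRingHom ℚ))) = θ l := by
    intro i
    have h1 := RDG_root g (kap i)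
    rw [← eval_map, hθ.1, eval_prod] at h1
    obtain ⟨l, -, hl⟩ := Finset.prod_eq_zero_iff.mp h1
    refine ⟨l, ?_⟩
    rw [eval_sub, eval_X, eval_C] at hl
    exact sub_eq_zero.mp hl
  choose th hth' using hth
  refine ⟨⟨D, b, F', Cc, i, T, y + x ^ (d + 1), a * x, hevZ, hTx, hi⟩, th i, huR, ?_, ?_⟩
  · have : ((m : ℤ) : ℝ) ≤ ((|y + x ^ (d + 1)| ^ (2 * d + 3) : ℤ) : ℝ) := by exact_mod_cast hup
    push_cast at this ⊢
    exact this
  · refine ⟨⟨S, th, hmem, rfl, ?_, ?_⟩⟩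
    · intro σ i' hi' j hj
      obtain ⟨h5, h6⟩ := k2 σ i' hi' j hj
      refine ⟨h5, fun u a' ha' => ?_⟩
      change (a' : ℂ) = θ (th i') at ha'
      change σ a' = θ (th j)
      rw [← hth' i'] at ha'
      rw [← hth' j]
      exact h6 _ a' ha'
    · intro ζ' hζ' i' hi' j hj
      obtain ⟨h5, h6⟩ := k3 ζ' i' hi' j hζ' hj
      refine ⟨h5, hθ.2 ?_⟩
      rw [← hth' j, ← hth' i', h6]

end Pool.Agent.H97.FB
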