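import Pool.Agent.H97.FB.Defs
import Pool.Agent.H34.AC.Red
import Pool.Agent.H97.XC.Defs
import Pool.Agent.H87.SA2.RDefs

/-!
# MP_821da1_nt, Families (helper97): families, labels, the interface of the chapters

`rv n m f`: the reversed family `t^(m n) f(1/t, Y / t^m)`; `fa f a = f(a, Z)`.
`FamB n m B f`: `f ∈ ℤ[x][Z]` monic of degree `n` in `Z`, the coefficient of `Z^i` of degree at most
`m (n - i)`, absolutely irreducible, with the Puiseux data of the reversed family; all constants are at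
most `B`.
`thA pd m a i = a^m x_i(1/X0)`, `X0 = q a^(1/e)`: the roots of `f(a, Z)`.
`AlgA an Q0`: the algebraic description of the series of the anchor (used for the norm, chapter FAR).
`DiagA an θ θ'`: to every conjugate of the anchor a set of at most `n` pairs of indices is attached,
Galois equivariant; for `i0` it contains the diagonal.
`Cj σ z w`: `σ z = w`. `TrG Θ`: the Galois group is transitive on the vectors `Θ l`.
`LbG P Θ l0`: the orbit of the near branch (under conjugation and rotation) carries labels, the near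
branch has the label `l0`.
`INg g F`: every real point at infinity of `F = 0` carries a root of `g`.
-/

namespace Pool.Agent.H97.FB

open Finset Polynomial Pool.Agent.H72.ES Pool.Agent.H87.SA Pool.Agent.H87.SA2 Pool.Agent.H87.AX
  Pool.Agent.H8.AW Pool.Agent.H52.AC Pool.Agent.H97.NW Pool.Agent.H8.RZ Pool.Agent.H34.AC Pool.Agent.H97.GA

/-- the reversed family `t^(m n) f(1/t, Y / t^m)` -/
noncomputable def rv (n m : ℕ) (f : ℤ[X][X]) : ℤ[X][X] :=
  ∑ i ∈ range (n + 1), C (reflect (m * (n - i)) (f.coeff i)) * X ^ i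

/-- the fibre `f(a, Z)` -/
noncomputable def fa (f : ℤ[X][X]) (a : ℕ) : ℤ[X] := f.map (evalRingHom (a : ℤ))

/-- a family in normal form, all constants at most `B` -/
structure FamB (n m B : ℕ) (f : ℤ[X][X]) where
  n2 : 2 ≤ n
  m1 : 1 ≤ m
  B2 : 2 ≤ B
  monic : f.Monic
  deg : f.natDegree = n
  cdeg : ∀ i, (f.coeff i).natDegree ≤ m * (n - i)
  le : ∀ i j, |(f.coeff i).coeff j| ≤ (B : ℤ)
  irr : Irreducible (f.map (mapRingHom (Int.castRingHom ℂ)))
  pd : PData (rv n m f) n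
  e_le : pd.e ≤ n.factorial
  q_le : pd.q ≤ B
  R_le : pd.R ≤ B
  bez : ∃ (u v : ℤ[X][X]) (c : ℤ[X]), c ≠ 0 ∧ u * rv n m f + v * derivative (rv n m f) = C c ∧
    c.natDegree ≤ 2 * n * (m * n) ∧ ∀ i, |c.coeff i| ≤ (B : ℤ)

/-- the real number `X0` with `X0^e = q^e a` -/
noncomputable def XA {g : ℤ[X][X]} {n : ℕ} (pd : PData g n) (a : ℕ) : ℝ :=
  pd.q * (a : ℝ) ^ ((1 : ℝ) / pd.e)

/-- the roots of `f(a, Z)` -/
noncomputable def thA {g : ℤ[X][X]} {n : ℕ} (pd : PData g n) (m a : ℕ) (i : Fin n) : ℂ :=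
  (a : ℂ) ^ m * evC (1 / XA pd a) (pd.x i)

/-- the algebraic description of the series of the anchor -/
structure AlgA {Dn Dl κ e M : ℕ} {X0 R : ℝ} (an : AnchX Dn Dl κ e M X0 R) (Q0 : ℕ) where
  q : ℕ
  N : ℕ
  q1 : 1 ≤ q
  N1 : 1 ≤ N
  qR : (q : ℝ) ≤ R
  MN : M = q ^ e * N
  f1 : ℤ[X][X]
  monic : f1.Monic
  deg : f1.natDegree ≤ Q0
  cdeg : ∀ i, (f1.coeff i).natDegree ≤ Q0
  le : ∀ i j, |(((f1.coeff i).coeff j : ℤ) : ℝ)| ≤ R
  L : ℕ
  L_le : L ≤ Q0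
  x : Fin L → PowerSeries ℂ
  root : ∀ l, (f1.map (tq e q)).eval (x l) = 0
  growth : ∀ l k, ‖PowerSeries.coeff k (x l)‖ ≤ R ^ (k + 1)
  w : Fin L → ℂ
  gw : Fin L → ℤ[X]
  gw_monic : ∀ l, (gw l).Monic
  gw_deg : ∀ l, (gw l).natDegree ≤ Q0
  gw_root : ∀ l, aeval (w l) (gw l) = 0
  gw_le : ∀ (l : Fin L) (z : ℂ), aeval z (gw l) = 0 → ‖z‖ ≤ X0 ^ Q0
  hZ : an.zs an.i0 = ∑ l, PowerSeries.C (w l) * x l

/-- `σ` sends `z` to `w` -/
def Cj (σ : AA →+* ℂ) (z w : ℂ) : Prop := ∀ a : AA, (a : ℂ) = z → σ a = w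

/-- the pairs of indices attached to the conjugates of the anchor -/
structure DiagA {Dn Dl κ e M : ℕ} {X0 R : ℝ} (an : AnchX Dn Dl κ e M X0 R) {n : ℕ}
    (θ θ' : Fin n → ℂ) where
  cardI : Fintype.card an.I ≤ Dn
  Rt : an.I → Finset (Fin n × Fin n)
  card : ∀ i, (Rt i).card ≤ n
  diag : ∀ l, (l, l) ∈ Rt an.i0
  gal : ∀ σ : AA →+* ℂ, ∃ π1 : an.I → an.I,
    (∀ (i : an.I) (k : ℕ) (a : AA),
      (a : ℂ) = (((1 / X0 : ℝ)) : ℂ) ^ k * PowerSeries.coeff k (an.zs i) →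
      σ a = (((1 / X0 : ℝ)) : ℂ) ^ k * PowerSeries.coeff k (an.zs (π1 i))) ∧
    ∀ (i : an.I) (l l' j j' : Fin n), (l, l') ∈ Rt i → Cj σ (θ l) (θ j) → Cj σ (θ' l') (θ' j') →
      (j, j') ∈ Rt (π1 i)

/-- the Galois group is transitive on the vectors `Θ l` -/
def TrG {r : ℕ} {ι : Type} (Θ : ι → Fin r → ℂ) : Prop :=
  ∀ l l', ∃ σ : AA →+* ℂ, ∀ u, Cj σ (Θ l u) (Θ l' u)

/-- the vectors `Θ l` are different, their coordinates are algebraic integers -/
structure GdG {r : ℕ} {ι : Type} (Θ : ι → Fin r → ℂ) : Prop where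
  inj : Function.Injective Θ
  int : ∀ l u, IsIntegral ℤ (Θ l u)

/-- a labelling of the orbit of the near branch of `P` by the vectors `Θ l`; the near branch has the
label `l0` -/
structure LbG {ν r : ℕ} {ι : Type} (P : Ptd ν) (Θ : ι → Fin r → ℂ) (l0 : ι) where
  S : Finset (Fin P.d)
  th : Fin P.d → ι
  mem : P.i ∈ S
  near : th P.i = l0
  gal : ∀ σ : AA →+* ℂ, ∀ i ∈ S, ∀ j : Fin P.d,
    (∀ (k : ℕ), Cj σ (PowerSeries.coeff k (P.C.pd.x i)) (PowerSeries.coeff k (P.C.pd.x j))) →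
    j ∈ S ∧ ∀ u, Cj σ (Θ (th i) u) (Θ (th j) u)
  rot : ∀ ζ : ℂ, ζ ^ P.C.pd.e = 1 → ∀ i ∈ S, ∀ j : Fin P.d,
    PowerSeries.rescale ζ (P.C.pd.x i) = P.C.pd.x j → j ∈ S ∧ th j = th i

/-- the vectors with one coordinate -/
def v1 {n : ℕ} (θ : Fin n → ℂ) (l : Fin n) (_ : Fin 1) : ℂ := θ l

/-- the vectors with two coordinates -/
def v2 {n : ℕ} (θ θ' : Fin n → ℂ) (p : Fin n × Fin n) (u : Fin 2) : ℂ :=
  if u = 0 then θ p.1 else θ' p.2

/-- `θ` is the list of the different roots of `g` -/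
def Rts {n : ℕ} (g : ℤ[X]) (θ : Fin n → ℂ) : Prop :=
  g.map (Int.castRingHom ℂ) = ∏ i, (X - C (θ i)) ∧ Function.Injective θ

/-- every real point at infinity of `F = 0` carries a root of `g` -/
def INg (g : ℤ[X]) (F : MvPolynomial (Fin 2) ℤ) : Prop :=
  ∀ (K : Type) [Field K] [NumberField K], Nonempty (K →+* ℝ) →
    ∀ (X Y : LaurentSeries K), vl F X Y = 0 →
      (X ∈ (HahnSeries.ofPowerSeries ℤ K).range ∧ Y ∈ (HahnSeries.ofPowerSeries ℤ K).range) ∨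
        ∃ θ : K, aeval θ g = 0

end Pool.Agent.H97.FB
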