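import Mathlib

/-! # [H97 FB DNX] From windows to density

PROOF. Let `W X0 = {a : X0 ≤ a, (a - X0)^C ≤ X0}`. Put `L = ⌊T^(1/C)⌋`-like; elementary version: let `T ≥ 1`, `s : ℕ` the largest natural number with `s^C ≤ T` (`Nat.findGreatest` or `Nat.nthRoot`), so `T < (s+1)^C ≤ (2 s)^C`. The bad `a ≤ T`: those `< s^C`-like small ones need care, so use dyadic blocks: for `a ∈ [Y, 2 Y)` with `Y = s^C`-free form:
for every `Y ≥ X1` (`Y` a natural number) the interval `[Y, 2Y)` is covered by the windows `W (Y + j u)`, `u = ` the largest natural number with `u^C ≤ Y`, `0 ≤ j ≤ Y / u` : for `a = Y + j u + r`, `r < u`: `r^C ≤ Y ≤ Y + j u`. So `#{a ∈ [Y, 2Y) bad} ≤ C (Y / u + 1)` and `Y < (2u)^C` gives `#^C ≤ (2 C Y / u)^C ≤ (4 C)^C Y^(C-1)`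
(`Y/u + 1 ≤ 2 Y / u`, `(Y / u)^C = Y^C / u^C ≤ Y^C 2^C / Y`). In real exponents: `# ≤ 4 C Y^(1 - 1/C)`. Sum over the dyadic blocks `Y = 2^i X1 ≤ T`: `X1 + ∑_i 4 C (2^i X1)^(1-1/C)`; if `C ≥ 2` the geometric series with ratio `2^(1-1/C) ≥ 2^(1/2)` gives `≤ X1 + 4 C T^(1-1/C) / (1 - 2^(-1/2)) ≤ (X1 + 16 C) T^(1-1/C)` (`T ≥ 1`).
(`C ≥ 2` is a hypothesis.) Strong induction on `T` is convenient: `#(T) ≤ #(T/2) + (block)`. -/

namespace Pool.Agent.H97.FB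

private theorem dnx_block (C X1 : ℕ) (hC : 2 ≤ C) (S : Set ℕ)
    (h : ∀ X0 : ℕ, X1 ≤ X0 → ∃ E : Finset ℕ, E.card ≤ C ∧
      ∀ a : ℕ, X0 ≤ a → (a - X0) ^ C ≤ X0 → a ∉ E → a ∉ S) (Y : ℕ) (hY : X1 ≤ Y) (hY1 : 1 ≤ Y) :
    ((S ∩ Set.Ico Y (2 * Y)).ncard : ℝ) ≤ 4 * C * (Y : ℝ) ^ (1 - 1 / (C : ℝ)) := by
  classical
  choose! E hE using h
  have hC0 : C ≠ 0 := by omega
  obtain ⟨u, hu⟩ : ∃ u, u = Nat.findGreatest (fun u => u ^ C ≤ Y) Y := ⟨_, rfl⟩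
  have h1 : 1 ≤ u := by
    rw [hu]
    exact Nat.le_findGreatest hY1 (by simpa using hY1)
  have h2 : u ^ C ≤ Y := by
    rw [hu]
    exact Nat.findGreatest_spec (P := fun u => u ^ C ≤ Y) hY1 (by simpa using hY1)
  have h3 : Y < (u + 1) ^ C := by
    by_contra h4
    push Not at h4
    have h5 : u + 1 ≤ Y := (Nat.le_self_pow hC0 (u + 1)).trans h4
    have h6 : u + 1 ≤ Nat.findGreatest (fun u => u ^ C ≤ Y) Y := Nat.le_findGreatest h5 h4
    omega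
  have h4 : u ≤ Y := (Nat.le_self_pow hC0 u).trans h2
  have hsub : S ∩ Set.Ico Y (2 * Y) ⊆
      (((Finset.range (Y / u + 1)).biUnion fun j => E (Y + j * u) : Finset ℕ) : Set ℕ) := by
    rintro a ⟨ha, ha1, ha2⟩
    rw [Finset.mem_coe, Finset.mem_biUnion]
    have h5 := Nat.div_add_mod (a - Y) u
    have h6 : (a - Y) % u < u := Nat.mod_lt _ h1
    refine ⟨(a - Y) / u, ?_, ?_⟩
    · rw [Finset.mem_range, Nat.lt_succ_iff]
      exact Nat.div_le_div_right (by omega)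
    · by_contra h7
      refine (hE (Y + (a - Y) / u * u) (by omega)).2 a ?_ ?_ h7 ha
      · rw [mul_comm]
        omega
      · have h8 : a - (Y + (a - Y) / u * u) = (a - Y) % u := by
          rw [mul_comm ((a - Y) / u)]
          omega
        rw [h8]
        exact ((Nat.pow_le_pow_left h6.le C).trans h2).trans (Nat.le_add_right _ _)
  have hcard : (S ∩ Set.Ico Y (2 * Y)).ncard ≤ (Y / u + 1) * C := by
    calc (S ∩ Set.Ico Y (2 * Y)).ncard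
        ≤ (((Finset.range (Y / u + 1)).biUnion fun j => E (Y + j * u) : Finset ℕ) : Set ℕ).ncard :=
          Set.ncard_le_ncard hsub (Finset.finite_toSet _)
      _ = ((Finset.range (Y / u + 1)).biUnion fun j => E (Y + j * u)).card := Set.ncard_coe_finset _
      _ ≤ (Finset.range (Y / u + 1)).card * C :=
          Finset.card_biUnion_le_card_mul _ _ _ fun j _ => (hE _ (by omega)).1
      _ = (Y / u + 1) * C := by rw [Finset.card_range]
  have hu0 : (0 : ℝ) < u := by exact_mod_cast h1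
  have hY0 : (0 : ℝ) < Y := by exact_mod_cast hY1
  have hC1 : (0 : ℝ) < C := by exact_mod_cast (by omega : 0 < C)
  have h5 : ((Y / u + 1 : ℕ) : ℝ) ≤ 2 * (Y / u) := by
    push_cast
    have h6 : ((Y / u : ℕ) : ℝ) ≤ (Y : ℝ) / u := Nat.cast_div_le
    have h7 : (1 : ℝ) ≤ (Y : ℝ) / u := by
      rw [le_div_iff₀ hu0, one_mul]
      exact_mod_cast h4
    linarith
  have h6 : (Y : ℝ) ^ (1 / (C : ℝ)) ≤ 2 * u := by
    have h7 : (Y : ℝ) ≤ (2 * u) ^ C := by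
      have h8 : Y ≤ (2 * u) ^ C := h3.le.trans (Nat.pow_le_pow_left (by omega) C)
      exact_mod_cast h8
    calc (Y : ℝ) ^ (1 / (C : ℝ)) ≤ (((2 * u : ℝ)) ^ C) ^ (1 / (C : ℝ)) :=
          Real.rpow_le_rpow hY0.le h7 (by positivity)
      _ = 2 * u := by
          rw [one_div, Real.pow_rpow_inv_natCast (by positivity) hC0]
  have h7 : 0 < (Y : ℝ) ^ (1 / (C : ℝ)) := Real.rpow_pos_of_pos hY0 _
  have h8 : (Y : ℝ) ^ (1 - 1 / (C : ℝ)) = Y / (Y : ℝ) ^ (1 / (C : ℝ)) := by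
    rw [Real.rpow_sub hY0, Real.rpow_one]
  have h9 : (Y : ℝ) / u ≤ 2 * (Y / (Y : ℝ) ^ (1 / (C : ℝ))) := by
    rw [← mul_div_assoc, div_le_div_iff₀ hu0 h7]
    nlinarith
  calc ((S ∩ Set.Ico Y (2 * Y)).ncard : ℝ) ≤ (((Y / u + 1) * C : ℕ) : ℝ) := by exact_mod_cast hcard
    _ = ((Y / u + 1 : ℕ) : ℝ) * C := by push_cast; ring
    _ ≤ (2 * (Y / u)) * C := mul_le_mul_of_nonneg_right h5 hC1.le
    _ ≤ (2 * (2 * (Y / (Y : ℝ) ^ (1 / (C : ℝ))))) * C := by gcongr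
    _ = 4 * C * (Y : ℝ) ^ (1 - 1 / (C : ℝ)) := by rw [h8]; ring

theorem density_of_windows (C X1 : ℕ) (hC : 2 ≤ C) (S : Set ℕ)
    (h : ∀ X0 : ℕ, X1 ≤ X0 → ∃ E : Finset ℕ, E.card ≤ C ∧
      ∀ a : ℕ, X0 ≤ a → (a - X0) ^ C ≤ X0 → a ∉ E → a ∉ S) :
    ∃ K : ℝ, ∀ T : ℕ, 1 ≤ T →
      ((S ∩ Set.Icc 1 T).ncard : ℝ) ≤ K * (T : ℝ) ^ (1 - 1 / (C : ℝ)) := by
  obtain ⟨X, hX⟩ : ∃ X, X = max X1 1 := ⟨_, rfl⟩
  have hX1 : X1 ≤ X := by rw [hX]; exact le_max_left _ _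
  have hX2 : 1 ≤ X := by rw [hX]; exact le_max_right _ _
  have hC2 : (2 : ℝ) ≤ C := by exact_mod_cast hC
  obtain ⟨e, he⟩ : ∃ e : ℝ, e = 1 - 1 / (C : ℝ) := ⟨_, rfl⟩
  have he1 : 1 / 2 ≤ e := by
    have : 1 / (C : ℝ) ≤ 1 / 2 := one_div_le_one_div_of_le (by norm_num) hC2
    rw [he]
    linarith
  have he0 : 0 ≤ e := by linarith
  refine ⟨2 * X + 16 * C, ?_⟩
  rw [← he]
  intro T
  induction T using Nat.strong_induction_on with
  | _ T ih =>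
  intro hT
  have hT1 : (1 : ℝ) ≤ T := by exact_mod_cast hT
  have hTe : 1 ≤ (T : ℝ) ^ e := Real.one_le_rpow hT1 he0
  rcases lt_or_ge T (2 * X) with h1 | h1
  · have h2 : (S ∩ Set.Icc 1 T).ncard ≤ T := by
      calc (S ∩ Set.Icc 1 T).ncard ≤ (Set.Icc 1 T).ncard :=
            Set.ncard_le_ncard Set.inter_subset_right (Set.finite_Icc 1 T)
        _ = T := by
            rw [← Finset.coe_Icc, Set.ncard_coe_finset, Nat.card_Icc]
            omega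
    have h3 : ((S ∩ Set.Icc 1 T).ncard : ℝ) ≤ 2 * X := by
      have h4 : (S ∩ Set.Icc 1 T).ncard ≤ 2 * X := by omega
      exact_mod_cast h4
    calc ((S ∩ Set.Icc 1 T).ncard : ℝ) ≤ 2 * X + 16 * C := by linarith
      _ ≤ (2 * X + 16 * C) * (T : ℝ) ^ e := le_mul_of_one_le_right (by positivity) hTe
  · have h2 : T / 2 < T := by omega
    have h3 := ih (T / 2) h2 (by omega)
    have h4 := dnx_block C X1 hC S h (T / 2 + 1) (by omega) (by omega)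
    rw [← he] at h4
    have h5 : (S ∩ Set.Icc 1 T).ncard ≤ (S ∩ Set.Icc 1 (T / 2)).ncard +
        (S ∩ Set.Ico (T / 2 + 1) (2 * (T / 2 + 1))).ncard := by
      refine (Set.ncard_le_ncard ?_ ?_).trans (Set.ncard_union_le _ _)
      · rintro a ⟨ha, ha1, ha2⟩
        rcases le_or_gt a (T / 2) with h6 | h6
        · exact Or.inl ⟨ha, ha1, h6⟩
        · exact Or.inr ⟨ha, by omega, by omega⟩
      · exact ((Set.finite_Icc 1 (T / 2)).inter_of_right S).union ((Set.finite_Ico _ _).inter_of_right S)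
    have h6 : ((T / 2 + 1 : ℕ) : ℝ) ^ e ≤ (T : ℝ) ^ e := by
      refine Real.rpow_le_rpow (by positivity) ?_ he0
      have : T / 2 + 1 ≤ T := by omega
      exact_mod_cast this
    have h7 : ((T / 2 : ℕ) : ℝ) ^ e ≤ 3 / 4 * (T : ℝ) ^ e := by
      calc ((T / 2 : ℕ) : ℝ) ^ e ≤ ((T : ℝ) * 2⁻¹) ^ e := by
            refine Real.rpow_le_rpow (by positivity) ?_ he0
            rw [← div_eq_mul_inv]
            exact_mod_cast Nat.cast_div_le
        _ = (T : ℝ) ^ e * (2⁻¹ : ℝ) ^ e := Real.mul_rpow (by positivity) (by norm_num)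
        _ ≤ (T : ℝ) ^ e * (3 / 4) := by
            refine mul_le_mul_of_nonneg_left ?_ (by positivity)
            calc (2⁻¹ : ℝ) ^ e ≤ (2⁻¹ : ℝ) ^ (1 / 2 : ℝ) :=
                  Real.rpow_le_rpow_of_exponent_ge (by norm_num) (by norm_num) he1
              _ = √(2⁻¹) := by rw [Real.sqrt_eq_rpow]
              _ ≤ 3 / 4 := by
                  rw [Real.sqrt_le_left (by norm_num)]
                  norm_num
        _ = 3 / 4 * (T : ℝ) ^ e := by ring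
    calc ((S ∩ Set.Icc 1 T).ncard : ℝ) ≤ ((S ∩ Set.Icc 1 (T / 2)).ncard : ℝ) +
        ((S ∩ Set.Ico (T / 2 + 1) (2 * (T / 2 + 1))).ncard : ℝ) := by exact_mod_cast h5
      _ ≤ (2 * X + 16 * C) * ((T / 2 : ℕ) : ℝ) ^ e + 4 * C * ((T / 2 + 1 : ℕ) : ℝ) ^ e := add_le_add h3 h4
      _ ≤ (2 * X + 16 * C) * (3 / 4 * (T : ℝ) ^ e) + 4 * C * (T : ℝ) ^ e := by gcongr
      _ ≤ (2 * X + 16 * C) * (T : ℝ) ^ e := by
          have h8 : 0 ≤ (X : ℝ) * (T : ℝ) ^ e := by positivity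
          nlinarith

end Pool.Agent.H97.FB
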