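import Pool.Agent.H97.FB.WGN
import Pool.Agent.H97.FB.DNX

/-! # [H97 FB FIN] The final theorem -/

namespace Pool.Agent.H97.FB

open Finset Polynomial Pool.Agent.H72.ES Pool.Agent.H34.AC

/-- the fibre at `a` is good -/
def GoodF (d C : ℕ) (f : ℤ[X][X]) (a : ℕ) : Prop :=
  Irreducible ((fa f a).map (Int.castRingHom ℚ)) ∧ Eff d C (fa f a) a

theorem Eff.mono {d C C' : ℕ} (hC : C ≤ C') {g : ℤ[X]} {a : ℕ} (ha : 1 ≤ a) (h : Eff d C g a) :
    Eff d C' g a := by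
  intro F h1 h2 h3 H h4 h5 x y h6
  refine (h F h1 h2 h3 H h4 h5 x y h6).trans ?_
  exact Nat.pow_le_pow_right (Nat.mul_pos (by omega) (by omega)) hC

theorem families (n m d : ℕ) (hn : 5 ≤ n) (hm : 1 ≤ m) (hd : 3 ≤ d) : ∃ C : ℕ, 2 ≤ C ∧
    ∀ f : ℤ[X][X], f.natDegree = n → (∀ i, (f.coeff i).natDegree ≤ m) →
      Irreducible (f.map (mapRingHom (Int.castRingHom ℂ))) →
      (∀ B X0 : ℕ, 2 ≤ B → (∀ i j, |(f.coeff i).coeff j| ≤ (B : ℤ)) → B ^ C ≤ X0 →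
        ∃ E : Finset ℕ, E.card ≤ C ∧ ∀ a : ℕ, X0 ≤ a → (a - X0) ^ C ≤ X0 → a ∉ E →
          GoodF d C f a) ∧
      ∃ K : ℝ, ∀ T : ℕ, 1 ≤ T →
        ((Set.Icc 1 T ∩ {a | ¬ GoodF d C f a}).ncard : ℝ) ≤ K * (T : ℝ) ^ (1 - 1 / (C : ℝ)) := by
  obtain ⟨C1, hC1, hw⟩ := window_gen n m d hn hm hd
  refine ⟨C1 + 1, by omega, ?_⟩
  intro f hf hfm hirr
  have key : ∀ B X0 : ℕ, 2 ≤ B → (∀ i j, |(f.coeff i).coeff j| ≤ (B : ℤ)) →
      B ^ (C1 + 1) ≤ X0 → ∃ E : Finset ℕ, E.card ≤ C1 + 1 ∧ ∀ a : ℕ, X0 ≤ a →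
        (a - X0) ^ (C1 + 1) ≤ X0 → a ∉ E → GoodF d (C1 + 1) f a := by
    intro B X0 hB hfB hX
    have hX1 : 1 ≤ X0 := (Nat.one_le_pow _ _ (by omega)).trans hX
    obtain ⟨E, hE, hE2⟩ := hw f B X0 hf hfm hfB hirr hB
      ((Nat.pow_le_pow_right (by omega) (Nat.le_succ _)).trans hX)
    refine ⟨E, by omega, fun a ha1 ha2 ha3 => ?_⟩
    have h4 : (a - X0) ^ C1 ≤ X0 := by
      rcases Nat.eq_zero_or_pos (a - X0) with h | h
      · rw [h, zero_pow (by omega)]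
        omega
      · exact (Nat.pow_le_pow_right h (Nat.le_succ _)).trans ha2
    obtain ⟨h5, h6⟩ := hE2 a ha1 h4 ha3
    exact ⟨h5, h6.mono (Nat.le_succ _) (by omega)⟩
  refine ⟨key, ?_⟩
  -- a bound for the coefficients
  obtain ⟨B, hB2, hB⟩ : ∃ B : ℕ, 2 ≤ B ∧ ∀ i j, |(f.coeff i).coeff j| ≤ (B : ℤ) := by
    refine ⟨2 + ∑ i ∈ range (n + 1), ∑ j ∈ range (m + 1), ((f.coeff i).coeff j).natAbs,
      by omega, fun i j => ?_⟩
    rw [Int.abs_eq_natAbs]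
    by_cases hi : i < n + 1
    · by_cases hj : j < m + 1
      · have h1 : ((f.coeff i).coeff j).natAbs ≤
            ∑ j ∈ range (m + 1), ((f.coeff i).coeff j).natAbs :=
          single_le_sum (f := fun j => ((f.coeff i).coeff j).natAbs)
            (fun _ _ => Nat.zero_le _) (mem_range.2 hj)
        have h2 : ∑ j ∈ range (m + 1), ((f.coeff i).coeff j).natAbs ≤
            ∑ i ∈ range (n + 1), ∑ j ∈ range (m + 1), ((f.coeff i).coeff j).natAbs :=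
          single_le_sum (f := fun i => ∑ j ∈ range (m + 1), ((f.coeff i).coeff j).natAbs)
            (fun _ _ => Nat.zero_le _) (mem_range.2 hi)
        exact_mod_cast (h1.trans h2).trans (by omega)
      · have h1 : (f.coeff i).coeff j = 0 :=
          coeff_eq_zero_of_natDegree_lt (lt_of_le_of_lt (hfm i) (by omega))
        rw [h1]
        exact Int.natCast_nonneg _
    · have h1 : f.coeff i = 0 := coeff_eq_zero_of_natDegree_lt (by omega)
      rw [h1, coeff_zero]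
      exact Int.natCast_nonneg _
  obtain ⟨K, hK⟩ := density_of_windows (C1 + 1) (B ^ (C1 + 1)) (by omega)
    {a | ¬ GoodF d (C1 + 1) f a} (by
      intro X0 hX
      obtain ⟨E, hE, hE2⟩ := key B X0 hB2 hB hX
      exact ⟨E, hE, fun a h1 h2 h3 h4 => h4 (hE2 a h1 h2 h3)⟩)
  refine ⟨K, fun T hT => ?_⟩
  have h1 := hK T hT
  rw [Set.inter_comm] at h1
  exact h1

end Pool.Agent.H97.FB
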