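import Pool.Agent.H97.FB.WIN

/-! # [H97 FB MON] Reduction of a family to a monic family

`f = ∑_(i ≤ n) f_i Z^i`, `l = f_n ≠ 0`; `mo n f = Z^n + ∑_(i < n) f_i l^(n-1-i) Z^i`. RELATION (`mo_rel`): `(mo n f)(l Z) = l^(n-1) f(Z)` as polynomials in `Z` (`l^(n-1-i) l^i = l^(n-1)`, `1 ≤ n`), i.e. `(mo n f).comp (C l * X) = C l^(n-1) * f`; the same after any specialisation of the coefficients.
`mo_deg`: `natDegree (f_i l^(n-1-i)) ≤ m + m (n-1-i) = m (n - i)` for `i < n`; the coefficient of `Z^n` is `1`, higher ones are `0`. `mo_le`: `|coefficients of f_i l^(n-1-i)| ≤ ((m+1) B)^n` (a product of `n - i` polynomials of degree `≤ m` with coefficients `≤ B`, by induction `≤ (m+1)^(k-1) B^k`; use `L1` of `Pool/Agent/H72/ES` if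
convenient: `L1 (p q) ≤ L1 p * L1 q`, `L1 f_i ≤ (m+1) B`).
`mo_irr`: let `f' = f.map (mapRingHom (Int.castRingHom ℂ)) ∈ ℂ[x][Z]` be irreducible, `K = RatFunc ℂ` or `FractionRing ℂ[X]`. `natDegree f' = n ≥ 1`, `f'` irreducible implies primitive, so `f'.map (algebraMap ℂ[X] K)` is irreducible (`Polynomial.IsPrimitive.irreducible_iff_irreducible_map_fraction_map`). Over `K`: `(mo)(l Z) = l^(n-1) f'(Z)`, the
substitution `Z ↦ l Z` is an automorphism of `K[Z]` (`Polynomial.algEquivAevalXAddC`-like; `comp (C l * X)` with the inverse `comp (C l⁻¹ * X)`), so `mo` is irreducible over `K`; `mo` is monic, hence primitive, hence irreducible over `ℂ[X]` (the same theorem, or `Polynomial.Monic.irreducible_iff_irreducible_map_fraction_map`).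
`mo_nz`: `l ∈ ℤ[x]`, `l ≠ 0`, coefficients `≤ B`, `a ≥ B + 1`: `l(a) ≠ 0` (leading term: `|l_s| a^s ≥ a^s > B (1 + .. + a^(s-1))`; or `Polynomial.cauchyBound`/`near` lemmas).
`mo_ing`: for a field `K` of characteristic `0` and `l(a) ≠ 0`: `∃ θ : K, aeval θ (fa f a) = 0 ↔ ∃ θ : K, aeval θ (fa (mo n f) a) = 0` (`θ ↦ l(a) θ`, resp. divide), so `INg (fa f a) F → INg (fa (mo n f) a) F`. `mo_fib`: irreducibility over `ℚ` of `fa (mo n f) a` implies that of `fa f a` (automorphism `Z ↦ l(a) Z` of `ℚ[Z]`, `l(a)^(n-1)` is a unit;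
`natDegree (fa f a) = n`). -/

namespace Pool.Agent.H97.FB

open Finset Polynomial Pool.Agent.H72.ES Pool.Agent.H34.AC

/-- the monic model -/
noncomputable def mo (n : ℕ) (f : ℤ[X][X]) : ℤ[X][X] :=
  X ^ n + ∑ i ∈ range n, C (f.coeff i * f.coeff n ^ (n - 1 - i)) * X ^ i

private theorem mo_dlt (n : ℕ) (f : ℤ[X][X]) :
    (∑ i ∈ range n, C (f.coeff i * f.coeff n ^ (n - 1 - i)) * X ^ i : ℤ[X][X]).degree < n := by
  refine (degree_sum_le _ _).trans_lt ?_
  rw [Finset.sup_lt_iff (by exact_mod_cast WithBot.bot_lt_coe n)]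
  intro i hi
  refine (degree_C_mul_X_pow_le _ _).trans_lt ?_
  exact_mod_cast mem_range.1 hi

theorem mo_monic {n : ℕ} (hn : 1 ≤ n) (f : ℤ[X][X]) :
    (mo n f).Monic ∧ (mo n f).natDegree = n := by
  refine ⟨monic_X_pow_add (mo_dlt n f), ?_⟩
  have h1 : (mo n f).degree = n := by
    unfold mo
    rw [degree_add_eq_left_of_degree_lt, degree_X_pow]
    rw [degree_X_pow]
    exact mo_dlt n f
  exact natDegree_eq_of_degree_eq_some h1

private theorem mo_coeff (n : ℕ) (f : ℤ[X][X]) (i : ℕ) : (mo n f).coeff i =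
    (if i = n then 1 else 0) + (if i < n then f.coeff i * f.coeff n ^ (n - 1 - i) else 0) := by
  unfold mo
  rw [coeff_add, coeff_X_pow, finsetSum_coeff]
  congr 1
  simp only [coeff_C_mul, coeff_X_pow, mul_ite, mul_one, mul_zero]
  rw [Finset.sum_ite_eq]
  simp only [mem_range]

theorem mo_deg {n m : ℕ} (hn : 1 ≤ n) {f : ℤ[X][X]} (hm : ∀ i, (f.coeff i).natDegree ≤ m) (i : ℕ) :
    ((mo n f).coeff i).natDegree ≤ m * (n - i) := by
  rw [mo_coeff]
  by_cases h1 : i = n
  · subst h1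
    simp
  · rw [if_neg h1, zero_add]
    by_cases h2 : i < n
    · rw [if_pos h2]
      refine natDegree_mul_le.trans ?_
      have h3 := natDegree_pow_le (p := f.coeff n) (n := n - 1 - i)
      have h4 : (n - 1 - i) * (f.coeff n).natDegree ≤ (n - 1 - i) * m :=
        Nat.mul_le_mul_left _ (hm n)
      have h5 := hm i
      have h6 : n - i = (n - 1 - i) + 1 := by omega
      rw [h6]
      nlinarith
    · rw [if_neg h2]
      simp

private theorem L1_le_bd {m B : ℕ} {p : ℤ[X]} (hm : p.natDegree ≤ m)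
    (hp : ∀ j, |p.coeff j| ≤ (B : ℤ)) : L1 p ≤ (m + 1) * B := by
  unfold L1
  have h1 : p.support ⊆ range (m + 1) := by
    intro i hi
    rw [mem_range]
    have := le_natDegree_of_mem_supp i hi
    omega
  calc ∑ i ∈ p.support, |((p.coeff i : ℤ) : ℝ)| ≤ ∑ i ∈ range (m + 1), |((p.coeff i : ℤ) : ℝ)| :=
        sum_le_sum_of_subset_of_nonneg h1 fun _ _ _ => abs_nonneg _
    _ ≤ ∑ _i ∈ range (m + 1), (B : ℝ) := sum_le_sum fun i _ => by
        have := hp i
        exact_mod_cast this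
    _ = (m + 1) * B := by
        rw [sum_const, card_range, nsmul_eq_mul]
        push_cast
        ring

theorem mo_le {n m B : ℕ} (hn : 1 ≤ n) (hB : 1 ≤ B) {f : ℤ[X][X]}
    (hm : ∀ i, (f.coeff i).natDegree ≤ m) (hf : ∀ i j, |(f.coeff i).coeff j| ≤ (B : ℤ)) (i j : ℕ) :
    |((mo n f).coeff i).coeff j| ≤ ((((m + 1) * B) ^ n : ℕ) : ℤ) := by
  have hB' : 1 ≤ (m + 1) * B := Nat.one_le_iff_ne_zero.2 (by positivity)
  have hP : 1 ≤ ((m + 1) * B) ^ n := Nat.one_le_pow _ _ hB'
  have hB1 : (1 : ℝ) ≤ ((m : ℝ) + 1) * B := by exact_mod_cast hB'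
  rw [mo_coeff]
  by_cases h1 : i = n
  · subst h1
    rw [if_pos rfl, if_neg (lt_irrefl _), add_zero, coeff_one]
    split_ifs
    · rw [abs_one]
      exact_mod_cast hP
    · rw [abs_zero]
      positivity
  · rw [if_neg h1, zero_add]
    by_cases h2 : i < n
    · rw [if_pos h2]
      have h3 : |((((f.coeff i * f.coeff n ^ (n - 1 - i)).coeff j : ℤ)) : ℝ)| ≤
          (((m : ℝ) + 1) * B) ^ n := by
        refine (coeff_le_L1 _ j).trans ?_
        refine (L1_mul_le _ _).trans ?_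
        have hk : ∀ k : ℕ, L1 (f.coeff n ^ k) ≤ (((m : ℝ) + 1) * B) ^ k := by
          intro k
          induction k with
          | zero => simp [L1_one]
          | succ k ih =>
            rw [pow_succ, pow_succ]
            exact (L1_mul_le _ _).trans (mul_le_mul ih (L1_le_bd (hm n) (hf n)) (L1_nonneg _)
              (by positivity))
        calc L1 (f.coeff i) * L1 (f.coeff n ^ (n - 1 - i))
            ≤ (((m : ℝ) + 1) * B) * (((m : ℝ) + 1) * B) ^ (n - 1 - i) :=
              mul_le_mul (L1_le_bd (hm i) (hf i)) (hk _) (L1_nonneg _) (by positivity)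
          _ = (((m : ℝ) + 1) * B) ^ (n - 1 - i + 1) := by rw [pow_succ]; ring
          _ ≤ (((m : ℝ) + 1) * B) ^ n := pow_le_pow_right₀ hB1 (by omega)
      exact_mod_cast h3
    · rw [if_neg h2]
      simp only [coeff_zero, abs_zero]
      positivity

private theorem mo_rel {n : ℕ} (hn : 1 ≤ n) {f : ℤ[X][X]} (hd : f.natDegree = n) :
    (mo n f).comp (C (f.coeff n) * X) = C (f.coeff n ^ (n - 1)) * f := by
  have h1 : f = ∑ i ∈ range (n + 1), C (f.coeff i) * X ^ i := by
    conv_lhs => rw [f.as_sum_range_C_mul_X_pow, hd]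
  unfold mo
  rw [add_comp, X_pow_comp, Polynomial.sum_comp, mul_pow]
  have hR : C (f.coeff n ^ (n - 1)) * f =
      C (f.coeff n ^ (n - 1)) * (∑ i ∈ range (n + 1), C (f.coeff i) * X ^ i) :=
    congrArg (fun p => C (f.coeff n ^ (n - 1)) * p) h1
  rw [hR, mul_sum, sum_range_succ, add_comm (∑ i ∈ range n, _)]
  congr 1
  · have h2 : n = (n - 1) + 1 := by omega
    have h3 : (C (f.coeff n) : ℤ[X][X]) ^ n = C (f.coeff n ^ (n - 1)) * C (f.coeff n) := by
      conv_lhs => rw [h2, pow_succ, ← C_pow]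
      rw [← h2]
    rw [h3, mul_assoc]
  · refine sum_congr rfl fun i hi => ?_
    have hi' := mem_range.1 hi
    rw [mul_comp, C_comp, X_pow_comp, mul_pow, ← mul_assoc, ← mul_assoc, ← C_pow, ← C_mul, ← C_mul]
    congr 2
    have h3 : n - 1 = (n - 1 - i) + i := by omega
    conv_rhs => rw [h3, pow_add]
    ring

private theorem irr_comp {K : Type*} [Field K] {c : K} (hc : c ≠ 0) (G : K[X]) :
    Irreducible (G.comp (C c * X)) ↔ Irreducible G := by
  haveI : Invertible c := invertibleOfNonzero hc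
  have h1 : algEquivCMulXAddC c (0 : K) G = G.comp (C c * X) := by
    rw [algEquivCMulXAddC_apply, C_0, add_zero, comp_eq_aeval]
  rw [← h1]
  exact MulEquiv.irreducible_iff (algEquivCMulXAddC c (0 : K)).toMulEquiv

private theorem irr_rel {K : Type*} [Field K] {c : K} (hc : c ≠ 0) {G F : K[X]} {k : ℕ}
    (h : G.comp (C c * X) = C (c ^ k) * F) : Irreducible G ↔ Irreducible F := by
  rw [← irr_comp hc G, h]
  exact irreducible_isUnit_mul (isUnit_C.2 (isUnit_iff_ne_zero.2 (pow_ne_zero _ hc)))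

private theorem irr_gen {R : Type*} (K : Type*) [CommRing R] [IsDomain R] [IsGCDMonoid R]
    [IsIntegrallyClosed R] [Field K] [Algebra R K] [IsFractionRing R K] {c : R} (hc : c ≠ 0)
    {G F : R[X]} (hG : G.Monic) (hF : F.natDegree ≠ 0) (hirr : Irreducible F) {k : ℕ}
    (h : G.comp (C c * X) = C (c ^ k) * F) : Irreducible G := by
  have hl2 : algebraMap R K c ≠ 0 := (map_ne_zero_iff _ (IsFractionRing.injective R K)).2 hc
  have hprim : F.IsPrimitive := hirr.isPrimitive hF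
  have h1 : Irreducible (F.map (algebraMap R K)) :=
    (hprim.irreducible_iff_irreducible_map_fraction_map (K := K)).1 hirr
  rw [hG.irreducible_iff_irreducible_map_fraction_map (K := K)]
  have h2 := congrArg (fun p => p.map (algebraMap R K)) h
  simp only [Polynomial.map_mul, map_comp, Polynomial.map_C, map_X] at h2
  rw [map_pow] at h2
  exact (irr_rel hl2 h2).2 h1

private theorem irr_gen2 {R S : Type*} (K : Type*) [CommRing R] [CommRing S] [IsDomain S]
    [IsGCDMonoid S] [IsIntegrallyClosed S] [Field K] [Algebra S K] [IsFractionRing S K]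
    (φ : R →+* S) (hinj : Function.Injective φ) {c : R} (hc : c ≠ 0)
    {G F : R[X]} (hG : G.Monic) (hF : F.natDegree ≠ 0) (hirr : Irreducible (F.map φ)) {k : ℕ}
    (h : G.comp (C c * X) = C (c ^ k) * F) : Irreducible (G.map φ) := by
  have h2 := congrArg (fun p => p.map φ) h
  simp only [Polynomial.map_mul, map_comp, Polynomial.map_C, map_X] at h2
  rw [map_pow] at h2
  refine irr_gen K ((map_ne_zero_iff φ hinj).2 hc) (hG.map φ) ?_ hirr (k := k) ?_
  · rwa [natDegree_map_eq_of_injective hinj]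
  · exact h2

theorem mo_irr {n : ℕ} (hn : 1 ≤ n) {f : ℤ[X][X]} (hd : f.natDegree = n)
    (hirr : Irreducible (f.map (mapRingHom (Int.castRingHom ℂ)))) :
    Irreducible ((mo n f).map (mapRingHom (Int.castRingHom ℂ))) := by
  have hl : f.coeff n ≠ 0 := by
    have : f.leadingCoeff ≠ 0 := by
      rw [Ne, leadingCoeff_eq_zero]
      rintro rfl
      simp at hd
      omega
    rwa [leadingCoeff, hd] at this
  exact irr_gen2 (RatFunc ℂ) _ (map_injective _ (RingHom.injective_int _)) hl (mo_monic hn f).1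
    (by omega) hirr (mo_rel hn hd)

theorem mo_nz {l : ℤ[X]} (hl : l ≠ 0) {B : ℕ} (hB : ∀ j, |l.coeff j| ≤ (B : ℤ)) {a : ℕ}
    (ha : B + 1 ≤ a) : l.eval (a : ℤ) ≠ 0 := by
  intro h0
  set s := l.natDegree with hs
  have h1 : l.eval (a : ℤ) = ∑ i ∈ range s, l.coeff i * (a : ℤ) ^ i + l.coeff s * (a : ℤ) ^ s := by
    rw [eval_eq_sum_range, sum_range_succ]
  have h2 : |∑ i ∈ range s, l.coeff i * (a : ℤ) ^ i| ≤ (a : ℤ) ^ s - 1 := by
    calc |∑ i ∈ range s, l.coeff i * (a : ℤ) ^ i| ≤ ∑ i ∈ range s, |l.coeff i * (a : ℤ) ^ i| :=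
          abs_sum_le_sum_abs _ _
      _ ≤ ∑ i ∈ range s, ((a : ℤ) - 1) * (a : ℤ) ^ i := by
          refine sum_le_sum fun i _ => ?_
          rw [abs_mul, abs_of_nonneg (by positivity : (0 : ℤ) ≤ (a : ℤ) ^ i)]
          refine mul_le_mul_of_nonneg_right ?_ (by positivity)
          have := hB i
          have h3 : ((B : ℤ) + 1) ≤ a := by exact_mod_cast ha
          linarith
      _ = (a : ℤ) ^ s - 1 := by
          rw [← mul_sum, mul_comm]
          exact geom_sum_mul _ _
  have h4 : l.coeff s ≠ 0 := by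
    rw [hs]
    exact leadingCoeff_ne_zero.2 hl
  have h5 : 1 ≤ |l.coeff s| := Int.one_le_abs h4
  have h6 : (a : ℤ) ^ s ≤ |l.coeff s * (a : ℤ) ^ s| := by
    rw [abs_mul, abs_of_nonneg (by positivity : (0 : ℤ) ≤ (a : ℤ) ^ s)]
    exact le_mul_of_one_le_left (by positivity) h5
  have h7 : l.coeff s * (a : ℤ) ^ s = -∑ i ∈ range s, l.coeff i * (a : ℤ) ^ i := by
    linarith [h1, h0]
  rw [h7, abs_neg] at h6
  linarith

private theorem fa_rel {n : ℕ} (hn : 1 ≤ n) {f : ℤ[X][X]} (hd : f.natDegree = n) (a : ℕ) :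
    (fa (mo n f) a).comp (C ((f.coeff n).eval (a : ℤ)) * X) =
      C ((f.coeff n).eval (a : ℤ) ^ (n - 1)) * fa f a := by
  have h2 := congrArg (fun p => p.map (evalRingHom (a : ℤ))) (mo_rel hn hd)
  simp only [Polynomial.map_mul, map_comp, Polynomial.map_C, map_X, map_pow, coe_evalRingHom] at h2
  simpa [fa] using h2

theorem mo_ing {n : ℕ} (hn : 1 ≤ n) {f : ℤ[X][X]} (hd : f.natDegree = n) {a : ℕ}
    (ha : (f.coeff n).eval (a : ℤ) ≠ 0) {F : MvPolynomial (Fin 2) ℤ} (h : INg (fa f a) F) :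
    INg (fa (mo n f) a) F := by
  intro K _ _ hR X' Y' hXY
  rcases h K hR X' Y' hXY with h1 | ⟨θ, hθ⟩
  · exact Or.inl h1
  · refine Or.inr ⟨algebraMap ℤ K ((f.coeff n).eval (a : ℤ)) * θ, ?_⟩
    have h2 := congrArg (fun p => aeval θ p) (fa_rel hn hd a)
    simp only [aeval_comp, map_mul, aeval_C, aeval_X, hθ, mul_zero] at h2
    exact h2

theorem mo_fib {n : ℕ} (hn : 1 ≤ n) {f : ℤ[X][X]} (hd : f.natDegree = n) {a : ℕ}
    (ha : (f.coeff n).eval (a : ℤ) ≠ 0)
    (h : Irreducible ((fa (mo n f) a).map (Int.castRingHom ℚ))) :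
    Irreducible ((fa f a).map (Int.castRingHom ℚ)) := by
  have hl : (Int.castRingHom ℚ) ((f.coeff n).eval (a : ℤ)) ≠ 0 := by
    rw [eq_intCast]
    exact_mod_cast ha
  have h2 := congrArg (fun p => p.map (Int.castRingHom ℚ)) (fa_rel hn hd a)
  simp only [Polynomial.map_mul, map_comp, Polynomial.map_C, map_X] at h2
  rw [map_pow] at h2
  exact (irr_rel hl h2).1 h

end Pool.Agent.H97.FB
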