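import Pool.Agent.H97.FB.AND
import Pool.Agent.H97.XC.Disc
import Pool.Agent.H87.SA2.PDE

/-! # [H97 FB AN0] Two branches differ in a coefficient of small index

`pd_sqf`: `F` monic, `F.map (tq e q) = ∏ (X - C (x i))` with different `x i`, `tq e q` injective (`tq_injective` in
`Pool/Agent/H87/SA2/PDE.lean`), so `F` is squarefree: over `L = FractionRing (PowerSeries ℂ)` the product is separable
(`Polynomial.separable_prod_X_sub_C_iff`), so squarefree (`Separable.squarefree`); if `a * a ∣ F` then `a` divides a monic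
polynomial, its leading coefficient is a unit of `ℤ[X]`; its image in `L[X]` is a unit, so `natDegree a = 0`
(`natDegree_map_eq_of_injective`), `a = C c` with `c` a unit (leading coefficient).
`s0_pd`: `disc_bd` (`Pool/Agent/H97/XC/Disc.lean`; `Bd F m B` needs a bound `B` of the coefficients: take any, e.g. the sum of
all `natAbs` of the coefficients plus one) gives `u F + v F' = C c`, `c ≠ 0`, `natDegree c ≤ 2 d m`. Let `i ≠ j` agree up to
`s := e (2 d m)`: `X^(s+1) ∣ x i - x j` (`PowerSeries.X_pow_dvd_iff`). Apply `eval₂ (tq e q) (x i)`: `F` vanishes,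
`F'` is `∏_(k ≠ i) (x i - x k)` (`derivative_prod`, `Polynomial.eval_derivative..`, or: `derivative (∏ (X - C x_k))` evaluated at
`x i`), divisible by `x i - x j`. So `X^(s+1) ∣ tq e q c`. But `tq e q c = ∑ c_l q^(e l) X^(e l)` (`tq_coeff`) has a
nonzero coefficient at the index `e l ≤ s` (`l` = any index with `c_l ≠ 0`, e.g. `natDegree c`): contradiction
(`X_pow_dvd_iff`). -/

namespace Pool.Agent.H97.FB

open Finset Polynomial Pool.Agent.H72.ES Pool.Agent.H87.SA2

variable {d m : ℕ} {F : ℤ[X][X]}

theorem pd_sqf (pd : PData F d) (hF : F.Monic) : Squarefree F := by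
  classical
  let L := FractionRing (PowerSeries ℂ)
  have hinjL : Function.Injective (algebraMap (PowerSeries ℂ) L) := IsFractionRing.injective _ L
  have hinj : Function.Injective ((algebraMap (PowerSeries ℂ) L).comp (tq pd.e pd.q)) :=
    hinjL.comp (tq_injective pd.e_pos pd.q_pos)
  have h1 : F.map ((algebraMap (PowerSeries ℂ) L).comp (tq pd.e pd.q)) =
      ∏ i, (X - C (algebraMap (PowerSeries ℂ) L (pd.x i))) := by
    rw [← Polynomial.map_map, pd.split, Polynomial.map_prod]
    refine Finset.prod_congr rfl fun i _ => ?_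
    rw [Polynomial.map_sub, map_X, map_C]
  have h2 : Squarefree (F.map ((algebraMap (PowerSeries ℂ) L).comp (tq pd.e pd.q))) := by
    rw [h1]
    exact (separable_prod_X_sub_C_iff.2 (hinjL.comp pd.x_inj)).squarefree
  intro a ha
  obtain ⟨b, hb⟩ := ha
  have h3 : IsUnit (a.map ((algebraMap (PowerSeries ℂ) L).comp (tq pd.e pd.q))) := by
    apply h2
    refine ⟨b.map ((algebraMap (PowerSeries ℂ) L).comp (tq pd.e pd.q)), ?_⟩
    have h8 := congrArg (Polynomial.map ((algebraMap (PowerSeries ℂ) L).comp (tq pd.e pd.q))) hb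
    rwa [Polynomial.map_mul, Polynomial.map_mul] at h8
  have h4 : a.natDegree = 0 := by
    rw [← natDegree_map_eq_of_injective hinj a]
    exact natDegree_eq_zero_of_isUnit h3
  have h5 : a = C (a.coeff 0) := eq_C_of_natDegree_eq_zero h4
  have h6 : IsUnit a.leadingCoeff := by
    have h7 : a.leadingCoeff * (a.leadingCoeff * b.leadingCoeff) = 1 := by
      rw [← hF.leadingCoeff, hb, leadingCoeff_mul, leadingCoeff_mul, mul_assoc]
    exact IsUnit.of_mul_eq_one _ h7
  have h7 : a.leadingCoeff = a.coeff 0 := by rw [leadingCoeff, h4]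
  rw [h5]
  rw [h7] at h6
  exact h6.map C

theorem s0_pd (pd : PData F d) (hF : F.Monic) (hd : F.natDegree = d) (hd1 : 1 ≤ d)
    (hm : ∀ j, (F.coeff j).natDegree ≤ m) (i j : Fin d)
    (h : ∀ k ≤ pd.e * (2 * d * m), PowerSeries.coeff k (pd.x i) = PowerSeries.coeff k (pd.x j)) :
    i = j := by
  classical
  -- a bound of the coefficients
  obtain ⟨B, hB1, hB⟩ : ∃ B : ℕ, 1 ≤ B ∧ Pool.Agent.H97.XC.Bd F m B := by
    refine ⟨1 + ∑ j ∈ range (F.natDegree + 1), ∑ k ∈ range (m + 1), ((F.coeff j).coeff k).natAbs, by omega, ?_⟩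
    refine ⟨hm, fun j k => ?_⟩
    by_cases hj : j ∈ range (F.natDegree + 1)
    · by_cases hk : k ∈ range (m + 1)
      · have h1 : ((F.coeff j).coeff k).natAbs ≤ ∑ k ∈ range (m + 1), ((F.coeff j).coeff k).natAbs :=
          Finset.single_le_sum (f := fun k => ((F.coeff j).coeff k).natAbs) (fun _ _ => Nat.zero_le _) hk
        have h2 : ∑ k ∈ range (m + 1), ((F.coeff j).coeff k).natAbs ≤
            ∑ j ∈ range (F.natDegree + 1), ∑ k ∈ range (m + 1), ((F.coeff j).coeff k).natAbs :=
          Finset.single_le_sum (f := fun j => ∑ k ∈ range (m + 1), ((F.coeff j).coeff k).natAbs)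
            (fun _ _ => Nat.zero_le _) hj
        rw [Int.abs_eq_natAbs]
        exact_mod_cast (by omega : ((F.coeff j).coeff k).natAbs ≤
          1 + ∑ j ∈ range (F.natDegree + 1), ∑ k ∈ range (m + 1), ((F.coeff j).coeff k).natAbs)
      · rw [Finset.mem_range] at hk
        have := hm j
        rw [coeff_eq_zero_of_natDegree_lt (by omega), abs_zero]
        exact Int.natCast_nonneg _
    · rw [Finset.mem_range] at hj
      have h8 : F.coeff j = 0 := coeff_eq_zero_of_natDegree_lt (by omega)
      rw [h8, coeff_zero, abs_zero]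
      exact Int.natCast_nonneg _
  obtain ⟨a, b, c, hc, hbez, hcd, _⟩ := Pool.Agent.H97.XC.disc_bd hF hd hd1 hB hB1 (pd_sqf pd hF)
  by_contra hij
  -- the value of the derivative
  have hroot : (F.map (tq pd.e pd.q)).eval (pd.x i) = 0 := by
    rw [pd.split, eval_prod]
    exact Finset.prod_eq_zero (Finset.mem_univ i) (by simp)
  have hder : (pd.x i - pd.x j) ∣ (derivative (F.map (tq pd.e pd.q))).eval (pd.x i) := by
    have h2 : F.map (tq pd.e pd.q) = (X - C (pd.x i)) * ((X - C (pd.x j)) *
        ∏ k ∈ (Finset.univ.erase i).erase j, (X - C (pd.x k))) := by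
      rw [pd.split, ← Finset.mul_prod_erase Finset.univ _ (Finset.mem_univ i),
        ← Finset.mul_prod_erase (Finset.univ.erase i) _
          (Finset.mem_erase.mpr ⟨fun h => hij h.symm, Finset.mem_univ j⟩)]
    have h9 : (derivative (F.map (tq pd.e pd.q))).eval (pd.x i) = (pd.x i - pd.x j) *
        (∏ k ∈ (Finset.univ.erase i).erase j, (X - C (pd.x k))).eval (pd.x i) := by
      rw [h2]
      simp [derivative_mul]
    rw [h9]
    exact dvd_mul_right _ _
  have hX : (PowerSeries.X : PowerSeries ℂ) ^ (pd.e * (2 * d * m) + 1) ∣ pd.x i - pd.x j := by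
    rw [PowerSeries.X_pow_dvd_iff]
    intro k hk
    rw [map_sub, h k (by omega), sub_self]
  have hval : tq pd.e pd.q c = (b.map (tq pd.e pd.q)).eval (pd.x i) * (derivative (F.map (tq pd.e pd.q))).eval (pd.x i) := by
    have h1 := congrArg (fun p => (p.map (tq pd.e pd.q)).eval (pd.x i)) hbez
    simp only [Polynomial.map_add, Polynomial.map_mul, map_C, eval_add, eval_mul, eval_C,
      ← derivative_map, hroot, mul_zero, zero_add] at h1
    exact h1.symm
  have hdvd : (PowerSeries.X : PowerSeries ℂ) ^ (pd.e * (2 * d * m) + 1) ∣ tq pd.e pd.q c := by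
    rw [hval]
    exact (hX.trans hder).mul_left _
  rw [PowerSeries.X_pow_dvd_iff] at hdvd
  have h3 := hdvd (pd.e * c.natDegree) (by
    have := Nat.mul_le_mul_left pd.e hcd
    omega)
  rw [tq_coeff _ _ pd.e_pos] at h3
  rcases mul_eq_zero.1 h3 with h4 | h4
  · have h5 := pd.q_pos
    exact absurd h4 (pow_ne_zero _ (by exact_mod_cast (by omega : pd.q ≠ 0)))
  · have h5 : c.coeff c.natDegree = 0 := by exact_mod_cast h4
    exact hc (leadingCoeff_eq_zero.1 h5)

end Pool.Agent.H97.FB
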