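import Pool.Agent.H87.AX.Defs
import Pool.Agent.H87.SA2.ANCHR

/-! # [H97 FB ANE] Existence of the anchor (copy of `H87/AX/EA.lean`, with the separation of the twists) -/

namespace Pool.Agent.H97.FB

open Finset Polynomial NumberField Pool.Agent.H72.ES Pool.Agent.H8.KF Pool.Agent.H87.SA
  Pool.Agent.H97.GA Pool.Agent.H87.SA2 Pool.Agent.H87.AX

variable {f : ℤ[X][X]} {d m N : ℕ} {pd : PData f d} {X0 : ℝ}

theorem exists_anchX' (H : RHyp f d m pd N X0) {s0 : ℕ}
    (hs0 : ∀ i j, (∀ k ≤ s0, PowerSeries.coeff k (pd.x i) = PowerSeries.coeff k (pd.x j)) → i = j)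
    (hXw : ((d * d.factorial + 1 : ℕ) : ℝ) ≤ X0)
    (hXs : ((s0 * d.factorial + s0 + 1 : ℕ) : ℝ) ≤ X0) :
    ∃ (k : Type) (_ : Field k) (_ : NumberField k) (w la : ℕ) (T : TwR pd m N X0 w la s0 k)
      (Dl : ℕ) (an : AnchX (Module.finrank ℚ k) Dl (kapR d m pd.e) pd.e (MR pd N) X0 pd.R)
      (q : an.I ≃ (k →+* ℂ)), 1 ≤ Module.finrank ℚ k ∧ Module.finrank ℚ k ≤ Dl ∧
      Dl ≤ pd.e * d.factorial ∧ (w : ℝ) + 1 ≤ X0 ∧
      (∀ τ : Equiv.Perm (Fin d), zG pd m N X0 w la s0 τ = zG pd m N X0 w la s0 1 → τ = 1) ∧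
      (∀ i j, PowerSeries.coeff j (an.zs i) = (X0 : ℂ) ^ j * q i (T.ζ j)) ∧
      q an.i0 = Complex.ofRealHom.comp T.ι := by
  classical
  have hR := pd.R_ge
  have hX1 := H.X1
  have hbig := H.big
  have hN1N := H.N1
  have hN1 : (1 : ℝ) ≤ N := by exact_mod_cast H.N1
  have he := pd.e_pos
  have hd1 := H.d1
  have hX0 : (0 : ℝ) < X0 := by linarith
  have hX2 : (2 : ℝ) ≤ X0 := by linarith
  have hX0C := X0_ne H
  have hfac : 1 ≤ d.factorial := Nat.factorial_pos d
  set M : ℕ := MR pd N with hM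
  have hpow : X0 ^ pd.e = (M : ℝ) := H.pow
  have hM1 : 1 ≤ M := by
    have : (1 : ℝ) ≤ M := by
      rw [← hpow]
      exact one_le_pow₀ hX1
    exact_mod_cast this
  have hNX : (N : ℝ) ≤ X0 ^ pd.e := by
    rw [H.pow]
    exact_mod_cast Nat.le_mul_of_pos_left _ (Nat.pos_of_ne_zero (by
      have := pd.q_pos
      positivity))
  have hXκ : (1 : ℝ) ≤ X0 ^ kapR d m pd.e := one_le_pow₀ hX1
  -- weights
  obtain ⟨w, hw, hwsep⟩ := exists_weightR pd.x hs0 (y_injR H)
  have hwX : (w : ℝ) + 1 ≤ X0 := by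
    refine le_trans ?_ hXw
    exact_mod_cast Nat.succ_le_succ hw
  have hdX : (d : ℝ) ≤ X0 := by
    refine le_trans ?_ hXw
    have : d ≤ d * d.factorial + 1 := (Nat.le_mul_of_pos_right _ hfac).trans (Nat.le_succ _)
    exact_mod_cast this
  obtain ⟨la, hla, hlasep⟩ := exists_lam s0
    (fun l τ => (M : ℂ) ^ l * zC pd m N X0 w τ l) (by
      intro τ hτ
      refine hwsep τ fun k hk => ?_
      have h1 := hτ k hk
      have hMC : (M : ℂ) ≠ 0 := by exact_mod_cast (by omega : M ≠ 0)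
      have h2 := mul_left_cancel₀ (pow_ne_zero k hMC) h1
      have h3 := congrArg (fun z => (X0 : ℂ) ^ k * z) h2
      simp only [zC_val H] at h3
      exact h3)
  have hsep : ∀ τ : Equiv.Perm (Fin d),
      zG pd m N X0 w la s0 τ = zG pd m N X0 w la s0 1 → τ = 1 := by
    intro τ h
    refine hlasep τ ?_
    unfold zG at h
    rw [← hM] at h
    exact h
  obtain ⟨k, ik, ink, ⟨T⟩⟩ := exists_twR H hsep
  set D := Module.finrank ℚ k with hD
  have hD1 : 1 ≤ D := Module.finrank_pos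
  have hDd : D ≤ d.factorial := T.fr
  obtain ⟨F, iF, iFn, iA, ι', x0, hι', hx0, hF1, hF2⟩ := exists_ext T.ι he hpow
  set Dl := Module.finrank ℚ F with hDl
  have hDlD : Dl ≤ pd.e * d.factorial := hF1.trans (Nat.mul_le_mul_left _ hDd)
  have hx0pow : (x0 : F) ^ pd.e = (M : F) := by
    apply ι'.injective
    rw [map_pow, hx0, hpow, map_natCast]
  have hx00 : (x0 : F) ≠ 0 := by
    intro h
    rw [h, map_zero] at hx0
    linarith
  -- embeddings of `F`
  have hσx0 : ∀ σ : F →+* ℂ, ‖σ (x0 : F)‖ = X0 := by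
    intro σ
    have h1 : ‖σ (x0 : F)‖ ^ pd.e = X0 ^ pd.e := by
      rw [← norm_pow, ← map_pow, hx0pow, map_natCast, Complex.norm_natCast, hpow]
    exact (pow_left_inj₀ (norm_nonneg _) hX0.le (by omega)).1 h1
  have hσζ : ∀ σ : k →+* ℂ, ∀ j, X0 ^ j * ‖σ (T.ζ j)‖ ≤ X0 ^ kapR d m pd.e * pd.R ^ j := by
    intro σ j
    obtain ⟨τ, hτ⟩ := T.hσ σ
    rw [hτ j]
    exact zC_le H hwX hdX τ j
  -- embeddings of `k` are determined by the coefficients
  have hζinj : ∀ σ τ : k →+* ℂ, (∀ j, σ (T.ζ j) = τ (T.ζ j)) → σ = τ := by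
    intro σ τ hστ
    have h1 : σ (T.z : k) = τ (T.z : k) := by
      rw [T.hz, map_sum, map_sum]
      refine sum_congr rfl fun l _ => ?_
      rw [map_mul, map_mul, map_mul, map_mul, map_pow, map_pow, map_pow, map_pow,
        map_natCast, map_natCast, map_natCast, map_natCast, hστ]
    have h2 : σ.toRatAlgHom = τ.toRatAlgHom := by
      apply (Field.primitive_element_iff_algHom_eq_of_eval ℚ ℂ
        (fun _ => IsAlgClosed.splits _) (T.z : k) σ.toRatAlgHom).1 T.top
      exact h1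
    refine RingHom.ext fun x => ?_
    exact congrArg (fun φ : k →ₐ[ℚ] ℂ => φ x) h2
  -- the power series
  have hint : ∀ j, IsIntegral ℤ ((x0 : F) ^ j * algebraMap k F (T.ζ j)) := by
    intro j
    have h1 : IsIntegral ℤ ((Complex.ofRealHom.comp ι') ((x0 : F) ^ j * algebraMap k F (T.ζ j))) := by
      have h2 : (Complex.ofRealHom.comp ι') ((x0 : F) ^ j * algebraMap k F (T.ζ j)) =
          (X0 : ℂ) ^ j * zC pd m N X0 w 1 j := by
        rw [← T.hι j, ← hι', map_mul, map_pow, RingHom.comp_apply, RingHom.comp_apply, hx0]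
        rfl
      rw [h2]
      exact zC_int H w 1 j
    exact (isIntegral_algHom_iff ((Complex.ofRealHom.comp ι').toIntAlgHom)
      (Complex.ofRealHom.comp ι').injective).1 h1
  let Z : PowerSeries (𝓞 F) := PowerSeries.mk fun j => ⟨_, hint j⟩
  have hZ : ∀ j, ((PowerSeries.coeff j Z : 𝓞 F) : F) =
      (x0 : F) ^ j * algebraMap k F (T.ζ j) := by
    intro j
    change ((PowerSeries.coeff j (PowerSeries.mk fun j => (⟨_, hint j⟩ : 𝓞 F)) : 𝓞 F) : F) = _
    rw [PowerSeries.coeff_mk]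
    rfl
  have hZle : ∀ j, house ((PowerSeries.coeff j Z : 𝓞 F) : F) ≤
      X0 ^ kapR d m pd.e * pd.R ^ j := by
    intro j
    refine house_le_of (by positivity) fun σ => ?_
    rw [hZ, map_mul, map_pow, norm_mul, norm_pow, hσx0]
    exact hσζ (σ.comp (algebraMap k F)) j
  let ψ : 𝓞 F →+* ℝ := ι'.comp (algebraMap (𝓞 F) F)
  have hψ : ∀ a : 𝓞 F, ψ a = ι' (a : F) := fun a => rfl
  have hh0 : (0 : ℝ) ≤ 1 / X0 := by positivity
  -- the Taylor expansion
  have hZmap : (Z.map ψ).map Complex.ofRealHom =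
      ∑ i, PowerSeries.C (wv d w (yR pd m N X0 i)) * pd.x i := by
    ext j
    rw [PowerSeries.coeff_map, PowerSeries.coeff_map, hψ, hZ, map_mul, map_pow, hx0, hι', map_sum]
    have h1 : Complex.ofRealHom (X0 ^ j * T.ι (T.ζ j)) = (X0 : ℂ) ^ j * zC pd m N X0 w 1 j := by
      rw [← T.hι j]
      simp
    rw [h1, zC_val H]
    refine sum_congr rfl fun i _ => ?_
    rw [PowerSeries.coeff_C_mul]
    rfl
  have htay : PowerSeries.C ((N : ℂ) ^ m) * PowerSeries.rescale (((1 / X0 : ℝ)) : ℂ)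
      ((tay (1 / X0) (Z.map ψ)).map Complex.ofRealHom) =
      ∑ i, PowerSeries.C (wv d w (yR pd m N X0 i)) * WR pd m N X0 i := by
    rw [← tayC_ofReal, hZmap, tayC_sumC hh0 _ _ _ (fun i _ => cvC_R H i), map_sum, mul_sum]
    refine sum_congr rfl fun i _ => ?_
    unfold WR
    rw [map_mul]
    have h1 : PowerSeries.rescale (((1 / X0 : ℝ)) : ℂ)
        (PowerSeries.C (wv d w (yR pd m N X0 i))) = PowerSeries.C (wv d w (yR pd m N X0 i)) := by
      ext l
      rw [PowerSeries.coeff_rescale, PowerSeries.coeff_C]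
      split_ifs with hl
      · rw [hl, pow_zero, one_mul]
      · rw [mul_zero]
    rw [h1]
    ring
  obtain ⟨Δ, hΔ1, hΔle, hdn⟩ := dn_R H
  have hYX : 4 * pd.R * (N : ℝ) ^ m ≤ X0 ^ (pd.e * m + 1) := by
    calc 4 * pd.R * (N : ℝ) ^ m ≤ X0 * (X0 ^ pd.e) ^ m := by
          refine mul_le_mul (by linarith) (pow_le_pow_left₀ (by linarith) hNX m) (by positivity)
            (by positivity)
      _ = X0 ^ (pd.e * m + 1) := by rw [← pow_mul, pow_succ]; ring
  have hem : pd.e * m + 1 ≤ pd.e * (m + 1) := by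
    rw [mul_add, mul_one]
    omega
  have hd2 : 1 ≤ d ^ 2 := Nat.one_le_pow _ _ hd1
  let an : AnchX D Dl (kapR d m pd.e) pd.e M X0 pd.R :=
    { E := 𝓞 F
      ψ := ψ
      ν := fun a => house (a : F)
      sub := house_subMul F
      ψ_le := fun a => abs_le_house ι' _
      liou := fun a ha => house_liou ι' a ha
      x0 := x0
      ψ_x0 := hx0
      ν_x0 := by
        intro r hr
        refine house_le_of (by positivity) fun σ => ?_
        have h2 : ((x0 ^ r : 𝓞 F) : F) = (x0 : F) ^ r := by push_cast; ring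
        rw [h2, map_pow, norm_pow, hσx0]
        refine pow_le_pow_right₀ hX1 ?_
        unfold kapR
        calc r ≤ pd.e * (m + 1) := by nlinarith
          _ ≤ 10 * d ^ 2 * (pd.e * (m + 1)) := Nat.le_mul_of_pos_left _ (by positivity)
      Z := Z
      Z_le := hZle
      indep := by
        intro J c h
        exact indepR he hM1 x0 hx0pow T.ζ Z hZ hζinj J c h
      ce := (N : ℤ) ^ m
      Δ := Δ
      ce_pos := one_le_pow₀ (by exact_mod_cast hN1N)
      Δ_pos := hΔ1
      ce_le := by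
        push_cast
        refine (pow_le_pow_left₀ (by positivity) hNX m).trans ?_
        rw [← pow_mul]
        refine pow_le_pow_right₀ hX1 ?_
        unfold kapR
        calc pd.e * m ≤ pd.e * (m + 1) := Nat.mul_le_mul_left _ (by omega)
          _ ≤ 10 * d ^ 2 * (pd.e * (m + 1)) := Nat.le_mul_of_pos_left _ (by positivity)
      Δ_le := by
        refine hΔle.trans ((pow_le_pow_left₀ (by positivity) hYX _).trans ?_)
        rw [← pow_mul]
        refine pow_le_pow_right₀ hX1 ?_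
        unfold kapR
        calc (pd.e * m + 1) * (2 * d ^ 2) ≤ (pd.e * (m + 1)) * (2 * d ^ 2) :=
              Nat.mul_le_mul_right _ hem
          _ ≤ (pd.e * (m + 1)) * (10 * d ^ 2) := Nat.mul_le_mul_left _ (by omega)
          _ = 10 * d ^ 2 * (pd.e * (m + 1)) := by ring
      dn := by
        intro j
        obtain ⟨v, hv⟩ := hdn w j
        refine ⟨v, ?_⟩
        have h1 := congrArg (PowerSeries.coeff j) htay
        rw [PowerSeries.coeff_C_mul, PowerSeries.coeff_rescale, PowerSeries.coeff_map,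
          map_sum] at h1
        simp only [PowerSeries.coeff_C_mul] at h1
        rw [← h1] at hv
        have h2 : ((v : ℝ) : ℂ) = (((((N : ℤ) ^ m : ℤ) : ℝ) * (Δ : ℝ) ^ j *
            ((1 / X0) ^ j * PowerSeries.coeff j (tay (1 / X0) (Z.map ψ))) : ℝ) : ℂ) := by
          push_cast
          rw [hv, Complex.ofRealHom_eq_coe]
          push_cast
          ring
        exact_mod_cast h2
      I := k →+* ℂ
      zs := fun σ => PowerSeries.mk fun j => (X0 : ℂ) ^ j * σ (T.ζ j)
      i0 := Complex.ofRealHom.comp T.ι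
      zs_i0 := by
        ext j
        rw [PowerSeries.coeff_mk, PowerSeries.coeff_map, PowerSeries.coeff_map, hψ, hZ, map_mul,
          map_pow, hx0, hι', map_mul, map_pow]
        rfl
      zs_inj := by
        intro σ τ h
        refine hζinj σ τ fun j => ?_
        have h1 := congrArg (PowerSeries.coeff j) h
        rw [PowerSeries.coeff_mk, PowerSeries.coeff_mk] at h1
        exact mul_left_cancel₀ (pow_ne_zero j hX0C) h1
      zs_int := by
        intro σ j
        obtain ⟨τ, hτ⟩ := T.hσ σ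
        rw [PowerSeries.coeff_mk, hτ]
        exact zC_int H w τ j
      zs_le := by
        intro σ j
        rw [PowerSeries.coeff_mk, norm_mul, norm_pow, Complex.norm_real, Real.norm_eq_abs,
          abs_of_pos hX0]
        exact hσζ σ j }
  exact ⟨k, ik, ink, w, la, T, Dl, an, Equiv.refl _, hD1, hF2, hDlD, hwX, hsep,
    fun (i : k →+* ℂ) j => PowerSeries.coeff_mk j (fun j => (X0 : ℂ) ^ j * i (T.ζ j)), rfl⟩

end Pool.Agent.H97.FB
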