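import Pool.Agent.H87.SA2.ANCHR

/-! # [H97 FB ANK] The weights are algebraic integers with small conjugates

Let `z = wv d w (yR l)`, an algebraic integer (see the proof of `zC_int` in `Pool/Agent/H87/SA2/TWR.lean`); take
`g := minpoly ℤ z`, monic, `aeval z g = 0`. Every complex root `z'` of `g` is `wv d w (yR j)` for some `j`: `z`, `z'` are
algebraic and have the same minimal polynomial over `ℚ` (`minpoly.isIntegrallyClosed_eq_field_fractions'`), so there is a
ring homomorphism `σ : AA →+* ℂ` with `σ z = z'` (`AA = algebraicClosure ℚ ℂ`; e.g. `IsConjRoot`,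
`isConjRoot_iff_exists_algEquiv` in the normal extension `AA/ℚ`, or `IntermediateField.exists_algHom_adjoin_of_splits` /
`IsAlgClosed.lift` applied to `ℚ(z) → ℂ`, `z ↦ z'`; `extA`, `galA_mem` in `Pool/Agent/H87/SA2/GALA.lean` show how this is
done there); by `perm_R H σ` `σ (yR l) = yR (π l)`, and `σ (wv d w y) = wv d w (σ y)` (`map_wv`).
So `‖z'‖ ≤ d ((w+1) Y)^d` with `‖yR j‖ ≤ Y = 2 R N^m` (`y_leR`, `wv_leR`), which is at most `X0^(kapR d m e)`: these are the
lines `hY1`, `hY2`, `h2` of the proof of `zC_le` in `Pool/Agent/H87/SA2/ANCHR.lean`.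
Degree: `g` mapped to `ℂ` is separable (irreducible over `ℚ`, `minpoly.irreducible`, `Irreducible.separable`), so it has
`natDegree g` different roots, all among the `d` numbers `wv d w (yR j)`: `natDegree g ≤ d`. -/

namespace Pool.Agent.H97.FB

open Finset Polynomial NumberField Pool.Agent.H72.ES Pool.Agent.H87.SA Pool.Agent.H87.SA2
  Pool.Agent.H97.GA

variable {f : ℤ[X][X]} {d m N : ℕ} {pd : PData f d} {X0 : ℝ}

theorem exists_gw (H : RHyp f d m pd N X0) {w : ℕ} (hw : (w : ℝ) + 1 ≤ X0) (hd : (d : ℝ) ≤ X0)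
    (l : Fin d) : ∃ g : ℤ[X], g.Monic ∧ g.natDegree ≤ d ∧
      aeval (wv d w (yR pd m N X0 l)) g = 0 ∧
      ∀ z : ℂ, aeval z g = 0 → ‖z‖ ≤ X0 ^ kapR d m pd.e := by
  classical
  have hZ : IsIntegral ℤ (wv d w (yR pd m N X0 l)) := by
    unfold wv
    refine IsIntegral.sum _ fun l _ => ?_
    have hw : IsIntegral ℤ (w : ℂ) := by
      have := isIntegral_algebraMap (R := ℤ) (A := ℂ) (x := (w : ℤ))
      simpa using this
    exact IsIntegral.mul (hw.pow l) ((y_alg H _).pow l)
  obtain ⟨z, hz⟩ : ∃ z, z = wv d w (yR pd m N X0 l) := ⟨_, rfl⟩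
  rw [← hz] at hZ ⊢
  obtain ⟨a, ha⟩ : ∃ a : AA, a = wv d w (yA H l) := ⟨_, rfl⟩
  have haz : algebraMap AA ℂ a = z := by
    rw [ha, map_wv, hz]
    rfl
  have hmin : minpoly ℚ a = minpoly ℚ z := by
    rw [← haz]
    exact (minpoly.algebraMap_eq (algebraMap AA ℂ).injective a).symm
  have hfr : minpoly ℚ z = (minpoly ℤ z).map (algebraMap ℤ ℚ) :=
    minpoly.isIntegrallyClosed_eq_field_fractions' ℚ hZ
  -- every root is one of the numbers
  have hroot : ∀ z' : ℂ, aeval z' (minpoly ℚ z) = 0 → ∃ j, z' = wv d w (yR pd m N X0 j) := by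
    intro z' hz'
    rw [← hmin] at hz'
    obtain ⟨φ, hφ⟩ := IntermediateField.exists_algHom_of_splits_of_aeval (F := ℚ)
      (E := AA) (K := ℂ) (fun x => ⟨algC_int x, IsAlgClosed.splits _⟩) hz'
    obtain ⟨π0, π, _, h1⟩ := perm_R H (φ : AA →+* ℂ)
    refine ⟨π l, ?_⟩
    have h2 := h1 l (yA H l) rfl
    have h3 : (φ : AA →+* ℂ) a = wv d w (yR pd m N X0 (π l)) := by
      rw [ha, map_wv, h2]
    rw [← hφ]
    exact h3
  have hrootZ : ∀ z' : ℂ, aeval z' (minpoly ℤ z) = 0 → ∃ j, z' = wv d w (yR pd m N X0 j) := by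
    intro z' hz'
    apply hroot
    rw [hfr, aeval_map_algebraMap]
    exact hz'
  refine ⟨minpoly ℤ z, minpoly.monic hZ, ?_, minpoly.aeval ℤ z, ?_⟩
  · have hQ : IsIntegral ℚ z := hZ.tower_top
    have h1 : (minpoly ℤ z).natDegree = (minpoly ℚ z).natDegree := by
      rw [hfr, (minpoly.monic hZ).natDegree_map]
    have h2 : (minpoly ℚ z).Separable := (minpoly.irreducible hQ).separable
    have h3 := card_rootSet_eq_natDegree (K := ℂ) h2 (IsAlgClosed.splits _)
    rw [h1, ← h3]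
    have : Nonempty (Fin d) := ⟨l⟩
    choose! j hj using hroot
    have h4 : Fintype.card ((minpoly ℚ z).rootSet ℂ) ≤ Fintype.card (Fin d) := by
      apply Fintype.card_le_of_injective (fun x => j x.1)
      intro x y hxy
      apply Subtype.ext
      have hx := hj x.1 ((mem_rootSet.1 x.2).2)
      have hy := hj y.1 ((mem_rootSet.1 y.2).2)
      simp only at hxy
      rw [hx, hy, hxy]
    rwa [Fintype.card_fin] at h4
  · intro z' hz'
    obtain ⟨j, rfl⟩ := hrootZ z' hz'
    have hR := pd.R_ge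
    have hX1 := H.X1
    have hbig := H.big
    have hN1 : (1 : ℝ) ≤ N := by exact_mod_cast H.N1
    have he := pd.e_pos
    have hd1 := H.d1
    have hX0 : (0 : ℝ) < X0 := by linarith
    have hNX : (N : ℝ) ≤ X0 ^ pd.e := by
      rw [H.pow]
      exact_mod_cast Nat.le_mul_of_pos_left _ (Nat.pos_of_ne_zero (by
        have := pd.q_pos
        positivity))
    have hY1 : (1 : ℝ) ≤ 2 * pd.R * (N : ℝ) ^ m :=
      one_le_mul_of_one_le_of_one_le (by linarith) (one_le_pow₀ hN1)
    have hY2 : 2 * pd.R * (N : ℝ) ^ m ≤ X0 ^ (pd.e * m + 1) := by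
      calc 2 * pd.R * (N : ℝ) ^ m ≤ X0 * (X0 ^ pd.e) ^ m := by
            refine mul_le_mul (by linarith) (pow_le_pow_left₀ (by linarith) hNX m) (by positivity)
              (by positivity)
        _ = X0 ^ (pd.e * m + 1) := by rw [← pow_mul, pow_succ]; ring
    calc ‖wv d w (yR pd m N X0 j)‖ ≤ d * (((w : ℝ) + 1) * (2 * pd.R * (N : ℝ) ^ m)) ^ d :=
          wv_leR hY1 (y_leR H _)
      _ ≤ X0 * (X0 ^ (pd.e * m + 2)) ^ d := by
          refine mul_le_mul hd (pow_le_pow_left₀ (by positivity) ?_ d) (by positivity) (by positivity)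
          calc ((w : ℝ) + 1) * (2 * pd.R * (N : ℝ) ^ m) ≤ X0 * X0 ^ (pd.e * m + 1) :=
                mul_le_mul hw hY2 (by positivity) (by positivity)
            _ = X0 ^ (pd.e * m + 2) := by rw [← pow_succ']
      _ = X0 ^ (1 + (pd.e * m + 2) * d) := by
          rw [pow_add X0 1, pow_mul X0, pow_one]
      _ ≤ X0 ^ kapR d m pd.e := by
          refine pow_le_pow_right₀ hX1 ?_
          unfold kapR
          have e1 : d ≤ d ^ 2 := Nat.le_self_pow (by norm_num) d
          have e2 : 1 ≤ d ^ 2 := Nat.one_le_pow _ _ hd1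
          have e3 : pd.e * m * d ≤ pd.e * m * d ^ 2 := Nat.mul_le_mul_left _ e1
          have e4 : d ^ 2 ≤ pd.e * d ^ 2 := Nat.le_mul_of_pos_left _ he
          nlinarith

end Pool.Agent.H97.FB
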