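import Pool.Agent.H97.FB.Defs2
import Pool.Agent.H97.FB.ANE
import Pool.Agent.H97.FB.ANK

/-! # [H97 FB ANA] The algebraic description of the series of the anchor (helper21) -/

namespace Pool.Agent.H97.FB

open Finset Polynomial Pool.Agent.H72.ES Pool.Agent.H87.SA Pool.Agent.H87.SA2 Pool.Agent.H87.AX
  Pool.Agent.H97.GA

variable {f : ℤ[X][X]} {d m N : ℕ} {pd : PData f d} {X0 : ℝ}

theorem exists_algA (H : RHyp f d m pd N X0) {w la s0 : ℕ} {k : Type} [Field k] [NumberField k]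
    (hw : (w : ℝ) + 1 ≤ X0) (hdX : (d : ℝ) ≤ X0)
    (T : TwR pd m N X0 w la s0 k) {Dl : ℕ}
    (an : AnchX (Module.finrank ℚ k) Dl (kapR d m pd.e) pd.e (MR pd N) X0 pd.R)
    (q : an.I ≃ (k →+* ℂ))
    (hq : ∀ i j, PowerSeries.coeff j (an.zs i) = (X0 : ℂ) ^ j * q i (T.ζ j))
    (hi0 : q an.i0 = Complex.ofRealHom.comp T.ι) {Q0 : ℕ} (hd : d ≤ Q0) (hm : m ≤ Q0)
    (hκ : kapR d m pd.e ≤ Q0) (hqR : (pd.q : ℝ) ≤ pd.R)
    (hle : ∀ i j, |(((f.coeff i).coeff j : ℤ) : ℝ)| ≤ pd.R) : Nonempty (AlgA an Q0) := by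
  choose gw h1 h2 h3 h4 using fun l => exists_gw H hw hdX l
  refine ⟨{ q := pd.q, N := N, q1 := pd.q_pos, N1 := H.N1, qR := hqR, MN := rfl, f1 := f,
            monic := H.monic, deg := by rw [H.deg]; exact hd,
            cdeg := fun i => (H.mdeg i).trans hm, le := hle, L := d, L_le := hd, x := pd.x,
            root := ?_, growth := pd.growth, w := fun l => wv d w (yR pd m N X0 l),
            gw := gw, gw_monic := h1, gw_deg := fun l => (h2 l).trans hd, gw_root := h3,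
            gw_le := fun l z hz => (h4 l z hz).trans (pow_le_pow_right₀ H.X1 hκ), hZ := ?_ }⟩
  · intro l
    rw [pd.split, eval_prod]
    exact Finset.prod_eq_zero (mem_univ l) (by simp)
  · ext j
    rw [hq, hi0, map_sum]
    have h5 : (Complex.ofRealHom.comp T.ι) (T.ζ j) = zC pd m N X0 w 1 j := T.hι j
    rw [h5, zC_val H]
    refine sum_congr rfl fun l _ => ?_
    rw [PowerSeries.coeff_C_mul]
    rfl

end Pool.Agent.H97.FB
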