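import Pool.Agent.H97.FB.CPS
import Pool.Agent.H98.FF.CHP
import Pool.Agent.H72.ES.BivNorm
import Pool.Agent.H52.AC.PRM

/-!
# [H97 FB AN..] The anchor of a pair of fibres: definitions (helper21)

`δ = a' - a`. `shF δ f = f(x + δ, Z)`, `g = rv n m f`, `g' = rv n m (shF δ f)`.
`cpP n lam g g'`: the composite polynomial, roots `x_i + lam x'_j` (characteristic polynomial of
`Y ⊗ 1 + lam ⊗ Y'`).
`WdP e q δ`: the series `W(T) = (1 + δ (q e² T)^e)^(-1/e) ∈ ℤ⟦T⟧`.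
`uzP S = e² T W(T)`; `q1 = q e²`, `tau = (q1 T)^e`; `(q uzP)^e = tau / (1 + δ tau)`.
`x1P pd i = x_i(e² T)`, `x2P pd m S j = (1 + δ tau)^m x_j(uzP)`: the roots of `g` and `g'` in the variable
`T`, `t = tau`.
-/

namespace Pool.Agent.H97.FB

open Finset Polynomial Pool.Agent.H72.ES Pool.Agent.H87.SA Pool.Agent.H87.SA2 Pool.Agent.H87.AX
  Pool.Agent.H52.AC Pool.Agent.H97.GA

/-- the family in the variable `x + δ` -/
noncomputable def shF (δ : ℕ) (f : ℤ[X][X]) : ℤ[X][X] := f.map (compRingHom (X + C (δ : ℤ)))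

/-- the companion matrix (degree `n`) -/
noncomputable def cmP (n : ℕ) (g : ℤ[X][X]) : Matrix (Fin n) (Fin n) ℤ[X] := fun i j =>
  if (i : ℕ) + 1 < n then (if (j : ℕ) = i + 1 then 1 else 0) else - g.coeff j

/-- the matrix of `Y ⊗ 1 + lam ⊗ Y'` -/
noncomputable def kmP (n lam : ℕ) (g g' : ℤ[X][X]) :
    Matrix (Fin n × Fin n) (Fin n × Fin n) ℤ[X] := fun p p' =>
  cmP n g p.1 p'.1 * (if p.2 = p'.2 then 1 else 0) +
    C (lam : ℤ) * ((if p.1 = p'.1 then 1 else 0) * cmP n g' p.2 p'.2)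

/-- the composite polynomial, with the roots `x_i + lam x'_j` -/
noncomputable def cpP (n lam : ℕ) (g g' : ℤ[X][X]) : ℤ[X][X] := (kmP n lam g g').charpoly

/-- the series `W(T) = (1 + δ (q e² T)^e)^(-1/e)` -/
structure WdP (e q δ : ℕ) where
  W : PowerSeries ℤ
  c0 : PowerSeries.constantCoeff W = 1
  pow : W ^ e * (1 + PowerSeries.C (δ : ℤ) *
    (PowerSeries.C ((q * e ^ 2 : ℕ) : ℤ) * PowerSeries.X) ^ e) = 1
  supp : ∀ k, ¬ e ∣ k → PowerSeries.coeff k W = 0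
  le : ∀ k, |PowerSeries.coeff (e * k) W| ≤ (((δ * (q * e ^ 2) ^ e) ^ k : ℕ) : ℤ)

variable {e q δ : ℕ}

/-- `W` with complex coefficients -/
noncomputable def WdP.WC (S : WdP e q δ) : PowerSeries ℂ := PowerSeries.map (Int.castRingHom ℂ) S.W

/-- `t = (q e² T)^e` -/
noncomputable def tau (e q : ℕ) : PowerSeries ℂ :=
  (PowerSeries.C (((q * e ^ 2 : ℕ) : ℕ) : ℂ) * PowerSeries.X) ^ e

/-- the substitution `e² T W(T)` -/
noncomputable def uzP (S : WdP e q δ) : PowerSeries ℂ :=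
  PowerSeries.C ((e : ℂ) ^ 2) * (PowerSeries.X * S.WC)

theorem uzP_zero (S : WdP e q δ) : PowerSeries.constantCoeff (uzP S) = 0 := by
  unfold uzP
  rw [map_mul, map_mul, PowerSeries.constantCoeff_X, zero_mul, mul_zero]

/-- the roots of `g`, in the variable `T` with `t = (q e² T)^e` -/
noncomputable def x1P {g : ℤ[X][X]} {n : ℕ} (pd : PData g n) (i : Fin n) : PowerSeries ℂ :=
  PowerSeries.rescale ((pd.e : ℂ) ^ 2) (pd.x i)

/-- the roots of `g'` -/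
noncomputable def x2P {g : ℤ[X][X]} {n : ℕ} (pd : PData g n) (m : ℕ) (S : WdP pd.e pd.q δ)
    (j : Fin n) : PowerSeries ℂ :=
  (1 + PowerSeries.C (δ : ℂ) * tau pd.e pd.q) ^ m * sbH (uzP_zero S) (pd.x j)

/-- the real number `X0 = q e² a^(1/e)` -/
noncomputable def XB {g : ℤ[X][X]} {n : ℕ} (pd : PData g n) (a : ℕ) : ℝ :=
  (pd.q * pd.e ^ 2 : ℕ) * (a : ℝ) ^ ((1 : ℝ) / pd.e)

/-- the bound for the growth -/
noncomputable def RB {g : ℤ[X][X]} {n : ℕ} (pd : PData g n) (m δ : ℕ) : ℝ :=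
  2 ^ (m + 3) * δ * (pd.q * pd.e ^ 2 : ℕ) * pd.R

end Pool.Agent.H97.FB
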