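import Mathlib

/-! # [H97 FB ANL] The choice of `lam`

For a pair `(p, p')` of different elements of `Fin n × Fin n` let `E (p,p')` be the set of `lam` in `Icc 1 (n^4 + 1)` with
`θ p.1 + lam θ' p.2 = θ p'.1 + lam θ' p'.2`. It has at most one element: if two different `lam` are in it, the
difference of the two equations gives `θ' p.2 = θ' p'.2`, so `p.2 = p'.2`, then `θ p.1 = θ p'.1`, so `p = p'`. There are at
most `n^4` pairs (`Fintype.card_prod`), the union of the sets `E` has at most `n^4` elements (`card_biUnion_le`), so some `lam` in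
`Icc 1 (n^4 + 1)` is in none of them. -/

namespace Pool.Agent.H97.FB

open Finset

theorem exists_lamP (n : ℕ) (θ θ' : Fin n → ℂ) (h : Function.Injective θ)
    (h' : Function.Injective θ') : ∃ lam : ℕ, 1 ≤ lam ∧ lam ≤ n ^ 4 + 1 ∧
      Function.Injective fun p : Fin n × Fin n => θ p.1 + (lam : ℂ) * θ' p.2 := by
  classical
  set P : Finset ((Fin n × Fin n) × (Fin n × Fin n)) := univ.filter (fun p => p.1 ≠ p.2) with hP
  set E : (Fin n × Fin n) × (Fin n × Fin n) → Finset ℕ := fun p =>
    (Icc 1 (n ^ 4 + 1)).filter (fun lam => θ p.1.1 + (lam : ℂ) * θ' p.1.2 = θ p.2.1 + (lam : ℂ) * θ' p.2.2) with hE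
  have hcard : ∀ p ∈ P, (E p).card ≤ 1 := by
    intro p hp
    rw [hP, mem_filter] at hp
    rw [card_le_one]
    intro a ha b hb
    rw [hE, mem_filter] at ha hb
    by_contra hab
    have h1 : ((a : ℂ) - b) * (θ' p.1.2 - θ' p.2.2) = 0 := by
      linear_combination ha.2 - hb.2
    have h2 : ((a : ℂ) - b) ≠ 0 := by
      intro h3
      apply hab
      have := sub_eq_zero.1 h3
      exact_mod_cast this
    have h3 : p.1.2 = p.2.2 := h' (sub_eq_zero.1 ((mul_eq_zero.1 h1).resolve_left h2))
    have h4 : p.1.1 = p.2.1 := by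
      apply h
      have h5 := ha.2
      rw [h3] at h5
      exact add_right_cancel h5
    exact hp.2 (Prod.ext h4 h3)
  have hPc : P.card ≤ n ^ 4 := by
    refine (card_le_univ _).trans ?_
    rw [Fintype.card_prod, Fintype.card_prod, Fintype.card_fin]
    apply le_of_eq
    ring
  have hB : (P.biUnion E).card ≤ n ^ 4 := by
    refine (card_biUnion_le_card_mul P E 1 hcard).trans ?_
    rw [mul_one]
    exact hPc
  have hex : ∃ lam ∈ Icc 1 (n ^ 4 + 1), lam ∉ P.biUnion E := by
    apply exists_mem_notMem_of_card_lt_card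
    rw [Nat.card_Icc]
    omega
  obtain ⟨lam, hl, hn⟩ := hex
  rw [mem_Icc] at hl
  refine ⟨lam, hl.1, hl.2, ?_⟩
  intro p p' hpp
  by_contra hne
  apply hn
  rw [mem_biUnion]
  refine ⟨(p, p'), ?_, ?_⟩
  · rw [hP, mem_filter]
    exact ⟨mem_univ _, hne⟩
  · rw [hE, mem_filter]
    exact ⟨mem_Icc.2 hl, hpp⟩

end Pool.Agent.H97.FB
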