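import Mathlib

/-! # [H97 FB ANN] The numbers of the anchor of a pair

`R1P` is a polynomial in `δ`, `B` with constants depending on `n`, `m`. Step 1: there is `K1` with
`2 * R1P n m B δ ≤ (δ B)^K1` for `B ≥ 2`, `δ ≥ 1`: let `P = δ B ≥ 2`; a constant `c` is at most `2^c ≤ P^c`, `δ ≤ P`, `B ≤ P`,
`1 + δ ≤ P^2`; products and powers add exponents, `x + y ≤ P^(a+b+1)` if `x ≤ P^a`, `y ≤ P^b`.
Step 2: let `F = n.factorial`, `C := F (K1 (c + 2) + K) + K1 + K + F^2 + 10 + C1` (anything larger is fine). Then for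
`(δ B)^C ≤ a`: `1 ≤ a`, and for `1 ≤ e ≤ F`: `a^(1/e) ≥ (δ B)^(K1 (c+2) + K)` because `a ≥ P^(F D) ≥ (P^D)^e` with
`D = K1 (c+2) + K` (`Real.rpow_natCast`, `Real.rpow_le_rpow`, `(P^D)^e` to the power `1/e`), and `X0 ≥ a^(1/e)` (`q e² ≥ 1`).
So `(2 R1P)^c ≤ P^(K1 c) ≤ X0`, `4 R1P ≤ P^(K1 + 1) ≤ X0` (`4 R1P = 2 (2 R1P)`, `2 ≤ P`), `K ≤ 2^K ≤ P^K ≤ X0`, `1 ≤ X0`.
Upper bound: `a^(1/e) ≤ a` (`a ≥ 1`, `1/e ≤ 1`), `q ≤ B ≤ a`, `e² ≤ F² ≤ 2^(F²) ≤ a`. -/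

namespace Pool.Agent.H97.FB

/-- the bound for the coefficients and for the growth -/
def R1P (n m B δ : ℕ) : ℕ :=
  (n ^ 4 + 2) * (2 ^ (m + 3) * δ * (B * n.factorial ^ 2) * B) + (n * n).factorial *
    (1 + (n ^ 4 + 2) * ((m * n + 1) * ((m * n + 1) * B * (1 + δ) ^ (m * n)))) ^ (n * n)

private def PB (f : ℕ → ℕ → ℕ) : Prop :=
  ∃ k : ℕ, ∀ B δ : ℕ, 2 ≤ B → 1 ≤ δ → f B δ ≤ (δ * B) ^ k

private lemma two_le_mul' {B δ : ℕ} (hB : 2 ≤ B) (hδ : 1 ≤ δ) : 2 ≤ δ * B := by nlinarith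

private lemma pb_const (c : ℕ) : PB (fun _ _ => c) :=
  ⟨c, fun _ _ hB hδ => (Nat.lt_two_pow_self).le.trans (Nat.pow_le_pow_left (two_le_mul' hB hδ) c)⟩

private lemma pb_b : PB (fun B _ => B) := ⟨1, fun B δ hB hδ => by
  rw [pow_one]
  exact Nat.le_mul_of_pos_left _ hδ⟩

private lemma pb_d : PB (fun _ δ => δ) := ⟨1, fun B δ hB hδ => by
  rw [pow_one]
  exact Nat.le_mul_of_pos_right _ (by omega)⟩

private lemma pb_add {f g : ℕ → ℕ → ℕ} (hf : PB f) (hg : PB g) :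
    PB (fun B δ => f B δ + g B δ) := by
  obtain ⟨k, hk⟩ := hf
  obtain ⟨l, hl⟩ := hg
  refine ⟨k + l + 1, fun B δ hB hδ => ?_⟩
  have h2 := two_le_mul' hB hδ
  have h1 : (δ * B) ^ k ≤ (δ * B) ^ (k + l) := Nat.pow_le_pow_right (by omega) (by omega)
  have h3 : (δ * B) ^ l ≤ (δ * B) ^ (k + l) := Nat.pow_le_pow_right (by omega) (by omega)
  calc f B δ + g B δ ≤ (δ * B) ^ (k + l) + (δ * B) ^ (k + l) :=
        Nat.add_le_add ((hk B δ hB hδ).trans h1) ((hl B δ hB hδ).trans h3)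
    _ = (δ * B) ^ (k + l) * 2 := by ring
    _ ≤ (δ * B) ^ (k + l) * (δ * B) := Nat.mul_le_mul_left _ h2
    _ = (δ * B) ^ (k + l + 1) := (pow_succ _ _).symm

private lemma pb_mul {f g : ℕ → ℕ → ℕ} (hf : PB f) (hg : PB g) :
    PB (fun B δ => f B δ * g B δ) := by
  obtain ⟨k, hk⟩ := hf
  obtain ⟨l, hl⟩ := hg
  refine ⟨k + l, fun B δ hB hδ => ?_⟩
  rw [pow_add]
  exact Nat.mul_le_mul (hk B δ hB hδ) (hl B δ hB hδ)

private lemma pb_pow {f : ℕ → ℕ → ℕ} (hf : PB f) (j : ℕ) : PB (fun B δ => f B δ ^ j) := by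
  obtain ⟨k, hk⟩ := hf
  refine ⟨k * j, fun B δ hB hδ => ?_⟩
  rw [pow_mul]
  exact Nat.pow_le_pow_left (hk B δ hB hδ) j

private lemma pb_R1P (n m : ℕ) : PB (fun B δ => 2 * R1P n m B δ) := by
  unfold R1P
  exact pb_mul (pb_const 2) (pb_add
    (pb_mul (pb_const _) (pb_mul (pb_mul (pb_mul (pb_const _) pb_d) (pb_mul pb_b (pb_const _)))
      pb_b))
    (pb_mul (pb_const _) (pb_pow (pb_add (pb_const 1) (pb_mul (pb_const _)
      (pb_mul (pb_const _) (pb_mul (pb_mul (pb_const _) pb_b)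
        (pb_pow (pb_add (pb_const 1) pb_d) _))))) _)))

theorem anp_num (n m c K C1 : ℕ) : ∃ C : ℕ, ∀ B δ a : ℕ, 2 ≤ B → 1 ≤ δ → (δ * B) ^ C ≤ a →
    1 ≤ a ∧ B ^ C1 ≤ a ∧ ∀ e q : ℕ, 1 ≤ e → e ≤ n.factorial → 1 ≤ q → q ≤ B →
      (2 * (R1P n m B δ : ℝ)) ^ c ≤ (q * e ^ 2 : ℕ) * (a : ℝ) ^ ((1 : ℝ) / e) ∧
      4 * (R1P n m B δ : ℝ) ≤ (q * e ^ 2 : ℕ) * (a : ℝ) ^ ((1 : ℝ) / e) ∧
      (K : ℝ) ≤ (q * e ^ 2 : ℕ) * (a : ℝ) ^ ((1 : ℝ) / e) ∧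
      (1 : ℝ) ≤ (q * e ^ 2 : ℕ) * (a : ℝ) ^ ((1 : ℝ) / e) ∧
      (q * e ^ 2 : ℕ) * (a : ℝ) ^ ((1 : ℝ) / e) ≤ (a : ℝ) ^ 3 := by
  obtain ⟨K1, hK1⟩ := pb_R1P n m
  obtain ⟨D, hD⟩ : ∃ D, D = (K1 + 1) * (c + 2) + K := ⟨_, rfl⟩
  have hD1 : K1 * c ≤ D := by rw [hD]; nlinarith
  have hD2 : K1 + 1 ≤ D := by rw [hD]; nlinarith
  have hD3 : K ≤ D := by rw [hD]; nlinarith
  refine ⟨n.factorial * D + n.factorial ^ 2 + 1 + C1, ?_⟩
  intro B δ a hB hδ ha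
  obtain ⟨P, hP⟩ : ∃ P, P = δ * B := ⟨_, rfl⟩
  have hP2 : 2 ≤ P := hP ▸ two_le_mul' hB hδ
  have hBP : B ≤ P := by rw [hP]; exact Nat.le_mul_of_pos_left _ hδ
  have hK1' := hK1 B δ hB hδ
  simp only at hK1'
  rw [← hP] at ha hK1'
  have ha1 : 1 ≤ a := (Nat.one_le_pow _ _ (by omega)).trans ha
  have hmono : ∀ j, j ≤ n.factorial * D + n.factorial ^ 2 + 1 + C1 → P ^ j ≤ a := fun j hj =>
    (Nat.pow_le_pow_right (by omega) hj).trans ha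
  refine ⟨ha1, (Nat.pow_le_pow_left hBP C1).trans (hmono _ (by omega)), ?_⟩
  intro e q he1 heF hq1 hqB
  have haR : (1 : ℝ) ≤ a := by exact_mod_cast ha1
  obtain ⟨r, hr⟩ : ∃ r : ℝ, r = (a : ℝ) ^ ((1 : ℝ) / e) := ⟨_, rfl⟩
  rw [← hr]
  have hPD : ((P : ℝ) ^ D) ≤ r := by
    have h1 : ((P : ℝ) ^ D) ^ e ≤ a := by
      rw [← pow_mul]
      have : P ^ (D * e) ≤ a := hmono _ (by
        have : D * e ≤ n.factorial * D := by
          rw [mul_comm]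
          exact Nat.mul_le_mul_right _ heF
        omega)
      exact_mod_cast this
    have h2 := Real.pow_rpow_inv_natCast (x := (P : ℝ) ^ D) (n := e) (by positivity) (by omega)
    rw [← h2, hr, one_div]
    exact Real.rpow_le_rpow (by positivity) h1 (by positivity)
  have hr0 : 0 ≤ r := le_trans (by positivity) hPD
  have hqe : (1 : ℝ) ≤ ((q * e ^ 2 : ℕ) : ℝ) := by
    have : 1 ≤ q * e ^ 2 := Nat.mul_pos hq1 (pow_pos he1 2)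
    exact_mod_cast this
  have hX : (P : ℝ) ^ D ≤ ((q * e ^ 2 : ℕ) : ℝ) * r :=
    hPD.trans (le_mul_of_one_le_left hr0 hqe)
  have hnat : ∀ x : ℕ, x ≤ P ^ D → (x : ℝ) ≤ ((q * e ^ 2 : ℕ) : ℝ) * r := fun x hx => by
    have : (x : ℝ) ≤ (P : ℝ) ^ D := by exact_mod_cast hx
    exact this.trans hX
  refine ⟨?_, ?_, ?_, ?_, ?_⟩
  · have h := hnat ((2 * R1P n m B δ) ^ c) (by
      calc (2 * R1P n m B δ) ^ c ≤ (P ^ K1) ^ c := Nat.pow_le_pow_left hK1' c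
        _ = P ^ (K1 * c) := (pow_mul _ _ _).symm
        _ ≤ P ^ D := Nat.pow_le_pow_right (by omega) hD1)
    exact_mod_cast h
  · have h := hnat (4 * R1P n m B δ) (by
      calc 4 * R1P n m B δ = 2 * (2 * R1P n m B δ) := by ring
        _ ≤ P * P ^ K1 := Nat.mul_le_mul hP2 hK1'
        _ = P ^ (K1 + 1) := (pow_succ' _ _).symm
        _ ≤ P ^ D := Nat.pow_le_pow_right (by omega) hD2)
    exact_mod_cast h
  · exact hnat K ((Nat.lt_two_pow_self).le.trans ((Nat.pow_le_pow_left hP2 K).trans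
      (Nat.pow_le_pow_right (by omega) hD3)))
  · have h := hnat 1 (Nat.one_le_pow _ _ (by omega))
    exact_mod_cast h
  · have hra : r ≤ a := by
      rw [hr]
      calc (a : ℝ) ^ ((1 : ℝ) / e) ≤ (a : ℝ) ^ (1 : ℝ) := by
            apply Real.rpow_le_rpow_of_exponent_le haR
            rw [div_le_one (by positivity)]
            exact_mod_cast he1
        _ = a := Real.rpow_one _
    have hq : q ≤ a := hqB.trans (hBP.trans (by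
      have := hmono 1 (by omega)
      rwa [pow_one] at this))
    have he : e ^ 2 ≤ a := by
      calc e ^ 2 ≤ n.factorial ^ 2 := Nat.pow_le_pow_left heF 2
        _ ≤ 2 ^ (n.factorial ^ 2) := (Nat.lt_two_pow_self).le
        _ ≤ P ^ (n.factorial ^ 2) := Nat.pow_le_pow_left hP2 _
        _ ≤ a := hmono _ (by omega)
    have hqe' : ((q * e ^ 2 : ℕ) : ℝ) ≤ (a : ℝ) * a := by
      have : q * e ^ 2 ≤ a * a := Nat.mul_le_mul hq he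
      exact_mod_cast this
    calc ((q * e ^ 2 : ℕ) : ℝ) * r ≤ ((a : ℝ) * a) * a := by gcongr
      _ = (a : ℝ) ^ 3 := by ring

end Pool.Agent.H97.FB
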