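import Pool.Agent.H97.FB.ANWa

/-! # [H97 FB ANWb] The series `W(T) = (1 + δ (q e² T)^e)^(-1/e)`

`w` from `exists_w1`, `s := δ q^e e^(2 e - 2)` (a natural number; `e² s = δ (q e²)^e` because `e ≥ 1`),
`W := sbH hz w` with `z = C s * X^e` (`sbH` of `CPS.lean`, `constantCoeff z = 0` as `e ≥ 1`).
`c0`: `sbH_coeff` at `k = 0`. `pow`: `sbH` is a ring homomorphism, `sbH (C c) = C c`, `sbH X = z`; apply it to
`w^e (1 + C (e²) X) = 1`: `W^e (1 + C (e² s) X^e) = 1`, and `C (δ) (C (q e²) X)^e = C (e² s) X^e` (`mul_pow`, `map_pow`).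
`supp`, `le`: `z^n = C (s^n) X^(e n)`, so `coeff k (z^n) = s^n` if `k = e n`, else `0` (`PowerSeries.coeff_C_mul`,
`coeff_X_pow`); with `sbH_coeff`: `coeff (e k) W = s^k w_k` and `coeff k W = 0` if `e ∤ k`;
`|s^k w_k| ≤ s^k e^(2k) = (e² s)^k`. -/

namespace Pool.Agent.H97.FB

open Finset Pool.Agent.H72.ES

theorem exists_wdP (e q δ : ℕ) (he : 1 ≤ e) : Nonempty (WdP e q δ) := by
  obtain ⟨w, hw0, hwe, hwk⟩ := exists_w1 e he
  obtain ⟨s, hs⟩ : ∃ s : ℕ, s = δ * q ^ e * e ^ (2 * e - 2) := ⟨_, rfl⟩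
  have hes : e ^ 2 * s = δ * (q * e ^ 2) ^ e := by
    rw [hs, mul_pow, ← pow_mul]
    have h1 : e ^ (2 * e) = e ^ 2 * e ^ (2 * e - 2) := by
      rw [← pow_add]
      congr 1
      omega
    rw [h1]
    ring
  obtain ⟨z, hzd⟩ : ∃ z : PowerSeries ℤ, z = PowerSeries.C (s : ℤ) * PowerSeries.X ^ e := ⟨_, rfl⟩
  have hz : PowerSeries.constantCoeff z = 0 := by
    rw [hzd, map_mul, map_pow, PowerSeries.constantCoeff_X, zero_pow (by omega), mul_zero]
  have hzn : ∀ n k, PowerSeries.coeff k (z ^ n) = if k = e * n then (s : ℤ) ^ n else 0 := by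
    intro n k
    rw [hzd, mul_pow, ← map_pow, PowerSeries.coeff_C_mul, ← pow_mul, PowerSeries.coeff_X_pow]
    split_ifs
    · rw [mul_one]
    · rw [mul_zero]
  have hck : ∀ k, PowerSeries.coeff (e * k) (sbH hz w) = (s : ℤ) ^ k * PowerSeries.coeff k w := by
    intro k
    rw [sbH_coeff, Finset.sum_eq_single k]
    · rw [hzn, if_pos rfl]
      ring
    · intro n _ hn
      rw [hzn, if_neg, mul_zero]
      intro h
      exact hn (Nat.eq_of_mul_eq_mul_left (by omega) h).symm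
    · intro h
      exfalso
      apply h
      rw [mem_range]
      have : 1 * k ≤ e * k := Nat.mul_le_mul_right _ he
      omega
  refine ⟨⟨sbH hz w, ?_, ?_, ?_, ?_⟩⟩
  · have h1 := hck 0
    rw [mul_zero, pow_zero, one_mul, PowerSeries.coeff_zero_eq_constantCoeff_apply,
      PowerSeries.coeff_zero_eq_constantCoeff_apply, hw0] at h1
    exact h1
  · have h1 := congrArg (sbH hz) hwe
    rw [map_mul, map_pow, map_add, map_mul, sbH_C, sbH_X, map_one] at h1
    rw [← h1]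
    congr 2
    rw [hzd, mul_pow, ← mul_assoc, ← mul_assoc, ← map_pow, ← map_mul, ← map_mul]
    congr 2
    have h2 : ((e ^ 2 * s : ℕ) : ℤ) = ((δ * (q * e ^ 2) ^ e : ℕ) : ℤ) := by rw [hes]
    push_cast at h2 ⊢
    exact h2.symm
  · intro k hk
    rw [sbH_coeff]
    refine Finset.sum_eq_zero fun n _ => ?_
    rw [hzn, if_neg, mul_zero]
    intro h
    exact hk ⟨n, h⟩
  · intro k
    rw [hck, abs_mul, abs_of_nonneg (by positivity : (0 : ℤ) ≤ (s : ℤ) ^ k)]
    calc (s : ℤ) ^ k * |PowerSeries.coeff k w| ≤ (s : ℤ) ^ k * (e : ℤ) ^ (2 * k) :=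
          mul_le_mul_of_nonneg_left (hwk k) (by positivity)
      _ = (((e ^ 2 * s) ^ k : ℕ) : ℤ) := by
          push_cast
          rw [mul_pow, ← pow_mul]
          ring
      _ = _ := by rw [hes]

end Pool.Agent.H97.FB
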