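import Pool.Agent.H87.SA2.TWR

/-! # [H97 FB ANY] The polynomial of a stable set of indices over the twisted field

This is the second half of the field `loc` in the proof of `exists_twR` (`Pool/Agent/H87/SA2/TWR.lean`, the part with
`hPA`, `hfix`, `hcoefA`, `hreal`, `hck`, `hlift`), with an arbitrary stable set `R'` instead of `R`: copy it.
The field `k` is now abstract: let `g := T.ι (T.z : k)` (real), `(g : ℂ) = zG pd m N X0 w la s0 1` (from `T.hz`, `T.hι`:
`map_sum`, `map_mul`, `map_pow`, `map_natCast`; `zG` unfolded). `mem_kG H hsep hg` puts the (real) coefficients `c l` of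
`P = ∏_(j ∈ R') (X - C (yR j))` into `IntermediateField.adjoin ℚ {g}`, and `adjoin ℚ {g} ≤ range T.ι`
(`T.ι` as a `ℚ`-algebra map `T.ι.toRatAlgHom : k →ₐ[ℚ] ℝ`, `AlgHom.fieldRange`, `IntermediateField.adjoin_le_iff`, `g` is in the
range). So `P` lifts along `Complex.ofRealHom.comp T.ι` (`lifts_and_natDegree_eq_and_monic`). -/

namespace Pool.Agent.H97.FB

open Finset Polynomial NumberField Pool.Agent.H72.ES Pool.Agent.H87.SA Pool.Agent.H87.SA2
  Pool.Agent.H97.GA

variable {f : ℤ[X][X]} {d m N : ℕ} {pd : PData f d} {X0 : ℝ}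

theorem stab_poly (H : RHyp f d m pd N X0) {w la s0 : ℕ} {k : Type} [Field k] [NumberField k]
    (T : TwR pd m N X0 w la s0 k)
    (hsep : ∀ τ : Equiv.Perm (Fin d),
      zG pd m N X0 w la s0 τ = zG pd m N X0 w la s0 1 → τ = 1)
    (R' : Finset (Fin d))
    (hst : ∀ (σ : AA →+* ℂ) (π : Equiv.Perm (Fin d)),
      (∀ (i : Fin d) (k : ℕ) (a : AA), (a : ℂ) = xu pd X0 i k → σ a = xu pd X0 (π i) k) →
      ∀ j ∈ R', π j ∈ R') :
    ∃ p : k[X], p.Monic ∧ p.natDegree = R'.card ∧
      p.map (Complex.ofRealHom.comp T.ι) = ∏ j ∈ R', (X - C (yR pd m N X0 j)) := by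
  obtain ⟨g, hgdef⟩ : ∃ g : ℝ, g = T.ι (T.z : k) := ⟨_, rfl⟩
  have hg : (g : ℂ) = zG pd m N X0 w la s0 1 := by
    rw [hgdef, T.hz, map_sum]
    unfold zG
    push_cast
    refine sum_congr rfl fun l _ => ?_
    rw [map_mul, map_mul, map_pow, map_pow, map_natCast, map_natCast]
    push_cast
    rw [T.hι]
  obtain ⟨P, hP⟩ : ∃ P : ℂ[X], P = ∏ j ∈ R', (X - C (yR pd m N X0 j)) := ⟨_, rfl⟩
  have hPm : P.Monic := by
    rw [hP]
    exact monic_prod_of_monic _ _ fun j _ => monic_X_sub_C _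
  have hPd : P.natDegree = R'.card := by
    rw [hP, natDegree_prod_of_monic _ _ fun j _ => monic_X_sub_C _]
    simp
  have hPA : (∏ j ∈ R', (X - C (yA H j)) : AA[X]).map (algebraMap AA ℂ) = P := by
    rw [hP, Polynomial.map_prod]
    refine prod_congr rfl fun j _ => ?_
    rw [Polynomial.map_sub, Polynomial.map_X, Polynomial.map_C]
    rfl
  have hfix : ∀ (σ : AA →+* ℂ) (π : Equiv.Perm (Fin d)),
      (∀ (i : Fin d) (k : ℕ) (a : AA), (a : ℂ) = xu pd X0 i k → σ a = xu pd X0 (π i) k) →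
      (∀ (i : Fin d) (a : AA), (a : ℂ) = yR pd m N X0 i → σ a = yR pd m N X0 (π i)) →
      (∏ j ∈ R', (X - C (yA H j)) : AA[X]).map σ = P := by
    intro σ π h0 h1
    have hRR : R'.map π.toEmbedding = R' := by
      refine Finset.eq_of_subset_of_card_le ?_ (by rw [card_map])
      intro x hx
      obtain ⟨j, hj, rfl⟩ := mem_map.1 hx
      exact hst σ π h0 j hj
    rw [hP, Polynomial.map_prod]
    conv_rhs => rw [← hRR]
    rw [prod_map]
    refine prod_congr rfl fun j _ => ?_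
    rw [Polynomial.map_sub, Polynomial.map_X, Polynomial.map_C, h1 j (yA H j) rfl]
    rfl
  have hcoefA : ∀ l, ((((∏ j ∈ R', (X - C (yA H j)) : AA[X]).coeff l : AA)) : ℂ) =
      P.coeff l := by
    intro l
    rw [← hPA, coeff_map]
    rfl
  have hreal : ∀ l, ∃ c : ℝ, (c : ℂ) = P.coeff l := by
    intro l
    obtain ⟨σ, π, hσ, h0, h1⟩ := conj_act H
    refine real_of_conj ?_
    have h2 := congrArg (fun q : ℂ[X] => q.coeff l) (hfix σ π h0 h1)
    simp only [coeff_map] at h2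
    rw [hσ, hcoefA] at h2
    exact h2
  choose c hc using hreal
  have hck : ∀ l, c l ∈ IntermediateField.adjoin ℚ {g} := by
    intro l
    refine mem_kG H hsep hg ?_ ?_
    · rw [hc, ← hcoefA]
      exact ((∏ j ∈ R', (X - C (yA H j)) : AA[X]).coeff l).2
    · intro σ π h0 h1 a ha
      have h2 : a = (∏ j ∈ R', (X - C (yA H j)) : AA[X]).coeff l := by
        apply Subtype.ext
        rw [ha, hc, hcoefA]
      have h3 := congrArg (fun q : ℂ[X] => q.coeff l) (hfix σ π h0 h1)
      simp only [coeff_map] at h3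
      rw [h2, h3, hc]
  have hle : IntermediateField.adjoin ℚ {g} ≤ (T.ι.toRatAlgHom).fieldRange := by
    rw [IntermediateField.adjoin_le_iff]
    intro x hx
    rw [Set.mem_singleton_iff] at hx
    rw [hx]
    exact ⟨(T.z : k), hgdef.symm⟩
  have hlift : P ∈ lifts (Complex.ofRealHom.comp T.ι) := by
    rw [lifts_iff_coeff_lifts]
    intro l
    obtain ⟨x, hx⟩ := hle (hck l)
    refine ⟨x, ?_⟩
    have hx' : T.ι x = c l := hx
    change ((T.ι x : ℝ) : ℂ) = P.coeff l
    rw [hx']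
    exact hc l
  obtain ⟨p, hp1, hp2, hp3⟩ := lifts_and_natDegree_eq_and_monic hlift hPm
  exact ⟨p, hp3, by rw [hp2, hPd], by rw [hp1, hP]⟩

end Pool.Agent.H97.FB
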