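import Pool.Agent.H97.FB.ANQ
import Pool.Agent.H97.FB.ANS

/-! # [H97 FB ANZ] The diagonal is stable

Let `σ : AA →+* ℂ`, `π` the permutation of the indices with `σ (xu s k) = xu (π s) k`, `xu s k = (1/X0)^k coeff k (yP s)`
(here `pdP.x s = yP pd S lam (finProdFinEquiv.symm s)` by `rfl`). `X0` is algebraic (`X0^e = (q e²)^e a`, a positive integer):
let `A : AA` be `X0`; `σ A =: ζ' `, `(ζ')^e = X0^e`, so `ζ := σ A / X0` satisfies `ζ^e = 1`.
`x_conj pd σ hζ` gives `μ` with `SG σ (x_i) (rescale ζ (x_(μ i)))`; `x1P_conj`, `x2P_conj`, `SG.add`, `SG.mul`, `SG.int`: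
`SG σ (yP (i,i)) (rescale ζ (yP (μ i, μ i)))` (`rescale ζ` is a ring homomorphism, `map_natCast`).
So for all `k` (`SG.cj`): `σ (coeff k yP(i,i)) = ζ^k coeff k (yP (μ i, μ i))`. On the other hand
`σ (xu s k) = (σ A)^(-k) σ (coeff k ..)`, i.e. `xu (π s) k = (ζ X0)^(-k) ζ^k coeff k (yP (μ i, μ i)) = X0^(-k) coeff k (..)`. So
`coeff k (yP (π s)) = coeff k (yP (μ i, μ i))` for all `k`, and `yP` is injective: `π (finProdFinEquiv (i,i)) =
finProdFinEquiv (μ i, μ i)`. -/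

namespace Pool.Agent.H97.FB

open Finset Polynomial Pool.Agent.H72.ES Pool.Agent.H87.SA2 Pool.Agent.H52.AC

variable {n m δ : ℕ} {f : ℤ[X][X]}

theorem diag_stab (pd : PData (rv n m f) n) (S : WdP pd.e pd.q δ) (lam : ℕ) (R1 : ℝ)
    (hn : 1 ≤ n) (hf : f.Monic) (hd : f.natDegree = n)
    (hc : ∀ i, (f.coeff i).natDegree ≤ m * (n - i)) (hδ : 1 ≤ δ)
    (hR : (1 + (lam : ℝ)) * RB pd m δ ≤ R1) (hinj : Function.Injective (yP pd S lam))
    {a : ℕ} {X0 : ℝ} (ha : 1 ≤ a) (hX : 0 < X0)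
    (hpow : X0 ^ pd.e = (((pd.q * pd.e ^ 2) ^ pd.e * a : ℕ) : ℝ))
    (σ : AA →+* ℂ) (π : Equiv.Perm (Fin (n * n)))
    (hπ : ∀ (i : Fin (n * n)) (k : ℕ) (b : AA),
      (b : ℂ) = xu (pdP pd S lam R1 hn hf hd hc hδ hR hinj) X0 i k →
      σ b = xu (pdP pd S lam R1 hn hf hd hc hδ hR hinj) X0 (π i) k) (i : Fin n) :
    ∃ i' : Fin n, π (finProdFinEquiv (i, i)) = finProdFinEquiv (i', i') := by
  have hXC : (X0 : ℂ) ≠ 0 := by
    exact_mod_cast hX.ne'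
  have hpowC : (X0 : ℂ) ^ pd.e = (((pd.q * pd.e ^ 2) ^ pd.e * a : ℕ) : ℂ) := by
    exact_mod_cast congrArg (fun t : ℝ => (t : ℂ)) hpow
  have hA : (X0 : ℂ) ∈ AA := by
    rw [mem_algebraicClosure_iff]
    refine IsAlgebraic.of_pow pd.e_pos ?_
    rw [hpowC]
    exact isAlgebraic_natCast _
  obtain ⟨A, hAd⟩ : ∃ A : AA, (A : ℂ) = X0 := ⟨⟨_, hA⟩, rfl⟩
  have hAa : algebraMap AA ℂ A = X0 := hAd
  have hApow : A ^ pd.e = (((pd.q * pd.e ^ 2) ^ pd.e * a : ℕ) : AA) := by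
    apply (algebraMap AA ℂ).injective
    rw [map_pow, hAa, hpowC, map_natCast]
  have hA0 : A ≠ 0 := by
    intro h
    rw [h, map_zero] at hAa
    exact hXC hAa.symm
  obtain ⟨ζ, hζd⟩ : ∃ ζ : ℂ, ζ = σ A / X0 := ⟨_, rfl⟩
  have hσA : σ A = ζ * X0 := by
    rw [hζd, div_mul_cancel₀ _ hXC]
  have hζ0 : ζ ≠ 0 := by
    intro h
    rw [h, zero_mul] at hσA
    exact hA0 ((map_eq_zero σ).1 hσA)
  have hζ : ζ ^ pd.e = 1 := by
    rw [hζd, div_pow, ← map_pow, hApow, map_natCast, hpowC]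
    refine div_self ?_
    rw [← hpowC]
    exact pow_ne_zero _ hXC
  obtain ⟨μ, hμ⟩ := x_conj pd σ hζ
  have hSG : SG σ (yP pd S lam (i, i)) (PowerSeries.rescale ζ (yP pd S lam (μ i, μ i))) := by
    unfold yP
    rw [map_add, map_mul, map_natCast]
    have h1 := SG.int σ (lam : ℤ)
    rw [Int.cast_natCast] at h1
    exact (x1P_conj pd (hμ i)).add (h1.mul (x2P_conj pd S hζ (hμ i)))
  refine ⟨μ i, ?_⟩
  have hcoef : ∀ k, PowerSeries.coeff k
      (yP pd S lam (finProdFinEquiv.symm (π (finProdFinEquiv (i, i))))) =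
      PowerSeries.coeff k (yP pd S lam (μ i, μ i)) := by
    intro k
    obtain ⟨c, hc'⟩ : ∃ c : AA, (c : ℂ) = PowerSeries.coeff k (yP pd S lam (i, i)) :=
      ⟨⟨_, hSG.alg k⟩, rfl⟩
    have h1 := hSG.cj k c hc'
    rw [PowerSeries.coeff_rescale] at h1
    have h2 := hπ (finProdFinEquiv (i, i)) k (A⁻¹ ^ k * c) (by
      have h3 : algebraMap AA ℂ (A⁻¹ ^ k * c) = (X0 : ℂ)⁻¹ ^ k *
          PowerSeries.coeff k (yP pd S lam (i, i)) := by
        rw [map_mul, map_pow, map_inv₀, hAa, ← hc']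
        rfl
      refine (show ((A⁻¹ ^ k * c : AA) : ℂ) = algebraMap AA ℂ (A⁻¹ ^ k * c) from rfl).trans ?_
      rw [h3]
      unfold xu
      rw [one_div, Complex.ofReal_inv]
      congr 2
      change yP pd S lam (i, i) = yP pd S lam (finProdFinEquiv.symm (finProdFinEquiv (i, i)))
      rw [Equiv.symm_apply_apply])
    have h4 : xu (pdP pd S lam R1 hn hf hd hc hδ hR hinj) X0 (π (finProdFinEquiv (i, i))) k =
        (X0 : ℂ)⁻¹ ^ k * PowerSeries.coeff k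
          (yP pd S lam (finProdFinEquiv.symm (π (finProdFinEquiv (i, i))))) := by
      unfold xu
      rw [one_div, Complex.ofReal_inv]
      rfl
    rw [h4, map_mul, map_pow, map_inv₀, h1, hσA, mul_inv, mul_pow] at h2
    have h5 : (X0 : ℂ)⁻¹ ^ k ≠ 0 := pow_ne_zero _ (inv_ne_zero hXC)
    apply mul_left_cancel₀ h5
    rw [← h2]
    have h6 : ζ⁻¹ ^ k * ζ ^ k = 1 := by
      rw [← mul_pow, inv_mul_cancel₀ hζ0, one_pow]
    calc ζ⁻¹ ^ k * (X0 : ℂ)⁻¹ ^ k * (ζ ^ k * PowerSeries.coeff k (yP pd S lam (μ i, μ i)))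
        = (ζ⁻¹ ^ k * ζ ^ k) * ((X0 : ℂ)⁻¹ ^ k *
          PowerSeries.coeff k (yP pd S lam (μ i, μ i))) := by ring
      _ = _ := by rw [h6, one_mul]
  have h7 := hinj (PowerSeries.ext hcoef)
  rw [Equiv.symm_apply_eq] at h7
  exact h7

end Pool.Agent.H97.FB
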