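import Pool.Agent.H97.FB.AND
import Pool.Agent.H72.ES.Local

/-! # [H97 FB ANWa] The series `(1 + e² X)^(-1/e)` with integral coefficients

1. `exists_local e F 1 1` (`Pool/Agent/H72/ES/Local.lean`) with `F 0 e = 1`, `F 1 0 = -1`, all other `F i j = 0`
(`ev n F x y = ∑_(i ≤ n) ∑_(j ≤ n - i) F i j x^i y^j`; `ev e F 1 1 = 0`, `evy e F 1 1 = e`; for `e = 1` the pairs
`(0,1)` and `(1,0)` are still in the range): a series `v ∈ ℤ⟦X⟧` with `v(0) = 1` and `v^e = 1 + e² X`.
2. `w := v⁻¹` (a unit: `PowerSeries.isUnit_iff_constantCoeff`; constant coefficient `1`), `w^e (1 + e² X) = 1`.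
3. Growth: with `w' = PowerSeries.derivative` (`PowerSeries.derivativeFun`/`d⁄dX`): differentiating `w^e (1 + e² X) = 1`
and multiplying by `w (1 + e² X)` gives `e w' (1 + e² X) + e² w = 0`, that is `w' (1 + e² X) = - e w` (cancel `e`), so
`(k+1) w_(k+1) = - (e + e² k) w_k`, `|w_(k+1)| ≤ e² |w_k|` since `e + e² k ≤ e² (k+1)`. Induction. -/

namespace Pool.Agent.H97.FB

open Finset Pool.Agent.H72.ES

private def Fw (e : ℕ) (i j : ℕ) : ℤ :=
  if i = 0 ∧ j = e then 1 else if i = 1 ∧ j = 0 then -1 else 0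

private theorem ev_Fw {S : Type*} [CommRing S] (e : ℕ) (he : 1 ≤ e) (x y : S) :
    ev e (cst S (Fw e)) x y = y ^ e - x := by
  unfold ev cst
  rw [Finset.sum_eq_add 0 1 (by norm_num)]
  · rw [Finset.sum_eq_single e, Finset.sum_eq_single 0]
    · have h1 : Fw e 0 e = 1 := by simp [Fw]
      have h2 : Fw e 1 0 = -1 := by simp [Fw]
      rw [h1, h2]
      push_cast
      ring
    · intro j _ hj
      have h2 : Fw e 1 j = 0 := by simp [Fw, hj]
      rw [h2]
      simp
    · intro h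
      exact absurd (mem_range.2 (by omega)) h
    · intro j _ hj
      have h2 : Fw e 0 j = 0 := by simp [Fw, hj]
      rw [h2]
      simp
    · intro h
      exact absurd (mem_range.2 (by omega)) h
  · intro i _ hi
    refine Finset.sum_eq_zero fun j _ => ?_
    have h2 : Fw e i j = 0 := by simp [Fw, hi.1, hi.2]
    rw [h2]
    simp
  · intro h
    exact absurd (mem_range.2 (by omega)) h
  · intro h
    exact absurd (mem_range.2 (by omega)) h

private theorem evy_Fw (e : ℕ) : evy e (Fw e) (1 : ℤ) 1 = e := by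
  unfold evy
  rw [Finset.sum_eq_single 0]
  · rw [Finset.sum_eq_single e]
    · have h1 : Fw e 0 e = 1 := by simp [Fw]
      rw [h1]
      simp
    · intro j _ hj
      have h2 : Fw e 0 j = 0 := by simp [Fw, hj]
      rw [h2]
      simp
    · intro h
      exact absurd (mem_range.2 (by omega)) h
  · intro i _ hi
    refine Finset.sum_eq_zero fun j _ => ?_
    by_cases hj : j = 0
    · rw [hj]
      simp
    · have h2 : Fw e i j = 0 := by simp [Fw, hi, hj]
      rw [h2]
      simp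
  · intro h
    exact absurd (mem_range.2 (by omega)) h

private theorem w_rec (e : ℕ) (he : 1 ≤ e) (w : PowerSeries ℤ)
    (hw : w ^ e * (1 + PowerSeries.C ((e : ℤ) ^ 2) * PowerSeries.X) = 1) (k : ℕ) :
    ((k : ℤ) + 1) * PowerSeries.coeff (k + 1) w = -((e : ℤ) + (e : ℤ) ^ 2 * k) * PowerSeries.coeff k w := by
  obtain ⟨P, hP⟩ : ∃ P : PowerSeries ℤ, P = 1 + PowerSeries.C ((e : ℤ) ^ 2) * PowerSeries.X := ⟨_, rfl⟩
  obtain ⟨D, hD⟩ : ∃ D : PowerSeries ℤ, D = PowerSeries.derivative ℤ w := ⟨_, rfl⟩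
  rw [← hP] at hw
  have hDP : PowerSeries.derivative ℤ P = PowerSeries.C ((e : ℤ) ^ 2) := by
    rw [hP, map_add, Derivation.leibniz, PowerSeries.derivative_C, PowerSeries.derivative_X]
    simp
  have h1 : PowerSeries.derivative ℤ (w ^ e * P) = 0 := by
    rw [hw]
    simp
  rw [Derivation.leibniz, Derivation.leibniz_pow, hDP, ← hD] at h1
  simp only [smul_eq_mul, nsmul_eq_mul] at h1
  have he1 : w ^ e = w ^ (e - 1) * w := by
    rw [← pow_succ, Nat.sub_add_cancel he]
  have hC : PowerSeries.C ((e : ℤ) ^ 2) = ((e : PowerSeries ℤ)) ^ 2 := by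
    rw [map_pow]
    simp
  have h2 : (e : PowerSeries ℤ) * ((e : PowerSeries ℤ) * w + P * D) = 0 := by
    have h3 : (w ^ e * PowerSeries.C ((e : ℤ) ^ 2) + P * ((e : PowerSeries ℤ) * (w ^ (e - 1) * D))) * (w * P) = 0 := by
      rw [h1, zero_mul]
    have h4 : (w ^ e * PowerSeries.C ((e : ℤ) ^ 2) + P * ((e : PowerSeries ℤ) * (w ^ (e - 1) * D))) * (w * P) =
        (w ^ e * P) * (PowerSeries.C ((e : ℤ) ^ 2) * w) + ((w ^ (e - 1) * w) * P) * ((e : PowerSeries ℤ) * (P * D)) := by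
      ring
    rw [h3, ← he1, hw, hC, one_mul, one_mul] at h4
    rw [mul_add]
    rw [← mul_assoc, ← sq]
    exact h4.symm
  have he0 : (e : PowerSeries ℤ) ≠ 0 := by
    intro h
    have h3 := congrArg PowerSeries.constantCoeff h
    rw [map_natCast, map_zero] at h3
    have : e = 0 := by exact_mod_cast h3
    omega
  have h3 := (mul_eq_zero.1 h2).resolve_left he0
  have h4 : PowerSeries.coeff k ((e : PowerSeries ℤ) * w + P * D) = 0 := by
    rw [h3]
    simp
  have h5 : PowerSeries.coeff k ((e : PowerSeries ℤ) * w) = (e : ℤ) * PowerSeries.coeff k w := by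
    have : (e : PowerSeries ℤ) = PowerSeries.C (e : ℤ) := by simp
    rw [this, PowerSeries.coeff_C_mul]
  have h6 : PowerSeries.coeff k (P * D) = PowerSeries.coeff (k + 1) w * ((k : ℤ) + 1) +
      (e : ℤ) ^ 2 * (k * PowerSeries.coeff k w) := by
    rw [hP, add_mul, one_mul, mul_assoc, map_add, PowerSeries.coeff_C_mul, hD, PowerSeries.coeff_derivative]
    congr 1
    congr 1
    rcases k with _ | k
    · simp
    · rw [PowerSeries.coeff_succ_X_mul, PowerSeries.coeff_derivative]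
      push_cast
      ring
  rw [map_add, h5, h6] at h4
  linear_combination h4

theorem exists_w1 (e : ℕ) (he : 1 ≤ e) : ∃ w : PowerSeries ℤ, PowerSeries.constantCoeff w = 1 ∧
    w ^ e * (1 + PowerSeries.C ((e : ℤ) ^ 2) * PowerSeries.X) = 1 ∧
    ∀ k, |PowerSeries.coeff k w| ≤ (e : ℤ) ^ (2 * k) := by
  have h0 : ev e (Fw e) (1 : ℤ) 1 = 0 := by
    have h1 := ev_Fw (S := ℤ) e he 1 1
    have h2 : cst ℤ (Fw e) = Fw e := by
      funext i j
      simp [cst]
    rw [h2] at h1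
    rw [h1]
    simp
  obtain ⟨v, hv0, hv⟩ := exists_local e (Fw e) 1 1 h0
  rw [evy_Fw, ev_Fw e he, sub_eq_zero, map_one] at hv
  have hu : IsUnit v := by
    rw [PowerSeries.isUnit_iff_constantCoeff, hv0]
    exact isUnit_one
  obtain ⟨u, hu⟩ := hu
  have hvw : v * (↑u⁻¹ : PowerSeries ℤ) = 1 := by
    rw [← hu]
    exact u.mul_inv
  obtain ⟨w, hw⟩ : ∃ w : PowerSeries ℤ, w = (↑u⁻¹ : PowerSeries ℤ) := ⟨_, rfl⟩
  rw [← hw] at hvw
  have hw0 : PowerSeries.constantCoeff w = 1 := by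
    have h1 := congrArg PowerSeries.constantCoeff hvw
    rw [map_mul, hv0, one_mul, map_one] at h1
    exact h1
  have hwe : w ^ e * (1 + PowerSeries.C ((e : ℤ) ^ 2) * PowerSeries.X) = 1 := by
    rw [← hv, ← mul_pow, mul_comm, hvw, one_pow]
  refine ⟨w, hw0, hwe, ?_⟩
  intro k
  induction k with
  | zero =>
    rw [PowerSeries.coeff_zero_eq_constantCoeff_apply, hw0]
    simp
  | succ k ih =>
    have h1 := w_rec e he w hwe k
    have h2 := congrArg abs h1
    rw [abs_mul, abs_mul, abs_neg, abs_of_nonneg (by positivity : (0 : ℤ) ≤ (k : ℤ) + 1),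
      abs_of_nonneg (by positivity : (0 : ℤ) ≤ (e : ℤ) + (e : ℤ) ^ 2 * k)] at h2
    have he1 : (1 : ℤ) ≤ e := by exact_mod_cast he
    have h3 : (e : ℤ) + (e : ℤ) ^ 2 * k ≤ ((k : ℤ) + 1) * (e : ℤ) ^ 2 := by nlinarith
    have h4 : ((k : ℤ) + 1) * |PowerSeries.coeff (k + 1) w| ≤ ((k : ℤ) + 1) * ((e : ℤ) ^ 2 * (e : ℤ) ^ (2 * k)) := by
      rw [h2]
      calc ((e : ℤ) + (e : ℤ) ^ 2 * k) * |PowerSeries.coeff k w|
          ≤ (((k : ℤ) + 1) * (e : ℤ) ^ 2) * (e : ℤ) ^ (2 * k) :=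
            mul_le_mul h3 ih (abs_nonneg _) (by positivity)
        _ = _ := by ring
    have h5 := le_of_mul_le_mul_left h4 (by positivity)
    calc |PowerSeries.coeff (k + 1) w| ≤ (e : ℤ) ^ 2 * (e : ℤ) ^ (2 * k) := h5
      _ = (e : ℤ) ^ (2 * (k + 1)) := by
        rw [← pow_add]
        congr 1
        ring

end Pool.Agent.H97.FB
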