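import Pool.Agent.H97.FB.EQX
import Pool.Agent.H97.NW.SIE
import Pool.Agent.H97.NW.CNT
import Pool.Agent.H52.AC.UB
import Pool.Agent.H87.SA2.DnB

/-! # [H97 FB AXX] The auxiliary function

Adapt `auxAZ` (`Pool/Agent/H8/RZ/AXA.lean`, landed, 150 lines). `siegel_gen` with `ι = (Fin (J + 1) × Fin Dn) × Mo P N`, `C = {K' // K' ∈ cells (Fin.snoc ℓ L) TT}`, `P = {z // z ∈ tu.PP}`,
`V K' z ((s, j), μ) = (M^((k+e-1)/e) * (1/X0)^k * zcR X0 e (zs z.1) k s j) * ∑_ρ ∏_v coeff (e_v K_v + ρ_v) (uu ..)`, `k = K' (Fin.last m)`, `K_v = K' v.castSucc`; so with `A s j μ := if s ≤ J ∧ j < Dn then (solution at (s, j, μ)) else 0`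
the linear form is `M^.. (1/X0)^k ∑_ρ BmC P D N (Ak an J A k z.1) z.2 (e K + ρ)` (`Finset.sum_comm`, `Fintype.sum_prod_type`, `Finset.sum_range`). Conjugation: `cj_x` restricted to the subtype (`(M : ℂ)` and `1/X0` are real).
Bounds: `‖M^⌈k/e⌉ (1/X0)^k‖ ≤ X0^e` (`fac_GX`: it is `X0^(e⌈k/e⌉ - k)`, exponent `≤ e`); `‖zcR‖ ≤ (X0^κ)^Dl * 2^Dl * (2R)^k ≤ .. * B2` (`zcR_le` of `Pool/Agent/H87/SA2/DnB.lean` with `ν = ‖·‖` (`subMul_normC` in `Pool/Agent/H87/AX/SG.lean`), `hx0`: `‖X0^r‖ ≤ X0^κ` for `r < e` is `AnchX.X0_le` there or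
`ψ_le`, `ν_x0`); if `K'` is a cell then `k * L < TT`, so `hB2` applies, and `∑ ℓ_v K_v < TT`, so `hB` applies to `K ∈ cells ℓ TT`. The rest word by word as in `auxAZ`. Then `cell_zero_x`; for `K` arbitrary take `K_v / e_v`, `ρ_v = K_v % e_v`.
`NZA`: the solution is not zero, so one value `A s j μ ≠ 0` with `s ≤ J`, `j < Dn`. -/

namespace Pool.Agent.H97.FB

open Finset Polynomial Pool.Agent.H72.ES Pool.Agent.H87.SA Pool.Agent.H87.SA2 Pool.Agent.H87.AX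
  Pool.Agent.H8.AW Pool.Agent.H52.AC Pool.Agent.H97.NW Pool.Agent.H8.RZ

variable {m n : ℕ} {Dn Dl κ e M : ℕ} {X0 R : ℝ}

private theorem axx_swap {U R M : Type*} [Fintype U] [Fintype R] [Fintype M] (Q : ℂ) (z : U → ℂ)
    (A : U × M → ℂ) (F : R → M → ℂ) :
    Q * ∑ ρ, ∑ μ, (∑ u, z u * A (u, μ)) * F ρ μ =
      ∑ x : U × M, A x * ((Q * z x.1) * ∑ ρ, F ρ x.2) := by
  rw [Fintype.sum_prod_type]
  have h1 : ∀ ρ, ∑ μ, (∑ u, z u * A (u, μ)) * F ρ μ = ∑ u, ∑ μ, z u * A (u, μ) * F ρ μ := by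
    intro ρ
    rw [Finset.sum_comm]
    refine Finset.sum_congr rfl fun μ _ => ?_
    rw [Finset.sum_mul]
  rw [Finset.sum_congr rfl fun ρ _ => h1 ρ, Finset.sum_comm, Finset.mul_sum]
  refine Finset.sum_congr rfl fun u _ => ?_
  rw [Finset.sum_comm, Finset.mul_sum]
  refine Finset.sum_congr rfl fun μ _ => ?_
  rw [Finset.mul_sum, Finset.mul_sum, Finset.mul_sum]
  refine Finset.sum_congr rfl fun ρ _ => ?_
  ring

private theorem axx_X0_le (an : AnchX Dn Dl κ e M X0 R) {r : ℕ} (hr : r < e) :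
    ‖(X0 : ℂ) ^ r‖ ≤ X0 ^ κ := by
  have h1 := (an.ψ_le _).trans (an.ν_x0 r hr)
  rw [map_pow, an.ψ_x0] at h1
  rw [norm_pow, Complex.norm_real, Real.norm_eq_abs, ← abs_pow]
  exact h1

private theorem axx_subMul : SubMul (fun z : ℂ => ‖z‖) where
  nonneg := norm_nonneg
  zero := norm_zero
  neg := norm_neg
  add := norm_add_le
  mul a b := (norm_mul a b).le
  one := by simp

private theorem axx_fac (he : 1 ≤ e) (hX : 1 ≤ X0) (hM : X0 ^ e = (M : ℝ)) (k : ℕ) :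
    ‖(M : ℂ) ^ ((k + e - 1) / e) * (((1 / X0 : ℝ)) : ℂ) ^ k‖ ≤ X0 ^ e := by
  rw [fac_GX he hX hM, norm_pow, Complex.norm_real, Real.norm_of_nonneg (by linarith)]
  apply pow_le_pow_right₀ hX
  have h1 : e * ((k + e - 1) / e) ≤ k + e - 1 := Nat.mul_div_le _ _
  omega

theorem auxAX (an : AnchX Dn Dl κ e M X0 R) (hD : 1 ≤ Dn) (hDl : Dn ≤ Dl) (he : 1 ≤ e)
    (hX : 1 ≤ X0) (hM : X0 ^ e = (M : ℝ)) (hR : 1 ≤ R) (P : Fin m → Ptd n) (tu : TupX an P)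
    (D N : Fin m → ℕ) (J : ℕ) (hN : ∀ v, 1 ≤ N v) (ℓ : Fin m → ℝ) (hℓ : ∀ v, 0 < ℓ v) (L : ℝ)
    (hL : 0 < L) (TT : ℝ) (hTT : 0 < TT) (r' : ℕ) (hr' : 1 ≤ r')
    (hcount : (r' + 1) * (tu.PP.card * (cells (Fin.snoc ℓ L : Fin (m + 1) → ℝ) TT).card) ≤
      r' * ((J + 1) * Dn * ∏ v, (N v * (P v).d))) (B : ℝ)
    (hB : ∀ K ∈ cells ℓ TT, ∏ v, (((P v).C.pd.e : ℝ) *
      (2 * (P v).C.pd.q * (P v).C.pd.R) ^ ((P v).C.pd.e * (K v + 1) + n)) ≤ B) (B2 : ℝ)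
    (hB2 : ∀ k : ℕ, (k : ℝ) * L < TT → (2 * R) ^ k ≤ B2) :
    ∃ A : ℕ → ℕ → Mo P N → ℤ, NZA J Dn A ∧
      (∀ s j μ, |(A s j μ : ℝ)| ≤ (4 * ((((J + 1) * Dn * ∏ v, (N v * (P v).d) : ℕ) : ℝ) *
        (X0 ^ e * ((X0 ^ κ) ^ Dl * 2 ^ Dl * B2) * B))) ^ r') ∧
      ∀ z ∈ tu.PP, ∀ (k : ℕ) (K : Fin m → ℕ),
        (k : ℝ) * L + ∑ v, ℓ v * ((K v / (P v).C.pd.e : ℕ) : ℝ) < TT →
        BmC P D N (Ak an J A k z.1) z.2 K = 0 := by
  classical
  obtain ⟨cz, hcz1, hcz2, hcz3, hcz4⟩ := cj_x an he hX hM P tu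
  have hq1 : ∀ v, (1 : ℝ) ≤ (P v).C.pd.q := fun v => by exact_mod_cast (P v).C.pd.q_pos
  have hR1 : ∀ v, (2 : ℝ) ≤ (P v).C.pd.R := fun v => (P v).C.pd.R_ge
  have he1 : ∀ v, (1 : ℝ) ≤ (P v).C.pd.e := fun v => by exact_mod_cast (P v).C.pd.e_pos
  have hX1 : ∀ v, (1 : ℝ) ≤ 2 * (P v).C.pd.q * (P v).C.pd.R := fun v => by
    have h1 := hq1 v
    have h2 := hR1 v
    nlinarith
  have hsn : ∀ v, 0 < (Fin.snoc ℓ L : Fin (m + 1) → ℝ) v := by
    intro v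
    refine Fin.lastCases ?_ (fun v => ?_) v
    · rw [Fin.snoc_last]
      exact hL
    · rw [Fin.snoc_castSucc]
      exact hℓ v
  let cj : {z // z ∈ tu.PP} → {z // z ∈ tu.PP} := fun z => ⟨cz z.1, hcz1 z.1 z.2⟩
  have hcj : ∀ z, cj (cj z) = z := by
    intro z
    apply Subtype.ext
    exact hcz2 z.1
  let V : {K // K ∈ cells (Fin.snoc ℓ L : Fin (m + 1) → ℝ) TT} → {z // z ∈ tu.PP} →
      ((Fin (J + 1) × Fin Dn) × Mo P N) → ℂ := fun K z x =>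
    (((M : ℂ) ^ ((K.1 (Fin.last m) + e - 1) / e) * (((1 / X0 : ℝ)) : ℂ) ^ (K.1 (Fin.last m))) *
      zcR (X0 : ℂ) e (an.zs z.1.1) (K.1 (Fin.last m)) (x.1.1 : ℕ) (x.1.2 : ℕ)) *
    ∑ ρ : (∀ v, Fin (P v).C.pd.e), ∏ v, PowerSeries.coeff ((P v).C.pd.e * K.1 v.castSucc + (ρ v : ℕ))
      (uu (P v).C.pd.q (P v).C.pd.e ((P v).C.pd.x (z.1.2 v)) (D v) (x.2 v).1 (x.2 v).2)
  have hconj : ∀ K z x, V K (cj z) x = (starRingEnd ℂ) (V K z x) := by
    intro K z x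
    simp only [V, cj]
    rw [map_mul, map_mul, map_mul, map_pow, map_pow, map_natCast, Complex.conj_ofReal, map_sum, hcz3]
    congr 1
    refine Finset.sum_congr rfl fun ρ _ => ?_
    rw [map_prod]
    refine Finset.prod_congr rfl fun v _ => ?_
    exact hcz4 _ _ _ _ _ _
  have hcell : ∀ K ∈ cells (Fin.snoc ℓ L : Fin (m + 1) → ℝ) TT,
      (fun v : Fin m => K v.castSucc) ∈ cells ℓ TT ∧ (K (Fin.last m) : ℝ) * L < TT := by
    intro K hK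
    rw [mem_cells hsn, Fin.sum_univ_castSucc] at hK
    simp only [Fin.snoc_castSucc, Fin.snoc_last] at hK
    rw [mem_cells hℓ]
    have h1 : 0 ≤ L * (K (Fin.last m) : ℝ) := by positivity
    have h2 : 0 ≤ ∑ v : Fin m, ℓ v * (K v.castSucc : ℝ) :=
      Finset.sum_nonneg fun v _ => mul_nonneg (hℓ v).le (Nat.cast_nonneg _)
    constructor
    · linarith
    · linarith
  set B' : ℝ := X0 ^ e * ((X0 ^ κ) ^ Dl * 2 ^ Dl * B2) with hB'
  have hB21 : 1 ≤ B2 := by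
    have h1 := hB2 0 (by simpa using hTT)
    rwa [pow_zero] at h1
  have hB'1 : 1 ≤ B' := by
    rw [hB']
    refine one_le_mul_of_one_le_of_one_le (one_le_pow₀ hX) ?_
    refine one_le_mul_of_one_le_of_one_le ?_ hB21
    exact one_le_mul_of_one_le_of_one_le (one_le_pow₀ (one_le_pow₀ hX)) (one_le_pow₀ (by norm_num))
  have hVn : ∀ K z x, ‖V K z x‖ ≤ B' * B := by
    intro K z x
    simp only [V]
    rw [norm_mul, norm_mul, hB']
    have hz := zcR_le axx_subMul (A := X0 ^ κ) (R := R) (one_le_pow₀ hX) hR (x0 := (X0 : ℂ)) he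
      (fun r hr => axx_X0_le an hr) (an.zs_le z.1.1) hDl (K.1 (Fin.last m)) (x.1.1 : ℕ) (x.1.2 : ℕ)
      x.1.2.isLt
    have hz2 : ‖zcR (X0 : ℂ) e (an.zs z.1.1) (K.1 (Fin.last m)) (x.1.1 : ℕ) (x.1.2 : ℕ)‖ ≤
        (X0 ^ κ) ^ Dl * 2 ^ Dl * B2 := by
      refine hz.trans ?_
      apply mul_le_mul_of_nonneg_left (hB2 _ (hcell K.1 K.2).2)
      positivity
    refine mul_le_mul (mul_le_mul (axx_fac he hX hM _) hz2 (norm_nonneg _) (by positivity)) ?_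
      (norm_nonneg _) (by positivity)
    refine le_trans ?_ (hB (fun v => K.1 v.castSucc) (hcell K.1 K.2).1)
    refine (norm_sum_le _ _).trans ?_
    have h1 : ∀ ρ ∈ (Finset.univ : Finset (∀ v, Fin (P v).C.pd.e)),
        ‖∏ v, PowerSeries.coeff ((P v).C.pd.e * K.1 v.castSucc + (ρ v : ℕ))
        (uu (P v).C.pd.q (P v).C.pd.e ((P v).C.pd.x (z.1.2 v)) (D v) (x.2 v).1 (x.2 v).2)‖ ≤
        ∏ v, (2 * ((P v).C.pd.q : ℝ) * (P v).C.pd.R) ^ ((P v).C.pd.e * (K.1 v.castSucc + 1) + n) := by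
      intro ρ _
      rw [norm_prod]
      refine Finset.prod_le_prod (fun v _ => norm_nonneg _) fun v _ => ?_
      refine (uu_le (P v).C.pd.q_pos (by linarith [hR1 v]) ((P v).C.pd.growth (z.1.2 v)) _ _ _ _).trans ?_
      apply pow_le_pow_right₀ (hX1 v)
      have h2 : ((x.2 v).2 : ℕ) < (P v).d := (x.2 v).2.2
      have h3 := (P v).C.dn
      have h4 : (ρ v : ℕ) < (P v).C.pd.e := (ρ v).2
      have h5 : (P v).C.pd.e * (K.1 v.castSucc + 1) = (P v).C.pd.e * K.1 v.castSucc + (P v).C.pd.e := by ring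
      omega
    refine (Finset.sum_le_sum h1).trans (le_of_eq ?_)
    rw [Finset.sum_const, Finset.card_univ, Fintype.card_pi, nsmul_eq_mul]
    push_cast
    rw [← Finset.prod_mul_distrib]
    refine Finset.prod_congr rfl fun v _ => ?_
    rw [Fintype.card_fin]
  have hcardM : Fintype.card (Mo P N) = ∏ v, (N v * (P v).d) := by
    rw [Fintype.card_pi]
    refine Finset.prod_congr rfl fun v _ => ?_
    rw [Fintype.card_prod, Fintype.card_fin, Fintype.card_fin]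
  have hcard : Fintype.card ((Fin (J + 1) × Fin Dn) × Mo P N) =
      (J + 1) * Dn * ∏ v, (N v * (P v).d) := by
    rw [Fintype.card_prod, hcardM, Fintype.card_prod, Fintype.card_fin, Fintype.card_fin]
  have hcard0 : 0 < Fintype.card ((Fin (J + 1) × Fin Dn) × Mo P N) := by
    rw [hcard]
    refine Nat.mul_pos (Nat.mul_pos (Nat.succ_pos J) hD) (Finset.prod_pos fun v _ => ?_)
    exact Nat.mul_pos (hN v) (P v).C.d1
  have hB1 : 1 ≤ B := by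
    have h0 : (fun _ => 0 : Fin m → ℕ) ∈ cells ℓ TT := by
      rw [mem_cells hℓ]
      simpa using hTT
    refine le_trans ?_ (hB _ h0)
    refine Finset.prod_induction _ (fun x : ℝ => 1 ≤ x)
      (fun a b ha hb => one_le_mul_of_one_le_of_one_le ha hb) le_rfl fun v _ => ?_
    exact one_le_mul_of_one_le_of_one_le (he1 v) (one_le_pow₀ (hX1 v))
  have hM1 : 1 ≤ (((J + 1) * Dn * ∏ v, (N v * (P v).d) : ℕ) : ℝ) * (B' * B) := by
    apply one_le_mul_of_one_le_of_one_le _ (one_le_mul_of_one_le_of_one_le hB'1 hB1)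
    rw [← hcard]
    exact_mod_cast hcard0
  obtain ⟨A, hA0, hAb, hAs⟩ := siegel_gen V cj hcj hconj hM1
    (by
      intro K z
      calc ∑ x, ‖V K z x‖ ≤ ∑ _x : (Fin (J + 1) × Fin Dn) × Mo P N, B' * B :=
            Finset.sum_le_sum fun x _ => hVn K z x
        _ = (((J + 1) * Dn * ∏ v, (N v * (P v).d) : ℕ) : ℝ) * (B' * B) := by
            rw [Finset.sum_const, Finset.card_univ, nsmul_eq_mul, hcard]) hr'
    (by
      rw [Fintype.card_coe, Fintype.card_coe, hcard]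
      exact hcount) hcard0
  obtain ⟨A1, hA1⟩ : ∃ A1 : ℕ → ℕ → Mo P N → ℤ, A1 = fun s j μ =>
      if h : s < J + 1 ∧ j < Dn then A ((⟨s, h.1⟩, ⟨j, h.2⟩), μ) else 0 := ⟨_, rfl⟩
  have hA1e : ∀ (s : Fin (J + 1)) (j : Fin Dn) (μ : Mo P N), A1 (s : ℕ) (j : ℕ) μ = A ((s, j), μ) := by
    intro s j μ
    rw [hA1]
    simp only
    rw [dif_pos ⟨s.isLt, j.isLt⟩]
  refine ⟨A1, ?_, ?_, ?_⟩
  · obtain ⟨x, hx⟩ := Function.ne_iff.1 hA0
    refine ⟨(x.1.1 : ℕ), Nat.lt_succ_iff.1 x.1.1.isLt, (x.1.2 : ℕ), x.1.2.isLt, fun h0 => ?_⟩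
    apply hx
    have h1 := congrFun h0 x.2
    rw [hA1e] at h1
    exact h1
  · intro s j μ
    rw [hA1]
    simp only
    split_ifs with h
    · exact hAb _
    · rw [Int.cast_zero, abs_zero]
      apply pow_nonneg
      linarith
  intro z hz k K hk
  have hmem : (Fin.snoc (fun v => K v / (P v).C.pd.e) k : Fin (m + 1) → ℕ) ∈
      cells (Fin.snoc ℓ L : Fin (m + 1) → ℝ) TT := by
    rw [mem_cells hsn, Fin.sum_univ_castSucc]
    simp only [Fin.snoc_castSucc, Fin.snoc_last]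
    linarith
  have hsmall : ∀ z ∈ tu.PP, ‖(M : ℂ) ^ ((k + e - 1) / e) * (((1 / X0 : ℝ)) : ℂ) ^ k *
      ∑ ρ : (∀ v, Fin (P v).C.pd.e),
        BmC P D N (Ak an J A1 k z.1) z.2
          (fun v => (P v).C.pd.e * (K v / (P v).C.pd.e) + (ρ v : ℕ))‖ < 1 := by
    intro z hz
    have h1 := hAs ⟨_, hmem⟩ ⟨z, hz⟩
    have h2 : (M : ℂ) ^ ((k + e - 1) / e) * (((1 / X0 : ℝ)) : ℂ) ^ k *
        ∑ ρ : (∀ v, Fin (P v).C.pd.e),
        BmC P D N (Ak an J A1 k z.1) z.2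
          (fun v => (P v).C.pd.e * (K v / (P v).C.pd.e) + (ρ v : ℕ)) =
        ∑ x, (A x : ℂ) * V ⟨_, hmem⟩ ⟨z, hz⟩ x := by
      simp only [V, Fin.snoc_castSucc, Fin.snoc_last]
      have h3 : ∀ μ : Mo P N, Ak an J A1 k z.1 μ = ∑ u : Fin (J + 1) × Fin Dn,
          zcR (X0 : ℂ) e (an.zs z.1) k (u.1 : ℕ) (u.2 : ℕ) * (A (u, μ) : ℂ) := by
        intro μ
        unfold Ak
        rw [Fintype.sum_prod_type, Finset.sum_range]
        refine Finset.sum_congr rfl fun s _ => ?_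
        rw [Finset.sum_range]
        refine Finset.sum_congr rfl fun j _ => ?_
        rw [hA1e]
      unfold BmC
      simp only [h3]
      exact axx_swap ((M : ℂ) ^ ((k + e - 1) / e) * (((1 / X0 : ℝ)) : ℂ) ^ k)
        (fun u : Fin (J + 1) × Fin Dn => zcR (X0 : ℂ) e (an.zs z.1) k (u.1 : ℕ) (u.2 : ℕ))
        (fun x : (Fin (J + 1) × Fin Dn) × Mo P N => (A x : ℂ))
        (fun (ρ : ∀ v, Fin (P v).C.pd.e) (μ : Mo P N) => ∏ v,
          PowerSeries.coeff ((P v).C.pd.e * (K v / (P v).C.pd.e) + (ρ v : ℕ))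
          (uu (P v).C.pd.q (P v).C.pd.e ((P v).C.pd.x (z.2 v)) (D v) (μ v).1 (μ v).2))
    rw [h2]
    exact h1
  have h3 := cell_zero_x an he hX hM P tu D N J A1 k _ hsmall z hz
    (fun v => ⟨K v % (P v).C.pd.e, Nat.mod_lt _ (P v).C.pd.e_pos⟩)
  have h4 : (fun v => (P v).C.pd.e * (K v / (P v).C.pd.e) + K v % (P v).C.pd.e) = K := by
    funext v
    exact Nat.div_add_mod _ _
  simp only [h4] at h3
  exact h3

end Pool.Agent.H97.FB
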