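import Pool.Agent.H8.RZ.Defs
import Pool.Agent.H87.AX.Defs

/-!
# MP_821da1_nt, Families (helper97): basic definitions

Complete proof: table `proofs`, id 331. Built on `Pool/Agent/H97/NW` (`Ptd n` = pointed curve in
normal form, `ell`, `Thr`, `Mo`, `Df`, `Nf`, `psi`), on the complex arrays of `Pool/Agent/H8/RZ`
(`BmC`, `LmC`, `VmC`, `Nearby`) and on the anchors `AnchX` of `Pool/Agent/H87/AX/Defs.lean`.
`TupX an P`: the set of pairs (conjugate of the anchor, tuple of branches).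
The unknown function is `G = ∑_(s ≤ J, j < Dn) x0^(s mod e) x^s Z(x)^j ∑_μ A s j μ μ(x_v, y_v)`.
`Ak an J A k i μ`: the coefficient of `x^k` for the conjugate `i` of the anchor.
`Fl an J A l μ`: the coefficient of `v^l` of the Taylor expansion at `x = 1/X0 + v` (real).
`uA an J A μ`: the series over `E`.
`NZA J Dn A`: some `A s j` with `s ≤ J`, `j < Dn` is not zero.
`Bnd`: all parameters of the anchor are at most `Q0`; `Scl c`: the anchor is far above its constants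
and far below the points.
-/

namespace Pool.Agent.H97.FB

open Finset Polynomial Pool.Agent.H72.ES Pool.Agent.H87.SA Pool.Agent.H87.SA2 Pool.Agent.H87.AX
  Pool.Agent.H8.AW Pool.Agent.H52.AC Pool.Agent.H97.NW Pool.Agent.H8.RZ

variable {m n : ℕ}

/-- the pairs (conjugate of the anchor, tuple of branches) -/
structure TupX {Dn Dl κ e M : ℕ} {X0 R : ℝ} (an : AnchX Dn Dl κ e M X0 R) (P : Fin m → Ptd n) where
  PP : Finset (an.I × (∀ v, Fin (P v).d))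
  mem : (an.i0, fun v => (P v).i) ∈ PP
  gal : ∀ σ : AA →+* ℂ, ∃ π1 : an.I → an.I,
    (∀ (i : an.I) (k : ℕ) (a : AA),
      (a : ℂ) = (((1 / X0 : ℝ)) : ℂ) ^ k * PowerSeries.coeff k (an.zs i) →
      σ a = (((1 / X0 : ℝ)) : ℂ) ^ k * PowerSeries.coeff k (an.zs (π1 i))) ∧
    ∀ p ∈ PP, ∀ p' : ∀ v, Fin (P v).d,
      (∀ (v : Fin m) (k : ℕ) (a : AA), (a : ℂ) = PowerSeries.coeff k ((P v).C.pd.x (p.2 v)) →
        σ a = PowerSeries.coeff k ((P v).C.pd.x (p' v))) → (π1 p.1, p') ∈ PP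
  rot : ∀ ζ : Fin m → ℂ, (∀ v, ζ v ^ (P v).C.pd.e = 1) → ∀ p ∈ PP, ∀ p' : ∀ v, Fin (P v).d,
    (∀ v, PowerSeries.rescale (ζ v) ((P v).C.pd.x (p.2 v)) = (P v).C.pd.x (p' v)) →
    (p.1, p') ∈ PP

/-- the coefficient of `x^k` of the unknown function, for the conjugate `i` of the anchor -/
noncomputable def Ak {Dn Dl κ e M : ℕ} {X0 R : ℝ} (an : AnchX Dn Dl κ e M X0 R)
    {P : Fin m → Ptd n} {N : Fin m → ℕ} (J : ℕ) (A : ℕ → ℕ → Mo P N → ℤ) (k : ℕ) (i : an.I)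
    (μ : Mo P N) : ℂ :=
  ∑ s ∈ range (J + 1), ∑ j ∈ range Dn, zcR (X0 : ℂ) e (an.zs i) k s j * (A s j μ : ℂ)

/-- the series over `E` -/
noncomputable def uA {Dn Dl κ e M : ℕ} {X0 R : ℝ} (an : AnchX Dn Dl κ e M X0 R)
    {P : Fin m → Ptd n} {N : Fin m → ℕ} (J : ℕ) (A : ℕ → ℕ → Mo P N → ℤ) (μ : Mo P N) :
    PowerSeries an.E :=
  usR an.x0 e J Dn (fun s j => A s j μ) an.Z

/-- the coefficient of `v^l` of the Taylor expansion at `x = 1/X0 + v` -/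
noncomputable def Fl {Dn Dl κ e M : ℕ} {X0 R : ℝ} (an : AnchX Dn Dl κ e M X0 R)
    {P : Fin m → Ptd n} {N : Fin m → ℕ} (J : ℕ) (A : ℕ → ℕ → Mo P N → ℤ) (l : ℕ) (μ : Mo P N) : ℝ :=
  PowerSeries.coeff l (tay (1 / X0) ((uA an J A μ).map an.ψ))

/-- the unknown function is not zero -/
def NZA {P : Fin m → Ptd n} {N : Fin m → ℕ} (J Dn : ℕ) (A : ℕ → ℕ → Mo P N → ℤ) : Prop :=
  ∃ s ≤ J, ∃ j < Dn, A s j ≠ 0

/-- the parameters of the anchor are bounded -/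
structure Bnd (Q0 Dn Dl κ e M : ℕ) (X0 R : ℝ) : Prop where
  D1 : 1 ≤ Dn
  DDl : Dn ≤ Dl
  Dl_le : Dl ≤ Q0
  κ1 : 1 ≤ κ
  κ_le : κ ≤ Q0
  e1 : 1 ≤ e
  e_le : e ≤ Q0
  R2 : 2 ≤ R
  pow : X0 ^ e = (M : ℝ)

/-- the anchor is far above its constants and far below the points -/
structure Scl (c : ℕ) (X0 R : ℝ) (P : Fin m → Ptd n) : Prop where
  RX : (2 * R) ^ c ≤ X0
  thr : ∀ v, (P v).Thr c
  low : ∀ v, c * Real.log X0 ≤ (P v).ell

/-- the number of powers of `x`, minus one -/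
noncomputable def Jx (X0 Y : ℝ) : ℕ := ⌊Y / Real.log X0⌋₊

end Pool.Agent.H97.FB
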