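import Pool.Agent.H8.RZ.CNA
import Pool.Agent.H97.FB.Defs

/-! # [H97 FB CNX] Counting cells and unknowns, with the block `x` of the anchor

`count_abs` (`Pool/Agent/H8/RZ/CNA.lean`) applied to `m + 1`, `max n Q0`, `ℓ' = w' = Fin.snoc (fun v => (P v).ell) L`, `lam = 1`, `d' = Fin.snoc (fun v => (P v).d) Dn`, `c` the same (`Fin.prod_univ_castSucc`, `Fin.snoc_castSucc`, `Fin.snoc_last`, `Fin.lastCases`), exactly as `count_z` in the same file.
`Nf P Y v = ⌊Y / ell⌋₊ + 1 - d` by definition. The last factor is `(⌊Y/L⌋₊ + 1 - Dn) * Dn ≤ (⌊Y/L⌋₊ + 1) * Dn`. -/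

/-! # [H97 FB CNX] Counting cells and unknowns, with the block `x` of the anchor

`count_abs` (`Pool/Agent/H8/RZ/CNA.lean`) applied to `m + 1`, `max n Q0`, `ℓ' = w' = Fin.snoc (fun v => (P v).ell) L`, `lam = 1`, `d' = Fin.snoc (fun v => (P v).d) Dn`, `c` the same (`Fin.prod_univ_castSucc`, `Fin.snoc_castSucc`, `Fin.snoc_last`, `Fin.lastCases`), exactly as `count_z` in the same file.
`Nf P Y v = ⌊Y / ell⌋₊ + 1 - d` by definition. The last factor is `(⌊Y/L⌋₊ + 1 - Dn) * Dn ≤ (⌊Y/L⌋₊ + 1) * Dn`. -/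

namespace Pool.Agent.H97.FB

open Finset Pool.Agent.H97.NW Pool.Agent.H8.RZ

theorem count_x (m n Q0 : ℕ) (hm : 1 ≤ m) (γ : ℝ) (hγ : 0 < γ) : ∃ (η K0 : ℝ) (r : ℕ),
    0 < η ∧ η ≤ 1 ∧ 1 ≤ K0 ∧ 1 ≤ r ∧ ∀ (P : Fin m → Ptd n) (Dn c : ℕ) (L : ℝ),
      1 ≤ Dn → Dn ≤ Q0 → 0 < L → (∀ v, 0 < (P v).ell) →
      (1 + γ) * (((m : ℝ) + 1) ^ (m + 1) * (c : ℝ)) ≤
        ((m + 1).factorial : ℝ) * ((Dn : ℝ) * ∏ v, ((P v).d : ℝ)) →
      ∀ Y : ℝ, (∀ v, K0 * (P v).ell ≤ Y) → K0 * L ≤ Y →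
      (∀ v, 1 ≤ Nf P Y v) ∧
      (r + 1) * (c * (cells (Fin.snoc (fun v => (P v).ell) L : Fin (m + 1) → ℝ)
        (((m : ℝ) + 1 + η) * Y)).card) ≤
        r * ((⌊Y / L⌋₊ + 1) * Dn * ∏ v, (Nf P Y v * (P v).d)) := by
  obtain ⟨η, K0, r, h1, h2, h3, h4, h5⟩ :=
    count_abs (m + 1) (max n Q0) (Nat.le_add_left 1 m) γ hγ
  refine ⟨η, K0, r, h1, h2, h3, h4, ?_⟩
  intro P Dn c L hD1 hDQ hL hell hc Y hY hYL
  obtain ⟨h6, h7⟩ := h5 (Fin.snoc (fun v => (P v).ell) L : Fin (m + 1) → ℝ)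
    (Fin.snoc (fun v => (P v).ell) L : Fin (m + 1) → ℝ) 1
    (Fin.snoc (fun v => (P v).d) Dn : Fin (m + 1) → ℕ) c
    (fun v => by
      refine Fin.lastCases ?_ (fun i => ?_) v
      · rw [Fin.snoc_last]
        exact hD1
      · rw [Fin.snoc_castSucc]
        exact (P i).C.d1)
    (fun v => by
      refine Fin.lastCases ?_ (fun i => ?_) v
      · rw [Fin.snoc_last]
        exact hDQ.trans (le_max_right _ _)
      · rw [Fin.snoc_castSucc]
        exact (P i).C.dn.trans (le_max_left _ _))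
    one_pos
    (fun v => by
      refine Fin.lastCases ?_ (fun i => ?_) v
      · rw [Fin.snoc_last]
        exact hL
      · rw [Fin.snoc_castSucc]
        exact hell i)
    (fun v => le_rfl)
    (by rw [one_mul])
    (by
      rw [Fin.prod_univ_castSucc]
      simp only [Fin.snoc_castSucc, Fin.snoc_last]
      push_cast
      refine hc.trans (le_of_eq ?_)
      ring)
    Y
    (fun v => by
      refine Fin.lastCases ?_ (fun i => ?_) v
      · rw [Fin.snoc_last]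
        exact hYL
      · rw [Fin.snoc_castSucc]
        exact hY i)
  refine ⟨fun v => ?_, ?_⟩
  · have h8 := h6 (Fin.castSucc v)
    rw [Fin.snoc_castSucc, Fin.snoc_castSucc] at h8
    exact h8
  · rw [Fin.prod_univ_castSucc] at h7
    simp only [Fin.snoc_castSucc, Fin.snoc_last] at h7
    push_cast at h7
    refine h7.trans ?_
    refine Nat.mul_le_mul_left _ ?_
    rw [mul_comm (∏ v : Fin m, _)]
    exact Nat.mul_le_mul (Nat.mul_le_mul_right _ (Nat.sub_le _ _)) le_rfl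

end Pool.Agent.H97.FB
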