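import Pool.Agent.H97.FB.AXX
import Pool.Agent.H97.FB.CNX
import Pool.Agent.H97.NW.PTF

/-! # [H97 FB AXY] The auxiliary function with the bound `exp (δ Y)`

Adapt `auxBZ` (`Pool/Agent/H8/RZ/AXB.lean`, landed, 300 lines; copy the private lemma `axb_one`). `η, K0, r'` from `count_x m n Q0 hm γ`. `L = log X0`. FACTS (`h : Scl c X0 R P`, `c ≥ 2`, `R ≥ 2`): `4 ≤ 2 R`, so `c ≤ c log (2R) ≤ log X0 = L` (`RX`), `log (2 R) ≤ L / c`, `L ≤ ell_v / c ≤ Y / c` (`low`), `1 ≤ Y / c`,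
`K0 L ≤ K0 ell_v ≤ Y`, `c / 2 ≤ ell_v`. Apply `auxAX` with `D = Df P Y`, `N = Nf P Y`, `ℓ_v = ell`, `J = Jx X0 Y = ⌊Y / log X0⌋₊`, `TT = (m + 1 + η) Y`, `B = exp (C1 (Y/c))` as in `auxBZ` and `B2 = exp ((m + 2) (Y/c))` (`k L < TT ≤ (m+2) Y`: `(2R)^k = exp (k log (2R)) ≤ exp (k L / c) ≤ exp ((m+2) Y / c)`).
Factors: `J + 1 ≤ Y / L + 1 ≤ exp (2 Y/c)`, `Dn ≤ Q0`, `X0^e ≤ exp (Q0 L) ≤ exp (Q0 Y/c)`, `(X0^κ)^Dl ≤ exp (Q0^2 Y/c)`, `2^Dl ≤ exp Q0 ≤ exp (Q0 Y/c)`, the others as in `auxBZ`. So the bound of `auxAX` is `≤ exp (r' C2 (Y/c))`, `C2 = C2(m, n, Q0)`, and `c ≥ r' C2 / δ`. -/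

namespace Pool.Agent.H97.FB

open Finset Polynomial Pool.Agent.H72.ES Pool.Agent.H87.SA Pool.Agent.H87.SA2 Pool.Agent.H87.AX
  Pool.Agent.H8.AW Pool.Agent.H52.AC Pool.Agent.H97.NW Pool.Agent.H8.RZ

/-- one factor -/
private theorem axb_one {n : ℕ} (P : Ptd n) (c : ℕ) (hc : 1 ≤ c) (h : P.Thr c) (K : ℕ) :
    (P.C.pd.e : ℝ) * (2 * P.C.pd.q * P.C.pd.R) ^ (P.C.pd.e * (K + 1) + n) ≤
      Real.exp (Real.log n.factorial + 3 / c * (n.factorial * (P.ell * K) + (n.factorial + n) * P.ell)) := by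
  have hcr : (1 : ℝ) ≤ c := by exact_mod_cast hc
  have hb2 : (2 : ℝ) ≤ P.b := by exact_mod_cast P.C.b2
  have hell : c * Real.log P.b ≤ P.ell := by
    unfold Ptd.ell
    rw [← Real.log_pow]
    exact Real.log_le_log (by positivity) h
  have hlb : Real.log P.b ≤ P.ell / c := by
    rw [le_div_iff₀ (by linarith)]
    linarith
  have hlb0 : 0 ≤ Real.log P.b := Real.log_nonneg (by linarith)
  have hq : (P.C.pd.q : ℝ) ≤ P.b := by exact_mod_cast P.C.q_le
  have hq0 : (1 : ℝ) ≤ P.C.pd.q := by exact_mod_cast P.C.pd.q_pos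
  have hR := P.C.R_le
  have hR2 := P.C.pd.R_ge
  have h1 : 2 * (P.C.pd.q : ℝ) * P.C.pd.R ≤ Real.exp (3 * P.ell / c) := by
    have e1 : 2 * (P.C.pd.q : ℝ) * P.C.pd.R ≤ P.b * P.b * P.b := by
      apply mul_le_mul _ hR (by linarith) (by positivity)
      exact mul_le_mul hb2 hq (by linarith) (by linarith)
    have e2 : (P.b : ℝ) * P.b * P.b = Real.exp (3 * Real.log P.b) := by
      rw [show (3 : ℝ) * Real.log P.b = Real.log P.b + Real.log P.b + Real.log P.b by ring, Real.exp_add, Real.exp_add,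
        Real.exp_log (by linarith)]
    rw [e2] at e1
    refine e1.trans (Real.exp_le_exp.2 ?_)
    have e3 : 3 * P.ell / c = 3 * (P.ell / c) := by ring
    rw [e3]
    linarith
  have h0 : 0 ≤ 2 * (P.C.pd.q : ℝ) * P.C.pd.R := by
    have : 0 ≤ P.C.pd.R := by linarith
    positivity
  have hfac : P.C.pd.e ≤ n.factorial := P.C.e_le.trans (Nat.factorial_le P.C.dn)
  have h2 : P.C.pd.e * (K + 1) + n ≤ n.factorial * (K + 1) + n := by
    have := Nat.mul_le_mul_right (K + 1) hfac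
    omega
  have h3 : (2 * (P.C.pd.q : ℝ) * P.C.pd.R) ^ (P.C.pd.e * (K + 1) + n) ≤
      Real.exp (3 * P.ell / c) ^ (n.factorial * (K + 1) + n) := by
    refine (pow_le_pow_left₀ h0 h1 _).trans ?_
    apply pow_le_pow_right₀ _ h2
    apply Real.one_le_exp
    have : 0 ≤ P.ell / c := hlb0.trans hlb
    have e3 : 3 * P.ell / c = 3 * (P.ell / c) := by ring
    rw [e3]
    linarith
  have h4 : (P.C.pd.e : ℝ) ≤ Real.exp (Real.log n.factorial) := by
    rw [Real.exp_log (by exact_mod_cast Nat.factorial_pos n)]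
    exact_mod_cast hfac
  rw [← Real.exp_nat_mul] at h3
  refine (mul_le_mul h4 h3 (pow_nonneg h0 _) (Real.exp_pos _).le).trans (le_of_eq ?_)
  rw [← Real.exp_add]
  congr 1
  push_cast
  ring

theorem auxBX (m n Q0 : ℕ) (hm : 1 ≤ m) (hn : 1 ≤ n) (γ : ℝ) (hγ : 0 < γ) :
    ∃ η K0 : ℝ, 0 < η ∧ η ≤ 1 ∧ 1 ≤ K0 ∧ ∀ δ : ℝ, 0 < δ → ∃ c : ℕ, 2 ≤ c ∧
    ∀ {Dn Dl κ e M : ℕ} {X0 R : ℝ} (an : AnchX Dn Dl κ e M X0 R) (P : Fin m → Ptd n)
      (tu : TupX an P), Bnd Q0 Dn Dl κ e M X0 R → Scl c X0 R P →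
      (1 + γ) * (((m : ℝ) + 1) ^ (m + 1) * (tu.PP.card : ℝ)) ≤
        ((m + 1).factorial : ℝ) * ((Dn : ℝ) * ∏ v, ((P v).d : ℝ)) →
      ∀ Y : ℝ, (∀ v, K0 * (P v).ell ≤ Y) → (∀ v, 1 ≤ Nf P Y v) ∧
      ∃ A : ℕ → ℕ → Mo P (Nf P Y) → ℤ, NZA (Jx X0 Y) Dn A ∧
        (∀ s j μ, |((A s j μ : ℤ) : ℝ)| ≤ Real.exp (δ * Y)) ∧
        ∀ z ∈ tu.PP, ∀ (k : ℕ) (K : Fin m → ℕ),
          (k : ℝ) * Real.log X0 + ∑ v, (P v).ell * ((K v / (P v).C.pd.e : ℕ) : ℝ) <
            ((m : ℝ) + 1 + η) * Y →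
          BmC P (Df P Y) (Nf P Y) (Ak an (Jx X0 Y) A k z.1) z.2 K = 0 := by
  classical
  obtain ⟨η, K0, r', hη, hη1, hK0, hr', H⟩ := count_x m n Q0 hm γ hγ
  refine ⟨η, K0, hη, hη1, hK0, ?_⟩
  intro δ hδ
  obtain ⟨f, hf⟩ : ∃ f : ℝ, f = (n.factorial : ℝ) := ⟨_, rfl⟩
  have hf1 : 1 ≤ f := by
    rw [hf]
    exact_mod_cast Nat.factorial_pos n
  have hlf : 0 ≤ Real.log f := Real.log_nonneg hf1
  have hnr : (1 : ℝ) ≤ n := by exact_mod_cast hn
  have hmr : (1 : ℝ) ≤ m := by exact_mod_cast hm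
  have hln : 0 ≤ Real.log n := Real.log_nonneg hnr
  have hQ00 : (0 : ℝ) ≤ Q0 := Nat.cast_nonneg _
  obtain ⟨C1, hC1⟩ : ∃ C1 : ℝ, C1 = 2 * m * Real.log f + 3 * (f * (m + 2) + (f + n) * m) := ⟨_, rfl⟩
  have hC10 : 0 ≤ C1 := by
    rw [hC1]
    positivity
  obtain ⟨C2, hC2⟩ : ∃ C2 : ℝ, C2 = 2 + ((1 + Q0 + (2 * m * Real.log n + 2 * m)) +
      ((Q0 + (Q0 * Q0 + Q0 + (m + 2))) + C1)) := ⟨_, rfl⟩
  have hC20 : 0 ≤ C2 := by
    rw [hC2]
    positivity
  obtain ⟨c0, hc0⟩ := exists_nat_ge (r' * C2 / δ)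
  refine ⟨max c0 2, le_max_right _ _, ?_⟩
  obtain ⟨c, hcdef⟩ : ∃ c, c = max c0 2 := ⟨_, rfl⟩
  rw [← hcdef]
  have hc2 : 2 ≤ c := by rw [hcdef]; exact le_max_right _ _
  have hc1 : 1 ≤ c := by omega
  have hcc0 : (c0 : ℝ) ≤ c := by
    rw [hcdef]
    exact_mod_cast le_max_left _ _
  have hcr2 : (2 : ℝ) ≤ c := by exact_mod_cast hc2
  have hcr : (1 : ℝ) ≤ c := by exact_mod_cast hc1
  have hcδ : r' * C2 ≤ δ * c := by
    have h1 := (div_le_iff₀ hδ).1 (hc0.trans hcc0)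
    linarith
  intro Dn Dl κ e M X0 R an P tu hbd hsc hcard Y hY
  -- the size of ell
  have hl2 : (1 : ℝ) / 2 ≤ Real.log 2 := by
    have := Real.log_two_gt_d9
    linarith
  have hell : ∀ v, (c : ℝ) / 2 ≤ (P v).ell := by
    intro v
    have h1 : c * Real.log (P v).b ≤ (P v).ell := by
      unfold Ptd.ell
      rw [← Real.log_pow]
      refine Real.log_le_log ?_ (hsc.thr v)
      have : (0 : ℝ) < (P v).b := by
        have := (P v).C.b2
        exact_mod_cast (by omega : 0 < (P v).b)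
      positivity
    have h2 : Real.log 2 ≤ Real.log (P v).b := by
      apply Real.log_le_log (by norm_num)
      exact_mod_cast (P v).C.b2
    have h3 : c * (1 / 2 : ℝ) ≤ c * Real.log (P v).b := mul_le_mul_of_nonneg_left (hl2.trans h2) (by linarith)
    linarith
  have hell0 : ∀ v, 0 < (P v).ell := fun v => lt_of_lt_of_le (by linarith) (hell v)
  have hYell : ∀ v, (P v).ell ≤ Y := by
    intro v
    have h1 := hY v
    have h2 : 1 * (P v).ell ≤ K0 * (P v).ell := mul_le_mul_of_nonneg_right hK0 (hell0 v).le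
    linarith
  have hYc : (1 : ℝ) ≤ 2 * Y / c := by
    rw [le_div_iff₀ (by linarith)]
    have h1 := hell ⟨0, by omega⟩
    have h2 := hYell ⟨0, by omega⟩
    linarith
  have hY0 : 0 < Y := lt_of_lt_of_le (hell0 ⟨0, by omega⟩) (hYell ⟨0, by omega⟩)
  have hYc0 : 0 ≤ Y / c := by positivity
  -- the anchor
  have hR2 := hbd.R2
  have h2R : (1 : ℝ) ≤ Real.log (2 * R) := by
    have h1 : Real.log (2 * 2) ≤ Real.log (2 * R) := Real.log_le_log (by norm_num) (by linarith)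
    have h2 : Real.log (2 * 2) = Real.log 2 + Real.log 2 := Real.log_mul (by norm_num) (by norm_num)
    linarith
  have hcL' : (c : ℝ) * Real.log (2 * R) ≤ Real.log X0 := by
    rw [← Real.log_pow]
    exact Real.log_le_log (by positivity) hsc.RX
  have hcL : (c : ℝ) ≤ Real.log X0 := by
    refine le_trans ?_ hcL'
    have := mul_le_mul_of_nonneg_left h2R (show (0 : ℝ) ≤ c by linarith)
    linarith
  have hL1 : (1 : ℝ) ≤ Real.log X0 := hcr.trans hcL
  have hL0 : 0 < Real.log X0 := by linarith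
  have hX1 : (1 : ℝ) ≤ X0 := by
    refine le_trans ?_ hsc.RX
    exact one_le_pow₀ (by linarith)
  have hX0 : 0 < X0 := by linarith
  have hLc : Real.log X0 ≤ Y / c := by
    rw [le_div_iff₀ (by linarith), mul_comm]
    exact (hsc.low ⟨0, by omega⟩).trans (hYell ⟨0, by omega⟩)
  have hYc1 : 1 ≤ Y / c := hL1.trans hLc
  have hK0L : K0 * Real.log X0 ≤ Y := by
    have h1 : Real.log X0 ≤ (P ⟨0, by omega⟩).ell := by
      refine le_trans ?_ (hsc.low ⟨0, by omega⟩)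
      have := mul_le_mul_of_nonneg_right hcr hL0.le
      linarith
    exact (mul_le_mul_of_nonneg_left h1 (by linarith)).trans (hY _)
  have hDnQ : Dn ≤ Q0 := hbd.DDl.trans hbd.Dl_le
  obtain ⟨hN, hcount⟩ := H P Dn tu.PP.card (Real.log X0) hbd.D1 hDnQ hL0 hell0 hcard Y hY hK0L
  refine ⟨hN, ?_⟩
  have hTT : 0 < ((m : ℝ) + 1 + η) * Y := by positivity
  have hB : ∀ K ∈ cells (fun v => (P v).ell) (((m : ℝ) + 1 + η) * Y), ∏ v, (((P v).C.pd.e : ℝ) *
      (2 * (P v).C.pd.q * (P v).C.pd.R) ^ ((P v).C.pd.e * (K v + 1) + n)) ≤ Real.exp (C1 * (Y / c)) := by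
    intro K hK
    have hKs : ∑ v, (P v).ell * (K v : ℝ) < ((m : ℝ) + 1 + η) * Y := by
      unfold cells at hK
      exact (Finset.mem_filter.1 hK).2
    have h1 : ∏ v, (((P v).C.pd.e : ℝ) * (2 * (P v).C.pd.q * (P v).C.pd.R) ^ ((P v).C.pd.e * (K v + 1) + n)) ≤
        ∏ v, Real.exp (Real.log n.factorial + 3 / c * (n.factorial * ((P v).ell * K v) + (n.factorial + n) * (P v).ell)) := by
      apply Finset.prod_le_prod
      · intro v _
        have h2 := (P v).C.pd.R_ge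
        have h3 : 0 ≤ (P v).C.pd.R := by linarith
        positivity
      · intro v _
        exact axb_one (P v) c hc1 (hsc.thr v) (K v)
    refine h1.trans ?_
    rw [← Real.exp_sum]
    apply Real.exp_le_exp.2
    rw [← hf, Finset.sum_add_distrib, ← Finset.mul_sum, Finset.sum_add_distrib, ← Finset.mul_sum, ← Finset.mul_sum,
      Finset.sum_const, Finset.card_univ, Fintype.card_fin, nsmul_eq_mul]
    have h2 : ∑ v, (P v).ell ≤ m * Y := by
      refine (Finset.sum_le_sum fun v _ => hYell v).trans ?_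
      rw [Finset.sum_const, Finset.card_univ, Fintype.card_fin, nsmul_eq_mul]
    have h3 : ∑ v, (P v).ell * (K v : ℝ) ≤ (m + 2) * Y := by
      refine hKs.le.trans (mul_le_mul_of_nonneg_right (by linarith) hY0.le)
    have h4 : f * ∑ v, (P v).ell * (K v : ℝ) + (f + n) * ∑ v, (P v).ell ≤ f * ((m + 2) * Y) + (f + n) * (m * Y) :=
      add_le_add (mul_le_mul_of_nonneg_left h3 (by linarith)) (mul_le_mul_of_nonneg_left h2 (by linarith))
    have h5 := mul_le_mul_of_nonneg_left h4 (show (0 : ℝ) ≤ 3 / c by positivity)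
    have h6 : (m : ℝ) * Real.log f * 1 ≤ m * Real.log f * (2 * Y / c) := mul_le_mul_of_nonneg_left hYc (by positivity)
    have h7 : C1 * (Y / c) = m * Real.log f * (2 * Y / c) + 3 / c * (f * ((m + 2) * Y) + (f + n) * (m * Y)) := by
      rw [hC1]
      ring
    rw [h7]
    linarith
  have hB2 : ∀ k : ℕ, (k : ℝ) * Real.log X0 < ((m : ℝ) + 1 + η) * Y →
      (2 * R) ^ k ≤ Real.exp ((m + 2) * (Y / c)) := by
    intro k hk
    have h1 : (2 * R) ^ k = Real.exp (k * Real.log (2 * R)) := by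
      rw [Real.exp_nat_mul, Real.exp_log (by linarith)]
    rw [h1]
    apply Real.exp_le_exp.2
    have h2 : (k : ℝ) * Real.log (2 * R) * c ≤ (m + 2) * Y := by
      have h3 : (k : ℝ) * (c * Real.log (2 * R)) ≤ k * Real.log X0 :=
        mul_le_mul_of_nonneg_left hcL' (Nat.cast_nonneg _)
      have h4 : ((m : ℝ) + 1 + η) * Y ≤ (m + 2) * Y := mul_le_mul_of_nonneg_right (by linarith) hY0.le
      linarith
    have h5 : ((m : ℝ) + 2) * (Y / c) = ((m + 2) * Y) / c := by ring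
    rw [h5, le_div_iff₀ (by linarith)]
    exact h2
  obtain ⟨A, hA0, hA1, hA2⟩ := auxAX an hbd.D1 hbd.DDl hbd.e1 hX1 hbd.pow (by linarith) P tu
    (Df P Y) (Nf P Y) (Jx X0 Y) hN (fun v => (P v).ell) hell0 (Real.log X0) hL0
    (((m : ℝ) + 1 + η) * Y) hTT r' hr' hcount (Real.exp (C1 * (Y / c))) hB
    (Real.exp ((m + 2) * (Y / c))) hB2
  refine ⟨A, hA0, ?_, hA2⟩
  intro s j μ
  refine (hA1 s j μ).trans ?_
  -- the number of unknowns
  have hNd : ((∏ v, (Nf P Y v * (P v).d) : ℕ) : ℝ) ≤ Real.exp ((2 * m * Real.log n + 2 * m) * (Y / c)) := by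
    push_cast
    have h1 : ∏ v, ((Nf P Y v : ℝ) * (P v).d) ≤ ∏ _v : Fin m, Real.exp ((2 * Real.log n + 2) * (Y / c)) := by
      apply Finset.prod_le_prod
      · intro v _
        positivity
      · intro v _
        have h2 : (Nf P Y v : ℝ) ≤ Real.exp (2 * (Y / c)) := by
          have h3 : Nf P Y v ≤ Df P Y v := by
            unfold Nf
            have := (P v).C.d1
            omega
          have h4 : (Df P Y v : ℝ) ≤ Y / (P v).ell := by
            unfold Df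
            exact Nat.floor_le (div_nonneg hY0.le (hell0 v).le)
          have h5 : Y / (P v).ell ≤ 2 * (Y / c) := by
            rw [show 2 * (Y / c) = Y / (c / 2) by field_simp]
            exact div_le_div_of_nonneg_left hY0.le (by positivity) (hell v)
          have h6 : (Nf P Y v : ℝ) ≤ Df P Y v := by exact_mod_cast h3
          have h7 := Real.add_one_le_exp (2 * (Y / c))
          linarith
        have h8 : ((P v).d : ℝ) ≤ Real.exp (2 * Real.log n * (Y / c)) := by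
          have h9 : ((P v).d : ℝ) ≤ n := by exact_mod_cast (P v).C.dn
          have h10 : (n : ℝ) = Real.exp (Real.log n) := (Real.exp_log (by linarith)).symm
          rw [h10] at h9
          refine h9.trans (Real.exp_le_exp.2 ?_)
          have h11 : Real.log n * 1 ≤ Real.log n * (2 * Y / c) := mul_le_mul_of_nonneg_left hYc hln
          calc Real.log n = Real.log n * 1 := (mul_one _).symm
            _ ≤ Real.log n * (2 * Y / c) := h11
            _ = 2 * Real.log n * (Y / c) := by ring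
        refine (mul_le_mul h2 h8 (Nat.cast_nonneg _) (Real.exp_pos _).le).trans (le_of_eq ?_)
        rw [← Real.exp_add]
        congr 1
        ring
    refine h1.trans (le_of_eq ?_)
    rw [Finset.prod_const, Finset.card_univ, Fintype.card_fin, ← Real.exp_nat_mul]
    congr 1
    ring
  have h21 : (2 : ℝ) ≤ Real.exp 1 := by
    have := Real.add_one_le_exp (1 : ℝ)
    linarith
  have h4 : (4 : ℝ) ≤ Real.exp (2 * (Y / c)) := by
    have h5 : (4 : ℝ) ≤ Real.exp 2 := by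
      have h6 : Real.exp 2 = Real.exp 1 * Real.exp 1 := by
        rw [← Real.exp_add]
        norm_num
      rw [h6]
      nlinarith
    exact h5.trans (Real.exp_le_exp.2 (by linarith))
  have hJe : ((Jx X0 Y : ℝ) + 1) ≤ Real.exp (1 * (Y / c)) := by
    have h1 : (Jx X0 Y : ℝ) ≤ Y / Real.log X0 := by
      unfold Jx
      exact Nat.floor_le (by positivity)
    have h2 : Y / Real.log X0 ≤ Y / c := div_le_div_of_nonneg_left hY0.le (by linarith) hcL
    have h3 := Real.add_one_le_exp (1 * (Y / c))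
    linarith
  have hQ0e : (Q0 : ℝ) ≤ Real.exp (Q0 * (Y / c)) := by
    have h1 : (Q0 : ℝ) * 1 ≤ Q0 * (Y / c) := mul_le_mul_of_nonneg_left hYc1 hQ00
    have h2 := Real.add_one_le_exp (Q0 * (Y / c))
    linarith
  have hDne : (Dn : ℝ) ≤ Real.exp (Q0 * (Y / c)) := by
    refine le_trans ?_ hQ0e
    exact_mod_cast hDnQ
  have hU : ((((Jx X0 Y + 1) * Dn * ∏ v, (Nf P Y v * (P v).d) : ℕ)) : ℝ) ≤
      Real.exp ((1 + Q0 + (2 * m * Real.log n + 2 * m)) * (Y / c)) := by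
    have h1 : ((((Jx X0 Y + 1) * Dn * ∏ v, (Nf P Y v * (P v).d) : ℕ)) : ℝ) =
        (((Jx X0 Y : ℝ) + 1) * (Dn : ℝ)) * ((∏ v, (Nf P Y v * (P v).d) : ℕ) : ℝ) := by
      push_cast
      ring
    rw [h1]
    refine (mul_le_mul (mul_le_mul hJe hDne (by positivity) (Real.exp_pos _).le) hNd (Nat.cast_nonneg _)
      (by positivity)).trans (le_of_eq ?_)
    rw [← Real.exp_add, ← Real.exp_add]
    congr 1
    ring
  have hpow : ∀ a b : ℕ, a ≤ b → X0 ^ a ≤ Real.exp (b * (Y / c)) := by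
    intro a b hab
    have h1 : X0 ^ a = Real.exp (a * Real.log X0) := by
      rw [Real.exp_nat_mul, Real.exp_log hX0]
    rw [h1]
    apply Real.exp_le_exp.2
    have h2 : (a : ℝ) ≤ b := by exact_mod_cast hab
    exact mul_le_mul h2 hLc hL0.le (Nat.cast_nonneg _)
  have hXe : X0 ^ e ≤ Real.exp (Q0 * (Y / c)) := hpow e Q0 hbd.e_le
  have hXκ : (X0 ^ κ) ^ Dl ≤ Real.exp ((Q0 * Q0) * (Y / c)) := by
    rw [← pow_mul]
    have h1 := hpow (κ * Dl) (Q0 * Q0) (Nat.mul_le_mul hbd.κ_le hbd.Dl_le)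
    push_cast at h1
    exact h1
  have h2Dl : (2 : ℝ) ^ Dl ≤ Real.exp (Q0 * (Y / c)) := by
    refine (pow_le_pow_left₀ (by norm_num) h21 _).trans ?_
    rw [← Real.exp_nat_mul]
    apply Real.exp_le_exp.2
    have h1 : (Dl : ℝ) ≤ Q0 := by exact_mod_cast hbd.Dl_le
    exact mul_le_mul h1 hYc1 (by norm_num) hQ00
  have hW : X0 ^ e * ((X0 ^ κ) ^ Dl * 2 ^ Dl * Real.exp ((m + 2) * (Y / c))) *
      Real.exp (C1 * (Y / c)) ≤
      Real.exp (((Q0 + (Q0 * Q0 + Q0 + (m + 2))) + C1) * (Y / c)) := by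
    refine (mul_le_mul_of_nonneg_right (mul_le_mul hXe (mul_le_mul_of_nonneg_right
      (mul_le_mul hXκ h2Dl (by positivity) (Real.exp_pos _).le) (Real.exp_pos _).le) (by positivity)
      (Real.exp_pos _).le) (Real.exp_pos _).le).trans (le_of_eq ?_)
    rw [← Real.exp_add, ← Real.exp_add, ← Real.exp_add, ← Real.exp_add]
    congr 1
    ring
  have h5 : 4 * (((((Jx X0 Y + 1) * Dn * ∏ v, (Nf P Y v * (P v).d) : ℕ)) : ℝ) *
      (X0 ^ e * ((X0 ^ κ) ^ Dl * 2 ^ Dl * Real.exp ((m + 2) * (Y / c))) *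
      Real.exp (C1 * (Y / c)))) ≤ Real.exp (C2 * (Y / c)) := by
    refine (mul_le_mul h4 (mul_le_mul hU hW (by positivity) (Real.exp_pos _).le) (by positivity)
      (Real.exp_pos _).le).trans (le_of_eq ?_)
    rw [← Real.exp_add, ← Real.exp_add, hC2]
    congr 1
    ring
  refine (pow_le_pow_left₀ (by positivity) h5 r').trans ?_
  rw [← Real.exp_nat_mul]
  apply Real.exp_le_exp.2
  have h6 : (r' : ℝ) * (C2 * (Y / c)) = r' * C2 * (Y / c) := by ring
  have h7 : δ * Y = δ * c * (Y / c) := by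
    field_simp
  rw [h6, h7]
  exact mul_le_mul_of_nonneg_right hcδ hYc0

end Pool.Agent.H97.FB
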