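import Pool.Agent.H97.NW.NZD
import Pool.Agent.H97.FB.Defs

/-! # [H97 FB DTX] The norm of a function vanishing at the integer points

`g = (MG P N f).det` (`Pool/Agent/H97/NW/MAT.lean`, `NZD.lean`). `g ≠ 0`: `det_ne`. Degrees: `MvPolynomial.degreeOf` of a determinant (`Matrix.det_apply`, sum of products of `∏ d_v ≤ ν^m` entries, `MG_deg`); `l1`: `l1_det_le`-like lemma of `Pool/Agent/H4/AR/L1Det.lean` and `MG_l1` (`card (∀ v, Fin (P v).d) = ∏ d_v ≤ ν^m`; the base is `≥ 1`);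
see `aux_norm` (`Pool/Agent/H97/NW/AUXN.lean`), which does exactly this for `m = 4`. Zero at the point: `det_idx` with `θ = min ell > 0` (`Finset.exists_min_image`, or `m = 0` trivial): if `∑ ell_v K_v < θ` then `K = 0`, and `Lm P N f 0 = ∑ f μ ∏ coeff 0 (psi ..) = ∑ f μ ∏ x^a y^b = 0` (`xs` and `Ptd.Y` have the constant coefficients `x`, `y`: `Ptd.Y_spec`).
So `(sh x g).coeff 0 = 0`, and this is `eval x g` (`sh` of `Pool/Agent/H4/AR/Shift.lean` is the translation: `MvPolynomial.constantCoeff (sh x g) = eval x g`, check on constants and variables). -/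

namespace Pool.Agent.H97.FB

open Finset Polynomial Pool.Agent.H72.ES Pool.Agent.H87.SA2 Pool.Agent.H8.AW Pool.Agent.H52.AC
  Pool.Agent.H97.NW H4AR

private theorem dtx_deg {m : ℕ} {ι : Type} [Fintype ι] [DecidableEq ι]
    (M : Matrix ι ι (MvPolynomial (Fin m) ℤ)) (j : Fin m) (D : ℕ)
    (h : ∀ a b, (M a b).degreeOf j ≤ D) : M.det.degreeOf j ≤ Fintype.card ι * D := by
  have e := Fintype.equivFin ι
  rw [← Matrix.det_reindex_self e M]
  exact degreeOf_det_le _ j D (fun a b => h _ _)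

private theorem dtx_l1 {m : ℕ} {ι : Type} [Fintype ι] [DecidableEq ι]
    (M : Matrix ι ι (MvPolynomial (Fin m) ℤ)) (B : ℝ) (hB : 0 ≤ B)
    (h : ∀ i j, l1 (M i j) ≤ B) : l1 M.det ≤ ((Fintype.card ι).factorial : ℝ) * B ^ (Fintype.card ι) := by
  have e := Fintype.equivFin ι
  rw [← Matrix.det_reindex_self e M]
  exact l1_det_le _ B hB (fun a b => h _ _)

private theorem dtx_card {m n : ℕ} (P : Fin m → Ptd n) :
    Fintype.card (∀ v, Fin (P v).d) = ∏ v, (P v).d := by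
  simp [Fintype.card_pi]

private theorem dtx_sle {m n : ℕ} (P : Fin m → Ptd n) : ∏ v, (P v).d ≤ n ^ m := by
  calc ∏ v, (P v).d ≤ ∏ _v : Fin m, n := Finset.prod_le_prod' (fun v _ => (P v).C.dn)
    _ = n ^ m := by simp

private theorem dtx_psi0 {n : ℕ} (P : Ptd n) (a b : ℕ) :
    PowerSeries.coeff 0 (P.psi (a, b)) = P.x ^ a * P.y ^ b := by
  rw [PowerSeries.coeff_zero_eq_constantCoeff_apply]
  unfold Ptd.psi
  rw [map_mul, map_pow, map_pow, P.Y_spec.1]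
  congr 2
  unfold xs
  simp

theorem det_poly {m ν : ℕ} (hm : 1 ≤ m) (hν : 4 ≤ ν) (P : Fin m → Ptd ν)
    (hP : ∀ v, (P v).Thr (cA ν)) (N : Fin m → ℕ) (f : Mo P N → ℤ) (hf : f ≠ 0)
    (h0 : ∑ μ, f μ * ∏ v, ((P v).x ^ ((μ v).1 : ℕ) * (P v).y ^ ((μ v).2 : ℕ)) = 0) {Z : ℝ}
    (hZ : 1 ≤ Z) (hA : ∀ μ, |((f μ : ℤ) : ℝ)| ≤ Z) :
    ∃ g : MvPolynomial (Fin m) ℤ, g ≠ 0 ∧ (∀ v, g.degreeOf v ≤ ν ^ m * (N v + ν * ν)) ∧
      MvPolynomial.eval (fun v => (P v).x) g = 0 ∧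
      l1 g ≤ ((ν ^ m).factorial : ℝ) * (((∏ v, (N v * ν) : ℕ) : ℝ) * (Z *
        ∏ v, (((ν + 1) ^ 2 * (P v).b : ℕ) : ℝ) ^ ν)) ^ (ν ^ m) := by
  classical
  have hell0 : ∀ v, 0 < (P v).ell := by
    intro v
    have h1 := (Ptd.ell_ge _ (hP v)).2
    have h2 : 0 < Real.log 2 := Real.log_pos (by norm_num)
    have h3 : (0 : ℝ) < (cA ν : ℝ) := by
      have : 0 < cA ν := by
        unfold cA
        positivity
      exact_mod_cast this
    exact lt_of_lt_of_le (mul_pos h3 h2) h1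
  obtain ⟨μ0, hμ0⟩ : ∃ μ : Mo P N, f μ ≠ 0 := by
    by_contra h
    push Not at h
    exact hf (funext h)
  have hN : ∀ v, 1 ≤ N v := fun v => by
    have := (μ0 v).1.isLt
    omega
  have hs := dtx_card P
  have hsle := dtx_sle P
  haveI : Nonempty (Fin m) := ⟨⟨0, hm⟩⟩
  obtain ⟨v0, _, hv0⟩ := Finset.exists_min_image Finset.univ (fun v => (P v).ell)
    Finset.univ_nonempty
  have hLm : ∀ K : Fin m → ℕ, ∑ v, (P v).ell * (K v : ℝ) < (P v0).ell → Lm P N f K = 0 := by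
    intro K hK
    have hK0 : ∀ v, K v = 0 := by
      intro v
      by_contra hv
      have h1 : (1 : ℝ) ≤ (K v : ℝ) := by exact_mod_cast Nat.one_le_iff_ne_zero.2 hv
      have h2 : (P v).ell * (K v : ℝ) ≤ ∑ v, (P v).ell * (K v : ℝ) :=
        Finset.single_le_sum (f := fun v => (P v).ell * (K v : ℝ))
          (fun w _ => mul_nonneg (hell0 w).le (Nat.cast_nonneg _)) (Finset.mem_univ v)
      have h3 := hv0 v (Finset.mem_univ v)
      have h4 := hell0 v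
      nlinarith
    unfold Lm
    rw [← h0]
    refine Finset.sum_congr rfl fun μ _ => ?_
    congr 1
    refine Finset.prod_congr rfl fun v _ => ?_
    rw [hK0 v, dtx_psi0]
  refine ⟨(MG P N f).det, det_ne hν P hP N f hf, ?_, ?_, ?_⟩
  · intro v
    have h1 := dtx_deg (MG P N f) v (N v + ν * ν) (fun i j => MG_deg P _ f i j v)
    rw [hs] at h1
    exact h1.trans (Nat.mul_le_mul_right _ hsle)
  · have h1 := det_idx hν P hP N f (fun v => (hell0 v).le) hLm 0 (by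
      simpa using hell0 v0)
    rw [coeff_sh, hs_zero_left] at h1
    exact h1
  · have hB0 : (1 : ℝ) ≤ ((∏ v, (N v * (P v).d) : ℕ) : ℝ) := by
      have : 1 ≤ ∏ v, (N v * (P v).d) := Finset.one_le_prod' fun v _ =>
        Nat.mul_pos (hN v) (P v).C.d1
      exact_mod_cast this
    have hQ1 : ∀ v, (1 : ℝ) ≤ (((ν + 1) ^ 2 * (P v).b : ℕ) : ℝ) ^ ν := fun v => by
      have : 1 ≤ (ν + 1) ^ 2 * (P v).b :=
        Nat.mul_pos (by positivity) (by have := (P v).C.b2; omega)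
      exact one_le_pow₀ (by exact_mod_cast this)
    have hQ : (1 : ℝ) ≤ ∏ v, (((ν + 1) ^ 2 * (P v).b : ℕ) : ℝ) ^ ν := by
      have := Finset.prod_le_prod (s := (Finset.univ : Finset (Fin m))) (f := fun _ => (1 : ℝ))
        (g := fun v => (((ν + 1) ^ 2 * (P v).b : ℕ) : ℝ) ^ ν) (fun _ _ => zero_le_one)
        (fun v _ => hQ1 v)
      simpa using this
    have hZQ : (1 : ℝ) ≤ Z * ∏ v, (((ν + 1) ^ 2 * (P v).b : ℕ) : ℝ) ^ ν :=
      one_le_mul_of_one_le_of_one_le hZ hQ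
    have hbig := dtx_l1 (MG P N f)
      (((∏ v, (N v * (P v).d) : ℕ) : ℝ) * (Z *
      ∏ v, (((ν + 1) ^ 2 * (P v).b : ℕ) : ℝ) ^ ν)) (by positivity) (fun i j => MG_l1 P _ f hA i j)
    rw [hs] at hbig
    have hB1 : ((∏ v, (N v * (P v).d) : ℕ) : ℝ) ≤ ((∏ v, (N v * ν) : ℕ) : ℝ) := by
      have : ∏ v, (N v * (P v).d) ≤ ∏ v, (N v * ν) :=
        Finset.prod_le_prod' fun v _ => Nat.mul_le_mul_left _ (P v).C.dn
      exact_mod_cast this
    have hB2 : ((∏ v, (N v * (P v).d) : ℕ) : ℝ) * (Z *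
        ∏ v, (((ν + 1) ^ 2 * (P v).b : ℕ) : ℝ) ^ ν) ≤ ((∏ v, (N v * ν) : ℕ) : ℝ) * (Z *
        ∏ v, (((ν + 1) ^ 2 * (P v).b : ℕ) : ℝ) ^ ν) :=
      mul_le_mul_of_nonneg_right hB1 (by linarith)
    have hB3 : (1 : ℝ) ≤ ((∏ v, (N v * ν) : ℕ) : ℝ) * (Z *
        ∏ v, (((ν + 1) ^ 2 * (P v).b : ℕ) : ℝ) ^ ν) :=
      (one_le_mul_of_one_le_of_one_le hB0 hZQ).trans hB2
    refine hbig.trans ?_
    have h5 : ((∏ v, (P v).d).factorial : ℝ) ≤ ((ν ^ m).factorial : ℝ) := by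
      exact_mod_cast Nat.factorial_le hsle
    refine mul_le_mul h5 ?_ (by positivity) (by positivity)
    exact (pow_le_pow_left₀ (by positivity) hB2 _).trans (pow_le_pow_right₀ hB3 hsle)

end Pool.Agent.H97.FB
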