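import Pool.Agent.H97.FB.Defs
import Pool.Agent.H87.SA2.DnB
import Pool.Agent.H87.AX.VA

/-! # [H97 FB FLX] The Taylor coefficients `Fl`: coefficients at `0`, integrality

`coeff_uA`: `coeff_usR`, `zcR_map` (`Pool/Agent/H87/SA2/DnB.lean`), `an.zs_i0` (`PowerSeries.coeff_map`; `zcR` of the mapped series is the cast, `zcR_map` with `ψ = Complex.ofRealHom`, `an.ψ_x0`), the order of the factors by `mul_comm`.
`Ak_le`: `zcR_le` (same file) with `ν = ‖·‖` (`subMul_normC` of `Pool/Agent/H87/AX/SG.lean`), `A = X0^κ`, `an.zs_le`, `‖(X0 : ℂ)^r‖ ≤ X0^κ` for `r < e` (`AnchX.X0_le`); `(J+1) * Dn` terms.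
`cv_uA`: `AnchX.cv` (`Pool/Agent/H87/AX/VA.lean`) and the first half of `tay_usR` (same file `DnB`): the series `usR X0 e J D c Z` converges at `1/X0`.
`Fl_tsum`: by definition of `tay` (`Pool/Agent/H87/SA/Defs.lean`) `coeff l (tay h a) = ∑' i, (l+i).choose l * coeff (l+i) a * h^i` (`PowerSeries.coeff_mk`), cast to `ℂ` (`Complex.ofReal_tsum`), `coeff_uA`. Summability from `Cv` (definition in `Pool/Agent/H87/SA/Defs.lean`).
`Fl_int`: `dnr_usR` with `Z = an.Z.map an.ψ` (`usR_map`, `an.ψ_x0`, `an.dn`). -/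

namespace Pool.Agent.H97.FB

open Finset Polynomial Pool.Agent.H72.ES Pool.Agent.H87.SA Pool.Agent.H87.SA2 Pool.Agent.H87.AX
  Pool.Agent.H8.AW Pool.Agent.H52.AC Pool.Agent.H97.NW Pool.Agent.H8.RZ

variable {m n : ℕ} {Dn Dl κ e M : ℕ} {X0 R : ℝ}

theorem coeff_uA (an : AnchX Dn Dl κ e M X0 R) {P : Fin m → Ptd n} {N : Fin m → ℕ} (J : ℕ)
    (A : ℕ → ℕ → Mo P N → ℤ) (k : ℕ) (μ : Mo P N) :
    ((PowerSeries.coeff k ((uA an J A μ).map an.ψ) : ℝ) : ℂ) = Ak an J A k an.i0 μ := by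
  unfold uA Ak
  rw [usR_map, an.ψ_x0, coeff_usR]
  push_cast
  refine sum_congr rfl fun s _ => sum_congr rfl fun j _ => ?_
  have h3 := zcR_map Complex.ofRealHom X0 e (an.Z.map an.ψ) k s j
  rw [← an.zs_i0] at h3
  rw [mul_comm]
  congr 1

theorem Ak_le (an : AnchX Dn Dl κ e M X0 R) (hDl : Dn ≤ Dl) (he : 1 ≤ e) (hX : 1 ≤ X0)
    (hR : 1 ≤ R) {P : Fin m → Ptd n} {N : Fin m → ℕ} (J : ℕ) (A : ℕ → ℕ → Mo P N → ℤ) {Z : ℝ}
    (hA : ∀ s j μ, |((A s j μ : ℤ) : ℝ)| ≤ Z) (k : ℕ) (i : an.I) (μ : Mo P N) :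
    ‖Ak an J A k i μ‖ ≤ ((J : ℝ) + 1) * Dn * ((X0 ^ κ) ^ Dl * 2 ^ Dl) * Z * (2 * R) ^ k := by
  unfold Ak
  calc ‖∑ s ∈ range (J + 1), ∑ j ∈ range Dn, zcR (X0 : ℂ) e (an.zs i) k s j * (A s j μ : ℂ)‖
      ≤ ∑ _s ∈ range (J + 1), ∑ _j ∈ range Dn, ((X0 ^ κ) ^ Dl * 2 ^ Dl * (2 * R) ^ k) * Z := by
        refine (norm_sum_le _ _).trans (sum_le_sum fun s _ => ?_)
        refine (norm_sum_le _ _).trans (sum_le_sum fun j hj => ?_)
        rw [mem_range] at hj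
        rw [norm_mul]
        have h1 := zcR_le subMul_normC (A := X0 ^ κ) (R := R) (one_le_pow₀ hX) hR
          (x0 := (X0 : ℂ)) he (fun r hr => by
            have := an.X0_le hr
            exact this) (Z := an.zs i) (an.zs_le i) hDl k s j hj
        have h2 : ‖((A s j μ : ℤ) : ℂ)‖ ≤ Z := by
          rw [Complex.norm_intCast]
          exact hA s j μ
        exact mul_le_mul h1 h2 (norm_nonneg _) (by positivity)
    _ = _ := by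
        rw [sum_const, sum_const, card_range, card_range, nsmul_eq_mul, nsmul_eq_mul]
        push_cast
        ring

theorem cv_uA (an : AnchX Dn Dl κ e M X0 R) (hR : 0 ≤ R) (hRX : R < X0) {P : Fin m → Ptd n}
    {N : Fin m → ℕ} (J : ℕ) (A : ℕ → ℕ → Mo P N → ℤ) (μ : Mo P N) :
    Cv (1 / X0) ((uA an J A μ).map an.ψ) := by
  unfold uA
  rw [usR_map, an.ψ_x0]
  have hX0 : 0 < X0 := lt_of_le_of_lt hR hRX
  exact (tay_usR (by positivity) X0 e J Dn (fun s j => A s j μ) (an.cv hR hRX)).1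

theorem Fl_tsum (an : AnchX Dn Dl κ e M X0 R) {P : Fin m → Ptd n} {N : Fin m → ℕ} (J : ℕ)
    (A : ℕ → ℕ → Mo P N → ℤ) (l : ℕ) (μ : Mo P N) :
    ((Fl an J A l μ : ℝ) : ℂ) = ∑' i : ℕ, (((l + i).choose l : ℕ) : ℂ) * Ak an J A (l + i) an.i0 μ *
      (((1 / X0 : ℝ)) : ℂ) ^ i := by
  unfold Fl tay
  rw [PowerSeries.coeff_mk, Complex.ofReal_tsum]
  refine tsum_congr fun i => ?_
  rw [← coeff_uA]
  push_cast
  ring

theorem Fl_int (an : AnchX Dn Dl κ e M X0 R) (hX : 0 < X0) (he : 1 ≤ e) (hM : X0 ^ e = (M : ℝ))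
    (hR : 0 ≤ R) (hRX : R < X0) {P : Fin m → Ptd n} {N : Fin m → ℕ} (J : ℕ)
    (A : ℕ → ℕ → Mo P N → ℤ) (l : ℕ) (μ : Mo P N) :
    ∃ z : ℤ, (z : ℝ) = (((M : ℤ) ^ (J / e) * an.ce ^ Dn : ℤ) : ℝ) * (an.Δ : ℝ) ^ l *
      ((1 / X0) ^ l * Fl an J A l μ) := by
  obtain ⟨z, hz⟩ := dnr_usR hX he hM J Dn (fun s j => A s j μ) (an.cv hR hRX) an.dn l
  refine ⟨z, ?_⟩
  rw [hz]
  unfold Fl uA
  rw [usR_map, an.ψ_x0]

end Pool.Agent.H97.FB
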