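import Pool.Agent.H97.FB.TRX
import Pool.Agent.H97.FB.FLX
import Pool.Agent.H8.RZ.SMC

/-! # [H97 FB SMX] The Taylor coefficients are small near the integer points

`L = log X0`, `TT = (m + 1 + η) Y ≤ (m + 2) Y`. `c1` from `small_c m n (ε/8) (m+2)`; `c` at least `c1` (so `≥ cA n`), `4`, and so large that with `Y / c ≥ 1` etc. (facts as in the header of AXY: `c ≤ L ≤ Y / c`, `log (2R) ≤ L / c`) `(J+1) Dn (X0^κ)^Dl 2^Dl ≤ exp ((ε/8) Y)` (`J + 1 ≤ Y / L + 1 ≤ 2 Y / c`; `Dn, Dl, κ ≤ Q0`;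
`(X0^κ)^Dl ≤ exp (Q0^2 L) ≤ exp (Q0^2 Y / c)`) and `(4/c) (m+2) ≤ ε/8`, `2 ≤ exp ((ε/8) Y)`.
(1) For every `k`: `‖Ak k i0 μ‖ ≤ exp ((ε/8) Y) exp (ε/4 Y) (2R)^k` (`Ak_le`, `hA` with `Z = exp (ε/4 Y)`). `small_c` with `f = Ak an J A k i0`, `Z` this bound, `TT_k = max (TT - k L) 0`: the vanishing hypothesis is `hvan` (if `∑ .. < TT_k` then `TT_k > 0` since the sum is `≥ 0`, so `k L + ∑ .. < TT`). So for `Nearby P T ξ`
`‖VmC P N (Ak k i0) T ξ‖ ≤ exp (ε/8 Y + ε/4 Y) (2R)^k exp (m Y - TT_k + ε/8 Y)`.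
(2) `VmC P N (fun μ => (Fl l μ : ℂ)) T ξ = ∑' i, binom(l+i, l) * VmC P N (Ak (l+i) i0) T ξ * (1/X0)^i` : `Fl_tsum`, `VmC` is a finite sum over `μ` (`Summable.tsum_finsetSum`/`tsum_mul_right`; for each `μ` the series in `Fl_tsum` is summable: `tay_small` with `a k = Ak k i0 μ`, `TT = 0`, `U` = the bound of `Ak_le`).
(3) `tay_small` with `a k = VmC P N (Ak k i0) T ξ`, `U = exp ((ε/2) Y + m Y)`: `‖..‖ ≤ 2 U exp (l L - (1 - 4/c) TT) ≤ exp (l L + m Y - TT + ε Y) = exp (l L - (1 + η) Y + ε Y)`. -/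

namespace Pool.Agent.H97.FB

open Finset Polynomial Pool.Agent.H72.ES Pool.Agent.H87.SA Pool.Agent.H87.SA2 Pool.Agent.H87.AX
  Pool.Agent.H8.AW Pool.Agent.H52.AC Pool.Agent.H97.NW Pool.Agent.H8.RZ

/-- the facts about the scales -/
private theorem smx_scl {m n : ℕ} (hm : 1 ≤ m) {c : ℕ} (hc : 4 ≤ c) {X0 R : ℝ} (hR : 2 ≤ R)
    {P : Fin m → Ptd n} (h : Scl c X0 R P) {Y : ℝ} (hY : ∀ v, (P v).ell ≤ Y) :
    1 ≤ X0 ∧ (c : ℝ) ≤ Real.log X0 ∧ (c : ℝ) * Real.log X0 ≤ Y ∧ (c : ℝ) ≤ Y := by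
  have hc0 : (4 : ℝ) ≤ c := by exact_mod_cast hc
  have h2R : 1 ≤ (2 * R) ^ c := one_le_pow₀ (by linarith)
  have hX1 : 1 ≤ X0 := h2R.trans h.RX
  have h1 := Real.log_le_log (by positivity) h.RX
  rw [Real.log_pow] at h1
  have h4 : 1 ≤ Real.log (2 * R) := by
    rw [Real.le_log_iff_exp_le (by positivity)]
    have := Real.exp_one_lt_d9
    linarith
  have hcL : (c : ℝ) ≤ Real.log X0 := by nlinarith
  have h5 := (h.low ⟨0, hm⟩).trans (hY _)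
  refine ⟨hX1, hcL, h5, ?_⟩
  nlinarith

private theorem smx_pre {m n : ℕ} (hm : 1 ≤ m) {Q0 c : ℕ} (hc : 4 ≤ c) {Dn Dl κ e M : ℕ}
    {X0 R : ℝ} {P : Fin m → Ptd n} (hB : Bnd Q0 Dn Dl κ e M X0 R) (h : Scl c X0 R P) {Y : ℝ}
    (hY : ∀ v, (P v).ell ≤ Y) {ε : ℝ}
    (hcε : 8 * ((Q0 : ℝ) ^ 2 + 2 * Q0 + 2) ≤ ε * c) :
    ((Jx X0 Y : ℝ) + 1) * Dn * ((X0 ^ κ) ^ Dl * 2 ^ Dl) ≤ Real.exp (ε / 8 * Y) := by
  obtain ⟨hX1, hcL, hLY, hcY⟩ := smx_scl hm hc hB.R2 h hY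
  have hc0 : (4 : ℝ) ≤ c := by exact_mod_cast hc
  have hcp : (0 : ℝ) < c := by linarith
  have hL0 : 0 < Real.log X0 := by linarith
  have hY0 : 0 < Y := by linarith
  obtain ⟨y, hy⟩ : ∃ y : ℝ, y = Y / c := ⟨_, rfl⟩
  have hy1 : 1 ≤ y := by
    rw [hy, one_le_div hcp]
    exact hcY
  have hLy : Real.log X0 ≤ y := by
    rw [hy, le_div_iff₀ hcp]
    linarith
  have hQ : (Dl : ℝ) ≤ Q0 := by exact_mod_cast hB.Dl_le
  have hDn : (Dn : ℝ) ≤ Q0 := by exact_mod_cast hB.DDl.trans hB.Dl_le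
  have hκ : (κ : ℝ) ≤ Q0 := by exact_mod_cast hB.κ_le
  have hQ0 : (0 : ℝ) ≤ Q0 := Nat.cast_nonneg _
  have b1 : (Jx X0 Y : ℝ) + 1 ≤ Real.exp (2 * y) := by
    have h1 : (Jx X0 Y : ℝ) ≤ Y / Real.log X0 := Nat.floor_le (by positivity)
    have h2 : Y / Real.log X0 ≤ y := by
      rw [hy]
      exact div_le_div_of_nonneg_left hY0.le hcp hcL
    have h3 := Real.add_one_le_exp (2 * y)
    linarith
  have b2 : (Dn : ℝ) ≤ Real.exp (Q0 * y) := by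
    have h1 := Real.add_one_le_exp (Q0 * y)
    have h2 : (Q0 : ℝ) ≤ Q0 * y := le_mul_of_one_le_right hQ0 hy1
    linarith
  have b3 : (X0 ^ κ) ^ Dl ≤ Real.exp ((Q0 : ℝ) ^ 2 * y) := by
    rw [← pow_mul]
    have h1 : X0 ^ (κ * Dl) = Real.exp (((κ * Dl : ℕ) : ℝ) * Real.log X0) := by
      rw [Real.exp_nat_mul, Real.exp_log (by linarith)]
    rw [h1]
    apply Real.exp_le_exp.2
    push_cast
    have h2 : (κ : ℝ) * Dl ≤ (Q0 : ℝ) ^ 2 := by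
      rw [sq]
      exact mul_le_mul hκ hQ (Nat.cast_nonneg _) hQ0
    exact mul_le_mul h2 hLy hL0.le (by positivity)
  have b4 : (2 : ℝ) ^ Dl ≤ Real.exp (Q0 * y) := by
    have h1 : (2 : ℝ) ^ Dl ≤ Real.exp Dl := by
      rw [← mul_one ((Dl : ℕ) : ℝ), Real.exp_nat_mul]
      refine pow_le_pow_left₀ (by norm_num) ?_ _
      have := Real.add_one_le_exp (1 : ℝ)
      linarith
    refine h1.trans (Real.exp_le_exp.2 ?_)
    have h2 : (Q0 : ℝ) ≤ Q0 * y := le_mul_of_one_le_right hQ0 hy1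
    linarith
  calc ((Jx X0 Y : ℝ) + 1) * Dn * ((X0 ^ κ) ^ Dl * 2 ^ Dl)
      ≤ (Real.exp (2 * y) * Real.exp (Q0 * y)) *
        (Real.exp ((Q0 : ℝ) ^ 2 * y) * Real.exp (Q0 * y)) := by
        refine mul_le_mul (mul_le_mul b1 b2 (by positivity) (by positivity))
          (mul_le_mul b3 b4 (by positivity) (by positivity)) (by positivity) (by positivity)
    _ = Real.exp (((Q0 : ℝ) ^ 2 + 2 * Q0 + 2) * y) := by
        rw [← Real.exp_add, ← Real.exp_add, ← Real.exp_add]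
        congr 1
        ring
    _ ≤ Real.exp (ε / 8 * Y) := by
        apply Real.exp_le_exp.2
        rw [hy, mul_div_assoc', div_le_iff₀ hcp]
        have h1 := mul_le_mul_of_nonneg_right hcε hY0.le
        linarith

theorem small_x (m n Q0 : ℕ) (hm : 1 ≤ m) (hn : 4 ≤ n) (η : ℝ) (hη : 0 < η) (hη1 : η ≤ 1)
    (ε : ℝ) (hε : 0 < ε) : ∃ c : ℕ, cA n ≤ c ∧ 4 ≤ c ∧
    ∀ {Dn Dl κ e M : ℕ} {X0 R : ℝ} (an : AnchX Dn Dl κ e M X0 R) (P : Fin m → Ptd n),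
      Bnd Q0 Dn Dl κ e M X0 R → Scl c X0 R P → ∀ Y : ℝ, (∀ v, (P v).ell ≤ Y) →
      (∀ v, 1 ≤ Nf P Y v) → ∀ A : ℕ → ℕ → Mo P (Nf P Y) → ℤ,
      (∀ s j μ, |((A s j μ : ℤ) : ℝ)| ≤ Real.exp (ε / 4 * Y)) →
      (∀ (k : ℕ) (K : Fin m → ℕ),
        (k : ℝ) * Real.log X0 + ∑ v, (P v).ell * ((K v / (P v).C.pd.e : ℕ) : ℝ) <
          ((m : ℝ) + 1 + η) * Y →
        BmC P (Df P Y) (Nf P Y) (Ak an (Jx X0 Y) A k an.i0) (fun v => (P v).i) K = 0) →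
      ∀ (l : ℕ) (T ξ : Fin m → ℂ), Nearby P T ξ →
      ‖VmC P (Nf P Y) (fun μ => ((Fl an (Jx X0 Y) A l μ : ℝ) : ℂ)) T ξ‖ ≤
        Real.exp (l * Real.log X0 - (1 + η) * Y + ε * Y) := by
  have hm0 : (0 : ℝ) ≤ m := Nat.cast_nonneg m
  obtain ⟨c1, hc1, hsm⟩ := small_c m n hm hn (ε / 8) ((m : ℝ) + 2) (by positivity) (by linarith)
  obtain ⟨B, hBdef⟩ : ∃ B : ℝ, B = (8 * ((Q0 : ℝ) ^ 2 + 2 * Q0 + 2) + 8 + 32 * ((m : ℝ) + 2)) :=
    ⟨_, rfl⟩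
  obtain ⟨c, hcdef⟩ : ∃ c : ℕ, c = c1 + 4 + ⌈B / ε⌉₊ := ⟨_, rfl⟩
  have hcc1 : c1 ≤ c := by omega
  have hc4 : 4 ≤ c := by omega
  have hcε : B ≤ ε * c := by
    have h1 : B / ε ≤ ⌈B / ε⌉₊ := Nat.le_ceil _
    have h2 : ((⌈B / ε⌉₊ : ℕ) : ℝ) ≤ c := by
      exact_mod_cast (by omega : ⌈B / ε⌉₊ ≤ c)
    have h3 := h1.trans h2
    rw [div_le_iff₀ hε] at h3
    linarith
  refine ⟨c, hc1.trans hcc1, hc4, ?_⟩
  intro Dn Dl κ e M X0 R an P hB hS Y hY hN A hA hvan l T ξ hT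
  obtain ⟨hX1, hcL, hLY, hcY⟩ := smx_scl hm hc4 hB.R2 hS hY
  have hQ2 : (0 : ℝ) ≤ (Q0 : ℝ) ^ 2 + 2 * Q0 + 2 := by positivity
  have hc0 : (4 : ℝ) ≤ c := by exact_mod_cast hc4
  have hcp : (0 : ℝ) < c := by linarith
  have hL0 : 0 < Real.log X0 := by linarith
  have hY0 : 0 < Y := by linarith
  have hR2 := hB.R2
  have hpre := smx_pre hm hc4 hB hS hY (ε := ε) (by linarith)
  obtain ⟨L, hLdef⟩ : ∃ L : ℝ, L = Real.log X0 := ⟨_, rfl⟩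
  rw [← hLdef] at hcL hLY hL0 ⊢
  obtain ⟨U0, hU0⟩ : ∃ U0 : ℝ, U0 = Real.exp (ε / 8 * Y) * Real.exp (ε / 4 * Y) := ⟨_, rfl⟩
  have hU0p : 0 < U0 := by rw [hU0]; positivity
  -- the bound of the coefficients
  have hAk : ∀ (k : ℕ) (μ : Mo P (Nf P Y)),
      ‖Ak an (Jx X0 Y) A k an.i0 μ‖ ≤ U0 * (2 * R) ^ k := by
    intro k μ
    refine (Ak_le an hB.DDl hB.e1 hX1 (by linarith) (Jx X0 Y) A hA k an.i0 μ).trans ?_
    rw [hU0]
    refine mul_le_mul_of_nonneg_right ?_ (by positivity)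
    exact mul_le_mul_of_nonneg_right hpre (Real.exp_pos _).le
  obtain ⟨TT, hTT⟩ : ∃ TT : ℝ, TT = ((m : ℝ) + 1 + η) * Y := ⟨_, rfl⟩
  have hTT0 : 0 ≤ TT := by rw [hTT]; positivity
  have hTT1 : TT ≤ ((m : ℝ) + 2) * Y := by
    rw [hTT]
    exact mul_le_mul_of_nonneg_right (by linarith) hY0.le
  have hell : ∀ v, 0 ≤ (P v).ell := by
    intro v
    have h1 := hS.low v
    rw [← hLdef] at h1
    have h2 : 0 ≤ (c : ℝ) * L := by positivity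
    linarith
  -- (1)
  have h1 : ∀ k : ℕ, ‖VmC P (Nf P Y) (Ak an (Jx X0 Y) A k an.i0) T ξ‖ ≤
      Real.exp (ε / 2 * Y + m * Y) * (2 * R) ^ k * Real.exp (-(max (TT - k * Real.log X0) 0)) := by
    intro k
    have hk0 : 0 ≤ (k : ℝ) * L := by positivity
    have h2 := hsm P (fun v => (P v).thr_mono hcc1 (hS.thr v)) Y hY hN
      (Ak an (Jx X0 Y) A k an.i0) (U0 * (2 * R) ^ k) (max (TT - k * L) 0) (le_max_right _ _)
      (max_le (by linarith) (by positivity)) (fun μ => hAk k μ) (fun K hK => by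
        apply hvan k K
        have h3 : 0 ≤ ∑ v, (P v).ell * ((K v / (P v).C.pd.e : ℕ) : ℝ) :=
          sum_nonneg fun v _ => mul_nonneg (hell v) (Nat.cast_nonneg _)
        rcases lt_max_iff.1 hK with h4 | h4
        · rw [← hLdef, ← hTT]
          linarith
        · linarith) T ξ hT
    rw [← hLdef]
    refine h2.trans (le_of_eq ?_)
    rw [hU0, ← Real.exp_add]
    have e1 : Real.exp (ε / 8 * Y + ε / 4 * Y) * (2 * R) ^ k *
        Real.exp (m * Y - max (TT - k * L) 0 + ε / 8 * Y) =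
        (Real.exp (ε / 8 * Y + ε / 4 * Y) * Real.exp (m * Y - max (TT - k * L) 0 + ε / 8 * Y)) *
          (2 * R) ^ k := by ring
    have e2 : Real.exp (ε / 2 * Y + m * Y) * (2 * R) ^ k * Real.exp (-(max (TT - k * L) 0)) =
        (Real.exp (ε / 2 * Y + m * Y) * Real.exp (-(max (TT - k * L) 0))) * (2 * R) ^ k := by ring
    rw [e1, e2, ← Real.exp_add, ← Real.exp_add]
    congr 2
    ring
  -- (2)
  have hsum : ∀ μ : Mo P (Nf P Y), HasSum (fun i : ℕ => (((l + i).choose l : ℕ) : ℂ) *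
      Ak an (Jx X0 Y) A (l + i) an.i0 μ * (((1 / X0 : ℝ)) : ℂ) ^ i)
      ((Fl an (Jx X0 Y) A l μ : ℝ) : ℂ) := by
    intro μ
    rw [Fl_tsum]
    refine (tay_small hc4 hR2 hS.RX hU0p.le le_rfl (fun k => Ak an (Jx X0 Y) A k an.i0 μ)
      (fun k => ?_) l).1.hasSum
    have h2 : max (0 - (k : ℝ) * Real.log X0) 0 = 0 := by
      apply max_eq_right
      rw [← hLdef]
      have : 0 ≤ (k : ℝ) * L := by positivity
      linarith
    rw [h2, neg_zero, Real.exp_zero, mul_one]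
    exact hAk k μ
  obtain ⟨w, hw⟩ : ∃ w : Mo P (Nf P Y) → ℂ, w = fun μ => ∏ v, (ξ v ^ ((μ v).1 : ℕ) *
    (ξ v * evz (T v) ((P v).C.pd.x (P v).i)) ^ ((μ v).2 : ℕ)) := ⟨_, rfl⟩
  have hV : ∀ f : Mo P (Nf P Y) → ℂ, VmC P (Nf P Y) f T ξ = ∑ μ, f μ * w μ := by
    intro f
    rw [hw]
    rfl
  have h2 : VmC P (Nf P Y) (fun μ => ((Fl an (Jx X0 Y) A l μ : ℝ) : ℂ)) T ξ =
      ∑' i : ℕ, (((l + i).choose l : ℕ) : ℂ) *
        VmC P (Nf P Y) (Ak an (Jx X0 Y) A (l + i) an.i0) T ξ * (((1 / X0 : ℝ)) : ℂ) ^ i := by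
    rw [hV]
    have h3 := hasSum_sum (s := (univ : Finset (Mo P (Nf P Y)))) fun μ _ =>
      (hsum μ).mul_right (w μ)
    rw [← h3.tsum_eq]
    congr 1
    funext i
    rw [hV, mul_sum, sum_mul]
    refine sum_congr rfl fun μ _ => ?_
    ring
  -- (3)
  have h3 := (tay_small hc4 hR2 hS.RX (Real.exp_pos (ε / 2 * Y + m * Y)).le hTT0
    (fun k => VmC P (Nf P Y) (Ak an (Jx X0 Y) A k an.i0) T ξ) h1 l).2
  rw [h2]
  refine h3.trans ?_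
  rw [← hLdef]
  have h4 : (2 : ℝ) ≤ Real.exp (ε / 8 * Y) := by
    have h5 := Real.add_one_le_exp (ε / 8 * Y)
    have h6 : 8 ≤ ε * c := by linarith
    have h7 : ε * c ≤ ε * Y := mul_le_mul_of_nonneg_left hcY hε.le
    linarith
  have h5 : 4 / (c : ℝ) * TT ≤ ε / 8 * Y := by
    rw [div_mul_eq_mul_div, div_le_iff₀ hcp]
    have h6 : 32 * ((m : ℝ) + 2) ≤ ε * c := by linarith
    have h7 := mul_le_mul_of_nonneg_right h6 hY0.le
    linarith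
  calc 2 * Real.exp (ε / 2 * Y + m * Y) * Real.exp (l * L - (1 - 4 / c) * TT)
      ≤ Real.exp (ε / 8 * Y) * Real.exp (ε / 2 * Y + m * Y) *
        Real.exp (l * L - (1 - 4 / c) * TT) := by
        refine mul_le_mul_of_nonneg_right ?_ (Real.exp_pos _).le
        exact mul_le_mul_of_nonneg_right h4 (Real.exp_pos _).le
    _ = Real.exp (ε / 8 * Y + (ε / 2 * Y + m * Y) + (l * L - (1 - 4 / c) * TT)) := by
        rw [← Real.exp_add, ← Real.exp_add]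
    _ ≤ Real.exp (l * L - (1 + η) * Y + ε * Y) := by
        apply Real.exp_le_exp.2
        have h8 : (1 - 4 / (c : ℝ)) * TT = ((m : ℝ) + 1 + η) * Y - 4 / (c : ℝ) * TT := by
          rw [← hTT]
          ring
        rw [h8]
        have h9 : 0 ≤ ε * Y := by positivity
        linarith

end Pool.Agent.H97.FB
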