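import Pool.Agent.H97.FB.AXY
import Pool.Agent.H97.FB.SMX
import Pool.Agent.H8.RZ.LCC
import Pool.Agent.H97.NW.PTF

/-! # [H97 FB ZRX] The machine: vanishing of the local expansions at the rational point

`η, K0` from `auxBX m ν Q0 hm _ γ hγ`; `τ = η / (8 (ν + Q0))`. Given `δ`: `ε = η / 8`, `δ' = min δ (ε / 4)`; `c` the maximum of the constants of `auxBX` (for `δ'`) and `small_x` (for `ε`), and large; `Scl c` implies `Scl c'` for `c' ≤ c` (`1 ≤ 2R`; `Ptd.thr_mono`; `0 ≤ log X0`). `Y ≥ K0 ell ≥ ell`. `A` from `auxBX`.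
`small_x` applies (`z = (i0, near) ∈ tu.PP` by `tu.mem`): for `Nearby P T ξ`: `‖VmC (Fl l) T ξ‖ ≤ exp (l L - (1+η) Y + ε Y)`, `L = log X0`.
`loc_mc` (`Pool/Agent/H8/RZ/LCC.lean`) with `ρ_v = |x_v| / (2 |kap_v|)` exactly as in `zero_m` (`Pool/Agent/H97/NW/ZER.lean`) and `ZRZ.lean`: `‖LmC P N (Fl l) K‖ ≤ exp (l L - (1+η) Y + ε Y) ∏ (2|kap_v|/|x_v|)^(K_v) ≤ exp (l L - (1+η) Y + ε Y + 2 ν ∑ ell_v K_v)` (`kap_facts`).
`LmC P N (Fl l) K` is the cast of the real number `S = ∑_μ Fl l μ * (∏ coeff ..)`. INTEGRALITY: by `Fl_int` and since `∏ coeff` are integers, `Nn = M^(J/e) ce^Dn Δ^l (1/X0)^l S` is an integer. SIZE: `M^(J/e) ≤ X0^J ≤ exp (J L) ≤ exp Y` (`J = ⌊Y/L⌋₊`, `M = X0^e`), `ce^Dn ≤ X0^(κ Dn) ≤ exp (Q0^2 L) ≤ exp (Q0^2 Y / c)`,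
`Δ^l ≤ X0^(κ l) ≤ exp (Q0 l L)`, `(1/X0)^l = exp (- l L)`; so `|Nn| ≤ exp (Y + Q0^2 Y/c + Q0 l L - (1+η) Y + ε Y + 2 ν ∑ ell K) ≤ exp (- η Y + (η/8) Y + (η/8) Y + 2 (ν + Q0) τ Y) ≤ exp (- η Y / 2) < 1` (`2 (ν + Q0) τ = η / 4`). So `Nn = 0` (`Int.abs_lt_one_iff`), and `S = 0` since the factors
`M, ce, Δ, 1/X0` are not zero. -/

namespace Pool.Agent.H97.FB

open Finset Polynomial Pool.Agent.H72.ES Pool.Agent.H87.SA Pool.Agent.H87.SA2 Pool.Agent.H87.AX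
  Pool.Agent.H8.AW Pool.Agent.H52.AC Pool.Agent.H97.NW Pool.Agent.H8.RZ

private theorem scl_mono {m ν : ℕ} {c c' : ℕ} {X0 R : ℝ} {P : Fin m → Ptd ν} (h : Scl c X0 R P)
    (hc : c' ≤ c) (hR : 2 ≤ R) (hL : 0 ≤ Real.log X0) : Scl c' X0 R P where
  RX := (pow_le_pow_right₀ (by linarith) hc).trans h.RX
  thr := fun v => (P v).thr_mono hc (h.thr v)
  low := fun v => (mul_le_mul_of_nonneg_right (Nat.cast_le.2 hc) hL).trans (h.low v)

private theorem zrx_int {m ν : ℕ} {Dn Dl κ e M : ℕ} {X0 R : ℝ} (an : AnchX Dn Dl κ e M X0 R)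
    (hX : 0 < X0) (he : 1 ≤ e) (hM : X0 ^ e = (M : ℝ)) (hR : 0 ≤ R) (hRX : R < X0)
    (P : Fin m → Ptd ν) (N : Fin m → ℕ) (J : ℕ) (A : ℕ → ℕ → Mo P N → ℤ) (l : ℕ)
    (g : Mo P N → ℤ) : ∃ z : ℤ, (z : ℝ) = (((M : ℤ) ^ (J / e) * an.ce ^ Dn : ℤ) : ℝ) *
      (an.Δ : ℝ) ^ l * ((1 / X0) ^ l * ∑ μ, Fl an J A l μ * (g μ : ℝ)) := by
  choose z hz using fun μ => Fl_int an hX he hM hR hRX J A l μ
  refine ⟨∑ μ, z μ * g μ, ?_⟩
  rw [Int.cast_sum, mul_sum, mul_sum]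
  refine sum_congr rfl fun μ _ => ?_
  rw [Int.cast_mul, hz μ]
  ring

private theorem zrx_size {Q0 Dn Dl κ e M : ℕ} {X0 R : ℝ} (an : AnchX Dn Dl κ e M X0 R)
    (hb : Bnd Q0 Dn Dl κ e M X0 R) (hX : 1 < X0) {Y : ℝ} (hY : 0 ≤ Y) (l : ℕ) {S E : ℝ}
    (hS : |S| ≤ Real.exp (l * Real.log X0 + E)) :
    |(((M : ℤ) ^ (Jx X0 Y / e) * an.ce ^ Dn : ℤ) : ℝ) * (an.Δ : ℝ) ^ l * ((1 / X0) ^ l * S)| ≤
      Real.exp (Y + (Q0 : ℝ) ^ 2 * Real.log X0 + Q0 * (l * Real.log X0) + E) := by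
  have hX0 : 0 < X0 := by linarith
  have hL : 0 < Real.log X0 := Real.log_pos hX
  obtain ⟨L, hLd⟩ : ∃ L : ℝ, L = Real.log X0 := ⟨_, rfl⟩
  have hexp : ∀ k : ℕ, X0 ^ k = Real.exp (k * L) := by
    intro k
    rw [Real.exp_nat_mul, hLd, Real.exp_log hX0]
  have hM0 : (0 : ℝ) ≤ (M : ℝ) ^ (Jx X0 Y / e) := by positivity
  have hce0 : (0 : ℝ) ≤ (an.ce : ℝ) := by
    have h1 : (1 : ℝ) ≤ (an.ce : ℝ) := by exact_mod_cast an.ce_pos
    linarith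
  have hΔ0 : (0 : ℝ) ≤ (an.Δ : ℝ) := by
    have h1 : (1 : ℝ) ≤ (an.Δ : ℝ) := by exact_mod_cast an.Δ_pos
    linarith
  have e1 : (M : ℝ) ^ (Jx X0 Y / e) ≤ Real.exp Y := by
    rw [← hb.pow, ← pow_mul]
    calc X0 ^ (e * (Jx X0 Y / e)) ≤ X0 ^ (Jx X0 Y) :=
          pow_le_pow_right₀ hX.le (Nat.mul_div_le _ _)
      _ = Real.exp (Jx X0 Y * L) := hexp _
      _ ≤ Real.exp Y := by
          apply Real.exp_le_exp.mpr
          have h1 : (Jx X0 Y : ℝ) ≤ Y / Real.log X0 := by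
            unfold Jx
            exact Nat.floor_le (div_nonneg hY hL.le)
          rw [hLd]
          rwa [le_div_iff₀ hL] at h1
  have e2 : (an.ce : ℝ) ^ Dn ≤ Real.exp ((Q0 : ℝ) ^ 2 * L) := by
    calc (an.ce : ℝ) ^ Dn ≤ (X0 ^ κ) ^ Dn := pow_le_pow_left₀ hce0 an.ce_le _
      _ = X0 ^ (κ * Dn) := by rw [pow_mul]
      _ ≤ X0 ^ (Q0 ^ 2) := by
          apply pow_le_pow_right₀ hX.le
          rw [pow_two]
          exact Nat.mul_le_mul hb.κ_le (hb.DDl.trans hb.Dl_le)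
      _ = Real.exp ((Q0 : ℝ) ^ 2 * L) := by
          rw [hexp]
          push_cast
          rfl
  have e3 : (an.Δ : ℝ) ^ l ≤ Real.exp (Q0 * (l * L)) := by
    calc (an.Δ : ℝ) ^ l ≤ (X0 ^ κ) ^ l := pow_le_pow_left₀ hΔ0 an.Δ_le _
      _ = X0 ^ (κ * l) := by rw [pow_mul]
      _ ≤ X0 ^ (Q0 * l) := by
          apply pow_le_pow_right₀ hX.le
          exact Nat.mul_le_mul_right _ hb.κ_le
      _ = Real.exp (Q0 * (l * L)) := by
          rw [hexp]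
          push_cast
          rw [mul_assoc]
  have e4 : (1 / X0) ^ l = Real.exp (-(l * L)) := by
    rw [one_div, inv_pow, hexp, Real.exp_neg]
  rw [abs_mul, abs_mul, abs_mul]
  push_cast
  rw [abs_mul, abs_of_nonneg hM0, abs_of_nonneg (pow_nonneg hce0 _),
    abs_of_nonneg (pow_nonneg hΔ0 _), e4, abs_of_pos (Real.exp_pos _), ← hLd]
  rw [← hLd] at hS
  calc (M : ℝ) ^ (Jx X0 Y / e) * (an.ce : ℝ) ^ Dn * (an.Δ : ℝ) ^ l *
        (Real.exp (-(l * L)) * |S|)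
      ≤ Real.exp Y * Real.exp ((Q0 : ℝ) ^ 2 * L) * Real.exp (Q0 * (l * L)) *
        (Real.exp (-(l * L)) * Real.exp (l * L + E)) := by gcongr
    _ = Real.exp (Y + (Q0 : ℝ) ^ 2 * L + Q0 * (l * L) + E) := by
        rw [← Real.exp_add, ← Real.exp_add, ← Real.exp_add, ← Real.exp_add]
        congr 1
        ring

theorem zeroX (m ν Q0 : ℕ) (hm : 1 ≤ m) (hν : 4 ≤ ν) (γ : ℝ) (hγ : 0 < γ) : ∃ τ K0 : ℝ,
    0 < τ ∧ 1 ≤ K0 ∧ ∀ δ : ℝ, 0 < δ → ∃ c : ℕ, cA ν ≤ c ∧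
    ∀ {Dn Dl κ e M : ℕ} {X0 R : ℝ} (an : AnchX Dn Dl κ e M X0 R) (P : Fin m → Ptd ν)
      (tu : TupX an P), Bnd Q0 Dn Dl κ e M X0 R → Scl c X0 R P →
      (1 + γ) * (((m : ℝ) + 1) ^ (m + 1) * (tu.PP.card : ℝ)) ≤
        ((m + 1).factorial : ℝ) * ((Dn : ℝ) * ∏ v, ((P v).d : ℝ)) →
      ∀ Y : ℝ, (∀ v, K0 * (P v).ell ≤ Y) →
      ∃ A : ℕ → ℕ → Mo P (Nf P Y) → ℤ, NZA (Jx X0 Y) Dn A ∧
        (∀ s j μ, |((A s j μ : ℤ) : ℝ)| ≤ Real.exp (δ * Y)) ∧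
        ∀ (l : ℕ) (K : Fin m → ℕ), (l : ℝ) * Real.log X0 + ∑ v, (P v).ell * (K v : ℝ) < τ * Y →
          ∑ μ, Fl an (Jx X0 Y) A l μ *
            ((∏ v, PowerSeries.coeff (K v) ((P v).psi ((μ v).1, (μ v).2)) : ℤ) : ℝ) = 0 := by
  have hν1 : (4 : ℝ) ≤ ν := by exact_mod_cast hν
  obtain ⟨η, K0, hη, hη1, hK0, haux⟩ := auxBX m ν Q0 hm (by omega) γ hγ
  refine ⟨η / (8 * (ν + Q0)), K0, by positivity, hK0, fun δ hδ => ?_⟩
  obtain ⟨c1, hc12, h1⟩ := haux (min δ (η / 8 / 4)) (lt_min hδ (by positivity))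
  obtain ⟨c2, hc2A, hc24, h2⟩ := small_x m ν Q0 hm hν η hη hη1 (η / 8) (by positivity)
  obtain ⟨c, hcdef⟩ : ∃ c : ℕ, c = max (max c1 c2) ⌈8 * (Q0 : ℝ) ^ 2 / η⌉₊ := ⟨_, rfl⟩
  have hcc1 : c1 ≤ c := by rw [hcdef]; exact (le_max_left _ _).trans (le_max_left _ _)
  have hcc2 : c2 ≤ c := by rw [hcdef]; exact (le_max_right _ _).trans (le_max_left _ _)
  have hcA : cA ν ≤ c := hc2A.trans hcc2
  have hc3 : 8 * (Q0 : ℝ) ^ 2 ≤ η * c := by
    have h3 : ⌈8 * (Q0 : ℝ) ^ 2 / η⌉₊ ≤ c := by rw [hcdef]; exact le_max_right _ _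
    have h4 : 8 * (Q0 : ℝ) ^ 2 / η ≤ c := (Nat.le_ceil _).trans (by exact_mod_cast h3)
    rw [div_le_iff₀ hη] at h4
    linarith
  have hc4 : 4 ≤ c := hc24.trans hcc2
  have hc0 : (0 : ℝ) < c := by exact_mod_cast (by omega : 0 < c)
  refine ⟨c, hcA, ?_⟩
  intro Dn Dl κ e M X0 R an P tu hb hs hcard Y hY
  have hR2 : 2 ≤ R := hb.R2
  have h4X : R < X0 := by
    have h3 : (2 * R) ^ 1 ≤ (2 * R) ^ c := pow_le_pow_right₀ (by linarith) (by omega)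
    have h4 := h3.trans hs.RX
    rw [pow_one] at h4
    linarith
  have hX1 : 1 < X0 := by linarith
  have hX0 : 0 < X0 := by linarith
  have hL0 : 0 < Real.log X0 := Real.log_pos hX1
  have hs1 : Scl c1 X0 R P := scl_mono hs hcc1 hR2 hL0.le
  have hs2 : Scl c2 X0 R P := scl_mono hs hcc2 hR2 hL0.le
  have hPA : ∀ v, (P v).Thr (cA ν) := fun v => (P v).thr_mono hcA (hs.thr v)
  have hl2 : 0 < Real.log 2 := Real.log_pos (by norm_num)
  have hell1 : ∀ v, Real.log 2 ≤ (P v).ell := by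
    intro v
    have h3 := ((P v).ell_ge (hs.thr v)).2
    have h4 : (1 : ℝ) ≤ c := by
      have : (4 : ℝ) ≤ c := by exact_mod_cast hc4
      linarith
    nlinarith
  have hell0 : ∀ v, 0 < (P v).ell := fun v => hl2.trans_le (hell1 v)
  have hellY : ∀ v, (P v).ell ≤ Y := by
    intro v
    have h3 := hY v
    have h4 := hell0 v
    nlinarith
  have v0 : Fin m := ⟨0, by omega⟩
  have hY0 : 0 < Y := (hell0 v0).trans_le (hellY v0)
  have hLY : (Q0 : ℝ) ^ 2 * Real.log X0 ≤ η / 8 * Y := by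
    have h3 : c * Real.log X0 ≤ Y := (hs.low v0).trans (hellY v0)
    have h4 : 8 * (Q0 : ℝ) ^ 2 * Real.log X0 ≤ η * c * Real.log X0 :=
      mul_le_mul_of_nonneg_right hc3 hL0.le
    have h5 : η * (c * Real.log X0) ≤ η * Y := mul_le_mul_of_nonneg_left h3 hη.le
    linarith
  obtain ⟨hN, A, hnz, hA, hvan⟩ := h1 an P tu hb hs1 hcard Y hY
  refine ⟨A, hnz, fun s j μ => (hA s j μ).trans (Real.exp_le_exp.mpr
    (mul_le_mul_of_nonneg_right (min_le_left _ _) hY0.le)), fun l K hK => ?_⟩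
  have hsmall := h2 an P hb hs2 Y hellY hN A (fun s j μ => (hA s j μ).trans (Real.exp_le_exp.mpr
    (mul_le_mul_of_nonneg_right (min_le_right _ _) hY0.le)))
    (fun k K hk => hvan (an.i0, fun v => (P v).i) tu.mem k K hk) l
  -- the geometry
  have hx0 : ∀ v, (P v).x ≠ 0 := fun v => ((P v).facts hν (hPA v)).2.2.2.2.1
  have hXv : ∀ v, (0 : ℝ) < |((P v).x : ℝ)| := fun v => by
    rw [abs_pos]
    exact_mod_cast hx0 v
  have hexp : ∀ v, Real.exp (P v).ell = |((P v).x : ℝ)| := fun v => Real.exp_log (hXv v)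
  have hX2 : ∀ v, (2 : ℝ) ≤ |((P v).x : ℝ)| := by
    intro v
    rw [← hexp v]
    calc (2 : ℝ) = Real.exp (Real.log 2) := (Real.exp_log (by norm_num)).symm
      _ ≤ Real.exp (P v).ell := Real.exp_le_exp.mpr (hell1 v)
  have hkap := fun v => (P v).kap_facts hν (hPA v)
  have hk0 : ∀ v, (0 : ℝ) < |((P v).kap : ℝ)| := fun v => by
    rw [abs_pos]
    exact_mod_cast (hkap v).1
  have hloc := loc_mc hν P hPA (Nf P Y)
    (fun μ => ((Fl an (Jx X0 Y) A l μ : ℝ) : ℂ))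
    (M := Real.exp (l * Real.log X0 - (1 + η) * Y + η / 8 * Y))
    (fun v => |((P v).x : ℝ)| / (2 * |((P v).kap : ℝ)|))
    (fun v => div_pos (hXv v) (by have := hk0 v; positivity))
    (fun v => by
      have := (hk0 v).ne'
      apply le_of_eq
      field_simp) (fun T ξ hT => hsmall T ξ hT) K
  obtain ⟨S, hSd⟩ : ∃ S : ℝ, S = ∑ μ, Fl an (Jx X0 Y) A l μ *
    ((∏ v, PowerSeries.coeff (K v) ((P v).psi ((μ v).1, (μ v).2)) : ℤ) : ℝ) := ⟨_, rfl⟩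
  have hLmC : LmC P (Nf P Y) (fun μ => ((Fl an (Jx X0 Y) A l μ : ℝ) : ℂ)) K = (S : ℂ) := by
    unfold LmC
    rw [hSd]
    push_cast
    rfl
  rw [hLmC, Complex.norm_real, Real.norm_eq_abs] at hloc
  rw [← hSd]
  obtain ⟨W, hWd⟩ : ∃ W : ℝ, W = ∑ v, (P v).ell * (K v : ℝ) := ⟨_, rfl⟩
  rw [← hWd] at hK
  have hW0 : 0 ≤ W := by
    rw [hWd]
    exact sum_nonneg fun v _ => mul_nonneg (hell0 v).le (Nat.cast_nonneg _)
  have hρ' : Real.exp (-(2 * ν * W)) ≤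
      ∏ v, (|((P v).x : ℝ)| / (2 * |((P v).kap : ℝ)|)) ^ K v := by
    calc Real.exp (-(2 * ν * W)) = Real.exp (∑ v, -(2 * ν * ((P v).ell * (K v : ℝ)))) := by
          congr 1
          rw [sum_neg_distrib, ← mul_sum, hWd]
      _ = ∏ v, Real.exp (-(2 * ν * ((P v).ell * (K v : ℝ)))) := Real.exp_sum _ _
      _ ≤ _ := by
          refine prod_le_prod (fun v _ => (Real.exp_pos _).le) fun v _ => ?_
          have h1 : Real.exp (-(2 * ν * ((P v).ell * (K v : ℝ)))) =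
              (Real.exp (-((2 * ν : ℕ) * (P v).ell))) ^ K v := by
            rw [← Real.exp_nat_mul]
            congr 1
            push_cast
            ring
          rw [h1]
          apply pow_le_pow_left₀ (Real.exp_pos _).le
          rw [Real.exp_neg, Real.exp_nat_mul, hexp v, le_div_iff₀ (by have := hk0 v; positivity)]
          have h2 : 0 < |((P v).x : ℝ)| ^ (2 * ν) := pow_pos (hXv v) _
          rw [inv_mul_le_iff₀ h2]
          have h3 := (hkap v).2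
          have h4 := hX2 v
          nlinarith
  have hSle : |S| ≤ Real.exp (l * Real.log X0 +
      (-(1 + η) * Y + η / 8 * Y + 2 * ν * W)) := by
    have h3 : |S| * Real.exp (-(2 * ν * W)) ≤
        Real.exp (l * Real.log X0 - (1 + η) * Y + η / 8 * Y) :=
      (mul_le_mul_of_nonneg_left hρ' (abs_nonneg _)).trans hloc
    calc |S| = |S| * Real.exp (-(2 * ν * W)) * Real.exp (2 * ν * W) := by
          rw [mul_assoc, ← Real.exp_add, neg_add_cancel, Real.exp_zero, mul_one]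
      _ ≤ Real.exp (l * Real.log X0 - (1 + η) * Y + η / 8 * Y) * Real.exp (2 * ν * W) :=
          mul_le_mul_of_nonneg_right h3 (Real.exp_pos _).le
      _ = _ := by
          rw [← Real.exp_add]
          congr 1
          ring
  obtain ⟨z, hz⟩ := zrx_int an hX0 hb.e1 hb.pow (by linarith) h4X P (Nf P Y) (Jx X0 Y) A l
    (fun μ => ∏ v, PowerSeries.coeff (K v) ((P v).psi ((μ v).1, (μ v).2)))
  rw [← hSd] at hz
  have hsize := zrx_size an hb hX1 hY0.le l hSle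
  rw [← hz] at hsize
  have hlt : |((z : ℤ) : ℝ)| < 1 := by
    refine hsize.trans_lt ((Real.exp_lt_exp.mpr ?_).trans_eq Real.exp_zero)
    have hlL : 0 ≤ (l : ℝ) * Real.log X0 := mul_nonneg (Nat.cast_nonneg _) hL0.le
    have hQ0 : (0 : ℝ) ≤ Q0 := Nat.cast_nonneg _
    have h4 : 2 * ((ν : ℝ) + Q0) * (l * Real.log X0 + W) <
        2 * ((ν : ℝ) + Q0) * (η / (8 * (ν + Q0)) * Y) :=
      mul_lt_mul_of_pos_left hK (by positivity)
    have h5 : 2 * ((ν : ℝ) + Q0) * (η / (8 * (ν + Q0)) * Y) = η / 4 * Y := by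
      field_simp
      ring
    rw [h5] at h4
    have h6 : (Q0 : ℝ) * (l * Real.log X0) + 2 * ν * W ≤
        2 * ((ν : ℝ) + Q0) * (l * Real.log X0 + W) := by
      nlinarith [mul_nonneg hQ0 hlL, mul_nonneg hQ0 hW0, mul_nonneg (by linarith : (0:ℝ) ≤ ν) hlL]
    have h7 : 0 < η * Y := by positivity
    nlinarith
  have hlt2 : |z| < 1 := by exact_mod_cast hlt
  have hz0 : z = 0 := Int.abs_lt_one_iff.mp hlt2
  rw [hz0, Int.cast_zero] at hz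
  have hM0 : (((M : ℤ) ^ (Jx X0 Y / e) * an.ce ^ Dn : ℤ) : ℝ) ≠ 0 := by
    have h3 : (0 : ℝ) < (M : ℝ) := by
      rw [← hb.pow]
      positivity
    have h4 : (0 : ℝ) < (an.ce : ℝ) := by
      have h5 : (1 : ℝ) ≤ (an.ce : ℝ) := by exact_mod_cast an.ce_pos
      linarith
    push_cast
    positivity
  have hΔ0 : (an.Δ : ℝ) ^ l ≠ 0 := by
    have h5 : (1 : ℝ) ≤ (an.Δ : ℝ) := by exact_mod_cast an.Δ_pos
    have h6 : (0 : ℝ) < (an.Δ : ℝ) := by linarith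
    positivity
  have hXl : (1 / X0) ^ l ≠ 0 := by positivity
  have h9 := hz.symm
  rcases mul_eq_zero.1 h9 with h10 | h10
  · rcases mul_eq_zero.1 h10 with h11 | h11
    · exact absurd h11 hM0
    · exact absurd h11 hΔ0
  · rcases mul_eq_zero.1 h10 with h11 | h11
    · exact absurd h11 hXl
    · exact h11

end Pool.Agent.H97.FB
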