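import Pool.Agent.H87.SA2.Core
import Pool.Agent.H97.FB.ZRX
import Pool.Agent.H97.FB.TWN
import Pool.Agent.H97.FB.FLX

/-! # [H97 FB LZX] The zero estimate: the coefficients vanish at the integer points

`τ, K0` from `zeroX m ν Q0`, `K1 = K0`. `r1 : ℕ` with `(K0 R1 ν)^m ≤ r1`. `δ0, c0` from `two_sided Q0 r1 τ`. Given `δ'`: `δ = min δ' δ0`; `c` the maximum of the constant of `zeroX` for `δ`, `c0`, `6` (`Scl c` implies `Scl c'` for `c' ≤ c`).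
`Y = K0 * max ell` (`Finset.sup'` or: `Y = K0 * ell v0` with `v0` maximal, `Finset.exists_max_image`, `1 ≤ m`), so `K0 ell_v ≤ Y ≤ K0 R1 ell_v`. `A` from `zeroX`. `N_v = Nf ≤ Y / ell_v ≤ K0 R1` (`Nf ≤ Df`, `Nat.floor_le`), `d_v ≤ ν`: `card (Mo P N) = ∏ N_v d_v ≤ r1`. `J = Jx X0 Y`, `J log X0 ≤ Y`. `L = log X0`.
SUPPOSE `H := ∑_μ w μ • uA an J A μ ≠ 0`, `w μ = ∏_v x_v^(a_v) y_v^(b_v) : ℤ`. `zeroEstR` (`Pool/Agent/H87/SA2/ZeroE.lean`) with `ψ, ν, liou, sub, ψ_le` of the anchor, `D = Dl`, `M = X0`, `R := 2 R`, `A := (J+1) Dn ((X0^κ)^Dl 2^Dl) exp (δ0 Y)`, `g = uA an J A`, `c := M^(J/e) ce^Dn`, `Δ := an.Δ`, `μ := w`, `K = ⌈τ Y / L⌉₊`: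
`32 (2 R) ≤ X0` from `(2R)^6 ≤ X0`; `hg`: `coeff_usR`, `zcR_le` in `E` (`ν (x0^r) ≤ X0^κ`, `Z_le`), `SubMul` (`ν (sum) ≤ sum`, `ν (int * a) ≤ |int| ν a`, see how `Pool/Agent/H87/AX/NZ.lean` calls `zeroEstR`), `|A s j μ| ≤ exp (δ Y) ≤ exp (δ0 Y)`; `hdn`: `Fl_int` (it is `DnR` by definition);
`hK`: `PowerSeries.X_pow_dvd_iff`; for `l < K`: `l L < τ Y` (`Nat.lt_ceil`), the coefficient of `tay` is `∑_μ w μ * Fl l μ` (`tay_sumZ`, `tay_zsmul` as in the proof of `zeroEstR`, `cv_uA`), zero by the last property of `A` with `K = 0` (`coeff 0 (psi (a,b)) = x^a y^b`: `xs` and `Ptd.Y` have constant coefficients `x`, `y`, `Ptd.Y_spec`).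
The two inequalities contradict `two_sided` (`c1 = c ≤ X0^J (X0^κ)^Dn`, `M^(J/e) ≤ X0^J` as `X0^e = M`, `K L ≥ τ Y`, `c L ≤ ell ≤ Y`).
So `H = 0`. `H = usR x0 e J Dn (fun s j => ∑_μ w μ * A s j μ) Z` (`usR` is additive in the coefficients; unfold, `Finset.sum_comm`), `an.indep`: `∑_μ w μ A s j μ = 0` for `s ≤ J`, `j < Dn`. `NZA`: some `A s j ≠ 0`; `f = A s j`. -/

namespace Pool.Agent.H97.FB

open Finset Polynomial Pool.Agent.H72.ES Pool.Agent.H87.SA Pool.Agent.H87.SA2 Pool.Agent.H87.AX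
  Pool.Agent.H8.AW Pool.Agent.H52.AC Pool.Agent.H97.NW Pool.Agent.H8.RZ

private theorem lzx_scl {m ν : ℕ} {c c' : ℕ} {X0 R : ℝ} {P : Fin m → Ptd ν} (h : Scl c X0 R P)
    (hc : c' ≤ c) (hR : 2 ≤ R) (hL : 0 ≤ Real.log X0) : Scl c' X0 R P where
  RX := (pow_le_pow_right₀ (by linarith) hc).trans h.RX
  thr := fun v => (P v).thr_mono hc (h.thr v)
  low := fun v => (mul_le_mul_of_nonneg_right (Nat.cast_le.2 hc) hL).trans (h.low v)

private theorem lzx_psi0 {ν : ℕ} (P : Ptd ν) (a b : ℕ) :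
    PowerSeries.coeff 0 (P.psi (a, b)) = P.x ^ a * P.y ^ b := by
  unfold Ptd.psi
  rw [PowerSeries.coeff_zero_eq_constantCoeff_apply, map_mul, map_pow, map_pow, P.Y_spec.1]
  simp [xs]

private theorem lzx_core {Q0 r1 : ℕ} {τ δ0 : ℝ} {c0 : ℕ} (hδ0 : 0 < δ0)
    (hts : ∀ (Dn Dl κ J r0 K k0 K' : ℕ) (X0 R Y A c1 Δ : ℝ), 2 ≤ R → (2 * R) ^ c0 ≤ X0 →
      c0 * Real.log X0 ≤ Y → J * Real.log X0 ≤ Y → Dn ≤ Q0 → Dl ≤ Q0 → κ ≤ Q0 → r0 ≤ r1 →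
      τ * Y ≤ K * Real.log X0 → K ≤ K' + r0 → 1 ≤ A →
      A ≤ ((J : ℝ) + 1) * Dn * ((X0 ^ κ) ^ Dl * 2 ^ Dl) * Real.exp (δ0 * Y) →
      1 ≤ c1 → c1 ≤ X0 ^ (J + κ * Dn) → 1 ≤ Δ → Δ ≤ X0 ^ κ →
      X0 ^ K' ≤ (8 * (2 * R)) ^ K' * ((r0.factorial * (2 * (r0.factorial *
        (2 * (2 * R)) ^ r0 * A)) ^ r0) * (4 * (2 * R)) ^ k0) ^ (Dl + 1) →
      X0 ^ k0 ≤ 2 * (c1 ^ r0 * Δ ^ (r0 ^ 2 + K')) * ((8 * (2 * R)) ^ K' *
        ((r0.factorial * (2 * (r0.factorial * (2 * (2 * R)) ^ r0 * A)) ^ r0) *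
          (4 * (2 * R)) ^ k0)) →
      False)
    {m ν Dn Dl κ e M : ℕ} {X0 R : ℝ} (an : AnchX Dn Dl κ e M X0 R) (P : Fin m → Ptd ν)
    (hb : Bnd Q0 Dn Dl κ e M X0 R) (hR0 : (2 * R) ^ c0 ≤ X0) (hR6 : (2 * R) ^ 6 ≤ X0) {Y : ℝ}
    (hLY : c0 * Real.log X0 ≤ Y) (hY : 0 ≤ Y) {N : Fin m → ℕ} (A : ℕ → ℕ → Mo P N → ℤ)
    (hA : ∀ s j μ, |((A s j μ : ℤ) : ℝ)| ≤ Real.exp (δ0 * Y))
    (hcard : Fintype.card (Mo P N) ≤ r1) (w : Mo P N → ℤ)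
    (hvan : ∀ l : ℕ, (l : ℝ) * Real.log X0 < τ * Y →
      ∑ μ, Fl an (Jx X0 Y) A l μ * ((w μ : ℤ) : ℝ) = 0) :
    ∑ μ, w μ • uA an (Jx X0 Y) A μ = 0 := by
  by_contra hne
  have hR2 : 2 ≤ R := hb.R2
  have hR1 : (1 : ℝ) ≤ R := by linarith
  have h2R : (4 : ℝ) ≤ 2 * R := by linarith
  have h64 : 64 * R ≤ X0 := by
    have h1 : (2 * R) ^ 6 = (2 * R) ^ 5 * (2 * R) := by ring
    have h2 : (4 : ℝ) ^ 5 ≤ (2 * R) ^ 5 := pow_le_pow_left₀ (by norm_num) h2R 5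
    have h3 : (4 : ℝ) ^ 5 * (2 * R) ≤ (2 * R) ^ 5 * (2 * R) :=
      mul_le_mul_of_nonneg_right h2 (by linarith)
    rw [h1] at hR6
    nlinarith
  have hX1 : 1 < X0 := by linarith
  have hX0 : 0 < X0 := by linarith
  have hL : 0 < Real.log X0 := Real.log_pos hX1
  obtain ⟨J, hJ⟩ : ∃ J : ℕ, J = Jx X0 Y := ⟨_, rfl⟩
  rw [← hJ] at hne hvan
  have hJL : (J : ℝ) * Real.log X0 ≤ Y := by
    have h1 : (J : ℝ) ≤ Y / Real.log X0 := by
      rw [hJ]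
      unfold Jx
      exact Nat.floor_le (div_nonneg hY hL.le)
    rwa [le_div_iff₀ hL] at h1
  obtain ⟨A1, hA1d⟩ : ∃ A1 : ℝ, A1 = ((J : ℝ) + 1) * Dn * ((X0 ^ κ) ^ Dl * 2 ^ Dl) *
      Real.exp (δ0 * Y) := ⟨_, rfl⟩
  have hDnR : (1 : ℝ) ≤ Dn := by exact_mod_cast hb.D1
  have hXκ : (1 : ℝ) ≤ X0 ^ κ := one_le_pow₀ hX1.le
  have hA11 : 1 ≤ A1 := by
    rw [hA1d]
    refine one_le_mul_of_one_le_of_one_le ?_ (Real.one_le_exp (by positivity))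
    refine one_le_mul_of_one_le_of_one_le ?_
      (one_le_mul_of_one_le_of_one_le (one_le_pow₀ hXκ) (one_le_pow₀ (by norm_num)))
    refine one_le_mul_of_one_le_of_one_le ?_ hDnR
    have : (0 : ℝ) ≤ J := Nat.cast_nonneg _
    linarith
  have hMN : 1 ≤ M := by
    have h1 : (1 : ℝ) ≤ (M : ℝ) := by
      rw [← hb.pow]
      exact one_le_pow₀ hX1.le
    exact_mod_cast h1
  have hcvZ : Cv (1 / X0) (an.Z.map an.ψ) := an.cv (by linarith) (by linarith)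
  have hcvu : ∀ μ, Cv (1 / X0) ((uA an J A μ).map an.ψ) := fun μ =>
    cv_uA an (by linarith) (by linarith) J A μ
  have hh : (0 : ℝ) ≤ 1 / X0 := by positivity
  obtain ⟨K, hKd⟩ : ∃ K : ℕ, K = ⌈τ * Y / Real.log X0⌉₊ := ⟨_, rfl⟩
  have hKL : τ * Y ≤ K * Real.log X0 := by
    have h1 : τ * Y / Real.log X0 ≤ K := by
      rw [hKd]
      exact Nat.le_ceil _
    rwa [div_le_iff₀ hL] at h1
  obtain ⟨r0, hr0⟩ : ∃ r0 : ℕ, r0 = Fintype.card (Mo P N) := ⟨_, rfl⟩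
  obtain ⟨k0, K', hKK', h1, h2⟩ := zeroEstR an.ψ an.sub an.ψ_le an.liou (M := X0) (A := A1)
    (R := 2 * R) hA11 (by linarith) (by linarith) (ι := Mo P N) r0 hr0.symm
    (fun μ => uA an J A μ)
    (fun μ k => by
      unfold uA
      rw [coeff_usR]
      refine (Pool.Agent.H8.KF.SubMul_sum an.sub _ _).trans ?_
      have e1 : ∀ s ∈ range (J + 1), an.ν (∑ j ∈ range Dn,
          ((A s j μ : ℤ) : an.E) * zcR an.x0 e an.Z k s j) ≤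
          Dn * (Real.exp (δ0 * Y) * (((X0 ^ κ) ^ Dl * 2 ^ Dl) * (2 * R) ^ k)) := by
        intro s _
        refine (Pool.Agent.H8.KF.SubMul_sum an.sub _ _).trans ?_
        have e2 : ∀ j ∈ range Dn, an.ν (((A s j μ : ℤ) : an.E) * zcR an.x0 e an.Z k s j) ≤
            Real.exp (δ0 * Y) * (((X0 ^ κ) ^ Dl * 2 ^ Dl) * (2 * R) ^ k) := by
          intro j hj
          have e3 := zcR_le an.sub (A := X0 ^ κ) (R := R) hXκ hR1 hb.e1 an.ν_x0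
            an.Z_le hb.DDl k s j (mem_range.1 hj)
          exact (an.sub.mul _ _).trans (mul_le_mul
            ((Pool.Agent.H8.KF.SubMul_int an.sub _).trans (hA _ _ _)) e3
            (an.sub.nonneg _) (Real.exp_pos _).le)
        refine (sum_le_sum e2).trans ?_
        rw [sum_const, card_range, nsmul_eq_mul]
      refine (sum_le_sum e1).trans ?_
      rw [sum_const, card_range, nsmul_eq_mul]
      refine le_of_eq ?_
      rw [hA1d]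
      push_cast
      ring)
    (c := (M : ℤ) ^ (J / e) * an.ce ^ Dn) (Δ := an.Δ)
    (by
      have e1 : (1 : ℤ) ≤ (M : ℤ) ^ (J / e) := one_le_pow₀ (by exact_mod_cast hMN)
      have e2 : (1 : ℤ) ≤ an.ce ^ Dn := one_le_pow₀ an.ce_pos
      exact one_le_mul_of_one_le_of_one_le e1 e2) an.Δ_pos
    (fun μ => by
      unfold uA
      rw [usR_map, an.ψ_x0]
      exact dnr_usR hX0 hb.e1 hb.pow J Dn (fun s j => A s j μ) hcvZ an.dn)
    w hne K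
    (by
      rw [PowerSeries.X_pow_dvd_iff]
      intro l hl
      have hmap : (∑ μ, w μ • uA an J A μ).map an.ψ = ∑ μ, w μ • (uA an J A μ).map an.ψ := by
        rw [map_sum]
        refine sum_congr rfl fun μ _ => ?_
        rw [map_zsmul]
      rw [hmap, tay_sumZ hh _ _ (fun μ _ => Cv.zsmul hh (hcvu μ) _), map_sum]
      have hl' : (l : ℝ) * Real.log X0 < τ * Y := by
        have h3 : (l : ℝ) < τ * Y / Real.log X0 := by
          rw [hKd] at hl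
          exact Nat.lt_ceil.1 hl
        rwa [lt_div_iff₀ hL] at h3
      rw [← hvan l hl']
      refine sum_congr rfl fun μ _ => ?_
      rw [tay_zsmul hh (hcvu μ), map_zsmul, zsmul_eq_mul, mul_comm]
      rfl)
  have hce1 : (1 : ℝ) ≤ an.ce := by exact_mod_cast an.ce_pos
  have hΔR : (1 : ℝ) ≤ an.Δ := by exact_mod_cast an.Δ_pos
  have hM1 : (1 : ℝ) ≤ M := by exact_mod_cast hMN
  refine hts Dn Dl κ J r0 K k0 K' X0 R Y A1 (((M : ℤ) ^ (J / e) * an.ce ^ Dn : ℤ) : ℝ) an.Δ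
    hR2 hR0 hLY hJL (hb.DDl.trans hb.Dl_le) hb.Dl_le hb.κ_le (by rw [hr0]; exact hcard) hKL hKK'
    hA11 (by rw [hA1d]) ?_ ?_ hΔR an.Δ_le h1 h2
  · push_cast
    exact one_le_mul_of_one_le_of_one_le (one_le_pow₀ hM1) (one_le_pow₀ hce1)
  · push_cast
    have e1 : (M : ℝ) ^ (J / e) ≤ X0 ^ J := by
      rw [← hb.pow, ← pow_mul]
      exact pow_le_pow_right₀ hX1.le (Nat.mul_div_le _ _)
    have e2 : (an.ce : ℝ) ^ Dn ≤ (X0 ^ κ) ^ Dn :=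
      pow_le_pow_left₀ (by linarith) an.ce_le Dn
    calc (M : ℝ) ^ (J / e) * (an.ce : ℝ) ^ Dn ≤ X0 ^ J * (X0 ^ κ) ^ Dn := by gcongr
      _ = X0 ^ (J + κ * Dn) := by rw [pow_add, pow_mul]

theorem lin_zero (m ν Q0 : ℕ) (hm : 1 ≤ m) (hν : 4 ≤ ν) (γ : ℝ) (hγ : 0 < γ) (R1 : ℝ)
    (hR1 : 1 ≤ R1) : ∃ K1 : ℝ, 1 ≤ K1 ∧ ∀ δ' : ℝ, 0 < δ' → ∃ c : ℕ, cA ν ≤ c ∧
    ∀ {Dn Dl κ e M : ℕ} {X0 R : ℝ} (an : AnchX Dn Dl κ e M X0 R) (P : Fin m → Ptd ν)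
      (tu : TupX an P), Bnd Q0 Dn Dl κ e M X0 R → Scl c X0 R P →
      (1 + γ) * (((m : ℝ) + 1) ^ (m + 1) * (tu.PP.card : ℝ)) ≤
        ((m + 1).factorial : ℝ) * ((Dn : ℝ) * ∏ v, ((P v).d : ℝ)) →
      (∀ v w, (P v).ell ≤ R1 * (P w).ell) →
      ∃ (Y : ℝ) (f : Mo P (Nf P Y) → ℤ), (∀ v, K1 * (P v).ell ≤ Y ∧ Y ≤ K1 * R1 * (P v).ell) ∧
        f ≠ 0 ∧ (∀ μ, |((f μ : ℤ) : ℝ)| ≤ Real.exp (δ' * Y)) ∧
        ∑ μ, f μ * ∏ v, ((P v).x ^ ((μ v).1 : ℕ) * (P v).y ^ ((μ v).2 : ℕ)) = 0 := by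
  obtain ⟨τ, K0, hτ, hK0, hz⟩ := zeroX m ν Q0 hm hν γ hγ
  refine ⟨K0, hK0, fun δ' hδ' => ?_⟩
  obtain ⟨r1, hr1⟩ : ∃ r1 : ℕ, r1 = ⌈(K0 * R1 * ν) ^ m⌉₊ := ⟨_, rfl⟩
  obtain ⟨δ0, c0, hδ0, hts⟩ := two_sided Q0 r1 τ hτ
  obtain ⟨c1, hc1A, h1⟩ := hz (min δ' δ0) (lt_min hδ' hδ0)
  obtain ⟨c, hcd⟩ : ∃ c : ℕ, c = max (max c1 c0) 6 := ⟨_, rfl⟩
  have hcc1 : c1 ≤ c := by rw [hcd]; exact (le_max_left _ _).trans (le_max_left _ _)
  have hcc0 : c0 ≤ c := by rw [hcd]; exact (le_max_right _ _).trans (le_max_left _ _)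
  have hc6 : 6 ≤ c := by rw [hcd]; exact le_max_right _ _
  refine ⟨c, hc1A.trans hcc1, ?_⟩
  intro Dn Dl κ e M X0 R an P tu hb hs hcard hRR
  have hR2 : 2 ≤ R := hb.R2
  have hX4 : 4 ≤ X0 := by
    have h3 : (2 * R) ^ 1 ≤ (2 * R) ^ c := pow_le_pow_right₀ (by linarith) (by omega)
    have h4 := h3.trans hs.RX
    rw [pow_one] at h4
    linarith
  have hX1 : 1 < X0 := by linarith
  have hL : 0 < Real.log X0 := Real.log_pos hX1
  have hs1 : Scl c1 X0 R P := lzx_scl hs hcc1 hR2 hL.le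
  have hs0 : Scl c0 X0 R P := lzx_scl hs hcc0 hR2 hL.le
  have hs6 : Scl 6 X0 R P := lzx_scl hs hc6 hR2 hL.le
  have hl2 : 0 < Real.log 2 := Real.log_pos (by norm_num)
  have hell0 : ∀ v, 0 < (P v).ell := by
    intro v
    have h3 := ((P v).ell_ge (hs6.thr v)).2
    push_cast at h3
    linarith
  obtain ⟨v0, -, hv0⟩ := Finset.exists_max_image univ (fun v => (P v).ell)
    ⟨(⟨0, by omega⟩ : Fin m), mem_univ _⟩
  obtain ⟨Y, hYd⟩ : ∃ Y : ℝ, Y = K0 * (P v0).ell := ⟨_, rfl⟩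
  have hK00 : 0 < K0 := by linarith
  have hYge : ∀ v, K0 * (P v).ell ≤ Y := by
    intro v
    rw [hYd]
    exact mul_le_mul_of_nonneg_left (hv0 v (mem_univ _)) hK00.le
  have hYle : ∀ v, Y ≤ K0 * R1 * (P v).ell := by
    intro v
    rw [hYd, mul_assoc]
    exact mul_le_mul_of_nonneg_left (hRR v0 v) hK00.le
  have hellY : ∀ v, (P v).ell ≤ Y := by
    intro v
    have h3 := hYge v
    have h4 := hell0 v
    nlinarith
  have hY0 : 0 < Y := (hell0 v0).trans_le (hellY v0)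
  obtain ⟨A, hnz, hA, hvan⟩ := h1 an P tu hb hs1 hcard Y hYge
  have hcardM : Fintype.card (Mo P (Nf P Y)) ≤ r1 := by
    have h2 : (Fintype.card (Mo P (Nf P Y)) : ℝ) ≤ (K0 * R1 * ν) ^ m := by
      rw [Fintype.card_pi]
      push_cast
      calc ∏ v, (Fintype.card (Fin (Nf P Y v) × Fin (P v).d) : ℝ)
          ≤ ∏ _v : Fin m, (K0 * R1 * ν) := by
            refine prod_le_prod (fun v _ => Nat.cast_nonneg _) fun v _ => ?_
            rw [Fintype.card_prod, Fintype.card_fin, Fintype.card_fin]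
            push_cast
            have h3 : (Nf P Y v : ℝ) ≤ K0 * R1 := by
              have h4 : Nf P Y v ≤ Df P Y v := by
                unfold Nf
                have := (P v).C.d1
                omega
              have h5 : (Df P Y v : ℝ) ≤ Y / (P v).ell := by
                unfold Df
                exact Nat.floor_le (div_nonneg hY0.le (hell0 v).le)
              have h6 : Y / (P v).ell ≤ K0 * R1 := by
                rw [div_le_iff₀ (hell0 v)]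
                exact hYle v
              exact (Nat.cast_le.2 h4).trans (h5.trans h6)
            have h7 : ((P v).d : ℝ) ≤ ν := by exact_mod_cast (P v).C.dn
            exact mul_le_mul h3 h7 (Nat.cast_nonneg _) (by positivity)
        _ = (K0 * R1 * ν) ^ m := by rw [prod_const, card_univ, Fintype.card_fin]
    have h3 : (K0 * R1 * ν) ^ m ≤ (r1 : ℝ) := by
      rw [hr1]
      exact Nat.le_ceil _
    exact_mod_cast h2.trans h3
  have hv00 := hs0.low v0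
  have hH := lzx_core hδ0 hts an P hb hs0.RX hs6.RX (hv00.trans (hellY v0)) hY0.le A
    (fun s j μ => (hA s j μ).trans (Real.exp_le_exp.mpr
      (mul_le_mul_of_nonneg_right (min_le_right _ _) hY0.le))) hcardM
    (fun μ => ∏ v, ((P v).x ^ ((μ v).1 : ℕ) * (P v).y ^ ((μ v).2 : ℕ)))
    (fun l hl => by
      have h3 := hvan l (fun _ => 0) (by
        simpa using hl)
      rw [← h3]
      refine sum_congr rfl fun μ _ => ?_
      congr 2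
      exact prod_congr rfl fun v _ => (lzx_psi0 (P v) _ _).symm)
  have hsum := usR_sum (univ : Finset (Mo P (Nf P Y))) an.x0 e (Jx X0 Y) Dn
    (fun μ => ∏ v, ((P v).x ^ ((μ v).1 : ℕ) * (P v).y ^ ((μ v).2 : ℕ)))
    (fun μ s j => A s j μ) an.Z
  have hzero : usR an.x0 e (Jx X0 Y) Dn (fun s j => ∑ μ : Mo P (Nf P Y),
      (∏ v, ((P v).x ^ ((μ v).1 : ℕ) * (P v).y ^ ((μ v).2 : ℕ))) * A s j μ) an.Z = 0 := by
    rw [hsum]
    exact hH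
  obtain ⟨s, hs', j, hj, hAne⟩ := hnz
  have h5 := an.indep (Jx X0 Y) _ hzero s hs' j hj
  refine ⟨Y, A s j, fun v => ⟨hYge v, hYle v⟩, hAne, fun μ => (hA s j μ).trans
    (Real.exp_le_exp.mpr (mul_le_mul_of_nonneg_right (min_le_left _ _) hY0.le)), ?_⟩
  rw [← h5]
  exact sum_congr rfl fun μ _ => mul_comm _ _

end Pool.Agent.H97.FB
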