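import Pool.Agent.H72.ES.NormPoly
import Pool.Agent.H97.FB.LZX
import Pool.Agent.H97.FB.DTX
import Pool.Agent.H97.NW.RSL

/-! # [H97 FB BK1] One curve: impossible

`K1` from `lin_zero 1 ν Q0` with `R1 = 1`; `δ' = 1 / (4 ν K1)`; `c` from `lin_zero`, and large. Let `f, Y` be as in `lin_zero` (`(m+1)^(m+1) = 4`, `(m+1)! = 2`, `Fin.prod_univ_one`; `K1 ell = Y`). `det_poly` with `m = 1`, `Z = exp (δ' Y)`: `g ≠ 0`, `g(x) = 0`, `l1 g ≤ ν! (N ν Z ((ν+1)^2 b)^ν)^ν`, `N = Nf ≤ Y / ell = K1`, `x ≠ 0`.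
`|x| ≤ l1 g`: `g` in one variable, divide by the highest power of `X` dividing it: the lowest nonzero coefficient is divisible by `x` (`pow_le_L1` of `Pool/Agent/H97/NW/RSL.lean` for `ℤ[X]` with `k = 1`; transport `MvPolynomial (Fin 1) ℤ ≃ ℤ[X]` by `MvPolynomial.finSuccEquiv`/`pUnitAlgEquiv` or apply `aeval (fun _ => X)`: the image `ρ` is
nonzero (injective), `X - C x ∣ ρ`, `L1 ρ ≤ l1 g`). So `ell ≤ log (l1 g) ≤ ν^2 + ν (log (K1 ν) + δ' Y + ν log ((ν+1)^2) + ν log b)` with `ν δ' Y = ell / 4`, `ν^2 log b ≤ ν^2 ell / c ≤ ell / 4` and the constant `≤ ell / 4` for `c` large (`ell ≥ c log 2`): contradiction. -/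

namespace Pool.Agent.H97.FB

open Finset Polynomial Pool.Agent.H72.ES Pool.Agent.H87.SA Pool.Agent.H87.SA2 Pool.Agent.H87.AX
  Pool.Agent.H8.AW Pool.Agent.H52.AC Pool.Agent.H97.NW Pool.Agent.H8.RZ

private theorem bk1_low {x : ℤ} (hx : x ≠ 0) (g : MvPolynomial (Fin 1) ℤ) (hg : g ≠ 0)
    (h0 : MvPolynomial.eval (fun _ => x) g = 0) : |(x : ℝ)| ≤ H4AR.l1 g := by
  obtain ⟨ρ, hρ⟩ : ∃ ρ : ℤ[X], ρ = MvPolynomial.aeval (fun _ : Fin 1 => (X : ℤ[X])) g := ⟨_, rfl⟩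
  have hinv : Polynomial.aeval (MvPolynomial.X (0 : Fin 1) : MvPolynomial (Fin 1) ℤ) ρ = g := by
    have h1 : ((Polynomial.aeval (MvPolynomial.X (0 : Fin 1) : MvPolynomial (Fin 1) ℤ)).comp
        (MvPolynomial.aeval (fun _ : Fin 1 => (X : ℤ[X])))) =
        AlgHom.id ℤ (MvPolynomial (Fin 1) ℤ) := by
      apply MvPolynomial.algHom_ext
      intro i
      have hi : i = 0 := Subsingleton.elim _ _
      simp [hi]
    have h2 := congrArg (fun φ : MvPolynomial (Fin 1) ℤ →ₐ[ℤ] MvPolynomial (Fin 1) ℤ => φ g) h1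
    rw [hρ]
    simpa using h2
  have hρ0 : ρ ≠ 0 := by
    intro h
    rw [h, map_zero] at hinv
    exact hg hinv.symm
  have hev : ρ.eval x = 0 := by
    have h1 : (Polynomial.evalRingHom x).comp
        (MvPolynomial.aeval (fun _ : Fin 1 => (X : ℤ[X])) : MvPolynomial (Fin 1) ℤ →ₐ[ℤ] ℤ[X]).toRingHom =
        MvPolynomial.eval (fun _ => x) := by
      apply MvPolynomial.ringHom_ext
      · intro r
        simp
      · intro i
        simp
    have h2 := congrArg (fun φ : MvPolynomial (Fin 1) ℤ →+* ℤ => φ g) h1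
    rw [hρ]
    have h3 : (Polynomial.evalRingHom x) (MvPolynomial.aeval (fun _ : Fin 1 => (X : ℤ[X])) g) =
        MvPolynomial.eval (fun _ => x) g := h2
    rw [h0] at h3
    exact h3
  have hdvd : (X - C x) ^ 1 ∣ ρ := by
    rw [pow_one, dvd_iff_isRoot]
    exact hev
  have h1 := pow_le_L1 hx hρ0 hdvd
  rw [pow_one] at h1
  refine h1.trans ?_
  rw [hρ, MvPolynomial.aeval_def, MvPolynomial.eval₂_eq']
  refine (L1_sum_le _ _).trans ?_
  unfold H4AR.l1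
  refine sum_le_sum fun e _ => le_of_eq ?_
  rw [Fin.prod_univ_one, ← L1_monomial (e 0) (MvPolynomial.coeff e g)]
  rfl

theorem blk1 (ν Q0 : ℕ) (hν : 4 ≤ ν) (γ : ℝ) (hγ : 0 < γ) : ∃ c : ℕ,
    ∀ {Dn Dl κ e M : ℕ} {X0 R : ℝ} (an : AnchX Dn Dl κ e M X0 R) (P : Fin 1 → Ptd ν)
      (tu : TupX an P), Bnd Q0 Dn Dl κ e M X0 R → Scl c X0 R P →
      (1 + γ) * (4 * (tu.PP.card : ℝ)) ≤ 2 * ((Dn : ℝ) * ((P 0).d : ℝ)) → False := by
  have hνR : (4 : ℝ) ≤ ν := by exact_mod_cast hν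
  obtain ⟨K1, hK1, hlz⟩ := lin_zero 1 ν Q0 le_rfl hν γ hγ 1 le_rfl
  have hK10 : 0 < K1 := by linarith
  obtain ⟨c0, hc0A, h0⟩ := hlz (1 / (4 * ν * K1)) (by positivity)
  obtain ⟨Kc, hKc⟩ : ∃ Kc : ℝ, Kc = (ν.factorial : ℝ) * (K1 * ν) ^ ν *
    ((((ν : ℝ) + 1) ^ 2) ^ ν) ^ ν := ⟨_, rfl⟩
  have hKc1 : 1 ≤ Kc := by
    rw [hKc]
    refine one_le_mul_of_one_le_of_one_le (one_le_mul_of_one_le_of_one_le ?_
      (one_le_pow₀ ?_)) (one_le_pow₀ (one_le_pow₀ (one_le_pow₀ (by linarith))))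
    · exact_mod_cast Nat.factorial_pos ν
    · nlinarith
  have hl2 : 0 < Real.log 2 := Real.log_pos (by norm_num)
  obtain ⟨c, hcd⟩ : ∃ c : ℕ, c = max (max c0 (4 * ν ^ 2)) (⌈4 * Real.log Kc / Real.log 2⌉₊ + 1) :=
    ⟨_, rfl⟩
  have hcc0 : c0 ≤ c := by rw [hcd]; exact (le_max_left _ _).trans (le_max_left _ _)
  have hcν : 4 * ν ^ 2 ≤ c := by rw [hcd]; exact (le_max_right _ _).trans (le_max_left _ _)
  have hcK : 4 * Real.log Kc ≤ c * Real.log 2 := by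
    have h1 : ⌈4 * Real.log Kc / Real.log 2⌉₊ ≤ c := by
      have : ⌈4 * Real.log Kc / Real.log 2⌉₊ + 1 ≤ c := by rw [hcd]; exact le_max_right _ _
      omega
    have h2 : 4 * Real.log Kc / Real.log 2 ≤ c := (Nat.le_ceil _).trans (by exact_mod_cast h1)
    rwa [div_le_iff₀ hl2] at h2
  have hc1 : 1 ≤ c := by
    have : ⌈4 * Real.log Kc / Real.log 2⌉₊ + 1 ≤ c := by rw [hcd]; exact le_max_right _ _
    omega
  refine ⟨c, ?_⟩
  intro Dn Dl κ e M X0 R an P tu hb hs hcard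
  have hR2 : 2 ≤ R := hb.R2
  have hX4 : 4 ≤ X0 := by
    have h3 : (2 * R) ^ 1 ≤ (2 * R) ^ c := pow_le_pow_right₀ (by linarith) hc1
    have h4 := h3.trans hs.RX
    rw [pow_one] at h4
    linarith
  have hL : 0 < Real.log X0 := Real.log_pos (by linarith)
  have hs0 : Scl c0 X0 R P :=
    ⟨(pow_le_pow_right₀ (by linarith) hcc0).trans hs.RX,
      fun v => (P v).thr_mono hcc0 (hs.thr v),
      fun v => (mul_le_mul_of_nonneg_right (Nat.cast_le.2 hcc0) hL.le).trans (hs.low v)⟩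
  have hPA : ∀ v, (P v).Thr (cA ν) := fun v => (P v).thr_mono (hc0A.trans hcc0) (hs.thr v)
  have hcard' : (1 + γ) * ((((1 : ℕ) : ℝ) + 1) ^ (1 + 1) * (tu.PP.card : ℝ)) ≤
      ((1 + 1).factorial : ℝ) * ((Dn : ℝ) * ∏ v, ((P v).d : ℝ)) := by
    rw [Fin.prod_univ_one]
    norm_num
    linarith
  obtain ⟨Y, f, hY, hf, hfb, hf0⟩ := h0 an P tu hb hs0 hcard' (by
    intro v w
    rw [Subsingleton.elim v w, one_mul])
  have hell := (P 0).ell_ge (hs.thr 0)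
  have hc1R : (1 : ℝ) ≤ c := by exact_mod_cast hc1
  have hell0 : 0 < (P 0).ell := by
    have h1 := hell.2
    nlinarith
  have hYeq : Y = K1 * (P 0).ell := by
    have h1 := hY 0
    rw [mul_one] at h1
    exact le_antisymm h1.2 h1.1
  have hY0 : 0 < Y := by rw [hYeq]; positivity
  obtain ⟨g, hg0, -, hgev, hgl⟩ := det_poly le_rfl hν P hPA (Nf P Y) f hf hf0
    (Z := Real.exp (1 / (4 * ν * K1) * Y)) (Real.one_le_exp (by positivity)) hfb
  have hx0 : (P 0).x ≠ 0 := ((P 0).facts hν (hPA 0)).2.2.2.2.1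
  have hfun : (fun v : Fin 1 => (P v).x) = fun _ => (P 0).x := by
    funext v
    rw [Subsingleton.elim v 0]
  rw [hfun] at hgev
  have hlow := (bk1_low hx0 g hg0 hgev).trans hgl
  have hXv : (0 : ℝ) < |((P 0).x : ℝ)| := by
    rw [abs_pos]
    exact_mod_cast hx0
  have hexp : Real.exp (P 0).ell = |((P 0).x : ℝ)| := Real.exp_log hXv
  have hbR : (2 : ℝ) ≤ (P 0).b := by exact_mod_cast (P 0).C.b2
  rw [pow_one, Fin.prod_univ_one, Fin.prod_univ_one, ← hexp] at hlow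
  push_cast at hlow
  have hN : (Nf P Y 0 : ℝ) ≤ K1 := by
    have h4 : Nf P Y 0 ≤ Df P Y 0 := by
      unfold Nf
      have := (P 0).C.d1
      omega
    have h5 : (Df P Y 0 : ℝ) ≤ Y / (P 0).ell := by
      unfold Df
      exact Nat.floor_le (div_nonneg hY0.le hell0.le)
    have h6 : Y / (P 0).ell = K1 := by
      rw [hYeq]
      field_simp
    rw [h6] at h5
    exact (Nat.cast_le.2 h4).trans h5
  have hE : Real.exp (1 / (4 * ν * K1) * Y) ^ ν = Real.exp ((P 0).ell / 4) := by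
    rw [← Real.exp_nat_mul, hYeq]
    congr 1
    field_simp
  have hB : (((P 0).b : ℝ) ^ ν) ^ ν ≤ Real.exp ((P 0).ell / 4) := by
    rw [← pow_mul, ← Real.exp_log (show (0 : ℝ) < ((P 0).b : ℝ) ^ (ν * ν) by positivity),
      Real.log_pow]
    apply Real.exp_le_exp.mpr
    have h1 : (4 * (ν : ℝ) ^ 2) ≤ c := by exact_mod_cast hcν
    have h2 : 0 ≤ Real.log (P 0).b := Real.log_nonneg (by linarith)
    have h3 := mul_le_mul_of_nonneg_right h1 h2
    have h4 := hell.1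
    push_cast
    nlinarith
  have hKe : Kc ≤ Real.exp ((P 0).ell / 4) := by
    rw [← Real.exp_log (show (0 : ℝ) < Kc by linarith)]
    apply Real.exp_le_exp.mpr
    have h4 := hell.2
    linarith
  have hfin : Real.exp (P 0).ell ≤ Kc * Real.exp ((P 0).ell / 4) * Real.exp ((P 0).ell / 4) := by
    refine hlow.trans ?_
    calc (ν.factorial : ℝ) * ((Nf P Y 0 : ℝ) * ν * (Real.exp (1 / (4 * ν * K1) * Y) *
          (((ν : ℝ) + 1) ^ 2 * (P 0).b) ^ ν)) ^ ν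
        ≤ (ν.factorial : ℝ) * (K1 * ν * (Real.exp (1 / (4 * ν * K1) * Y) *
          (((ν : ℝ) + 1) ^ 2 * (P 0).b) ^ ν)) ^ ν := by
          have h1 : (Nf P Y 0 : ℝ) * ν ≤ K1 * ν := mul_le_mul_of_nonneg_right hN (by linarith)
          gcongr
      _ = Kc * Real.exp (1 / (4 * ν * K1) * Y) ^ ν * (((P 0).b : ℝ) ^ ν) ^ ν := by
          rw [hKc, mul_pow, mul_pow (Real.exp _), mul_pow (((ν : ℝ) + 1) ^ 2), mul_pow]
          rw [mul_pow (((((ν : ℝ) + 1) ^ 2) ^ ν))]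
          ring
      _ ≤ Kc * Real.exp ((P 0).ell / 4) * Real.exp ((P 0).ell / 4) := by
          rw [hE]
          gcongr
  have hlast : Kc * Real.exp ((P 0).ell / 4) * Real.exp ((P 0).ell / 4) <
      Real.exp (P 0).ell := by
    calc Kc * Real.exp ((P 0).ell / 4) * Real.exp ((P 0).ell / 4)
        ≤ Real.exp ((P 0).ell / 4) * Real.exp ((P 0).ell / 4) * Real.exp ((P 0).ell / 4) := by
          gcongr
      _ = Real.exp ((P 0).ell / 4 + (P 0).ell / 4 + (P 0).ell / 4) := by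
          rw [← Real.exp_add, ← Real.exp_add]
      _ < Real.exp (P 0).ell := Real.exp_lt_exp.mpr (by linarith)
  exact absurd hfin (not_le.2 hlast)

end Pool.Agent.H97.FB
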