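import Pool.Agent.H97.FB.Defs2
import Pool.Agent.H52.AC.EVH

/-! # [H97 FB CPS] Composition of power series: coefficients, evaluation, conjugation

`sbH hz : A⟦X⟧ →+* A⟦X⟧` is the substitution `X ↦ z`, `z(0) = 0`. -/

namespace Pool.Agent.H97.FB

open Finset Polynomial Pool.Agent.H87.SA2 Pool.Agent.H8.AW Pool.Agent.H52.AC

section general

variable {A : Type} [CommRing A]

/-- the substitution `X ↦ z` -/
noncomputable def sbH {z : PowerSeries A} (hz : PowerSeries.constantCoeff z = 0) :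
    PowerSeries A →+* PowerSeries A :=
  (PowerSeries.substAlgHom (R := A) (PowerSeries.HasSubst.of_constantCoeff_zero' hz) :
    PowerSeries A →ₐ[A] PowerSeries A).toRingHom

theorem sbH_apply {z : PowerSeries A} (hz : PowerSeries.constantCoeff z = 0) (a : PowerSeries A) :
    sbH hz a = PowerSeries.subst z a := by
  unfold sbH
  exact congrFun (PowerSeries.coe_substAlgHom
    (PowerSeries.HasSubst.of_constantCoeff_zero' hz)) a

theorem sbH_X {z : PowerSeries A} (hz : PowerSeries.constantCoeff z = 0) :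
    sbH hz PowerSeries.X = z :=
  PowerSeries.substAlgHom_X (PowerSeries.HasSubst.of_constantCoeff_zero' hz)

theorem sbH_C {z : PowerSeries A} (hz : PowerSeries.constantCoeff z = 0) (c : A) :
    sbH hz (PowerSeries.C c) = PowerSeries.C c := by
  rw [sbH_apply]
  exact PowerSeries.subst_C c

/-- the coefficients of low index of a power vanish -/
theorem cps_pow_coeff {z : PowerSeries A} (hz : PowerSeries.constantCoeff z = 0) {k n : ℕ}
    (h : k < n) : PowerSeries.coeff k (z ^ n) = 0 := by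
  have h1 : PowerSeries.X ^ n ∣ z ^ n := pow_dvd_pow_of_dvd (PowerSeries.X_dvd_iff.2 hz) n
  exact PowerSeries.X_pow_dvd_iff.1 h1 k h

theorem sbH_coeff {z : PowerSeries A} (hz : PowerSeries.constantCoeff z = 0) (a : PowerSeries A)
    (k : ℕ) : PowerSeries.coeff k (sbH hz a) =
      ∑ n ∈ range (k + 1), PowerSeries.coeff n a * PowerSeries.coeff k (z ^ n) := by
  rw [sbH_apply, PowerSeries.coeff_subst' (PowerSeries.HasSubst.of_constantCoeff_zero' hz)]
  rw [finsum_eq_sum_of_support_subset (s := range (k + 1))]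
  · rfl
  · intro n hn
    rw [Function.mem_support] at hn
    rw [coe_range, Set.mem_Iio]
    by_contra hcon
    apply hn
    rw [cps_pow_coeff hz (by omega), smul_zero]

theorem sbH_map {B : Type} [CommRing B] (φ : A →+* B) {z : PowerSeries A}
    (hz : PowerSeries.constantCoeff z = 0)
    (hz' : PowerSeries.constantCoeff (PowerSeries.map φ z) = 0) (a : PowerSeries A) :
    PowerSeries.map φ (sbH hz a) = sbH hz' (PowerSeries.map φ a) := by
  ext k
  rw [PowerSeries.coeff_map, sbH_coeff, sbH_coeff, map_sum]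
  refine sum_congr rfl fun n _ => ?_
  rw [map_mul, PowerSeries.coeff_map, ← map_pow, PowerSeries.coeff_map]

/-- a nonzero series of positive order can be substituted injectively -/
theorem sbH_inj [IsDomain A] {z : PowerSeries A} (hz : PowerSeries.constantCoeff z = 0)
    (h0 : z ≠ 0) : Function.Injective (sbH hz) := by
  rw [injective_iff_map_eq_zero]
  intro a ha
  by_contra hne
  obtain ⟨m, hm⟩ : ∃ m, m = a.order.toNat := ⟨_, rfl⟩
  obtain ⟨b, hb⟩ := PowerSeries.X_pow_order_dvd (φ := a)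
  rw [← hm] at hb
  have hb0 : PowerSeries.constantCoeff b ≠ 0 := by
    intro h
    have h1 : PowerSeries.coeff a.order.toNat a = 0 := by
      rw [← hm, hb, PowerSeries.coeff_X_pow_mul', if_pos le_rfl, Nat.sub_self,
        PowerSeries.coeff_zero_eq_constantCoeff_apply]
      exact h
    exact PowerSeries.coeff_order hne h1
  have h1 := ha
  rw [hb, map_mul, map_pow, sbH_X] at h1
  rcases mul_eq_zero.1 h1 with h2 | h2
  · exact h0 (eq_zero_of_pow_eq_zero h2)
  · have h3 := congrArg (PowerSeries.coeff 0) h2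
    rw [sbH_coeff, zero_add, sum_range_one, pow_zero, PowerSeries.coeff_zero_one, mul_one,
      map_zero, PowerSeries.coeff_zero_eq_constantCoeff_apply] at h3
    exact hb0 h3

end general

/-- the norm at radius `r` -/
noncomputable def nrm (r : ℝ) (w : PowerSeries ℂ) : ℝ := ∑' k, ‖PowerSeries.coeff k w‖ * r ^ k

theorem nrm_nonneg {r : ℝ} (hr : 0 ≤ r) (w : PowerSeries ℂ) : 0 ≤ nrm r w :=
  tsum_nonneg fun k => mul_nonneg (norm_nonneg _) (pow_nonneg hr k)

theorem coeff_le_nrm {r : ℝ} (hr : 0 ≤ r) {w : PowerSeries ℂ} (h : Gr r w) (k : ℕ) :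
    ‖PowerSeries.coeff k w‖ * r ^ k ≤ nrm r w :=
  h.le_tsum k fun j _ => mul_nonneg (norm_nonneg _) (pow_nonneg hr j)

theorem nrm_mul {r : ℝ} (hr : 0 ≤ r) {v w : PowerSeries ℂ} (hv : Gr r v) (hw : Gr r w) :
    nrm r (v * w) ≤ nrm r v * nrm r w := by
  have hv' : Summable fun m => ‖‖PowerSeries.coeff m v‖ * r ^ m‖ := by
    refine (summable_congr fun m => ?_).2 hv
    rw [Real.norm_eq_abs, abs_of_nonneg (mul_nonneg (norm_nonneg _) (pow_nonneg hr _))]
  have hw' : Summable fun m => ‖‖PowerSeries.coeff m w‖ * r ^ m‖ := by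
    refine (summable_congr fun m => ?_).2 hw
    rw [Real.norm_eq_abs, abs_of_nonneg (mul_nonneg (norm_nonneg _) (pow_nonneg hr _))]
  unfold nrm
  rw [tsum_mul_tsum_eq_tsum_sum_antidiagonal_of_summable_norm hv' hw']
  have h2 := summable_norm_sum_mul_antidiagonal_of_summable_norm hv' hw'
  have h3 : Summable fun n => ∑ kl ∈ antidiagonal n,
      (‖PowerSeries.coeff kl.1 v‖ * r ^ kl.1) * (‖PowerSeries.coeff kl.2 w‖ * r ^ kl.2) :=
    Summable.of_norm h2
  refine Summable.tsum_le_tsum (fun k => ?_) (gr_mul hr hv hw) h3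
  rw [PowerSeries.coeff_mul]
  refine (mul_le_mul_of_nonneg_right (norm_sum_le _ _) (pow_nonneg hr k)).trans ?_
  rw [Finset.sum_mul]
  refine Finset.sum_le_sum fun x hx => ?_
  rw [Finset.HasAntidiagonal.mem_antidiagonal] at hx
  rw [norm_mul, ← hx, pow_add]
  apply le_of_eq
  ring

theorem nrm_one (r : ℝ) : nrm r 1 = 1 := by
  unfold nrm
  rw [tsum_eq_single 0]
  · simp
  · intro k hk
    rw [PowerSeries.coeff_one, if_neg hk, norm_zero, zero_mul]

theorem gr_pow {r : ℝ} (hr : 0 ≤ r) {w : PowerSeries ℂ} (hw : Gr r w) (n : ℕ) : Gr r (w ^ n) :=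
  pow_mem (S := cvz r hr) (x := w) hw n

theorem nrm_pow {r : ℝ} (hr : 0 ≤ r) {w : PowerSeries ℂ} (hw : Gr r w) (n : ℕ) :
    nrm r (w ^ n) ≤ nrm r w ^ n := by
  induction n with
  | zero => rw [pow_zero, pow_zero, nrm_one]
  | succ n ih =>
    rw [pow_succ, pow_succ]
    exact (nrm_mul hr (gr_pow hr hw n) hw).trans
      (mul_le_mul_of_nonneg_right ih (nrm_nonneg hr w))

/-- the double family behind the composition -/
theorem cps_summable {ρ r : ℝ} (hr : 0 ≤ r) {z a : PowerSeries ℂ} (ha : Gr ρ a) (hzr : Gr r z)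
    (hle : nrm r z ≤ ρ) : Summable fun p : ℕ × ℕ =>
      ‖PowerSeries.coeff p.1 a‖ * (‖PowerSeries.coeff p.2 (z ^ p.1)‖ * r ^ p.2) := by
  have hz0 := nrm_nonneg hr z
  rw [summable_prod_of_nonneg (fun p => mul_nonneg (norm_nonneg _)
    (mul_nonneg (norm_nonneg _) (pow_nonneg hr _)))]
  refine ⟨fun n => (gr_pow hr hzr n).mul_left (‖PowerSeries.coeff n a‖), ?_⟩
  refine Summable.of_nonneg_of_le (fun n => tsum_nonneg fun k => mul_nonneg (norm_nonneg _)
    (mul_nonneg (norm_nonneg _) (pow_nonneg hr _))) (fun n => ?_) ha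
  change ∑' k, ‖PowerSeries.coeff n a‖ * (‖PowerSeries.coeff k (z ^ n)‖ * r ^ k) ≤ _
  rw [tsum_mul_left]
  refine mul_le_mul_of_nonneg_left ?_ (norm_nonneg _)
  exact (nrm_pow hr hzr n).trans (pow_le_pow_left₀ hz0 hle n)

theorem sbH_coeff_tsum {z : PowerSeries ℂ} (hz : PowerSeries.constantCoeff z = 0)
    (a : PowerSeries ℂ) (k : ℕ) : HasSum (fun n => PowerSeries.coeff n a *
      PowerSeries.coeff k (z ^ n)) (PowerSeries.coeff k (sbH hz a)) := by
  rw [sbH_coeff]
  refine hasSum_sum_of_ne_finset_zero fun n hn => ?_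
  rw [mem_range, not_lt] at hn
  rw [cps_pow_coeff hz (by omega), mul_zero]

/-- absolute convergence of a composition -/
theorem cps_gr {ρ r : ℝ} (hr : 0 ≤ r) {z a : PowerSeries ℂ}
    (hz : PowerSeries.constantCoeff z = 0) (ha : Gr ρ a) (hzr : Gr r z) (hle : nrm r z ≤ ρ) :
    Gr r (sbH hz a) ∧ nrm r (sbH hz a) ≤ ∑' n, ‖PowerSeries.coeff n a‖ * nrm r z ^ n := by
  have hs := cps_summable hr ha hzr hle
  have hs' := hs.prod_symm
  have hz0 := nrm_nonneg hr z
  have h1 : ∀ k, ‖PowerSeries.coeff k (sbH hz a)‖ * r ^ k ≤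
      ∑' n, ‖PowerSeries.coeff n a‖ * (‖PowerSeries.coeff k (z ^ n)‖ * r ^ k) := by
    intro k
    have h2 : Summable fun n => ‖PowerSeries.coeff n a‖ *
        (‖PowerSeries.coeff k (z ^ n)‖ * r ^ k) := by
      have := hs'.prod_factor k
      exact this
    rw [sbH_coeff]
    refine le_trans ?_ (h2.sum_le_tsum (range (k + 1)) fun n _ => mul_nonneg (norm_nonneg _)
      (mul_nonneg (norm_nonneg _) (pow_nonneg hr _)))
    refine (mul_le_mul_of_nonneg_right (norm_sum_le _ _) (pow_nonneg hr k)).trans ?_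
    rw [Finset.sum_mul]
    refine le_of_eq (sum_congr rfl fun n _ => ?_)
    rw [norm_mul, mul_assoc]
  have h3 : Summable fun k => ∑' n, ‖PowerSeries.coeff n a‖ *
      (‖PowerSeries.coeff k (z ^ n)‖ * r ^ k) := hs'.prod
  have hG : Gr r (sbH hz a) := Summable.of_nonneg_of_le
    (fun k => mul_nonneg (norm_nonneg _) (pow_nonneg hr k)) h1 h3
  refine ⟨hG, ?_⟩
  unfold nrm
  refine (Summable.tsum_le_tsum h1 hG h3).trans ?_
  have h4 : ∑' k, ∑' n, ‖PowerSeries.coeff n a‖ * (‖PowerSeries.coeff k (z ^ n)‖ * r ^ k) =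
      ∑' n, ∑' k, ‖PowerSeries.coeff n a‖ * (‖PowerSeries.coeff k (z ^ n)‖ * r ^ k) :=
    (Summable.tsum_comm (f := fun n k => ‖PowerSeries.coeff n a‖ *
      (‖PowerSeries.coeff k (z ^ n)‖ * r ^ k)) hs)
  rw [h4]
  have h5 : Summable fun n => ‖PowerSeries.coeff n a‖ * nrm r z ^ n :=
    Summable.of_nonneg_of_le (fun n => mul_nonneg (norm_nonneg _) (pow_nonneg hz0 n))
      (fun n => mul_le_mul_of_nonneg_left (pow_le_pow_left₀ hz0 hle n) (norm_nonneg _)) ha
  refine Summable.tsum_le_tsum (fun n => ?_) hs.prod h5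
  rw [tsum_mul_left]
  exact mul_le_mul_of_nonneg_left (nrm_pow hr hzr n) (norm_nonneg _)

/-- the value of a composition -/
theorem cps_ev {ρ r : ℝ} (hr : 0 ≤ r) {z a : PowerSeries ℂ}
    (hz : PowerSeries.constantCoeff z = 0) (ha : Gr ρ a) (hzr : Gr r z) (hle : nrm r z ≤ ρ)
    {T : ℂ} (hT : ‖T‖ ≤ r) : evz T (sbH hz a) = evz (evz T z) a := by
  have hs := cps_summable hr ha hzr hle
  -- the complex double family
  have hc : Summable fun p : ℕ × ℕ =>
      PowerSeries.coeff p.1 a * (PowerSeries.coeff p.2 (z ^ p.1) * T ^ p.2) := by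
    refine Summable.of_norm_bounded hs fun p => ?_
    rw [norm_mul, norm_mul, norm_pow]
    exact mul_le_mul_of_nonneg_left (mul_le_mul_of_nonneg_left
      (pow_le_pow_left₀ (norm_nonneg _) hT _) (norm_nonneg _)) (norm_nonneg _)
  have h1 : evz T (sbH hz a) = ∑' k, ∑' n,
      PowerSeries.coeff n a * (PowerSeries.coeff k (z ^ n) * T ^ k) := by
    unfold evz
    congr 1
    funext k
    have h2 := (sbH_coeff_tsum hz a k).mul_right (T ^ k)
    rw [← h2.tsum_eq]
    congr 1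
    funext n
    rw [mul_assoc]
  have h2 : ∑' k, ∑' n, PowerSeries.coeff n a * (PowerSeries.coeff k (z ^ n) * T ^ k) =
      ∑' n, ∑' k, PowerSeries.coeff n a * (PowerSeries.coeff k (z ^ n) * T ^ k) :=
    Summable.tsum_comm (f := fun n k => PowerSeries.coeff n a *
      (PowerSeries.coeff k (z ^ n) * T ^ k)) hc
  rw [h1, h2]
  have h3 : ∀ n, ∑' k, PowerSeries.coeff n a * (PowerSeries.coeff k (z ^ n) * T ^ k) =
      PowerSeries.coeff n a * (evz T z) ^ n := by
    intro n
    rw [tsum_mul_left]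
    congr 1
    have h4 := map_pow (evH r hr T hT) ⟨z, hzr⟩ n
    rw [evH_apply, evH_apply] at h4
    exact h4
  rw [tsum_congr h3]
  rfl

/-! ### Conjugation -/

/-- `σ` sends the coefficients of `w` to those of `w'` (which are algebraic) -/
def SG (σ : AA →+* ℂ) (w w' : PowerSeries ℂ) : Prop :=
  ∃ v : PowerSeries AA, PowerSeries.map (algebraMap AA ℂ) v = w ∧ PowerSeries.map σ v = w'

theorem SG.cj {σ : AA →+* ℂ} {w w' : PowerSeries ℂ} (h : SG σ w w') (k : ℕ) :
    Cj σ (PowerSeries.coeff k w) (PowerSeries.coeff k w') := by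
  obtain ⟨v, h1, h2⟩ := h
  intro a ha
  have h3 : a = PowerSeries.coeff k v := by
    apply (algebraMap AA ℂ).injective
    rw [← PowerSeries.coeff_map, h1, ← ha]
    rfl
  rw [h3, ← PowerSeries.coeff_map, h2]

theorem sg_of_cj {σ : AA →+* ℂ} {w w' : PowerSeries ℂ}
    (ha : ∀ k, PowerSeries.coeff k w ∈ AA)
    (h : ∀ k, Cj σ (PowerSeries.coeff k w) (PowerSeries.coeff k w')) : SG σ w w' := by
  refine ⟨PowerSeries.mk fun k => ⟨_, ha k⟩, ?_, ?_⟩
  · ext k
    rw [PowerSeries.coeff_map, PowerSeries.coeff_mk]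
    rfl
  · ext k
    rw [PowerSeries.coeff_map, PowerSeries.coeff_mk]
    exact h k _ rfl

theorem SG.alg {σ : AA →+* ℂ} {w w' : PowerSeries ℂ} (h : SG σ w w') (k : ℕ) :
    PowerSeries.coeff k w ∈ AA := by
  obtain ⟨v, h1, -⟩ := h
  rw [← h1, PowerSeries.coeff_map]
  exact (PowerSeries.coeff k v).2

theorem SG.unique {σ : AA →+* ℂ} {w w' w'' : PowerSeries ℂ} (h : SG σ w w') (h' : SG σ w w'') :
    w' = w'' := by
  obtain ⟨v, h1, h2⟩ := h
  obtain ⟨v', h3, h4⟩ := h'
  have h5 : v = v' :=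
    PowerSeries.map_injective _ (algebraMap AA ℂ).injective (h1.trans h3.symm)
  rw [← h2, ← h4, h5]

theorem SG.add {σ : AA →+* ℂ} {w w' u u' : PowerSeries ℂ} (h : SG σ w w') (h' : SG σ u u') :
    SG σ (w + u) (w' + u') := by
  obtain ⟨v, h1, h2⟩ := h
  obtain ⟨v', h3, h4⟩ := h'
  exact ⟨v + v', by rw [map_add, h1, h3], by rw [map_add, h2, h4]⟩

theorem SG.mul {σ : AA →+* ℂ} {w w' u u' : PowerSeries ℂ} (h : SG σ w w') (h' : SG σ u u') :
    SG σ (w * u) (w' * u') := by
  obtain ⟨v, h1, h2⟩ := h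
  obtain ⟨v', h3, h4⟩ := h'
  exact ⟨v * v', by rw [map_mul, h1, h3], by rw [map_mul, h2, h4]⟩

theorem SG.neg {σ : AA →+* ℂ} {w w' : PowerSeries ℂ} (h : SG σ w w') : SG σ (-w) (-w') := by
  obtain ⟨v, h1, h2⟩ := h
  exact ⟨-v, by rw [map_neg, h1], by rw [map_neg, h2]⟩

theorem SG.sub {σ : AA →+* ℂ} {w w' u u' : PowerSeries ℂ} (h : SG σ w w') (h' : SG σ u u') :
    SG σ (w - u) (w' - u') := by
  rw [sub_eq_add_neg, sub_eq_add_neg]
  exact h.add h'.neg

theorem SG.pow {σ : AA →+* ℂ} {w w' : PowerSeries ℂ} (h : SG σ w w') (n : ℕ) :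
    SG σ (w ^ n) (w' ^ n) := by
  obtain ⟨v, h1, h2⟩ := h
  exact ⟨v ^ n, by rw [map_pow, h1], by rw [map_pow, h2]⟩

theorem SG.int (σ : AA →+* ℂ) (n : ℤ) : SG σ (n : PowerSeries ℂ) (n : PowerSeries ℂ) :=
  ⟨(n : PowerSeries AA), map_intCast _ _, map_intCast _ _⟩

theorem SG.X (σ : AA →+* ℂ) : SG σ PowerSeries.X PowerSeries.X :=
  ⟨PowerSeries.X, PowerSeries.map_X _, PowerSeries.map_X _⟩

theorem SG.sum {σ : AA →+* ℂ} {ι : Type} (s : Finset ι) {w w' : ι → PowerSeries ℂ}
    (h : ∀ i ∈ s, SG σ (w i) (w' i)) : SG σ (∑ i ∈ s, w i) (∑ i ∈ s, w' i) := by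
  classical
  induction s using Finset.induction_on with
  | empty => exact ⟨0, map_zero _, map_zero _⟩
  | insert a s ha ih =>
    rw [sum_insert ha, sum_insert ha]
    exact (h a (mem_insert_self _ _)).add (ih fun i hi => h i (mem_insert_of_mem hi))

/-- quotients -/
theorem SG.div {σ : AA →+* ℂ} {D D' E E' ξ ξ' : PowerSeries ℂ} (hD : SG σ D D') (hE : SG σ E E')
    (h0 : D ≠ 0) (h : D * ξ = E) (h' : D' * ξ' = E') : SG σ ξ ξ' := by
  obtain ⟨vD, h1, h2⟩ := hD
  obtain ⟨vE, h3, h4⟩ := hE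
  have hinj : Function.Injective (PowerSeries.map (algebraMap AA ℂ)) :=
    PowerSeries.map_injective _ (algebraMap AA ℂ).injective
  have hvD : vD ≠ 0 := by
    rintro rfl
    exact h0 (by rw [← h1, map_zero])
  have hinjσ : Function.Injective (PowerSeries.map σ) :=
    PowerSeries.map_injective _ σ.injective
  have hdvd : vD ∣ vE := by
    obtain ⟨m, hm⟩ : ∃ m, m = vD.order.toNat := ⟨_, rfl⟩
    obtain ⟨u, hu⟩ := PowerSeries.X_pow_order_dvd (φ := vD)
    rw [← hm] at hu
    have hu0 : PowerSeries.constantCoeff u ≠ 0 := by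
      intro hc
      have h5 : PowerSeries.coeff vD.order.toNat vD = 0 := by
        rw [← hm, hu, PowerSeries.coeff_X_pow_mul', if_pos le_rfl, Nat.sub_self,
          PowerSeries.coeff_zero_eq_constantCoeff_apply]
        exact hc
      exact PowerSeries.coeff_order hvD h5
    have hunit : IsUnit u := PowerSeries.isUnit_iff_constantCoeff.2 (isUnit_iff_ne_zero.2 hu0)
    have h6 : (PowerSeries.X : PowerSeries AA) ^ m ∣ vE := by
      rw [PowerSeries.X_pow_dvd_iff]
      intro j hj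
      apply (algebraMap AA ℂ).injective
      have h7 : E = PowerSeries.X ^ m * (PowerSeries.map (algebraMap AA ℂ) u * ξ) := by
        rw [← h, ← h1, hu, map_mul, map_pow, PowerSeries.map_X, mul_assoc]
      rw [← PowerSeries.coeff_map, h3, h7, PowerSeries.coeff_X_pow_mul', if_neg (by omega),
        map_zero]
    rw [hu]
    obtain ⟨y, hy⟩ := h6
    obtain ⟨u', hu'⟩ := hunit
    refine ⟨((u'⁻¹ : (PowerSeries AA)ˣ) : PowerSeries AA) * y, ?_⟩
    rw [hy, ← hu']
    calc PowerSeries.X ^ m * y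
        = PowerSeries.X ^ m * ((u' : PowerSeries AA) *
            ((u'⁻¹ : (PowerSeries AA)ˣ) : PowerSeries AA)) * y := by
          rw [Units.mul_inv, mul_one]
      _ = _ := by ring
  obtain ⟨v, hv⟩ := hdvd
  have hD0 : D' ≠ 0 := by
    rw [← h2]
    intro hc
    exact hvD (hinjσ (by rw [hc, map_zero]))
  refine ⟨v, ?_, ?_⟩
  · apply mul_left_cancel₀ h0
    rw [h, ← h3, ← h1, ← map_mul, ← hv]
  · apply mul_left_cancel₀ hD0
    rw [h', ← h4, ← h2, ← map_mul, ← hv]

theorem SG.sb {σ : AA →+* ℂ} {z z' a a' : PowerSeries ℂ} (hz : PowerSeries.constantCoeff z = 0)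
    (hz' : PowerSeries.constantCoeff z' = 0) (h : SG σ z z') (ha : SG σ a a') :
    SG σ (sbH hz a) (sbH hz' a') := by
  obtain ⟨v, h1, h2⟩ := h
  obtain ⟨b, h3, h4⟩ := ha
  have hv : PowerSeries.constantCoeff v = 0 := by
    apply (algebraMap AA ℂ).injective
    rw [map_zero, ← hz, ← h1, ← PowerSeries.coeff_zero_eq_constantCoeff_apply,
      ← PowerSeries.coeff_zero_eq_constantCoeff_apply, PowerSeries.coeff_map]
  subst h1 h2 h3 h4
  exact ⟨sbH hv b, sbH_map _ hv hz b, sbH_map _ hv hz' b⟩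

end Pool.Agent.H97.FB
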