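import Pool.Agent.H97.FB.Defs
import Pool.Agent.H97.NW.CEL
import Pool.Agent.H87.AX.GX

/-! # [H97 FB EQX] Small cell sums vanish, with the conjugates of the anchor

Combine `cell_zero_m` (`Pool/Agent/H97/NW/CEL.lean`, 50 lines) with the lemmas of `Pool/Agent/H87/AX/GX.lean` (all public: `PI_GX`, `X0_int_GX`, `fac_GX`, `G_GX`, `PG_GX`, `zcR_GX`, ..., see the proofs of `SX_int` and `SX_gal`, and `PairX.conj` in `Pool/Agent/H87/AX/SG.lean`).
Write `Ux z s j = M^⌈k/e⌉ (1/X0)^k zcR X0 e (zs z.1) k s j` and `W z f = ∑_ρ ∑_μ f μ ∏ coeff (e K + ρ) uu`. By `Finset.sum_comm`, `mul_sum`: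
`M^.. (1/X0)^k ∑_ρ BmC P D N (Ak an J A k z.1) z.2 (e K + ρ) = ∑_s ∑_j Ux z s j * Vm P D N (A s j) z.2 K` (`Vm` of `NW/Defs`).
(1) INTEGRALITY: `fac_GX` turns `M^.. (1/X0)^k` into a power of `X0` (integral), `zcR` is a product of an integral power of `X0` and a coefficient of `X^s (zs i)^j` (`PI_*_GX`), and `Vm_int`.
(2) GALOIS: for `σ` take `π1` of `tu.gal σ`, the permutations `π_v` of `perm_gal (P v).C.pd σ` (as in `cell_zero_m`), `z' = (π1 z.1, fun v => π_v (z.2 v)) ∈ tu.PP`. For `a : AA` with `(a : ℂ) = V z` show `σ a = V z'`: `G_GX σ (V z) (V z')` by `G_sum_GX`, `G_mul_GX`; for the first factor see the line `hz` in the proof of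
`SX_gal`; for `Vm` use `Vm_gal` with `mem` (the value is algebraic, `Vm_int`). If `(b : ℂ) = V z = (a : ℂ)` then `a = b`.
(3) `liou_zero` (`Pool/Agent/H52/AC/LIO.lean`) for the family on the subtype `tu.PP`, so all `V z = 0`, so `∑_ρ BmC .. = 0` (the factor `M^.. (1/X0)^k` is not zero).
(4) ROTATIONS: as in `cell_zero_m` with `perm_rot`, `tu.rot` (the first component does not change) and the analogue of `Vm_rot` for `BmC` (same proof: copy `Vm_rot` with `f μ` in place of `(A μ : ℂ)`), `fourier_m`.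
CONJUGATION (`cj_x`): `σ = (starRingEnd ℂ).comp (algebraMap AA ℂ)`; `π1` from `tu.gal σ`, `c_v` from `exists_cj (P v)`: `cz z = (π1 z.1, fun v => c_v (z.2 v))`. `coeff k (zs (π1 i)) = conj (coeff k (zs i))` as `g1` in `PairX.conj`, so `zs (π1 (π1 i)) = zs i`, `zs_inj`. `zcR` of the conjugate series is the conjugate (`zcR_map` of
`Pool/Agent/H87/SA2/DnB.lean` with `ψ = starRingEnd ℂ`, `X0` real), `coeff_uu_conj` for the factors `uu`. -/

namespace Pool.Agent.H97.FB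

open Finset Polynomial Pool.Agent.H72.ES Pool.Agent.H87.SA Pool.Agent.H87.SA2 Pool.Agent.H87.AX
  Pool.Agent.H8.AW Pool.Agent.H52.AC Pool.Agent.H97.NW Pool.Agent.H8.RZ

variable {m n : ℕ} {Dn Dl κ e M : ℕ} {X0 R : ℝ}

private theorem mem_AA {z : ℂ} (hz : IsIntegral ℤ z) : z ∈ AA :=
  mem_algebraicClosure_iff.mpr hz.tower_top.isAlgebraic

/-- the normalising factor -/
private noncomputable def fc (M e k : ℕ) (X0 : ℝ) : ℂ :=
  (M : ℂ) ^ ((k + e - 1) / e) * (((1 / X0 : ℝ)) : ℂ) ^ k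

private theorem V_eq (an : AnchX Dn Dl κ e M X0 R) (P : Fin m → Ptd n) (D N : Fin m → ℕ) (J : ℕ)
    (A : ℕ → ℕ → Mo P N → ℤ) (k : ℕ) (K : Fin m → ℕ) (c : ℂ) (i : an.I)
    (p : ∀ v, Fin (P v).d) :
    c * ∑ ρ : (∀ v, Fin (P v).C.pd.e),
        BmC P D N (Ak an J A k i) p (fun v => (P v).C.pd.e * K v + (ρ v : ℕ)) =
      ∑ s ∈ range (J + 1), ∑ j ∈ range Dn,
        (c * zcR (X0 : ℂ) e (an.zs i) k s j) * Vm P D N (A s j) p K := by
  have h1 : ∀ q : Fin m → ℕ, BmC P D N (Ak an J A k i) p q =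
      ∑ s ∈ range (J + 1), ∑ j ∈ range Dn, zcR (X0 : ℂ) e (an.zs i) k s j *
        Bm P D N (A s j) p q := by
    intro q
    unfold BmC Ak Bm
    simp only [Finset.sum_mul, Finset.mul_sum]
    rw [Finset.sum_comm]
    refine sum_congr rfl fun s _ => ?_
    rw [Finset.sum_comm]
    refine sum_congr rfl fun j _ => sum_congr rfl fun μ _ => ?_
    ring
  simp only [h1]
  rw [Finset.sum_comm, Finset.mul_sum]
  refine sum_congr rfl fun s _ => ?_
  rw [Finset.sum_comm, Finset.mul_sum]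
  refine sum_congr rfl fun j _ => ?_
  unfold Vm
  rw [← Finset.mul_sum]
  ring

private theorem V_int (an : AnchX Dn Dl κ e M X0 R) (he : 1 ≤ e) (hX : 1 ≤ X0)
    (hM : X0 ^ e = (M : ℝ)) (P : Fin m → Ptd n) (D N : Fin m → ℕ) (J : ℕ)
    (A : ℕ → ℕ → Mo P N → ℤ) (k : ℕ) (K : Fin m → ℕ) (i : an.I)
    (p : ∀ v, Fin (P v).d) : IsIntegral ℤ (∑ s ∈ range (J + 1), ∑ j ∈ range Dn,
        (fc M e k X0 * zcR (X0 : ℂ) e (an.zs i) k s j) * Vm P D N (A s j) p K) := by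
  have hX0 := X0_int_GX he hM
  refine IsIntegral.sum _ fun s _ => IsIntegral.sum _ fun j _ => ?_
  refine IsIntegral.mul (IsIntegral.mul ?_ ?_) (Vm_int P D N (A s j) p K)
  · unfold fc
    rw [fac_GX he hX hM]
    exact hX0.pow _
  · rw [zcR]
    exact (hX0.pow _).mul (PI_mul_GX (PI_pow_GX PI_X_GX _) (PI_pow_GX (an.zs_int _) _) k)

private theorem V_gal (an : AnchX Dn Dl κ e M X0 R) (he : 1 ≤ e) (hX : 1 ≤ X0)
    (hM : X0 ^ e = (M : ℝ)) (P : Fin m → Ptd n) (D N : Fin m → ℕ) (J : ℕ)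
    (A : ℕ → ℕ → Mo P N → ℤ) (k : ℕ) (K : Fin m → ℕ) (σ : AA →+* ℂ) (i i' : an.I)
    (p p' : ∀ v, Fin (P v).d)
    (h1 : ∀ (k : ℕ) (a : AA),
      (a : ℂ) = (((1 / X0 : ℝ)) : ℂ) ^ k * PowerSeries.coeff k (an.zs i) →
      σ a = (((1 / X0 : ℝ)) : ℂ) ^ k * PowerSeries.coeff k (an.zs i'))
    (h2 : ∀ (v : Fin m) (k : ℕ) (a : AA), (a : ℂ) = PowerSeries.coeff k ((P v).C.pd.x (p v)) →
      σ a = PowerSeries.coeff k ((P v).C.pd.x (p' v))) :
    G_GX σ (∑ s ∈ range (J + 1), ∑ j ∈ range Dn,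
        (fc M e k X0 * zcR (X0 : ℂ) e (an.zs i) k s j) * Vm P D N (A s j) p K)
      (∑ s ∈ range (J + 1), ∑ j ∈ range Dn,
        (fc M e k X0 * zcR (X0 : ℂ) e (an.zs i') k s j) * Vm P D N (A s j) p' K) := by
  have hX0 : (((1 / X0 : ℝ)) : ℂ) ∈ AA := by
    rw [Complex.ofReal_div, Complex.ofReal_one, one_div]
    exact inv_mem (mem_AA (X0_int_GX he hM))
  have hu : PG_GX σ (PowerSeries.rescale (((1 / X0 : ℝ)) : ℂ) (an.zs i))
      (PowerSeries.rescale (((1 / X0 : ℝ)) : ℂ) (an.zs i')) := by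
    intro l
    rw [PowerSeries.coeff_rescale, PowerSeries.coeff_rescale]
    refine ⟨⟨_, mul_mem (pow_mem hX0 l) (mem_AA (an.zs_int i l))⟩, rfl, ?_⟩
    exact h1 l _ rfl
  refine G_sum_GX _ _ _ fun s _ => G_sum_GX _ _ _ fun j _ => G_mul_GX ?_ ?_
  · unfold fc
    rw [zcR_GX he hX hM, zcR_GX he hX hM]
    split_ifs
    · exact G_mul_GX (G_pow_GX (G_nat_GX σ M) _) (PG_pow_GX hu j _)
    · exact G_zero_GX σ
  · exact ⟨⟨_, mem_AA (Vm_int P D N (A s j) p K)⟩, rfl,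
      Vm_gal P D N (A s j) σ p p' h2 K _ rfl⟩

private theorem BmC_rot (P : Fin m → Ptd n) (D N : Fin m → ℕ) (f : Mo P N → ℂ) {ζ : Fin m → ℂ}
    (hζ : ∀ v, ζ v ^ (P v).C.pd.e = 1) (p p' : ∀ v, Fin (P v).d)
    (h : ∀ v, PowerSeries.rescale (ζ v) ((P v).C.pd.x (p v)) = (P v).C.pd.x (p' v))
    (K : Fin m → ℕ) (r : ∀ v, Fin (P v).C.pd.e) :
    BmC P D N f p' (fun v => (P v).C.pd.e * K v + (r v : ℕ)) = (∏ v, ζ v ^ (r v : ℕ)) *
        BmC P D N f p fun v => (P v).C.pd.e * K v + (r v : ℕ) := by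
  unfold BmC
  rw [Finset.mul_sum]
  refine Finset.sum_congr rfl fun μ _ => ?_
  have h1 : ∀ v, PowerSeries.coeff ((P v).C.pd.e * K v + (r v : ℕ))
      (uu (P v).C.pd.q (P v).C.pd.e ((P v).C.pd.x (p' v)) (D v) (μ v).1 (μ v).2) =
      ζ v ^ (r v : ℕ) * PowerSeries.coeff ((P v).C.pd.e * K v + (r v : ℕ))
      (uu (P v).C.pd.q (P v).C.pd.e ((P v).C.pd.x (p v)) (D v) (μ v).1 (μ v).2) := by
    intro v
    rw [← h v, uu_rot (hζ v), pow_add, pow_mul, hζ v, one_pow, one_mul]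
  rw [Finset.prod_congr rfl fun v _ => h1 v, Finset.prod_mul_distrib]
  ring

theorem cell_zero_x (an : AnchX Dn Dl κ e M X0 R) (he : 1 ≤ e) (hX : 1 ≤ X0)
    (hM : X0 ^ e = (M : ℝ)) (P : Fin m → Ptd n) (tu : TupX an P) (D N : Fin m → ℕ) (J : ℕ)
    (A : ℕ → ℕ → Mo P N → ℤ) (k : ℕ) (K : Fin m → ℕ)
    (h : ∀ z ∈ tu.PP, ‖(M : ℂ) ^ ((k + e - 1) / e) * (((1 / X0 : ℝ)) : ℂ) ^ k *
      ∑ ρ : (∀ v, Fin (P v).C.pd.e),
        BmC P D N (Ak an J A k z.1) z.2 (fun v => (P v).C.pd.e * K v + (ρ v : ℕ))‖ < 1) :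
    ∀ z ∈ tu.PP, ∀ ρ : (∀ v, Fin (P v).C.pd.e),
      BmC P D N (Ak an J A k z.1) z.2 (fun v => (P v).C.pd.e * K v + (ρ v : ℕ)) = 0 := by
  classical
  have hfc : fc M e k X0 ≠ 0 := by
    have hX0 : (((1 / X0 : ℝ)) : ℂ) ≠ 0 := by
      have : (1 / X0 : ℝ) ≠ 0 := by positivity
      exact_mod_cast this
    have hM0 : (M : ℂ) ≠ 0 := by
      have : (M : ℝ) ≠ 0 := by
        rw [← hM]
        positivity
      exact_mod_cast this
    exact mul_ne_zero (pow_ne_zero _ hM0) (pow_ne_zero _ hX0)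
  have hz : ∀ z : {z // z ∈ tu.PP}, fc M e k X0 * ∑ ρ : (∀ v, Fin (P v).C.pd.e),
      BmC P D N (Ak an J A k z.1.1) z.1.2 (fun v => (P v).C.pd.e * K v + (ρ v : ℕ)) = 0 := by
    refine liou_zero _ ?_ ?_ ?_
    · intro z
      rw [V_eq]
      exact V_int an he hX hM P D N J A k K z.1.1 z.1.2
    · intro σ z
      obtain ⟨π1, h1, h2⟩ := tu.gal σ
      choose π hπ using fun v : Fin m => perm_gal (P v).C.pd σ
      have hmem : (π1 z.1.1, fun v => π v (z.1.2 v)) ∈ tu.PP :=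
        h2 z.1 z.2 (fun v => π v (z.1.2 v)) fun v k a ha => hπ v (z.1.2 v) k a ha
      refine ⟨⟨(π1 z.1.1, fun v => π v (z.1.2 v)), hmem⟩, fun a ha => ?_⟩
      obtain ⟨b, hb1, hb2⟩ := V_gal an he hX hM P D N J A k K σ z.1.1 (π1 z.1.1) z.1.2
        (fun v => π v (z.1.2 v)) (fun k a ha => h1 z.1.1 k a ha)
        (fun v k a ha => hπ v (z.1.2 v) k a ha)
      rw [V_eq] at ha
      have hab : a = b := Subtype.ext (ha.trans hb1.symm)
      rw [hab, hb2, V_eq]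
    · intro z
      exact h z.1 z.2
  intro z hzm
  refine fourier_m m (fun v => (P v).C.pd.e) (fun v => (P v).C.pd.e_pos)
    (fun r => BmC P D N (Ak an J A k z.1) z.2
      (fun v => (P v).C.pd.e * K v + (r v : ℕ))) ?_
  intro ζ hζ
  choose ρ hρ using fun v : Fin m => perm_rot (P v).C.pd (hζ v)
  have hmem : (z.1, fun v => ρ v (z.2 v)) ∈ tu.PP :=
    tu.rot ζ hζ z hzm (fun v => ρ v (z.2 v)) fun v => hρ v (z.2 v)
  have h0 := (mul_eq_zero.1 (hz ⟨(z.1, fun v => ρ v (z.2 v)), hmem⟩)).resolve_left hfc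
  rw [← h0]
  refine Finset.sum_congr rfl fun r _ => ?_
  exact (BmC_rot P D N _ hζ z.2 (fun v => ρ v (z.2 v)) (fun v => hρ v (z.2 v)) K r).symm

theorem cj_x (an : AnchX Dn Dl κ e M X0 R) (he : 1 ≤ e) (hX : 1 ≤ X0)
    (hM : X0 ^ e = (M : ℝ)) (P : Fin m → Ptd n) (tu : TupX an P) :
    ∃ cz : an.I × (∀ v, Fin (P v).d) → an.I × (∀ v, Fin (P v).d), (∀ z ∈ tu.PP, cz z ∈ tu.PP) ∧
      (∀ z, cz (cz z) = z) ∧
      (∀ z k s j, zcR (X0 : ℂ) e (an.zs (cz z).1) k s j =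
        (starRingEnd ℂ) (zcR (X0 : ℂ) e (an.zs z.1) k s j)) ∧
      ∀ z v k D a b, PowerSeries.coeff k
        (uu (P v).C.pd.q (P v).C.pd.e ((P v).C.pd.x ((cz z).2 v)) D a b) =
        (starRingEnd ℂ) (PowerSeries.coeff k
          (uu (P v).C.pd.q (P v).C.pd.e ((P v).C.pd.x (z.2 v)) D a b)) := by
  obtain ⟨σ, hσ⟩ : ∃ σ : AA →+* ℂ, ∀ a : AA, σ a = (starRingEnd ℂ) (a : ℂ) :=
    ⟨(starRingEnd ℂ).comp (algebraMap AA ℂ), fun a => rfl⟩
  obtain ⟨π1, h1, h2⟩ := tu.gal σ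
  choose c hc1 hc2 using fun v : Fin m => exists_cj (P v)
  have hX0 : (((1 / X0 : ℝ)) : ℂ) ∈ AA := by
    rw [Complex.ofReal_div, Complex.ofReal_one, one_div]
    exact inv_mem (mem_AA (X0_int_GX he hM))
  have hne : (((1 / X0 : ℝ)) : ℂ) ≠ 0 := by
    have : (1 / X0 : ℝ) ≠ 0 := by positivity
    exact_mod_cast this
  have g1 : ∀ i k, PowerSeries.coeff k (an.zs (π1 i)) =
      (starRingEnd ℂ) (PowerSeries.coeff k (an.zs i)) := by
    intro i k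
    have h3 := h1 i k ⟨_, mul_mem (pow_mem hX0 k) (mem_AA (an.zs_int i k))⟩ rfl
    rw [hσ] at h3
    simp only [map_mul, map_pow, Complex.conj_ofReal] at h3
    exact (mul_left_cancel₀ (pow_ne_zero _ hne) h3).symm
  have g2 : ∀ i, an.zs (π1 i) = (an.zs i).map (starRingEnd ℂ) := by
    intro i
    ext k
    rw [PowerSeries.coeff_map, g1]
  refine ⟨fun z => (π1 z.1, fun v => c v (z.2 v)), ?_, ?_, ?_, ?_⟩
  · intro z hz
    refine h2 z hz (fun v => c v (z.2 v)) fun v k a ha => ?_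
    rw [hσ, ha, hc2]
  · intro z
    refine Prod.ext ?_ ?_
    · refine an.zs_inj ?_
      ext k
      simp only
      rw [g1, g1, Complex.conj_conj]
    · funext v
      exact hc1 v (z.2 v)
  · intro z k s j
    simp only
    rw [zcR_map, Complex.conj_ofReal, g2]
  · intro z v k D a b
    exact coeff_uu_conj _ _ (fun l => hc2 v (z.2 v) l) D a b k

end Pool.Agent.H97.FB
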