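import Pool.Agent.H97.FB.ZRX
import Pool.Agent.H97.FB.Defs2
import Pool.Agent.H98.FF.FIN

/-! # [H97 FB FARX] Two curves: the points are comparable

Interface of chapter C (helper98); the proof is in `Pool/Agent/H98/FF`. -/

namespace Pool.Agent.H97.FB

open Finset Polynomial Pool.Agent.H72.ES Pool.Agent.H87.SA Pool.Agent.H87.SA2 Pool.Agent.H87.AX
  Pool.Agent.H8.AW Pool.Agent.H52.AC Pool.Agent.H97.NW Pool.Agent.H8.RZ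

theorem far2 (ν Q0 : ℕ) (hν : 4 ≤ ν) (γ : ℝ) (hγ : 0 < γ) : ∃ (R1 : ℝ) (c : ℕ), 1 ≤ R1 ∧
    ∀ {Dn Dl κ e M : ℕ} {X0 R : ℝ} (an : AnchX Dn Dl κ e M X0 R) (_ : AlgA an Q0)
      (P : Fin 2 → Ptd ν) (tu : TupX an P), Bnd Q0 Dn Dl κ e M X0 R → Scl c X0 R P →
      (1 + γ) * (27 * (tu.PP.card : ℝ)) ≤ 6 * ((Dn : ℝ) * (((P 0).d : ℝ) * ((P 1).d : ℝ))) →
      (P 0).ell < R1 * (P 1).ell ∧ (P 1).ell < R1 * (P 0).ell :=
  Pool.Agent.H98.FF.far2_proof ν Q0 hν γ hγ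

end Pool.Agent.H97.FB
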