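import Pool.Agent.H97.FB.SGA
import Pool.Agent.H52.AC.PRM

/-! # [H97 FB SLB] Labels on the orbit of the near branch

`fix_lab`: let `i = P.i`, `rescale ζ (x i) = x j` (`perm_rot`). `L.rot ζ hζ i L.mem j`: `j ∈ S`, `th j = th i`. `L.gal σ i L.mem j` (the hypothesis is `SG.cj`): `∀ u, Cj σ (Θ (th i) u) (Θ (th j) u)`, with `th j = th i = l` (`L.near`): `u = 0` is the claim.
`gal_lab`: for every `σ` there is `l''` with `Cj σ (θ l) (θ l'')`: `sg_perm`, `L.gal` for `j = π P.i`, `l'' = th (π P.i)`.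
`lab_orbit`: write `x0 = x Q.i`, `pd = Q.C.pd`. For `j : Fin Q.d` let `Orb j σ ζ : Prop := ζ^e = 1 ∧ SG σ x0 (rescale ζ (x j))`, `S = {j | ∃ σ ζ, Orb j σ ζ}` (classical filter). For `j ∈ S` choose `σ_j`, and `gal_lab` for `L0`, `L1`: `th j = (l1, l1')` with `Cj σ_j (θ l) (θ l1)`, `Cj σ_j (θ' l') (θ' l1')` (for `j ∉ S` anything, e.g. `(l, l')`).
KEY: if `Orb j σ ζ` and `Orb j τ ζ'` then for `z = θ l` or `θ' l'` (algebraic: `GdG.int`) and `Cj σ z w`, `Cj τ z w'` we have `w = w'`: `SG σ x0 (rescale ζ (x j))`, and `SG (invA τ) (rescale ζ' (x j)) x0` (`SG.inv`). Put `η = ζ ζ'⁻¹`: `rescale ζ (x j) = rescale η (rescale ζ' (x j))`. With `a : AA` the element `η` (`rou_mem`): `sg_rescale`: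
`SG (invA τ) (rescale ζ (x j)) (rescale (invA τ a) x0)`, so `SG ρ x0 (rescale ω x0)`, `ρ = cmpA (invA τ) σ`, `ω = invA τ a`, `ω^e = 1`. `hfix`: `Cj ρ z z`; and `Cj ρ z (invA τ w)` by `Cj.trans` where `w ∈ AA`.. so `invA τ (w) = z`, i.e. `w = τ z = w'` (`Cj σ z w` with `z = (a : ℂ)` means `w = σ a`; `ρ a = (au τ)⁻¹ (au σ a) = a` gives `au σ a = au τ a`).
`mem`: `Orb Q.i id 1` (`σ = algebraMap AA ℂ`; the coefficients of `x0` are algebraic, `coeff_mem`). `near`: by KEY for `j = Q.i` (`σ_j` and `id`): `θ l1 = θ l`, `θ' l1' = θ' l'`, injectivity (`GdG.inj`: `v1 θ l1 = v1 θ l` as functions).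
`gal`: `i ∈ S`, `Cj τ (coeff k (x i)) (coeff k (x j))` for all `k`: `SG τ (x i) (x j)` (`sg_of_cj`, `coeff_mem`). `SG σ_i x0 (rescale ζ_i (x i))`, `sg_rescale`: `SG τ (rescale ζ_i (x i)) (rescale (τ ζ_i) (x j))`, `SG.trans`: `Orb j (cmpA τ σ_i) (τ ζ_i)`, so `j ∈ S`; `Cj σ_i z w_i`, `w_i = θ (th i).1`; `Cj τ w_i w'` for `w' := τ w_i` (`w_i` algebraic); `Cj (cmpA τ σ_i) z w'`; by KEY
with `σ_j`: `w' = θ (th j).1`. So `Cj τ (θ (th i).1) (θ (th j).1)`, the same for `θ'`; `v2` for `u = 0`, `u ≠ 0`.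
`rot`: `rescale ζ (x i) = x j`: `rescale ζ_i (x i) = rescale (ζ_i ζ⁻¹) (x j)`, so `Orb j σ_i (ζ_i ζ⁻¹)`; KEY with `σ_j`: the same values, so the same labels (injectivity). -/

namespace Pool.Agent.H97.FB

open Finset Polynomial Pool.Agent.H87.SA2 Pool.Agent.H8.AW Pool.Agent.H52.AC Pool.Agent.H97.NW

theorem fix_lab {ν n : ℕ} {θ : Fin n → ℂ} {P : Ptd ν} {l : Fin n} (L : LbG P (v1 θ) l)
    {σ : AA →+* ℂ} {ζ : ℂ} (hζ : ζ ^ P.C.pd.e = 1)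
    (h : SG σ (P.C.pd.x P.i) (PowerSeries.rescale ζ (P.C.pd.x P.i))) : Cj σ (θ l) (θ l) := by
  obtain ⟨ρ, hρ⟩ := perm_rot P.C.pd hζ
  obtain ⟨-, h2⟩ := L.rot ζ hζ P.i L.mem (ρ P.i) (hρ P.i)
  obtain ⟨-, h4⟩ := L.gal σ P.i L.mem (ρ P.i) (fun k => by
    rw [← hρ P.i]
    exact h.cj k)
  have h5 := h4 0
  rw [h2, L.near] at h5
  exact h5

theorem gal_lab {ν n : ℕ} {θ : Fin n → ℂ} {P : Ptd ν} {l : Fin n} (L : LbG P (v1 θ) l)
    (σ : AA →+* ℂ) : ∃ l'', Cj σ (θ l) (θ l'') := by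
  obtain ⟨π, hπ⟩ := sg_perm P.C.pd σ
  obtain ⟨-, h4⟩ := L.gal σ P.i L.mem (π P.i) (fun k => (hπ P.i).cj k)
  have h5 := h4 0
  rw [L.near] at h5
  exact ⟨_, h5⟩

private theorem slb_mem {z : ℂ} (h : IsIntegral ℤ z) : z ∈ AA := by
  rw [mem_algebraicClosure_iff]
  exact h.isAlgebraic.extendScalars Int.cast_injective

private theorem slb_key {g : ℤ[X][X]} {d : ℕ} {pd : PData g d} {i j : Fin d} {a0 : AA}
    (hfix : ∀ (σ : AA →+* ℂ) (ω : ℂ), ω ^ pd.e = 1 →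
      SG σ (pd.x i) (PowerSeries.rescale ω (pd.x i)) → σ a0 = (a0 : ℂ))
    {σ τ : AA →+* ℂ} {ζ ζ' : ℂ} (hζ : ζ ^ pd.e = 1) (hζ' : ζ' ^ pd.e = 1)
    (h : SG σ (pd.x i) (PowerSeries.rescale ζ (pd.x j)))
    (h' : SG τ (pd.x i) (PowerSeries.rescale ζ' (pd.x j))) : σ a0 = τ a0 := by
  have hζ0 : ζ' ≠ 0 := by
    rintro rfl
    rw [zero_pow (pe_ne pd)] at hζ'
    exact zero_ne_one hζ'
  have hη : (ζ * ζ'⁻¹) ^ pd.e = 1 := by
    rw [mul_pow, inv_pow, hζ, hζ', inv_one, mul_one]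
  obtain ⟨a, ha⟩ : ∃ a : AA, (a : ℂ) = ζ * ζ'⁻¹ := ⟨⟨_, rou_mem (pe_ne pd) hη⟩, rfl⟩
  have hae : a ^ pd.e = 1 := by
    apply Subtype.ext
    have h1 : ((a ^ pd.e : AA) : ℂ) = (a : ℂ) ^ pd.e := rfl
    rw [h1, ha, hη]
    rfl
  have h1 : SG (invA τ) (PowerSeries.rescale ζ' (pd.x j)) (pd.x i) := h'.inv
  have h2 := sg_rescale h1 a
  have h3 : PowerSeries.rescale (a : ℂ) (PowerSeries.rescale ζ' (pd.x j)) =
      PowerSeries.rescale ζ (pd.x j) := by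
    rw [PowerSeries.rescale_rescale, ha]
    congr 2
    field_simp
  rw [h3] at h2
  have h4 := h.trans h2
  have hω : (invA τ a) ^ pd.e = 1 := by
    rw [← map_pow, hae, map_one]
  have h5 := hfix _ _ hω h4
  have h6 : (((au τ).symm (au σ a0) : AA) : ℂ) = (a0 : ℂ) := h5
  have h7 : (au τ).symm (au σ a0) = a0 := Subtype.ext h6
  have h8 : au σ a0 = au τ a0 := by
    rw [← h7, AlgEquiv.apply_symm_apply, h7]
  rw [← au_spec, ← au_spec, h8]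

theorem lab_orbit {ν ν2 n : ℕ} {θ θ' : Fin n → ℂ} (G0 : GdG (v1 θ)) (G1 : GdG (v1 θ'))
    {P0 P1 : Ptd ν} {l l' : Fin n} (L0 : LbG P0 (v1 θ) l) (L1 : LbG P1 (v1 θ') l') (Q : Ptd ν2)
    (hfix : ∀ (σ : AA →+* ℂ) (ω : ℂ), ω ^ Q.C.pd.e = 1 →
      SG σ (Q.C.pd.x Q.i) (PowerSeries.rescale ω (Q.C.pd.x Q.i)) →
      Cj σ (θ l) (θ l) ∧ Cj σ (θ' l') (θ' l')) : Nonempty (LbG Q (v2 θ θ') (l, l')) := by
  classical
  obtain ⟨pd, hpd⟩ : ∃ pd : PData _ Q.d, pd = Q.C.pd := ⟨_, rfl⟩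
  obtain ⟨a0, ha0⟩ : ∃ a : AA, (a : ℂ) = θ l := ⟨⟨_, slb_mem (G0.int l 0)⟩, rfl⟩
  obtain ⟨a1, ha1⟩ : ∃ a : AA, (a : ℂ) = θ' l' := ⟨⟨_, slb_mem (G1.int l' 0)⟩, rfl⟩
  have hfix0 : ∀ (σ : AA →+* ℂ) (ω : ℂ), ω ^ pd.e = 1 →
      SG σ (pd.x Q.i) (PowerSeries.rescale ω (pd.x Q.i)) → σ a0 = (a0 : ℂ) := by
    intro σ ω hω h
    rw [hpd] at hω h
    rw [(hfix σ ω hω h).1 a0 ha0, ha0]
  have hfix1 : ∀ (σ : AA →+* ℂ) (ω : ℂ), ω ^ pd.e = 1 →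
      SG σ (pd.x Q.i) (PowerSeries.rescale ω (pd.x Q.i)) → σ a1 = (a1 : ℂ) := by
    intro σ ω hω h
    rw [hpd] at hω h
    rw [(hfix σ ω hω h).2 a1 ha1, ha1]
  have hth : ∀ j : Fin Q.d, ∃ p : Fin n × Fin n, ∀ (σ : AA →+* ℂ) (ζ : ℂ), ζ ^ pd.e = 1 →
      SG σ (pd.x Q.i) (PowerSeries.rescale ζ (pd.x j)) → θ p.1 = σ a0 ∧ θ' p.2 = σ a1 := by
    intro j
    by_cases hj : ∃ (σ : AA →+* ℂ) (ζ : ℂ), ζ ^ pd.e = 1 ∧
        SG σ (pd.x Q.i) (PowerSeries.rescale ζ (pd.x j))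
    · obtain ⟨σ, ζ, hζ, hσ⟩ := hj
      obtain ⟨l1, hl1⟩ := gal_lab L0 σ
      obtain ⟨l2, hl2⟩ := gal_lab L1 σ
      refine ⟨(l1, l2), fun τ ζ' hζ' hτ => ⟨?_, ?_⟩⟩
      · rw [← slb_key hfix0 hζ hζ' hσ hτ]
        exact (hl1 a0 ha0).symm
      · rw [← slb_key hfix1 hζ hζ' hσ hτ]
        exact (hl2 a1 ha1).symm
    · exact ⟨(l, l'), fun τ ζ' hζ' hτ => absurd ⟨τ, ζ', hζ', hτ⟩ hj⟩
  choose th hth using hth
  have i0 : ∀ x y, θ x = θ y → x = y := by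
    intro x y h
    apply G0.inj
    funext u
    exact h
  have i1 : ∀ x y, θ' x = θ' y → x = y := by
    intro x y h
    apply G1.inj
    funext u
    exact h
  have hone : (1 : ℂ) ^ pd.e = 1 := one_pow _
  have hid : SG (algebraMap AA ℂ) (pd.x Q.i) (PowerSeries.rescale 1 (pd.x Q.i)) := by
    have h1 : PowerSeries.rescale (1 : ℂ) (pd.x Q.i) = pd.x Q.i := by
      rw [PowerSeries.rescale_one]
      rfl
    rw [h1]
    exact sg_of_cj (coeff_mem pd Q.i) (fun k a ha => ha)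
  refine ⟨{
    S := Finset.univ.filter (fun j => ∃ (σ : AA →+* ℂ) (ζ : ℂ), ζ ^ pd.e = 1 ∧
      SG σ (pd.x Q.i) (PowerSeries.rescale ζ (pd.x j)))
    th := th
    mem := ?_
    near := ?_
    gal := ?_
    rot := ?_ }⟩
  · rw [mem_filter]
    exact ⟨mem_univ _, _, 1, hone, hid⟩
  · have h1 := hth Q.i _ 1 hone hid
    refine Prod.ext (i0 _ _ ?_) (i1 _ _ ?_)
    · rw [h1.1]
      exact ha0
    · rw [h1.2]
      exact ha1
  · intro τ i hi j hij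
    rw [mem_filter] at hi
    obtain ⟨-, σ, ζ, hζ, hσ⟩ := hi
    rw [← hpd] at hij
    have h1 : SG τ (pd.x i) (pd.x j) := sg_of_cj (coeff_mem pd i) hij
    obtain ⟨a, ha⟩ : ∃ a : AA, (a : ℂ) = ζ := ⟨⟨_, rou_mem (pe_ne pd) hζ⟩, rfl⟩
    have hae : a ^ pd.e = 1 := by
      apply Subtype.ext
      have h1 : ((a ^ pd.e : AA) : ℂ) = (a : ℂ) ^ pd.e := rfl
      rw [h1, ha, hζ]
      rfl
    have h2 := sg_rescale h1 a
    rw [ha] at h2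
    have h3 := hσ.trans h2
    have h4 : (τ a) ^ pd.e = 1 := by
      rw [← map_pow, hae, map_one]
    have h5 := hth j _ _ h4 h3
    have h6 := hth i σ ζ hζ hσ
    have h7 : ∀ (c : AA) (z w : ℂ), z = σ c → w = cmpA τ σ c → Cj τ z w := by
      intro c z w hz hw b hb
      have h8 : b = au σ c := by
        apply Subtype.ext
        rw [hb, hz, au_spec]
      rw [h8, hw]
      rfl
    refine ⟨?_, fun u => ?_⟩
    · rw [mem_filter]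
      exact ⟨mem_univ _, _, _, h4, h3⟩
    · unfold v2
      by_cases hu : u = 0
      · rw [if_pos hu, if_pos hu]
        exact h7 a0 _ _ h6.1 h5.1
      · rw [if_neg hu, if_neg hu]
        exact h7 a1 _ _ h6.2 h5.2
  · intro ζ1 hζ1 i hi j hij
    rw [mem_filter] at hi
    obtain ⟨-, σ, ζ, hζ, hσ⟩ := hi
    rw [← hpd] at hij hζ1
    have hζ0 : ζ1 ≠ 0 := by
      rintro rfl
      rw [zero_pow (pe_ne pd)] at hζ1
      exact zero_ne_one hζ1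
    have hη : (ζ * ζ1⁻¹) ^ pd.e = 1 := by
      rw [mul_pow, inv_pow, hζ, hζ1, inv_one, mul_one]
    have h3 : PowerSeries.rescale (ζ * ζ1⁻¹) (pd.x j) = PowerSeries.rescale ζ (pd.x i) := by
      rw [← hij, PowerSeries.rescale_rescale]
      congr 2
      field_simp
    have h4 : SG σ (pd.x Q.i) (PowerSeries.rescale (ζ * ζ1⁻¹) (pd.x j)) := by
      rw [h3]
      exact hσ
    have h5 := hth j _ _ hη h4
    have h6 := hth i σ ζ hζ hσ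
    refine ⟨?_, Prod.ext (i0 _ _ ?_) (i1 _ _ ?_)⟩
    · rw [mem_filter]
      exact ⟨mem_univ _, _, _, hη, h4⟩
    · rw [h5.1, h6.1]
    · rw [h5.2, h6.2]

end Pool.Agent.H97.FB
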