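import Pool.Agent.H97.NW.REB
import Pool.Agent.H97.NW.PTB

/-! # [H97 FB SCB] A curve in normal form with its Puiseux data; the branch of an integer point

`crvB_of`: the last part of the proof of `redB` (`Pool/Agent/H97/NW/REB.lean`), with `F` in place of `Ft ..` and `B` in place of `2^n H^(NR n)`: `fI_bd`, `fI_monic`, `fI_sqf`, `disc_bd`, `exists_pdata_bd`; `b = bR d B`. Bound: `bR_le` (`H34/AC/RedR.lean`) for `n = N` (`d ≤ N ≤ NR N`), `H = B`: `bR d (2^N B^(NR N)) ≤ B^(cR N)` and `bR` is monotone in `B`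
(`B ≤ 2^N B^(NR N)`, `NR N ≥ 1` for `N ≥ 1`) -- or simply build the structure with the larger `B' = 2^N B^(NR N)` as bound of the coefficients (`|F i j| ≤ B ≤ B'`), then `b = bR d B' ≤ B^(cR N)` with no monotonicity needed. `κ = cR N`.
`crvB_pt`: `CrvB.pt` (`PTB.lean`) without `4 ≤ d`. Everything up to `hT` word by word. Then: `pd.split` evaluated at `T`: let `r = ‖T‖`; the `x i` lie in the subring `cvz r` (`gr_of_le`, `growth`, `R r < 1`), `evH r _ T` is a ring homomorphism; `∏_i (Z - evz T (x i)) = ((fI d F).map (eval₂RingHom (Int.castRingHom ℂ) (1/x))).eval Z` for all `Z ∈ ℂ` (`yr_mapsplit`, `YR.lean`,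
shows how to map a factorisation: first as polynomials over the subring `cvz r`, with `t = ⟨tq.. X, _⟩`); at `Z = y/x` the right hand side times `x^d` is `ev d F x y = 0` (`H8.AW.fI_eval`, `Pool/Agent/H8/AW/Pt.lean`), so some `evz T (x i) = y/x`. (Look at the proof of `CrvA.branch`, `grep -rn branch Pool/Agent/H8/AW Pool/Agent/H8/AS`, it is the same and does not
use `4 ≤ d`.) -/

namespace Pool.Agent.H97.FB

open Finset Polynomial Pool.Agent.H87.SA2 Pool.Agent.H8.AW Pool.Agent.H52.AC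
  Pool.Agent.H34.AC Pool.Agent.H97.NW
open Pool.Agent.H72.ES (ev cst toP Lam)

theorem crvB_of (N : ℕ) (hN : 1 ≤ N) : ∃ κ : ℕ, 1 ≤ κ ∧ ∀ (d B : ℕ) (F : ℕ → ℕ → ℤ), 1 ≤ d →
    d ≤ N → 2 ≤ B → F 0 d = 1 → (∀ i j, |F i j| ≤ (B : ℤ)) → Irreducible (FQ d F) →
    ∃ b : ℕ, b ≤ B ^ κ ∧ Nonempty (CrvB N d b F) := by
  refine ⟨cR N, ?_, ?_⟩
  · unfold cR
    omega
  intro d B0 F hd1 hdN hB2 hF1 hle0 hFirr
  have hNR : N ≤ NR N := by
    unfold NR
    exact Nat.le_mul_of_pos_right _ (Nat.succ_pos N)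
  have hBB : B0 ≤ 2 ^ N * B0 ^ NR N := by
    calc B0 = B0 ^ 1 := (pow_one _).symm
      _ ≤ B0 ^ NR N := Nat.pow_le_pow_right (by omega) (by omega)
      _ ≤ 2 ^ N * B0 ^ NR N := Nat.le_mul_of_pos_left _ (by positivity)
  have hbR := bR_le hB2 hd1 (hdN.trans hNR)
  obtain ⟨B, hB⟩ : ∃ B, B = 2 ^ N * B0 ^ NR N := ⟨_, rfl⟩
  rw [← hB] at hbR hBB
  have hB1 : 1 ≤ B := by omega
  have hle : ∀ i j, |F i j| ≤ (B : ℤ) := fun i j => (hle0 i j).trans (by exact_mod_cast hBB)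
  have hbd := fI_bd (d := d) hle
  obtain ⟨hmon, hdeg⟩ := fI_monic hF1
  have hsq := fI_sqf hF1 hFirr
  obtain ⟨b1, b2, c, hc0, hbez, hcdeg, hcle⟩ := Pool.Agent.H97.XC.disc_bd hmon hdeg hd1 hbd hB1 hsq
  obtain ⟨pd, hpe, hpq, hpR, _⟩ :=
    Pool.Agent.H97.XC.exists_pdata_bd (H8.AW.fI d F) hmon
      (s := Pool.Agent.H97.XC.sz d d) hdeg hd1 hbd hB1 b1 b2 c hc0 hbez
      (by unfold Pool.Agent.H97.XC.sz; gcongr)
  have hCCb : Pool.Agent.H97.XC.CC d d B (Pool.Agent.H97.XC.sz d d) ≤ bR d B := by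
    unfold bR
    omega
  have hhcb : Pool.Agent.H97.XC.hc d d B ≤ bR d B := by
    unfold bR
    omega
  have hBb : B ≤ bR d B := by
    unfold bR
    omega
  have h2b : 2 ≤ bR d B := by
    unfold bR
    omega
  refine ⟨bR d B, hbR, ⟨?_⟩⟩
  exact {
      d1 := hd1
      dn := hdN
      b2 := h2b
      lead := hF1
      le := fun i j => (hle i j).trans (by exact_mod_cast hBb)
      irr := hFirr
      pd := pd
      e_le := hpe
      q_le := by
        have h1 : pd.q ≤ Pool.Agent.H97.XC.CC d d B (Pool.Agent.H97.XC.sz d d) := by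
          exact_mod_cast hpq
        exact h1.trans hCCb
      R_le := hpR.trans (by exact_mod_cast hCCb)
      bez := ⟨b1, b2, c, hc0, hbez, hcdeg, fun i => (hcle i).trans (by exact_mod_cast hhcb)⟩ }

theorem crvB_pt {n d b : ℕ} {F : ℕ → ℕ → ℤ} (C : CrvB n d b F) {c : ℕ}
    (hc : 4 * n.factorial ≤ c) {x y : ℤ} (hz : ev d F x y = 0)
    (hx : (b : ℝ) ^ c ≤ |(x : ℝ)|) : ∃ (i : Fin d) (T : ℂ), C.pd.R * ‖T‖ < 1 ∧
      ((C.pd.q : ℂ) * T) ^ C.pd.e * (x : ℂ) = 1 ∧ evz T (C.pd.x i) = (y : ℂ) / (x : ℂ) := by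
  have hb2 : (2 : ℝ) ≤ b := by exact_mod_cast C.b2
  have hn1 : 1 ≤ n.factorial := Nat.factorial_pos n
  have hb1 : (b : ℝ) + 1 ≤ |(x : ℝ)| := by
    calc (b : ℝ) + 1 ≤ (b : ℝ) ^ 2 := by nlinarith
      _ ≤ (b : ℝ) ^ c := pow_le_pow_right₀ (by linarith) (by omega)
      _ ≤ _ := hx
  have hx0 : x ≠ 0 := by
    rintro rfl
    rw [Int.cast_zero, abs_zero] at hb1
    linarith
  have hxC : (x : ℂ) ≠ 0 := by exact_mod_cast hx0
  have he : 0 < C.pd.e := C.pd.e_pos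
  have hq0 : (C.pd.q : ℂ) ≠ 0 := by
    have := C.pd.q_pos
    exact_mod_cast (by omega : C.pd.q ≠ 0)
  obtain ⟨S, hS⟩ := IsAlgClosed.exists_pow_nat_eq (1 / (x : ℂ)) he
  set T : ℂ := S / (C.pd.q : ℂ) with hTdef
  have hqT : (C.pd.q : ℂ) * T = S := by rw [hTdef]; field_simp
  have hTx : ((C.pd.q : ℂ) * T) ^ C.pd.e * (x : ℂ) = 1 := by
    rw [hqT, hS]
    field_simp
  have hSn : ‖S‖ < 1 / (b : ℝ) ^ 2 := by
    by_contra hcon
    push Not at hcon
    have hb0 : (0 : ℝ) < (b : ℝ) ^ 2 := by positivity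
    have h1 : (1 / (b : ℝ) ^ 2) ^ C.pd.e ≤ ‖S‖ ^ C.pd.e :=
      pow_le_pow_left₀ (by positivity) hcon _
    rw [← norm_pow, hS, norm_div, norm_one, Complex.norm_intCast, one_div_pow] at h1
    have hxp : (0 : ℝ) < |(x : ℝ)| := by linarith
    rw [one_div_le_one_div (by positivity) hxp, ← pow_mul] at h1
    have h2 : 2 * C.pd.e < c := by
      have h3 : C.pd.e ≤ n.factorial := C.e_le.trans (Nat.factorial_le C.dn)
      omega
    have h3 : (b : ℝ) ^ (2 * C.pd.e) < (b : ℝ) ^ c := pow_lt_pow_right₀ (by linarith) h2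
    linarith
  have hTn : ‖T‖ ≤ ‖S‖ := by
    rw [hTdef, norm_div, Complex.norm_natCast]
    have h1 : (1 : ℝ) ≤ C.pd.q := by exact_mod_cast C.pd.q_pos
    exact div_le_self (norm_nonneg _) h1
  have hT : C.pd.R * ‖T‖ < 1 := by
    have h1 : C.pd.R * ‖T‖ ≤ b * ‖S‖ :=
      mul_le_mul C.R_le hTn (norm_nonneg _) (by linarith)
    have h2 : (b : ℝ) * ‖S‖ < b * (1 / (b : ℝ) ^ 2) :=
      mul_lt_mul_of_pos_left hSn (by linarith)
    have h3 : (b : ℝ) * (1 / (b : ℝ) ^ 2) ≤ 1 := by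
      have : (b : ℝ) ≠ 0 := by linarith
      rw [mul_one_div, div_le_one (by positivity)]
      nlinarith
    linarith
  have ht : ((C.pd.q : ℂ) * T) ^ C.pd.e = 1 / (x : ℂ) := by
    rw [eq_div_iff hxC]
    exact hTx
  have hs := split_at C.pd hT
  rw [ht] at hs
  have h1 := fI_eval d F x y hxC
  rw [hz, Int.cast_zero, hs, eval_prod] at h1
  have h2 := (mul_eq_zero.1 h1).resolve_right (pow_ne_zero _ hxC)
  obtain ⟨i, -, hi⟩ := prod_eq_zero_iff.1 h2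
  rw [eval_sub, eval_X, eval_C, sub_eq_zero] at hi
  exact ⟨i, T, hT, hTx, hi.symm⟩

end Pool.Agent.H97.FB
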