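import Pool.Agent.H97.FB.CPS
import Pool.Agent.H97.FB.PLD
import Pool.Agent.H97.NW.SCL
import Pool.Agent.H34.AC.Inf1

/-! # [H97 FB SDEF] Special pairs with labels (chapter F): definitions

`pL`: power series as Laurent series. `tqS e q`: the substitution `t ↦ (q T)^e` on power series.
`hm δ P t h = t^δ P(1/t, h/t)`. `HB δ P`: the total degree of `P` is at most `δ`.
`DomQ f u0 w0`: a domain, finite over `ℤ[u]`, with an integer point `(u0, w0)` and the plane model `f`.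
`Rst pd S`: the set `S` of branches is stable under rotations. -/

namespace Pool.Agent.H97.FB

open Finset Polynomial Pool.Agent.H87.SA2 Pool.Agent.H8.AW Pool.Agent.H52.AC
open Pool.Agent.H72.ES (ev cst toP Lam)

/-- power series as Laurent series -/
noncomputable abbrev pL : PowerSeries ℂ →+* LaurentSeries ℂ := HahnSeries.ofPowerSeries ℤ ℂ

/-- the substitution `t ↦ (q T)^e` -/
noncomputable def tqS (e : ℕ) (he : e ≠ 0) (q : ℕ) : PowerSeries ℂ →+* PowerSeries ℂ :=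
  (PowerSeries.rescale (q : ℂ)).comp (exr ℂ e he)

/-- `t^δ P(1/t, h/t)` -/
noncomputable def hm {S : Type} [CommRing S] (δ : ℕ) (P : ℤ[X][X]) (t h : S) : S :=
  ∑ j ∈ range (δ + 1), ∑ i ∈ range (δ + 1 - j),
    (((P.coeff j).coeff i : ℤ) : S) * t ^ (δ - i - j) * h ^ j

/-- the total degree is at most `δ` -/
def HB (δ : ℕ) (P : ℤ[X][X]) : Prop := ∀ i j, (P.coeff j).coeff i ≠ 0 → i + j ≤ δ

/-- a domain, finite over `ℤ[u]`, with an integer point and a plane model -/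
structure DomQ (f : ℤ[X][X]) (u0 w0 : ℤ) where
  A : Type
  [cr : CommRing A]
  [dom : IsDomain A]
  ι : ℤ[X] →+* A
  w : A
  ev : A →+* ℤ
  ev_ι : ∀ q, ev (ι q) = q.eval u0
  ev_w : ev w = w0
  der : ∀ b : A, ∃ P : ℤ[X][X], Lam (ι X) w (derivative f) * b = Lam (ι X) w P
  lift : ∀ (L : Type) [Field L] [CharZero L] (U W : L),
    (∀ q : ℤ[X], q ≠ 0 → q.eval₂ (Int.castRingHom L) U ≠ 0) → Lam U W f = 0 →
    ∃ ψ : A →+* L, ψ (ι X) = U ∧ ψ w = W

attribute [instance] DomQ.cr DomQ.dom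

/-- stable under the rotations -/
def Rst {g : ℤ[X][X]} {d : ℕ} (pd : PData g d) (S : Finset (Fin d)) : Prop :=
  ∀ ζ : ℂ, ζ ^ pd.e = 1 → ∀ i ∈ S, ∀ j, PowerSeries.rescale ζ (pd.x i) = pd.x j → j ∈ S

theorem pe_ne {g : ℤ[X][X]} {d : ℕ} (pd : PData g d) : pd.e ≠ 0 := by
  have := pd.e_pos
  omega

end Pool.Agent.H97.FB
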