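import Pool.Agent.H97.NW.GRW
import Pool.Agent.H97.NW.IRQ
import Pool.Agent.H97.FB.SDef

/-! # [H97 FB SG1] A monic polynomial whose roots grow at most linearly is in normal form

`grow1`: follow `Pool/Agent/H97/NW/GRW.lean` line by line (copy the private lemmas `grw_iter`, `grw_cauchy`), with the finer estimate `‖(coefficient of index j)‖ ≤ ρ^(N-j) choose N j` (`Polynomial.coeff_le_of_roots_le`), `ρ = B (1 + ‖u‖)`. So `|f_j(u)| ≤ 2^N (B (1+|u|))^(N-j)` for all `u ∈ ℂ` (density, continuity), hence `natDegree f_j ≤ N - j` and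
`|coefficients| ≤ 2^N (2 B)^(N-j) ≤ (4 B)^N`.
`arr_of`: `F i j = if i + j ≤ N then (f.coeff j).coeff i else 0`, `N = f.natDegree`. `toP N F = f`: coefficients (`i ≤ natDegree (f.coeff j) ≤ N - j`, `j ≤ N`); `F 0 N = 1` (`f` monic). `FQ N F` irreducible: `FQ N F = f.map (mapRingHom (Int.castRingHom ℚ))` (coefficients); `f` is monic and irreducible over `ℤ[X]`, which is integrally closed (UFD), so
`f` is irreducible over `FractionRing ℤ[X]` (`Polynomial.Monic.irreducible_iff_irreducible_map_fraction_map`); a factorisation of `f.map` over `ℚ[X]` (monic, so into monic nonconstant factors: `Monic.irreducible_of_irreducible_map` along `ℚ[X] → FractionRing ℤ[X]` (or into `FractionRing ℚ[X]`, which is also a fraction field of `ℤ[X]`) gives the claim.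
(Alternatively: `irr_Q` of `IRQ.lean` and the isomorphism `Bivariate.equivMvPolynomial ℚ`.) -/

namespace Pool.Agent.H97.FB

open Finset Polynomial Pool.Agent.H8.AW
open Pool.Agent.H72.ES (ev cst toP Lam)

private theorem sg1_iter (p : ℂ[X]) (n : ℕ) : iteratedDeriv n (fun z => p.eval z) = fun z => (derivative^[n] p).eval z := by
  induction n with
  | zero => rw [iteratedDeriv_zero]; rfl
  | succ n ih =>
    rw [iteratedDeriv_succ, ih, Function.iterate_succ_apply']
    funext z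
    exact Polynomial.deriv _

/-- Cauchy's estimate -/
private theorem sg1_cauchy (p : ℂ[X]) (R M : ℝ) (hR : 0 < R) (h : ∀ z : ℂ, ‖z‖ = R → ‖p.eval z‖ ≤ M) (i : ℕ) :
    ‖p.coeff i‖ * R ^ i ≤ M := by
  have h1 : ‖iteratedDeriv i (fun z => p.eval z) 0‖ ≤ i.factorial * M / R ^ i := by
    apply Complex.norm_iteratedDeriv_le_of_forall_mem_sphere_norm_le i hR
    · exact p.differentiable.diffContOnCl
    · intro z hz
      apply h
      simpa using hz
  have h2 : iteratedDeriv i (fun z => p.eval z) 0 = (i.factorial : ℂ) * p.coeff i := by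
    rw [sg1_iter]
    show (derivative^[i] p).eval 0 = _
    rw [← coeff_zero_eq_eval_zero, coeff_iterate_derivative, zero_add, Nat.descFactorial_self, nsmul_eq_mul]
  rw [h2, norm_mul, Complex.norm_natCast] at h1
  have h3 : (0 : ℝ) < i.factorial := by exact_mod_cast Nat.factorial_pos i
  rw [le_div_iff₀ (by positivity)] at h1
  have h4 : (i.factorial : ℝ) * (‖p.coeff i‖ * R ^ i) ≤ i.factorial * M := by
    linarith
  exact le_of_mul_le_mul_left h4 h3

/-- the bound for the values of the coefficients at all points -/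
private theorem sg1_val (f : ℤ[X][X]) (hf : f.Monic) (B : ℝ) (hB : 1 ≤ B)
    (h : ∀ u w : ℂ, (∀ q : ℤ[X], q ≠ 0 → q.eval₂ (Int.castRingHom ℂ) u ≠ 0) → Lam u w f = 0 →
      ‖w‖ ≤ B * (1 + ‖u‖)) (j : ℕ) (u : ℂ) :
    ‖(f.coeff j).eval₂ (Int.castRingHom ℂ) u‖ ≤
      2 ^ f.natDegree * (B * (1 + ‖u‖)) ^ (f.natDegree - j) := by
  have key : ∀ u : ℂ, (∀ q : ℤ[X], q ≠ 0 → q.eval₂ (Int.castRingHom ℂ) u ≠ 0) →
      ‖(f.coeff j).eval₂ (Int.castRingHom ℂ) u‖ ≤
        2 ^ f.natDegree * (B * (1 + ‖u‖)) ^ (f.natDegree - j) := by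
    intro u hu
    obtain ⟨φ, hφ⟩ : ∃ φ : ℤ[X] →+* ℂ, φ = eval₂RingHom (Int.castRingHom ℂ) u := ⟨_, rfl⟩
    have hg : (f.map φ).Monic := hf.map φ
    have hdeg : (f.map φ).natDegree = f.natDegree := hf.natDegree_map φ
    have h2 := coeff_le_of_roots_le (B := B * (1 + ‖u‖)) (f := RingHom.id ℂ) (p := f.map φ) j hg
      (IsAlgClosed.splits _) (by
        intro w hw
        rw [Polynomial.map_id] at hw
        apply h u w hu
        have h3 := isRoot_of_mem_roots hw
        show eval₂ (eval₂RingHom (Int.castRingHom ℂ) u) w f = 0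
        rw [← hφ, eval₂_eq_eval_map]
        exact h3)
    rw [Polynomial.map_id, coeff_map, hdeg] at h2
    have h3 : φ (f.coeff j) = (f.coeff j).eval₂ (Int.castRingHom ℂ) u := by rw [hφ]; rfl
    rw [h3] at h2
    refine h2.trans ?_
    rw [mul_comm]
    apply mul_le_mul_of_nonneg_right _ (by positivity)
    have h4 : f.natDegree.choose j ≤ 2 ^ f.natDegree := Nat.choose_le_two_pow _ _
    exact_mod_cast h4
  have hcount : {x : ℂ | IsAlgebraic ℤ x}.Countable := Algebraic.countable ℤ ℂ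
  have hdense : Dense {x : ℂ | IsAlgebraic ℤ x}ᶜ := hcount.dense_compl ℝ
  have hclosed : IsClosed {u : ℂ | ‖(f.coeff j).eval₂ (Int.castRingHom ℂ) u‖ ≤
      2 ^ f.natDegree * (B * (1 + ‖u‖)) ^ (f.natDegree - j)} := by
    apply isClosed_le
    · have h5 : (fun u : ℂ => (f.coeff j).eval₂ (Int.castRingHom ℂ) u) = fun u => ((f.coeff j).map (Int.castRingHom ℂ)).eval u := by
        funext u
        rw [eval₂_eq_eval_map]
      exact (by rw [h5]; exact ((f.coeff j).map (Int.castRingHom ℂ)).continuous : Continuous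
        (fun u : ℂ => (f.coeff j).eval₂ (Int.castRingHom ℂ) u)).norm
    · fun_prop
  have hsub : {x : ℂ | IsAlgebraic ℤ x}ᶜ ⊆ {u : ℂ | ‖(f.coeff j).eval₂ (Int.castRingHom ℂ) u‖ ≤
      2 ^ f.natDegree * (B * (1 + ‖u‖)) ^ (f.natDegree - j)} := by
    intro x hx
    apply key
    intro q hq h0
    apply hx
    exact ⟨q, hq, h0⟩
  have := hclosed.closure_subset_iff.2 hsub
  rw [hdense.closure_eq] at this
  exact this (Set.mem_univ u)

theorem grow1 (f : ℤ[X][X]) (hf : f.Monic) (B : ℝ) (hB : 1 ≤ B)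
    (h : ∀ u w : ℂ, (∀ q : ℤ[X], q ≠ 0 → q.eval₂ (Int.castRingHom ℂ) u ≠ 0) → Lam u w f = 0 →
      ‖w‖ ≤ B * (1 + ‖u‖)) (j : ℕ) :
    (f.coeff j).natDegree ≤ f.natDegree - j ∧
      ∀ i, |(((f.coeff j).coeff i : ℤ) : ℝ)| ≤ (4 * B) ^ f.natDegree := by
  obtain ⟨N, hN⟩ : ∃ N, N = f.natDegree := ⟨_, rfl⟩
  rw [← hN]
  obtain ⟨κ, hκ⟩ : ∃ κ, κ = N - j := ⟨_, rfl⟩
  rw [← hκ]
  obtain ⟨p, hp⟩ : ∃ p : ℂ[X], p = (f.coeff j).map (Int.castRingHom ℂ) := ⟨_, rfl⟩
  have hcoef : ∀ i, ‖p.coeff i‖ = |(((f.coeff j).coeff i : ℤ) : ℝ)| := by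
    intro i
    rw [hp, coeff_map]
    exact Complex.norm_intCast _
  have hval : ∀ (R : ℝ), 1 ≤ R → ∀ i, ‖p.coeff i‖ * R ^ i ≤ 2 ^ N * (B * (1 + R)) ^ κ := by
    intro R hR i
    apply sg1_cauchy p R _ (by linarith)
    intro z hz
    have h1 := sg1_val f hf B hB h j z
    rw [eval₂_eq_eval_map, ← hp, hz, ← hN, ← hκ] at h1
    exact h1
  constructor
  · by_contra hcon
    push Not at hcon
    obtain ⟨m, hm⟩ : ∃ m, m = (f.coeff j).natDegree := ⟨_, rfl⟩
    rw [← hm] at hcon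
    have hlead : 1 ≤ ‖p.coeff m‖ := by
      rw [hcoef, hm]
      have h0 : (f.coeff j).coeff (f.coeff j).natDegree ≠ 0 := by
        intro h0
        have h1 : f.coeff j = 0 := leadingCoeff_eq_zero.1 h0
        rw [h1, natDegree_zero] at hm
        omega
      exact_mod_cast Int.one_le_abs h0
    obtain ⟨C0, hC0⟩ : ∃ C0 : ℝ, C0 = 2 ^ N * (2 * B) ^ κ := ⟨_, rfl⟩
    have hC1 : 0 < C0 := by rw [hC0]; positivity
    have h1 := hval (C0 + 1) (by linarith) m
    obtain ⟨r, hr⟩ : ∃ r, m = κ + 1 + r := ⟨m - (κ + 1), by omega⟩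
    have hR : (1 : ℝ) ≤ C0 + 1 := by linarith
    have h2 : (B * (1 + (C0 + 1))) ^ κ ≤ (2 * B) ^ κ * (C0 + 1) ^ κ := by
      rw [← mul_pow]
      apply pow_le_pow_left₀ (by positivity)
      nlinarith
    have h3 : (C0 + 1) ^ κ * (C0 + 1) ≤ ‖p.coeff m‖ * (C0 + 1) ^ m := by
      have h4 : (C0 + 1) ^ κ * (C0 + 1) ≤ (C0 + 1) ^ m := by
        rw [← pow_succ]
        exact pow_le_pow_right₀ hR (by omega)
      have h5 : (0 : ℝ) ≤ (C0 + 1) ^ m := by positivity
      nlinarith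
    have h4 : 2 ^ N * (B * (1 + (C0 + 1))) ^ κ ≤ C0 * (C0 + 1) ^ κ := by
      rw [hC0]
      rw [hC0] at h2
      calc _ ≤ 2 ^ N * ((2 * B) ^ κ * (2 ^ N * (2 * B) ^ κ + 1) ^ κ) :=
            mul_le_mul_of_nonneg_left h2 (by positivity)
        _ = _ := by ring
    have h5 : (0 : ℝ) < (C0 + 1) ^ κ := by positivity
    nlinarith
  · intro i
    rw [← hcoef]
    have h1 := hval 1 le_rfl i
    rw [one_pow, mul_one] at h1
    refine h1.trans ?_
    have h2 : (4 * B) ^ N = 2 ^ N * (B * (1 + 1)) ^ N := by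
      rw [← mul_pow]
      congr 1
      ring
    rw [h2]
    apply mul_le_mul_of_nonneg_left _ (by positivity)
    apply pow_le_pow_right₀ (by linarith)
    omega

private theorem sg1_toP (d : ℕ) (A : ℕ → ℕ → ℤ) (i j : ℕ) :
    ((toP d A).coeff j).coeff i = if i + j ≤ d then A i j else 0 := by
  unfold toP
  rw [finsetSum_coeff, finsetSum_coeff]
  have h1 : ∀ a ∈ range (d + 1), ((∑ b ∈ range (d + 1 - a),
      C (C (A a b) * X ^ a) * X ^ b : ℤ[X][X]).coeff j).coeff i =
      if a = i ∧ i + j ≤ d then A i j else 0 := by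
    intro a ha
    rw [mem_range] at ha
    rw [finsetSum_coeff, finsetSum_coeff]
    have h2 : ∀ b ∈ range (d + 1 - a),
        ((C (C (A a b) * X ^ a) * X ^ b : ℤ[X][X]).coeff j).coeff i =
        if j = b then (if i = a then A a b else 0) else 0 := by
      intro b _
      rw [coeff_C_mul, coeff_X_pow]
      split_ifs with h3 h4 h4
      · rw [mul_one, coeff_C_mul, coeff_X_pow, if_pos h4, mul_one]
      · rw [mul_one, coeff_C_mul, coeff_X_pow, if_neg h4, mul_zero]
      · rw [mul_zero, coeff_zero]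
    rw [sum_congr rfl h2, sum_ite_eq]
    by_cases h5 : a = i
    · subst h5
      by_cases h6 : a + j ≤ d
      · rw [if_pos (mem_range.mpr (by omega)), if_pos rfl, if_pos ⟨rfl, h6⟩]
      · rw [if_neg (fun h => h6 (by have := mem_range.mp h; omega)), if_neg (fun h => h6 h.2)]
    · rw [if_neg (fun h : a = i ∧ i + j ≤ d => h5 h.1)]
      split_ifs with h7 h8
      · exact absurd h8.symm h5
      · rfl
      · rfl
  rw [sum_congr rfl h1]
  by_cases h : i + j ≤ d
  · rw [if_pos h]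
    rw [sum_eq_single i]
    · rw [if_pos ⟨rfl, h⟩]
    · intro b _ hb
      rw [if_neg (fun h' => hb h'.1)]
    · intro h'
      exact absurd (mem_range.mpr (by omega)) h'
  · rw [if_neg h]
    exact sum_eq_zero fun a _ => if_neg (fun h' => h h'.2)

private theorem sg1_FQ (d : ℕ) (F : ℕ → ℕ → ℤ) :
    FQ d F = (toP d F).map (mapRingHom (Int.castRingHom ℚ)) := by
  ext j i
  rw [coeff_map, coe_mapRingHom, coeff_map, sg1_toP, FQ, finsetSum_coeff]
  simp only [coeff_C_mul, coeff_X_pow, mul_ite, mul_one, mul_zero]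
  rw [sum_ite_eq]
  simp only [mem_range]
  by_cases hj : j < d + 1
  · rw [if_pos hj, finsetSum_coeff]
    simp only [coeff_C_mul, coeff_X_pow, mul_ite, mul_one, mul_zero]
    rw [sum_ite_eq]
    simp only [mem_range]
    by_cases hi : i + j ≤ d
    · rw [if_pos hi, if_pos (by omega)]
      rfl
    · rw [if_neg hi, if_neg (by omega), map_zero]
  · rw [if_neg hj, coeff_zero, if_neg (by omega), map_zero]

/-- irreducible over the rationals -/
private theorem sg1_irr (f : ℤ[X][X]) (hf : f.Monic) (hi : Irreducible f) :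
    Irreducible (f.map (mapRingHom (Int.castRingHom ℚ))) := by
  have h1 := (hf.irreducible_iff_irreducible_map_fraction_map (K := FractionRing ℤ[X])).1 hi
  obtain ⟨ψ, hψ⟩ : ∃ ψ : ℚ[X] →+* FractionRing ℤ[X],
      ψ = eval₂RingHom (algebraMap ℚ (FractionRing ℤ[X])) (algebraMap ℤ[X] (FractionRing ℤ[X]) X) :=
    ⟨_, rfl⟩
  have h2 : ψ.comp (mapRingHom (Int.castRingHom ℚ)) = algebraMap ℤ[X] (FractionRing ℤ[X]) := by
    refine Polynomial.ringHom_ext (fun a => ?_) ?_
    · rw [hψ, RingHom.comp_apply, coe_mapRingHom, map_C, coe_eval₂RingHom, eval₂_C]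
      simp
    · rw [hψ, RingHom.comp_apply, coe_mapRingHom, map_X, coe_eval₂RingHom, eval₂_X]
  refine Monic.irreducible_of_irreducible_map ψ _ (hf.map _) ?_
  rw [Polynomial.map_map, h2]
  exact h1

theorem arr_of (f : ℤ[X][X]) (hf : f.Monic) (hi : Irreducible f) (h1 : 1 ≤ f.natDegree)
    (hdeg : ∀ j, (f.coeff j).natDegree ≤ f.natDegree - j) : ∃ F : ℕ → ℕ → ℤ,
      toP f.natDegree F = f ∧ F 0 f.natDegree = 1 ∧ Irreducible (FQ f.natDegree F) ∧
      ∀ i j, F i j = (f.coeff j).coeff i ∨ F i j = 0 := by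
  obtain ⟨N, hN⟩ : ∃ N, N = f.natDegree := ⟨_, rfl⟩
  rw [← hN]
  obtain ⟨F, hF⟩ : ∃ F : ℕ → ℕ → ℤ, F = fun i j => if i + j ≤ N then (f.coeff j).coeff i else 0 :=
    ⟨_, rfl⟩
  have h2 : toP N F = f := by
    ext j i
    rw [sg1_toP, hF]
    simp only
    by_cases h3 : i + j ≤ N
    · rw [if_pos h3, if_pos h3]
    · rw [if_neg h3]
      symm
      by_cases h4 : j ≤ N
      · apply coeff_eq_zero_of_natDegree_lt
        have h5 := hdeg j
        omega
      · rw [coeff_eq_zero_of_natDegree_lt (p := f) (by omega), coeff_zero]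
  refine ⟨F, h2, ?_, ?_, ?_⟩
  · rw [hF]
    simp only
    rw [if_pos (by omega)]
    have h3 : f.coeff N = 1 := by rw [hN]; exact hf
    rw [h3, coeff_one_zero]
  · rw [sg1_FQ, h2]
    exact sg1_irr f hf hi
  · intro i j
    rw [hF]
    simp only
    split_ifs
    · exact Or.inl rfl
    · exact Or.inr rfl

end Pool.Agent.H97.FB
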