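import Pool.Agent.H97.NW.CBD
import Pool.Agent.H34.AC.Defs

/-! # [H97 FB SGW] The generator of the covering grows at most linearly in `u = x_1 + x_0^M`

`wt_bd`: `x, y ∈ ℂ`, `p(x, y) = 0`, `p ≠ 0` of total degree `≤ N`, coefficients `≤ B` (integers), `M = N + 1`, `u = y + x^M`. Claim `‖x‖^M ≤ K^M + 2 ‖u‖`, `K = (N+1)^2 4^N B`. Suppose `‖x‖ > K` and `2 ‖u‖ < ‖x‖^M`. Then `‖y‖ = ‖u - x^M‖` lies between `‖x‖^M / 2` and `2 ‖x‖^M`. The monomials `x^i y^j` (`i + j ≤ N`) have the different weights `i + M j` (`i ≤ N < M`). Let `(i, j)` be the monomial of `p` of largest weight `W`; its value has norm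
`≥ ‖x‖^W / 2^N`, the others have norm `≤ B 2^N ‖x‖^(W-1)` (`‖x‖ ≥ 1`), there are fewer than `(N+1)^2` of them: `‖x‖ ≤ (N+1)^2 4^N B = K`, contradiction. (`vl p x y = ∑_(m ∈ support) coeff m * x^(m 0) * y^(m 1)`: `MvPolynomial.eval₂_eq'`, `Fin.prod_univ_two`; the number of the exponents `m` of total degree `≤ N` is at most `(N+1)^2`: inject `m ↦ (m 0, m 1)`.)
`cover_lin`: `M = N + 1`, `V = B (1 + ‖u‖)`.. put `x = z1 / a`, `y = u - x^M`: `Lam u z1 (toP D Fp) = ev D (cst ℂ Fp) u z1 = 0` (`Lam_toP`), `hrel` gives `vl p x y = 0` (`a ≠ 0`). `wt_bd`: `‖x‖^M ≤ K^M + 2 ‖u‖ ≤ B^k1 (1 + ‖u‖)`; `‖x‖ ≤ 1 + ‖x‖^M`; `‖y‖ ≤ ‖u‖ + ‖x‖^M`. `z1 = a x`. `sc_field` (`SCL.lean`): `ev d0 (cst ℂ F0) x (z2/a) = 0`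
(`Lam u z1 X / a = x`), `ev d1 (cst ℂ F1) y (z3 / a^M) = 0` (see `e1, e2` in `Pool/Agent/H97/NW/INO.lean`). A root `y'` of a curve in normal form of degree `d ≤ ν` at `x'` satisfies `‖y'‖ ≤ (d+1)^2 B max(1, ‖x'‖)`: `y'^d = -∑_(j<d) (∑_(i ≤ d-j) F_ij x'^i) y'^j`; if `‖y'‖ > (d+1)^2 B max(1,‖x'‖) =: ρ` then with `m = max(1, ‖x'‖)`:
`‖y'‖^d ≤ ∑ B m^(d-j) ‖y'‖^j ≤ (d+1)^2 B m ‖y'‖^(d-1)` (as `‖y'‖ ≥ m`). (`toP_root`/`sc_root` of `SCL.lean` give only a power; prove this sharper one.) So all `z_i` are at most `B^k2 (1 + ‖u‖)` (`|a| ≤ B`, `|a^M| ≤ B^M`), `μ ≤ μ0 := (N (N+1) ν ν)^2 ≤ B^(μ0)`. -/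

namespace Pool.Agent.H97.FB

open Finset Polynomial Pool.Agent.H97.NW Pool.Agent.H34.AC
open Pool.Agent.H72.ES (ev cst toP Lam)

private theorem sgw_vl (p : MvPolynomial (Fin 2) ℤ) (x y : ℂ) :
    vl p x y = ∑ m ∈ p.support, ((p.coeff m : ℤ) : ℂ) * (x ^ (m 0) * y ^ (m 1)) := by
  unfold vl
  rw [MvPolynomial.eval₂_eq']
  refine sum_congr rfl fun m _ => ?_
  rw [Fin.prod_univ_two]
  rfl

private theorem sgw_deg {p : MvPolynomial (Fin 2) ℤ} {N : ℕ} (hN : p.totalDegree ≤ N)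
    {m : Fin 2 →₀ ℕ} (hm : m ∈ p.support) : m 0 + m 1 ≤ N := by
  have h1 := (MvPolynomial.le_totalDegree hm).trans hN
  rw [Finsupp.sum_fintype _ _ (fun _ => rfl), Fin.sum_univ_two] at h1
  exact h1

private theorem sgw_card {p : MvPolynomial (Fin 2) ℤ} {N : ℕ} (hN : p.totalDegree ≤ N) :
    p.support.card ≤ (N + 1) ^ 2 := by
  have h1 : p.support.card ≤ (range (N + 1) ×ˢ range (N + 1)).card := by
    refine card_le_card_of_injOn (fun m => (m 0, m 1)) ?_ ?_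
    · intro m hm
      have h2 := sgw_deg hN (mem_coe.1 hm)
      refine mem_coe.2 (mem_product.2 ⟨mem_range.2 ?_, mem_range.2 ?_⟩)
      · show m 0 < N + 1
        omega
      · show m 1 < N + 1
        omega
    · intro m _ m' _ h
      have h2 := Prod.mk.inj h
      ext v
      fin_cases v
      · exact h2.1
      · exact h2.2
  rw [card_product, card_range, ← pow_two] at h1
  exact h1

theorem wt_bd (N : ℕ) (p : MvPolynomial (Fin 2) ℤ) (hp : p ≠ 0) (hN : p.totalDegree ≤ N) (B : ℕ)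
    (hB : 1 ≤ B) (hle : ∀ m, |p.coeff m| ≤ (B : ℤ)) (x y : ℂ) (h : vl p x y = 0) :
    ‖x‖ ^ (N + 1) ≤ ((N + 1) ^ 2 * 4 ^ N * (B : ℝ)) ^ (N + 1) + 2 * ‖y + x ^ (N + 1)‖ := by
  classical
  by_contra hcon
  rw [not_le] at hcon
  obtain ⟨K, hK⟩ : ∃ K : ℝ, K = (N + 1) ^ 2 * 4 ^ N * (B : ℝ) := ⟨_, rfl⟩
  rw [← hK] at hcon
  have hB1 : (1 : ℝ) ≤ B := by exact_mod_cast hB
  have hN1 : (1 : ℝ) ≤ (N : ℝ) + 1 := by
    have : (0 : ℝ) ≤ N := Nat.cast_nonneg _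
    linarith
  have hK1 : 1 ≤ K := by
    rw [hK]
    exact one_le_mul_of_one_le_of_one_le (one_le_mul_of_one_le_of_one_le (one_le_pow₀ hN1)
      (one_le_pow₀ (by norm_num))) hB1
  have hu0 := norm_nonneg (y + x ^ (N + 1))
  have hxK : K < ‖x‖ := by
    by_contra h1
    have h2 := pow_le_pow_left₀ (norm_nonneg x) (not_lt.1 h1) (N + 1)
    linarith
  have hx1 : 1 ≤ ‖x‖ := by linarith
  have hKp : 0 ≤ K ^ (N + 1) := by positivity
  have hxM : ‖x ^ (N + 1)‖ = ‖x‖ ^ (N + 1) := norm_pow _ _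
  have hylo : ‖x‖ ^ (N + 1) / 2 ≤ ‖y‖ := by
    have h1 : x ^ (N + 1) = (y + x ^ (N + 1)) - y := by ring
    have h2 := norm_sub_le (y + x ^ (N + 1)) y
    rw [← h1, hxM] at h2
    linarith
  have hyhi : ‖y‖ ≤ 2 * ‖x‖ ^ (N + 1) := by
    have h1 : y = (y + x ^ (N + 1)) - x ^ (N + 1) := by ring
    have h2 := norm_sub_le (y + x ^ (N + 1)) (x ^ (N + 1))
    rw [← h1, hxM] at h2
    linarith
  -- the monomial of largest weight
  have hne : p.support.Nonempty := MvPolynomial.support_nonempty.2 hp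
  obtain ⟨m, hm, hmax⟩ := exists_max_image p.support (fun m => m 0 + (N + 1) * m 1) hne
  obtain ⟨W, hW⟩ : ∃ W : ℕ, W = m 0 + (N + 1) * m 1 := ⟨_, rfl⟩
  have hlt : ∀ m' ∈ p.support, m' ≠ m → m' 0 + (N + 1) * m' 1 + 1 ≤ W := by
    intro m' hm' hmm
    have h1 : m' 0 + (N + 1) * m' 1 ≤ m 0 + (N + 1) * m 1 := hmax m' hm'
    rw [hW]
    refine Nat.succ_le_of_lt (lt_of_le_of_ne h1 fun he => hmm ?_)
    have h2 := sgw_deg hN hm'
    have h3 := sgw_deg hN hm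
    have h4 : m' 1 = m 1 := by
      have e1 : (m' 0 + (N + 1) * m' 1) / (N + 1) = m' 1 := by
        rw [Nat.add_mul_div_left _ _ (by omega), Nat.div_eq_of_lt (by omega), zero_add]
      have e2 : (m 0 + (N + 1) * m 1) / (N + 1) = m 1 := by
        rw [Nat.add_mul_div_left _ _ (by omega), Nat.div_eq_of_lt (by omega), zero_add]
      rw [← e1, he, e2]
    have h5 : m' 0 = m 0 := by
      rw [h4] at he
      omega
    ext v
    fin_cases v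
    · exact h5
    · exact h4
  rw [sgw_vl, ← add_sum_erase _ _ hm] at h
  have hmain : ‖x‖ ^ W / 2 ^ N ≤ ‖((p.coeff m : ℤ) : ℂ) * (x ^ (m 0) * y ^ (m 1))‖ := by
    have hc : (1 : ℝ) ≤ ‖((p.coeff m : ℤ) : ℂ)‖ := by
      rw [Complex.norm_intCast]
      have h1 : 1 ≤ |p.coeff m| := Int.one_le_abs (MvPolynomial.mem_support_iff.1 hm)
      exact_mod_cast h1
    have h3 := sgw_deg hN hm
    rw [norm_mul, norm_mul, norm_pow, norm_pow]
    have h4 : (‖x‖ ^ (N + 1) / 2) ^ (m 1) ≤ ‖y‖ ^ (m 1) :=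
      pow_le_pow_left₀ (by positivity) hylo _
    calc ‖x‖ ^ W / 2 ^ N ≤ ‖x‖ ^ W / 2 ^ (m 1) := by
          refine div_le_div_of_nonneg_left (by positivity) (by positivity) ?_
          exact pow_le_pow_right₀ (by norm_num) (by omega)
      _ = ‖x‖ ^ (m 0) * (‖x‖ ^ (N + 1) / 2) ^ (m 1) := by
          rw [hW, div_pow, pow_add, pow_mul]
          ring
      _ ≤ ‖x‖ ^ (m 0) * ‖y‖ ^ (m 1) := mul_le_mul_of_nonneg_left h4 (by positivity)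
      _ ≤ ‖((p.coeff m : ℤ) : ℂ)‖ * (‖x‖ ^ (m 0) * ‖y‖ ^ (m 1)) :=
          le_mul_of_one_le_left (by positivity) hc
  have hoth : ‖x‖ * ‖∑ m' ∈ p.support.erase m, ((p.coeff m' : ℤ) : ℂ) * (x ^ (m' 0) * y ^ (m' 1))‖ ≤
      (N + 1) ^ 2 * (B * (2 ^ N * ‖x‖ ^ W)) := by
    calc ‖x‖ * ‖∑ m' ∈ p.support.erase m, ((p.coeff m' : ℤ) : ℂ) * (x ^ (m' 0) * y ^ (m' 1))‖
        ≤ ‖x‖ * ∑ m' ∈ p.support.erase m, ‖((p.coeff m' : ℤ) : ℂ) * (x ^ (m' 0) * y ^ (m' 1))‖ :=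
          mul_le_mul_of_nonneg_left (norm_sum_le _ _) (norm_nonneg _)
      _ = ∑ m' ∈ p.support.erase m, ‖x‖ * ‖((p.coeff m' : ℤ) : ℂ) * (x ^ (m' 0) * y ^ (m' 1))‖ := by
          rw [mul_sum]
      _ ≤ ∑ _m' ∈ p.support.erase m, (B : ℝ) * (2 ^ N * ‖x‖ ^ W) := by
          refine sum_le_sum fun m' hm' => ?_
          have h5 := mem_erase.1 hm'
          have h6 := hlt m' h5.2 h5.1
          have h7 := sgw_deg hN h5.2
          have hc : ‖((p.coeff m' : ℤ) : ℂ)‖ ≤ B := by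
            rw [Complex.norm_intCast]
            have h8 := hle m'
            exact_mod_cast h8
          rw [norm_mul, norm_mul, norm_pow, norm_pow]
          have h8 : ‖y‖ ^ (m' 1) ≤ (2 * ‖x‖ ^ (N + 1)) ^ (m' 1) :=
            pow_le_pow_left₀ (norm_nonneg _) hyhi _
          calc ‖x‖ * (‖((p.coeff m' : ℤ) : ℂ)‖ * (‖x‖ ^ (m' 0) * ‖y‖ ^ (m' 1)))
              ≤ ‖x‖ * (B * (‖x‖ ^ (m' 0) * (2 * ‖x‖ ^ (N + 1)) ^ (m' 1))) := by gcongr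
            _ = B * (2 ^ (m' 1) * ‖x‖ ^ (m' 0 + (N + 1) * m' 1 + 1)) := by
                rw [mul_pow, ← pow_mul, pow_succ ‖x‖ (m' 0 + (N + 1) * m' 1), pow_add]
                ring
            _ ≤ B * (2 ^ N * ‖x‖ ^ W) := by
                have h9 : (2 : ℝ) ^ (m' 1) ≤ 2 ^ N := pow_le_pow_right₀ (by norm_num) (by omega)
                have h10 : ‖x‖ ^ (m' 0 + (N + 1) * m' 1 + 1) ≤ ‖x‖ ^ W := pow_le_pow_right₀ hx1 h6
                gcongr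
      _ = ((p.support.erase m).card : ℝ) * (B * (2 ^ N * ‖x‖ ^ W)) := by
          rw [sum_const, nsmul_eq_mul]
      _ ≤ (N + 1) ^ 2 * (B * (2 ^ N * ‖x‖ ^ W)) := by
          refine mul_le_mul_of_nonneg_right ?_ (by positivity)
          have h5 := (card_le_card (erase_subset m p.support)).trans (sgw_card hN)
          exact_mod_cast h5
  have heq : ‖((p.coeff m : ℤ) : ℂ) * (x ^ (m 0) * y ^ (m 1))‖ =
      ‖∑ m' ∈ p.support.erase m, ((p.coeff m' : ℤ) : ℂ) * (x ^ (m' 0) * y ^ (m' 1))‖ := by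
    rw [eq_neg_of_add_eq_zero_left h, norm_neg]
  rw [heq] at hmain
  have hxW : 0 < ‖x‖ ^ W := by positivity
  have h6 : ‖x‖ * (‖x‖ ^ W / 2 ^ N) ≤ (N + 1) ^ 2 * (B * (2 ^ N * ‖x‖ ^ W)) :=
    (mul_le_mul_of_nonneg_left hmain (norm_nonneg _)).trans hoth
  have h2N : (0 : ℝ) < 2 ^ N := by positivity
  have h7 : ‖x‖ ≤ K := by
    have h8 : ‖x‖ * ‖x‖ ^ W ≤ K * ‖x‖ ^ W := by
      have h9 : ‖x‖ * ‖x‖ ^ W = ‖x‖ * (‖x‖ ^ W / 2 ^ N) * 2 ^ N := by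
        field_simp
      have h10 : K * ‖x‖ ^ W = (N + 1) ^ 2 * (B * (2 ^ N * ‖x‖ ^ W)) * 2 ^ N := by
        rw [hK, show (4 : ℝ) = 2 * 2 by norm_num, mul_pow]
        ring
      rw [h9, h10]
      exact mul_le_mul_of_nonneg_right h6 h2N.le
    exact le_of_mul_le_mul_right h8 hxW
  linarith

theorem root_lin {d : ℕ} {F : ℕ → ℕ → ℤ} (hd : 1 ≤ d) (hlead : F 0 d = 1) {B : ℝ} (hB : 1 ≤ B)
    (hle : ∀ i j, |((F i j : ℤ) : ℝ)| ≤ B) {x y : ℂ} (h : ev d (cst ℂ F) x y = 0) :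
    ‖y‖ ≤ (d + 1) ^ 2 * B * max 1 ‖x‖ := by
  by_contra hcon
  rw [not_le] at hcon
  obtain ⟨M, hM⟩ : ∃ M : ℝ, M = max 1 ‖x‖ := ⟨_, rfl⟩
  rw [← hM] at hcon
  have hM1 : 1 ≤ M := by rw [hM]; exact le_max_left _ _
  have hxM : ‖x‖ ≤ M := by rw [hM]; exact le_max_right _ _
  have hd0 : (0 : ℝ) ≤ d := Nat.cast_nonneg d
  have hMy : M ≤ ‖y‖ := by
    have h1 : (1 : ℝ) ≤ (d + 1) ^ 2 * B :=
      one_le_mul_of_one_le_of_one_le (one_le_pow₀ (by linarith)) hB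
    have h2 : M ≤ (d + 1) ^ 2 * B * M := le_mul_of_one_le_left (by linarith) h1
    linarith
  have hy1 : 1 ≤ ‖y‖ := hM1.trans hMy
  obtain ⟨t, ht⟩ : ∃ t : ℕ → ℕ → ℂ, ∀ i j, t i j = if i = 0 ∧ j = d then 0 else
    (F i j : ℂ) * x ^ i * y ^ j := ⟨_, fun i j => rfl⟩
  have hsplit : ev d (cst ℂ F) x y = (∑ i ∈ range (d + 1), ∑ j ∈ range (d + 1 - i), t i j) +
      y ^ d := by
    have h1 : ∀ i j, (F i j : ℂ) * x ^ i * y ^ j = t i j +
        (if i = 0 ∧ j = d then y ^ d else 0) := by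
      intro i j
      rw [ht]
      split_ifs with h2
      · rw [h2.1, h2.2, hlead]
        simp
      · rw [add_zero]
    unfold ev cst
    rw [sum_congr rfl fun i _ => sum_congr rfl fun j _ => h1 i j]
    simp only [sum_add_distrib]
    congr 1
    rw [sum_eq_single 0]
    · rw [sum_eq_single d]
      · simp
      · intro j _ hj
        rw [if_neg (fun hh => hj hh.2)]
      · intro h2
        exact absurd (mem_range.2 (by omega)) h2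
    · intro i _ hi
      apply sum_eq_zero
      intro j _
      rw [if_neg (fun hh => hi hh.1)]
    · intro h2
      exact absurd (mem_range.2 (by omega)) h2
  rw [hsplit] at h
  have hyd : ‖y‖ ^ d ≤ (d + 1) ^ 2 * (B * (M * ‖y‖ ^ (d - 1))) := by
    rw [← norm_pow, eq_neg_of_add_eq_zero_right h, norm_neg]
    refine (norm_sum_le _ _).trans ?_
    have h1 : ∀ i ∈ range (d + 1), ‖∑ j ∈ range (d + 1 - i), t i j‖ ≤
        (d + 1) * (B * (M * ‖y‖ ^ (d - 1))) := by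
      intro i hi
      refine (norm_sum_le _ _).trans ?_
      have h2 : ∀ j ∈ range (d + 1 - i), ‖t i j‖ ≤ B * (M * ‖y‖ ^ (d - 1)) := by
        intro j hj
        have hi' := mem_range.1 hi
        have hj' := mem_range.1 hj
        rw [ht]
        split_ifs with h3
        · rw [norm_zero]
          positivity
        · rw [norm_mul, norm_mul, norm_pow, norm_pow, Complex.norm_intCast, mul_assoc]
          refine mul_le_mul (hle i j) ?_ (by positivity) (by linarith)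
          rcases Nat.eq_zero_or_pos i with hi0 | hi0
          · rw [hi0, pow_zero, one_mul]
            have h4 : ‖y‖ ^ j ≤ ‖y‖ ^ (d - 1) := by
              refine pow_le_pow_right₀ hy1 ?_
              have : j ≠ d := fun hh => h3 ⟨hi0, hh⟩
              omega
            exact h4.trans (le_mul_of_one_le_left (by positivity) hM1)
          · obtain ⟨i', rfl⟩ : ∃ i', i = i' + 1 := ⟨i - 1, by omega⟩
            calc ‖x‖ ^ (i' + 1) * ‖y‖ ^ j ≤ M ^ (i' + 1) * ‖y‖ ^ j := by gcongr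
              _ = M * (M ^ i' * ‖y‖ ^ j) := by rw [pow_succ]; ring
              _ ≤ M * (‖y‖ ^ i' * ‖y‖ ^ j) := by gcongr
              _ = M * ‖y‖ ^ (i' + j) := by rw [pow_add]
              _ ≤ M * ‖y‖ ^ (d - 1) := by
                  refine mul_le_mul_of_nonneg_left ?_ (by linarith)
                  exact pow_le_pow_right₀ hy1 (by omega)
      refine (sum_le_sum h2).trans ?_
      rw [sum_const, card_range, nsmul_eq_mul]
      refine mul_le_mul_of_nonneg_right ?_ (by positivity)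
      have h3 : d + 1 - i ≤ d + 1 := Nat.sub_le _ _
      exact_mod_cast h3
    refine (sum_le_sum h1).trans ?_
    rw [sum_const, card_range, nsmul_eq_mul]
    push_cast
    exact le_of_eq (by ring)
  have hy0 : 0 < ‖y‖ ^ (d - 1) := by positivity
  have hfin : ‖y‖ ≤ (d + 1) ^ 2 * B * M := by
    have h1 : ‖y‖ * ‖y‖ ^ (d - 1) ≤ ((d + 1) ^ 2 * B * M) * ‖y‖ ^ (d - 1) := by
      rw [← pow_succ', Nat.sub_add_cancel hd]
      refine hyd.trans (le_of_eq ?_)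
      ring
    exact le_of_mul_le_mul_right h1 hy0
  linarith

private theorem sgw_CC (u z : ℂ) (c : ℤ) (M : ℕ) :
    Lam u z (C (C c * X) - X ^ M : ℤ[X][X]) = (c : ℂ) * u - z ^ M := by
  rw [map_sub]
  congr 1
  · show eval₂ (eval₂RingHom (Int.castRingHom ℂ) u) z (C (C c * X)) = _
    rw [eval₂_C]
    show eval₂ (Int.castRingHom ℂ) u (C c * X) = _
    rw [eval₂_mul, eval₂_C, eval₂_X]
    rfl
  · show eval₂ (eval₂RingHom (Int.castRingHom ℂ) u) z (X ^ M) = _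
    rw [eval₂_X_pow]

private theorem sgw_nat (k : ℕ) {B : ℝ} (hB : 2 ≤ B) : (k : ℝ) + 1 ≤ B ^ k := by
  have h1 : ((k + 1 : ℕ) : ℝ) ≤ ((2 ^ k : ℕ) : ℝ) := by exact_mod_cast Nat.lt_two_pow_self
  push_cast at h1
  exact h1.trans (pow_le_pow_left₀ (by norm_num) hB k)

theorem cover_lin (ν N : ℕ) : ∃ κ : ℕ, 1 ≤ κ ∧ ∀ (d0 d1 D μ : ℕ) (F0 F1 Fp : ℕ → ℕ → ℤ) (a : ℤ)
    (p : MvPolynomial (Fin 2) ℤ) (B : ℕ), 1 ≤ d0 → 1 ≤ d1 → d0 ≤ ν → d1 ≤ ν →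
    μ ≤ (N * (N + 1) * ν * ν) ^ 2 → 2 ≤ B → a ≠ 0 → p ≠ 0 → p.totalDegree ≤ N →
    (∀ m, |p.coeff m| ≤ (B : ℤ)) → F0 0 d0 = 1 → F1 0 d1 = 1 → (∀ i j, |F0 i j| ≤ (B : ℤ)) →
    (∀ i j, |F1 i j| ≤ (B : ℤ)) → |a| ≤ (B : ℤ) →
    (∀ (S : Type) [CommRing S] (x y : S),
      ev D (cst S Fp) (y + x ^ (N + 1)) ((a : S) * x) = (a : S) ^ (D - 1) * vl p x y) →
    ∀ u z1 z2 z3 : ℂ, Lam u z1 (toP D Fp) = 0 → (sc d0 F0 a X).eval₂ (Lam u z1) z2 = 0 →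
      (sc d1 F1 (a ^ (N + 1)) (C (C (a ^ (N + 1)) * X) - X ^ (N + 1))).eval₂ (Lam u z1) z3 = 0 →
      ‖z1 + (μ : ℂ) * z2 + (μ : ℂ) ^ 2 * z3‖ ≤ (B : ℝ) ^ κ * (1 + ‖u‖) := by
  obtain ⟨μ0, hμ0⟩ : ∃ μ0 : ℕ, μ0 = (N * (N + 1) * ν * ν) ^ 2 := ⟨_, rfl⟩
  obtain ⟨k0, hk0⟩ : ∃ k0 : ℕ, k0 = (4 * N + 1) * (N + 1) := ⟨_, rfl⟩
  refine ⟨2 * μ0 + (k0 + 2 * ν + N + 4) + 2, by omega, ?_⟩
  intro d0 d1 D μ F0 F1 Fp a p B hd0 hd1 hd0ν hd1ν hμ hB ha hp hpN hpB hl0 hl1 hF0 hF1 haB hrel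
    u z1 z2 z3 h1 h2 h3
  have hBR : (2 : ℝ) ≤ B := by exact_mod_cast hB
  have hB1 : (1 : ℝ) ≤ B := by linarith
  have hu0 : 0 ≤ ‖u‖ := norm_nonneg u
  have haC : (a : ℂ) ≠ 0 := by exact_mod_cast ha
  have haR : |(a : ℝ)| ≤ B := by exact_mod_cast haB
  have hν2 : ((ν : ℝ) + 1) ^ 2 ≤ (B : ℝ) ^ (2 * ν) := by
    rw [mul_comm 2 ν, pow_mul]
    exact pow_le_pow_left₀ (by positivity) (sgw_nat ν hBR) 2
  obtain ⟨x, hx⟩ : ∃ x : ℂ, x = z1 / a := ⟨_, rfl⟩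
  obtain ⟨y, hy⟩ : ∃ y : ℂ, y = u - x ^ (N + 1) := ⟨_, rfl⟩
  have hz1 : (a : ℂ) * x = z1 := by
    rw [hx]
    field_simp
  have hu : y + x ^ (N + 1) = u := by rw [hy]; ring
  have hvl : vl p x y = 0 := by
    have h4 := hrel ℂ x y
    rw [hu, hz1, ← Pool.Agent.H72.ES.Lam_toP, h1] at h4
    rcases mul_eq_zero.1 h4.symm with h5 | h5
    · exact absurd h5 (pow_ne_zero _ haC)
    · exact h5
  have hwt := wt_bd N p hp hpN B (by omega) hpB x y hvl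
  rw [hu] at hwt
  have hK : ((N + 1) ^ 2 * 4 ^ N * (B : ℝ)) ^ (N + 1) ≤ (B : ℝ) ^ k0 := by
    have h4 : ((N : ℝ) + 1) ^ 2 ≤ (B : ℝ) ^ (2 * N) := by
      rw [mul_comm 2 N, pow_mul]
      exact pow_le_pow_left₀ (by positivity) (sgw_nat N hBR) 2
    have h5 : (4 : ℝ) ^ N ≤ (B : ℝ) ^ (2 * N) := by
      rw [pow_mul]
      exact pow_le_pow_left₀ (by norm_num) (by nlinarith) N
    calc ((N + 1) ^ 2 * 4 ^ N * (B : ℝ)) ^ (N + 1)
        ≤ ((B : ℝ) ^ (2 * N) * (B : ℝ) ^ (2 * N) * B) ^ (N + 1) := by gcongr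
      _ = (B : ℝ) ^ k0 := by
          rw [← pow_add, ← pow_succ, ← pow_mul, hk0]
          congr 2
          ring
  obtain ⟨V, hV⟩ : ∃ V : ℝ, V = 1 + ‖u‖ := ⟨_, rfl⟩
  have hV1 : 1 ≤ V := by rw [hV]; linarith
  rw [← hV]
  have hBk0 : (1 : ℝ) ≤ (B : ℝ) ^ k0 := one_le_pow₀ hB1
  have hxM : ‖x‖ ^ (N + 1) ≤ (B : ℝ) ^ (k0 + 1) * V := by
    calc ‖x‖ ^ (N + 1) ≤ (B : ℝ) ^ k0 + 2 * ‖u‖ := by linarith
      _ ≤ (B : ℝ) ^ k0 * 2 * V := by
          rw [hV]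
          nlinarith
      _ ≤ (B : ℝ) ^ k0 * B * V := by gcongr
      _ = _ := by rw [pow_succ]
  have hX1 : (1 : ℝ) ≤ (B : ℝ) ^ (k0 + 1) * V :=
    one_le_mul_of_one_le_of_one_le (one_le_pow₀ hB1) hV1
  have hxmax : max 1 ‖x‖ ≤ (B : ℝ) ^ (k0 + 1) * V := by
    refine max_le hX1 ?_
    rcases le_or_gt ‖x‖ 1 with h4 | h4
    · exact h4.trans hX1
    · exact (le_self_pow₀ h4.le (by omega)).trans hxM
  have hymax : max 1 ‖y‖ ≤ (B : ℝ) ^ (k0 + 2) * V := by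
    have h4 : (B : ℝ) ^ (k0 + 2) * V = B * ((B : ℝ) ^ (k0 + 1) * V) := by
      rw [pow_succ]
      ring
    rw [h4]
    refine max_le (by nlinarith) ?_
    have h5 : ‖y‖ ≤ ‖u‖ + ‖x‖ ^ (N + 1) := by
      rw [hy, ← norm_pow]
      exact norm_sub_le _ _
    have h6 : ‖u‖ ≤ (B : ℝ) ^ (k0 + 1) * V := by
      have h7 : (1 : ℝ) ≤ (B : ℝ) ^ (k0 + 1) := one_le_pow₀ hB1
      nlinarith
    nlinarith
  -- z1
  have e1 : ‖z1‖ ≤ (B : ℝ) ^ (k0 + 2) * V := by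
    rw [← hz1, norm_mul, Complex.norm_intCast]
    have h5 : ‖x‖ ≤ (B : ℝ) ^ (k0 + 1) * V := (le_max_right _ _).trans hxmax
    calc |(a : ℝ)| * ‖x‖ ≤ B * ((B : ℝ) ^ (k0 + 1) * V) :=
          mul_le_mul haR h5 (norm_nonneg _) (by linarith)
      _ = _ := by
          rw [pow_succ (B : ℝ) (k0 + 1)]
          ring
  -- z2
  have e2 : ‖z2‖ ≤ (B : ℝ) ^ (k0 + 2 * ν + 3) * V := by
    have h4 := sc_field (d := d0) (F := F0) a haC X u z1 z2 h2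
    have h5 : Lam u z1 (X : ℤ[X][X]) = z1 := by simp [Lam]
    rw [h5, ← hx] at h4
    have h6 := root_lin hd0 hl0 hB1 (fun i j => by exact_mod_cast hF0 i j) h4
    have h7 : z2 = (a : ℂ) * (z2 / a) := by field_simp
    rw [h7, norm_mul, Complex.norm_intCast]
    have h8 : ((d0 : ℝ) + 1) ^ 2 ≤ (B : ℝ) ^ (2 * ν) := by
      refine le_trans ?_ hν2
      have : (d0 : ℝ) ≤ ν := by exact_mod_cast hd0ν
      gcongr
    calc |(a : ℝ)| * ‖z2 / a‖ ≤ B * ((B : ℝ) ^ (2 * ν) * B * ((B : ℝ) ^ (k0 + 1) * V)) := by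
          refine mul_le_mul haR (h6.trans ?_) (norm_nonneg _) (by linarith)
          gcongr
      _ = _ := by
          have h9 : (B : ℝ) ^ (k0 + 2 * ν + 3) = B * ((B : ℝ) ^ (2 * ν) * B * (B : ℝ) ^ (k0 + 1)) := by
            rw [← pow_succ, ← pow_add, ← pow_succ']
            congr 1
            omega
          rw [h9]
          ring
  -- z3
  have e3 : ‖z3‖ ≤ (B : ℝ) ^ (k0 + 2 * ν + N + 4) * V := by
    have haM : ((a ^ (N + 1) : ℤ) : ℂ) ≠ 0 := by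
      push_cast
      exact pow_ne_zero _ haC
    have h4 := sc_field (d := d1) (F := F1) (a ^ (N + 1)) haM _ u z1 z3 h3
    have h5 : Lam u z1 (C (C (a ^ (N + 1)) * X) - X ^ (N + 1) : ℤ[X][X]) /
        ((a ^ (N + 1) : ℤ) : ℂ) = y := by
      rw [sgw_CC, ← hz1, mul_pow, hy]
      push_cast
      field_simp
    rw [h5] at h4
    have h6 := root_lin hd1 hl1 hB1 (fun i j => by exact_mod_cast hF1 i j) h4
    have h7 : z3 = ((a ^ (N + 1) : ℤ) : ℂ) * (z3 / ((a ^ (N + 1) : ℤ) : ℂ)) := by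
      field_simp
    rw [h7, norm_mul, Complex.norm_intCast]
    have h8 : ((d1 : ℝ) + 1) ^ 2 ≤ (B : ℝ) ^ (2 * ν) := by
      refine le_trans ?_ hν2
      have : (d1 : ℝ) ≤ ν := by exact_mod_cast hd1ν
      gcongr
    have h9 : |((a ^ (N + 1) : ℤ) : ℝ)| ≤ (B : ℝ) ^ (N + 1) := by
      push_cast
      rw [abs_pow]
      exact pow_le_pow_left₀ (abs_nonneg _) haR _
    calc |((a ^ (N + 1) : ℤ) : ℝ)| * ‖z3 / ((a ^ (N + 1) : ℤ) : ℂ)‖
        ≤ (B : ℝ) ^ (N + 1) * ((B : ℝ) ^ (2 * ν) * B * ((B : ℝ) ^ (k0 + 2) * V)) := by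
          refine mul_le_mul h9 (h6.trans ?_) (norm_nonneg _) (by positivity)
          gcongr
      _ = _ := by
          have h9 : (B : ℝ) ^ (k0 + 2 * ν + N + 4) =
              (B : ℝ) ^ (N + 1) * ((B : ℝ) ^ (2 * ν) * B * (B : ℝ) ^ (k0 + 2)) := by
            rw [← pow_succ, ← pow_add, ← pow_add]
            congr 1
            omega
          rw [h9]
          ring
  have eμ : (μ : ℝ) ≤ (B : ℝ) ^ μ0 := by
    have h4 : (μ : ℝ) ≤ μ0 := by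
      rw [hμ0]
      exact_mod_cast hμ
    have h5 := sgw_nat μ0 hBR
    linarith
  have hμ0' : (0 : ℝ) ≤ μ := Nat.cast_nonneg _
  obtain ⟨T, hT⟩ : ∃ T : ℝ, T = (B : ℝ) ^ (2 * μ0) * ((B : ℝ) ^ (k0 + 2 * ν + N + 4) * V) :=
    ⟨_, rfl⟩
  have hTp : 0 ≤ T := by rw [hT]; positivity
  have hμ1 : (1 : ℝ) ≤ (B : ℝ) ^ (2 * μ0) := one_le_pow₀ hB1
  have t1 : ‖z1‖ ≤ T := by
    rw [hT]
    calc ‖z1‖ ≤ (B : ℝ) ^ (k0 + 2) * V := e1
      _ ≤ (B : ℝ) ^ (k0 + 2 * ν + N + 4) * V := by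
          refine mul_le_mul_of_nonneg_right ?_ (by linarith)
          exact pow_le_pow_right₀ hB1 (by omega)
      _ ≤ _ := le_mul_of_one_le_left (by positivity) hμ1
  have t2 : ‖(μ : ℂ) * z2‖ ≤ T := by
    rw [norm_mul, Complex.norm_natCast, hT]
    refine mul_le_mul (eμ.trans (pow_le_pow_right₀ hB1 (by omega))) (e2.trans ?_) (norm_nonneg _)
      (by positivity)
    refine mul_le_mul_of_nonneg_right ?_ (by linarith)
    exact pow_le_pow_right₀ hB1 (by omega)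
  have t3 : ‖(μ : ℂ) ^ 2 * z3‖ ≤ T := by
    rw [norm_mul, norm_pow, Complex.norm_natCast, hT]
    refine mul_le_mul ?_ e3 (norm_nonneg _) (by positivity)
    rw [mul_comm 2 μ0, pow_mul]
    exact pow_le_pow_left₀ hμ0' eμ 2
  calc ‖z1 + (μ : ℂ) * z2 + (μ : ℂ) ^ 2 * z3‖ ≤ ‖z1‖ + ‖(μ : ℂ) * z2‖ + ‖(μ : ℂ) ^ 2 * z3‖ :=
        norm_add₃_le
    _ ≤ 4 * T := by linarith
    _ ≤ (B : ℝ) ^ 2 * T := mul_le_mul_of_nonneg_right (by nlinarith) hTp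
    _ = _ := by
        rw [hT, pow_add (B : ℝ) (2 * μ0 + (k0 + 2 * ν + N + 4)) 2,
          pow_add (B : ℝ) (2 * μ0) (k0 + 2 * ν + N + 4)]
        ring

end Pool.Agent.H97.FB
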