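import Pool.Agent.H97.FB.PLD
import Pool.Agent.H97.FB.SG1
import Pool.Agent.H97.FB.SGW
import Pool.Agent.H97.FB.SCB
import Pool.Agent.H97.NW.COV
import Pool.Agent.H97.NW.INO

/-! # [H97 FB SPM] The curve carrying both points of a special pair

`exists_dom`, `plane_model2`, `cover_lin`, `grow1`, `arr_of`, `crvB_of`, `crvB_pt`. -/

namespace Pool.Agent.H97.FB

open Finset Polynomial Pool.Agent.H87.SA2 Pool.Agent.H8.AW Pool.Agent.H52.AC Pool.Agent.H97.NW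
  Pool.Agent.H34.AC
open Pool.Agent.H72.ES (ev cst toP Lam Lam_toP)

theorem cov_dom (ν np0 ν2 : ℕ) (hν2 : np0 * (np0 + 1) * ν * ν ≤ ν2) (h2 : 1 ≤ ν2) :
    ∃ κ : ℕ, 1 ≤ κ ∧ ∀ (d0 d1 D : ℕ) (F0 F1 Fp : ℕ → ℕ → ℤ) (a : ℤ)
    (p : MvPolynomial (Fin 2) ℤ) (B : ℕ), 1 ≤ d0 → 1 ≤ d1 → d0 ≤ ν → d1 ≤ ν →
    D ≤ np0 * (np0 + 1) → 2 ≤ B → a ≠ 0 → p ≠ 0 → p.totalDegree ≤ np0 →
    (∀ m, |p.coeff m| ≤ (B : ℤ)) → F0 0 d0 = 1 → F1 0 d1 = 1 → Fp 0 D = 1 →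
    (∀ i j, |F0 i j| ≤ (B : ℤ)) → (∀ i j, |F1 i j| ≤ (B : ℤ)) → |a| ≤ (B : ℤ) →
    (∀ (S : Type) [CommRing S] (x y : S),
      ev D (cst S Fp) (y + x ^ (np0 + 1)) ((a : S) * x) = (a : S) ^ (D - 1) * vl p x y) →
    ∀ x0 y0 x1 y1 : ℤ, ev d0 F0 x0 y0 = 0 → ev d1 F1 x1 y1 = 0 → vl p x0 x1 = 0 →
    ∀ c : ℕ, 4 * ν2.factorial ≤ c →
    (B : ℝ) ^ (κ * c) ≤ |((x1 + x0 ^ (np0 + 1) : ℤ) : ℝ)| →
    ∃ (Q : Ptd ν2) (Dq : DomQ (toP Q.d Q.F) Q.x Q.y) (a1 a2 a3 : Dq.A), Q.Thr c ∧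
      Q.x = x1 + x0 ^ (np0 + 1) ∧ Q.b ≤ B ^ κ ∧ Dq.ev a1 = a * x0 ∧ Dq.ev a2 = a * y0 ∧
      Dq.ev a3 = a ^ (np0 + 1) * y1 ∧ Lam (Dq.ι X) a1 (toP D Fp) = 0 ∧
      (sc d0 F0 a X).eval₂ (Lam (Dq.ι X) a1) a2 = 0 ∧
      (sc d1 F1 (a ^ (np0 + 1)) (C (C (a ^ (np0 + 1)) * X) - X ^ (np0 + 1))).eval₂
        (Lam (Dq.ι X) a1) a3 = 0 := by
  obtain ⟨κg, hκg, hcov⟩ := cover_lin ν np0
  obtain ⟨κ1, hκ1, hcrv⟩ := crvB_of ν2 h2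
  refine ⟨(κg + 2) * ν2 * κ1, ?_, ?_⟩
  · exact Nat.mul_pos (Nat.mul_pos (by omega) (by omega)) (by omega)
  intro d0 d1 D F0 F1 Fp a p B hd0 hd1 hd0' hd1' hD hB ha hp hpdeg hpB hF0 hF1 hFp bF0 bF1 ba hrel
    x0 y0 x1 y1 z0 z1 zp c hc hbig
  obtain ⟨M, hM⟩ : ∃ M, M = np0 + 1 := ⟨_, rfl⟩
  rw [← hM] at hrel hbig ⊢
  have hcst : ∀ F : ℕ → ℕ → ℤ, cst ℤ F = F := fun F => by
    funext i j
    exact Int.cast_id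
  have e1 : Lam (x1 + x0 ^ M) (a * x0) (toP D Fp) = 0 := by
    have h2 := hrel ℤ x0 x1
    rw [zp, mul_zero] at h2
    rw [Lam_toP]
    exact h2
  have e2 : (sc d0 F0 a X).eval₂ (Lam (x1 + x0 ^ M) (a * x0)) (a * y0) = 0 := by
    have h2 := sc_int (d := d0) (F := F0) a (X : ℤ[X][X]) (x1 + x0 ^ M) (a * x0) x0 y0 (by simp [Lam])
    rw [hcst, z0, mul_zero] at h2
    exact h2
  have e3 : (sc d1 F1 (a ^ M) (C (C (a ^ M) * X) - X ^ M)).eval₂ (Lam (x1 + x0 ^ M) (a * x0))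
      (a ^ M * y1) = 0 := by
    have h2 := sc_int (d := d1) (F := F1) (a ^ M) (C (C (a ^ M) * X) - X ^ M : ℤ[X][X])
      (x1 + x0 ^ M) (a * x0) x1 y1 (by
        rw [ino_Lam_CC, Int.cast_id]
        ring)
    rw [hcst, z1, mul_zero] at h2
    exact h2
  obtain ⟨m1, dg1⟩ := toP_monic (d := D) (F := Fp) hFp
  obtain ⟨m2, dg2⟩ := sc_monic (d := d0) (F := F0) hF0 a X
  obtain ⟨m3, dg3⟩ := sc_monic (d := d1) (F := F1) hF1 (a ^ M) (C (C (a ^ M) * X) - X ^ M)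
  obtain ⟨A, iA, iD, ι, a1, a2, a3, evA, hι, hev, hs1, hs2, hs3, f1, f2, f3, hgen⟩ :=
    exists_dom (toP D Fp) (sc d0 F0 a X) (sc d1 F1 (a ^ M) (C (C (a ^ M) * X) - X ^ M)) m1 m2 m3
      (x1 + x0 ^ M) (a * x0) (a * y0) (a ^ M * y1) e1 e2 e3
  obtain ⟨μ, f, hμ, hfm, hfi, hfd, hfd1, hfw, hder, hL⟩ :=
    plane_model2 A ι hι a1 a2 a3 (toP D Fp) (sc d0 F0 a X)
      (sc d1 F1 (a ^ M) (C (C (a ^ M) * X) - X ^ M)) m1 m2 m3 f1 f2 f3 hgen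
  rw [dg1, dg2, dg3] at hμ hfd
  have hDN : D * d0 * d1 ≤ np0 * (np0 + 1) * ν * ν := Nat.mul_le_mul (Nat.mul_le_mul hD hd0') hd1'
  have hμ' : μ ≤ (np0 * (np0 + 1) * ν * ν) ^ 2 := hμ.trans (Nat.pow_le_pow_left hDN 2)
  have hfN : f.natDegree ≤ ν2 := (hfd.trans hDN).trans hν2
  have hB1 : (1 : ℝ) ≤ B := by exact_mod_cast (by omega : 1 ≤ B)
  have hB2 : (2 : ℝ) ≤ B := by exact_mod_cast hB
  have hgrow := grow1 f hfm ((B : ℝ) ^ κg) (one_le_pow₀ hB1) (by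
    intro u w hu huw
    obtain ⟨ψ, hψ1, hψ2⟩ := hL ℂ u w hu huw
    have q1 : Lam u (ψ a1) (toP D Fp) = 0 := by rw [← hψ1, cov_Lam, f1, map_zero]
    have q2 : (sc d0 F0 a X).eval₂ (Lam u (ψ a1)) (ψ a2) = 0 := by
      rw [← hψ1, cov_eval, f2, map_zero]
    have q3 : (sc d1 F1 (a ^ M) (C (C (a ^ M) * X) - X ^ M)).eval₂ (Lam u (ψ a1)) (ψ a3) = 0 := by
      rw [← hψ1, cov_eval, f3, map_zero]
    have q4 := hcov d0 d1 D μ F0 F1 Fp a p B hd0 hd1 hd0' hd1' hμ' hB ha hp hpdeg hpB hF0 hF1 bF0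
      bF1 ba (by rw [← hM]; exact hrel) u (ψ a1) (ψ a2) (ψ a3) q1 q2 (by rw [← hM]; exact q3)
    rw [← hψ2, map_add, map_add, map_mul, map_mul, map_pow, map_natCast]
    exact q4)
  obtain ⟨F, hFt, hFl, hFi, hFe⟩ := arr_of f hfm hfi hfd1 (fun j => (hgrow j).1)
  obtain ⟨B1, hB1e⟩ : ∃ B1 : ℕ, B1 = B ^ ((κg + 2) * ν2) := ⟨_, rfl⟩
  have hB12 : 2 ≤ B1 := by
    rw [hB1e]
    exact hB.trans (Nat.le_self_pow (Nat.mul_pos (by omega) (by omega)).ne' _)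
  have hcoef : ∀ i j, |(((f.coeff j).coeff i : ℤ) : ℝ)| ≤ (B1 : ℝ) := by
    intro i j
    refine ((hgrow j).2 i).trans ?_
    rw [hB1e]
    push_cast
    have h3 : 4 * (B : ℝ) ^ κg ≤ (B : ℝ) ^ (κg + 2) := by
      rw [pow_add, mul_comm]
      have : (4 : ℝ) ≤ (B : ℝ) ^ 2 := by nlinarith
      exact mul_le_mul_of_nonneg_left this (by positivity)
    calc (4 * (B : ℝ) ^ κg) ^ f.natDegree ≤ ((B : ℝ) ^ (κg + 2)) ^ f.natDegree :=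
          pow_le_pow_left₀ (by positivity) h3 _
      _ ≤ ((B : ℝ) ^ (κg + 2)) ^ ν2 := pow_le_pow_right₀ (one_le_pow₀ hB1) hfN
      _ = (B : ℝ) ^ ((κg + 2) * ν2) := by rw [← pow_mul]
  have hFB : ∀ i j, |F i j| ≤ (B1 : ℤ) := by
    intro i j
    rcases hFe i j with h3 | h3
    · rw [h3]
      have h4 := hcoef i j
      have h5 : ((|(f.coeff j).coeff i| : ℤ) : ℝ) ≤ ((B1 : ℤ) : ℝ) := by
        push_cast
        exact h4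
      exact_mod_cast h5
    · rw [h3, abs_zero]
      exact Int.natCast_nonneg _
  obtain ⟨b, hb, ⟨Cq⟩⟩ := hcrv f.natDegree B1 F hfd1 hfN hB12 hFl hFB hFi
  have hbB : b ≤ B ^ ((κg + 2) * ν2 * κ1) := by
    rw [pow_mul, ← hB1e]
    exact hb
  obtain ⟨w0, hw0⟩ : ∃ w0 : ℤ, w0 = a * x0 + μ * (a * y0) + μ ^ 2 * (a ^ M * y1) := ⟨_, rfl⟩
  have hevw : evA (a1 + (μ : A) * a2 + (μ : A) ^ 2 * a3) = w0 := by
    rw [map_add, map_add, map_mul, map_mul, map_pow, map_natCast, hs1, hs2, hs3, hw0]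
  have hz : ev f.natDegree F (x1 + x0 ^ M) w0 = 0 := by
    have h4 := cov_Lam evA (ι X) (a1 + (μ : A) * a2 + (μ : A) ^ 2 * a3) f
    rw [hfw, map_zero, hev, eval_X, hevw, ← hFt, Lam_toP, hcst] at h4
    exact h4
  have hxb : (b : ℝ) ^ c ≤ |((x1 + x0 ^ M : ℤ) : ℝ)| := by
    refine le_trans ?_ hbig
    rw [pow_mul]
    exact pow_le_pow_left₀ (by positivity) (by exact_mod_cast hbB) _
  obtain ⟨i, T, hRT, hqT, hevT⟩ := crvB_pt Cq hc hz hxb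
  have hzQ : Lam (ι X) (a1 + (μ : A) * a2 + (μ : A) ^ 2 * a3) (toP f.natDegree F) = 0 := by
    rw [hFt]
    exact hfw
  refine ⟨⟨f.natDegree, b, F, Cq, i, T, x1 + x0 ^ M, w0, hz, hqT, hevT⟩,
    ⟨A, ι, a1 + (μ : A) * a2 + (μ : A) ^ 2 * a3, evA, hev, hevw, ?_, ?_⟩, a1, a2, a3, hxb, rfl,
    hbB, hs1, hs2, hs3, f1, f2, f3⟩
  · intro b'
    obtain ⟨P, hP⟩ := hder b'
    exact ⟨P, by rw [hFt]; exact hP⟩
  · intro L _ _ U W hU hUW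
    exact hL L U W hU (by rw [← hFt]; exact hUW)

end Pool.Agent.H97.FB
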