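import Pool.Agent.H97.FB.SGA

/-! # [H97 FB SHM] Homogenisation

`Lam U W P = ∑_j ∑_i P_ij U^i W^j` (`eval₂_eq_sum_range'`, all terms with `i + j > δ` vanish by `HB`). `hm_eq`: `t^δ U^i W^j = t^(δ-i-j) (U t)^i (W t)^j = t^(δ-i-j) h^j`. `hm_map`: `map_sum`. `exists_HB`: `δ = natDegree P + sup of natDegree (P.coeff j)`.
`hm_sg`: `SG.sum`, `SG.mul`, `SG.int`, `SG.pow`. `hm_gr`, `hm_ev`: `cvz r hr` is a subring, `evH` a ring homomorphism (`hm_map` for the subtype map and for `evH`). -/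

namespace Pool.Agent.H97.FB

open Finset Polynomial Pool.Agent.H87.SA2 Pool.Agent.H8.AW Pool.Agent.H52.AC
open Pool.Agent.H72.ES (ev cst toP Lam)

theorem exists_HB (P : ℤ[X][X]) : ∃ δ, ∀ δ' ≥ δ, HB δ' P := by
  obtain ⟨N, hN⟩ : ∃ N : ℕ, ∀ j ∈ range (P.natDegree + 1), (P.coeff j).natDegree ≤ N :=
    ⟨(range (P.natDegree + 1)).sup fun j => (P.coeff j).natDegree,
      fun j hj => Finset.le_sup (f := fun j => (P.coeff j).natDegree) hj⟩
  refine ⟨N + P.natDegree, fun δ' hδ i j hij => ?_⟩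
  have h1 : j ≤ P.natDegree := by
    apply le_natDegree_of_ne_zero
    intro h
    rw [h, coeff_zero] at hij
    exact hij rfl
  have h2 : i ≤ (P.coeff j).natDegree := le_natDegree_of_ne_zero hij
  have h3 := hN j (mem_range.2 (Nat.lt_succ_of_le h1))
  omega

theorem hm_eq {S : Type} [CommRing S] {δ : ℕ} {P : ℤ[X][X]} (hP : HB δ P) {t h U W : S}
    (hU : U * t = 1) (hW : W * t = h) : hm δ P t h = t ^ δ * Lam U W P := by
  have h1 : P.natDegree < δ + 1 := by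
    rw [Nat.lt_succ_iff, natDegree_le_iff_coeff_eq_zero]
    intro j hj
    ext i
    rw [coeff_zero]
    by_contra hne
    have := hP i j hne
    omega
  have h2 : ∀ j, j < δ + 1 → (P.coeff j).natDegree < δ + 1 - j := by
    intro j hj
    have h3 : (P.coeff j).natDegree ≤ δ - j := by
      rw [natDegree_le_iff_coeff_eq_zero]
      intro i hi
      by_contra hne
      have := hP i j hne
      omega
    omega
  have h4 : Lam U W P = ∑ j ∈ range (δ + 1), (∑ i ∈ range (δ + 1 - j),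
      (((P.coeff j).coeff i : ℤ) : S) * U ^ i) * W ^ j := by
    unfold Lam
    rw [coe_eval₂RingHom, eval₂_eq_sum_range' _ h1]
    refine sum_congr rfl fun j hj => ?_
    rw [coe_eval₂RingHom, eval₂_eq_sum_range' _ (h2 j (mem_range.1 hj))]
    rfl
  rw [h4]
  unfold hm
  rw [mul_sum]
  refine sum_congr rfl fun j hj => ?_
  rw [sum_mul, mul_sum]
  refine sum_congr rfl fun i hi => ?_
  have hj' := mem_range.1 hj
  have hi' := mem_range.1 hi
  have h5 : t ^ δ = t ^ (δ - i - j) * (t ^ i * t ^ j) := by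
    rw [← pow_add, ← pow_add]
    congr 1
    omega
  have h6 : U ^ i * t ^ i = 1 := by rw [← mul_pow, hU, one_pow]
  have h7 : W ^ j * t ^ j = h ^ j := by rw [← mul_pow, hW]
  calc (((P.coeff j).coeff i : ℤ) : S) * t ^ (δ - i - j) * h ^ j
      = (((P.coeff j).coeff i : ℤ) : S) * t ^ (δ - i - j) * (U ^ i * t ^ i) * (W ^ j * t ^ j) := by
        rw [h6, h7, mul_one]
    _ = t ^ δ * ((((P.coeff j).coeff i : ℤ) : S) * U ^ i * W ^ j) := by
        rw [h5]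
        ring

theorem hm_map {S S' : Type} [CommRing S] [CommRing S'] (φ : S →+* S') (δ : ℕ) (P : ℤ[X][X])
    (t h : S) : φ (hm δ P t h) = hm δ P (φ t) (φ h) := by
  unfold hm
  rw [map_sum]
  refine sum_congr rfl fun j _ => ?_
  rw [map_sum]
  refine sum_congr rfl fun i _ => ?_
  rw [map_mul, map_mul, map_pow, map_pow, map_intCast]

theorem hm_sg {σ : AA →+* ℂ} {t t' h h' : PowerSeries ℂ} (ht : SG σ t t') (hh : SG σ h h')
    (δ : ℕ) (P : ℤ[X][X]) : SG σ (hm δ P t h) (hm δ P t' h') := by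
  unfold hm
  refine SG.sum _ fun j _ => SG.sum _ fun i _ => ?_
  exact ((SG.int σ _).mul (ht.pow _)).mul (hh.pow _)

theorem hm_gr {r : ℝ} (hr : 0 ≤ r) {t h : PowerSeries ℂ} (ht : Gr r t) (hh : Gr r h) (δ : ℕ)
    (P : ℤ[X][X]) : Gr r (hm δ P t h) := by
  have h1 := hm_map (cvz r hr).subtype δ P ⟨t, ht⟩ ⟨h, hh⟩
  have h2 : hm δ P t h = ((hm δ P (⟨t, ht⟩ : cvz r hr) ⟨h, hh⟩ : cvz r hr) : PowerSeries ℂ) :=
    h1.symm
  rw [h2]
  exact (hm δ P (⟨t, ht⟩ : cvz r hr) ⟨h, hh⟩).2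

theorem hm_ev {r : ℝ} (hr : 0 ≤ r) {T : ℂ} (hT : ‖T‖ ≤ r) {t h : PowerSeries ℂ} (ht : Gr r t)
    (hh : Gr r h) (δ : ℕ) (P : ℤ[X][X]) :
    evz T (hm δ P t h) = hm δ P (evz T t) (evz T h) := by
  have h1 := hm_map (cvz r hr).subtype δ P ⟨t, ht⟩ ⟨h, hh⟩
  have h2 : hm δ P t h = ((hm δ P (⟨t, ht⟩ : cvz r hr) ⟨h, hh⟩ : cvz r hr) : PowerSeries ℂ) :=
    h1.symm
  rw [h2]
  exact hm_map (Pool.Agent.H52.AC.evH r hr T hT) δ P ⟨t, ht⟩ ⟨h, hh⟩

end Pool.Agent.H97.FB
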