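import Pool.Agent.H34.AC.Sqf
import Pool.Agent.H97.FB.SHM

/-! # [H97 FB SPS] The homomorphism attached to a branch; roots and quotients in `ℂ⟦T⟧`

`exists_psi`: `t = tq e q X = (C q * X)^e ≠ 0`, `L = LaurentSeries ℂ`, `U = (pL t)⁻¹`, `W = pL (x j) * U`. `U` is transcendental over `ℤ`: if `q0.eval₂ _ U = 0`, `q0 ≠ 0`, then `U` lies in the range of `pL` (see the private lemma `U_range` in `Pool/Agent/H97/NW/INO.lean`, copy it), so `t` is a unit of `ℂ⟦T⟧`, but its constant coefficient is `0`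
(`e ≥ 1`). `Lam U W (toP d F) = ev d (cst _ F) U W` (`Lam_toP` of `SCL.lean`) `= U^d * ((fI d F).map φ).eval (pL (x j))` (`H34.AC.fI_eval`, `φ = pL.comp (tq e q)`, `W = pL (x j) * U`) `= U^d * pL (((fI d F).map (tq e q)).eval (x j)) = 0` (`pd.split`). Use `D.lift`.
`int_mem`: `PowerSeries ℂ` is integrally closed in `LaurentSeries ℂ` (`IsIntegrallyClosed.isIntegral_iff`, as `int_range` in `INO.lean`); `rootL`: the polynomial `(fI d F).map (..)` is monic (`fI_monic`, `H34/AC`), `fI_eval` with `u = X`, `t = z`: `ev = u^d * ..`. `invL`: in `LaurentSeries ℂ = ℂ((T))` an element `x` outside the range of `pL` is nonzero and `x⁻¹` is in the range with constant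
coefficient `0`: `x` has negative order (`HahnSeries`, `LaurentSeries.powerSeriesPart`, `LaurentSeries.single_order_mul_powerSeriesPart`), or: valuation ring: `x` or `x⁻¹` is in the range (`PowerSeries` over a field is a DVR, `IsFractionRing`, `ValuationRing.mem_or_inv_mem` or `ValuationRing.isInteger_or_isInteger`); if the constant coefficient of `x⁻¹` is not zero, it is
a unit and `x` is in the range. -/

namespace Pool.Agent.H97.FB

open Finset Polynomial Pool.Agent.H87.SA2 Pool.Agent.H8.AW Pool.Agent.H52.AC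
open Pool.Agent.H72.ES (ev cst toP Lam)

private theorem sps_int {W : LaurentSeries ℂ} (h : IsIntegral (PowerSeries ℂ) W) :
    ∃ ξ : PowerSeries ℂ, pL ξ = W := by
  obtain ⟨y, hy⟩ := IsIntegrallyClosed.isIntegral_iff.1 h
  exact ⟨y, hy⟩

private theorem sps_inj : Function.Injective pL := HahnSeries.ofPowerSeries_injective

private theorem sps_cz : CharZero (LaurentSeries ℂ) :=
  charZero_of_injective_ringHom (f := (HahnSeries.C : ℂ →+* LaurentSeries ℂ))
    HahnSeries.C_injective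

private theorem sps_U {U : LaurentSeries ℂ} {q : ℤ[X]}
    (hq : q ≠ 0) (h : q.eval₂ (Int.castRingHom (LaurentSeries ℂ)) U = 0) :
    ∃ ξ : PowerSeries ℂ, pL ξ = U := by
  have hc : (q.leadingCoeff : ℂ) ≠ 0 := by
    rw [Int.cast_ne_zero]
    exact leadingCoeff_ne_zero.2 hq
  have hb : PowerSeries.C ((q.leadingCoeff : ℂ)⁻¹) *
      Int.castRingHom (PowerSeries ℂ) q.leadingCoeff = 1 := by
    have h1 : Int.castRingHom (PowerSeries ℂ) q.leadingCoeff
        = PowerSeries.C (q.leadingCoeff : ℂ) := by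
      rw [map_intCast]
      rfl
    rw [h1, ← map_mul, inv_mul_cancel₀ hc, map_one]
  have hl : (q.map (Int.castRingHom (PowerSeries ℂ))).leadingCoeff
      = Int.castRingHom (PowerSeries ℂ) q.leadingCoeff :=
    leadingCoeff_map_of_leadingCoeff_ne_zero _ (right_ne_zero_of_mul (by
      rw [hb]
      exact one_ne_zero))
  refine sps_int ⟨C (PowerSeries.C ((q.leadingCoeff : ℂ)⁻¹)) *
    q.map (Int.castRingHom (PowerSeries ℂ)), ?_, ?_⟩
  · refine monic_C_mul_of_mul_leadingCoeff_eq_one ?_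
    rw [hl]
    exact hb
  · rw [eval₂_mul, eval₂_map]
    have h1 : (algebraMap (PowerSeries ℂ) (LaurentSeries ℂ)).comp
        (Int.castRingHom (PowerSeries ℂ)) = Int.castRingHom (LaurentSeries ℂ) :=
      RingHom.ext_int _ _
    rw [h1, h, mul_zero]

theorem exists_psi {d : ℕ} {F : ℕ → ℕ → ℤ} {u0 w0 : ℤ} (D : DomQ (toP d F) u0 w0)
    (pd : PData (fI d F) d) (j : Fin d) : ∃ ψ : D.A →+* LaurentSeries ℂ,
      ψ (D.ι X) * pL (tq pd.e pd.q X) = 1 ∧ ψ D.w * pL (tq pd.e pd.q X) = pL (pd.x j) := by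
  have hcz := sps_cz
  have ht : tq pd.e pd.q X = (PowerSeries.C (pd.q : ℂ) * PowerSeries.X) ^ pd.e := by
    unfold tq
    show eval₂ _ _ X = _
    rw [eval₂_X]
  have hq0 : (pd.q : ℂ) ≠ 0 := by
    have := pd.q_pos
    exact_mod_cast (by omega : pd.q ≠ 0)
  have ht0 : tq pd.e pd.q X ≠ 0 := by
    rw [ht]
    refine pow_ne_zero _ (mul_ne_zero ?_ PowerSeries.X_ne_zero)
    intro h
    have h1 := congrArg PowerSeries.constantCoeff h
    rw [PowerSeries.constantCoeff_C, map_zero] at h1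
    exact hq0 h1
  have htc : PowerSeries.constantCoeff (tq pd.e pd.q X) = 0 := by
    rw [ht, map_pow, map_mul, PowerSeries.constantCoeff_X, mul_zero, zero_pow (pe_ne pd)]
  have htL : pL (tq pd.e pd.q X) ≠ 0 := by
    intro h
    rw [← map_zero pL] at h
    exact ht0 (sps_inj h)
  obtain ⟨U, hU⟩ : ∃ U : LaurentSeries ℂ, U = (pL (tq pd.e pd.q X))⁻¹ := ⟨_, rfl⟩
  have hUt : U * pL (tq pd.e pd.q X) = 1 := by
    rw [hU]
    exact inv_mul_cancel₀ htL
  have htr : ∀ q : ℤ[X], q ≠ 0 → q.eval₂ (Int.castRingHom (LaurentSeries ℂ)) U ≠ 0 := by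
    intro q hq h
    obtain ⟨u, hu⟩ := sps_U hq h
    rw [← hu, ← map_mul, ← map_one pL] at hUt
    have h1 := congrArg PowerSeries.constantCoeff (sps_inj hUt)
    rw [map_mul, htc, mul_zero, map_one] at h1
    exact zero_ne_one h1
  have hroot : Lam U (pL (pd.x j) * U) (toP d F) = 0 := by
    rw [Pool.Agent.H72.ES.Lam_toP, Pool.Agent.H34.AC.fI_eval (pL.comp (tq pd.e pd.q)) d F U
      (pL (tq pd.e pd.q X)) (pL (pd.x j)) rfl hUt]
    have h1 : ((fI d F).map (pL.comp (tq pd.e pd.q))).eval (pL (pd.x j)) = 0 := by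
      rw [← Polynomial.map_map, Polynomial.eval_map, Polynomial.eval₂_at_apply, pd.split,
        Polynomial.eval_prod, Finset.prod_eq_zero (Finset.mem_univ j) (by simp), map_zero]
    rw [h1, mul_zero]
  obtain ⟨ψ, h1, h2⟩ := D.lift (LaurentSeries ℂ) U (pL (pd.x j) * U) htr hroot
  refine ⟨ψ, by rw [h1, hUt], ?_⟩
  rw [h2, mul_assoc, hUt, mul_one]

theorem int_mem {x : LaurentSeries ℂ} {g : (PowerSeries ℂ)[X]} (hg : g.Monic)
    (h : g.eval₂ pL x = 0) : ∃ ξ : PowerSeries ℂ, pL ξ = x :=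
  sps_int ⟨g, hg, h⟩

theorem invL {x : LaurentSeries ℂ} (hx : x ∉ (pL).range) :
    ∃ z : PowerSeries ℂ, PowerSeries.constantCoeff z = 0 ∧ z ≠ 0 ∧ pL z * x = 1 := by
  have hx0 : x ≠ 0 := by
    rintro rfl
    exact hx ⟨0, map_zero _⟩
  rcases ValuationRing.isInteger_or_isInteger (PowerSeries ℂ) x with h | h
  · exfalso
    obtain ⟨y, hy⟩ := h
    exact hx ⟨y, hy⟩
  · obtain ⟨z, hz⟩ := h
    have hz' : pL z = x⁻¹ := hz
    have hzx : pL z * x = 1 := by rw [hz', inv_mul_cancel₀ hx0]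
    refine ⟨z, ?_, ?_, hzx⟩
    · by_contra hc
      have hu : IsUnit z := PowerSeries.isUnit_iff_constantCoeff.2 (isUnit_iff_ne_zero.2 hc)
      obtain ⟨u, hu⟩ := hu.exists_right_inv
      apply hx
      refine ⟨u, ?_⟩
      have h1 : pL z * pL u = 1 := by rw [← map_mul, hu, map_one]
      have h2 : pL z ≠ 0 := by
        rw [hz']
        exact inv_ne_zero hx0
      exact mul_left_cancel₀ h2 (h1.trans hzx.symm)
    · rintro rfl
      rw [map_zero] at hz'
      exact inv_ne_zero hx0 hz'.symm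

/-- a point `(x, y)` of `F = 0` with a pole of `x`: `z = 1/x`, `V = y/x` -/
theorem rootL {d : ℕ} {F : ℕ → ℕ → ℤ} (hF : F 0 d = 1) {x y : LaurentSeries ℂ}
    (h : ev d (cst (LaurentSeries ℂ) F) x y = 0) {z : PowerSeries ℂ} (hz : pL z * x = 1) :
    ∃ V : PowerSeries ℂ, pL V * x = y ∧
      (fI d F).eval₂ (eval₂RingHom (Int.castRingHom (PowerSeries ℂ)) z) V = 0 := by
  obtain ⟨φ, hφ⟩ : ∃ φ : ℤ[X] →+* PowerSeries ℂ,
    φ = eval₂RingHom (Int.castRingHom (PowerSeries ℂ)) z := ⟨_, rfl⟩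
  have hφX : φ X = z := by
    rw [hφ]
    show eval₂ _ _ X = _
    rw [eval₂_X]
  have hxz : x * pL z = 1 := by rw [mul_comm, hz]
  have hx0 : x ≠ 0 := left_ne_zero_of_mul_eq_one hxz
  have h1 := Pool.Agent.H34.AC.fI_eval (pL.comp φ) d F x (pL z) (y * pL z)
    (by rw [RingHom.comp_apply, hφX]) hxz
  rw [mul_assoc, hz, mul_one, h] at h1
  have h2 : ((fI d F).map (pL.comp φ)).eval (y * pL z) = 0 := by
    rcases mul_eq_zero.1 h1.symm with h3 | h3
    · exact absurd h3 (pow_ne_zero _ hx0)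
    · exact h3
  rw [← Polynomial.map_map, Polynomial.eval_map] at h2
  obtain ⟨V, hV⟩ := int_mem (((Pool.Agent.H34.AC.fI_monic hF).1).map φ) h2
  refine ⟨V, by rw [hV, mul_assoc, hz, mul_one], ?_⟩
  rw [← hφ, ← Polynomial.eval_map]
  apply sps_inj
  rw [map_zero, ← Polynomial.eval₂_at_apply, hV]
  exact h2

end Pool.Agent.H97.FB
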