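import Pool.Agent.H97.FB.SZI
import Pool.Agent.H97.FB.SPS
import Pool.Agent.H97.NW.INO
import Pool.Agent.H97.NW.COV

/-! # [H97 FB SPN] Poles of the coordinates on the covering; the norm of `1/X_v`

`root_xi`: `W t` is a power series, a root of the reversed polynomial. `poles`: neither coordinate of the point `(X_0, X_1)` over `U = 1/t` is a power series.
`nrm_pol`: `szi` for `G = X` and for `G = a^M X^(M-1) - X^M`. -/

namespace Pool.Agent.H97.FB

open Finset Polynomial Pool.Agent.H87.SA2 Pool.Agent.H8.AW Pool.Agent.H52.AC Pool.Agent.H97.NW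
  Pool.Agent.H34.AC
open Pool.Agent.H72.ES (ev cst toP Lam Lam_toP)

theorem pL_inj : Function.Injective pL := HahnSeries.ofPowerSeries_injective

theorem spn_tq_X (e q : ℕ) : tq e q X = (PowerSeries.C (q : ℂ) * PowerSeries.X) ^ e := by
  simp [tq]

theorem tq_cc {e : ℕ} (he : e ≠ 0) (q : ℕ) : PowerSeries.constantCoeff (tq e q X) = 0 := by
  rw [spn_tq_X]
  simp [he]

theorem root_xi {D : ℕ} {Fp : ℕ → ℕ → ℤ} (hlead : Fp 0 D = 1) {e q : ℕ}
    {U W : LaurentSeries ℂ} (hU : U * pL (tq e q X) = 1) (h : Lam U W (toP D Fp) = 0) :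
    ∃ ξ : PowerSeries ℂ, pL ξ = W * pL (tq e q X) ∧ ((fI D Fp).map (tq e q)).eval ξ = 0 := by
  obtain ⟨t, ht⟩ : ∃ t, t = tq e q X := ⟨_, rfl⟩
  rw [← ht] at hU ⊢
  have hU0 : U ≠ 0 := by
    rintro rfl
    rw [zero_mul] at hU
    exact zero_ne_one hU
  have h1 := Pool.Agent.H34.AC.fI_eval (pL.comp (tq e q)) D Fp U (pL t) (W * pL t)
    (by rw [RingHom.comp_apply, ht]) hU
  have h2 : W * pL t * U = W := by
    rw [mul_assoc, mul_comm (pL t), hU, mul_one]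
  rw [h2, ← Lam_toP, h] at h1
  have h3 : ((fI D Fp).map (pL.comp (tq e q))).eval (W * pL t) = 0 := by
    rcases mul_eq_zero.1 h1.symm with h4 | h4
    · exact absurd h4 (pow_ne_zero _ hU0)
    · exact h4
  have hmon : ((fI D Fp).map (tq e q)).Monic := (fI_monic hlead).1.map _
  have h5 : ((fI D Fp).map (tq e q)).eval₂ pL (W * pL t) = 0 := by
    rw [← eval_map, Polynomial.map_map]
    exact h3
  obtain ⟨ξ, hξ⟩ := int_mem hmon h5
  refine ⟨ξ, hξ, ?_⟩
  apply pL_inj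
  rw [map_zero, ← eval₂_hom, hξ]
  exact h5

/-- Laurent series over `ℂ` have characteristic zero -/
theorem czL : CharZero (LaurentSeries ℂ) :=
  charZero_of_injective_ringHom (f := (HahnSeries.C : ℂ →+* LaurentSeries ℂ)) HahnSeries.C_injective

theorem intL_mul (a : ℤ) (ha : a ≠ 0) : (a : LaurentSeries ℂ) * pL (PowerSeries.C ((a : ℂ)⁻¹)) = 1 := by
  have h1 : (a : LaurentSeries ℂ) = pL (PowerSeries.C (a : ℂ)) := by
    rw [map_intCast (PowerSeries.C (R := ℂ)), map_intCast pL]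
  rw [h1, ← map_mul, ← map_mul, mul_inv_cancel₀ (Int.cast_ne_zero.2 ha), map_one, map_one]

theorem poles {A : Type} [CommRing A] (ι : ℤ[X] →+* A) (a1 : A) (ψ : A →+* LaurentSeries ℂ)
    {t : PowerSeries ℂ} (ht0 : PowerSeries.constantCoeff t = 0) (hψ1 : ψ (ι X) * pL t = 1)
    {a : ℤ} (ha : a ≠ 0) {p : MvPolynomial (Fin 2) ℤ} {D M : ℕ} {Fp : ℕ → ℕ → ℤ}
    (hrel : ∀ (S : Type) [CommRing S] (x y : S),
      ev D (cst S Fp) (y + x ^ M) ((a : S) * x) = (a : S) ^ (D - 1) * vl p x y)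
    (e1 : Lam (ι X) a1 (toP D Fp) = 0)
    (hnm : ∀ (K : Type) [Field K] [CharZero K] (X Y : LaurentSeries K), vl p X Y = 0 →
      (X ∈ (HahnSeries.ofPowerSeries ℤ K).range ↔ Y ∈ (HahnSeries.ofPowerSeries ℤ K).range)) :
    ψ a1 ∉ (pL).range ∧ ψ (Lam (ι X) a1 (C (C (a ^ M) * X) - X ^ M)) ∉ (pL).range := by
  have : CharZero (LaurentSeries ℂ) := czL
  have haL : (a : LaurentSeries ℂ) ≠ 0 := Int.cast_ne_zero.2 ha
  obtain ⟨U, hU⟩ : ∃ U, U = ψ (ι X) := ⟨_, rfl⟩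
  obtain ⟨Z, hZ⟩ : ∃ Z, Z = ψ a1 := ⟨_, rfl⟩
  obtain ⟨X0, hX0⟩ : ∃ X0 : LaurentSeries ℂ, X0 = Z / a := ⟨_, rfl⟩
  obtain ⟨X1, hX1⟩ : ∃ X1 : LaurentSeries ℂ, X1 = U - X0 ^ M := ⟨_, rfl⟩
  have hUX : X1 + X0 ^ M = U := by rw [hX1]; ring
  have hZX : (a : LaurentSeries ℂ) * X0 = Z := by
    rw [hX0]
    field_simp
  have h0 : vl p X0 X1 = 0 := by
    have h1 := hrel (LaurentSeries ℂ) X0 X1
    rw [hUX, hZX, ← Lam_toP, hU, hZ, cov_Lam, e1, map_zero] at h1
    rcases mul_eq_zero.1 h1.symm with h2 | h2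
    · exact absurd h2 (pow_ne_zero _ haL)
    · exact h2
  have hiff : X0 ∈ (pL).range ↔ X1 ∈ (pL).range := hnm ℂ X0 X1 h0
  have hnot : X0 ∉ (pL).range := by
    intro h1
    have h2 := hiff.1 h1
    have h3 : U ∈ (pL).range := by
      rw [← hUX]
      exact Subring.add_mem _ h2 (Subring.pow_mem _ h1 _)
    obtain ⟨s, hs⟩ := h3
    rw [← hU, ← hs, ← map_mul] at hψ1
    have h4 : s * t = 1 := pL_inj (by rw [hψ1, map_one])
    have h5 := congrArg PowerSeries.constantCoeff h4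
    rw [map_mul, ht0, mul_zero, map_one] at h5
    exact zero_ne_one h5
  have hnot1 : X1 ∉ (pL).range := fun h1 => hnot (hiff.2 h1)
  have key : ∀ (b : ℤ) (Y : LaurentSeries ℂ), b ≠ 0 → (b : LaurentSeries ℂ) * Y ∈ (pL).range →
      Y ∈ (pL).range := by
    intro b Y hb hY
    have h1 : Y = (b : LaurentSeries ℂ) * Y * pL (PowerSeries.C ((b : ℂ)⁻¹)) := by
      calc Y = Y * ((b : LaurentSeries ℂ) * pL (PowerSeries.C ((b : ℂ)⁻¹))) := by
            rw [intL_mul b hb, mul_one]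
        _ = _ := by ring
    rw [h1]
    exact Subring.mul_mem _ hY ⟨_, rfl⟩
  refine ⟨?_, ?_⟩
  · intro h1
    rw [← hZ, ← hZX] at h1
    exact hnot (key a X0 ha h1)
  · intro h1
    rw [ino_Lam_CC, map_sub, map_mul, map_pow, map_intCast, ← hU, ← hZ] at h1
    have h2 : ((a ^ M : ℤ) : LaurentSeries ℂ) * U - Z ^ M = ((a ^ M : ℤ) : LaurentSeries ℂ) * X1 := by
      rw [hX1, ← hZX]
      push_cast
      ring
    rw [h2] at h1
    exact hnot1 (key (a ^ M) X1 (pow_ne_zero _ ha) h1)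

theorem nrm_pol (np M N : ℕ) (hM : 1 ≤ M) : ∃ K : ℕ, ∀ (B : ℕ), 2 ≤ B → ∀ {D bp : ℕ}
    {Fp : ℕ → ℕ → ℤ} (_ : CrvB np D bp Fp), bp ≤ B → ∀ (e q : ℕ), e ≠ 0 → e ≤ N → 1 ≤ q →
    q ≤ B → ∀ (a : ℤ), a ≠ 0 → |a| ≤ (B : ℤ) → ∀ (U W : LaurentSeries ℂ),
    U * pL (tq e q X) = 1 → Lam U W (toP D Fp) = 0 → ∀ (z : PowerSeries ℂ),
    PowerSeries.constantCoeff z = 0 → ∀ (r : ℝ), 0 ≤ r → r * (B : ℝ) ^ K ≤ 1 →
      (pL z * W = (a : LaurentSeries ℂ) → Gr r z ∧ nrm r z ≤ r * (B : ℝ) ^ K) ∧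
      (pL z * (((a ^ M : ℤ) : LaurentSeries ℂ) * U - W ^ M) = ((a ^ M : ℤ) : LaurentSeries ℂ) →
        Gr r z ∧ nrm r z ≤ r * (B : ℝ) ^ K) := by
  obtain ⟨K, hK⟩ := szi np N M
  refine ⟨M * K, ?_⟩
  intro B hB D bp Fp Cp hbp e q he heN hq hqB a ha haB U W hU hW z hz r hr hrK
  obtain ⟨ξ, hξ, hroot⟩ := root_xi Cp.lead hU hW
  have hB1 : 1 ≤ B := by omega
  have hBM : B ≤ B ^ M := Nat.le_self_pow (by omega) _
  have hBK : ((B ^ M : ℕ) : ℝ) ^ K = (B : ℝ) ^ (M * K) := by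
    push_cast
    rw [← pow_mul]
  have hMN : (e : ℕ) ≤ N := heN
  have haB' : |a ^ M| ≤ ((B ^ M : ℕ) : ℤ) := by
    rw [abs_pow]
    push_cast
    exact pow_le_pow_left₀ (abs_nonneg _) haB _
  have hfac : Cp.pd.e ≤ np.factorial := Cp.e_le.trans (Nat.factorial_le Cp.dn)
  have hRB : Cp.pd.R ≤ ((B ^ M : ℕ) : ℝ) := by
    have h1 : (bp : ℝ) ≤ ((B ^ M : ℕ) : ℝ) := by exact_mod_cast hbp.trans hBM
    exact Cp.R_le.trans h1
  have main : ∀ (G : ℤ[X][X]), (∀ i j, |(G.coeff j).coeff i| ≤ ((B ^ M : ℕ) : ℤ)) →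
      G.natDegree ≤ M → (∀ j, (G.coeff j).natDegree ≤ M) → ∀ k, k ≤ M → ∀ c : ℤ, c ≠ 0 →
      |c| ≤ ((B ^ M : ℕ) : ℤ) →
      z * G.eval₂ (tq e q) ξ = PowerSeries.C (c : ℂ) * (tq e q X) ^ k →
      Gr r z ∧ nrm r z ≤ r * (B : ℝ) ^ (M * K) := by
    intro G h1 h2 h3 k hk c hc hcB h4
    have h5 := hK (B ^ M) (hB.trans hBM) Cp.dn Cp.pd hfac ((Cp.q_le.trans hbp).trans hBM) hRB e q he
      hMN hq (hqB.trans hBM) G h1 h2 h3 ξ hroot k hk c hc hcB z hz h4 r hr (by rw [hBK]; exact hrK)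
    rw [hBK] at h5
    exact h5
  have hcast : ∀ b : ℤ, (b : LaurentSeries ℂ) = pL (PowerSeries.C (b : ℂ)) := fun b => by
    rw [map_intCast (PowerSeries.C (R := ℂ)), map_intCast pL]
  refine ⟨?_, ?_⟩
  · intro h1
    refine main X ?_ (natDegree_X_le.trans hM) ?_ 1 hM a ha (haB.trans (by exact_mod_cast hBM)) ?_
    · intro i j
      have h2 : (1 : ℤ) ≤ ((B ^ M : ℕ) : ℤ) := by exact_mod_cast Nat.one_le_pow _ _ hB1
      rw [coeff_X]
      split_ifs
      · rw [coeff_one]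
        split_ifs
        · simpa using h2
        · simp
      · simp
    · intro j
      rw [coeff_X]
      split_ifs
      · simp
      · simp
    · apply pL_inj
      rw [eval₂_X, pow_one, map_mul, map_mul, hξ, ← hcast, ← h1]
      ring
  · intro h1
    refine main (C (C (a ^ M) * X ^ (M - 1)) - X ^ M) ?_ ?_ ?_ M le_rfl (a ^ M)
      (pow_ne_zero _ ha) haB' ?_
    · intro i j
      have h2 : (1 : ℤ) ≤ ((B ^ M : ℕ) : ℤ) := by exact_mod_cast Nat.one_le_pow _ _ hB1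
      rw [coeff_sub, coeff_C, coeff_X_pow]
      by_cases hj : j = 0
      · rw [if_pos hj, if_neg (by omega), sub_zero, coeff_C_mul, coeff_X_pow]
        split_ifs
        · rw [mul_one]
          exact haB'
        · simp
      · rw [if_neg hj, zero_sub]
        split_ifs
        · rw [coeff_neg, coeff_one]
          split_ifs
          · simpa using h2
          · simp
        · simp
    · refine (natDegree_sub_le _ _).trans (max_le ?_ ?_)
      · rw [natDegree_C]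
        exact Nat.zero_le _
      · exact natDegree_X_pow_le _
    · intro j
      rw [coeff_sub, coeff_C, coeff_X_pow]
      refine (natDegree_sub_le _ _).trans (max_le ?_ ?_)
      · split_ifs
        · exact (natDegree_C_mul_X_pow_le _ _).trans (by omega)
        · simp
      · split_ifs
        · simp
        · simp
    · apply pL_inj
      have h2 : (C (C (a ^ M) * X ^ (M - 1)) - X ^ M : ℤ[X][X]).eval₂ (tq e q) ξ =
          PowerSeries.C ((a ^ M : ℤ) : ℂ) * (tq e q X) ^ (M - 1) - ξ ^ M := by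
        have h5 : tq e q (C (a ^ M)) = PowerSeries.C ((a ^ M : ℤ) : ℂ) := by
          rw [map_intCast (PowerSeries.C (R := ℂ))]
          exact eq_intCast ((tq e q).comp C) (a ^ M)
        rw [eval₂_sub, eval₂_C, eval₂_X_pow, map_mul, map_pow (tq e q) X, h5]
      have h3 : (pL (tq e q X)) ^ M = (pL (tq e q X)) ^ (M - 1) * pL (tq e q X) := by
        rw [← pow_succ]
        congr 1
        omega
      rw [h2, map_mul, map_sub, map_mul, map_pow, map_pow, hξ, map_mul, map_pow, ← hcast]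
      calc pL z * (((a ^ M : ℤ) : LaurentSeries ℂ) * pL (tq e q X) ^ (M - 1) -
            (W * pL (tq e q X)) ^ M)
          = pL z * (((a ^ M : ℤ) : LaurentSeries ℂ) * (pL (tq e q X) ^ (M - 1) * (U * pL (tq e q X))) -
            (W * pL (tq e q X)) ^ M) := by rw [hU, mul_one]
        _ = (pL z * (((a ^ M : ℤ) : LaurentSeries ℂ) * U - W ^ M)) * pL (tq e q X) ^ M := by
            rw [mul_pow, h3]
            ring
        _ = _ := by rw [h1]

end Pool.Agent.H97.FB
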