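import Pool.Agent.H97.FB.SFA

/-! # [H97 FB SMA] A formal root is the right one: evaluation at a point

`t0 = (q T0)^e = evz T1 z`, `ρ = (q/(2R))^e`. Let `m = G.natDegree`, `g_k = G.coeff k` (`Gr ρ g_k` by `fac_gr`). Multiply `∑_k (sbH g_k) V^k = 0` (`eval₂_eq_sum_range`) by `α^m`: `∑_(k ≤ m) (sbH g_k) β^k α^(m-k) = 0` (`α V = β`). Evaluate at `T1`: `evH r hr T1 hT1` is a ring homomorphism on the subring
`cvz r hr`; `sbH g_k ∈ cvz r` by `cps_gr`, `evz T1 (sbH g_k) = evz t0 g_k` by `cps_ev` and `hT0`; `evz T1 β = α1 y`, `α1 = evz T1 α ≠ 0`: so `α1^m ∑_k (evz t0 g_k) y^k = 0`, `∑_k (evz t0 g_k) y^k = 0`.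
On the other hand `evz t0 g_k = evz T0 (tqS g_k)` (`tqS_ev`), `tqS g_k = (∏_(i ∈ S) (X - C (x i))).coeff k`, and evaluation at `T0` is a ring homomorphism on `cvz r0`, `r0 = 1/(2R) ≥ ‖T0‖`, which contains the `x i` (`gr_of_le`, `growth`: `‖coeff k‖ ≤ R * R^k`): `∑_k (evz T0 (tqS g_k)) y^k = ∏_(i ∈ S) (y - evz T0 (x i))`
(take the polynomial `∏ (X - C ⟨x i, _⟩)` over `cvz r0`, map it to `PowerSeries ℂ` by `Subring.subtype` and to `ℂ` by `evH`). So a factor vanishes. (If `S = ∅` then `G = 1`, the sum is `1`, contradiction with `0`; it is covered.) -/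

namespace Pool.Agent.H97.FB

open Finset Polynomial Pool.Agent.H87.SA2 Pool.Agent.H8.AW Pool.Agent.H52.AC

/-- evaluation of a partial product at a point -/
private theorem sma_prod {g : ℤ[X][X]} {d : ℕ} (pd : PData g d) (S : Finset (Fin d)) {T0 : ℂ}
    (hT0r : pd.R * ‖T0‖ ≤ 1 / 2) (y : ℂ) {m : ℕ} (hm : S.card ≤ m) :
    ∑ k ∈ range (m + 1), evz T0 ((∏ i ∈ S, (X - C (pd.x i))).coeff k) * y ^ k =
      ∏ i ∈ S, (y - evz T0 (pd.x i)) := by
  have hR := pd.R_ge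
  have hr : 0 ≤ 1 / (2 * pd.R) := by positivity
  have hT : ‖T0‖ ≤ 1 / (2 * pd.R) := by
    rw [le_div_iff₀ (by positivity)]
    linarith
  obtain ⟨P, hP⟩ : ∃ P : (cvz (1 / (2 * pd.R)) hr)[X],
    P = ∏ i ∈ S, (X - C (⟨pd.x i, sfa_gr pd i⟩ : cvz (1 / (2 * pd.R)) hr)) := ⟨_, rfl⟩
  have h1 : P.map (cvz (1 / (2 * pd.R)) hr).subtype = ∏ i ∈ S, (X - C (pd.x i)) := by
    rw [hP, Polynomial.map_prod]
    refine Finset.prod_congr rfl fun i _ => ?_
    rw [Polynomial.map_sub, Polynomial.map_X, Polynomial.map_C]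
    rfl
  have h2 : P.map (evH (1 / (2 * pd.R)) hr T0 hT) = ∏ i ∈ S, (X - C (evz T0 (pd.x i))) := by
    rw [hP, Polynomial.map_prod]
    refine Finset.prod_congr rfl fun i _ => ?_
    rw [Polynomial.map_sub, Polynomial.map_X, Polynomial.map_C]
    rfl
  have h3 : ∀ k, evz T0 ((∏ i ∈ S, (X - C (pd.x i))).coeff k) =
      (P.map (evH (1 / (2 * pd.R)) hr T0 hT)).coeff k := by
    intro k
    rw [← h1, Polynomial.coeff_map, Polynomial.coeff_map]
    rfl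
  have h4 : (P.map (evH (1 / (2 * pd.R)) hr T0 hT)).natDegree < m + 1 := by
    rw [h2, natDegree_finsetProd_X_sub_C_eq_card]
    omega
  have h5 : (P.map (evH (1 / (2 * pd.R)) hr T0 hT)).eval y = ∏ i ∈ S, (y - evz T0 (pd.x i)) := by
    rw [h2, eval_prod]
    refine Finset.prod_congr rfl fun i _ => ?_
    rw [eval_sub, eval_X, eval_C]
  rw [← h5, eval_eq_sum_range' h4]
  exact sum_congr rfl fun k _ => by rw [h3]

/-- clearing the denominator of a root -/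
private theorem sma_clear {A : Type} [CommRing A] {V α β : A} (hV : α * V = β) (c : ℕ → A) (m : ℕ)
    (h : ∑ k ∈ range (m + 1), c k * V ^ k = 0) :
    ∑ k ∈ range (m + 1), c k * β ^ k * α ^ (m - k) = 0 := by
  have h1 : α ^ m * ∑ k ∈ range (m + 1), c k * V ^ k =
      ∑ k ∈ range (m + 1), c k * β ^ k * α ^ (m - k) := by
    rw [Finset.mul_sum]
    refine sum_congr rfl fun k hk => ?_
    rw [mem_range] at hk
    have h2 : α ^ m = α ^ (m - k) * α ^ k := by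
      rw [← pow_add]
      congr 1
      omega
    rw [h2, ← hV, mul_pow]
    ring
  rw [← h1, h, mul_zero]

theorem sma {g : ℤ[X][X]} {d : ℕ} (pd : PData g d) (S : Finset (Fin d)) {G : (PowerSeries ℂ)[X]}
    (hG : G.map (tqS pd.e (pe_ne pd) pd.q) = ∏ i ∈ S, (X - C (pd.x i)))
    {z V α β : PowerSeries ℂ} (hz : PowerSeries.constantCoeff z = 0) {r : ℝ} (hr : 0 ≤ r)
    {T1 T0 : ℂ} (hT1 : ‖T1‖ ≤ r) (hzr : Gr r z)
    (hzn : nrm r z ≤ ((pd.q : ℝ) / (2 * pd.R)) ^ pd.e) (hα : Gr r α) (hβ : Gr r β)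
    (hV : α * V = β) (h0 : G.eval₂ (sbH hz) V = 0) (hα1 : evz T1 α ≠ 0) {y : ℂ}
    (hβ1 : evz T1 β = evz T1 α * y) (hT0 : evz T1 z = ((pd.q : ℂ) * T0) ^ pd.e)
    (hT0r : pd.R * ‖T0‖ ≤ 1 / 2) : ∃ i ∈ S, evz T0 (pd.x i) = y := by
  obtain ⟨m, hm⟩ : ∃ m, m = G.natDegree := ⟨_, rfl⟩
  have hcard : S.card ≤ m := by
    have h1 : (∏ i ∈ S, (X - C (pd.x i))).natDegree = S.card :=
      natDegree_finsetProd_X_sub_C_eq_card S pd.x
    rw [← h1, ← hG, hm]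
    exact natDegree_map_le
  have hGr : ∀ k, Gr r (sbH hz (G.coeff k)) := fun k =>
    (cps_gr hr hz (fac_gr pd S hG k) hzr hzn).1
  have hev : ∀ k, evz T1 (sbH hz (G.coeff k)) =
      evz T0 ((∏ i ∈ S, (X - C (pd.x i))).coeff k) := by
    intro k
    rw [cps_ev hr hz (fac_gr pd S hG k) hzr hzn hT1, hT0, ← tqS_ev (pe_ne pd) pd.q, ← hG,
      Polynomial.coeff_map]
  rw [eval₂_eq_sum_range, ← hm] at h0
  have h1 := sma_clear hV (fun k => sbH hz (G.coeff k)) m h0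
  -- evaluation
  obtain ⟨E, hE⟩ : ∃ E : cvz r hr →+* ℂ, E = evH r hr T1 hT1 := ⟨_, rfl⟩
  have hEa : ∀ w : cvz r hr, E w = evz T1 w.1 := fun w => by
    rw [hE]
    exact evH_apply r hr T1 hT1 w
  have h2 : ∑ k ∈ range (m + 1), (⟨sbH hz (G.coeff k), hGr k⟩ : cvz r hr) *
      (⟨β, hβ⟩ : cvz r hr) ^ k * (⟨α, hα⟩ : cvz r hr) ^ (m - k) = 0 := by
    apply Subtype.ext
    have h3 := map_sum (cvz r hr).subtype (fun k => (⟨sbH hz (G.coeff k), hGr k⟩ : cvz r hr) *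
      (⟨β, hβ⟩ : cvz r hr) ^ k * (⟨α, hα⟩ : cvz r hr) ^ (m - k)) (range (m + 1))
    refine h3.trans ?_
    refine Eq.trans ?_ h1
    refine sum_congr rfl fun k _ => ?_
    rw [map_mul, map_mul, map_pow, map_pow]
    rfl
  have h3 := congrArg E h2
  rw [map_sum, map_zero] at h3
  have h4 : (evz T1 α) ^ m * ∑ k ∈ range (m + 1),
      evz T0 ((∏ i ∈ S, (X - C (pd.x i))).coeff k) * y ^ k = 0 := by
    rw [← h3, Finset.mul_sum]
    refine sum_congr rfl fun k hk => ?_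
    rw [mem_range] at hk
    rw [map_mul, map_mul, map_pow, map_pow, hEa, hEa, hEa]
    show (evz T1 α) ^ m * (evz T0 ((∏ i ∈ S, (X - C (pd.x i))).coeff k) * y ^ k) =
      evz T1 (sbH hz (G.coeff k)) * (evz T1 β) ^ k * (evz T1 α) ^ (m - k)
    have h5 : (evz T1 α) ^ m = (evz T1 α) ^ (m - k) * (evz T1 α) ^ k := by
      rw [← pow_add]
      congr 1
      omega
    rw [hev, hβ1, h5, mul_pow]
    ring
  rcases mul_eq_zero.1 h4 with h5 | h5
  · exact absurd (eq_zero_of_pow_eq_zero h5) hα1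
  · rw [sma_prod pd S hT0r y hcard] at h5
    obtain ⟨i, hi, h6⟩ := Finset.prod_eq_zero_iff.1 h5
    exact ⟨i, hi, (sub_eq_zero.1 h6).symm⟩

end Pool.Agent.H97.FB
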