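import Pool.Agent.H97.FB.SDef
import Pool.Agent.H52.AC.PRM

/-! # [H97 FB SFA] Factors over `ℂ⟦t⟧`, `t = (q T)^e`

`tqS_coeff`: `coeff_exr`, `PowerSeries.coeff_rescale`. `tqS_inj`: compare the coefficients of index `e n`; `q ≠ 0`. `tqS_tq`: both sides are ring homomorphisms in `p : ℤ[X]` (`Polynomial.ringHom_ext`), on `X`: `tqS X = (C q * X)^e`.
`exists_fac`: let `P = ∏_(i ∈ S) (X - C (x i))`, `c_k = P.coeff k`. For `ζ^e = 1`, `ζ ≠ 0`: `P.map (rescale ζ) = P`: for `i ∈ S` the series `rescale ζ (x i)` is `x j` for some `j ∈ S` (`perm_rot pd hζ` of `H52/AC/PRM.lean` gives a permutation `ρ`, `Rst` gives `ρ i ∈ S`, so `ρ` permutes `S`: `Finset.prod_bij` or `S.map ρ = S`).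
So `rescale ζ c_k = c_k`, i.e. `ζ^l (coeff l c_k) = coeff l c_k` for all `ζ` with `ζ^e = 1`; if `e ∤ l` take a primitive root of unity (`Complex.isPrimitiveRoot_exp`, `IsPrimitiveRoot.pow_eq_one_iff_dvd`): `coeff l c_k = 0`. Define `c'_k = mk (fun n => coeff (e n) c_k / q^(e n))`: `tqS c'_k = c_k`. So `P` lies in the range of `Polynomial.mapRingHom tqS`
(`Polynomial.lifts_iff_coeff_lifts`, `lifts_and_natDegree_eq_and_monic` as at the end of `TWR.lean`).
`gr_tqS`: `‖coeff (e n) (tqS a)‖ r^(e n) = ‖coeff n a‖ ((q r)^e)^n`, the other coefficients vanish; `Summable` over the image of the injective map `n ↦ e n` (`Function.Injective.summable_iff`). `tqS_ev`: the same for `tsum` (`Function.Injective.tsum_eq`).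
`fac_gr`: the coefficients of `∏ (X - C (x i))` are sums of products of the `x i`, and `x i ∈ cvz r` for `r = 1/(2R)` (`gr_of_le` with `growth`): the polynomial has coefficients in the subring `cvz r` (`Subring`: `Polynomial.lifts`, or induction over `S` on the statement that all coefficients of `∏` lie in `cvz r`: `coeff_mul_X_sub_C` and `coeff_mul_C`).
Then `gr_tqS` with `(q r)^e = (q/(2R))^e`. -/

namespace Pool.Agent.H97.FB

open Finset Polynomial Pool.Agent.H87.SA2 Pool.Agent.H8.AW Pool.Agent.H52.AC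

theorem tqS_coeff {e : ℕ} (he : e ≠ 0) (q : ℕ) (a : PowerSeries ℂ) (n : ℕ) :
    PowerSeries.coeff n (tqS e he q a) =
      if e ∣ n then (q : ℂ) ^ n * PowerSeries.coeff (n / e) a else 0 := by
  unfold tqS
  rw [RingHom.comp_apply, PowerSeries.coeff_rescale, coeff_exr]
  split_ifs
  · rfl
  · rw [mul_zero]

private theorem sfa_coeff {e : ℕ} (he : e ≠ 0) (q : ℕ) (a : PowerSeries ℂ) (n : ℕ) :
    PowerSeries.coeff (e * n) (tqS e he q a) = (q : ℂ) ^ (e * n) * PowerSeries.coeff n a := by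
  rw [tqS_coeff, if_pos (dvd_mul_right e n), Nat.mul_div_cancel_left n (Nat.pos_of_ne_zero he)]

theorem tqS_inj {e : ℕ} (he : e ≠ 0) {q : ℕ} (hq : 1 ≤ q) : Function.Injective (tqS e he q) := by
  intro a b hab
  ext n
  have h1 := congrArg (PowerSeries.coeff (e * n)) hab
  rw [sfa_coeff, sfa_coeff] at h1
  have hq0 : (q : ℂ) ≠ 0 := by
    rw [Nat.cast_ne_zero]
    omega
  exact mul_left_cancel₀ (pow_ne_zero _ hq0) h1

theorem tqS_tq {e : ℕ} (he : e ≠ 0) (q : ℕ) (p : ℤ[X]) :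
    tqS e he q (p.eval₂ (Int.castRingHom (PowerSeries ℂ)) PowerSeries.X) = tq e q p := by
  have h : (tqS e he q).comp (eval₂RingHom (Int.castRingHom (PowerSeries ℂ)) PowerSeries.X) =
      tq e q := by
    apply Polynomial.ringHom_ext
    · intro a
      simp [tq]
    · rw [RingHom.comp_apply, coe_eval₂RingHom, eval₂_X, tq, coe_eval₂RingHom, eval₂_X]
      unfold tqS
      rw [RingHom.comp_apply, exr_X, map_pow, PowerSeries.rescale_X]
  exact RingHom.congr_fun h p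

private theorem sfa_mulinj {e : ℕ} (he : e ≠ 0) : Function.Injective (fun n : ℕ => e * n) :=
  fun a b h => Nat.eq_of_mul_eq_mul_left (Nat.pos_of_ne_zero he) h

private theorem sfa_out {e : ℕ} {n : ℕ} (h : n ∉ Set.range (fun n : ℕ => e * n)) : ¬ e ∣ n := by
  rintro ⟨m, rfl⟩
  exact h ⟨m, rfl⟩

theorem gr_tqS {e : ℕ} (he : e ≠ 0) (q : ℕ) {r : ℝ} (hr : 0 ≤ r) (a : PowerSeries ℂ) :
    Gr r (tqS e he q a) ↔ Gr (((q : ℝ) * r) ^ e) a := by
  unfold Gr
  have h1 := (sfa_mulinj he).summable_iff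
    (f := fun m => ‖PowerSeries.coeff m (tqS e he q a)‖ * r ^ m) (fun m hm => by
      rw [tqS_coeff, if_neg (sfa_out hm), norm_zero, zero_mul])
  rw [← h1]
  refine summable_congr fun n => ?_
  show ‖PowerSeries.coeff (e * n) (tqS e he q a)‖ * r ^ (e * n) = _
  rw [sfa_coeff, norm_mul, norm_pow, Complex.norm_natCast, ← pow_mul, mul_pow]
  ring

theorem tqS_ev {e : ℕ} (he : e ≠ 0) (q : ℕ) (a : PowerSeries ℂ) (T : ℂ) :
    evz T (tqS e he q a) = evz (((q : ℂ) * T) ^ e) a := by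
  unfold evz
  have h1 := (sfa_mulinj he).tsum_eq
    (f := fun m => PowerSeries.coeff m (tqS e he q a) * T ^ m) (fun m hm => by
      rw [Function.mem_support] at hm
      by_contra hcon
      apply hm
      rw [tqS_coeff, if_neg (sfa_out hcon), zero_mul])
  rw [← h1]
  refine tsum_congr fun n => ?_
  rw [sfa_coeff, ← pow_mul, mul_pow]
  ring

theorem exists_fac {g : ℤ[X][X]} {d : ℕ} (pd : PData g d) (S : Finset (Fin d)) (hS : Rst pd S) :
    ∃ G : (PowerSeries ℂ)[X], G.Monic ∧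
      G.map (tqS pd.e (pe_ne pd) pd.q) = ∏ i ∈ S, (X - C (pd.x i)) := by
  obtain ⟨P, hP⟩ : ∃ P : (PowerSeries ℂ)[X], P = ∏ i ∈ S, (X - C (pd.x i)) := ⟨_, rfl⟩
  rw [← hP]
  have hPm : P.Monic := by
    rw [hP]
    exact monic_prod_of_monic _ _ fun i _ => monic_X_sub_C _
  have hrot : ∀ ζ : ℂ, ζ ^ pd.e = 1 → P.map (PowerSeries.rescale ζ) = P := by
    intro ζ hζ
    obtain ⟨ρ, hρ⟩ := perm_rot pd hζ
    have hS' : S.map ρ.toEmbedding = S := by
      apply Finset.eq_of_subset_of_card_le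
      · intro j hj
        obtain ⟨i, hi, rfl⟩ := Finset.mem_map.1 hj
        exact hS ζ hζ i hi _ (hρ i)
      · rw [Finset.card_map]
    have h1 : P.map (PowerSeries.rescale ζ) = ∏ i ∈ S, (X - C (pd.x (ρ i))) := by
      rw [hP, Polynomial.map_prod]
      refine Finset.prod_congr rfl fun i _ => ?_
      rw [Polynomial.map_sub, Polynomial.map_X, Polynomial.map_C, hρ]
    have h2 : ∏ i ∈ S.map ρ.toEmbedding, (X - C (pd.x i)) = ∏ i ∈ S, (X - C (pd.x (ρ i))) := by
      rw [Finset.prod_map]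
      rfl
    rw [h1, ← h2, hS', ← hP]
  have hc : ∀ k l, ¬ pd.e ∣ l → PowerSeries.coeff l (P.coeff k) = 0 := by
    intro k l hl
    obtain ⟨ζ, hζ⟩ : ∃ ζ : ℂ, IsPrimitiveRoot ζ pd.e :=
      ⟨_, Complex.isPrimitiveRoot_exp pd.e (pe_ne pd)⟩
    have h1 := congrArg (fun p => PowerSeries.coeff l (p.coeff k)) (hrot ζ hζ.pow_eq_one)
    simp only [Polynomial.coeff_map, PowerSeries.coeff_rescale] at h1
    have h2 : ζ ^ l ≠ 1 := fun h => hl ((hζ.pow_eq_one_iff_dvd l).1 h)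
    have h3 : (ζ ^ l - 1) * PowerSeries.coeff l (P.coeff k) = 0 := by
      rw [sub_mul, one_mul, h1, sub_self]
    rcases mul_eq_zero.1 h3 with h4 | h4
    · exact absurd (sub_eq_zero.1 h4) h2
    · exact h4
  have hq0 : (pd.q : ℂ) ≠ 0 := by
    have := pd.q_pos
    rw [Nat.cast_ne_zero]
    omega
  have hl : P ∈ Polynomial.lifts (tqS pd.e (pe_ne pd) pd.q) := by
    rw [Polynomial.lifts_iff_coeff_lifts]
    intro k
    refine ⟨PowerSeries.mk fun n => PowerSeries.coeff (pd.e * n) (P.coeff k) /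
      (pd.q : ℂ) ^ (pd.e * n), ?_⟩
    ext l
    rw [tqS_coeff]
    split_ifs with h
    · rw [PowerSeries.coeff_mk, Nat.mul_div_cancel' h, mul_div_cancel₀ _ (pow_ne_zero _ hq0)]
    · exact (hc k l h).symm
  obtain ⟨G, h1, -, h2⟩ := Polynomial.lifts_and_degree_eq_and_monic hl hPm
  exact ⟨G, h2, h1⟩

/-- the branches converge at radius `1 / (2 R)` -/
theorem sfa_gr {g : ℤ[X][X]} {d : ℕ} (pd : PData g d) (i : Fin d) :
    Gr (1 / (2 * pd.R)) (pd.x i) := by
  have hR := pd.R_ge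
  have hR0 : 0 < pd.R := by linarith
  refine gr_of_le (R := pd.R) (C := pd.R) hR0.le (by positivity) ?_ fun m => ?_
  · have h1 : pd.R * (1 / (2 * pd.R)) = 1 / 2 := by
      field_simp
    rw [h1]
    norm_num
  · rw [← pow_succ']
    exact pd.growth i m

/-- the coefficients of a partial product converge at radius `1 / (2 R)` -/
theorem sfa_grc {g : ℤ[X][X]} {d : ℕ} (pd : PData g d) (S : Finset (Fin d)) (k : ℕ) :
    Gr (1 / (2 * pd.R)) ((∏ i ∈ S, (X - C (pd.x i))).coeff k) := by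
  have hR := pd.R_ge
  have hr : 0 ≤ 1 / (2 * pd.R) := by positivity
  obtain ⟨P, hP⟩ : ∃ P : (cvz (1 / (2 * pd.R)) hr)[X],
    P = ∏ i ∈ S, (X - C (⟨pd.x i, sfa_gr pd i⟩ : cvz (1 / (2 * pd.R)) hr)) := ⟨_, rfl⟩
  have h1 : P.map (cvz (1 / (2 * pd.R)) hr).subtype = ∏ i ∈ S, (X - C (pd.x i)) := by
    rw [hP, Polynomial.map_prod]
    refine Finset.prod_congr rfl fun i _ => ?_
    rw [Polynomial.map_sub, Polynomial.map_X, Polynomial.map_C]
    rfl
  rw [← h1, Polynomial.coeff_map]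
  exact (P.coeff k).2

theorem fac_gr {g : ℤ[X][X]} {d : ℕ} (pd : PData g d) (S : Finset (Fin d))
    {G : (PowerSeries ℂ)[X]}
    (hG : G.map (tqS pd.e (pe_ne pd) pd.q) = ∏ i ∈ S, (X - C (pd.x i))) (k : ℕ) :
    Gr (((pd.q : ℝ) / (2 * pd.R)) ^ pd.e) (G.coeff k) := by
  have hR := pd.R_ge
  have hr : 0 ≤ 1 / (2 * pd.R) := by positivity
  have h1 := sfa_grc pd S k
  rw [← hG, Polynomial.coeff_map, gr_tqS (pe_ne pd) pd.q hr, mul_one_div] at h1
  exact h1

end Pool.Agent.H97.FB
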