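import Pool.Agent.H97.FB.SGA
import Pool.Agent.H97.FB.SFA

/-! # [H97 FB SMB] Conjugation of a factor; two disjoint factors have no common root

`smb_sg`: `coeff k (∏_(i ∈ S) (X - C (x i)))` and `coeff k (∏_(i ∈ S) (X - C (x (π i))))` are `SG`-related: write `x i = map (AA → ℂ) v_i`, `x (π i) = map σ v_i`, both products are images of `∏ (X - C v_i)` over `PowerSeries AA`. `∏_(i ∈ S) (X - C (x (π i))) = ∏_(j ∈ S.map π) ..` (`Finset.prod_map`).
Then pass from `T` to `t` (`tqS_coeff`: `coeff (e n) (tqS a) = q^(e n) coeff n a`, so `coeff n (G.coeff k) = coeff (e n) (..) / q^(e n)`; division by the natural number `q^(e n)` commutes with `σ`). Use `sg_of_cj` and `SG.cj`.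
`smb_move`: `∑_k (sbH g_k) V^k = 0`. `SG.sb`, `SG.mul`, `SG.pow`, `SG.sum`: this sum is `SG`-related to `∑_k (sbH' g'_k) (rescale ω V)^k` where `sbH'` substitutes `rescale ω z` (constant coefficient `0`); so the latter is `0` (`SG.unique` with `SG σ 0 0`). It equals `rescale ω (∑_k (sbH g'_k) V^k)`: `rescale ω (sbH hz a) = sbH hz' a`
(compare `sbH_coeff`: `coeff k ((rescale ω z)^n) = ω^k coeff k (z^n)`, `map_pow`, `coeff_rescale`). `rescale ω` is injective for `ω ≠ 0`. (`G` and `G'` have the same degree: both sums may be taken over `range (max .. + 1)`, `eval₂_eq_sum_range'`.)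
`smb_disj`: `K` = the factor of the complement of `S ∪ S'` (`exists_fac`; the complement of a rotation stable set is rotation stable: if `rescale ζ (x i) = x j` and `j ∈ S` then `rescale ζ⁻¹ (x j) = x i`, so `i ∈ S`). `G * G' * K` and `g.map φ`, `φ p = p.eval₂ (Int.castRingHom _) X`, have the same image under `map tqS` (`pd.split`, `tqS_tq`), so they are equal (`tqS_inj`).
Put `E = eval₂RingHom (sbH hz) V`. `E G = E G' = 0`, so `E (g.map φ) = 0` and `E (derivative (g.map φ)) = 0` (`derivative_mul`). Apply `E ∘ map φ` to `u * g + v * derivative g = C c`: `0 = E (C (φ c)) = sbH hz (φ c)`, so `φ c = 0` (`sbH_inj`, `z ≠ 0`), `c = 0` (`coeff n (φ c) = c.coeff n`). Contradiction. -/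

namespace Pool.Agent.H97.FB

open Finset Polynomial Pool.Agent.H87.SA2 Pool.Agent.H8.AW Pool.Agent.H52.AC

/-- from `T` to `t` -/
private theorem smb_down {e : ℕ} (he : e ≠ 0) {q : ℕ} (hq : 1 ≤ q) {σ : AA →+* ℂ}
    {a b : PowerSeries ℂ} (h : SG σ (tqS e he q a) (tqS e he q b)) : SG σ a b := by
  have hq0 : (q : ℂ) ≠ 0 := by
    have : q ≠ 0 := by omega
    exact_mod_cast this
  have hc : ∀ (c : PowerSeries ℂ) (n : ℕ), PowerSeries.coeff (e * n) (tqS e he q c) =
      (q : ℂ) ^ (e * n) * PowerSeries.coeff n c := by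
    intro c n
    rw [tqS_coeff, if_pos (dvd_mul_right e n), Nat.mul_div_cancel_left n (Nat.pos_of_ne_zero he)]
  have hqA : ∀ m : ℕ, ((((q : AA) ^ m : AA)) : ℂ) = (q : ℂ) ^ m := by
    intro m
    have h1 : algebraMap AA ℂ ((q : AA) ^ m) = (q : ℂ) ^ m := by
      rw [map_pow, map_natCast]
    exact h1
  have hqσ : ∀ m : ℕ, σ ((q : AA) ^ m) = (q : ℂ) ^ m := by
    intro m
    rw [map_pow, map_natCast]
  refine sg_of_cj (fun n => ?_) (fun n a' ha' => ?_)
  · have h1 := h.alg (e * n)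
    rw [hc] at h1
    have h2 : ((((q : AA) ^ (e * n))⁻¹ * ⟨_, h1⟩ : AA) : ℂ) = PowerSeries.coeff n a := by
      have h3 : algebraMap AA ℂ (((q : AA) ^ (e * n))⁻¹ * ⟨_, h1⟩) = PowerSeries.coeff n a := by
        rw [map_mul, map_inv₀]
        change ((((q : AA) ^ (e * n) : AA)) : ℂ)⁻¹ *
          ((q : ℂ) ^ (e * n) * PowerSeries.coeff n a) = _
        rw [hqA, inv_mul_cancel_left₀ (pow_ne_zero _ hq0)]
      exact h3
    rw [← h2]
    exact Subtype.prop _
  · have h1 := h.cj (e * n)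
    rw [hc, hc] at h1
    have h2 := h1 ((q : AA) ^ (e * n) * a') (by
      have h3 : algebraMap AA ℂ ((q : AA) ^ (e * n) * a') =
          (q : ℂ) ^ (e * n) * PowerSeries.coeff n a := by
        rw [map_mul]
        change ((((q : AA) ^ (e * n) : AA)) : ℂ) * (a' : ℂ) = _
        rw [hqA, ha']
      exact h3)
    rw [map_mul, hqσ] at h2
    exact mul_left_cancel₀ (pow_ne_zero _ hq0) h2

private theorem smb_rescale {z : PowerSeries ℂ} (hz : PowerSeries.constantCoeff z = 0) {ω : ℂ}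
    (hz' : PowerSeries.constantCoeff (PowerSeries.rescale ω z) = 0) (a : PowerSeries ℂ) :
    sbH hz' a = PowerSeries.rescale ω (sbH hz a) := by
  ext k
  rw [PowerSeries.coeff_rescale, sbH_coeff, sbH_coeff, Finset.mul_sum]
  refine Finset.sum_congr rfl fun n _ => ?_
  rw [← map_pow, PowerSeries.coeff_rescale]
  ring

/-- polynomials as power series -/
private noncomputable def smbφ : ℤ[X] →+* PowerSeries ℂ :=
  eval₂RingHom (Int.castRingHom (PowerSeries ℂ)) PowerSeries.X

private theorem smb_inj {c : ℤ[X]} (h : smbφ c = 0) : c = 0 := by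
  have h1 : smbφ = (Polynomial.coeToPowerSeries.ringHom (R := ℂ)).comp
      (mapRingHom (Int.castRingHom ℂ)) := by
    apply Polynomial.ringHom_ext
    · intro n
      simp [smbφ]
    · simp [smbφ]
  rw [h1, RingHom.comp_apply, Polynomial.coeToPowerSeries.ringHom_apply] at h
  have h2 : mapRingHom (Int.castRingHom ℂ) c = 0 := by
    apply Polynomial.coe_injective ℂ
    rw [h, Polynomial.coe_zero]
  rw [coe_mapRingHom] at h2
  exact Polynomial.map_injective _ Int.cast_injective (by rw [h2, Polynomial.map_zero])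

private theorem smb_map {g : ℤ[X][X]} {d : ℕ} (pd : PData g d) {P : (PowerSeries ℂ)[X]}
    (hP : P.map (tqS pd.e (pe_ne pd) pd.q) = ∏ i, (X - C (pd.x i))) : P = g.map smbφ := by
  apply Polynomial.map_injective _ (tqS_inj (pe_ne pd) pd.q_pos)
  rw [hP, ← pd.split, Polynomial.map_map]
  congr 1
  refine RingHom.ext fun p => ?_
  rw [RingHom.comp_apply]
  exact (tqS_tq (pe_ne pd) pd.q p).symm

private theorem smb_comp {z : PowerSeries ℂ} (hz : PowerSeries.constantCoeff z = 0) :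
    (sbH hz).comp smbφ = eval₂RingHom (Int.castRingHom (PowerSeries ℂ)) z := by
  apply Polynomial.ringHom_ext
  · intro n
    simp [smbφ]
  · simp [smbφ, sbH_X]

private theorem smb_rst {g : ℤ[X][X]} {d : ℕ} (pd : PData g d) {S S' : Finset (Fin d)}
    (hS : Rst pd S) (hS' : Rst pd S') : Rst pd (S ∪ S')ᶜ := by
  intro ζ hζ i hi j hij
  have hζ0 : ζ ≠ 0 := by
    rintro rfl
    rw [zero_pow (pe_ne pd)] at hζ
    exact zero_ne_one hζ
  have h1 : PowerSeries.rescale ζ⁻¹ (pd.x j) = pd.x i := by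
    rw [← hij, PowerSeries.rescale_rescale, mul_inv_cancel₀ hζ0, PowerSeries.rescale_one]
    rfl
  have h2 : ζ⁻¹ ^ pd.e = 1 := by rw [inv_pow, hζ, inv_one]
  rw [Finset.mem_compl] at hi ⊢
  intro hj
  apply hi
  rcases Finset.mem_union.1 hj with hj | hj
  · exact Finset.mem_union_left _ (hS _ h2 j hj i h1)
  · exact Finset.mem_union_right _ (hS' _ h2 j hj i h1)

theorem smb_sg {g : ℤ[X][X]} {d : ℕ} (pd : PData g d) {σ : AA →+* ℂ} {π : Equiv.Perm (Fin d)}
    (hπ : ∀ i, SG σ (pd.x i) (pd.x (π i))) (S : Finset (Fin d)) {G G' : (PowerSeries ℂ)[X]}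
    (hG : G.map (tqS pd.e (pe_ne pd) pd.q) = ∏ i ∈ S, (X - C (pd.x i)))
    (hG' : G'.map (tqS pd.e (pe_ne pd) pd.q) = ∏ i ∈ S.map π.toEmbedding, (X - C (pd.x i)))
    (k : ℕ) : SG σ (G.coeff k) (G'.coeff k) := by
  choose v hv1 hv2 using hπ
  apply smb_down (pe_ne pd) pd.q_pos
  refine ⟨(∏ i ∈ S, (X - C (v i))).coeff k, ?_, ?_⟩
  · rw [← Polynomial.coeff_map, ← Polynomial.coeff_map, hG, Polynomial.map_prod]
    congr 1
    refine Finset.prod_congr rfl fun i _ => ?_
    rw [Polynomial.map_sub, Polynomial.map_X, Polynomial.map_C, hv1]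
  · rw [← Polynomial.coeff_map, ← Polynomial.coeff_map, hG', Polynomial.map_prod,
      Finset.prod_map]
    congr 1
    refine Finset.prod_congr rfl fun i _ => ?_
    rw [Polynomial.map_sub, Polynomial.map_X, Polynomial.map_C, hv2]
    rfl

theorem smb_move {G G' : (PowerSeries ℂ)[X]} {σ : AA →+* ℂ}
    (hGG : ∀ k, SG σ (G.coeff k) (G'.coeff k)) {z V : PowerSeries ℂ}
    (hz : PowerSeries.constantCoeff z = 0) {ω : ℂ} (hω : ω ≠ 0)
    (hσz : SG σ z (PowerSeries.rescale ω z)) (hσV : SG σ V (PowerSeries.rescale ω V))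
    (h : G.eval₂ (sbH hz) V = 0) : G'.eval₂ (sbH hz) V = 0 := by
  have hz' : PowerSeries.constantCoeff (PowerSeries.rescale ω z) = 0 := by
    rw [← PowerSeries.coeff_zero_eq_constantCoeff_apply, PowerSeries.coeff_rescale, pow_zero,
      one_mul, PowerSeries.coeff_zero_eq_constantCoeff_apply, hz]
  obtain ⟨N, hN⟩ : ∃ N, N = max G.natDegree G'.natDegree + 1 := ⟨_, rfl⟩
  have hev : ∀ (P : (PowerSeries ℂ)[X]), P.natDegree < N → P.eval₂ (sbH hz) V =
      ∑ k ∈ range N, sbH hz (P.coeff k) * V ^ k := by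
    intro P hP
    exact Polynomial.eval₂_eq_sum_range' _ hP V
  have h1 : SG σ (∑ k ∈ range N, sbH hz (G.coeff k) * V ^ k)
      (∑ k ∈ range N, sbH hz' (G'.coeff k) * (PowerSeries.rescale ω V) ^ k) :=
    SG.sum _ fun k _ => (SG.sb hz hz' hσz (hGG k)).mul (hσV.pow k)
  rw [← hev G (by rw [hN]; omega), h] at h1
  have h2 : SG σ 0 0 := ⟨0, map_zero _, map_zero _⟩
  have h3 := h1.unique h2
  have hinj : Function.Injective (PowerSeries.rescale ω : PowerSeries ℂ →+* PowerSeries ℂ) := by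
    intro a b hab
    ext m
    have h4 := congrArg (PowerSeries.coeff m) hab
    rw [PowerSeries.coeff_rescale, PowerSeries.coeff_rescale] at h4
    exact mul_left_cancel₀ (pow_ne_zero m hω) h4
  apply hinj
  rw [map_zero, hev G' (by rw [hN]; omega), map_sum, ← h3]
  refine Finset.sum_congr rfl fun k _ => ?_
  rw [map_mul, map_pow, smb_rescale hz hz']

theorem smb_disj {g : ℤ[X][X]} {d : ℕ} (pd : PData g d) {u v : ℤ[X][X]} {c : ℤ[X]} (hc : c ≠ 0)
    (hbez : u * g + v * derivative g = C c) {S S' : Finset (Fin d)} (hS : Rst pd S)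
    (hS' : Rst pd S') (hd : Disjoint S S') {G G' : (PowerSeries ℂ)[X]}
    (hG : G.map (tqS pd.e (pe_ne pd) pd.q) = ∏ i ∈ S, (X - C (pd.x i)))
    (hG' : G'.map (tqS pd.e (pe_ne pd) pd.q) = ∏ i ∈ S', (X - C (pd.x i)))
    {z V : PowerSeries ℂ} (hz : PowerSeries.constantCoeff z = 0) (hz0 : z ≠ 0)
    (h : G.eval₂ (sbH hz) V = 0) (h' : G'.eval₂ (sbH hz) V = 0) : False := by
  obtain ⟨K, -, hK⟩ := exists_fac pd (S ∪ S')ᶜ (smb_rst pd hS hS')
  have hprod : G * G' * K = g.map smbφ := by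
    apply smb_map pd
    rw [Polynomial.map_mul, Polynomial.map_mul, hG, hG', hK, ← Finset.prod_union hd,
      Finset.prod_mul_prod_compl]
  obtain ⟨E, hE⟩ : ∃ E : (PowerSeries ℂ)[X] →+* PowerSeries ℂ, E = eval₂RingHom (sbH hz) V :=
    ⟨_, rfl⟩
  have hEG : E G = 0 := by rw [hE]; exact h
  have hEG' : E G' = 0 := by rw [hE]; exact h'
  have hEg : E (g.map smbφ) = 0 := by
    rw [← hprod, map_mul, map_mul, hEG, zero_mul, zero_mul]
  have hEd : E ((derivative g).map smbφ) = 0 := by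
    rw [← Polynomial.derivative_map, ← hprod, derivative_mul, derivative_mul]
    simp only [map_add, map_mul, hEG, hEG', zero_mul, mul_zero, add_zero]
  have h1 := congrArg (fun P => E (Polynomial.map smbφ P)) hbez
  simp only [Polynomial.map_add, Polynomial.map_mul, map_add, map_mul, hEg, hEd, mul_zero,
    add_zero, Polynomial.map_C] at h1
  have h2 : sbH hz (smbφ c) = 0 := by
    rw [h1, hE, coe_eval₂RingHom, eval₂_C]
  have h3 : smbφ c = 0 := sbH_inj hz hz0 (by rw [h2, map_zero])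
  exact hc (smb_inj h3)

/-- a factor of a stable set and its complement -/
theorem smb_split {g : ℤ[X][X]} {d : ℕ} (pd : PData g d) {S : Finset (Fin d)}
    {G G' : (PowerSeries ℂ)[X]}
    (hG : G.map (tqS pd.e (pe_ne pd) pd.q) = ∏ i ∈ S, (X - C (pd.x i)))
    (hG' : G'.map (tqS pd.e (pe_ne pd) pd.q) = ∏ i ∈ Sᶜ, (X - C (pd.x i)))
    {z V : PowerSeries ℂ} (hz : PowerSeries.constantCoeff z = 0)
    (h : g.eval₂ (eval₂RingHom (Int.castRingHom (PowerSeries ℂ)) z) V = 0) :
    G.eval₂ (sbH hz) V = 0 ∨ G'.eval₂ (sbH hz) V = 0 := by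
  have hprod : G * G' = g.map smbφ := by
    apply smb_map pd
    rw [Polynomial.map_mul, hG, hG', Finset.prod_mul_prod_compl]
  have h1 : (g.map smbφ).eval₂ (sbH hz) V = 0 := by
    rw [Polynomial.eval₂_map, smb_comp hz]
    exact h
  rw [← hprod, eval₂_mul] at h1
  exact mul_eq_zero.1 h1

end Pool.Agent.H97.FB
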