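import Pool.Agent.H97.FB.SGA
import Pool.Agent.H52.AC.PRM
import Pool.Agent.H97.FB.SMA
import Pool.Agent.H97.FB.SMB
import Pool.Agent.H97.NW.PTF

/-! # [H97 FB SMT] Matching: an automorphism which fixes `(z, V)` up to a rotation fixes the near branch

`pd = P.C.pd`, `S = {j | ∃ ζ, ζ^e = 1, rescale ζ (x i) = x j}`, `i = P.i` (`Finset.univ.filter`, classical); `S` is rotation stable (`rescale ζ' (rescale ζ w) = rescale (ζ' ζ) w`), `i ∈ S` (`ζ = 1`); the complement is rotation stable (inverse root of unity). `exists_fac`: `G` for `S`, `G'` for `Sᶜ`.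
`smb_split`: one of them vanishes at `(z, V)`. If it is `G'`: `sma` with `T0 = P.T`, `y = P.y / P.x` gives `j ∉ S` with `evz P.T (x j) = P.y/P.x`, so `j = P.i ∈ S` by the last statement of `Ptd.facts` (`PTF.lean`): contradiction. (`evz T1 z = 1/x = (q T0)^e` by `P.hT`, `R ‖T0‖ ≤ 1/2` by `Ptd.facts`.)
So `G.eval₂ (sbH hz) V = 0`. `sg_perm`: `π`. `S' = S.map π` is rotation stable: for `j = π k`, `k ∈ S`, `ζ^e = 1`, `rescale ζ (x j) = x j'`: let `a : AA` be the root of unity with `σ a = ζ` (`au σ` is surjective; `a^e = 1`), `perm_rot` gives `k'` with `rescale a (x k) = x k'`, `k' ∈ S`; `sg_rescale` gives `SG σ (x k') (rescale ζ (x j)) = SG σ (x k') (x j')`, and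
`SG σ (x k') (x (π k'))`, so `x j' = x (π k')` (`SG.unique`), `j' = π k' ∈ S'`. `exists_fac` for `S'`: `G''`; `smb_sg`, `smb_move`: `G''` vanishes at `(z, V)`. If `S` and `S'` are disjoint: `smb_disj` (`P.C.bez`): contradiction. So there is `j ∈ S ∩ S'`: `x j = rescale ζ2 (x i)`, `j = π k`, `x k = rescale ζ1 (x i)`; `SG σ (x k) (x j)`;
`x i = rescale ζ1⁻¹ (x k)`, so (`sg_rescale` with `a1⁻¹`, `a1 : AA` the element `ζ1`, `rou_mem`) `SG σ (x i) (rescale (σ a1⁻¹) (x j)) = SG σ (x i) (rescale (σ a1⁻¹ * ζ2) (x i))`. Take `ζ = σ (a1⁻¹) * ζ2`. -/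

namespace Pool.Agent.H97.FB

open Finset Polynomial Pool.Agent.H87.SA2 Pool.Agent.H8.AW Pool.Agent.H52.AC Pool.Agent.H97.NW

private theorem smt_ne {ζ : ℂ} {e : ℕ} (he : e ≠ 0) (h : ζ ^ e = 1) : ζ ≠ 0 := by
  rintro rfl
  rw [zero_pow he] at h
  exact zero_ne_one h

private theorem smt_inv {ζ : ℂ} (h : ζ ≠ 0) (w : PowerSeries ℂ) :
    PowerSeries.rescale ζ⁻¹ (PowerSeries.rescale ζ w) = w := by
  rw [PowerSeries.rescale_rescale, mul_inv_cancel₀ h, PowerSeries.rescale_one]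
  rfl

private theorem smt_root (σ : AA →+* ℂ) {ζ : ℂ} {e : ℕ} (he : e ≠ 0) (h : ζ ^ e = 1) :
    ∃ a : AA, σ a = ζ ∧ (a : ℂ) ^ e = 1 := by
  have hm := rou_mem he h
  refine ⟨(au σ).symm ⟨ζ, hm⟩, ?_, ?_⟩
  · rw [← au_spec, AlgEquiv.apply_symm_apply]
  · have h1 : (⟨ζ, hm⟩ : AA) ^ e = 1 := by
      apply Subtype.ext
      exact h
    have h2 : ((au σ).symm ⟨ζ, hm⟩) ^ e = 1 := by
      rw [← map_pow, h1, map_one]
    have h3 := congrArg (fun a : AA => (a : ℂ)) h2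
    simpa using h3

theorem mat_core {n : ℕ} (hn : 4 ≤ n) (P : Ptd n) (hP : P.Thr (cA n)) {z V α β : PowerSeries ℂ}
    (hz : PowerSeries.constantCoeff z = 0) (hz0 : z ≠ 0)
    (hroot : (fI P.d P.F).eval₂ (eval₂RingHom (Int.castRingHom (PowerSeries ℂ)) z) V = 0)
    {r : ℝ} (hr : 0 ≤ r) {T1 : ℂ} (hT1 : ‖T1‖ ≤ r) (hzr : Gr r z)
    (hzn : nrm r z ≤ ((P.C.pd.q : ℝ) / (2 * P.C.pd.R)) ^ P.C.pd.e)
    (hz1 : evz T1 z = 1 / (P.x : ℂ)) (hα : Gr r α) (hβ : Gr r β) (hV : α * V = β)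
    (hα1 : evz T1 α ≠ 0) (hβ1 : evz T1 β = evz T1 α * ((P.y : ℂ) / (P.x : ℂ)))
    (σ : AA →+* ℂ) {ω : ℂ} (hω : ω ≠ 0) (hσz : SG σ z (PowerSeries.rescale ω z))
    (hσV : SG σ V (PowerSeries.rescale ω V)) :
    ∃ ζ : ℂ, ζ ^ P.C.pd.e = 1 ∧
      SG σ (P.C.pd.x P.i) (PowerSeries.rescale ζ (P.C.pd.x P.i)) := by
  classical
  have he := pe_ne P.C.pd
  obtain ⟨hf1, -, -, -, hx0, huniq⟩ := P.facts hn hP
  obtain ⟨S, hS⟩ : ∃ S : Finset (Fin P.d), S = Finset.univ.filter (fun j => ∃ ζ : ℂ,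
    ζ ^ P.C.pd.e = 1 ∧ PowerSeries.rescale ζ (P.C.pd.x P.i) = P.C.pd.x j) := ⟨_, rfl⟩
  have hmem : ∀ j, j ∈ S ↔ ∃ ζ : ℂ, ζ ^ P.C.pd.e = 1 ∧
      PowerSeries.rescale ζ (P.C.pd.x P.i) = P.C.pd.x j := by
    intro j
    rw [hS, Finset.mem_filter]
    exact ⟨fun h => h.2, fun h => ⟨Finset.mem_univ _, h⟩⟩
  have hiS : P.i ∈ S := (hmem _).2 ⟨1, one_pow _, by rw [PowerSeries.rescale_one]; rfl⟩
  have hSr : Rst P.C.pd S := by
    intro ζ hζ i hi j hij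
    obtain ⟨ζ', h1, h2⟩ := (hmem i).1 hi
    refine (hmem j).2 ⟨ζ' * ζ, by rw [mul_pow, h1, hζ, one_mul], ?_⟩
    rw [← hij, ← h2, PowerSeries.rescale_rescale]
  have hScr : Rst P.C.pd Sᶜ := by
    intro ζ hζ i hi j hij
    rw [Finset.mem_compl] at hi ⊢
    intro hj
    refine hi (hSr ζ⁻¹ (by rw [inv_pow, hζ, inv_one]) j hj i ?_)
    rw [← hij, smt_inv (smt_ne he hζ)]
  obtain ⟨G, hGm, hG⟩ := exists_fac P.C.pd S hSr
  obtain ⟨G', hG'm, hG'⟩ := exists_fac P.C.pd Sᶜ hScr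
  have hG0 : G.eval₂ (sbH hz) V = 0 := by
    rcases smb_split P.C.pd hG hG' hz hroot with h | h
    · exact h
    · exfalso
      have hxC : (P.x : ℂ) ≠ 0 := by exact_mod_cast hx0
      have hT0 : evz T1 z = ((P.C.pd.q : ℂ) * P.T) ^ P.C.pd.e := by
        rw [hz1, eq_comm, eq_div_iff hxC]
        exact P.hT
      obtain ⟨j, hj, hj2⟩ := sma P.C.pd Sᶜ hG' hz hr hT1 hzr hzn hα hβ hV h hα1 hβ1 hT0 hf1
      have h2 := huniq j hj2
      rw [h2, Finset.mem_compl] at hj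
      exact hj hiS
  obtain ⟨π, hπ⟩ := sg_perm P.C.pd σ
  obtain ⟨S', hS'⟩ : ∃ S' : Finset (Fin P.d), S' = S.map π.toEmbedding := ⟨_, rfl⟩
  have hmem' : ∀ j, j ∈ S' ↔ ∃ k ∈ S, π k = j := by
    intro j
    rw [hS', Finset.mem_map]
    rfl
  have hS'r : Rst P.C.pd S' := by
    intro ζ hζ j hj j' hjj
    obtain ⟨k, hk, hkj⟩ := (hmem' j).1 hj
    obtain ⟨a, ha, hae⟩ := smt_root σ he hζ
    obtain ⟨ρ, hρ⟩ := perm_rot P.C.pd hae
    have hk' : ρ k ∈ S := hSr (a : ℂ) hae k hk (ρ k) (hρ k)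
    have h1 := sg_rescale (hπ k) a
    rw [hρ k, ha, hkj, hjj] at h1
    have h2 := h1.unique (hπ (ρ k))
    exact (hmem' j').2 ⟨ρ k, hk', (P.C.pd.x_inj h2).symm⟩
  obtain ⟨G2, hG2m, hG2⟩ := exists_fac P.C.pd S' hS'r
  have hGG := smb_sg P.C.pd hπ S hG (by rw [hG2, hS'])
  have hG20 := smb_move hGG hz hω hσz hσV hG0
  obtain ⟨u, v, c, hc, hbez, -, -⟩ := P.C.bez
  by_cases hd : Disjoint S S'
  · exact (smb_disj P.C.pd hc hbez hSr hS'r hd hG hG2 hz hz0 hG0 hG20).elim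
  · obtain ⟨j, hj1, hj2⟩ := Finset.not_disjoint_iff.1 hd
    obtain ⟨ζ2, hζ2, h2⟩ := (hmem j).1 hj1
    obtain ⟨k, hk, hkj⟩ := (hmem' j).1 hj2
    obtain ⟨ζ1, hζ1, h1⟩ := (hmem k).1 hk
    have hm1 := rou_mem he hζ1
    obtain ⟨a1, ha1⟩ : ∃ a1 : AA, a1 = ⟨ζ1, hm1⟩ := ⟨_, rfl⟩
    have ha1c : (a1 : ℂ) = ζ1 := by rw [ha1]
    have h3 := sg_rescale (hπ k) a1⁻¹
    rw [hkj] at h3
    have h4 : (((a1⁻¹ : AA)) : ℂ) = ζ1⁻¹ := by
      rw [← ha1c]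
      rfl
    rw [h4, ← h1, smt_inv (smt_ne he hζ1), ← h2, PowerSeries.rescale_rescale] at h3
    refine ⟨ζ2 * σ a1⁻¹, ?_, h3⟩
    have h5 : a1 ^ P.C.pd.e = 1 := by
      apply Subtype.ext
      rw [ha1]
      exact hζ1
    rw [mul_pow, hζ2, one_mul, ← map_pow, inv_pow, h5, inv_one, map_one]

end Pool.Agent.H97.FB
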