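import Pool.Agent.H97.FB.SPS
import Pool.Agent.H97.FB.SMT
import Pool.Agent.H72.ES.Mult
import Pool.Agent.H97.NW.COV

/-! # [H97 FB SPV] The near branch of `Q` lies over the near branch of `P`

`pd = Q.C.pd`, `j = Q.i`, `t = tq e q X`, `h = x j`, `T1 = Q.T`, `r = ‖T1‖`. `b : ℤ` is nonzero in `LaurentSeries ℂ` (characteristic zero). `X = ψ χ / b ∉ range`: otherwise `ψ χ = b X` is in the range. `invL`: `z0`, `pL z0 * ψ χ = 1`?? -- apply `invL` to `x = ψ χ / b`: `z` with `pL z * (ψ χ / b) = 1`, i.e. `pL z * ψ χ = b`. `hnorm z`: `Gr r z`, the norm bound.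
`Y = ψ υ / b`: `ev P.d (cst _ P.F) X Y = 0`: multiply `ψ (hF)` by `b^(-d)`: `∑ F_ij b^(d-i-j) (b X)^i (b Y)^j = b^d ∑ F_ij X^i Y^j` (`i + j ≤ d`). `rootL` (`P.C.lead`): `V`, `pL V * X = Y`, i.e. `pL V * ψ χ = ψ υ`.
`D.der`: `Pχ, Pυ` with `Lam (ι X) w f' * χ = Lam (ι X) w Pχ` etc., `f' = derivative (toP Q.d Q.F)`. `δ` with `HB δ` for `Pχ, Pυ, f'` (`exists_HB`). `α = hm δ Pχ t h`, `β = hm δ Pυ t h`, `γ = hm δ f' t h`. `hm_eq` in `LaurentSeries ℂ` (`U = ψ (ι X)`, `W = ψ w`, `cov_Lam`/`hom_eval₂`: `ψ (Lam (ι X) w P) = Lam U W P`): `pL α = t^δ (Lam U W f') ψ χ`, etc. So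
`α * V = β` (`pL` injective, `pL V * ψ χ = ψ υ`) and `α * z = b γ` (`pL z * ψ χ = b`).
VALUES: `evz T1 t = (q T1)^e = 1/u0 =: t1` (`Q.hT`; `t` is a polynomial), `evz T1 h = w0/u0` (`Q.hy`). `Gr r h`: `R r ≤ 1/2` (`Ptd.facts hν2 Q hQ`), `gr_of_le`. `hm_ev`, `hm_eq` in `ℂ` (`U = u0`, `W = w0`): `evz T1 α = t1^δ Lam u0 w0 Pχ` and `Lam u0 w0 Pχ` is the image in `ℂ` of `D.ev (Lam (ι X) w Pχ) = D.ev (Lam (ι X) w f') * D.ev χ = evy * b P.x`: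
`Lam u0 w0 (derivative (toP d F)) = evy d F u0 w0 ≠ 0` (`Ptd.facts`; the formula: `derivative` of `toP`). `P.x ≠ 0` (`Ptd.facts` for `P`). So `evz T1 α = t1^δ evy b P.x ≠ 0`, `evz T1 β = t1^δ evy b P.y = evz T1 α * (P.y/P.x)`, `evz T1 (α z) = b t1^δ evy` gives `evz T1 z = 1/P.x` (`evz_mul`).
CONJUGATION: `SG σ t t` (`sg_tq`), `SG σ h (rescale ω h)` (`hσ`), so `SG σ α (hm δ Pχ t (rescale ω h))` and `hm δ Pχ t (rescale ω h) = rescale ω α` (`hm_map`, `rescale ω t = t` as `ω^e = 1`). `SG.div` with `D = α ≠ 0`, `D' = rescale ω α`, `E = b γ`: `SG σ z (rescale ω z)`; with `E = β`: `SG σ V (rescale ω V)`.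
`mat_core` (`z ≠ 0`, `ω ≠ 0`). -/

namespace Pool.Agent.H97.FB

open Finset Polynomial Pool.Agent.H87.SA2 Pool.Agent.H8.AW Pool.Agent.H52.AC Pool.Agent.H97.NW
open Pool.Agent.H72.ES (ev cst toP Lam evy)
open Pool.Agent.H72.ES.MultAux (Lam_deriv_toP)

private theorem spv_cz : CharZero (LaurentSeries ℂ) :=
  charZero_of_injective_ringHom (f := (HahnSeries.C : ℂ →+* LaurentSeries ℂ))
    HahnSeries.C_injective

private theorem spv_tq (e q : ℕ) : tq e q X = (PowerSeries.C (q : ℂ) * PowerSeries.X) ^ e := by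
  unfold tq
  show eval₂ _ _ X = _
  rw [eval₂_X]

private theorem spv_gr (e q : ℕ) {r : ℝ} (hr : 0 ≤ r) : Gr r (tq e q X) := by
  rw [spv_tq]
  exact gr_pow hr (gr_mul hr (gr_C r _) (gr_X r)) e

private theorem spv_ev (e q : ℕ) {r : ℝ} (hr : 0 ≤ r) {T : ℂ} (hT : ‖T‖ ≤ r) :
    evz T (tq e q X) = ((q : ℂ) * T) ^ e := by
  rw [spv_tq]
  have h1 := map_pow (evH r hr T hT)
    ((⟨PowerSeries.C (q : ℂ), gr_C r _⟩ : cvz r hr) * ⟨PowerSeries.X, gr_X r⟩) e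
  rw [map_mul, evH_apply, evH_apply, evH_apply, evz_C, evz_X] at h1
  exact h1

private theorem spv_rC (ω c : ℂ) :
    PowerSeries.rescale ω (PowerSeries.C c) = PowerSeries.C c := by
  ext k
  rw [PowerSeries.coeff_rescale, PowerSeries.coeff_C]
  split_ifs with h
  · rw [h, pow_zero, one_mul]
  · rw [mul_zero]

private theorem spv_resc {ω : ℂ} {e : ℕ} (hω : ω ^ e = 1) (q : ℕ) :
    PowerSeries.rescale ω (tq e q X) = tq e q X := by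
  rw [spv_tq, map_pow, map_mul, spv_rC, PowerSeries.rescale_X]
  have h1 : PowerSeries.C (q : ℂ) * (PowerSeries.C ω * PowerSeries.X) =
      PowerSeries.C ω * (PowerSeries.C (q : ℂ) * PowerSeries.X) := by ring
  rw [h1, mul_pow, ← map_pow, hω, map_one, one_mul]

/-- the equation of the point over the field of Laurent series -/
private theorem spv_pt {A : Type} [CommRing A] (ψ : A →+* LaurentSeries ℂ) {d : ℕ}
    {F : ℕ → ℕ → ℤ} {χ υ : A} {b : ℤ} (hb : (b : LaurentSeries ℂ) ≠ 0)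
    (hF : ev d (fun i j => ((F i j * b ^ (d - i - j) : ℤ) : A)) χ υ = 0) :
    ev d (cst (LaurentSeries ℂ) F) (ψ χ / b) (ψ υ / b) = 0 := by
  have h1 : (b : LaurentSeries ℂ) ^ d * ev d (cst (LaurentSeries ℂ) F) (ψ χ / b) (ψ υ / b) =
      ψ (ev d (fun i j => ((F i j * b ^ (d - i - j) : ℤ) : A)) χ υ) := by
    unfold ev
    rw [mul_sum, map_sum]
    refine sum_congr rfl fun i hi => ?_
    rw [mul_sum, map_sum]
    refine sum_congr rfl fun j hj => ?_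
    rw [mem_range] at hi hj
    have h2 : (b : LaurentSeries ℂ) ^ d = (b : LaurentSeries ℂ) ^ (d - i - j) *
        (b : LaurentSeries ℂ) ^ i * (b : LaurentSeries ℂ) ^ j := by
      rw [← pow_add, ← pow_add]
      congr 1
      omega
    rw [map_mul, map_mul, map_pow, map_pow, map_intCast, h2]
    unfold cst
    push_cast
    rw [div_pow, div_pow]
    field_simp
  rw [hF, map_zero] at h1
  exact (mul_eq_zero.1 h1).resolve_left (pow_ne_zero _ hb)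

theorem fix_one {ν ν2 : ℕ} (hν : 4 ≤ ν) (hν2 : 4 ≤ ν2) (Q : Ptd ν2) (hQ : Q.Thr (cA ν2))
    (D : DomQ (toP Q.d Q.F) Q.x Q.y) (ψ : D.A →+* LaurentSeries ℂ)
    (hψ1 : ψ (D.ι X) * pL (tq Q.C.pd.e Q.C.pd.q X) = 1)
    (hψ2 : ψ D.w * pL (tq Q.C.pd.e Q.C.pd.q X) = pL (Q.C.pd.x Q.i)) (P : Ptd ν)
    (hP : P.Thr (cA ν)) (χ υ : D.A) (b : ℤ) (hb : b ≠ 0) (h1 : D.ev χ = b * P.x)
    (h2 : D.ev υ = b * P.y)
    (hF : ev P.d (fun i j => ((P.F i j * b ^ (P.d - i - j) : ℤ) : D.A)) χ υ = 0)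
    (hpole : ψ χ ∉ (pL).range)
    (hnorm : ∀ z : PowerSeries ℂ, PowerSeries.constantCoeff z = 0 →
      pL z * ψ χ = (b : LaurentSeries ℂ) → Gr ‖Q.T‖ z ∧
        nrm ‖Q.T‖ z ≤ ((P.C.pd.q : ℝ) / (2 * P.C.pd.R)) ^ P.C.pd.e)
    (σ : AA →+* ℂ) {ω : ℂ} (hω : ω ^ Q.C.pd.e = 1)
    (hσ : SG σ (Q.C.pd.x Q.i) (PowerSeries.rescale ω (Q.C.pd.x Q.i))) :
    ∃ ζ : ℂ, ζ ^ P.C.pd.e = 1 ∧
      SG σ (P.C.pd.x P.i) (PowerSeries.rescale ζ (P.C.pd.x P.i)) := by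
  have hcz := spv_cz
  have hinj : Function.Injective pL := HahnSeries.ofPowerSeries_injective
  have hbL : (b : LaurentSeries ℂ) ≠ 0 := by
    rw [Int.cast_ne_zero]
    exact hb
  have hbC : (b : ℂ) ≠ 0 := by exact_mod_cast hb
  have hpLb : pL (b : PowerSeries ℂ) = (b : LaurentSeries ℂ) := map_intCast pL b
  obtain ⟨t, ht⟩ : ∃ t, t = tq Q.C.pd.e Q.C.pd.q X := ⟨_, rfl⟩
  obtain ⟨h, hh⟩ : ∃ h, h = Q.C.pd.x Q.i := ⟨_, rfl⟩
  obtain ⟨r, hr⟩ : ∃ r, r = ‖Q.T‖ := ⟨_, rfl⟩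
  have hr0 : 0 ≤ r := by rw [hr]; exact norm_nonneg _
  rw [← ht] at hψ1 hψ2
  rw [← hh] at hψ2 hσ
  rw [← hr] at hnorm
  obtain ⟨q1, q2, -, -, q5, -⟩ := Q.facts hν2 hQ
  obtain ⟨-, -, -, -, p5, -⟩ := P.facts hν hP
  have hx0 : (P.x : ℂ) ≠ 0 := by exact_mod_cast p5
  have hu0 : (Q.x : ℂ) ≠ 0 := by exact_mod_cast q5
  -- the series z
  have hX : ψ χ / b ∉ (pL).range := by
    rintro ⟨y, hy⟩
    apply hpole
    refine ⟨(b : PowerSeries ℂ) * y, ?_⟩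
    rw [map_mul, hpLb, hy]
    field_simp
  obtain ⟨z, hz0, hzne, hzx⟩ := invL hX
  have hzχ : pL z * ψ χ = (b : LaurentSeries ℂ) := by
    rw [mul_div_assoc', div_eq_one_iff_eq hbL] at hzx
    exact hzx
  obtain ⟨hzr, hzn⟩ := hnorm z hz0 hzχ
  obtain ⟨V, hV, hroot⟩ := rootL P.C.lead (spv_pt ψ hbL hF) hzx
  have hVχ : pL V * ψ χ = ψ υ := by
    rw [mul_div_assoc', div_left_inj' hbL] at hV
    exact hV
  -- the derivative
  obtain ⟨f', hf'⟩ : ∃ f', f' = derivative (toP Q.d Q.F) := ⟨_, rfl⟩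
  obtain ⟨Pχ, hPχ⟩ := D.der χ
  obtain ⟨Pυ, hPυ⟩ := D.der υ
  rw [← hf'] at hPχ hPυ
  obtain ⟨δ1, hδ1⟩ := exists_HB Pχ
  obtain ⟨δ2, hδ2⟩ := exists_HB Pυ
  obtain ⟨δ3, hδ3⟩ := exists_HB f'
  obtain ⟨δ, hδ⟩ : ∃ δ, δ = δ1 + δ2 + δ3 := ⟨_, rfl⟩
  have hB1 : HB δ Pχ := hδ1 δ (by omega)
  have hB2 : HB δ Pυ := hδ2 δ (by omega)
  have hB3 : HB δ f' := hδ3 δ (by omega)
  obtain ⟨α, hα⟩ : ∃ α, α = hm δ Pχ t h := ⟨_, rfl⟩
  obtain ⟨β, hβ⟩ : ∃ β, β = hm δ Pυ t h := ⟨_, rfl⟩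
  obtain ⟨γ, hγ⟩ : ∃ γ, γ = hm δ f' t h := ⟨_, rfl⟩
  obtain ⟨E, hE⟩ : ∃ E : LaurentSeries ℂ, E = pL t ^ δ * ψ (Lam (D.ι X) D.w f') := ⟨_, rfl⟩
  have key : ∀ P : ℤ[X][X], HB δ P → pL (hm δ P t h) = pL t ^ δ * ψ (Lam (D.ι X) D.w P) := by
    intro P hP
    rw [hm_map, hm_eq hP hψ1 hψ2, cov_Lam]
  have hαL : pL α = E * ψ χ := by
    rw [hα, key _ hB1, ← hPχ, map_mul, hE]
    ring
  have hβL : pL β = E * ψ υ := by
    rw [hβ, key _ hB2, ← hPυ, map_mul, hE]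
    ring
  have hγL : pL γ = E := by
    rw [hγ, key _ hB3, hE]
  have hαV : α * V = β := by
    apply hinj
    rw [map_mul, hαL, hβL, ← hVχ]
    ring
  have hαz : α * z = (b : PowerSeries ℂ) * γ := by
    apply hinj
    rw [map_mul, map_mul, hαL, hγL, hpLb, ← hzχ]
    ring
  -- values
  have hgt : Gr r t := by rw [ht]; exact spv_gr _ _ hr0
  have hgh : Gr r h := by
    rw [hh]
    have hR2 := Q.C.pd.R_ge
    refine gr_of_le (R := Q.C.pd.R) (C := Q.C.pd.R) (by linarith) hr0 (by rw [hr]; linarith)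
      fun k => ?_
    have := Q.C.pd.growth Q.i k
    rwa [pow_succ, mul_comm] at this
  have hT1 : ‖Q.T‖ ≤ r := hr.ge
  have ht1 : evz Q.T t * (Q.x : ℂ) = 1 := by
    rw [ht, spv_ev _ _ hr0 hT1]
    exact Q.hT
  have hh1 : evz Q.T h = (Q.y : ℂ) / (Q.x : ℂ) := by
    rw [hh]
    exact Q.hy
  have ht1' : evz Q.T t = 1 / (Q.x : ℂ) := by
    rw [eq_div_iff hu0]
    exact ht1
  have ht0 : evz Q.T t ≠ 0 := left_ne_zero_of_mul_eq_one ht1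
  obtain ⟨τ, hτ⟩ : ∃ τ : ℂ, τ = evz Q.T t ^ δ := ⟨_, rfl⟩
  have hτ0 : τ ≠ 0 := by rw [hτ]; exact pow_ne_zero _ ht0
  have kev : ∀ P : ℤ[X][X], HB δ P →
      evz Q.T (hm δ P t h) = τ * ((D.ev (Lam (D.ι X) D.w P) : ℤ) : ℂ) := by
    intro P hP
    rw [hm_ev hr0 hT1 hgt hgh, hτ]
    have e1 : (Q.x : ℂ) * evz Q.T t = 1 := by rw [mul_comm]; exact ht1
    have e2 : (Q.y : ℂ) * evz Q.T t = evz Q.T h := by
      rw [hh1, ht1']
      ring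
    rw [hm_eq hP e1 e2]
    congr 1
    have e3 := cov_Lam ((Int.castRingHom ℂ).comp D.ev) (D.ι X) D.w P
    rw [RingHom.comp_apply, RingHom.comp_apply, D.ev_ι, D.ev_w, eval_X] at e3
    exact e3
  obtain ⟨e0, he0⟩ : ∃ e0 : ℤ, e0 = D.ev (Lam (D.ι X) D.w f') := ⟨_, rfl⟩
  have he0' : e0 = evy Q.d Q.F Q.x Q.y := by
    rw [he0, ← cov_Lam, D.ev_ι, D.ev_w, eval_X, hf', Lam_deriv_toP]
  have he00 : (e0 : ℂ) ≠ 0 := by
    rw [he0']
    exact_mod_cast q2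
  have hevα : evz Q.T α = τ * ((e0 : ℂ) * ((b : ℂ) * P.x)) := by
    rw [hα, kev _ hB1, ← hPχ, map_mul, ← he0, h1]
    push_cast
    ring
  have hevβ : evz Q.T β = τ * ((e0 : ℂ) * ((b : ℂ) * P.y)) := by
    rw [hβ, kev _ hB2, ← hPυ, map_mul, ← he0, h2]
    push_cast
    ring
  have hevγ : evz Q.T γ = τ * (e0 : ℂ) := by
    rw [hγ, kev _ hB3, ← he0]
  have hα1 : evz Q.T α ≠ 0 := by
    rw [hevα]
    exact mul_ne_zero hτ0 (mul_ne_zero he00 (mul_ne_zero hbC hx0))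
  have hβ1 : evz Q.T β = evz Q.T α * ((P.y : ℂ) / (P.x : ℂ)) := by
    rw [hevα, hevβ]
    field_simp
  have hgα : Gr r α := by rw [hα]; exact hm_gr hr0 hgt hgh _ _
  have hgβ : Gr r β := by rw [hβ]; exact hm_gr hr0 hgt hgh _ _
  have hgγ : Gr r γ := by rw [hγ]; exact hm_gr hr0 hgt hgh _ _
  have hbCs : (b : PowerSeries ℂ) = PowerSeries.C (b : ℂ) := (map_intCast (PowerSeries.C : ℂ →+* PowerSeries ℂ) b).symm
  have hz1 : evz Q.T z = 1 / (P.x : ℂ) := by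
    have e1 := congrArg (evz Q.T) hαz
    rw [evz_mul hT1 hgα hzr, hbCs, evz_mul hT1 (gr_C r _) hgγ, evz_C, hevα, hevγ] at e1
    have e2 : τ * (e0 : ℂ) * (b : ℂ) ≠ 0 := mul_ne_zero (mul_ne_zero hτ0 he00) hbC
    rw [eq_div_iff hx0]
    apply mul_left_cancel₀ e2
    linear_combination e1
  have hα0 : α ≠ 0 := by
    rintro rfl
    apply hα1
    unfold evz
    simp
  -- conjugation
  have hω0 : ω ≠ 0 := by
    rintro rfl
    rw [zero_pow (pe_ne Q.C.pd)] at hω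
    exact zero_ne_one hω
  have hrt : PowerSeries.rescale ω t = t := by rw [ht]; exact spv_resc hω _
  have hrm : ∀ P : ℤ[X][X], PowerSeries.rescale ω (hm δ P t h) =
      hm δ P t (PowerSeries.rescale ω h) := by
    intro P
    rw [hm_map, hrt]
  have hst : SG σ t t := by rw [ht]; exact sg_tq σ _ _ _
  have hsα : SG σ α (PowerSeries.rescale ω α) := by
    rw [hα, hrm]
    exact hm_sg hst hσ δ Pχ
  have hsβ : SG σ β (PowerSeries.rescale ω β) := by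
    rw [hβ, hrm]
    exact hm_sg hst hσ δ Pυ
  have hsγ : SG σ γ (PowerSeries.rescale ω γ) := by
    rw [hγ, hrm]
    exact hm_sg hst hσ δ f'
  have hsz : SG σ z (PowerSeries.rescale ω z) := by
    refine hsα.div ((SG.int σ b).mul hsγ) hα0 hαz ?_
    rw [← map_mul, hαz, map_mul, map_intCast]
  have hsV : SG σ V (PowerSeries.rescale ω V) := by
    refine hsα.div hsβ hα0 hαV ?_
    rw [← map_mul, hαV]
  exact mat_core hν P hP hz0 hzne hroot hr0 hT1 hzr hzn hz1 hgα hgβ hαV hα1 hβ1 σ hω0 hsz hsV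

end Pool.Agent.H97.FB
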