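import Pool.Agent.H97.FB.Defs2
import Pool.Agent.H97.NW.ZD
import Pool.Agent.H97.NW.NMP
import Pool.Agent.H97.NW.SPI
import Pool.Agent.H8.AF.Fin
import Pool.Agent.H97.FB.SPM
import Pool.Agent.H97.FB.SPN
import Pool.Agent.H97.FB.SPV
import Pool.Agent.H97.FB.SLB

/-! # [H97 FB SPX] Special pairs: one curve carrying both labels

Interface of chapter F (helper87). The curve `Q` is the plane model of the covering through the pair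
(`cov_dom`, `SPM.lean`); its near branch lies over the near branches of `P0` and `P1` (`fix_one`,
`SPV.lean`), so an automorphism fixing it up to rotation fixes both labels (`fix_lab`), and the labels
extend to the orbit of the near branch (`lab_orbit`, `SLB.lean`). -/

namespace Pool.Agent.H97.FB

open Finset Polynomial Pool.Agent.H87.SA2 Pool.Agent.H8.AW Pool.Agent.H52.AC
  Pool.Agent.H97.NW Pool.Agent.H34.AC Pool.Agent.H8.AF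
open Pool.Agent.H72.ES (ev cst toP Lam Lam_toP)

/-- the scaled equation as a value of `ev` -/
theorem sc_ev {S : Type} [CommRing S] {d : ℕ} {F : ℕ → ℕ → ℤ} (A : ℤ) (s : ℤ[X][X]) (u z y : S)
    (h : (sc d F A s).eval₂ (Lam u z) y = 0) :
    ev d (fun i j => ((F i j * A ^ (d - i - j) : ℤ) : S)) (Lam u z s) y = 0 := by
  rw [sc_eval] at h
  rw [← h]
  unfold ev
  refine sum_congr rfl fun i _ => sum_congr rfl fun j _ => ?_
  push_cast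
  ring

theorem Lam_outX {S : Type} [CommRing S] (u z : S) : Lam u z (X : ℤ[X][X]) = z := by
  simp [Lam]

/-- the parameter of the integer point is small -/
theorem small_T {ν2 : ℕ} (Q : Ptd ν2) {B : ℝ} (hB : 1 ≤ B) {K : ℕ}
    (h : B ^ (K * ν2.factorial) ≤ |(Q.x : ℝ)|) : ‖Q.T‖ * B ^ K ≤ 1 := by
  have h1 : ‖((Q.C.pd.q : ℂ) * Q.T) ^ Q.C.pd.e * (Q.x : ℂ)‖ = 1 := by
    rw [Q.hT, norm_one]
  rw [norm_mul, norm_pow, norm_mul, Complex.norm_natCast, Complex.norm_intCast] at h1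
  have he : Q.C.pd.e ≠ 0 := pe_ne _
  have heN : Q.C.pd.e ≤ ν2.factorial := Q.C.e_le.trans (Nat.factorial_le Q.C.dn)
  have hq : (1 : ℝ) ≤ Q.C.pd.q := by exact_mod_cast Q.C.pd.q_pos
  have h2 : ‖Q.T‖ ^ Q.C.pd.e * |(Q.x : ℝ)| ≤ 1 := by
    rw [← h1]
    refine mul_le_mul_of_nonneg_right (pow_le_pow_left₀ (norm_nonneg _) ?_ _) (abs_nonneg _)
    exact le_mul_of_one_le_left (norm_nonneg _) hq
  have h3 : (‖Q.T‖ * B ^ K) ^ Q.C.pd.e ≤ 1 := by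
    rw [mul_pow, ← pow_mul]
    refine le_trans (mul_le_mul_of_nonneg_left ?_ (by positivity)) h2
    exact (pow_le_pow_right₀ hB (Nat.mul_le_mul_left K heN)).trans h
  exact (pow_le_one_iff_of_nonneg (by positivity) he).1 h3

/-- the radius of a curve in normal form -/
theorem rad_ge {ν : ℕ} (P : Ptd ν) {B : ℕ} (hB : P.b ≤ B) {r : ℝ} (hr : 0 ≤ r) {k : ℕ}
    (h : r * (B : ℝ) ^ (k + 2 * ν.factorial) ≤ 1) :
    r * (B : ℝ) ^ k ≤ ((P.C.pd.q : ℝ) / (2 * P.C.pd.R)) ^ P.C.pd.e := by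
  have hb2 : (2 : ℝ) ≤ B := by exact_mod_cast P.C.b2.trans hB
  have hR : P.C.pd.R ≤ B := P.C.R_le.trans (by exact_mod_cast hB)
  have hR2 := P.C.pd.R_ge
  have heN : P.C.pd.e ≤ ν.factorial := P.C.e_le.trans (Nat.factorial_le P.C.dn)
  have hq : (1 : ℝ) ≤ P.C.pd.q := by exact_mod_cast P.C.pd.q_pos
  have h1 : 1 ≤ (P.C.pd.q : ℝ) / (2 * P.C.pd.R) * (B : ℝ) ^ 2 := by
    rw [div_mul_eq_mul_div, le_div_iff₀ (by linarith), one_mul]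
    nlinarith
  have h2 : 1 ≤ ((P.C.pd.q : ℝ) / (2 * P.C.pd.R)) ^ P.C.pd.e * (B : ℝ) ^ (2 * ν.factorial) := by
    calc (1 : ℝ) ≤ ((P.C.pd.q : ℝ) / (2 * P.C.pd.R) * (B : ℝ) ^ 2) ^ P.C.pd.e := one_le_pow₀ h1
      _ = ((P.C.pd.q : ℝ) / (2 * P.C.pd.R)) ^ P.C.pd.e * (B : ℝ) ^ (2 * P.C.pd.e) := by
          rw [mul_pow, ← pow_mul]
      _ ≤ _ := by
          refine mul_le_mul_of_nonneg_left ?_ (by positivity)
          exact pow_le_pow_right₀ (by linarith) (Nat.mul_le_mul_left 2 heN)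
  have h0 : 0 ≤ ((P.C.pd.q : ℝ) / (2 * P.C.pd.R)) ^ P.C.pd.e := by positivity
  calc r * (B : ℝ) ^ k ≤ r * (B : ℝ) ^ k *
        (((P.C.pd.q : ℝ) / (2 * P.C.pd.R)) ^ P.C.pd.e * (B : ℝ) ^ (2 * ν.factorial)) :=
        le_mul_of_one_le_right (by positivity) h2
    _ = ((P.C.pd.q : ℝ) / (2 * P.C.pd.R)) ^ P.C.pd.e *
        (r * (B : ℝ) ^ (k + 2 * ν.factorial)) := by rw [pow_add]; ring
    _ ≤ _ := mul_le_of_le_one_right h0 h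

private theorem spx_lt {H : ℕ} (hH : 2 ≤ H) {e c : ℕ} (h : e < c) {m : ℝ} (hm : (H : ℝ) ^ c ≤ m) :
    (H : ℝ) ^ e < m :=
  lt_of_lt_of_le (pow_lt_pow_right₀ (by exact_mod_cast (by omega : 1 < H)) h) hm

theorem spc_lab (ν A0 : ℕ) (hν : 4 ≤ ν) : ∃ ν2 : ℕ, 4 ≤ ν2 ∧ ∀ c : ℕ, ∃ c0 c1 : ℕ,
    ∀ {n : ℕ} (θ θ' : Fin n → ℂ) (_ : GdG (v1 θ)) (_ : GdG (v1 θ')) (P0 P1 : Ptd ν) (l l' : Fin n)
      (_ : LbG P0 (v1 θ) l) (_ : LbG P1 (v1 θ') l'), P0.Thr c1 → P1.Thr c1 →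
      Spc A0 c0 P0.x P1.x →
      ∃ Q : Ptd ν2, Q.Thr c ∧ P0.ell ≤ ν2 * Q.ell ∧ Nonempty (LbG Q (v2 θ θ') (l, l')) := by
  obtain ⟨np0, hnp0⟩ : ∃ np0, np0 = 2 * A0 + 3 := ⟨_, rfl⟩
  have hnp3 : 3 ≤ np0 := by omega
  obtain ⟨np, hnp⟩ : ∃ np, np = np0 * (np0 + 1) := ⟨_, rfl⟩
  obtain ⟨e1, he1⟩ : ∃ e1, e1 = 2 * np0 + 3 := ⟨_, rfl⟩
  obtain ⟨ν2, hν2⟩ : ∃ ν2, ν2 = np0 * (np0 + 1) * ν * ν + e1 + 4 := ⟨_, rfl⟩
  have hν24 : 4 ≤ ν2 := by omega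
  refine ⟨ν2, hν24, ?_⟩
  intro c
  obtain ⟨cn, hcn⟩ := nomix np0 hnp3
  obtain ⟨κ, hκ, hcov⟩ := cov_dom ν np0 ν2 (by omega) (by omega)
  obtain ⟨K, hK⟩ := nrm_pol np (np0 + 1) ν2.factorial (by omega)
  obtain ⟨c', hc'⟩ : ∃ c', c' = c + cA ν2 + 4 * ν2.factorial := ⟨_, rfl⟩
  obtain ⟨K2, hK2⟩ : ∃ K2, K2 = κ * K + 2 * ν.factorial := ⟨_, rfl⟩
  obtain ⟨E, hE⟩ : ∃ E, E = κ * c' + K2 * ν2.factorial := ⟨_, rfl⟩
  obtain ⟨cs, hcs⟩ : ∃ cs, cs = cn + cR np0 * ((2 * np + 1) * e1) + cR np0 * (E * e1) + E * e1 + 1 :=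
    ⟨_, rfl⟩
  obtain ⟨c0, hc0⟩ := spc_irr A0 cs
  refine ⟨c0, c0 + E * e1 + 1 + cA ν, ?_⟩
  intro n θ θ' G0 G1 P0 P1 l l' L0 L1 hT0 hT1 hspc
  have hP0 : P0.Thr (cA ν) := P0.thr_mono (by omega) hT0
  have hP1 : P1.Thr (cA ν) := P1.thr_mono (by omega) hT1
  have hT0' : (P0.b : ℝ) ^ (c0 + E * e1 + 1) ≤ |(P0.x : ℝ)| :=
    P0.thr_mono (c := c0 + E * e1 + 1) (by omega) hT0
  have hT1' : (P1.b : ℝ) ^ (c0 + E * e1 + 1) ≤ |(P1.x : ℝ)| :=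
    P1.thr_mono (c := c0 + E * e1 + 1) (by omega) hT1
  obtain ⟨x0, hx0⟩ : ∃ x, x = P0.x := ⟨_, rfl⟩
  obtain ⟨x1, hx1⟩ : ∃ x, x = P1.x := ⟨_, rfl⟩
  rw [← hx0] at hT0' hspc
  rw [← hx1] at hT1' hspc
  have hb02 : 2 ≤ P0.b := P0.C.b2
  have hb12 : 2 ≤ P1.b := P1.C.b2
  have hx0' : (2 : ℤ) ^ c0 ≤ |x0| := by
    have h1 : (2 : ℝ) ^ c0 ≤ |(x0 : ℝ)| := by
      calc (2 : ℝ) ^ c0 ≤ (P0.b : ℝ) ^ c0 := pow_le_pow_left₀ (by norm_num) (by exact_mod_cast hb02) _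
        _ ≤ (P0.b : ℝ) ^ (c0 + E * e1 + 1) :=
            pow_le_pow_right₀ (by exact_mod_cast (by omega : 1 ≤ P0.b)) (by omega)
        _ ≤ _ := hT0'
    exact_mod_cast h1
  have hx1' : (2 : ℤ) ^ c0 ≤ |x1| := by
    have h1 : (2 : ℝ) ^ c0 ≤ |(x1 : ℝ)| := by
      calc (2 : ℝ) ^ c0 ≤ (P1.b : ℝ) ^ c0 := pow_le_pow_left₀ (by norm_num) (by exact_mod_cast hb12) _
        _ ≤ (P1.b : ℝ) ^ (c0 + E * e1 + 1) :=
            pow_le_pow_right₀ (by exact_mod_cast (by omega : 1 ≤ P1.b)) (by omega)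
        _ ≤ _ := hT1'
    exact_mod_cast h1
  obtain ⟨p, H, hpirr, hpdeg, hpvar, hH2, hpH, hp0, hHx0, hHx1⟩ := hc0 x0 x1 hspc hx0' hx1'
  have hpne : p ≠ 0 := by
    rintro rfl
    rw [map_zero] at hpirr
    exact not_irreducible_zero hpirr
  have hH1 : (1 : ℝ) ≤ H := by exact_mod_cast (by omega : 1 ≤ H)
  have hpdeg' : p.totalDegree ≤ np0 := by omega
  have hnm := hcn p hpirr hpdeg' hpvar H hH2 hpH x0 x1 hp0
    ((pow_le_pow_right₀ hH1 (by omega)).trans hHx0) ((pow_le_pow_right₀ hH1 (by omega)).trans hHx1)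
  obtain ⟨D, bp, Fp, a, ⟨Cp⟩, -, hbp, ha0, haH, hrel⟩ :=
    redB np0 hnp3 p hpirr hpdeg' (hpvar 1) H hH2 hpH
  obtain ⟨B, hB⟩ : ∃ B, B = max bp (max H (max P0.b P1.b)) := ⟨_, rfl⟩
  have hB1 : bp ≤ B := hB ▸ le_max_left _ _
  have hB2 : H ≤ B := hB ▸ (le_max_left _ _).trans (le_max_right _ _)
  have hB3 : P0.b ≤ B := hB ▸ (le_max_left _ _).trans ((le_max_right _ _).trans (le_max_right _ _))
  have hB4 : P1.b ≤ B := hB ▸ (le_max_right _ _).trans ((le_max_right _ _).trans (le_max_right _ _))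
  have hB2' : 2 ≤ B := hH2.trans hB2
  have hBr : (1 : ℝ) ≤ B := by exact_mod_cast (by omega : 1 ≤ B)
  obtain ⟨u0, hu0⟩ : ∃ u, u = x1 + x0 ^ (np0 + 1) := ⟨_, rfl⟩
  obtain ⟨m, hm⟩ : ∃ m : ℝ, m = max |(x0 : ℝ)| |(x1 : ℝ)| := ⟨_, rfl⟩
  have hm0 : |(x0 : ℝ)| ≤ m := hm ▸ le_max_left _ _
  have hm1 : |(x1 : ℝ)| ≤ m := hm ▸ le_max_right _ _
  have hHm : (H : ℝ) ^ cs ≤ m := hHx0.trans hm0
  have hevp : ev D Fp (x1 + x0 ^ (np0 + 1)) (a * x0) = 0 := by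
    have h1 := hrel ℤ x0 x1
    rw [hp0, mul_zero] at h1
    have h2 : cst ℤ Fp = Fp := by
      funext i j
      simp [cst]
    rw [h2] at h1
    simpa using h1
  have hbpH : (bp : ℝ) ≤ (H : ℝ) ^ cR np0 := by exact_mod_cast hbp
  have hbp2 : 2 ≤ bp := Cp.b2
  -- the size of `u0`
  have hsize : ∀ V : ℤ, (bp : ℤ) ^ (2 * np + 1) ≤ V → |u0| ≤ V → m ≤ ((V : ℤ) : ℝ) ^ e1 := by
    intro V hV hu
    obtain ⟨h1, h2⟩ := size_up Cp.d1 (hnp ▸ Cp.dn : D ≤ np) Cp.b2 Cp.lead Cp.le ha0 hV (hu0 ▸ hu) hevp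
    rw [hm, he1]
    refine max_le ?_ ?_
    · exact_mod_cast h1
    · exact_mod_cast h2
  have hbig : (bp : ℤ) ^ (2 * np + 1) ≤ |u0| := by
    by_contra hcon
    push Not at hcon
    have h1 := hsize _ le_rfl hcon.le
    have h2 : (((bp : ℤ) ^ (2 * np + 1) : ℤ) : ℝ) ^ e1 ≤ (H : ℝ) ^ (cR np0 * ((2 * np + 1) * e1)) := by
      push_cast
      rw [← pow_mul, pow_mul (H : ℝ)]
      exact pow_le_pow_left₀ (by positivity) hbpH _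
    have h3 : (H : ℝ) ^ (cR np0 * ((2 * np + 1) * e1)) < m := spx_lt hH2 (by omega) hHm
    linarith
  have hmu : m ≤ |(u0 : ℝ)| ^ e1 := by
    have h1 := hsize |u0| hbig le_rfl
    push_cast at h1
    exact h1
  have hBm : (B : ℝ) ^ (E * e1) < m := by
    have h4 : (bp : ℝ) ^ (E * e1) < m := by
      refine lt_of_le_of_lt (pow_le_pow_left₀ (by positivity) hbpH _) ?_
      rw [← pow_mul]
      exact spx_lt hH2 (by omega) hHm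
    have h5 : (H : ℝ) ^ (E * e1) < m := spx_lt hH2 (by omega) hHm
    have h6 : (P0.b : ℝ) ^ (E * e1) < m := spx_lt hb02 (by omega) (hT0'.trans hm0)
    have h7 : (P1.b : ℝ) ^ (E * e1) < m := spx_lt hb12 (by omega) (hT1'.trans hm1)
    rcases max_choice bp (max H (max P0.b P1.b)) with h | h
    · rw [hB, h]; exact h4
    · rcases max_choice H (max P0.b P1.b) with h' | h'
      · rw [hB, h, h']; exact h5
      · rcases max_choice P0.b P1.b with h'' | h''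
        · rw [hB, h, h', h'']; exact h6
        · rw [hB, h, h', h'']; exact h7
  have hE1 : (B : ℝ) ^ E ≤ |(u0 : ℝ)| := by
    by_contra hcon
    push Not at hcon
    have h1 : |(u0 : ℝ)| ^ e1 ≤ (B : ℝ) ^ (E * e1) := by
      rw [pow_mul]
      exact pow_le_pow_left₀ (abs_nonneg _) hcon.le _
    linarith
  have hu1 : (1 : ℝ) ≤ |(u0 : ℝ)| := (one_le_pow₀ hBr).trans hE1
  -- the curve
  have hcst : ∀ F : ℕ → ℕ → ℤ, cst ℤ F = F := fun F => by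
    funext i j
    exact Int.cast_id
  have hz0 : ev P0.d P0.F x0 P0.y = 0 := by rw [hx0]; exact P0.zero
  have hz1 : ev P1.d P1.F x1 P1.y = 0 := by rw [hx1]; exact P1.zero
  obtain ⟨Q, Dq, a1, a2, a3, hQc, hQx, hQb, v1', v2', v3', f1, f2, f3⟩ :=
    hcov P0.d P1.d D P0.F P1.F Fp a p B P0.C.d1 P1.C.d1 P0.C.dn P1.C.dn Cp.dn hB2' ha0 hpne hpdeg'
      (fun m => (hpH m).trans (by exact_mod_cast hB2)) P0.C.lead P1.C.lead Cp.lead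
      (fun i j => (P0.C.le i j).trans (by exact_mod_cast hB3))
      (fun i j => (P1.C.le i j).trans (by exact_mod_cast hB4))
      (haH.trans (by exact_mod_cast hB2)) hrel x0 P0.y x1 P1.y hz0 hz1 hp0 c' (by omega)
      (by
        rw [← hu0]
        exact (pow_le_pow_right₀ hBr (by omega)).trans hE1)
  rw [← hu0] at hQx
  have hQA : Q.Thr (cA ν2) := Q.thr_mono (by omega) hQc
  refine ⟨Q, Q.thr_mono (by omega) hQc, ?_, ?_⟩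
  · unfold Ptd.ell
    rw [hQx, ← hx0]
    have h1 : (1 : ℝ) ≤ |(x0 : ℝ)| := by
      have h2 : (1 : ℤ) ≤ |x0| := (one_le_pow₀ (by norm_num)).trans hx0'
      exact_mod_cast h2
    have h3 : Real.log |(x0 : ℝ)| ≤ Real.log (|(u0 : ℝ)| ^ e1) :=
      Real.log_le_log (by linarith) (hm0.trans hmu)
    rw [Real.log_pow] at h3
    refine h3.trans (mul_le_mul_of_nonneg_right ?_ (Real.log_nonneg hu1))
    exact_mod_cast (by omega : e1 ≤ ν2)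
  -- the homomorphism
  obtain ⟨ψ, hψ1, hψ2⟩ := exists_psi Dq Q.C.pd Q.i
  obtain ⟨hp0', hp1'⟩ := poles Dq.ι a1 ψ (tq_cc (pe_ne Q.C.pd) Q.C.pd.q) hψ1 ha0 hrel f1 hnm
  have hr0 : (0 : ℝ) ≤ ‖Q.T‖ := norm_nonneg _
  have hrK : ‖Q.T‖ * (B : ℝ) ^ K2 ≤ 1 := by
    refine small_T Q hBr ?_
    rw [hQx]
    exact (pow_le_pow_right₀ hBr (by omega)).trans hE1
  have hBκ : B ≤ B ^ κ := Nat.le_self_pow (by omega) _
  have hBK : ((B ^ κ : ℕ) : ℝ) ^ K = (B : ℝ) ^ (κ * K) := by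
    push_cast
    rw [← pow_mul]
  have hrK1 : ‖Q.T‖ * ((B ^ κ : ℕ) : ℝ) ^ K ≤ 1 := by
    rw [hBK]
    refine le_trans (mul_le_mul_of_nonneg_left (pow_le_pow_right₀ hBr ?_) hr0) hrK
    omega
  have hrad : ∀ P : Ptd ν, P.b ≤ B →
      ‖Q.T‖ * ((B ^ κ : ℕ) : ℝ) ^ K ≤ ((P.C.pd.q : ℝ) / (2 * P.C.pd.R)) ^ P.C.pd.e := by
    intro P hP
    rw [hBK]
    exact rad_ge P hP hr0 (by rw [← hK2]; exact hrK)
  have hUW : Lam (ψ (Dq.ι X)) (ψ a1) (toP D Fp) = 0 := by rw [cov_Lam, f1, map_zero]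
  have hCp : CrvB np D bp Fp := by
    rw [hnp]
    exact Cp
  have haBκ : |a| ≤ ((B ^ κ : ℕ) : ℤ) := haH.trans (by exact_mod_cast hB2.trans hBκ)
  have hnrm := fun (z : PowerSeries ℂ) (hz : PowerSeries.constantCoeff z = 0) =>
    hK (B ^ κ) (hB2'.trans hBκ) hCp (hB1.trans hBκ) Q.C.pd.e Q.C.pd.q (pe_ne _)
      (Q.C.e_le.trans (Nat.factorial_le Q.C.dn)) Q.C.pd.q_pos (Q.C.q_le.trans hQb) a ha0
      haBκ (ψ (Dq.ι X)) (ψ a1) hψ1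
      hUW z hz ‖Q.T‖ hr0 hrK1
  refine lab_orbit G0 G1 L0 L1 Q ?_
  intro σ ω hω hσ
  refine ⟨?_, ?_⟩
  · obtain ⟨ζ, hζ, hS⟩ := fix_one hν hν24 Q hQA Dq ψ hψ1 hψ2 P0 hP0 a1 a2 a ha0
      (by rw [v1', hx0]) v2' (by
        have h1 := sc_ev a X (Dq.ι X) a1 a2 f2
        rw [Lam_outX] at h1
        exact h1) hp0' (fun z hz h => ⟨((hnrm z hz).1 h).1,
          ((hnrm z hz).1 h).2.trans (hrad P0 hB3)⟩) σ hω hσ
    exact fix_lab L0 hζ hS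
  · obtain ⟨ζ, hζ, hS⟩ := fix_one hν hν24 Q hQA Dq ψ hψ1 hψ2 P1 hP1
      (Lam (Dq.ι X) a1 (C (C (a ^ (np0 + 1)) * X) - X ^ (np0 + 1))) a3 (a ^ (np0 + 1))
      (pow_ne_zero _ ha0) (by
        rw [ino_Lam_CC, map_sub, map_mul, map_pow, map_intCast, Dq.ev_ι, eval_X, v1', hQx, hu0,
          ← hx1, Int.cast_id]
        ring) v3' (sc_ev (a ^ (np0 + 1)) _ (Dq.ι X) a1 a3 f3) hp1' (fun z hz h => by
          rw [ino_Lam_CC, map_sub, map_mul, map_pow, map_intCast] at h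
          exact ⟨((hnrm z hz).2 h).1, ((hnrm z hz).2 h).2.trans (hrad P1 hB4)⟩) σ hω hσ
    exact fix_lab L1 hζ hS

end Pool.Agent.H97.FB
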