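import Pool.Agent.H97.FB.Defs2
import Pool.Agent.H52.AC.PRM

/-! # [H97 FB TUX] The stable sets of pairs and their size

FIBRES (general lemma, prove it first): let `L : LbG P Θ l0`, `TrG Θ`, `GdG Θ`, `ι` finite. Then `card ι * card {i ∈ L.S | L.th i = w} ≤ P.d` for every `w : ι`. Proof: for `w'` choose `σ` with `Cj σ (Θ w u) (Θ w' u)` for all `u`. `perm_gal pd σ` (see `Pool/Agent/H97/NW/PPF.lean`, `EQV.lean`, `H52/AC`) gives a permutation `π` of
`Fin P.d` with `Cj σ (coeff k (x i)) (coeff k (x (π i)))` for all `k`; by `L.gal`, `i ∈ S` implies `π i ∈ S` and `Cj σ (Θ (th i) u) (Θ (th (π i)) u)`. If `th i = w`: `Θ w u` is algebraic (`GdG.int`), so `Θ w' u = σ (Θ w u) = Θ (th (π i)) u` for all `u`, `th (π i) = w'` by `GdG.inj`. So every fibre injects into every other fibre, all fibres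
have the same number of elements, they are disjoint subsets of `Fin P.d` (`Finset.card_eq_sum_card_fiberwise`).
THE SET: `PP := univ.filter fun z : an.I × (∀ v, Fin (P v).d) => (∀ v, z.2 v ∈ (label v).S) ∧ (pair of labels) ∈ da.Rt z.1`. For `exists_tup2` the pair is `(L0.th (z.2 0), L1.th (z.2 1))`, for `exists_tup1` it is `L.th (z.2 0)`. `mem`: `LbG.near`, `LbG.mem`, `da.diag`. `gal`: the `π1` of `da.gal σ`; for `p ∈ PP` and `p'` the labels: `L.gal` gives
`p' v ∈ S` and `Cj σ (θ (th (p v))) (θ (th (p' v)))` (for `v2`: the coordinates `u = 0, 1`), so the second half of `da.gal` applies. `rot`: the labels do not change (`LbG.rot`), the first component neither.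
THE SIZE: `card PP ≤ ∑_(i : an.I) ∑_((l, l') ∈ Rt i) card {p | th (p 0) = l, th (p 1) = l'}`, for `exists_tup2` `n * n * (that) ≤ d0 d1`; so `n * n * card PP ≤ Dn * n * (d0 * d1)` (`da.cardI`, `da.card`), divide by `n ≥ 1` (`l : Fin n` exists). For `exists_tup1`: `card (Fin n × Fin n) * card {p | th (p 0) = (l, l')} ≤ d`, the same. (`Fin 1 → ..`: `Unique`; `Fin 2 → ..`:
inject `z ↦ (z.1, z.2 0, z.2 1)`.) -/

namespace Pool.Agent.H97.FB

open Finset Polynomial Pool.Agent.H72.ES Pool.Agent.H87.SA Pool.Agent.H87.SA2 Pool.Agent.H87.AX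
  Pool.Agent.H8.AW Pool.Agent.H52.AC Pool.Agent.H97.NW Pool.Agent.H8.RZ

private theorem tux_mem {z : ℂ} (hz : IsIntegral ℤ z) : z ∈ AA := by
  rw [mem_algebraicClosure_iff]
  exact (hz.tower_top (A := ℚ)).isAlgebraic

/-- all fibres of the labelling have the same number of elements -/
private theorem tux_fib {ν r : ℕ} {ι : Type} [Fintype ι] [DecidableEq ι] {P : Ptd ν} {Θ : ι → Fin r → ℂ} {l0 : ι}
    (L : LbG P Θ l0) (T : TrG Θ) (G : GdG Θ) (w : ι) :
    Fintype.card ι * (L.S.filter fun i => L.th i = w).card ≤ P.d := by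
  have hd : L.S.card ≤ P.d := by
    have := card_le_univ L.S
    rwa [Fintype.card_fin] at this
  have h1 : L.S.card = ∑ w' : ι, (L.S.filter fun i => L.th i = w').card :=
    card_eq_sum_card_fiberwise fun i _ => mem_univ _
  have h2 : ∀ w' ∈ (univ : Finset ι), (L.S.filter fun i => L.th i = w).card ≤
      (L.S.filter fun i => L.th i = w').card := by
    intro w' _
    obtain ⟨σ, hσ⟩ := T w w'
    obtain ⟨π, hπ⟩ := perm_gal P.C.pd σ
    refine card_le_card_of_injOn π ?_ (fun _ _ _ _ hij => π.injective hij)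
    intro i hi
    have hi' := mem_filter.1 hi
    obtain ⟨h3, h4⟩ := L.gal σ i hi'.1 (π i) (fun k a ha => hπ i k a ha)
    refine mem_filter.2 ⟨h3, ?_⟩
    apply G.inj
    funext u
    obtain ⟨a, ha⟩ : ∃ a : AA, (a : ℂ) = Θ w u := ⟨⟨Θ w u, tux_mem (G.int w u)⟩, rfl⟩
    rw [← h4 u a (by rw [ha, hi'.2]), hσ u a ha]
  calc Fintype.card ι * (L.S.filter fun i => L.th i = w).card
      = ∑ _w' : ι, (L.S.filter fun i => L.th i = w).card := by
        rw [sum_const, card_univ, smul_eq_mul]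
    _ ≤ ∑ w' : ι, (L.S.filter fun i => L.th i = w').card := sum_le_sum h2
    _ = L.S.card := h1.symm
    _ ≤ P.d := hd

/-- the size of a set of pairs with prescribed labels -/
private theorem tux_size {I ι α Z : Type} [Fintype I] [DecidableEq I] [DecidableEq ι] (PP : Finset Z) (f : Z → I) (g : Z → α)
    (T : Finset α) (th : α → ι) (Rt : I → Finset ι)
    (hmem : ∀ z ∈ PP, g z ∈ T ∧ th (g z) ∈ Rt (f z))
    (hinj : ∀ z ∈ PP, ∀ z' ∈ PP, f z = f z' → g z = g z' → z = z')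
    {k D c Q : ℕ} (hI : Fintype.card I ≤ D) (hR : ∀ i, (Rt i).card ≤ c)
    (hfib : ∀ w, k * (T.filter fun a => th a = w).card ≤ Q) : k * PP.card ≤ D * c * Q := by
  have h1 : PP.card = ∑ i : I, (PP.filter fun z => f z = i).card :=
    card_eq_sum_card_fiberwise fun _ _ => mem_univ _
  have h2 : ∀ i : I, k * (PP.filter fun z => f z = i).card ≤ c * Q := by
    intro i
    have h3 : (PP.filter fun z => f z = i).card ≤ (T.filter fun a => th a ∈ Rt i).card := by
      refine card_le_card_of_injOn g ?_ ?_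
      · intro z hz
        obtain ⟨hz1, hz2⟩ := mem_filter.1 hz
        obtain ⟨h4, h5⟩ := hmem z hz1
        refine mem_filter.2 ⟨h4, ?_⟩
        rw [← hz2]
        exact h5
      · intro z hz z' hz' hzz
        obtain ⟨hz1, hz2⟩ := mem_filter.1 hz
        obtain ⟨hz1', hz2'⟩ := mem_filter.1 hz'
        exact hinj z hz1 z' hz1' (hz2.trans hz2'.symm) hzz
    have h4 : (T.filter fun a => th a ∈ Rt i).card =
        ∑ w ∈ Rt i, ((T.filter fun a => th a ∈ Rt i).filter fun a => th a = w).card :=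
      card_eq_sum_card_fiberwise fun a ha => (mem_filter.1 ha).2
    calc k * (PP.filter fun z => f z = i).card
        ≤ k * (T.filter fun a => th a ∈ Rt i).card := Nat.mul_le_mul_left _ h3
      _ = ∑ w ∈ Rt i, k * ((T.filter fun a => th a ∈ Rt i).filter fun a => th a = w).card := by
          rw [h4, mul_sum]
      _ ≤ ∑ _w ∈ Rt i, Q := by
          refine sum_le_sum fun w _ => (Nat.mul_le_mul_left _ (card_le_card ?_)).trans (hfib w)
          exact filter_subset_filter _ (filter_subset _ _)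
      _ = (Rt i).card * Q := by rw [sum_const, smul_eq_mul]
      _ ≤ c * Q := Nat.mul_le_mul_right _ (hR i)
  calc k * PP.card = ∑ i : I, k * (PP.filter fun z => f z = i).card := by rw [h1, mul_sum]
    _ ≤ ∑ _i : I, c * Q := sum_le_sum fun i _ => h2 i
    _ = Fintype.card I * (c * Q) := by rw [sum_const, card_univ, smul_eq_mul]
    _ ≤ D * (c * Q) := Nat.mul_le_mul_right _ hI
    _ = D * c * Q := (mul_assoc _ _ _).symm

theorem exists_tup1 {ν n Dn Dl κ e M : ℕ} {X0 R : ℝ} (an : AnchX Dn Dl κ e M X0 R)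
    {θ θ' : Fin n → ℂ} (da : DiagA an θ θ') (P : Fin 1 → Ptd ν) {l : Fin n}
    (L : LbG (P 0) (v2 θ θ') (l, l)) (T : TrG (v2 θ θ')) (G : GdG (v2 θ θ')) :
    ∃ tu : TupX an P, n * tu.PP.card ≤ Dn * (P 0).d := by
  classical
  have hn : 0 < n := l.pos
  let PP : Finset (an.I × (∀ v, Fin (P v).d)) :=
    univ.filter fun z => z.2 0 ∈ L.S ∧ L.th (z.2 0) ∈ da.Rt z.1
  have hPP : ∀ z, z ∈ PP ↔ z.2 0 ∈ L.S ∧ L.th (z.2 0) ∈ da.Rt z.1 := fun z => by
    simp only [PP, mem_filter, mem_univ, true_and]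
  have hsize : n * n * PP.card ≤ Dn * n * (P 0).d := by
    refine tux_size PP (fun z => z.1) (fun z => z.2 0) L.S L.th da.Rt
      (fun z hz => (hPP z).1 hz) ?_ da.cardI da.card ?_
    · intro z _ z' _ h1 h2
      refine Prod.ext h1 ?_
      funext v
      have hv : v = 0 := Subsingleton.elim _ _
      subst hv
      exact h2
    · intro w
      have := tux_fib L T G w
      rwa [Fintype.card_prod, Fintype.card_fin] at this
  refine ⟨{ PP := PP, mem := ?_, gal := ?_, rot := ?_ }, ?_⟩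
  · rw [hPP]
    refine ⟨L.mem, ?_⟩
    rw [L.near]
    exact da.diag l
  · intro σ
    obtain ⟨π1, h1, h2⟩ := da.gal σ
    refine ⟨π1, h1, fun p hp p' hpp => ?_⟩
    rw [hPP] at hp ⊢
    obtain ⟨h3, h4⟩ := L.gal σ (p.2 0) hp.1 (p' 0) (fun k a ha => hpp 0 k a ha)
    refine ⟨h3, ?_⟩
    exact h2 p.1 (L.th (p.2 0)).1 (L.th (p.2 0)).2 (L.th (p' 0)).1 (L.th (p' 0)).2 hp.2
      (h4 0) (h4 1)
  · intro ζ hζ p hp p' hpp
    rw [hPP] at hp ⊢
    obtain ⟨h3, h4⟩ := L.rot (ζ 0) (hζ 0) (p.2 0) hp.1 (p' 0) (hpp 0)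
    refine ⟨h3, ?_⟩
    rw [h4]
    exact hp.2
  · have h : n * (n * PP.card) ≤ n * (Dn * (P 0).d) := by
      calc n * (n * PP.card) = n * n * PP.card := (mul_assoc _ _ _).symm
        _ ≤ Dn * n * (P 0).d := hsize
        _ = n * (Dn * (P 0).d) := by ring
    exact Nat.le_of_mul_le_mul_left h hn

theorem exists_tup2 {ν n Dn Dl κ e M : ℕ} {X0 R : ℝ} (an : AnchX Dn Dl κ e M X0 R)
    {θ θ' : Fin n → ℂ} (da : DiagA an θ θ') (P : Fin 2 → Ptd ν) {l : Fin n}
    (L0 : LbG (P 0) (v1 θ) l) (L1 : LbG (P 1) (v1 θ') l) (T0 : TrG (v1 θ)) (T1 : TrG (v1 θ'))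
    (G0 : GdG (v1 θ)) (G1 : GdG (v1 θ')) :
    ∃ tu : TupX an P, n * tu.PP.card ≤ Dn * ((P 0).d * (P 1).d) := by
  classical
  have hn : 0 < n := l.pos
  let PP : Finset (an.I × (∀ v, Fin (P v).d)) :=
    univ.filter fun z => z.2 0 ∈ L0.S ∧ z.2 1 ∈ L1.S ∧ (L0.th (z.2 0), L1.th (z.2 1)) ∈ da.Rt z.1
  have hPP : ∀ z, z ∈ PP ↔ z.2 0 ∈ L0.S ∧ z.2 1 ∈ L1.S ∧
      (L0.th (z.2 0), L1.th (z.2 1)) ∈ da.Rt z.1 := fun z => by
    simp only [PP, mem_filter, mem_univ, true_and]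
  have hsize : n * n * PP.card ≤ Dn * n * ((P 0).d * (P 1).d) := by
    refine tux_size PP (fun z => z.1) (fun z => (z.2 0, z.2 1)) (L0.S ×ˢ L1.S)
      (fun a => (L0.th a.1, L1.th a.2)) da.Rt
      (fun z hz => ?_) ?_ da.cardI da.card ?_
    · obtain ⟨h1, h2, h3⟩ := (hPP z).1 hz
      exact ⟨mem_product.2 ⟨h1, h2⟩, h3⟩
    · intro z _ z' _ h1 h2
      refine Prod.ext h1 ?_
      have e0 : z.2 0 = z'.2 0 := congrArg Prod.fst h2
      have e1 : z.2 1 = z'.2 1 := congrArg Prod.snd h2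
      funext v
      fin_cases v
      · exact e0
      · exact e1
    · rintro ⟨w0, w1⟩
      have h0 := tux_fib L0 T0 G0 w0
      have h1 := tux_fib L1 T1 G1 w1
      rw [Fintype.card_fin] at h0 h1
      have h2 : ((L0.S ×ˢ L1.S).filter fun a => (L0.th a.1, L1.th a.2) = (w0, w1)) =
          (L0.S.filter fun i => L0.th i = w0) ×ˢ (L1.S.filter fun i => L1.th i = w1) := by
        ext a
        simp only [mem_filter, mem_product, Prod.mk.injEq]
        tauto
      rw [h2, card_product]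
      calc n * n * ((L0.S.filter fun i => L0.th i = w0).card *
            (L1.S.filter fun i => L1.th i = w1).card)
          = (n * (L0.S.filter fun i => L0.th i = w0).card) *
            (n * (L1.S.filter fun i => L1.th i = w1).card) := by ring
        _ ≤ (P 0).d * (P 1).d := Nat.mul_le_mul h0 h1
  refine ⟨{ PP := PP, mem := ?_, gal := ?_, rot := ?_ }, ?_⟩
  · rw [hPP]
    refine ⟨L0.mem, L1.mem, ?_⟩
    rw [L0.near, L1.near]
    exact da.diag l
  · intro σ
    obtain ⟨π1, h1, h2⟩ := da.gal σ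
    refine ⟨π1, h1, fun p hp p' hpp => ?_⟩
    rw [hPP] at hp ⊢
    obtain ⟨h3, h4⟩ := L0.gal σ (p.2 0) hp.1 (p' 0) (fun k a ha => hpp 0 k a ha)
    obtain ⟨h5, h6⟩ := L1.gal σ (p.2 1) hp.2.1 (p' 1) (fun k a ha => hpp 1 k a ha)
    refine ⟨h3, h5, ?_⟩
    exact h2 p.1 (L0.th (p.2 0)) (L1.th (p.2 1)) (L0.th (p' 0)) (L1.th (p' 1)) hp.2.2
      (h4 0) (h6 0)
  · intro ζ hζ p hp p' hpp
    rw [hPP] at hp ⊢
    obtain ⟨h3, h4⟩ := L0.rot (ζ 0) (hζ 0) (p.2 0) hp.1 (p' 0) (hpp 0)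
    obtain ⟨h5, h6⟩ := L1.rot (ζ 1) (hζ 1) (p.2 1) hp.2.1 (p' 1) (hpp 1)
    refine ⟨h3, h5, ?_⟩
    rw [h4, h6]
    exact hp.2.2
  · have h : n * (n * PP.card) ≤ n * (Dn * ((P 0).d * (P 1).d)) := by
      calc n * (n * PP.card) = n * n * PP.card := (mul_assoc _ _ _).symm
        _ ≤ Dn * n * ((P 0).d * (P 1).d) := hsize
        _ = n * (Dn * ((P 0).d * (P 1).d)) := by ring
    exact Nat.le_of_mul_le_mul_left h hn

end Pool.Agent.H97.FB
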