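import Pool.Agent.H97.FB.BK1
import Pool.Agent.H97.FB.BK2
import Pool.Agent.H97.FB.FARX
import Pool.Agent.H97.FB.ANP
import Pool.Agent.H97.FB.TRA
import Pool.Agent.H97.FB.TUX
import Pool.Agent.H97.FB.SPX

/-! # [H97 FB PRX] Two exceptional fibres of the same type are impossible

ORDER OF THE CONSTANTS. `ν = d (d+1) ≥ 12`, `γ = 1/9`. `Q0` from `exists_anchP n m`. `R1, cf` from `far2 ν Q0 _ γ`. `A0` from `blk2 ν Q0 _ γ _ R1`. `ν2` from `spc_lab ν A0`. `c1` from `blk1 ν2 Q0 _ γ`. `c0, c2` from `spc_lab .. c1`. `c3` from `blk2` for `c0`. `c = max (cA ν) (max cf (max c2 (max c3 c1)))`. `CA` from `exists_anchP .. c`.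
`CT` from `thA_rts n m`. `C = max CA (max CT (Q0 * (ν2 * c + c)))`.
PROOF. `B ^ CT ≤ a` and `≤ a'` (`((a'-a) B)^C ≤ a`, `1 ≤ a' - a`, `B ≥ 2`), so `Rts (fa f a) θ`, `Rts (fa f a') θ'`, `θ = thA Fm.pd m a`, `θ' = thA Fm.pd m a'`. `fa` is monic (`Fm.monic.map`). `gdG_one, gdG_two, trG_one, trG_two`. The anchor: `an`, `Bnd`, `(2R)^c ≤ X0`, `X0 ≤ a^Q0`, `AlgA`, `DiagA`
(`((a'-a) B)^CA ≤ ((a'-a) B)^C ≤ a` as `1 ≤ (a'-a) B`). `P = ![P0, P1]`; `Scl c X0 R P`: `low`: `c log X0 ≤ c Q0 log a ≤ C log a ≤ ell` (`log X0 ≤ Q0 log a`; `0 ≤ log a`). `Scl c` implies `Scl c'` for `c' ≤ c` (prove this once: `1 ≤ 2R`; `Ptd.thr_mono`; `0 ≤ log X0`).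
`exists_tup2`: `tu`, `n card ≤ Dn d0 d1`, so `(1 + 1/9) * 27 * card = 30 card ≤ 6 n card ≤ 6 Dn d0 d1`. `far2`: the ratios (strict, so `≤`). `blk2`: `Spc A0 c0 P0.x P1.x`. `spc_lab`: `Q : Ptd ν2`, `Q.Thr c1`, `P0.ell ≤ ν2 Q.ell`, labels `v2 θ θ'`, near label `(l, l)`. `exists_tup1` for `![Q]` (or `fun _ => Q`): `n card ≤ Dn Q.d`,
so `(1 + 1/9) * 4 * card ≤ 2 n card ≤ 2 Dn Q.d` (`n ≥ 5`). `Scl c1 X0 R (fun _ => Q)`: `c1 log X0 ≤ c1 Q0 log a ≤ (C / ν2) log a ≤ P0.ell / ν2 ≤ Q.ell` (`ν2 c1 Q0 ≤ C`, `ν2 ≥ 4`). `blk1`: contradiction. -/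

namespace Pool.Agent.H97.FB

open Finset Polynomial Pool.Agent.H72.ES Pool.Agent.H87.SA Pool.Agent.H87.SA2 Pool.Agent.H87.AX
  Pool.Agent.H8.AW Pool.Agent.H52.AC Pool.Agent.H97.NW

private theorem prx_scl {ν k c c' : ℕ} {X0 R : ℝ} {P : Fin k → Ptd ν} (h : Scl c X0 R P) (hc : c' ≤ c)
    (hR : 2 ≤ R) : Scl c' X0 R P := by
  have h1 : (1 : ℝ) ≤ 2 * R := by linarith
  have h2 : (1 : ℝ) ≤ X0 := (one_le_pow₀ h1).trans h.RX
  refine ⟨(pow_le_pow_right₀ h1 hc).trans h.RX, fun v => (P v).thr_mono hc (h.thr v), fun v => ?_⟩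
  refine le_trans ?_ (h.low v)
  exact mul_le_mul_of_nonneg_right (by exact_mod_cast hc) (Real.log_nonneg h2)

theorem no_pair (n m d : ℕ) (hn : 5 ≤ n) (hd : 3 ≤ d) : ∃ c C : ℕ, cA (d * (d + 1)) ≤ c ∧
    ∀ (B : ℕ) (f : ℤ[X][X]) (Fm : FamB n m B f) (a a' : ℕ), a < a' → ((a' - a) * B) ^ C ≤ a →
      Irreducible ((fa f a).map (Int.castRingHom ℚ)) →
      Irreducible ((fa f a').map (Int.castRingHom ℚ)) →
      Irreducible ((fa f a').map (algebraMap ℤ (AdjoinRoot ((fa f a).map (Int.castRingHom ℚ))))) →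
      ∀ (P0 P1 : Ptd (d * (d + 1))) (l : Fin n) (_ : LbG P0 (v1 (thA Fm.pd m a)) l)
        (_ : LbG P1 (v1 (thA Fm.pd m a')) l), P0.Thr c → P1.Thr c →
      C * Real.log a ≤ P0.ell → C * Real.log a ≤ P1.ell → False := by
  obtain ⟨ν, hνd⟩ : ∃ ν, ν = d * (d + 1) := ⟨_, rfl⟩
  rw [← hνd]
  have hν : 4 ≤ ν := by
    rw [hνd]
    nlinarith
  have hγ : (0 : ℝ) < 1 / 9 := by norm_num
  obtain ⟨Q0, hanch⟩ := exists_anchP n m
  obtain ⟨R1, cf, hR1, hfar⟩ := far2 ν Q0 hν (1 / 9) hγ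
  obtain ⟨A0, hblk2⟩ := blk2 ν Q0 hν (1 / 9) hγ R1 hR1
  obtain ⟨ν2, hν2, hspc⟩ := spc_lab ν A0 hν
  obtain ⟨c1, hblk1⟩ := blk1 ν2 Q0 hν2 (1 / 9) hγ
  obtain ⟨c0, c2, hspc⟩ := hspc c1
  obtain ⟨c3, hblk2⟩ := hblk2 c0
  obtain ⟨c, hc⟩ : ∃ c, c = max (cA ν) (max cf (max c2 (max c3 c1))) := ⟨_, rfl⟩
  have hcA : cA ν ≤ c := by rw [hc]; exact le_max_left _ _
  have hcf : cf ≤ c := by rw [hc]; exact (le_max_left _ _).trans (le_max_right _ _)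
  have hc2 : c2 ≤ c := by
    rw [hc]; exact ((le_max_left _ _).trans (le_max_right _ _)).trans (le_max_right _ _)
  have hc3 : c3 ≤ c := by
    rw [hc]
    exact (((le_max_left _ _).trans (le_max_right _ _)).trans (le_max_right _ _)).trans (le_max_right _ _)
  have hc1 : c1 ≤ c := by
    rw [hc]
    exact (((le_max_right _ _).trans (le_max_right _ _)).trans (le_max_right _ _)).trans (le_max_right _ _)
  obtain ⟨CA, hanch⟩ := hanch c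
  obtain ⟨CT, hrts⟩ := thA_rts n m
  obtain ⟨C, hC⟩ : ∃ C, C = max CA (max CT (Q0 * (ν2 * c + c))) := ⟨_, rfl⟩
  have hCA : CA ≤ C := by rw [hC]; exact le_max_left _ _
  have hCT : CT ≤ C := by rw [hC]; exact (le_max_left _ _).trans (le_max_right _ _)
  have hCQ : Q0 * (ν2 * c + c) ≤ C := by rw [hC]; exact (le_max_right _ _).trans (le_max_right _ _)
  refine ⟨c, C, hcA, ?_⟩
  intro B f Fm a a' haa hBC hirr hirr' hirr2 P0 P1 l L0 L1 hT0 hT1 hl0 hl1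
  have hB2 := Fm.B2
  have hAB : 1 ≤ (a' - a) * B := Nat.mul_pos (by omega) (by omega)
  have hBA : B ≤ (a' - a) * B := Nat.le_mul_of_pos_left B (by omega)
  have hBT : B ^ CT ≤ a :=
    ((Nat.pow_le_pow_left hBA CT).trans (Nat.pow_le_pow_right hAB hCT)).trans hBC
  have hAA : ((a' - a) * B) ^ CA ≤ a := (Nat.pow_le_pow_right hAB hCA).trans hBC
  have ha1 : 1 ≤ a := (Nat.one_le_pow _ _ hAB).trans hBC
  have ha1r : (1 : ℝ) ≤ a := by exact_mod_cast ha1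
  have hla : 0 ≤ Real.log a := Real.log_nonneg ha1r
  have hr := hrts B f Fm a hBT
  have hr' := hrts B f Fm a' (hBT.trans haa.le)
  obtain ⟨θ, hθ⟩ : ∃ θ, θ = thA Fm.pd m a := ⟨_, rfl⟩
  obtain ⟨θ', hθ'⟩ : ∃ θ', θ' = thA Fm.pd m a' := ⟨_, rfl⟩
  obtain ⟨Dn, Dl, κ, e, M, X0, R, an, hB, hRX, hXa, ⟨ag⟩, ⟨da⟩⟩ := hanch B f Fm a a' haa hAA
  rw [← hθ] at hr L0 da
  rw [← hθ'] at hr' L1 da
  have hmon : (fa f a).Monic := Fm.monic.map _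
  have hmon' : (fa f a').Monic := Fm.monic.map _
  have hG0 : GdG (v1 θ) := gdG_one hmon hr
  have hG1 : GdG (v1 θ') := gdG_one hmon' hr'
  have hG2 : GdG (v2 θ θ') := gdG_two hmon hmon' hr hr'
  have hTr0 : TrG (v1 θ) := trG_one hmon hirr hr
  have hTr1 : TrG (v1 θ') := trG_one hmon' hirr' hr'
  have hTr2 : TrG (v2 θ θ') := by
    have : Fact (Irreducible ((fa f a).map (Int.castRingHom ℚ))) := ⟨hirr⟩
    exact trG_two hmon hmon' hirr2 hr hr'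
  have hR2 : 2 ≤ R := hB.R2
  have h2R : (1 : ℝ) ≤ 2 * R := by linarith
  have hX1 : (1 : ℝ) ≤ X0 := (one_le_pow₀ h2R).trans hRX
  have hlX : 0 ≤ Real.log X0 := Real.log_nonneg hX1
  have hlXa : Real.log X0 ≤ Q0 * Real.log a := by
    rw [← Real.log_pow]
    exact Real.log_le_log (by linarith) hXa
  have hn0 : (5 : ℝ) ≤ n := by exact_mod_cast hn
  -- the two curves
  obtain ⟨P, hP0, hP1⟩ : ∃ P : Fin 2 → Ptd ν, P 0 = P0 ∧ P 1 = P1 := ⟨![P0, P1], rfl, rfl⟩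
  subst hP0 hP1
  have hlow : ∀ c' : ℕ, c' ≤ ν2 * c + c → (c' : ℝ) * Real.log X0 ≤ C * Real.log a := by
    intro c' hc'
    calc (c' : ℝ) * Real.log X0 ≤ c' * (Q0 * Real.log a) :=
          mul_le_mul_of_nonneg_left hlXa (Nat.cast_nonneg _)
      _ = ((Q0 * c' : ℕ) : ℝ) * Real.log a := by push_cast; ring
      _ ≤ C * Real.log a := by
          refine mul_le_mul_of_nonneg_right ?_ hla
          exact_mod_cast (Nat.mul_le_mul_left Q0 hc').trans hCQ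
  have hScl : Scl c X0 R P := by
    refine ⟨hRX, fun v => ?_, fun v => ?_⟩
    · fin_cases v
      · exact hT0
      · exact hT1
    · have h1 := hlow c (Nat.le_add_left _ _)
      fin_cases v
      · exact h1.trans hl0
      · exact h1.trans hl1
  obtain ⟨tu, htu⟩ := exists_tup2 an da P L0 L1 hTr0 hTr1 hG0 hG1
  have htu' : (n : ℝ) * (tu.PP.card : ℝ) ≤ (Dn : ℝ) * (((P 0).d : ℝ) * ((P 1).d : ℝ)) := by
    exact_mod_cast htu
  have hcard0 : (0 : ℝ) ≤ (tu.PP.card : ℝ) := Nat.cast_nonneg _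
  have hcount : (1 + 1 / 9 : ℝ) * (27 * (tu.PP.card : ℝ)) ≤
      6 * ((Dn : ℝ) * (((P 0).d : ℝ) * ((P 1).d : ℝ))) := by
    have h1 : 5 * (tu.PP.card : ℝ) ≤ n * (tu.PP.card : ℝ) := mul_le_mul_of_nonneg_right hn0 hcard0
    linarith
  obtain ⟨hf1, hf2⟩ := hfar an ag P tu hB (prx_scl hScl hcf hR2) hcount
  have hSpc := hblk2 an P tu hB (prx_scl hScl hc3 hR2) hcount hf1.le hf2.le
  obtain ⟨Q, hQT, hQl, ⟨LQ⟩⟩ := hspc θ θ' hG0 hG1 (P 0) (P 1) l l L0 L1 ((P 0).thr_mono hc2 hT0) ((P 1).thr_mono hc2 hT1) hSpc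
  obtain ⟨tu1, htu1⟩ := exists_tup1 an da (fun _ => Q) LQ hTr2 hG2
  have htu1' : (n : ℝ) * (tu1.PP.card : ℝ) ≤ (Dn : ℝ) * (Q.d : ℝ) := by exact_mod_cast htu1
  have hν20 : (0 : ℝ) < ν2 := by exact_mod_cast (by omega : 0 < ν2)
  have hScl1 : Scl c1 X0 R (fun _ : Fin 1 => Q) := by
    refine ⟨(pow_le_pow_right₀ h2R hc1).trans hRX, fun _ => hQT, fun _ => ?_⟩
    have h1 := hlow (ν2 * c1) ((Nat.mul_le_mul_left ν2 hc1).trans (Nat.le_add_right _ _))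
    have h2 : (ν2 : ℝ) * (c1 * Real.log X0) ≤ ν2 * Q.ell := by
      push_cast at h1
      linarith
    exact le_of_mul_le_mul_left h2 hν20
  refine hblk1 an (fun _ => Q) tu1 hB hScl1 ?_
  have hcard1 : (0 : ℝ) ≤ (tu1.PP.card : ℝ) := Nat.cast_nonneg _
  have h1 : 5 * (tu1.PP.card : ℝ) ≤ n * (tu1.PP.card : ℝ) := mul_le_mul_of_nonneg_right hn0 hcard1
  show (1 + 1 / 9 : ℝ) * (4 * (tu1.PP.card : ℝ)) ≤ 2 * ((Dn : ℝ) * (Q.d : ℝ))
  linarith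

end Pool.Agent.H97.FB
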