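import Pool.Agent.H97.FB.SDef
import Pool.Agent.H52.AC.PRM
import Pool.Agent.H34.AC.KapA

/-! # [H97 FB SGA] The relation `SG`: branches, rescaling, automorphisms

`sg_perm`: `perm_gal` and `coeff_mem` (`H52/AC/PRM.lean`), `sg_of_cj`. `sg_rescale`: `rescale ζ v` over `AA`; compare coefficients (`PowerSeries.coeff_rescale`, `coeff_map`).
`sg_tq`: `tq e q p` is the image of a power series over `AA` (`eval₂RingHom (Int.castRingHom (PowerSeries AA)) ((C (q : AA) * X)^e) p`), see the proof of `perm_gal` (`hcomp`). `rou_mem`: a root of unity is algebraic.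
`au σ`: the automorphism of `AA` given by `σ` (`aa_equiv`, `Pool/Agent/H34/AC/KapA.lean`); `cmpA τ σ`: first `σ`, then `τ`; `invA σ`: the inverse.
`sg_trans`, `sg_symm`: push the series over `AA` through `au σ` (`PowerSeries.map`). -/

namespace Pool.Agent.H97.FB

open Finset Polynomial Pool.Agent.H87.SA2 Pool.Agent.H8.AW Pool.Agent.H52.AC Pool.Agent.H34.AC

theorem sg_perm {g : ℤ[X][X]} {d : ℕ} (pd : PData g d) (σ : AA →+* ℂ) :
    ∃ π : Equiv.Perm (Fin d), ∀ i, SG σ (pd.x i) (pd.x (π i)) := by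
  obtain ⟨π, hπ⟩ := perm_gal pd σ
  exact ⟨π, fun i => sg_of_cj (fun k => coeff_mem pd i k) fun k a ha => hπ i k a ha⟩

theorem sg_rescale {σ : AA →+* ℂ} {w w' : PowerSeries ℂ} (h : SG σ w w') (ζ : AA) :
    SG σ (PowerSeries.rescale (ζ : ℂ) w) (PowerSeries.rescale (σ ζ) w') := by
  obtain ⟨v, rfl, rfl⟩ := h
  refine ⟨PowerSeries.rescale ζ v, ?_, ?_⟩
  · ext k
    rw [PowerSeries.coeff_map, PowerSeries.coeff_rescale, PowerSeries.coeff_rescale,
      PowerSeries.coeff_map, map_mul, map_pow]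
    rfl
  · ext k
    rw [PowerSeries.coeff_map, PowerSeries.coeff_rescale, PowerSeries.coeff_rescale,
      PowerSeries.coeff_map, map_mul, map_pow]

theorem sg_tq (σ : AA →+* ℂ) (e q : ℕ) (p : ℤ[X]) : SG σ (tq e q p) (tq e q p) := by
  obtain ⟨φ, hφ⟩ : ∃ φ : ℤ[X] →+* PowerSeries AA, φ = eval₂RingHom
    (Int.castRingHom (PowerSeries AA))
      ((PowerSeries.C ((q : ℕ) : AA) * PowerSeries.X) ^ e) := ⟨_, rfl⟩
  have hcomp : ∀ τ : AA →+* ℂ, (PowerSeries.map τ).comp φ = tq e q := by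
    intro τ
    apply Polynomial.ringHom_ext
    · intro a
      simp [tq]
    · rw [hφ, RingHom.comp_apply, coe_eval₂RingHom, tq, coe_eval₂RingHom, eval₂_X, eval₂_X,
        map_pow, map_mul, PowerSeries.map_X, PowerSeries.map_C, map_natCast]
  refine ⟨φ p, ?_, ?_⟩
  · rw [← hcomp (algebraMap AA ℂ)]
    rfl
  · rw [← hcomp σ]
    rfl

theorem rou_mem {ζ : ℂ} {e : ℕ} (he : e ≠ 0) (h : ζ ^ e = 1) : ζ ∈ AA := by
  rw [mem_algebraicClosure_iff]
  have h1 : IsIntegral ℚ ζ := by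
    refine IsIntegral.of_pow (Nat.pos_of_ne_zero he) ?_
    rw [h]
    exact isIntegral_one
  exact h1.isAlgebraic

/-- the automorphism given by an embedding -/
noncomputable def au (σ : AA →+* ℂ) : AA ≃ₐ[ℚ] AA := (aa_equiv σ).choose

theorem au_spec (σ : AA →+* ℂ) (a : AA) : ((au σ a : AA) : ℂ) = σ a :=
  (aa_equiv σ).choose_spec a

/-- first `σ`, then `τ` -/
noncomputable def cmpA (τ σ : AA →+* ℂ) : AA →+* ℂ := τ.comp ((au σ : AA ≃ₐ[ℚ] AA) : AA →+* AA)

/-- the inverse -/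
noncomputable def invA (σ : AA →+* ℂ) : AA →+* ℂ :=
  (algebraMap AA ℂ).comp (((au σ).symm : AA ≃ₐ[ℚ] AA) : AA →+* AA)

theorem Cj.trans {σ τ : AA →+* ℂ} {z w u : ℂ} (hz : z ∈ AA) (h : Cj σ z w) (h' : Cj τ w u) :
    Cj (cmpA τ σ) z u := by
  intro a ha
  have h1 : ((au σ a : AA) : ℂ) = w := by rw [au_spec, h a ha]
  exact h' (au σ a) h1

theorem Cj.inv {σ : AA →+* ℂ} {z w : ℂ} (hz : z ∈ AA) (h : Cj σ z w) : Cj (invA σ) w z := by
  intro b hb
  have h1 : au σ ⟨z, hz⟩ = b := by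
    apply Subtype.ext
    rw [au_spec, h ⟨z, hz⟩ rfl, hb]
  have h2 : (au σ).symm b = ⟨z, hz⟩ := by rw [← h1, AlgEquiv.symm_apply_apply]
  show (((au σ).symm b : AA) : ℂ) = z
  rw [h2]

theorem SG.trans {σ τ : AA →+* ℂ} {w w' w'' : PowerSeries ℂ} (h : SG σ w w') (h' : SG τ w' w'') :
    SG (cmpA τ σ) w w'' := by
  obtain ⟨v, h1, h2⟩ := h
  obtain ⟨v', h3, h4⟩ := h'
  have h5 : PowerSeries.map ((au σ : AA ≃ₐ[ℚ] AA) : AA →+* AA) v = v' := by
    apply PowerSeries.map_injective _ (algebraMap AA ℂ).injective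
    rw [h3, ← h2]
    ext k
    rw [PowerSeries.coeff_map, PowerSeries.coeff_map, PowerSeries.coeff_map]
    exact au_spec σ _
  refine ⟨v, h1, ?_⟩
  rw [← h4, ← h5]
  ext k
  rw [PowerSeries.coeff_map, PowerSeries.coeff_map, PowerSeries.coeff_map]
  rfl

theorem SG.inv {σ : AA →+* ℂ} {w w' : PowerSeries ℂ} (h : SG σ w w') : SG (invA σ) w' w := by
  obtain ⟨v, h1, h2⟩ := h
  refine ⟨PowerSeries.map ((au σ : AA ≃ₐ[ℚ] AA) : AA →+* AA) v, ?_, ?_⟩
  · rw [← h2]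
    ext k
    rw [PowerSeries.coeff_map, PowerSeries.coeff_map, PowerSeries.coeff_map]
    exact au_spec σ _
  · rw [← h1]
    ext k
    rw [PowerSeries.coeff_map, PowerSeries.coeff_map, PowerSeries.coeff_map]
    show (((au σ).symm (au σ (PowerSeries.coeff k v)) : AA) : ℂ) = _
    rw [AlgEquiv.symm_apply_apply]
    rfl

end Pool.Agent.H97.FB
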