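import Mathlib

/-! # [H97 FB SIV] The growth of the inverse of a power series

`h0`: `‖η_0‖ ≥ 1/A`, `η_0 ≠ 0`. `y_0 = 1/η_0`, `‖y_0‖ ≤ A`. For `l ≥ 1` the coefficient of index `l` of `η y = 1`: `η_0 y_l = - ∑_(i=1)^l η_i y_(l-i)` (`PowerSeries.coeff_mul`, antidiagonal), so `‖y_l‖ ≤ ∑_(i=1)^l A * A^(i+1) ‖y_(l-i)‖ ≤ ∑_(i=1)^l (A^3)^i ‖y_(l-i)‖` (`A^(i+2) ≤ A^(3 i)` for `i ≥ 1`).
Strong induction: `‖y_(l-i)‖ ≤ A (2 A^3)^(l-i)`, so `‖y_l‖ ≤ A (2A^3)^l ∑_(i ≥ 1) 2^(-i) ≤ A (2 A^3)^l`. -/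

namespace Pool.Agent.H97.FB

private theorem siv_geo (l : ℕ) : ∑ k ∈ Finset.range l, (2 : ℝ) ^ (l - (k + 1)) ≤ 2 ^ l := by
  induction l with
  | zero => simp
  | succ n ih =>
    rw [Finset.sum_range_succ']
    have h1 : ∀ k ∈ Finset.range n, (2 : ℝ) ^ (n + 1 - (k + 1 + 1)) = 2 ^ (n - (k + 1)) := by
      intro k _
      congr 1
      omega
    rw [Finset.sum_congr rfl h1]
    have h2 : n + 1 - (0 + 1) = n := by omega
    rw [h2, pow_succ]
    linarith

theorem siv {A : ℝ} (hA : 1 ≤ A) {η y : PowerSeries ℂ}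
    (h0 : 1 ≤ ‖PowerSeries.coeff 0 η‖ * A) (hη : ∀ l, ‖PowerSeries.coeff l η‖ ≤ A ^ (l + 1))
    (hy : η * y = 1) (l : ℕ) : ‖PowerSeries.coeff l y‖ ≤ A * (2 * A ^ 3) ^ l := by
  have hA0 : 0 ≤ A := by linarith
  have hz : PowerSeries.coeff 0 η * PowerSeries.coeff 0 y = 1 := by
    have h := congrArg (PowerSeries.coeff 0) hy
    rw [PowerSeries.coeff_mul] at h
    simpa using h
  have hz' : ‖PowerSeries.coeff 0 η‖ * ‖PowerSeries.coeff 0 y‖ = 1 := by
    rw [← norm_mul, hz, norm_one]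
  have key : ∀ z : ℂ, ∀ B : ℝ, ‖PowerSeries.coeff 0 η * z‖ ≤ B → ‖z‖ ≤ A * B := by
    intro z B h
    rw [norm_mul] at h
    have h1 : ‖z‖ * 1 ≤ ‖z‖ * (‖PowerSeries.coeff 0 η‖ * A) :=
      mul_le_mul_of_nonneg_left h0 (norm_nonneg z)
    have h2 : A * (‖PowerSeries.coeff 0 η‖ * ‖z‖) ≤ A * B := mul_le_mul_of_nonneg_left h hA0
    nlinarith
  induction l using Nat.strong_induction_on with
  | _ l ih =>
    rcases Nat.eq_zero_or_pos l with h | hl
    · subst h
      have := key (PowerSeries.coeff 0 y) 1 (by rw [hz]; simp)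
      simpa using this
    · have h := congrArg (PowerSeries.coeff l) hy
      rw [PowerSeries.coeff_mul, PowerSeries.coeff_one, if_neg (by omega),
        Finset.Nat.sum_antidiagonal_eq_sum_range_succ
          (fun i j => PowerSeries.coeff i η * PowerSeries.coeff j y) l,
        Finset.sum_range_succ'] at h
      have h1 : PowerSeries.coeff 0 η * PowerSeries.coeff l y =
          -∑ k ∈ Finset.range l, PowerSeries.coeff (k + 1) η * PowerSeries.coeff (l - (k + 1)) y := by
        have h' := h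
        simp only [Nat.sub_zero] at h'
        linear_combination h'
      have hb : ‖PowerSeries.coeff 0 η * PowerSeries.coeff l y‖ ≤
          ∑ k ∈ Finset.range l, A ^ (k + 2) * (A * (2 * A ^ 3) ^ (l - (k + 1))) := by
        rw [h1, norm_neg]
        refine (norm_sum_le _ _).trans (Finset.sum_le_sum fun k hk => ?_)
        rw [Finset.mem_range] at hk
        rw [norm_mul]
        exact mul_le_mul (hη (k + 1)) (ih _ (by omega)) (norm_nonneg _) (by positivity)
      have hc := key _ _ hb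
      refine hc.trans (mul_le_mul_of_nonneg_left ?_ hA0)
      calc ∑ k ∈ Finset.range l, A ^ (k + 2) * (A * (2 * A ^ 3) ^ (l - (k + 1)))
          ≤ ∑ k ∈ Finset.range l, A ^ (3 * l) * 2 ^ (l - (k + 1)) := by
            refine Finset.sum_le_sum fun k hk => ?_
            rw [Finset.mem_range] at hk
            rw [mul_pow, ← pow_mul]
            have e : A ^ (k + 2) * (A * (2 ^ (l - (k + 1)) * A ^ (3 * (l - (k + 1))))) =
                A ^ (k + 3 + 3 * (l - (k + 1))) * 2 ^ (l - (k + 1)) := by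
              rw [pow_add, pow_add, pow_add]
              ring
            rw [e]
            refine mul_le_mul_of_nonneg_right (pow_le_pow_right₀ hA ?_) (by positivity)
            omega
        _ = A ^ (3 * l) * ∑ k ∈ Finset.range l, (2 : ℝ) ^ (l - (k + 1)) := by
            rw [Finset.mul_sum]
        _ ≤ A ^ (3 * l) * 2 ^ l := mul_le_mul_of_nonneg_left (siv_geo l) (by positivity)
        _ = (2 * A ^ 3) ^ l := by
            rw [mul_pow, ← pow_mul]
            ring

end Pool.Agent.H97.FB
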