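import Pool.Agent.H97.FB.SRC
import Pool.Agent.H97.FB.SGA

/-! # [H97 FB SLO] A lower bound for a coefficient

`low_conj`: `f = minpoly ℤ (v l)`, monic, `f.coeff 0 ≠ 0` (`v l ≠ 0`), an integer. Its complex roots are conjugates of `v l`, so values `v l'` (as `root_lt_SM` in `Pool/Agent/H87/AX/SM.lean`: every root of `minpoly ℚ (v l)` is `σ a` for some `σ : AA →+* ℂ`, `a` the element `v l`; `Cj`), different (separable), so there are `m ≤ D` of them, each of norm `≤ A`. `|f.coeff 0| = ∏ |roots| ≤ ‖v l‖ A^(m-1) ≤ ‖v l‖ A^D`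
(`v l` is one of the roots), see `small_zero` in the same file for the product formula.
`slo`: write `e' = pd.e`, `q' = pd.q`, `κ, κ'` as in `SRC.lean`. For every branch `l` let `η_l = Lam ((C (q q') * X)^(e e')) (sbm κ' e (x l)) G`. `src_eq` gives `l0` with `sbm κ e' (G.eval₂ (tq e q) ξ) = η_(l0)` (`sbm` is a ring homomorphism, `sbm κ e' (tq e q X) = (C (q q') * X)^(e e')`). Let `v l = coeff (e' s) (η_l)`: `v l0 = κ^s coeff s (..) ≠ 0`.
Algebraic integers: the coefficients of the `x l` are (`pd.integral`), `κ'` and `q q'` are natural numbers, sums and products. Conjugation: `SG σ (x l) (x (π l))` (`sg_perm`) gives `SG σ (η_l) (η_(π l))` (`Lam` is a polynomial expression: `SG.mul` etc.; `sbm κ'` commutes since `κ'` is a natural number), then `SG.cj`.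
Upper bound: `‖coeff k (sbm κ' e (x l))‖ ≤ R (R κ')^k`; with `r = 1/(2 R κ' q q')`: `nrm r (sbm ..) ≤ 2 R` (`gr_geo`), `nrm r ((C (q q') X)^(e e')) ≤ 1`, `nrm_Lam` with `M = 2 R`: `nrm r (η_l) ≤ (δ+1)^2 B (2R)^(2 δ)`, so `‖v l‖ ≤ (δ+1)^2 B (2 R)^(2δ) (2 R κ' q q')^(e' s) ≤ B^K1 =: A` with `K1` depending only on `np, N, δ`
(`R, q, q' ≤ B`, `e ≤ N`, `e' ≤ np!`, `s ≤ N δ`, `δ + 1 ≤ 2^(δ+1) ≤ B^(δ+1)`). `low_conj` with `D ≤ np`: `1 ≤ ‖v l0‖ A^np = |κ|^s ‖coeff s ..‖ A^np`, `κ^s ≤ B^(2 np! N δ)`. -/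

namespace Pool.Agent.H97.FB

open Finset Polynomial Pool.Agent.H87.SA2 Pool.Agent.H8.AW Pool.Agent.H52.AC
open Pool.Agent.H72.ES (ev cst toP Lam)

private theorem slo_prod (s : Multiset ℂ) {A : ℝ} (hA : 1 ≤ A) (h : ∀ β ∈ s, ‖β‖ ≤ A) :
    (s.map (fun β => ‖β‖)).prod ≤ A ^ Multiset.card s := by
  induction s using Multiset.induction_on with
  | empty => simp
  | cons a t ih =>
    rw [Multiset.map_cons, Multiset.prod_cons, Multiset.card_cons, pow_succ, mul_comm]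
    refine mul_le_mul (ih fun β hβ => h β (Multiset.mem_cons_of_mem hβ))
      (h a (Multiset.mem_cons_self a t)) (norm_nonneg _) (by positivity)

theorem low_conj {D : ℕ} (v : Fin D → ℂ) (hint : ∀ l, IsIntegral ℤ (v l)) {A : ℝ} (hA : 1 ≤ A)
    (hle : ∀ l, ‖v l‖ ≤ A) (hgal : ∀ (σ : AA →+* ℂ) (l : Fin D), ∃ l', Cj σ (v l) (v l'))
    (l : Fin D) (h0 : v l ≠ 0) : 1 ≤ ‖v l‖ * A ^ D := by
  have hi := hint l
  obtain ⟨f, hf⟩ : ∃ f : ℤ[X], f = minpoly ℤ (v l) := ⟨_, rfl⟩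
  have hfrac : minpoly ℚ (v l) = f.map (algebraMap ℤ ℚ) := by
    rw [hf]
    exact minpoly.isIntegrallyClosed_eq_field_fractions' ℚ hi
  have hiQ : IsIntegral ℚ (v l) := hi.tower_top
  obtain ⟨Q, hQ⟩ : ∃ Q : ℂ[X], Q = (minpoly ℚ (v l)).map (algebraMap ℚ ℂ) := ⟨_, rfl⟩
  have hQm : Q.Monic := by
    rw [hQ]
    exact (minpoly.monic hiQ).map _
  have hsplit : Q.Splits := IsAlgClosed.splits Q
  have hsep : Q.Separable := by
    rw [hQ]
    exact ((minpoly.irreducible hiQ).separable).map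
  have hnodup : Q.roots.Nodup := nodup_roots hsep
  -- every root is a value
  have hroot : ∀ β ∈ Q.roots, ∃ l', β = v l' := by
    intro β hβ
    have h2 := (mem_roots'.mp hβ).2
    rw [IsRoot.def, hQ, eval_map_algebraMap] at h2
    have hmem : v l ∈ AA := mem_algebraicClosure_iff.mpr hiQ.isAlgebraic
    obtain ⟨a, ha⟩ : ∃ a : AA, (a : ℂ) = v l := ⟨⟨v l, hmem⟩, rfl⟩
    have hint' : IsIntegral ℚ a := by
      rw [← isIntegral_algebraMap_iff (algebraMap AA ℂ).injective]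
      change IsIntegral ℚ (a : ℂ)
      rw [ha]
      exact hiQ
    have hmin : minpoly ℚ a = minpoly ℚ (v l) := by
      rw [← ha]
      exact (minpoly.algebraMap_eq (algebraMap AA ℂ).injective a).symm
    have hAA : Algebra.IsAlgebraic ℚ AA := algebraicClosure.isAlgebraic ℚ ℂ
    have hset := Algebra.IsAlgebraic.range_eval_eq_rootSet_minpoly (F := ℚ) (K := AA) ℂ a
    have hroot : β ∈ (minpoly ℚ a).rootSet ℂ := by
      rw [Polynomial.mem_rootSet]
      exact ⟨minpoly.ne_zero hint', by rw [hmin]; exact h2⟩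
    rw [← hset] at hroot
    obtain ⟨ψ, hψ⟩ := hroot
    obtain ⟨l', hl'⟩ := hgal ψ.toRingHom l
    refine ⟨l', ?_⟩
    rw [← hψ]
    exact hl' a ha
  -- the number of roots
  have hcard : Multiset.card Q.roots ≤ D := by
    have h1 : Q.roots.toFinset ⊆ Finset.univ.image v := by
      intro β hβ
      rw [Multiset.mem_toFinset] at hβ
      obtain ⟨l', hl'⟩ := hroot β hβ
      rw [Finset.mem_image]
      exact ⟨l', Finset.mem_univ _, hl'.symm⟩
    have h2 := Finset.card_le_card h1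
    have h3 : (Finset.univ.image v).card ≤ D := by
      refine Finset.card_image_le.trans ?_
      rw [Finset.card_univ, Fintype.card_fin]
    rw [Multiset.toFinset_card_of_nodup hnodup] at h2
    exact h2.trans h3
  have hvl : v l ∈ Q.roots := by
    rw [mem_roots hQm.ne_zero, IsRoot.def, hQ, eval_map_algebraMap]
    exact minpoly.aeval ℚ (v l)
  obtain ⟨t, ht⟩ := Multiset.exists_cons_of_mem hvl
  have heval : Q.eval 0 = (Q.roots.map fun β => 0 - β).prod := by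
    rw [hsplit.eval_eq_prod_roots_of_monic hQm]
  have hnorm : ‖Q.eval 0‖ ≤ ‖v l‖ * A ^ D := by
    rw [heval]
    have h1 : ‖(Q.roots.map fun β => 0 - β).prod‖ = (Q.roots.map fun β => ‖β‖).prod := by
      induction Q.roots using Multiset.induction_on with
      | empty => simp
      | cons a t ih =>
        rw [Multiset.map_cons, Multiset.prod_cons, Multiset.map_cons, Multiset.prod_cons, norm_mul,
          ih, zero_sub, norm_neg]
    rw [h1, ht, Multiset.map_cons, Multiset.prod_cons]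
    refine mul_le_mul_of_nonneg_left ?_ (norm_nonneg _)
    refine (slo_prod t hA fun β hβ => ?_).trans ?_
    · obtain ⟨l', hl'⟩ := hroot β (by rw [ht]; exact Multiset.mem_cons_of_mem hβ)
      rw [hl']
      exact hle l'
    · refine pow_le_pow_right₀ hA ?_
      rw [ht, Multiset.card_cons] at hcard
      omega
  have hc : Q.eval 0 = ((f.coeff 0 : ℤ) : ℂ) := by
    rw [← coeff_zero_eq_eval_zero, hQ, coeff_map, hfrac, coeff_map]
    simp
  have hc0 : f.coeff 0 ≠ 0 := by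
    intro h
    apply h0
    rw [← minpoly.coeff_zero_eq_zero hiQ, hfrac, coeff_map, h, map_zero]
  refine le_trans ?_ hnorm
  rw [hc, Complex.norm_intCast]
  exact_mod_cast Int.one_le_abs hc0

/-! ### The substitution `sbm` -/

private theorem slo_hom {S S' : Type} [CommRing S] [CommRing S'] (ψ : S →+* S') (x y : S)
    (p : ℤ[X][X]) : ψ (Lam x y p) = Lam (ψ x) (ψ y) p := by
  have h : ψ.comp (Lam x y) = Lam (ψ x) (ψ y) := by
    refine Polynomial.ringHom_ext' (Polynomial.ringHom_ext' (RingHom.ext_int _ _) ?_) ?_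
    · simp [Lam]
    · simp [Lam]
  rw [← h]
  rfl

private theorem slo_sbm_X (κ : ℂ) {m : ℕ} (hm : m ≠ 0) :
    sbm κ m hm PowerSeries.X = PowerSeries.C κ * PowerSeries.X ^ m := by
  unfold sbm
  rw [RingHom.comp_apply, PowerSeries.rescale_X, map_mul, exr_C, exr_X]

private theorem slo_sbm_C (κ : ℂ) {m : ℕ} (hm : m ≠ 0) (a : ℂ) :
    sbm κ m hm (PowerSeries.C a) = PowerSeries.C a := by
  have h : PowerSeries.rescale κ (PowerSeries.C a) = PowerSeries.C a := by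
    ext n
    rw [PowerSeries.coeff_rescale, PowerSeries.coeff_C]
    split_ifs with hn
    · rw [hn, pow_zero, one_mul]
    · rw [mul_zero]
  unfold sbm
  rw [RingHom.comp_apply, h, exr_C]

private theorem slo_tq_X (e q : ℕ) :
    tq e q X = (PowerSeries.C (q : ℂ) * PowerSeries.X) ^ e := by
  unfold tq
  rw [coe_eval₂RingHom, eval₂_X]

private theorem slo_comp {e q e' q' : ℕ} (he' : e' ≠ 0) :
    (sbm ((q : ℂ) ^ (e' - 1) * (q' : ℂ) ^ e') e' he').comp (tq e q) = tq (e * e') (q * q') := by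
  refine Polynomial.ringHom_ext' (RingHom.ext_int _ _) ?_
  rw [RingHom.comp_apply, slo_tq_X, slo_tq_X, map_pow, map_mul, slo_sbm_X, slo_sbm_C, ← mul_assoc,
    ← map_mul, Nat.mul_comm e e', pow_mul]
  congr 1
  rw [mul_pow, ← map_pow]
  congr 2
  rw [Nat.cast_mul, mul_pow, ← mul_assoc, mul_comm (q : ℂ) (_ ^ (e' - 1)), ← pow_succ,
    Nat.sub_add_cancel (Nat.one_le_iff_ne_zero.2 he')]

/-- the integral power series -/
private def SI (w : PowerSeries ℂ) : Prop := ∀ k, IsIntegral ℤ (PowerSeries.coeff k w)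

private theorem SI.lift {w : PowerSeries ℂ} (h : SI w) : ∃ v : PowerSeries (integralClosure ℤ ℂ),
    PowerSeries.map (algebraMap (integralClosure ℤ ℂ) ℂ) v = w := by
  refine ⟨PowerSeries.mk fun k => ⟨PowerSeries.coeff k w, h k⟩, ?_⟩
  ext k
  rw [PowerSeries.coeff_map, PowerSeries.coeff_mk]
  rfl

private theorem SI.of_map {w : PowerSeries ℂ} (v : PowerSeries (integralClosure ℤ ℂ))
    (h : PowerSeries.map (algebraMap (integralClosure ℤ ℂ) ℂ) v = w) : SI w := by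
  intro k
  rw [← h, PowerSeries.coeff_map]
  exact (PowerSeries.coeff k v).2

private theorem SI.Lam {x y : PowerSeries ℂ} (hx : SI x) (hy : SI y) (G : ℤ[X][X]) :
    SI (Lam x y G) := by
  obtain ⟨v, hv⟩ := hx.lift
  obtain ⟨w, hw⟩ := hy.lift
  refine SI.of_map (Pool.Agent.H72.ES.Lam v w G) ?_
  rw [slo_hom, hv, hw]

private theorem SI.tq (e q : ℕ) : SI (tq e q X) := by
  refine SI.of_map ((PowerSeries.C (q : integralClosure ℤ ℂ) * PowerSeries.X) ^ e) ?_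
  rw [slo_tq_X, map_pow, map_mul, PowerSeries.map_X, PowerSeries.map_C, map_natCast]

private theorem SI.sbm {x : PowerSeries ℂ} (hx : SI x) (κ m : ℕ) (hm : m ≠ 0) :
    SI (sbm (κ : ℂ) m hm x) := by
  intro k
  rw [sbm_coeff]
  split_ifs
  · refine IsIntegral.mul (IsIntegral.pow ?_ _) (hx _)
    exact map_natCast (algebraMap ℤ ℂ) κ ▸ isIntegral_algebraMap
  · exact isIntegral_zero

private theorem slo_sg_Lam {σ : AA →+* ℂ} {x x' y y' : PowerSeries ℂ} (hx : SG σ x x')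
    (hy : SG σ y y') (G : ℤ[X][X]) : SG σ (Lam x y G) (Lam x' y' G) := by
  obtain ⟨v, h1, h2⟩ := hx
  obtain ⟨w, h3, h4⟩ := hy
  exact ⟨Lam v w G, by rw [slo_hom, h1, h3], by rw [slo_hom, h2, h4]⟩

private theorem slo_sg_sbm {σ : AA →+* ℂ} {x x' : PowerSeries ℂ} (hx : SG σ x x') (κ m : ℕ)
    (hm : m ≠ 0) : SG σ (sbm (κ : ℂ) m hm x) (sbm (κ : ℂ) m hm x') := by
  obtain ⟨v, h1, h2⟩ := hx
  have h : ∀ φ : AA →+* ℂ, PowerSeries.map φ ((exr AA m hm) (PowerSeries.rescale (κ : AA) v)) =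
      sbm (κ : ℂ) m hm (PowerSeries.map φ v) := by
    intro φ
    ext k
    rw [PowerSeries.coeff_map, coeff_exr, sbm_coeff]
    split_ifs
    · rw [PowerSeries.coeff_rescale, PowerSeries.coeff_map, map_mul, map_pow, map_natCast]
    · rw [map_zero]
  exact ⟨_, by rw [h, h1], by rw [h, h2]⟩

private theorem slo_gro {g : ℤ[X][X]} {d : ℕ} (pd : PData g d) (l : Fin d) {κ m : ℕ} (hm : m ≠ 0)
    (hκ : 1 ≤ κ) (k : ℕ) : ‖PowerSeries.coeff k (sbm (κ : ℂ) m hm (pd.x l))‖ ≤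
      pd.R * (pd.R * κ) ^ k := by
  have hR : (1 : ℝ) ≤ pd.R := by
    have := pd.R_ge
    linarith
  have hκ' : (1 : ℝ) ≤ κ := by exact_mod_cast hκ
  have h1 : (1 : ℝ) ≤ pd.R * κ := by nlinarith
  rw [sbm_coeff]
  split_ifs with hk
  · rw [norm_mul, norm_pow, Complex.norm_natCast]
    calc (κ : ℝ) ^ (k / m) * ‖PowerSeries.coeff (k / m) (pd.x l)‖
        ≤ (κ : ℝ) ^ (k / m) * pd.R ^ (k / m + 1) :=
          mul_le_mul_of_nonneg_left (pd.growth l _) (by positivity)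
      _ = pd.R * (pd.R * κ) ^ (k / m) := by
          rw [pow_succ, mul_pow]
          ring
      _ ≤ pd.R * (pd.R * κ) ^ k :=
          mul_le_mul_of_nonneg_left (pow_le_pow_right₀ h1 (Nat.div_le_self k m)) (by linarith)
  · rw [norm_zero]
    positivity

private theorem slo_lam {σ : ℤ[X] →+* PowerSeries ℂ} (G : ℤ[X][X]) (y : PowerSeries ℂ) :
    G.eval₂ σ y = Lam (σ X) y G := by
  unfold Lam
  rw [coe_eval₂RingHom]
  congr 1
  refine Polynomial.ringHom_ext' (RingHom.ext_int _ _) ?_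
  rw [coe_eval₂RingHom, eval₂_X]

private theorem slo_two (B m : ℕ) (hB : 2 ≤ B) : ((m : ℝ) + 1) ≤ (B : ℝ) ^ (m + 1) := by
  have h1 : m + 1 ≤ 2 ^ (m + 1) := Nat.lt_two_pow_self.le
  have h2 : 2 ^ (m + 1) ≤ B ^ (m + 1) := Nat.pow_le_pow_left hB _
  exact_mod_cast h1.trans h2

theorem slo (np N δ : ℕ) : ∃ K : ℕ, ∀ (B : ℕ), 2 ≤ B → ∀ {D : ℕ}, D ≤ np → ∀ {g : ℤ[X][X]}
    (pd : PData g D), pd.e ≤ np.factorial → pd.q ≤ B → pd.R ≤ B → ∀ (e q : ℕ), e ≠ 0 → e ≤ N →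
    1 ≤ q → q ≤ B → ∀ (G : ℤ[X][X]), (∀ i j, |(G.coeff j).coeff i| ≤ (B : ℤ)) →
    G.natDegree ≤ δ → (∀ j, (G.coeff j).natDegree ≤ δ) → ∀ (ξ : PowerSeries ℂ),
    (g.map (tq e q)).eval ξ = 0 → ∀ s ≤ N * δ, PowerSeries.coeff s (G.eval₂ (tq e q) ξ) ≠ 0 →
      1 ≤ ‖PowerSeries.coeff s (G.eval₂ (tq e q) ξ)‖ * (B : ℝ) ^ K := by
  obtain ⟨S, hS⟩ : ∃ S, S = np.factorial * (N * δ) := ⟨_, rfl⟩
  obtain ⟨K1, hK1⟩ : ∃ K1, K1 = (6 * δ + 3) + (2 * N + 5) * S := ⟨_, rfl⟩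
  refine ⟨2 * np.factorial * (N * δ) + K1 * np, ?_⟩
  intro B hB D hD g pd hpe hpq hpR e q he heN hq1 hqB G hG hG1 hG2 ξ hξ s hs hne
  obtain ⟨e', he'⟩ : ∃ e', e' = pd.e := ⟨_, rfl⟩
  obtain ⟨q', hq'⟩ : ∃ q', q' = pd.q := ⟨_, rfl⟩
  have he0 : e' ≠ 0 := by
    rw [he']
    exact pe_ne pd
  have hq0 : 1 ≤ q' := by
    rw [hq']
    exact pd.q_pos
  have hB1 : (1 : ℝ) ≤ B := by exact_mod_cast (by omega : 1 ≤ B)
  have hB2 : (2 : ℝ) ≤ B := by exact_mod_cast hB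
  obtain ⟨κ', hκ'⟩ : ∃ κ' : ℕ, κ' = q' ^ (e - 1) * q ^ e := ⟨_, rfl⟩
  have hκ1 : 1 ≤ κ' := by
    rw [hκ']
    exact Nat.one_le_iff_ne_zero.2 (Nat.mul_ne_zero (pow_ne_zero _ (by omega))
      (pow_ne_zero _ (by omega)))
  obtain ⟨η, hη⟩ : ∃ η : Fin D → PowerSeries ℂ, η = fun l =>
    Lam (tq (e * e') (q * q') X) (sbm (κ' : ℂ) e he (pd.x l)) G := ⟨_, rfl⟩
  -- the value is one of the conjugates
  obtain ⟨l0, hl0⟩ := src_eq pd he hq1 hξ
  have hmain : sbm ((q : ℂ) ^ (e' - 1) * (q' : ℂ) ^ e') e' he0 (G.eval₂ (tq e q) ξ) = η l0 := by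
    rw [hη]
    change _ = Lam (tq (e * e') (q * q') X) (sbm (κ' : ℂ) e he (pd.x l0)) G
    rw [hom_eval₂, slo_comp he0, slo_lam]
    congr 2
    subst he' hq'
    rw [hl0, hκ']
    push_cast
    rfl
  obtain ⟨v, hv⟩ : ∃ v : Fin D → ℂ, v = fun l => PowerSeries.coeff (e' * s) (η l) := ⟨_, rfl⟩
  have hvl0 : v l0 = ((q : ℂ) ^ (e' - 1) * (q' : ℂ) ^ e') ^ s *
      PowerSeries.coeff s (G.eval₂ (tq e q) ξ) := by
    rw [hv]
    change PowerSeries.coeff (e' * s) (η l0) = _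
    rw [← hmain, sbm_coeff, if_pos (Nat.dvd_mul_right e' s), Nat.mul_div_cancel_left s
      (Nat.pos_of_ne_zero he0)]
  have hint : ∀ l, IsIntegral ℤ (v l) := by
    intro l
    rw [hv, hη]
    exact SI.Lam (SI.tq _ _) (SI.sbm (pd.integral l) κ' e he) G (e' * s)
  have hgal : ∀ (σ : AA →+* ℂ) (l : Fin D), ∃ l', Cj σ (v l) (v l') := by
    intro σ l
    obtain ⟨π, hπ⟩ := sg_perm pd σ
    refine ⟨π l, ?_⟩
    rw [hv, hη]
    exact (slo_sg_Lam (sg_tq σ (e * e') (q * q') X) (slo_sg_sbm (hπ l) κ' e he) G).cj (e' * s)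
  -- sizes
  have hqr : (1 : ℝ) ≤ q := by exact_mod_cast hq1
  have hqr' : (1 : ℝ) ≤ q' := by exact_mod_cast hq0
  have hκr : (1 : ℝ) ≤ κ' := by exact_mod_cast hκ1
  have hR2 := pd.R_ge
  have hqB' : (q : ℝ) ≤ B := by exact_mod_cast hqB
  have hq'B : (q' : ℝ) ≤ B := by
    rw [hq']
    exact_mod_cast hpq
  have hκB : (κ' : ℝ) ≤ (B : ℝ) ^ (2 * N) := by
    rw [hκ', Nat.cast_mul, Nat.cast_pow, Nat.cast_pow, two_mul, pow_add]
    refine mul_le_mul ?_ ?_ (by positivity) (by positivity)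
    · exact (pow_le_pow_left₀ (by positivity) hq'B _).trans (pow_le_pow_right₀ hB1 (by omega))
    · exact (pow_le_pow_left₀ (by positivity) hqB' _).trans (pow_le_pow_right₀ hB1 (by omega))
  obtain ⟨ρ, hρ⟩ : ∃ ρ : ℝ, ρ = 2 * pd.R * κ' * q * q' := ⟨_, rfl⟩
  have hρ1 : 1 ≤ ρ := by
    rw [hρ]
    have h1 : (1 : ℝ) ≤ 2 * pd.R := by linarith
    have h2 : (1 : ℝ) ≤ 2 * pd.R * κ' := one_le_mul_of_one_le_of_one_le h1 hκr
    have h3 : (1 : ℝ) ≤ 2 * pd.R * κ' * q := one_le_mul_of_one_le_of_one_le h2 hqr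
    exact one_le_mul_of_one_le_of_one_le h3 hqr'
  have hρB : ρ ≤ (B : ℝ) ^ (2 * N + 5) := by
    rw [hρ]
    have h5 : (B : ℝ) ^ (2 * N + 5) = B * B * B ^ (2 * N) * B * B * B := by ring
    have h1 : 2 * pd.R ≤ (B : ℝ) * B := mul_le_mul hB2 hpR (by linarith) (by linarith)
    have h2 : 2 * pd.R * κ' ≤ (B : ℝ) * B * B ^ (2 * N) :=
      mul_le_mul h1 hκB (by linarith) (by positivity)
    have h3 : 2 * pd.R * κ' * q ≤ (B : ℝ) * B * B ^ (2 * N) * B :=
      mul_le_mul h2 hqB' (by linarith) (by positivity)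
    have h4 : 2 * pd.R * κ' * q * q' ≤ (B : ℝ) * B * B ^ (2 * N) * B * B :=
      mul_le_mul h3 hq'B (by linarith) (by positivity)
    refine h4.trans ?_
    rw [h5]
    exact le_mul_of_one_le_right (by positivity) hB1
  have hr0 : 0 < 1 / ρ := by positivity
  have hup : ∀ l, ‖v l‖ ≤ (B : ℝ) ^ K1 := by
    intro l
    have hR0 : (0 : ℝ) < pd.R := by linarith
    have hκ0 : (0 : ℝ) < κ' := by linarith
    have hq0' : (0 : ℝ) < q := by linarith
    have hq0'' : (0 : ℝ) < q' := by linarith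
    have h1 := gr_geo (R := pd.R * κ') (r := 1 / ρ) (A := pd.R) (by positivity) hr0.le (by
      rw [mul_one_div, div_le_div_iff₀ (by linarith) (by norm_num), one_mul, hρ]
      have h6 : (1 : ℝ) ≤ q * q' := one_le_mul_of_one_le_of_one_le hqr hqr'
      calc pd.R * κ' * 2 = (2 * pd.R * κ') * 1 := by ring
        _ ≤ (2 * pd.R * κ') * (q * q') := mul_le_mul_of_nonneg_left h6 (by positivity)
        _ = _ := by ring) hR0.le (slo_gro pd l he hκ1)
    have h2 := tq_nrm (e * e') (q * q') (1 / ρ)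
    have h3 : nrm (1 / ρ) (tq (e * e') (q * q') X) ≤ 2 * pd.R := by
      rw [h2.2]
      refine (pow_le_one₀ (by positivity) ?_).trans (by linarith)
      rw [mul_one_div, div_le_one (by linarith), hρ, Nat.cast_mul]
      have h6 : (1 : ℝ) ≤ 2 * pd.R * κ' := one_le_mul_of_one_le_of_one_le (by linarith) hκr
      calc (q : ℝ) * q' = 1 * (q * q') := by ring
        _ ≤ (2 * pd.R * κ') * (q * q') := mul_le_mul_of_nonneg_right h6 (by positivity)
        _ = _ := by ring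
    have h4 := nrm_Lam (δ := δ) (B := (B : ℝ)) (M := 2 * pd.R) (r := 1 / ρ) G (fun i j => by
      have := hG i j
      exact_mod_cast this) hG1 hG2 hr0.le h2.1 h1.1 (by linarith) h3 h1.2
    have h5 := coeff_of_nrm hr0 h4.1 h4.2 (e' * s)
    rw [one_div_one_div] at h5
    have h6 : ‖v l‖ ≤ ((δ : ℝ) + 1) ^ 2 * (B * (2 * pd.R) ^ (2 * δ)) * ρ ^ (e' * s) := by
      rw [hv, hη]
      exact h5
    refine h6.trans ?_
    have h7 : ((δ : ℝ) + 1) ^ 2 ≤ ((B : ℝ) ^ (δ + 1)) ^ 2 :=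
      pow_le_pow_left₀ (by positivity) (slo_two B δ hB) 2
    have h8 : (2 * pd.R) ^ (2 * δ) ≤ ((B : ℝ) * B) ^ (2 * δ) :=
      pow_le_pow_left₀ (by positivity) (mul_le_mul hB2 hpR (by linarith) (by linarith)) _
    have h9 : ρ ^ (e' * s) ≤ ((B : ℝ) ^ (2 * N + 5)) ^ S := by
      refine (pow_le_pow_right₀ hρ1 (?_ : e' * s ≤ S)).trans
        (pow_le_pow_left₀ (by linarith) hρB _)
      rw [hS, he']
      exact Nat.mul_le_mul hpe hs
    calc ((δ : ℝ) + 1) ^ 2 * (B * (2 * pd.R) ^ (2 * δ)) * ρ ^ (e' * s)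
        ≤ ((B : ℝ) ^ (δ + 1)) ^ 2 * (B * ((B : ℝ) * B) ^ (2 * δ)) * ((B : ℝ) ^ (2 * N + 5)) ^ S := by
          refine mul_le_mul (mul_le_mul h7 (mul_le_mul_of_nonneg_left h8 (by positivity))
            (by positivity) (by positivity)) h9 (by positivity) (by positivity)
      _ = (B : ℝ) ^ K1 := by
          rw [hK1]
          ring
  have hA1 : (1 : ℝ) ≤ (B : ℝ) ^ K1 := one_le_pow₀ hB1
  have hv0 : v l0 ≠ 0 := by
    rw [hvl0]
    refine mul_ne_zero (pow_ne_zero _ (mul_ne_zero (pow_ne_zero _ ?_) (pow_ne_zero _ ?_))) hne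
    · exact_mod_cast (by omega : q ≠ 0)
    · exact_mod_cast (by omega : q' ≠ 0)
  have hfin := low_conj v hint hA1 hup hgal l0 hv0
  refine hfin.trans ?_
  rw [hvl0, norm_mul, norm_pow, norm_mul, norm_pow, norm_pow, Complex.norm_natCast,
    Complex.norm_natCast]
  have h1 : ((q : ℝ) ^ (e' - 1) * (q' : ℝ) ^ e') ^ s ≤ (B : ℝ) ^ (2 * np.factorial * (N * δ)) := by
    have h2 : (q : ℝ) ^ (e' - 1) * (q' : ℝ) ^ e' ≤ (B : ℝ) ^ (2 * np.factorial) := by
      rw [two_mul, pow_add]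
      refine mul_le_mul ?_ ?_ (by positivity) (by positivity)
      · exact (pow_le_pow_left₀ (by positivity) hqB' _).trans
          (pow_le_pow_right₀ hB1 (by omega))
      · exact (pow_le_pow_left₀ (by positivity) hq'B _).trans
          (pow_le_pow_right₀ hB1 (by omega))
    rw [pow_mul]
    refine (pow_le_pow_left₀ (by positivity) h2 s).trans ?_
    exact pow_le_pow_right₀ (one_le_pow₀ hB1) hs
  have h2 : ((B : ℝ) ^ K1) ^ D ≤ (B : ℝ) ^ (K1 * np) := by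
    rw [← pow_mul]
    exact pow_le_pow_right₀ hB1 (Nat.mul_le_mul_left K1 hD)
  calc ((q : ℝ) ^ (e' - 1) * (q' : ℝ) ^ e') ^ s * ‖PowerSeries.coeff s (G.eval₂ (tq e q) ξ)‖ *
        ((B : ℝ) ^ K1) ^ D
      ≤ (B : ℝ) ^ (2 * np.factorial * (N * δ)) * ‖PowerSeries.coeff s (G.eval₂ (tq e q) ξ)‖ *
        (B : ℝ) ^ (K1 * np) := by
        refine mul_le_mul (mul_le_mul_of_nonneg_right h1 (norm_nonneg _)) h2 (by positivity)
          (by positivity)
    _ = _ := by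
        rw [pow_add]
        ring

end Pool.Agent.H97.FB
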