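import Pool.Agent.H97.FB.SDef

/-! # [H97 FB SNR] Norms of series and of polynomial expressions

`nrm_add`: `norm_add_le`, `Summable.tsum_add`, `tsum_le_tsum`. `nrm_C`, `nrm_X`: `tsum_eq_single`. `gr_geo`: `gr_of_le` and comparison with the geometric series (`tsum_geometric_of_lt_one`, `1/(1 - R r) ≤ 2`).
`nrm_Lam`: `Lam t ξ G = ∑_(j ≤ δ) ∑_(i ≤ δ) G_ij t^i ξ^j` (`eval₂_eq_sum_range'`), each term has norm at most `B * M^i * M^j ≤ B * M^(2 δ)` (`nrm_mul`, `nrm_pow`, `nrm_C`), there are `(δ+1)^2` terms; `Gr` by `cvz r hr` being a subring. `coeff_of_nrm`: from `coeff_le_nrm`.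
`tq_nrm`: `tq e q X = (C q * X)^e`; it is the monomial `q^e X^e`. -/

namespace Pool.Agent.H97.FB

open Finset Polynomial Pool.Agent.H87.SA2 Pool.Agent.H8.AW Pool.Agent.H52.AC
open Pool.Agent.H72.ES (ev cst toP Lam)

theorem nrm_add {r : ℝ} (hr : 0 ≤ r) {v w : PowerSeries ℂ} (hv : Gr r v) (hw : Gr r w) :
    nrm r (v + w) ≤ nrm r v + nrm r w := by
  unfold nrm
  have h1 : Summable fun k => ‖PowerSeries.coeff k v‖ * r ^ k + ‖PowerSeries.coeff k w‖ * r ^ k :=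
    Summable.add hv hw
  rw [← Summable.tsum_add hv hw]
  refine Summable.tsum_le_tsum (fun k => ?_) (gr_add hr hv hw) h1
  rw [map_add, ← add_mul]
  exact mul_le_mul_of_nonneg_right (norm_add_le _ _) (pow_nonneg hr k)

theorem nrm_C (r : ℝ) (c : ℂ) : nrm r (PowerSeries.C c) = ‖c‖ := by
  unfold nrm
  rw [tsum_eq_single 0]
  · rw [PowerSeries.coeff_C, if_pos rfl, pow_zero, mul_one]
  · intro k hk
    rw [PowerSeries.coeff_C, if_neg hk, norm_zero, zero_mul]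

theorem nrm_X (r : ℝ) : nrm r PowerSeries.X = r := by
  unfold nrm
  rw [tsum_eq_single 1]
  · rw [PowerSeries.coeff_X, if_pos rfl, norm_one, pow_one, one_mul]
  · intro k hk
    rw [PowerSeries.coeff_X, if_neg hk, norm_zero, zero_mul]

theorem gr_geo {R r A : ℝ} (hR : 0 ≤ R) (hr : 0 ≤ r) (h : R * r ≤ 1 / 2) (hA : 0 ≤ A)
    {w : PowerSeries ℂ} (hw : ∀ k, ‖PowerSeries.coeff k w‖ ≤ A * R ^ k) :
    Gr r w ∧ nrm r w ≤ 2 * A := by
  have h1 : R * r < 1 := by linarith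
  have h2 : Gr r w := gr_of_le hR hr h1 hw
  refine ⟨h2, ?_⟩
  have h0 : 0 ≤ R * r := mul_nonneg hR hr
  have h3 : HasSum (fun m : ℕ => A * (R * r) ^ m) (A * (1 - R * r)⁻¹) :=
    (hasSum_geometric_of_lt_one h0 h1).mul_left A
  have h4 : nrm r w ≤ A * (1 - R * r)⁻¹ := by
    unfold nrm
    rw [← h3.tsum_eq]
    refine Summable.tsum_le_tsum (fun k => ?_) h2 h3.summable
    rw [mul_pow, ← mul_assoc]
    exact mul_le_mul_of_nonneg_right (hw k) (pow_nonneg hr k)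
  refine h4.trans ?_
  have h5 : (1 - R * r)⁻¹ ≤ 2 := by
    rw [inv_le_comm₀ (by linarith) (by norm_num)]
    linarith
  calc A * (1 - R * r)⁻¹ ≤ A * 2 := mul_le_mul_of_nonneg_left h5 hA
    _ = 2 * A := by ring

theorem coeff_of_nrm {r A : ℝ} (hr : 0 < r) {w : PowerSeries ℂ} (h : Gr r w) (hA : nrm r w ≤ A)
    (k : ℕ) : ‖PowerSeries.coeff k w‖ ≤ A * (1 / r) ^ k := by
  have h1 := (coeff_le_nrm hr.le h k).trans hA
  rw [one_div, inv_pow, ← div_eq_mul_inv, le_div_iff₀ (pow_pos hr k)]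
  exact h1

theorem tq_nrm (e q : ℕ) (r : ℝ) :
    Gr r (tq e q X) ∧ nrm r (tq e q X) = ((q : ℝ) * r) ^ e := by
  have h1 : ∀ k, PowerSeries.coeff k (tq e q X) = if k = e then (q : ℂ) ^ e else 0 := by
    intro k
    have h2 : tq e q X = (PowerSeries.C (q : ℂ) * PowerSeries.X) ^ e := by
      unfold tq
      rw [coe_eval₂RingHom, eval₂_X]
    rw [h2, mul_pow, ← map_pow, PowerSeries.coeff_C_mul, PowerSeries.coeff_X_pow, mul_ite,
      mul_one, mul_zero]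
  constructor
  · unfold Gr
    apply summable_of_ne_finset_zero (s := {e})
    intro m hm
    rw [Finset.mem_singleton] at hm
    rw [h1, if_neg hm, norm_zero, zero_mul]
  · unfold nrm
    rw [tsum_eq_single e]
    · rw [h1, if_pos rfl, norm_pow, Complex.norm_natCast, mul_pow]
    · intro k hk
      rw [h1, if_neg hk, norm_zero, zero_mul]

private theorem nrm_sum {ι : Type} {r : ℝ} (hr : 0 ≤ r) (s : Finset ι) (f : ι → PowerSeries ℂ)
    (hf : ∀ i ∈ s, Gr r (f i)) :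
    Gr r (∑ i ∈ s, f i) ∧ nrm r (∑ i ∈ s, f i) ≤ ∑ i ∈ s, nrm r (f i) := by
  classical
  induction s using Finset.induction_on with
  | empty =>
    rw [sum_empty, sum_empty]
    have h0 : (0 : PowerSeries ℂ) = PowerSeries.C 0 := (map_zero _).symm
    rw [h0]
    exact ⟨gr_C r 0, by rw [nrm_C, norm_zero]⟩
  | insert a s ha ih =>
    obtain ⟨h1, h2⟩ := ih fun i hi => hf i (mem_insert_of_mem hi)
    have h3 := hf a (mem_insert_self a s)
    rw [sum_insert ha, sum_insert ha]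
    exact ⟨gr_add hr h3 h1, (nrm_add hr h3 h1).trans (by linarith)⟩

theorem nrm_Lam {δ : ℕ} {B M r : ℝ} (G : ℤ[X][X])
    (hG : ∀ i j, |(((G.coeff j).coeff i : ℤ) : ℝ)| ≤ B) (h1 : G.natDegree ≤ δ)
    (h2 : ∀ j, (G.coeff j).natDegree ≤ δ) (hr : 0 ≤ r) {t ξ : PowerSeries ℂ} (ht : Gr r t)
    (hξ : Gr r ξ) (hM : 1 ≤ M) (htM : nrm r t ≤ M) (hξM : nrm r ξ ≤ M) :
    Gr r (Lam t ξ G) ∧ nrm r (Lam t ξ G) ≤ (δ + 1) ^ 2 * (B * M ^ (2 * δ)) := by
  have hB : 0 ≤ B := (abs_nonneg _).trans (hG 0 0)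
  have hc : ∀ c : ℤ, Int.castRingHom (PowerSeries ℂ) c = PowerSeries.C (c : ℂ) := by
    intro c
    rw [eq_intCast, map_intCast]
  have e1 : Lam t ξ G = ∑ j ∈ range (δ + 1), ∑ i ∈ range (δ + 1),
      PowerSeries.C ((((G.coeff j).coeff i : ℤ)) : ℂ) * t ^ i * ξ ^ j := by
    unfold Lam
    rw [coe_eval₂RingHom, eval₂_eq_sum_range' _ (Nat.lt_succ_of_le h1)]
    refine Finset.sum_congr rfl fun j _ => ?_
    rw [coe_eval₂RingHom, eval₂_eq_sum_range' _ (Nat.lt_succ_of_le (h2 j)), Finset.sum_mul]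
    refine Finset.sum_congr rfl fun i _ => ?_
    rw [hc]
  have key : ∀ i ∈ range (δ + 1), ∀ j ∈ range (δ + 1),
      Gr r (PowerSeries.C ((((G.coeff j).coeff i : ℤ)) : ℂ) * t ^ i * ξ ^ j) ∧
      nrm r (PowerSeries.C ((((G.coeff j).coeff i : ℤ)) : ℂ) * t ^ i * ξ ^ j) ≤
        B * M ^ (2 * δ) := by
    intro i hi j hj
    rw [mem_range] at hi hj
    have g1 := gr_C r ((((G.coeff j).coeff i : ℤ)) : ℂ)
    have g2 := gr_pow hr ht i
    have g3 := gr_pow hr hξ j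
    have g4 := gr_mul hr g1 g2
    refine ⟨gr_mul hr g4 g3, ?_⟩
    have n1 : nrm r (PowerSeries.C ((((G.coeff j).coeff i : ℤ)) : ℂ)) ≤ B := by
      rw [nrm_C, Complex.norm_intCast]
      exact hG i j
    have n2 : nrm r (t ^ i) ≤ M ^ i :=
      (nrm_pow hr ht i).trans (pow_le_pow_left₀ (nrm_nonneg hr t) htM i)
    have n3 : nrm r (ξ ^ j) ≤ M ^ j :=
      (nrm_pow hr hξ j).trans (pow_le_pow_left₀ (nrm_nonneg hr ξ) hξM j)
    have n4 := (nrm_mul hr g1 g2).trans (mul_le_mul n1 n2 (nrm_nonneg hr _) hB)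
    have n5 := (nrm_mul hr g4 g3).trans (mul_le_mul n4 n3 (nrm_nonneg hr _) (by positivity))
    refine n5.trans ?_
    rw [mul_assoc, ← pow_add]
    exact mul_le_mul_of_nonneg_left (pow_le_pow_right₀ hM (by omega)) hB
  rw [e1]
  have k1 : ∀ j ∈ range (δ + 1),
      Gr r (∑ i ∈ range (δ + 1), PowerSeries.C ((((G.coeff j).coeff i : ℤ)) : ℂ) * t ^ i * ξ ^ j) ∧
      nrm r (∑ i ∈ range (δ + 1), PowerSeries.C ((((G.coeff j).coeff i : ℤ)) : ℂ) * t ^ i *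
        ξ ^ j) ≤ (δ + 1) * (B * M ^ (2 * δ)) := by
    intro j hj
    obtain ⟨a1, a2⟩ := nrm_sum hr (range (δ + 1))
      (fun i => PowerSeries.C ((((G.coeff j).coeff i : ℤ)) : ℂ) * t ^ i * ξ ^ j)
      (fun i hi => (key i hi j hj).1)
    refine ⟨a1, a2.trans ((Finset.sum_le_sum fun i hi => (key i hi j hj).2).trans ?_)⟩
    rw [sum_const, card_range, nsmul_eq_mul]
    push_cast
    exact le_rfl
  obtain ⟨b1, b2⟩ := nrm_sum hr (range (δ + 1)) (fun j => ∑ i ∈ range (δ + 1),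
    PowerSeries.C ((((G.coeff j).coeff i : ℤ)) : ℂ) * t ^ i * ξ ^ j) (fun j hj => (k1 j hj).1)
  refine ⟨b1, b2.trans ((Finset.sum_le_sum fun j hj => (k1 j hj).2).trans ?_)⟩
  rw [sum_const, card_range, nsmul_eq_mul]
  push_cast
  apply le_of_eq
  ring

end Pool.Agent.H97.FB
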