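import Pool.Agent.H97.FB.SNR

/-! # [H97 FB SRC] A root over `t = (q T)^e` compared with the Puiseux data

`sbm κ m`: `a(T) ↦ a(κ S^m)`. `src_eq`: put `T = κ S^(e')`, `e' = pd.e`, `q' = pd.q`, `κ = q^(e'-1) q'^(e')`: `q T = q^(e') q'^(e') S^(e')`, `(q T)^e = (q q' S)^(e e')`; `T' = κ' S^e`, `κ' = q'^(e-1) q^e`: `(q' T')^(e') = (q q' S)^(e e')`. So `sbm κ e' ∘ tq e q` and `sbm κ' e ∘ tq e' q'` are equal on `ℤ[X]` (`Polynomial.ringHom_ext`). Apply `sbm κ e'` to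
`hξ` and `sbm κ' e` to `pd.split`: `∏_l (sbm κ e' ξ - sbm κ' e (x l)) = 0`, so a factor vanishes (`PowerSeries ℂ` is a domain).
`src_growth`: coefficient of index `e' k` in `src_eq`: `κ^k ξ_k = κ'^(k'') x_(l,k'')` with `k'' = e' k / e` if `e ∣ e' k`, and `0` otherwise; `κ ≥ 1`, so `‖ξ_k‖ ≤ R^(k''+1) κ'^(k'') ≤ R (R κ')^(e' k)` (`k'' ≤ e' k`). -/

namespace Pool.Agent.H97.FB

open Finset Polynomial Pool.Agent.H87.SA2 Pool.Agent.H8.AW Pool.Agent.H52.AC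
open Pool.Agent.H72.ES (ev cst toP Lam)

/-- the substitution `T ↦ κ S^m` -/
noncomputable def sbm (κ : ℂ) (m : ℕ) (hm : m ≠ 0) : PowerSeries ℂ →+* PowerSeries ℂ :=
  (exr ℂ m hm).comp (PowerSeries.rescale κ)

theorem sbm_coeff (κ : ℂ) {m : ℕ} (hm : m ≠ 0) (a : PowerSeries ℂ) (n : ℕ) :
    PowerSeries.coeff n (sbm κ m hm a) =
      if m ∣ n then κ ^ (n / m) * PowerSeries.coeff (n / m) a else 0 := by
  unfold sbm
  rw [RingHom.comp_apply, coeff_exr]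
  split_ifs with h
  · rw [PowerSeries.coeff_rescale]
  · rfl

theorem src_eq {g : ℤ[X][X]} {d : ℕ} (pd : PData g d) {e q : ℕ} (he : e ≠ 0) (hq : 1 ≤ q)
    {ξ : PowerSeries ℂ} (hξ : (g.map (tq e q)).eval ξ = 0) :
    ∃ l, sbm ((q : ℂ) ^ (pd.e - 1) * (pd.q : ℂ) ^ pd.e) pd.e (pe_ne pd) ξ =
      sbm ((pd.q : ℂ) ^ (e - 1) * (q : ℂ) ^ e) e he (pd.x l) := by
  have he' : pd.e ≠ 0 := pe_ne pd
  have hsX : ∀ (κ : ℂ) (m : ℕ) (hm : m ≠ 0), sbm κ m hm PowerSeries.X =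
      PowerSeries.C κ * PowerSeries.X ^ m := by
    intro κ m hm
    unfold sbm
    rw [RingHom.comp_apply, PowerSeries.rescale_X, map_mul, exr_C, exr_X]
  have hcomp : (sbm ((q : ℂ) ^ (pd.e - 1) * (pd.q : ℂ) ^ pd.e) pd.e (pe_ne pd)).comp (tq e q) =
      (sbm ((pd.q : ℂ) ^ (e - 1) * (q : ℂ) ^ e) e he).comp (tq pd.e pd.q) := by
    refine Polynomial.ringHom_ext (fun a => ?_) ?_
    · rw [RingHom.comp_apply, RingHom.comp_apply]
      unfold tq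
      simp
    · rw [RingHom.comp_apply, RingHom.comp_apply]
      unfold tq
      rw [coe_eval₂RingHom, coe_eval₂RingHom, eval₂_X, eval₂_X, map_pow, map_mul, map_pow, map_mul,
        hsX, hsX]
      have e1 : (PowerSeries.C (q : ℂ) : PowerSeries ℂ) = (q : PowerSeries ℂ) := map_natCast _ q
      have e2 : (PowerSeries.C (pd.q : ℂ) : PowerSeries ℂ) = (pd.q : PowerSeries ℂ) :=
        map_natCast _ pd.q
      simp only [map_mul, map_pow, map_natCast, e1, e2]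
      obtain ⟨a, ha⟩ := Nat.exists_eq_succ_of_ne_zero he'
      obtain ⟨b, hb⟩ := Nat.exists_eq_succ_of_ne_zero he
      have h1 : (q : PowerSeries ℂ) * ((q : PowerSeries ℂ) ^ (pd.e - 1) * (pd.q : PowerSeries ℂ) ^ pd.e *
          PowerSeries.X ^ pd.e) = ((q : PowerSeries ℂ) * (pd.q : PowerSeries ℂ) * PowerSeries.X) ^ pd.e := by
        rw [ha, Nat.succ_sub_one, mul_pow, mul_pow, Nat.succ_eq_add_one, pow_succ (q : PowerSeries ℂ)]
        ring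
      have h2 : (pd.q : PowerSeries ℂ) * ((pd.q : PowerSeries ℂ) ^ (e - 1) * (q : PowerSeries ℂ) ^ e *
          PowerSeries.X ^ e) = ((q : PowerSeries ℂ) * (pd.q : PowerSeries ℂ) * PowerSeries.X) ^ e := by
        rw [hb, Nat.succ_sub_one, mul_pow, mul_pow, Nat.succ_eq_add_one, pow_succ (pd.q : PowerSeries ℂ)]
        ring
      rw [h1, h2, ← pow_mul, ← pow_mul, mul_comm pd.e e]
  have h1 : ((g.map (tq e q)).map (sbm ((q : ℂ) ^ (pd.e - 1) * (pd.q : ℂ) ^ pd.e) pd.e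
      (pe_ne pd))).eval (sbm ((q : ℂ) ^ (pd.e - 1) * (pd.q : ℂ) ^ pd.e) pd.e (pe_ne pd) ξ) = 0 := by
    rw [Polynomial.eval_map, Polynomial.eval₂_at_apply, hξ, map_zero]
  rw [Polynomial.map_map, hcomp, ← Polynomial.map_map, pd.split, Polynomial.map_prod,
    Polynomial.eval_prod] at h1
  obtain ⟨i, -, hi⟩ := prod_eq_zero_iff.1 h1
  refine ⟨i, ?_⟩
  rw [Polynomial.map_sub, Polynomial.map_X, Polynomial.map_C, eval_sub, eval_X, eval_C,
    sub_eq_zero] at hi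
  exact hi

theorem src_growth {g : ℤ[X][X]} {d : ℕ} (pd : PData g d) {e q : ℕ} (he : e ≠ 0) (hq : 1 ≤ q)
    {ξ : PowerSeries ℂ} (hξ : (g.map (tq e q)).eval ξ = 0) (k : ℕ) :
    ‖PowerSeries.coeff k ξ‖ ≤
      pd.R * ((pd.R * ((pd.q : ℝ) ^ (e - 1) * (q : ℝ) ^ e)) ^ pd.e) ^ k := by
  obtain ⟨l, hl⟩ := src_eq pd he hq hξ
  have he' : pd.e ≠ 0 := pe_ne pd
  have hq1 : (1 : ℝ) ≤ (q : ℝ) := by exact_mod_cast hq
  have hq2 : (1 : ℝ) ≤ (pd.q : ℝ) := by exact_mod_cast pd.q_pos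
  have hR : (1 : ℝ) ≤ pd.R := by have := pd.R_ge; linarith
  have hR0 : (0 : ℝ) ≤ pd.R := by linarith
  have hκ' : (1 : ℝ) ≤ (pd.q : ℝ) ^ (e - 1) * (q : ℝ) ^ e := by
    have h1 := one_le_pow₀ hq2 (n := e - 1)
    have h2 := one_le_pow₀ hq1 (n := e)
    nlinarith
  have hκ : (1 : ℝ) ≤ (q : ℝ) ^ (pd.e - 1) * (pd.q : ℝ) ^ pd.e := by
    have h1 := one_le_pow₀ hq1 (n := pd.e - 1)
    have h2 := one_le_pow₀ hq2 (n := pd.e)
    nlinarith
  have hRκ : (1 : ℝ) ≤ pd.R * ((pd.q : ℝ) ^ (e - 1) * (q : ℝ) ^ e) := by nlinarith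
  have h1 := congrArg (PowerSeries.coeff (pd.e * k)) hl
  rw [sbm_coeff, sbm_coeff, if_pos (dvd_mul_right _ _),
    Nat.mul_div_cancel_left k (Nat.pos_of_ne_zero he')] at h1
  have h2 : ‖PowerSeries.coeff k ξ‖ ≤
      ‖((q : ℂ) ^ (pd.e - 1) * (pd.q : ℂ) ^ pd.e) ^ k * PowerSeries.coeff k ξ‖ := by
    rw [norm_mul, norm_pow, norm_mul, norm_pow, norm_pow, Complex.norm_natCast,
      Complex.norm_natCast]
    have h3 := one_le_pow₀ hκ (n := k)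
    have h4 := norm_nonneg (PowerSeries.coeff k ξ)
    nlinarith
  refine h2.trans ?_
  rw [h1]
  have h5 : pd.R * ((pd.R * ((pd.q : ℝ) ^ (e - 1) * (q : ℝ) ^ e)) ^ pd.e) ^ k =
      pd.R * (pd.R * ((pd.q : ℝ) ^ (e - 1) * (q : ℝ) ^ e)) ^ (pd.e * k) := by
    rw [pow_mul]
  rw [h5]
  split_ifs with hd
  · have h6 : pd.e * k / e ≤ pd.e * k := Nat.div_le_self _ _
    rw [norm_mul, norm_pow, norm_mul, norm_pow, norm_pow, Complex.norm_natCast,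
      Complex.norm_natCast]
    calc ((pd.q : ℝ) ^ (e - 1) * (q : ℝ) ^ e) ^ (pd.e * k / e) *
          ‖PowerSeries.coeff (pd.e * k / e) (pd.x l)‖
        ≤ ((pd.q : ℝ) ^ (e - 1) * (q : ℝ) ^ e) ^ (pd.e * k / e) * pd.R ^ (pd.e * k / e + 1) :=
          mul_le_mul_of_nonneg_left (pd.growth l _) (by positivity)
      _ = pd.R * (pd.R * ((pd.q : ℝ) ^ (e - 1) * (q : ℝ) ^ e)) ^ (pd.e * k / e) := by
          rw [mul_pow, pow_succ]
          ring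
      _ ≤ _ := mul_le_mul_of_nonneg_left (pow_le_pow_right₀ hRκ h6) hR0
  · rw [norm_zero]
    positivity

end Pool.Agent.H97.FB
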