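import Pool.Agent.H97.FB.SLO
import Pool.Agent.H97.FB.SIV

/-! # [H97 FB SZI] The norm of `z = 1/X_v`

`η = G.eval₂ (tq e q) ξ = Lam (tq e q X) ξ G`. `z η = c t^k ≠ 0` (`c ≠ 0`, `t = tq e q X = (C q * X)^e ≠ 0`), so `η ≠ 0`, `z ≠ 0`; `s = order η`, `s' = order z ≥ 1`, `s + s' = e k` (`order_mul`), so `s ≤ e k - 1 ≤ N δ`. Write `η = X^s η'` (`PowerSeries.X_pow_order_dvd` or `X_pow_dvd_iff`), `η'_0 = coeff s η ≠ 0`, `z = X^(s') z'`, `z' η' = c q^(e k)` (cancel `X^(e k)`).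
`y := η'⁻¹` (`η' * y = 1`, `PowerSeries` over a field, `η'_0 ≠ 0`), `z' = C (c q^(e k)) * y`.
GROWTH OF `η`: `src_growth`: `‖ξ_k‖ ≤ R (B^K1)^k`; with `r0 = 1/(2 B^(K1+1))`: `nrm r0 ξ ≤ 2 R` (`gr_geo`), `nrm r0 t = (q r0)^e ≤ 1`, `nrm_Lam`: `nrm r0 η ≤ (δ+1)^2 B (2B)^(2δ) ≤ B^K2`, `coeff_of_nrm`: `‖η_l‖ ≤ B^K2 (2 B^(K1+1))^l`, so `‖η'_l‖ = ‖η_(l+s)‖ ≤ B^(K3 (l+1))` (`s ≤ N δ`). `slo`: `1 ≤ ‖η'_0‖ B^K4`. `A := B^(K3+K4)`; `siv`: `‖y_l‖ ≤ A (2 A^3)^l`.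
So `‖z'_l‖ ≤ |c| q^(e k) A (2A^3)^l ≤ B^K5 (B^K6)^l`. If `r B^K ≤ 1` with `K ≥ K5 + K6 + 3` then `B^K6 r ≤ 1/2`, `nrm r z' ≤ 2 B^K5` (`gr_geo`), `nrm r z ≤ r^(s') nrm r z' ≤ r * 2 B^K5 ≤ r B^K` (`r ≤ 1`, `s' ≥ 1`; `nrm_mul`, `nrm_pow`, `nrm_X`). -/

namespace Pool.Agent.H97.FB

open Finset Polynomial Pool.Agent.H87.SA2 Pool.Agent.H8.AW Pool.Agent.H52.AC
open Pool.Agent.H72.ES (ev cst toP Lam)

private theorem szi_tqX (e q : ℕ) :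
    tq e q X = (PowerSeries.C (q : ℂ) * PowerSeries.X) ^ e := by
  unfold tq
  show eval₂ _ _ X = _
  rw [eval₂_X]

private theorem szi_Lam (e q : ℕ) (ξ : PowerSeries ℂ) (G : ℤ[X][X]) :
    Lam (tq e q X) ξ G = G.eval₂ (tq e q) ξ := by
  rw [szi_tqX]
  rfl

private theorem szi_fac {w : PowerSeries ℂ} (hw : w ≠ 0) :
    ∃ (s : ℕ) (w' : PowerSeries ℂ), w = PowerSeries.X ^ s * w' ∧
      PowerSeries.constantCoeff w' ≠ 0 := by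
  obtain ⟨m, hm⟩ : ∃ m, m = w.order.toNat := ⟨_, rfl⟩
  obtain ⟨b, hb⟩ := PowerSeries.X_pow_order_dvd (φ := w)
  rw [← hm] at hb
  refine ⟨m, b, hb, ?_⟩
  intro h
  have h1 : PowerSeries.coeff w.order.toNat w = 0 := by
    rw [← hm, hb, PowerSeries.coeff_X_pow_mul', if_pos le_rfl, Nat.sub_self,
      PowerSeries.coeff_zero_eq_constantCoeff_apply]
    exact h
  exact PowerSeries.coeff_order hw h1

private theorem szi_le {a b : ℕ} {u w : PowerSeries ℂ} (hu : PowerSeries.constantCoeff u ≠ 0)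
    (h : PowerSeries.X ^ a * u = PowerSeries.X ^ b * w) : b ≤ a := by
  by_contra hlt
  have h1 := congrArg (PowerSeries.coeff a) h
  rw [PowerSeries.coeff_X_pow_mul', PowerSeries.coeff_X_pow_mul', if_pos le_rfl, Nat.sub_self,
    if_neg (by omega), PowerSeries.coeff_zero_eq_constantCoeff_apply] at h1
  exact hu h1

private theorem szi_eta (np N δ : ℕ) (B : ℕ) (hB : 2 ≤ B) {D : ℕ} {g : ℤ[X][X]}
    (pd : PData g D) (he' : pd.e ≤ np.factorial) (hq' : pd.q ≤ B) (hR' : pd.R ≤ B) (e q : ℕ)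
    (he : e ≠ 0) (heN : e ≤ N) (hq1 : 1 ≤ q) (hqB : q ≤ B) (G : ℤ[X][X])
    (hG : ∀ i j, |(G.coeff j).coeff i| ≤ (B : ℤ)) (hG1 : G.natDegree ≤ δ)
    (hG2 : ∀ j, (G.coeff j).natDegree ≤ δ) (ξ : PowerSeries ℂ)
    (hξ : (g.map (tq e q)).eval ξ = 0) (l : ℕ) :
    ‖PowerSeries.coeff l (G.eval₂ (tq e q) ξ)‖ ≤
      (B : ℝ) ^ (6 * δ + 1) * ((B : ℝ) ^ ((2 * N + 1) * np.factorial + 2)) ^ l := by
  have hB2 : (2 : ℝ) ≤ B := by exact_mod_cast hB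
  have hB1 : (1 : ℝ) ≤ B := by linarith
  have hB0 : (0 : ℝ) < B := by linarith
  have hq'B : (pd.q : ℝ) ≤ B := by exact_mod_cast hq'
  have hqB' : (q : ℝ) ≤ B := by exact_mod_cast hqB
  have hq'1 : (1 : ℝ) ≤ pd.q := by exact_mod_cast pd.q_pos
  have hq1' : (1 : ℝ) ≤ q := by exact_mod_cast hq1
  have hR2 := pd.R_ge
  obtain ⟨K1, hK1⟩ : ∃ K1 : ℕ, K1 = (2 * N + 1) * np.factorial := ⟨_, rfl⟩
  rw [← hK1]
  -- growth of `ξ`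
  have hbase : (pd.R * ((pd.q : ℝ) ^ (e - 1) * (q : ℝ) ^ e)) ^ pd.e ≤ (B : ℝ) ^ K1 := by
    have h1 : pd.R * ((pd.q : ℝ) ^ (e - 1) * (q : ℝ) ^ e) ≤ (B : ℝ) ^ (2 * N + 1) := by
      calc pd.R * ((pd.q : ℝ) ^ (e - 1) * (q : ℝ) ^ e)
          ≤ B * ((B : ℝ) ^ (e - 1) * (B : ℝ) ^ e) := by gcongr
        _ = (B : ℝ) ^ (1 + (e - 1 + e)) := by rw [pow_add, pow_one, pow_add]
        _ ≤ (B : ℝ) ^ (2 * N + 1) := pow_le_pow_right₀ hB1 (by omega)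
    calc (pd.R * ((pd.q : ℝ) ^ (e - 1) * (q : ℝ) ^ e)) ^ pd.e
        ≤ ((B : ℝ) ^ (2 * N + 1)) ^ pd.e := pow_le_pow_left₀ (by positivity) h1 _
      _ = (B : ℝ) ^ ((2 * N + 1) * pd.e) := by rw [← pow_mul]
      _ ≤ (B : ℝ) ^ K1 := by
          rw [hK1]
          exact pow_le_pow_right₀ hB1 (Nat.mul_le_mul_left _ he')
  have hbase0 : 0 ≤ (pd.R * ((pd.q : ℝ) ^ (e - 1) * (q : ℝ) ^ e)) ^ pd.e := by
    have : 0 ≤ pd.R := by linarith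
    positivity
  have hξg : ∀ k, ‖PowerSeries.coeff k ξ‖ ≤ B * ((B : ℝ) ^ K1) ^ k := by
    intro k
    refine (src_growth pd he hq1 hξ k).trans ?_
    gcongr
  obtain ⟨r0, hr0⟩ : ∃ r0 : ℝ, r0 = 1 / (2 * (B : ℝ) ^ (K1 + 1)) := ⟨_, rfl⟩
  have hr00 : 0 < r0 := by
    rw [hr0]
    positivity
  have hBK1 : (1 : ℝ) ≤ (B : ℝ) ^ K1 := one_le_pow₀ hB1
  have hBr : (B : ℝ) ^ K1 * r0 ≤ 1 / 2 := by
    rw [hr0, mul_one_div, pow_succ, div_le_div_iff₀ (by positivity) (by norm_num)]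
    nlinarith
  have hqr : (q : ℝ) * r0 ≤ 1 := by
    rw [hr0, mul_one_div, pow_succ, div_le_one (by positivity)]
    nlinarith
  obtain ⟨hξG, hξn⟩ := gr_geo (by positivity) hr00.le hBr hB0.le hξg
  obtain ⟨htG, htn⟩ := tq_nrm e q r0
  have htn1 : nrm r0 (tq e q X) ≤ 2 * B := by
    rw [htn]
    have h1 : ((q : ℝ) * r0) ^ e ≤ 1 := pow_le_one₀ (by positivity) hqr
    linarith
  obtain ⟨hηG, hηn⟩ := nrm_Lam (δ := δ) (B := (B : ℝ)) (M := 2 * (B : ℝ)) (r := r0) G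
    (fun i j => by exact_mod_cast hG i j) hG1 hG2 hr00.le htG hξG (by linarith) htn1 hξn
  rw [szi_Lam] at hηG hηn
  have hA : nrm r0 (G.eval₂ (tq e q) ξ) ≤ (B : ℝ) ^ (6 * δ + 1) := by
    refine hηn.trans ?_
    have h1 : ((δ : ℝ) + 1) ≤ (B : ℝ) ^ δ := by
      have h2 : δ + 1 ≤ 2 ^ δ := Nat.lt_two_pow_self
      have h3 : ((δ : ℝ) + 1) ≤ 2 ^ δ := by exact_mod_cast h2
      exact h3.trans (pow_le_pow_left₀ (by norm_num) hB2 _)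
    have h2 : 2 * (B : ℝ) ≤ (B : ℝ) ^ 2 := by nlinarith
    calc ((δ : ℝ) + 1) ^ 2 * (B * (2 * (B : ℝ)) ^ (2 * δ))
        ≤ ((B : ℝ) ^ δ) ^ 2 * (B * ((B : ℝ) ^ 2) ^ (2 * δ)) := by gcongr
      _ = (B : ℝ) ^ (6 * δ + 1) := by
          rw [← pow_mul, ← pow_mul, ← pow_succ', ← pow_add]
          congr 1
          ring
  refine (coeff_of_nrm hr00 hηG hA l).trans ?_
  have h1 : 1 / r0 ≤ (B : ℝ) ^ (K1 + 2) := by
    rw [hr0, one_div_one_div, pow_succ (B : ℝ) (K1 + 1), mul_comm]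
    exact mul_le_mul_of_nonneg_left hB2 (by positivity)
  have h0 : 0 ≤ 1 / r0 := by positivity
  gcongr

theorem szi (np N δ : ℕ) : ∃ K : ℕ, ∀ (B : ℕ), 2 ≤ B → ∀ {D : ℕ}, D ≤ np → ∀ {g : ℤ[X][X]}
    (pd : PData g D), pd.e ≤ np.factorial → pd.q ≤ B → pd.R ≤ B → ∀ (e q : ℕ), e ≠ 0 → e ≤ N →
    1 ≤ q → q ≤ B → ∀ (G : ℤ[X][X]), (∀ i j, |(G.coeff j).coeff i| ≤ (B : ℤ)) →
    G.natDegree ≤ δ → (∀ j, (G.coeff j).natDegree ≤ δ) → ∀ (ξ : PowerSeries ℂ),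
    (g.map (tq e q)).eval ξ = 0 → ∀ (k : ℕ), k ≤ δ → ∀ (c : ℤ), c ≠ 0 → |c| ≤ (B : ℤ) →
    ∀ (z : PowerSeries ℂ), PowerSeries.constantCoeff z = 0 →
    z * G.eval₂ (tq e q) ξ = PowerSeries.C (c : ℂ) * (tq e q X) ^ k →
    ∀ (r : ℝ), 0 ≤ r → r * (B : ℝ) ^ K ≤ 1 → Gr r z ∧ nrm r z ≤ r * (B : ℝ) ^ K := by
  obtain ⟨K4, hslo⟩ := slo np N δ
  obtain ⟨K1, hK1⟩ : ∃ K1 : ℕ, K1 = (2 * N + 1) * np.factorial + 2 := ⟨_, rfl⟩
  obtain ⟨K2, hK2⟩ : ∃ K2 : ℕ, K2 = 6 * δ + 1 := ⟨_, rfl⟩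
  obtain ⟨K3, hK3⟩ : ∃ K3 : ℕ, K3 = K2 + K1 * (N * δ + 1) := ⟨_, rfl⟩
  obtain ⟨K5, hK5⟩ : ∃ K5 : ℕ, K5 = 1 + N * δ + (K3 + K4) := ⟨_, rfl⟩
  obtain ⟨K6, hK6⟩ : ∃ K6 : ℕ, K6 = 3 * (K3 + K4) + 1 := ⟨_, rfl⟩
  refine ⟨K5 + K6 + 3, ?_⟩
  intro B hB D hD g pd he' hq' hR' e q he heN hq1 hqB G hG hG1 hG2 ξ hξ k hk c hc hcB z hz0 hzη
    r hr hrK
  have hB2 : (2 : ℝ) ≤ B := by exact_mod_cast hB
  have hB1 : (1 : ℝ) ≤ B := by linarith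
  have hB0 : (0 : ℝ) < B := by linarith
  have hqB' : (q : ℝ) ≤ B := by exact_mod_cast hqB
  obtain ⟨η, hη⟩ : ∃ η : PowerSeries ℂ, η = G.eval₂ (tq e q) ξ := ⟨_, rfl⟩
  have hηg : ∀ l, ‖PowerSeries.coeff l η‖ ≤ (B : ℝ) ^ K2 * ((B : ℝ) ^ K1) ^ l := by
    intro l
    rw [hη, hK1, hK2]
    exact szi_eta np N δ B hB pd he' hq' hR' e q he heN hq1 hqB G hG hG1 hG2 ξ hξ l
  rw [← hη] at hzη
  have hcC : (c : ℂ) ≠ 0 := by exact_mod_cast hc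
  have hqC : (q : ℂ) ≠ 0 := by exact_mod_cast (by omega : q ≠ 0)
  have hκ0 : (c : ℂ) * (q : ℂ) ^ (e * k) ≠ 0 := mul_ne_zero hcC (pow_ne_zero _ hqC)
  have hrhs : PowerSeries.C (c : ℂ) * (tq e q X) ^ k =
      PowerSeries.X ^ (e * k) * PowerSeries.C ((c : ℂ) * (q : ℂ) ^ (e * k)) := by
    rw [szi_tqX, ← pow_mul, mul_pow, map_mul, map_pow]
    ring
  rw [hrhs] at hzη
  have hne : z * η ≠ 0 := by
    rw [hzη]
    refine mul_ne_zero (pow_ne_zero _ PowerSeries.X_ne_zero) ?_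
    intro h
    have h1 := congrArg PowerSeries.constantCoeff h
    rw [PowerSeries.constantCoeff_C, map_zero] at h1
    exact hκ0 h1
  obtain ⟨s, η', hη', hη'0⟩ := szi_fac (right_ne_zero_of_mul hne)
  obtain ⟨s', z', hz', hz'0⟩ := szi_fac (left_ne_zero_of_mul hne)
  have hprod : PowerSeries.X ^ (s' + s) * (z' * η') =
      PowerSeries.X ^ (e * k) * PowerSeries.C ((c : ℂ) * (q : ℂ) ^ (e * k)) := by
    rw [← hzη, hz', hη', pow_add]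
    ring
  have hss : s' + s = e * k := by
    refine le_antisymm ?_ ?_
    · refine szi_le (u := PowerSeries.C ((c : ℂ) * (q : ℂ) ^ (e * k))) ?_ hprod.symm
      rw [PowerSeries.constantCoeff_C]
      exact hκ0
    · refine szi_le (u := z' * η') ?_ hprod
      rw [map_mul]
      exact mul_ne_zero hz'0 hη'0
  have hs1 : 1 ≤ s' := by
    by_contra h
    have h0 : s' = 0 := by omega
    rw [hz', h0, pow_zero, one_mul] at hz0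
    exact hz'0 hz0
  have hekN : e * k ≤ N * δ := Nat.mul_le_mul heN hk
  have hsN : s ≤ N * δ := by omega
  rw [hss] at hprod
  have hzη' : z' * η' = PowerSeries.C ((c : ℂ) * (q : ℂ) ^ (e * k)) :=
    mul_left_cancel₀ (pow_ne_zero _ PowerSeries.X_ne_zero) hprod
  have hcoef : ∀ l, PowerSeries.coeff l η' = PowerSeries.coeff (l + s) η := by
    intro l
    rw [hη', PowerSeries.coeff_X_pow_mul]
  have hη'g : ∀ l, ‖PowerSeries.coeff l η'‖ ≤ ((B : ℝ) ^ (K3 + K4)) ^ (l + 1) := by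
    intro l
    rw [hcoef]
    refine (hηg _).trans ?_
    rw [← pow_mul, ← pow_add, ← pow_mul]
    refine pow_le_pow_right₀ hB1 ?_
    rw [hK3]
    have h1 : K1 * (l + s) ≤ K1 * (l + N * δ) := Nat.mul_le_mul_left _ (by omega)
    have h2 : K1 * (l + N * δ) ≤ K1 * (N * δ + 1) * (l + 1) := by
      rw [mul_assoc]
      refine Nat.mul_le_mul_left _ ?_
      nlinarith
    nlinarith
  have hlow : 1 ≤ ‖PowerSeries.coeff 0 η'‖ * (B : ℝ) ^ (K3 + K4) := by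
    have h1 : PowerSeries.coeff s (G.eval₂ (tq e q) ξ) ≠ 0 := by
      rw [← hη, ← zero_add s, ← hcoef, PowerSeries.coeff_zero_eq_constantCoeff_apply]
      exact hη'0
    have h2 := hslo B hB hD pd he' hq' hR' e q he heN hq1 hqB G hG hG1 hG2 ξ hξ s hsN h1
    rw [← hη] at h2
    rw [hcoef, zero_add]
    refine h2.trans (mul_le_mul_of_nonneg_left ?_ (norm_nonneg _))
    exact pow_le_pow_right₀ hB1 (by omega)
  have hyη : η' * η'⁻¹ = 1 := PowerSeries.mul_inv_cancel _ hη'0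
  have hA1 : (1 : ℝ) ≤ (B : ℝ) ^ (K3 + K4) := one_le_pow₀ hB1
  have hyg := siv hA1 hlow hη'g hyη
  have hz'y : z' = PowerSeries.C ((c : ℂ) * (q : ℂ) ^ (e * k)) * η'⁻¹ := by
    rw [← hzη', mul_assoc, hyη, mul_one]
  have hcn : ‖(c : ℂ) * (q : ℂ) ^ (e * k)‖ ≤ (B : ℝ) ^ (1 + N * δ) := by
    rw [norm_mul, norm_pow, Complex.norm_natCast, Complex.norm_intCast, pow_add, pow_one]
    have h1 : |(c : ℝ)| ≤ B := by exact_mod_cast hcB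
    have h2 : (q : ℝ) ^ (e * k) ≤ (B : ℝ) ^ (N * δ) :=
      (pow_le_pow_left₀ (Nat.cast_nonneg _) hqB' _).trans (pow_le_pow_right₀ hB1 hekN)
    gcongr
  have hz'g : ∀ l, ‖PowerSeries.coeff l z'‖ ≤ (B : ℝ) ^ K5 * ((B : ℝ) ^ K6) ^ l := by
    intro l
    rw [hz'y, PowerSeries.coeff_C_mul, norm_mul]
    have h1 : 2 * ((B : ℝ) ^ (K3 + K4)) ^ 3 ≤ (B : ℝ) ^ K6 := by
      rw [hK6, pow_succ (B : ℝ) (3 * (K3 + K4)), ← pow_mul, mul_comm (K3 + K4) 3, mul_comm]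
      exact mul_le_mul_of_nonneg_left hB2 (by positivity)
    calc ‖(c : ℂ) * (q : ℂ) ^ (e * k)‖ * ‖PowerSeries.coeff l η'⁻¹‖
        ≤ (B : ℝ) ^ (1 + N * δ) * ((B : ℝ) ^ (K3 + K4) *
          (2 * ((B : ℝ) ^ (K3 + K4)) ^ 3) ^ l) :=
          mul_le_mul hcn (hyg l) (norm_nonneg _) (by positivity)
      _ ≤ (B : ℝ) ^ (1 + N * δ) * ((B : ℝ) ^ (K3 + K4) * ((B : ℝ) ^ K6) ^ l) := by gcongr
      _ = (B : ℝ) ^ K5 * ((B : ℝ) ^ K6) ^ l := by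
          rw [hK5, ← mul_assoc, ← pow_add]
  have hK63 : (B : ℝ) ^ K6 * r ≤ 1 / 2 := by
    have h1 : (B : ℝ) ^ (K5 + K6 + 3) = (B : ℝ) ^ K6 * (B : ℝ) ^ (K5 + 3) := by
      rw [← pow_add]
      congr 1
      ring
    rw [h1] at hrK
    have h2 : (2 : ℝ) ≤ (B : ℝ) ^ (K5 + 3) := by
      calc (2 : ℝ) ≤ B := hB2
        _ = (B : ℝ) ^ 1 := (pow_one _).symm
        _ ≤ _ := pow_le_pow_right₀ hB1 (by omega)
    have h3 : 0 ≤ (B : ℝ) ^ K6 * r := by positivity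
    nlinarith
  obtain ⟨hz'G, hz'n⟩ := gr_geo (by positivity) hr hK63 (by positivity) hz'g
  have hr1 : r ≤ 1 := by
    have h1 : (1 : ℝ) ≤ (B : ℝ) ^ (K5 + K6 + 3) := one_le_pow₀ hB1
    nlinarith
  have hXn : nrm r ((PowerSeries.X : PowerSeries ℂ) ^ s') ≤ r := by
    refine (nrm_pow hr (gr_X r) s').trans ?_
    rw [nrm_X]
    calc r ^ s' ≤ r ^ 1 := pow_le_pow_of_le_one hr hr1 hs1
      _ = r := pow_one r
  have hXG : Gr r ((PowerSeries.X : PowerSeries ℂ) ^ s') := gr_pow hr (gr_X r) s'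
  rw [hz']
  refine ⟨gr_mul hr hXG hz'G, (nrm_mul hr hXG hz'G).trans ?_⟩
  calc nrm r ((PowerSeries.X : PowerSeries ℂ) ^ s') * nrm r z'
      ≤ r * (2 * (B : ℝ) ^ K5) := mul_le_mul hXn hz'n (nrm_nonneg hr _) hr
    _ ≤ r * (B : ℝ) ^ (K5 + K6 + 3) := by
        refine mul_le_mul_of_nonneg_left ?_ hr
        calc 2 * (B : ℝ) ^ K5 ≤ B * (B : ℝ) ^ K5 :=
              mul_le_mul_of_nonneg_right hB2 (by positivity)
          _ = (B : ℝ) ^ (K5 + 1) := by rw [pow_succ, mul_comm]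
          _ ≤ _ := pow_le_pow_right₀ hB1 (by omega)

end Pool.Agent.H97.FB
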