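import Pool.Agent.H97.FB.MON
import Pool.Agent.H97.FB.FMB

/-! # [H97 FB WGN] The window theorem for arbitrary families

`C1` from `window n m d`, `c` from `exists_famB n m`. Given `f` with coefficients of absolute value `≤ B`, `B ≥ 2`, `B^C ≤ X0`: `f1 = mo n f` satisfies the hypotheses of `exists_famB` with `B1 = ((m+1) B)^n ≤ B^((m+2) n)` (`m + 1 ≤ 2^(m+1) ≤ B^(m+1)`), so `FamB n m B' f1`, `B' ≤ B1^c`, `B'^C1 ≤ X0` for `C ≥ (m+2) n c C1`. `window`: `E`.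
For `a` in the window, `a ∉ E`: `(f_n)(a) ≠ 0` (`mo_nz`, `B + 1 ≤ B^2 ≤ X0 ≤ a`), `Irreducible (fa f a)` by `mo_fib`, and `Eff d C (fa f a) a`: for `F` with `INg (fa f a) F` use `mo_ing` and the bound `(a H)^C1 ≤ (a H)^C` (`1 ≤ a H`). `(a - X0)^C1 ≤ (a - X0)^C`: if `a = X0` then `0^C1 ≤ 1 ≤ X0`, else `1 ≤ a - X0`. -/

namespace Pool.Agent.H97.FB

open Finset Polynomial Pool.Agent.H72.ES Pool.Agent.H34.AC

theorem window_gen (n m d : ℕ) (hn : 5 ≤ n) (hm : 1 ≤ m) (hd : 3 ≤ d) : ∃ C : ℕ, 1 ≤ C ∧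
    ∀ (f : ℤ[X][X]) (B X0 : ℕ), f.natDegree = n → (∀ i, (f.coeff i).natDegree ≤ m) →
      (∀ i j, |(f.coeff i).coeff j| ≤ (B : ℤ)) →
      Irreducible (f.map (mapRingHom (Int.castRingHom ℂ))) → 2 ≤ B → B ^ C ≤ X0 →
      ∃ E : Finset ℕ, E.card ≤ C ∧ ∀ a : ℕ, X0 ≤ a → (a - X0) ^ C ≤ X0 → a ∉ E →
        Irreducible ((fa f a).map (Int.castRingHom ℚ)) ∧ Eff d C (fa f a) a := by
  obtain ⟨C1, hC1⟩ := window n m d hn hd
  obtain ⟨c, hc⟩ := exists_famB n m (by omega) hm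
  refine ⟨C1 + (m + 2) * n * c * C1 + 2, by omega, ?_⟩
  intro f B X0 hdeg hcd hle hirr hB hX0
  obtain ⟨K, hK⟩ : ∃ K : ℕ, K = C1 + (m + 2) * n * c * C1 + 2 := ⟨_, rfl⟩
  rw [← hK] at hX0 ⊢
  have hKC1 : C1 ≤ K := by
    rw [hK]
    exact (Nat.le_add_right _ _).trans (Nat.le_add_right _ _)
  have hKc : (m + 2) * n * c * C1 ≤ K := by
    rw [hK]
    exact (Nat.le_add_left _ _).trans (Nat.le_add_right _ _)
  have hK2 : 2 ≤ K := by
    rw [hK]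
    exact Nat.le_add_left _ _
  have hn1 : 1 ≤ n := by omega
  have hB1 : 1 ≤ B := by omega
  obtain ⟨hmon, hmdeg⟩ := mo_monic hn1 f
  have hmle := mo_le hn1 hB1 hcd hle
  have hbase : 2 ≤ (m + 1) * B := le_trans hB (Nat.le_mul_of_pos_left B (Nat.succ_pos m))
  have hB12 : 2 ≤ ((m + 1) * B) ^ n :=
    hbase.trans (Nat.le_self_pow (by omega) _)
  obtain ⟨B', hB', ⟨Fm⟩⟩ := hc (mo n f) (((m + 1) * B) ^ n) hB12 hmon hmdeg (mo_deg hn1 hcd) hmle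
    (mo_irr hn1 hdeg hirr)
  have h0 : ((m + 1) * B) ^ n ≤ B ^ ((m + 2) * n) := by
    have e1 : m + 1 ≤ B ^ (m + 1) :=
      (Nat.lt_two_pow_self (n := m + 1)).le.trans (Nat.pow_le_pow_left hB _)
    have e2 : (m + 1) * B ≤ B ^ (m + 2) := by
      calc (m + 1) * B ≤ B ^ (m + 1) * B := Nat.mul_le_mul_right B e1
        _ = B ^ (m + 2) := by rw [← pow_succ]
    calc ((m + 1) * B) ^ n ≤ (B ^ (m + 2)) ^ n := Nat.pow_le_pow_left e2 n
      _ = B ^ ((m + 2) * n) := by rw [← pow_mul]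
  have h1 : B' ^ C1 ≤ X0 := by
    calc B' ^ C1 ≤ ((((m + 1) * B) ^ n) ^ c) ^ C1 := Nat.pow_le_pow_left hB' _
      _ ≤ ((B ^ ((m + 2) * n)) ^ c) ^ C1 := Nat.pow_le_pow_left (Nat.pow_le_pow_left h0 _) _
      _ = B ^ ((m + 2) * n * c * C1) := by simp only [← pow_mul, mul_assoc]
      _ ≤ B ^ K := Nat.pow_le_pow_right hB1 hKc
      _ ≤ X0 := hX0
  have hX1 : 1 ≤ X0 := (Nat.one_le_pow _ _ hB1).trans hX0
  have hBX : B + 1 ≤ X0 := by
    calc B + 1 ≤ B ^ 2 := by nlinarith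
      _ ≤ B ^ K := Nat.pow_le_pow_right hB1 hK2
      _ ≤ X0 := hX0
  obtain ⟨E, hE, hEw⟩ := hC1 B' (mo n f) Fm X0 h1
  refine ⟨E, hE.trans hKC1, fun a ha haC haE => ?_⟩
  have haC1 : (a - X0) ^ C1 ≤ X0 := by
    rcases Nat.eq_zero_or_pos (a - X0) with h | h
    · rw [h]
      rcases Nat.eq_zero_or_pos C1 with h' | h'
      · rw [h', pow_zero]
        exact hX1
      · rw [zero_pow h'.ne']
        exact Nat.zero_le _
    · exact (Nat.pow_le_pow_right h hKC1).trans haC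
  obtain ⟨hi, he⟩ := hEw a ha haC1 haE
  have hf0 : f.coeff n ≠ 0 := by
    have h2 : f ≠ 0 := by
      rintro rfl
      rw [natDegree_zero] at hdeg
      omega
    rw [← hdeg]
    exact leadingCoeff_ne_zero.2 h2
  have hnz : (f.coeff n).eval (a : ℤ) ≠ 0 := mo_nz hf0 (hle n) (hBX.trans ha)
  refine ⟨mo_fib hn1 hdeg hnz hi, ?_⟩
  intro F hF hFd hIN H hH hHF x y hxy
  refine (he F hF hFd (mo_ing hn1 hdeg hnz hIN) H hH hHF x y hxy).trans ?_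
  refine Nat.pow_le_pow_right ?_ hKC1
  have : 1 ≤ a := hX1.trans ha
  exact Nat.mul_pos this (by omega)

end Pool.Agent.H97.FB
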