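import Pool.Agent.H97.FB.PRX
import Pool.Agent.H97.FB.RDG
import Pool.Agent.H97.FB.CLQ

/-! # [H97 FB WIN] The window theorem for families in normal form

`Eff d C g a`: every curve of degree `≤ d` all of whose real points at infinity carry a root of `g` has its integer points bounded by `(a H)^C`.
CONSTANTS. `c, C1` from `no_pair n m d`, `J0, C2` from `cliques n m`, `CT` from `thA_rts n m`. `C` large: `C ≥ 2 C1 + 2 C2 + CT`, `C ≥ cR d * c * (2 d + 3)`, `C ≥ C1 * 2 * (2 d + 3)`, `C ≥ J0 + n (1 + J0)`, `C ≥ 1`. The window `W = {a : X0 ≤ a, (a - X0)^C ≤ X0}` is finite (`a ≤ 2 X0`; `Finset.range (2 X0 + 1)` filtered; `X0 ≥ 1` since `B ≥ 2`).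
`E = {a ∈ W : ¬ (Irreducible .. ∧ Eff d C (fa f a) a)}` (classical). `E = E1 ∪ E2`: `E1` those with `fa f a` reducible over `ℚ` (`card ≤ J0`: `cliques` with `k = ℚ`, `Module.finrank ℚ ℚ = 1 ≤ n`; `algebraMap ℤ ℚ = Int.castRingHom ℚ`; `(a - X0)^C2 ≤ (a - X0)^C`-type monotonicity, the case `a = X0` separately: `0 ^ C2`, `C2` may be `0`:
use `max C2 1`), `E2` those with `fa f a` irreducible and not `Eff`.
For `a ∈ E2`: there are `F, H, x, y` with all hypotheses and `(a H)^C < max |x| |y|`. `Rts` by `thA_rts`. `redG n d _ _ c _ (fa f a) θ ..` (`H^(cR d * c * (2d+3)) ≤ (a H)^C < max`, `1 ≤ a`) gives `P, l, P.Thr c, max ≤ |P.x|^(2d+3)`, labels. So `C log a ≤ (2 d + 3) ell` (logarithms, `1 ≤ H`), hence `C1 log a' ≤ ell` for every `a'` of the window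
(`a' ≤ 2 X0 ≤ 2 a ≤ a^2`, `log a' ≤ 2 log a`). Choose such data for every `a ∈ E2` (`choose`), `t a = l` the type. For each `i : Fin n` the set `T = {a ∈ E2 : t a = i}` has at most `1 + J0` elements: if `T` is not empty let `a0 = T.min'`, `k = AdjoinRoot ((fa f a0).map (Int.castRingHom ℚ))`, a number field of degree `n`
(`AdjoinRoot.powerBasis`, `natDegree = n` by `Fm.monic`, `Fm.deg`), `cliques` for `k` and `T.erase a0` : if every `a' ∈ T.erase a0` had `fa f a'` reducible over `k` then `card ≤ J0`; more precisely the subset of `T.erase a0` where it is reducible has `≤ J0` elements, and for `a' ∈ T.erase a0` with `fa f a'` irreducible over `k`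
`no_pair` (with `a0 < a'`, `((a' - a0) B)^C1 ≤ X0 ≤ a0` since `(a' - a0)^(2 C1) ≤ X0`, `B^(2 C1) ≤ X0`: the product of the squares) is a contradiction. So `card T ≤ 1 + J0`, `card E2 ≤ n (1 + J0)` (`Finset.card_eq_sum_card_fiberwise`). -/

namespace Pool.Agent.H97.FB

open Finset Polynomial Pool.Agent.H72.ES Pool.Agent.H87.SA Pool.Agent.H87.SA2 Pool.Agent.H87.AX
  Pool.Agent.H8.AW Pool.Agent.H52.AC Pool.Agent.H97.NW Pool.Agent.H34.AC

/-- every curve of degree at most `d` all of whose real points at infinity carry a root of `g` has all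
its integer points bounded by `(a H)^C` -/
def Eff (d C : ℕ) (g : ℤ[X]) (a : ℕ) : Prop :=
  ∀ F : MvPolynomial (Fin 2) ℤ, Irreducible (MvPolynomial.map (Int.castRingHom ℚ) F) →
    F.totalDegree ≤ d → INg g F → ∀ H : ℕ, 2 ≤ H → (∀ e, |F.coeff e| ≤ (H : ℤ)) →
    ∀ x y : ℤ, vl F x y = 0 → max x.natAbs y.natAbs ≤ (a * H) ^ C

private theorem win_pow {x X0 C C' : ℕ} (h : x ^ C ≤ X0) (hC : C' ≤ C) (hX : 1 ≤ X0) :
    x ^ C' ≤ X0 := by
  rcases Nat.eq_zero_or_pos x with h0 | h0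
  · subst h0
    rcases Nat.eq_zero_or_pos C' with h1 | h1
    · rw [h1, pow_zero]
      exact hX
    · rw [zero_pow (by omega)]
      omega
  · exact (Nat.pow_le_pow_right h0 hC).trans h

private theorem win_self {x X0 C : ℕ} (h : x ^ C ≤ X0) (hC : 1 ≤ C) : x ≤ X0 :=
  (Nat.le_self_pow (by omega) x).trans h

private theorem win_sq {u v X0 C C1 : ℕ} (hu : u ^ C ≤ X0) (hv : v ^ C ≤ X0) (hC : 2 * C1 ≤ C)
    (hX : 1 ≤ X0) : (u * v) ^ C1 ≤ X0 := by
  have h1 := win_pow hu hC hX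
  have h2 := win_pow hv hC hX
  have h3 : ((u * v) ^ C1) ^ 2 ≤ X0 ^ 2 := by
    calc ((u * v) ^ C1) ^ 2 = u ^ (2 * C1) * v ^ (2 * C1) := by
          rw [← pow_mul, mul_comm C1 2, mul_pow]
      _ ≤ X0 * X0 := Nat.mul_le_mul h1 h2
      _ = X0 ^ 2 := by ring
  exact (Nat.pow_le_pow_iff_left two_ne_zero).1 h3

/-- the data of an exceptional fibre -/
private theorem win_data {n m d : ℕ} (hn : 2 ≤ n) (hd : 3 ≤ d) {c : ℕ}
    (hc : cA (d * (d + 1)) ≤ c) {B : ℕ} {f : ℤ[X][X]} (Fm : FamB n m B f) {a C C1 : ℕ}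
    (ha : 1 ≤ a) (hR : Rts (fa f a) (thA Fm.pd m a))
    (hirr : Irreducible ((fa f a).map (Int.castRingHom ℚ)))
    (hC : cR d * c * (2 * d + 3) ≤ C) (hC1 : (2 * d + 3) * C1 ≤ C)
    (hE : ¬ Eff d C (fa f a) a) :
    ∃ (l : Fin n) (P : Ptd (d * (d + 1))), P.Thr c ∧ C1 * Real.log a ≤ P.ell ∧
      Nonempty (LbG P (v1 (thA Fm.pd m a)) l) := by
  unfold Eff at hE
  push Not at hE
  obtain ⟨F, hF, hdeg, hinf, H, hH2, hH, x, y, h0, hbig⟩ := hE
  have haH : 1 ≤ a * H := Nat.mul_pos ha (by omega)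
  have h1 : H ^ (cR d * c * (2 * d + 3)) ≤ (a * H) ^ C :=
    (Nat.pow_le_pow_left (Nat.le_mul_of_pos_left H ha) _).trans (Nat.pow_le_pow_right haH hC)
  obtain ⟨P, l0, hT, hx, hL⟩ := redG n d hn hd c hc (fa f a) (thA Fm.pd m a)
    (Fm.monic.map _) hirr hR F hF hdeg hinf H hH2 hH x y h0 (h1.trans_lt hbig)
  refine ⟨l0, P, hT, ?_, hL⟩
  have har : (1 : ℝ) ≤ a := by exact_mod_cast ha
  have hHr : (1 : ℝ) ≤ H := by exact_mod_cast (by omega : 1 ≤ H)
  have hla : 0 ≤ Real.log a := Real.log_nonneg har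
  have h2 : ((a : ℝ) * H) ^ C < |(P.x : ℝ)| ^ (2 * d + 3) := by
    refine lt_of_lt_of_le ?_ hx
    have : ((a * H) ^ C : ℕ) < max x.natAbs y.natAbs := hbig
    exact_mod_cast this
  have h3 : (0 : ℝ) < (a : ℝ) * H := by positivity
  have h4 := Real.log_le_log (pow_pos h3 C) h2.le
  rw [Real.log_pow, Real.log_pow, Real.log_mul (by positivity) (by positivity)] at h4
  have h5 : 0 ≤ Real.log H := Real.log_nonneg hHr
  have h6 : (((2 * d + 3) * C1 : ℕ) : ℝ) * Real.log a ≤ (C : ℝ) * Real.log a :=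
    mul_le_mul_of_nonneg_right (by exact_mod_cast hC1) hla
  have h7 : (0 : ℝ) ≤ (C : ℝ) * Real.log H := by positivity
  have h8 : (((2 * d + 3 : ℕ) : ℝ)) * (C1 * Real.log a) ≤ ((2 * d + 3 : ℕ) : ℝ) * P.ell := by
    unfold Ptd.ell
    push_cast at h6 h4 ⊢
    nlinarith
  exact le_of_mul_le_mul_left h8 (by positivity)

private theorem win_alg {K : Type} [CommRing K] (i j : Algebra ℤ K) (p : ℤ[X])
    (h : Irreducible (p.map (@algebraMap ℤ K _ _ i))) :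
    Irreducible (p.map (@algebraMap ℤ K _ _ j)) := by
  have h1 : @algebraMap ℤ K _ _ i = @algebraMap ℤ K _ _ j := RingHom.ext_int _ _
  rwa [← h1]

/-- the fibres of the same type -/
private theorem win_fibre {n m d : ℕ} {c C1 C2 J0 : ℕ}
    (hNP : ∀ (B : ℕ) (f : ℤ[X][X]) (Fm : FamB n m B f) (a a' : ℕ), a < a' →
      ((a' - a) * B) ^ C1 ≤ a →
      Irreducible ((fa f a).map (Int.castRingHom ℚ)) →
      Irreducible ((fa f a').map (Int.castRingHom ℚ)) →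
      Irreducible ((fa f a').map (algebraMap ℤ (AdjoinRoot ((fa f a).map (Int.castRingHom ℚ))))) →
      ∀ (P0 P1 : Ptd (d * (d + 1))) (l : Fin n) (_ : LbG P0 (v1 (thA Fm.pd m a)) l)
        (_ : LbG P1 (v1 (thA Fm.pd m a')) l), P0.Thr c → P1.Thr c →
      C1 * Real.log a ≤ P0.ell → C1 * Real.log a ≤ P1.ell → False)
    (hCL : ∀ (B : ℕ) (f : ℤ[X][X]) (_ : FamB n m B f) (X0 : ℕ),
      B ^ C2 ≤ X0 → ∀ (k : Type) [Field k] [NumberField k], Module.finrank ℚ k ≤ n →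
      ∀ S : Finset ℕ, (∀ a ∈ S, X0 ≤ a ∧ (a - X0) ^ C2 ≤ X0) →
        (∀ a ∈ S, ¬ Irreducible ((fa f a).map (algebraMap ℤ k))) → S.card ≤ J0)
    {B : ℕ} {f : ℤ[X][X]} (Fm : FamB n m B f) {X0 C : ℕ} (hC1 : 2 * C1 ≤ C) (hC2 : C2 ≤ C)
    (hX : B ^ C ≤ X0) (hX1 : 1 ≤ X0) (T : Finset ℕ)
    (hT : ∀ a ∈ T, X0 ≤ a ∧ (a - X0) ^ C ≤ X0) (l : Fin n)
    (hD : ∀ a ∈ T, Irreducible ((fa f a).map (Int.castRingHom ℚ)) ∧
      ∃ P : Ptd (d * (d + 1)), P.Thr c ∧ C1 * Real.log a ≤ P.ell ∧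
        Nonempty (LbG P (v1 (thA Fm.pd m a)) l)) : T.card ≤ 1 + J0 := by
  classical
  rcases T.eq_empty_or_nonempty with h0 | h0
  · rw [h0, card_empty]
    omega
  · obtain ⟨a0, ha0⟩ : ∃ a0, a0 = T.min' h0 := ⟨_, rfl⟩
    have haT : a0 ∈ T := ha0 ▸ T.min'_mem h0
    obtain ⟨hirr, P0, hP0, hl0, ⟨L0⟩⟩ := hD a0 haT
    obtain ⟨hX0, -⟩ := hT a0 haT
    have hfact : Fact (Irreducible ((fa f a0).map (Int.castRingHom ℚ))) := ⟨hirr⟩
    have hg0 : (fa f a0).map (Int.castRingHom ℚ) ≠ 0 := hirr.ne_zero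
    have hNF : NumberField (AdjoinRoot ((fa f a0).map (Int.castRingHom ℚ))) :=
      { to_charZero := charZero_of_injective_algebraMap (algebraMap ℚ _).injective
        to_finiteDimensional := (AdjoinRoot.powerBasis hg0).finite }
    have hdeg : Module.finrank ℚ (AdjoinRoot ((fa f a0).map (Int.castRingHom ℚ))) ≤ n := by
      rw [(AdjoinRoot.powerBasis hg0).finrank, AdjoinRoot.powerBasis_dim hg0]
      refine natDegree_map_le.trans ?_
      unfold fa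
      exact natDegree_map_le.trans Fm.deg.le
    have hcard := hCL B f Fm X0 (win_pow hX hC2 hX1)
      (AdjoinRoot ((fa f a0).map (Int.castRingHom ℚ))) hdeg (T.erase a0)
      (fun a ha => by
        obtain ⟨h1, h2⟩ := hT a (mem_of_mem_erase ha)
        exact ⟨h1, win_pow h2 hC2 hX1⟩)
      (fun a ha hbad => by
        have haT' := mem_of_mem_erase ha
        have hne := ne_of_mem_erase ha
        obtain ⟨hirr', P1, hP1, hl1, ⟨L1⟩⟩ := hD a haT'
        obtain ⟨h1, h2⟩ := hT a haT'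
        have hle : a0 ≤ a := ha0 ▸ T.min'_le a haT'
        have hlt : a0 < a := lt_of_le_of_ne hle (Ne.symm hne)
        have h3 : (a - a0) ^ C ≤ X0 :=
          (Nat.pow_le_pow_left (Nat.sub_le_sub_left hX0 a) C).trans h2
        have h4 : ((a - a0) * B) ^ C1 ≤ a0 := (win_sq h3 hX hC1 hX1).trans hX0
        have h5 : Real.log a0 ≤ Real.log a :=
          Real.log_le_log (by exact_mod_cast (by omega : 0 < a0)) (by exact_mod_cast hle)
        refine hNP B f Fm a0 a hlt h4 hirr hirr' ?_ P0 P1 l L0 L1 hP0 hP1 hl0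
          ((mul_le_mul_of_nonneg_left h5 (Nat.cast_nonneg C1)).trans hl1)
        exact win_alg _ _ _ hbad)
    rw [card_erase_of_mem haT] at hcard
    omega

theorem window (n m d : ℕ) (hn : 5 ≤ n) (hd : 3 ≤ d) : ∃ C : ℕ, ∀ (B : ℕ) (f : ℤ[X][X])
    (_ : FamB n m B f) (X0 : ℕ), B ^ C ≤ X0 → ∃ E : Finset ℕ, E.card ≤ C ∧
      ∀ a : ℕ, X0 ≤ a → (a - X0) ^ C ≤ X0 → a ∉ E →
        Irreducible ((fa f a).map (Int.castRingHom ℚ)) ∧ Eff d C (fa f a) a := by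
  classical
  obtain ⟨c, C1, hc, hNP⟩ := no_pair n m d hn hd
  obtain ⟨J0, C2, hCL⟩ := cliques n m
  obtain ⟨CT, hTR⟩ := thA_rts n m
  obtain ⟨C, hCd⟩ : ∃ C, C = 2 * C1 + C2 + CT + cR d * c * (2 * d + 3) + (2 * d + 3) * C1 +
    (J0 + (1 + J0) * n) + 1 := ⟨_, rfl⟩
  have hCa : 2 * C1 ≤ C := by rw [hCd]; omega
  have hCb : C2 ≤ C := by rw [hCd]; omega
  have hCc : CT ≤ C := by rw [hCd]; omega
  have hCe : cR d * c * (2 * d + 3) ≤ C := by rw [hCd]; omega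
  have hCf : (2 * d + 3) * C1 ≤ C := by rw [hCd]; omega
  have hCg : J0 + (1 + J0) * n ≤ C := by rw [hCd]; omega
  have hCh : 1 ≤ C := by rw [hCd]; omega
  clear hCd
  refine ⟨C, fun B f Fm X0 hX => ?_⟩
  have hB2 := Fm.B2
  have hX1 : 1 ≤ X0 := (Nat.one_le_pow _ _ (by omega)).trans hX
  obtain ⟨W, hW⟩ : ∃ W : Finset ℕ, ∀ a, a ∈ W ↔ X0 ≤ a ∧ (a - X0) ^ C ≤ X0 := by
    refine ⟨(range (2 * X0 + 1)).filter (fun a => X0 ≤ a ∧ (a - X0) ^ C ≤ X0), fun a => ?_⟩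
    rw [mem_filter, mem_range]
    refine ⟨fun h => h.2, fun h => ⟨?_, h⟩⟩
    have := win_self h.2 hCh
    omega
  obtain ⟨E1, hE1⟩ : ∃ E1 : Finset ℕ, ∀ a, a ∈ E1 ↔ a ∈ W ∧
      ¬ Irreducible ((fa f a).map (Int.castRingHom ℚ)) := ⟨W.filter _, fun a => mem_filter⟩
  obtain ⟨E2, hE2⟩ : ∃ E2 : Finset ℕ, ∀ a, a ∈ E2 ↔ a ∈ W ∧
      (Irreducible ((fa f a).map (Int.castRingHom ℚ)) ∧ ¬ Eff d C (fa f a) a) :=
    ⟨W.filter _, fun a => mem_filter⟩
  have hc1 : E1.card ≤ J0 := by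
    refine hCL B f Fm X0 (win_pow hX hCb hX1) ℚ ?_ E1 (fun a ha => ?_) (fun a ha => ?_)
    · rw [Module.finrank_self]
      omega
    · obtain ⟨h1, h2⟩ := (hW a).1 ((hE1 a).1 ha).1
      exact ⟨h1, win_pow h2 hCb hX1⟩
    · exact ((hE1 a).1 ha).2
  have hdat : ∀ a ∈ E2, ∃ (l : Fin n) (P : Ptd (d * (d + 1))), P.Thr c ∧
      C1 * Real.log a ≤ P.ell ∧ Nonempty (LbG P (v1 (thA Fm.pd m a)) l) := by
    intro a ha
    obtain ⟨h1, h2, h3⟩ := (hE2 a).1 ha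
    obtain ⟨h4, h5⟩ := (hW a).1 h1
    exact win_data (by omega) hd hc Fm (hX1.trans h4)
      (hTR B f Fm a ((win_pow hX hCc hX1).trans h4)) h2 hCe hCf h3
  have hty : ∃ t : ℕ → Fin n, ∀ a ∈ E2, ∃ P : Ptd (d * (d + 1)), P.Thr c ∧
      C1 * Real.log a ≤ P.ell ∧ Nonempty (LbG P (v1 (thA Fm.pd m a)) (t a)) := by
    refine ⟨fun a => if h : a ∈ E2 then (hdat a h).choose else ⟨0, by omega⟩, fun a ha => ?_⟩
    have := (hdat a ha).choose_spec
    simp only [dif_pos ha]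
    exact this
  obtain ⟨t, ht⟩ := hty
  have hc2 : E2.card ≤ (1 + J0) * n := by
    have h1 : E2.card ≤ (1 + J0) * (E2.image t).card := by
      refine card_le_mul_card_image E2 (1 + J0) fun l _ => ?_
      refine win_fibre hNP hCL Fm hCa hCb hX hX1 _ (fun a ha => ?_) l (fun a ha => ?_)
      · exact (hW a).1 ((hE2 a).1 (mem_filter.1 ha).1).1
      · obtain ⟨h1, h2⟩ := mem_filter.1 ha
        refine ⟨((hE2 a).1 h1).2.1, ?_⟩
        have h3 := ht a h1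
        rwa [h2] at h3
    refine h1.trans (Nat.mul_le_mul_left _ ?_)
    exact (card_le_univ _).trans (by rw [Fintype.card_fin])
  refine ⟨E1 ∪ E2, ?_, fun a h1 h2 h3 => ?_⟩
  · exact (card_union_le _ _).trans ((Nat.add_le_add hc1 hc2).trans hCg)
  · rw [mem_union, not_or, hE1, hE2] at h3
    obtain ⟨h4, h5⟩ := h3
    have h6 : a ∈ W := (hW a).2 ⟨h1, h2⟩
    have h7 : Irreducible ((fa f a).map (Int.castRingHom ℚ)) := by
      by_contra h
      exact h4 ⟨h6, h⟩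
    refine ⟨h7, ?_⟩
    by_contra h
    exact h5 ⟨h6, h7, h⟩

end Pool.Agent.H97.FB
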